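import Pool.Agent.Lib_MP_f1a94e_ecc.Defs
import Pool.Agent.Lib_MP_f1a94e_aq.Defs

/-!
# MP_f1a94e_nt, Edge Chowla, block M: definitions
Matomaki-Radziwill in arcs of bounded length for `(-1) ^ Ω(nm z)` in residue classes.
-/

set_option autoImplicit false

namespace Pool.Agent.ECM

open Finset Pool.Agent.GaussMR Pool.Agent.GaussCM Pool.Agent.OmAll

/-- completely multiplicative functions of period `D` which vanish on the even elements (`D` even in the applications) -/
structure Chi (D : ℕ) (χ : G → ℂ) : Prop where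
  one : χ 1 = 1
  mul : ∀ z w, χ (z * w) = χ z * χ w
  per : ∀ z w, cg D z w → χ z = χ w
  even : ∀ z, ¬ Odd (nm z) → χ z = 0
  le : ∀ z, ‖χ z‖ ≤ 1

/-- `z` is invertible modulo `D` -/
def Inv (D : ℕ) (z : G) : Prop := ∃ w : G, cg D (z * w) 1

/-- principal characters -/
def Pri (D : ℕ) (χ : G → ℂ) : Prop := ∀ z, Inv D z → χ z = 1

/-- the imaginary unit -/
def ii : G := ⟨0, 1⟩

/-- `i * star w`: exchange of the coordinates -/
def fl (w : G) : G := ⟨w.im, w.re⟩

/-- Liouville function of the norm times a character -/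
noncomputable def FL (χ : G → ℂ) (z : G) : ℂ := (-1 : ℂ) ^ ArithmeticFunction.cardFactors (nm z) * χ z

/-- `arg z` lies in `[θ, θ + w)` modulo `2 π` -/
def InArc (θ w : ℝ) (z : G) : Prop :=
  ∃ j : ℤ, θ ≤ Complex.arg (z : ℂ) + 2 * Real.pi * j ∧ Complex.arg (z : ℂ) + 2 * Real.pi * j < θ + w

open Classical in
/-- the sum over an arc -/
noncomputable def arcS (F : G → ℂ) (X w θ : ℝ) : ℂ := ∑ z ∈ V X, if InArc θ w z then F z else 0

/-- `u` is free of primes of norm less than `y` -/
def Rough (y : ℝ) (u : G) : Prop := ∀ p : G, Prime p → p ∣ u → y ≤ (nm p : ℝ)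

theorem fl_eq (w : G) : fl w = ii * star w := by
  apply Zsqrtd.ext <;> simp [fl, ii]

theorem nm_fl (w : G) : nm (fl w) = nm w := by
  have h : (nm (fl w) : ℤ) = nm w := by
    rw [nm_eq, nm_eq]; simp [fl]; ring
  exact_mod_cast h

theorem fl_fl (w : G) : fl (fl w) = w := rfl

theorem nm_ii : nm ii = 1 := by
  have h : (nm ii : ℤ) = 1 := by
    rw [nm_eq]; simp [ii]
  exact_mod_cast h

end Pool.Agent.ECM
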