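import Pool.Agent.Lib_MP_f1a94e_mr.Defs

/-!
# Derivative tests: definition
-/

set_option autoImplicit false

namespace Pool.Agent.ECM

open Finset Pool.Agent.GaussMR
open scoped ContDiff

/-- the `q`-th derivative test with parameters `β, ρ, η, C` (the old `DTest q β η C` is the case `ρ = 1 / 100`) -/
def DTR (q : ℕ) (β ρ η C : ℝ) : Prop :=
  ∀ (f : ℝ → ℝ), ContDiff ℝ ∞ f → ∀ (a b : ℤ) (L lam Lam : ℝ), a ≤ b → 1 ≤ L → (b : ℝ) - a ≤ L →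
    L ^ (-(7 / 4 : ℝ)) ≤ lam → lam ≤ Lam → Lam ≤ L ^ (-β) → Lam ≤ lam * L ^ ρ →
    (∀ x ∈ Set.Icc (a : ℝ) b, lam ≤ iteratedDeriv q f x ∧ iteratedDeriv q f x ≤ Lam) →
    ‖∑ n ∈ Finset.Icc a b, ee (f n)‖ ≤ C * L ^ (1 - η)

/-- the statement of `dtr_all` (DTwoG.lean) -/
def DTRAll (Q : ℕ) : Prop := ∃ β ρ η C : ℝ, 0 < β ∧ (2 : ℝ) ^ Q * β ≤ 1 / 2 ∧ 0 < ρ ∧ ρ ≤ β ∧ 0 < η ∧ η ≤ 1 / 2 ∧ 0 < C ∧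
    ∀ q : ℕ, 2 ≤ q → q ≤ Q → DTR q ((2 : ℝ) ^ (q - 2) * β) ρ η C

end Pool.Agent.ECM
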