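import Pool.Agent.Lib_MP_f1a94e_mr.DT
import Pool.Agent.Lib_MP_f1a94e_ecm.DTRD

/-!
# Piece M-DT: derivative tests of arbitrary order with small parameters
-/

set_option autoImplicit false

namespace Pool.Agent.ECM

open Finset Pool.Agent.GaussMR
open scoped ContDiff

/-- Copy the proof of `dt_two` (Lib_MP_f1a94e_mr/DTTwo.lean): `L Lam lam^(-1/2) ≤ L lam^(1/2) L^ρ ≤ L^(1 - β/2 + β/4)`, `lam^(-1/2) ≤ L^(7/8) ≤ L^(1 - β/4)`,
`L Lam ≤ L^(1 - β)`. -/
theorem dtr_two (β : ℝ) (hβ : 0 < β) (hβ' : β ≤ 1 / 4) : DTR 2 β (β / 4) (β / 4) 100 := by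
  intro f hf a b L lam Lam hab hL hbL h1 h2 h3 h4 h5
  have hL0 : 0 < L := by linarith
  have hlam : 0 < lam := lt_of_lt_of_le (Real.rpow_pos_of_pos hL0 _) h1
  have hLam : 0 < Lam := lt_of_lt_of_le hlam h2
  have hLam1 : Lam ≤ 1 := h3.trans (Real.rpow_le_one_of_one_le_of_nonpos hL (by linarith))
  have hsd : ∀ n : ℤ, a ≤ n → n + 1 < b → lam ≤ f ((n : ℤ) + 2 : ℤ) - 2 * f ((n + 1 : ℤ)) + f n ∧
      f ((n : ℤ) + 2 : ℤ) - 2 * f ((n + 1 : ℤ)) + f n ≤ Lam := by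
    intro n hn hn'
    obtain ⟨x, hx, hx'⟩ := dt_second_diff f hf n
    have hn1 : (a : ℝ) ≤ n := by exact_mod_cast hn
    have hn2 : (n : ℝ) + 2 ≤ b := by
      have : n + 2 ≤ b := by omega
      exact_mod_cast this
    push_cast
    rw [hx']
    exact h5 x ⟨hn1.trans hx.1, hx.2.trans hn2⟩
  have hmain := second_deriv (fun n : ℤ => f n) a b hab lam Lam hlam h2 hLam1
    (fun n hn hn' => (hsd n hn hn').1) (fun n hn hn' => (hsd n hn hn').2)
  refine hmain.trans ?_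
  have hs : 0 < Real.sqrt lam := Real.sqrt_pos.mpr hlam
  have hba : (0 : ℝ) ≤ (b : ℝ) - a := by
    have : (a : ℝ) ≤ b := by exact_mod_cast hab
    linarith
  have e1 : ((b : ℝ) - a) * Lam ≤ L * L ^ (-β) := by gcongr
  have e1' : L * L ^ (-β) = L ^ (1 - β) := by
    nth_rewrite 1 [← Real.rpow_one L]
    rw [← Real.rpow_add hL0]
    ring_nf
  have e2 : 1 / Real.sqrt lam ≤ L ^ (7 / 8 : ℝ) := by
    rw [one_div, inv_le_comm₀ hs (Real.rpow_pos_of_pos hL0 _), ← Real.rpow_neg hL0.le]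
    apply Real.le_sqrt_of_sq_le
    rw [← Real.rpow_natCast, ← Real.rpow_mul hL0.le]
    have e7 : (-(7 / 8) : ℝ) * ((2 : ℕ) : ℝ) = -(7 / 4) := by norm_num
    rw [e7]
    exact h1
  have e3 : ((b : ℝ) - a) * Lam * (1 / Real.sqrt lam) ≤ L ^ (1 - β / 4) := by
    have s1 : Real.sqrt lam ≤ L ^ (-(β / 2)) := by
      apply Real.sqrt_le_iff.mpr
      refine ⟨(Real.rpow_pos_of_pos hL0 _).le, ?_⟩
      rw [← Real.rpow_natCast, ← Real.rpow_mul hL0.le]
      refine (h2.trans h3).trans (le_of_eq ?_)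
      congr 1
      push_cast
      ring
    have s2 : Lam * (1 / Real.sqrt lam) ≤ Real.sqrt lam * L ^ (β / 4) := by
      rw [mul_one_div, div_le_iff₀ hs]
      calc Lam ≤ lam * L ^ (β / 4) := h4
        _ = Real.sqrt lam * L ^ (β / 4) * Real.sqrt lam := by
          rw [mul_right_comm, Real.mul_self_sqrt hlam.le]
    calc ((b : ℝ) - a) * Lam * (1 / Real.sqrt lam) = ((b : ℝ) - a) * (Lam * (1 / Real.sqrt lam)) := by
          ring
      _ ≤ L * (L ^ (-(β / 2)) * L ^ (β / 4)) := by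
          apply mul_le_mul hbL (s2.trans _) (by positivity) hL0.le
          gcongr
      _ = L ^ (1 + (-(β / 2)) + β / 4) := by
          rw [Real.rpow_add hL0, Real.rpow_add hL0, Real.rpow_one]
          ring
      _ = L ^ (1 - β / 4) := by
          congr 1
          ring
  have g1 : L ^ (1 - β) ≤ L ^ (1 - β / 4) := by
    apply Real.rpow_le_rpow_of_exponent_le hL
    linarith
  have g2 : L ^ (7 / 8 : ℝ) ≤ L ^ (1 - β / 4) := by
    apply Real.rpow_le_rpow_of_exponent_le hL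
    linarith
  have g3 : (1 : ℝ) ≤ L ^ (1 - β / 4) := Real.one_le_rpow hL (by linarith)
  have e5 : 20 * (((b : ℝ) - a) * Lam + 1) * (1 / Real.sqrt lam + 1) =
      20 * (((b : ℝ) - a) * Lam * (1 / Real.sqrt lam) + ((b : ℝ) - a) * Lam +
        1 / Real.sqrt lam + 1) := by ring
  rw [e5]
  rw [e1'] at e1
  linarith [e1, e2, e3, g1, g2, g3]

/-- Copy the proof of `dt_step` (Lib_MP_f1a94e_mr/DT.lean) word by word: the ratio `Lam / lam` is not changed by the differencing. -/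
theorem dtr_step (q : ℕ) (β ρ η C : ℝ) (hβ : 0 < β) (hβ' : β ≤ 1 / 4) (hρ : 0 < ρ) (hη : 0 < η) (hη' : η ≤ β)
    (hC : 0 < C) (h : DTR q β ρ η C) : ∃ C' : ℝ, 0 < C' ∧ DTR (q + 1) (2 * β) ρ (η / 2) C' := by
  refine ⟨Real.sqrt (16 + 8 * C) + 1, by positivity, ?_⟩
  intro f hf a b L lam Lam hab hL hbL h1 h2 h3 h4 h5
  have hL0 : 0 < L := by linarith
  have hlam : 0 < lam := lt_of_lt_of_le (Real.rpow_pos_of_pos hL0 _) h1
  have hLam : 0 < Lam := lt_of_lt_of_le hlam h2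
  set P : ℝ := L ^ (1 - η / 2) with hP
  have hP0 : 0 < P := Real.rpow_pos_of_pos hL0 _
  have hLβ : 1 ≤ L ^ β := Real.one_le_rpow hL hβ.le
  set H : ℕ := ⌊L ^ β⌋₊ with hH
  have hH1 : 1 ≤ H := Nat.le_floor (by simpa using hLβ)
  have hHle : (H : ℝ) ≤ L ^ β := Nat.floor_le (by positivity)
  have hHge : L ^ β / 2 ≤ H := by
    have hlt : L ^ β < (H : ℝ) + 1 := Nat.lt_floor_add_one _
    have : (1 : ℝ) ≤ H := by exact_mod_cast hH1
    linarith
  have hba : (0 : ℝ) ≤ (b : ℝ) - a := by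
    have : (a : ℝ) ≤ b := by exact_mod_cast hab
    linarith
  have hsq : P ^ 2 = L ^ (2 - η) := by
    rw [hP, ← Real.rpow_natCast, ← Real.rpow_mul hL0.le]
    norm_num
    ring_nf
  by_cases hcase : (H : ℤ) ≤ b - a + 1
  · -- the main case
    have hM : ∀ k : ℕ, 1 ≤ k → k < H →
        ‖∑ n ∈ Finset.Icc a (b - k), ee (f ((n + k : ℤ)) - f n)‖ ≤ C * L ^ (1 - η) := by
      intro k hk1 hkH
      have hk0 : (0 : ℝ) < k := by exact_mod_cast hk1
      have hkβ : (k : ℝ) ≤ L ^ β := le_trans (by exact_mod_cast hkH.le) hHle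
      have hg : ContDiff ℝ ∞ (fun t => f (t + k) - f t) := (dt_contDiff_shift f hf k).sub hf
      have := h (fun t => f (t + k) - f t) hg a (b - k) L (k * lam) (k * Lam) (by omega) hL
        (by push_cast; linarith) ?_ (by gcongr) ?_ ?_ ?_
      · convert this using 4
        push_cast
        rfl
      · refine h1.trans ?_
        have : (1 : ℝ) ≤ k := by exact_mod_cast hk1
        nlinarith
      · calc (k : ℝ) * Lam ≤ L ^ β * L ^ (-(2 * β)) := by gcongr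
          _ = L ^ (-β) := by
            rw [← Real.rpow_add hL0]
            ring_nf
      · calc (k : ℝ) * Lam ≤ k * (lam * L ^ ρ) := by gcongr
          _ = k * lam * L ^ ρ := by ring
      · intro x hx
        obtain ⟨y, hy, hy'⟩ := dt_iter_diff f hf q k hk0 x
        rw [hy']
        have hmem : y ∈ Set.Icc (a : ℝ) b := by
          refine ⟨hx.1.trans hy.1, hy.2.trans ?_⟩
          have := hx.2
          push_cast at this
          linarith
        obtain ⟨g1, g2⟩ := h5 y hmem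
        exact ⟨by gcongr, by gcongr⟩
    have hv := vdC (fun n : ℤ => f n) a b hab H hH1 hcase (C * L ^ (1 - η)) (by positivity) hM
    have hN : (b : ℝ) - a + 1 ≤ 2 * L := by linarith
    have hN0 : (0 : ℝ) ≤ (b : ℝ) - a + 1 := by linarith
    have hH0 : (0 : ℝ) < H := by exact_mod_cast hH1
    have t1 : 2 * ((b : ℝ) - a + 1) ^ 2 / H ≤ 16 * P ^ 2 := by
      rw [div_le_iff₀ hH0]
      have s1 : L ^ 2 ≤ P ^ 2 * L ^ β := by
        rw [hsq, ← Real.rpow_add hL0, ← Real.rpow_natCast]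
        apply Real.rpow_le_rpow_of_exponent_le hL
        push_cast
        linarith
      calc 2 * ((b : ℝ) - a + 1) ^ 2 ≤ 2 * (2 * L) ^ 2 := by gcongr
        _ = 8 * L ^ 2 := by ring
        _ ≤ 8 * (P ^ 2 * L ^ β) := by gcongr
        _ = 16 * P ^ 2 * (L ^ β / 2) := by ring
        _ ≤ 16 * P ^ 2 * H := by gcongr
    have t2 : 4 * ((b : ℝ) - a + 1) * (C * L ^ (1 - η)) ≤ 8 * C * P ^ 2 := by
      have s2 : L * L ^ (1 - η) = P ^ 2 := by
        rw [hsq]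
        nth_rewrite 1 [← Real.rpow_one L]
        rw [← Real.rpow_add hL0]
        ring_nf
      calc 4 * ((b : ℝ) - a + 1) * (C * L ^ (1 - η)) ≤ 4 * (2 * L) * (C * L ^ (1 - η)) := by gcongr
        _ = 8 * C * (L * L ^ (1 - η)) := by ring
        _ = 8 * C * P ^ 2 := by rw [s2]
    have t3 : ‖∑ n ∈ Finset.Icc a b, ee (f n)‖ ^ 2 ≤ (16 + 8 * C) * P ^ 2 := by
      refine hv.trans ?_
      linarith
    have t4 : ‖∑ n ∈ Finset.Icc a b, ee (f n)‖ ≤ Real.sqrt ((16 + 8 * C) * P ^ 2) :=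
      Real.le_sqrt_of_sq_le t3
    rw [Real.sqrt_mul (by positivity), Real.sqrt_sq hP0.le] at t4
    linarith
  · -- the trivial bound
    have hcard : ‖∑ n ∈ Finset.Icc a b, ee (f n)‖ ≤ (b : ℝ) - a + 1 := by
      refine (norm_sum_le _ _).trans ?_
      rw [Finset.sum_congr rfl (fun (n : ℤ) _ => vdc_norm_ee (f n))]
      rw [Finset.sum_const, Int.card_Icc, nsmul_eq_mul, mul_one]
      have : ((b + 1 - a).toNat : ℤ) = b + 1 - a := Int.toNat_of_nonneg (by omega)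
      have h' : (((b + 1 - a).toNat : ℤ) : ℝ) = ((b + 1 - a : ℤ) : ℝ) := by rw [this]
      push_cast at h'
      linarith
    have hlt : (b : ℝ) - a + 1 ≤ H := by
      have : b - a + 1 ≤ (H : ℤ) := by omega
      exact_mod_cast this
    have hβP : L ^ β ≤ P := by
      apply Real.rpow_le_rpow_of_exponent_le hL
      linarith
    have hsqrt : 0 ≤ Real.sqrt (16 + 8 * C) := Real.sqrt_nonneg _
    calc ‖∑ n ∈ Finset.Icc a b, ee (f n)‖ ≤ P := by linarith
      _ = 1 * P := (one_mul _).symm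
      _ ≤ (Real.sqrt (16 + 8 * C) + 1) * P := by
        gcongr
        linarith

theorem DTR.mono {q : ℕ} {β ρ η C : ℝ} (h : DTR q β ρ η C) (η' C' : ℝ) (hη : η' ≤ η) (hC : C ≤ C')
    (hC0 : 0 ≤ C) : DTR q β ρ η' C' := by
  intro f hf a b L lam Lam hab hL hbL h1 h2 h3 h4 h5
  refine (h f hf a b L lam Lam hab hL hbL h1 h2 h3 h4 h5).trans ?_
  have : L ^ (1 - η) ≤ L ^ (1 - η') := Real.rpow_le_rpow_of_exponent_le hL (by linarith)
  have h0 : 0 ≤ L ^ (1 - η) := by positivity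
  have h0' : 0 ≤ C' := hC0.trans hC
  gcongr

/-- the tests of order `n + 2`, by induction -/
theorem dtr_iter (Q : ℕ) (β : ℝ) (hβ : 0 < β) (hQ : (2 : ℝ) ^ Q * β ≤ 1 / 4) (n : ℕ) (hn : n ≤ Q) :
    ∃ C : ℝ, 0 < C ∧ DTR (n + 2) ((2 : ℝ) ^ n * β) (β / 4) (β / 4 / (2 : ℝ) ^ n) C := by
  have hpow : ∀ m : ℕ, m ≤ Q → (2 : ℝ) ^ m * β ≤ 1 / 4 := by
    intro m hm
    refine le_trans (mul_le_mul_of_nonneg_right ?_ hβ.le) hQ
    exact pow_le_pow_right₀ (by norm_num) hm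
  induction n with
  | zero =>
    have hb := hpow 0 (Nat.zero_le _)
    rw [pow_zero, one_mul] at hb
    refine ⟨100, by norm_num, ?_⟩
    rw [pow_zero, one_mul, div_one]
    exact dtr_two β hβ hb
  | succ n ih =>
    obtain ⟨C, hC, h⟩ := ih (by omega)
    have h1 : (1 : ℝ) ≤ 2 ^ n := one_le_pow₀ (by norm_num)
    have h2 : β / 4 / (2 : ℝ) ^ n ≤ (2 : ℝ) ^ n * β := by
      have h3 : β / 4 / (2 : ℝ) ^ n ≤ β := by
        rw [div_le_iff₀ (by positivity)]
        nlinarith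
      nlinarith
    obtain ⟨C', hC', h'⟩ := dtr_step (n + 2) ((2 : ℝ) ^ n * β) (β / 4) (β / 4 / (2 : ℝ) ^ n) C
      (by positivity) (hpow n (by omega)) (by positivity) (by positivity) h2 hC h
    refine ⟨C', hC', ?_⟩
    have e1 : 2 * ((2 : ℝ) ^ n * β) = (2 : ℝ) ^ (n + 1) * β := by ring
    have e2 : β / 4 / (2 : ℝ) ^ n / 2 = β / 4 / (2 : ℝ) ^ (n + 1) := by
      rw [pow_succ]
      field_simp
    rw [e1, e2] at h'
    exact h'

/-- Start with `β = 1 / (2 * 2 ^ Q)`, `dtr_two`, apply `dtr_step` (`2 ^ (q - 2) β ≤ 1 / 4` as long as `q + 1 ≤ Q`); then replace `η_q`, `C_q` by the minimum and the maximum over `q ≤ Q` (`DTR` is monotone in `η` and `C`, as in `DTest.mono`). -/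
theorem dtr_all (Q : ℕ) : ∃ β ρ η C : ℝ, 0 < β ∧ (2 : ℝ) ^ Q * β ≤ 1 / 2 ∧ 0 < ρ ∧ ρ ≤ β ∧ 0 < η ∧ η ≤ 1 / 2 ∧ 0 < C ∧
    ∀ q : ℕ, 2 ≤ q → q ≤ Q → DTR q ((2 : ℝ) ^ (q - 2) * β) ρ η C := by
  have hp : (1 : ℝ) ≤ 2 ^ Q := one_le_pow₀ (by norm_num)
  have hQ4 : (2 : ℝ) ^ Q * (1 / (4 * 2 ^ Q)) ≤ 1 / 4 := by
    apply le_of_eq
    field_simp
  set β : ℝ := 1 / (4 * 2 ^ Q) with hβdef
  have hβ : 0 < β := by positivity
  have hβ4 : β ≤ 1 / 4 := by
    rw [hβdef]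
    apply one_div_le_one_div_of_le (by norm_num)
    linarith
  have hex : ∀ n : ℕ, ∃ C : ℝ, 0 < C ∧ (n ≤ Q →
      DTR (n + 2) ((2 : ℝ) ^ n * β) (β / 4) (β / 4 / (2 : ℝ) ^ n) C) := by
    intro n
    by_cases hn : n ≤ Q
    · obtain ⟨C, hC, h⟩ := dtr_iter Q β hβ hQ4 n hn
      exact ⟨C, hC, fun _ => h⟩
    · exact ⟨1, one_pos, fun h => absurd h hn⟩
  choose C hC0 hC using hex
  refine ⟨β, β / 4, β / 4 / 2 ^ Q, ∑ n ∈ Finset.range (Q + 1), C n, hβ, by linarith, by positivity,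
    by linarith, by positivity, ?_, ?_, ?_⟩
  · rw [div_le_iff₀ (by positivity)]
    nlinarith
  · exact Finset.sum_pos (fun n _ => hC0 n) ⟨0, Finset.mem_range.2 (Nat.succ_pos _)⟩
  · intro q hq hqQ
    obtain ⟨n, rfl⟩ : ∃ n, q = n + 2 := ⟨q - 2, by omega⟩
    have hn : n ≤ Q := by omega
    have e : n + 2 - 2 = n := by omega
    rw [e]
    refine (hC n hn).mono _ _ ?_ ?_ (hC0 n).le
    · apply div_le_div_of_nonneg_left (by positivity) (by positivity)
      exact pow_le_pow_right₀ (by norm_num) hn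
    · exact Finset.single_le_sum (f := C) (fun i _ => (hC0 i).le)
        (Finset.mem_range.2 (by omega))

end Pool.Agent.ECM
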