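import Pool.Agent.Lib_MP_f1a94e_ecm.MDefs

/-!
# Piece M-CHIN: characters have modulus one on large primes; products of numbers near one
-/

set_option autoImplicit false

namespace Pool.Agent.ECM

open Finset Pool.Agent.GaussMR Pool.Agent.GaussCM Pool.Agent.OmAll

private theorem chin_cop (D : ℕ) (hD : 0 < D) (p : G) (hp : Prime p) (h : (D : ℝ) ^ 2 < (nm p : ℝ)) :
    Nat.Coprime (nm p) D := by
  have h0 : D ^ 2 < nm p := by exact_mod_cast h
  have hself : p * star p = ((nm p : ℕ) : G) := by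
    apply Zsqrtd.ext
    · have := nm_eq p
      simp [this]; ring
    · simp; ring
  have hnp : nm p ≠ 0 := by omega
  -- `p` divides a rational prime `q`
  have hdiv : p ∣ ((nm p : ℕ) : G) := ⟨star p, hself.symm⟩
  have hq : ∃ q : ℕ, q.Prime ∧ p ∣ ((q : ℕ) : G) := by
    have h1 : ((nm p : ℕ) : G) = (((nm p).primeFactorsList.map (fun q : ℕ => ((q : ℕ) : G)))).prod := by
      conv_lhs => rw [← Nat.prod_primeFactorsList hnp]
      rw [Nat.cast_list_prod]
    rw [h1] at hdiv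
    obtain ⟨a, ha, hpa⟩ := (Prime.dvd_prod_iff hp).1 hdiv
    rw [List.mem_map] at ha
    obtain ⟨q, hq, rfl⟩ := ha
    exact ⟨q, Nat.prime_of_mem_primeFactorsList hq, hpa⟩
  obtain ⟨q, hq, hpq⟩ := hq
  have h2 : nm p ∣ q ^ 2 := by
    have h3 := nm_dvd hpq
    have h4 : nm ((q : ℕ) : G) = q ^ 2 := by
      have : (nm ((q : ℕ) : G) : ℤ) = ((q ^ 2 : ℕ) : ℤ) := by
        rw [nm_eq]; simp
      exact_mod_cast this
    rwa [h4] at h3
  refine Nat.Coprime.symm (Nat.Coprime.coprime_dvd_right h2 ?_)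
  refine Nat.Coprime.pow_right 2 ?_
  refine Nat.Coprime.symm ((Nat.Prime.coprime_iff_not_dvd hq).2 ?_)
  intro h5
  have h6 : q ≤ D := Nat.le_of_dvd hD h5
  have h7 : nm p ≤ q ^ 2 := Nat.le_of_dvd (pow_pos hq.pos 2) h2
  have h8 : q ^ 2 ≤ D ^ 2 := Nat.pow_le_pow_left h6 2
  omega

/-- `|χ z| = 1` for `z` invertible modulo `D`: `χ z χ w = χ 1 = 1` and both are at most `1`. A prime `w` of norm `nm w` prime and `> D` (so `nm w` does not divide `D`), or inert, with `nm w > D ^ 2`, is invertible: `star w * w = nm w` is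
coprime to `D`. -/
theorem chi_norm (D : ℕ) (hD : 0 < D) (χ : G → ℂ) (hχ : Chi D χ) (p : G) (hp : Prime p) (h : (D : ℝ) ^ 2 < (nm p : ℝ)) :
    Inv D p ∧ ‖χ p‖ = 1 := by
  have hcop := chin_cop D hD p hp h
  have hinv : ∃ w : G, cg D (p * w) 1 := by
    refine ⟨star p * ((Nat.gcdA (nm p) D : ℤ) : G), ?_⟩
    have hb := Nat.gcd_eq_gcd_ab (nm p) D
    rw [hcop] at hb
    have hself : p * star p = ((nm p : ℕ) : G) := by
      apply Zsqrtd.ext
      · have := nm_eq p
        simp [this]; ring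
      · simp; ring
    rw [← mul_assoc, hself]
    constructor
    · refine ⟨-(Nat.gcdB (nm p) D), ?_⟩
      simp
      push_cast at hb
      linarith
    · simp
  refine ⟨hinv, ?_⟩
  obtain ⟨w, hw⟩ := hinv
  have h1 : χ p * χ w = 1 := by
    rw [← hχ.mul, hχ.per _ _ hw, hχ.one]
  have h2 : ‖χ p‖ * ‖χ w‖ = 1 := by rw [← norm_mul, h1, norm_one]
  have h3 := hχ.le p
  have h4 := hχ.le w
  have h5 := norm_nonneg (χ p)
  refine le_antisymm h3 ?_
  nlinarith

private theorem chin_sub (l : List ℂ) (h : ∀ z ∈ l, ‖z‖ = 1) :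
    ‖l.prod‖ = 1 ∧ ‖1 - l.prod‖ ≤ (l.map (fun z => ‖1 - z‖)).sum := by
  induction l with
  | nil => simp
  | cons a l ih =>
    have hl : ∀ z ∈ l, ‖z‖ = 1 := fun z hz => h z (List.mem_cons_of_mem _ hz)
    have ha : ‖a‖ = 1 := h a List.mem_cons_self
    obtain ⟨i1, i2⟩ := ih hl
    constructor
    · rw [List.prod_cons, norm_mul, ha, i1, one_mul]
    · rw [List.prod_cons, List.map_cons, List.sum_cons]
      have h1 : 1 - a * l.prod = (1 - a) + a * (1 - l.prod) := by ring
      rw [h1]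
      calc ‖(1 - a) + a * (1 - l.prod)‖ ≤ ‖1 - a‖ + ‖a * (1 - l.prod)‖ := norm_add_le _ _
        _ = ‖1 - a‖ + ‖1 - l.prod‖ := by rw [norm_mul, ha, one_mul]
        _ ≤ _ := by linarith

private theorem chin_sq (z : ℂ) (h : ‖z‖ = 1) : ‖1 - z‖ ^ 2 = 2 * (1 - z.re) := by
  have h1 : Complex.normSq z = 1 := by rw [Complex.normSq_eq_norm_sq, h]; norm_num
  rw [← Complex.normSq_eq_norm_sq, Complex.normSq_apply]
  rw [Complex.normSq_apply] at h1
  simp only [Complex.sub_re, Complex.one_re, Complex.sub_im, Complex.one_im]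
  nlinarith

private theorem chin_cs (l : List ℝ) : l.sum ^ 2 ≤ l.length * (l.map (fun a => a ^ 2)).sum := by
  induction l with
  | nil => simp
  | cons a l ih =>
    rw [List.sum_cons, List.length_cons, List.map_cons, List.sum_cons]
    set S := l.sum
    set T := (l.map (fun a => a ^ 2)).sum
    push_cast
    set n : ℝ := (l.length : ℝ) with hn
    have hT : 0 ≤ T := List.sum_nonneg (by
      intro x hx
      rw [List.mem_map] at hx
      obtain ⟨y, _, rfl⟩ := hx
      positivity)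
    rcases Nat.eq_zero_or_pos l.length with h0 | h0
    · have h1 : n = 0 := by rw [hn, h0]; simp
      rw [h1] at ih ⊢
      have h2 : S = 0 := by nlinarith [sq_nonneg S]
      rw [h2]; nlinarith
    · have h1 : 1 ≤ n := by rw [hn]; exact_mod_cast h0
      have h2 : 0 ≤ n * (n * a ^ 2 + T - 2 * a * S) := by
        nlinarith [sq_nonneg (n * a - S)]
      have h3 : 0 ≤ n * a ^ 2 + T - 2 * a * S := by
        by_contra hneg
        push Not at hneg
        nlinarith
      nlinarith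

/-- For numbers of modulus 1: `1 - Re (z_1 ... z_r) ≤ r ∑ (1 - Re z_i)` (`|1 - z_1...z_r| ≤ ∑ |1 - z_i|`, `|1 - z|² = 2 (1 - Re z)`, Cauchy-Schwarz). -/
theorem one_sub_prod_le (l : List ℂ) (h : ∀ z ∈ l, ‖z‖ = 1) : 1 - l.prod.re ≤ l.length * (l.map (fun z => 1 - z.re)).sum := by
  obtain ⟨h1, h2⟩ := chin_sub l h
  have h3 := chin_sq l.prod h1
  have h4 := chin_cs (l.map (fun z => ‖1 - z‖))
  rw [List.map_map, List.length_map] at h4
  have h5 : (l.map ((fun a : ℝ => a ^ 2) ∘ fun z => ‖1 - z‖)).sum = 2 * (l.map (fun z => 1 - z.re)).sum := by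
    have h6 : l.map ((fun a : ℝ => a ^ 2) ∘ fun z => ‖1 - z‖) = l.map (fun z => 2 * (1 - z.re)) := by
      apply List.map_congr_left
      intro z hz
      exact chin_sq z (h z hz)
    rw [h6, List.sum_map_mul_left]
  rw [h5] at h4
  have h7 : ‖1 - l.prod‖ ^ 2 ≤ (l.map (fun z => ‖1 - z‖)).sum ^ 2 :=
    pow_le_pow_left₀ (norm_nonneg _) h2 2
  rw [h3] at h7
  nlinarith

end Pool.Agent.ECM
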