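import Pool.Agent.Lib_MP_f1a94e_mr.BH

/-!
# Piece M-BH: Brun-Hooley lower bound with multiplicative error terms
-/

set_option autoImplicit false

namespace Pool.Agent.ECM

open Finset Pool.Agent.GaussMR

/-- Copy the proof of `brun_hooley` (Lib_MP_f1a94e_mr/BH.lean): `lam` from `bh_core`, `bh_choice`; the main term is the same, the error is
`∑_A |lam A| |r A| ≤ ∑_(A ⊆ U) E ∏_(p ∈ A) g p = E ∏_(p ∈ U) (1 + g p)` (`Finset.prod_one_add` / `Finset.prod_add_one`). -/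
theorem bh2 (G0 : ℝ) (hG0 : 0 ≤ G0) : ∃ b : ℕ, ∀ (Ω ι : Type) (_inst : DecidableEq ι) (obj : Finset Ω) (w : Ω → ℝ)
    (t : ℕ) (P : ℕ → Finset ι) (S : Ω → Finset ι) (g : ι → ℝ) (X0 E : ℝ),
    (∀ u ∈ obj, 0 ≤ w u) → (∀ i j, i < t → j < t → i ≠ j → Disjoint (P i) (P j)) →
    (∀ u ∈ obj, S u ⊆ (Finset.range t).biUnion P) →
    (∀ p ∈ (Finset.range t).biUnion P, 0 ≤ g p ∧ g p ≤ 1 / 2) →
    (∀ i < t, ∑ p ∈ P i, g p ≤ G0) → 0 ≤ X0 → 0 ≤ E →
    (∀ D ⊆ (Finset.range t).biUnion P, (∀ i < t, (D ∩ P i).card ≤ 2 * (b + i) + 1) →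
      |∑ u ∈ obj.filter (fun u => D ⊆ S u), w u - X0 * ∏ p ∈ D, g p| ≤ E * ∏ p ∈ D, g p) →
    X0 / 2 * ∏ p ∈ (Finset.range t).biUnion P, (1 - g p) - E * ∏ p ∈ (Finset.range t).biUnion P, (1 + g p) ≤
      ∑ u ∈ obj.filter (fun u => S u = ∅), w u := by
  obtain ⟨b, hb⟩ := bh_choice G0 hG0
  refine ⟨b, ?_⟩
  intro Ω ι inst obj w t P S g X0 E hw hd hS hg hG hX0 hE hr
  have hinst : inst = (fun x y => Classical.propDecidable (x = y)) := Subsingleton.elim _ _
  subst hinst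
  classical
  set U := (Finset.range t).biUnion P with hU
  have hPU : ∀ j < t, P j ⊆ U := fun j hj x hx =>
    Finset.mem_biUnion.2 ⟨j, Finset.mem_range.2 hj, hx⟩
  have hgs : ∀ j < t, 0 ≤ ∑ p ∈ P j, g p := fun j hj =>
    Finset.sum_nonneg fun p hp => (hg p (hPU j hj hp)).1
  obtain ⟨lam, h1, h2, h3, h4⟩ := bh_core t P b hd g hg (by
    refine le_trans (Finset.sum_le_sum fun j hj => ?_) (hb t)
    have hj' := Finset.mem_range.1 hj
    have h0 := hgs j hj'
    have h5 := hG j hj'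
    gcongr)
  rw [← hU] at h2 h3 h4
  have step1 : ∑ u ∈ obj, w u * ∑ A ∈ (S u).powerset, lam A ≤
      ∑ u ∈ obj.filter (fun u => S u = ∅), w u := by
    rw [Finset.sum_filter]
    refine Finset.sum_le_sum fun u hu => ?_
    have h5 := mul_le_mul_of_nonneg_left (h3 (S u) (hS u hu)) (hw u hu)
    refine h5.trans (le_of_eq ?_)
    by_cases hSu : S u = ∅
    · rw [if_pos hSu, if_pos hSu, mul_one]
    · rw [if_neg hSu, if_neg hSu, mul_zero]
  have step2 : ∑ u ∈ obj, w u * ∑ A ∈ (S u).powerset, lam A =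
      ∑ A ∈ U.powerset, lam A * ∑ u ∈ obj.filter (fun u => A ⊆ S u), w u := by
    have e1 : ∀ u ∈ obj, w u * ∑ A ∈ (S u).powerset, lam A =
        ∑ A ∈ U.powerset, if A ⊆ S u then lam A * w u else 0 := by
      intro u hu
      rw [Finset.mul_sum, ← Finset.sum_filter]
      have : U.powerset.filter (fun A => A ⊆ S u) = (S u).powerset := by
        ext A
        simp only [Finset.mem_filter, Finset.mem_powerset]
        exact ⟨fun h => h.2, fun h => ⟨h.trans (hS u hu), h⟩⟩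
      rw [this]
      exact Finset.sum_congr rfl fun A _ => mul_comm _ _
    rw [Finset.sum_congr rfl e1, Finset.sum_comm]
    refine Finset.sum_congr rfl fun A _ => ?_
    rw [Finset.mul_sum, Finset.sum_filter]
  have hgA : ∀ A ∈ U.powerset, 0 ≤ ∏ p ∈ A, g p := fun A hA =>
    Finset.prod_nonneg fun p hp => (hg p (Finset.mem_powerset.1 hA hp)).1
  have step3 : ∀ A ∈ U.powerset, lam A * (X0 * ∏ p ∈ A, g p) - E * ∏ p ∈ A, g p ≤
      lam A * ∑ u ∈ obj.filter (fun u => A ⊆ S u), w u := by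
    intro A hA
    have hA' := Finset.mem_powerset.1 hA
    have hEg : 0 ≤ E * ∏ p ∈ A, g p := mul_nonneg hE (hgA A hA)
    by_cases hl : lam A = 0
    · rw [hl, zero_mul, zero_mul, zero_sub, neg_nonpos]
      exact hEg
    · have hc := h2 A hA' hl
      have h5 := hr A hA' hc
      have h6 : |lam A * (∑ u ∈ obj.filter (fun u => A ⊆ S u), w u - X0 * ∏ p ∈ A, g p)| ≤
          1 * (E * ∏ p ∈ A, g p) := by
        rw [abs_mul]
        exact mul_le_mul (h1 A) h5 (abs_nonneg _) zero_le_one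
      have h7 := (abs_le.1 h6).1
      rw [mul_sub] at h7
      linarith
  have step4 := Finset.sum_le_sum step3
  rw [Finset.sum_sub_distrib, ← Finset.mul_sum, ← Finset.prod_one_add] at step4
  have step5 : X0 / 2 * ∏ p ∈ U, (1 - g p) ≤ ∑ A ∈ U.powerset, lam A * (X0 * ∏ p ∈ A, g p) := by
    have h5 := mul_le_mul_of_nonneg_left h4 hX0
    rw [Finset.mul_sum] at h5
    calc X0 / 2 * ∏ p ∈ U, (1 - g p) = X0 * (1 / 2 * ∏ p ∈ U, (1 - g p)) := by ring
      _ ≤ _ := h5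
      _ = _ := Finset.sum_congr rfl fun A _ => by ring
  linarith

end Pool.Agent.ECM
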