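import Pool.Agent.Lib_MP_f1a94e_ecm.ZDefs
import Pool.Agent.Lib_MP_f1a94e_mr.TK
import Pool.Agent.Lib_MP_f1a94e_mr.VAsymp

/-!
# Piece M-AFCONV: convolution identity of Turan-Kubilius type
-/

set_option autoImplicit false

namespace Pool.Agent.ECM

open Finset Pool.Agent.GaussMR Pool.Agent.GaussCM Pool.Agent.OmAll

open Classical in
/-- the substitution `z' = w z` -/
private theorem afconv_sub (F : G → ℂ) (hF : CM F) {w : G} (hw : Spl w) (X : ℝ) :
    ∑ z ∈ (V (X / nm w)).filter (fun z => ¬ star w ∣ z), F w * F z =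
      ∑ z ∈ (V X).filter (fun z => w ∣ z), F z := by
  have hw0 : w ≠ 0 := ne_zero_of_odd hw.odd
  have hnw : (0 : ℝ) < nm w := by exact_mod_cast nm_pos hw0
  refine Finset.sum_bij (fun z _ => w * z) ?_ ?_ ?_ ?_
  · intro z hz
    rw [Finset.mem_filter, mem_V] at hz
    obtain ⟨⟨h1, h2, h3⟩, h4⟩ := hz
    have h5 : (nm (w * z) : ℝ) ≤ X := by
      rw [nm_mul]
      push_cast
      rw [le_div_iff₀ hnw] at h1
      linarith
    rw [Finset.mem_filter, mem_V]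
    exact ⟨⟨h5, odd_nm_mul.mpr ⟨hw.odd, h2⟩, (prim_mul_iff hw h3).mpr h4⟩,
      dvd_mul_right _ _⟩
  · intro z _ z' _ h
    exact mul_left_cancel₀ hw0 h
  · intro z' hz'
    rw [Finset.mem_filter, mem_V] at hz'
    obtain ⟨⟨h1, h2, h3⟩, ⟨z, rfl⟩⟩ := hz'
    have hz2 : Prim z := (prim_of_mul h3).2
    refine ⟨z, ?_, rfl⟩
    rw [Finset.mem_filter, mem_V]
    refine ⟨⟨?_, (odd_nm_mul.mp h2).2, hz2⟩, (prim_mul_iff hw hz2).mp h3⟩
    rw [nm_mul] at h1
    push_cast at h1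
    rw [le_div_iff₀ hnw]
    linarith
  · intro z hz
    rw [Finset.mem_filter, mem_V] at hz
    rw [hF.mul w z hw.odd hz.1.2.1]

open Classical in
private theorem afconv_div {w : G} (hw : Spl w) (X : ℝ) (hX : 0 ≤ X) :
    (((V (X / nm w)).filter (fun z => star w ∣ z)).card : ℝ) ≤ 9 * X * (1 / (nm w : ℝ) ^ 2) := by
  have hw0 : w ≠ 0 := ne_zero_of_odd hw.odd
  have hnw : (0 : ℝ) < nm w := by exact_mod_cast nm_pos hw0
  have h1 : ((V (X / nm w)).filter (fun z => star w ∣ z)).card ≤ (V (X / (nm w : ℝ) ^ 2)).card := by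
    have hsub : (V (X / nm w)).filter (fun z => star w ∣ z) ⊆
        (V (X / (nm w : ℝ) ^ 2)).image (fun z => star w * z) := by
      intro z hz
      rw [Finset.mem_filter, mem_V] at hz
      obtain ⟨⟨h1, h2, h3⟩, ⟨u, rfl⟩⟩ := hz
      rw [Finset.mem_image]
      refine ⟨u, ?_, rfl⟩
      rw [mem_V]
      refine ⟨?_, (odd_nm_mul.mp h2).2, (prim_of_mul h3).2⟩
      rw [nm_mul, nm_star] at h1
      push_cast at h1
      rw [le_div_iff₀ hnw] at h1
      rw [le_div_iff₀ (by positivity)]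
      nlinarith
    exact (Finset.card_le_card hsub).trans Finset.card_image_le
  have h2 := card_V_le (X / (nm w : ℝ) ^ 2) (by positivity)
  have h3 : (((V (X / nm w)).filter (fun z => star w ∣ z)).card : ℝ) ≤
      ((V (X / (nm w : ℝ) ^ 2)).card : ℝ) := by exact_mod_cast h1
  calc (((V (X / nm w)).filter (fun z => star w ∣ z)).card : ℝ) ≤ _ := h3
    _ ≤ _ := h2
    _ = _ := by ring

/-- `∑ 1 / p ^ 2 ≤ 2` -/
private theorem afconv_sq (P Q : ℝ) (hP : 2 ≤ P) :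
    ∑ w ∈ PP P Q, 1 / (nm w : ℝ) ^ 2 ≤ 2 := by
  classical
  have hn1 : ∀ w ∈ PP P Q, 2 ≤ nm w := fun w hw => by
    have h1 := (mem_PP.mp hw).1
    have : (2 : ℝ) ≤ nm w := by linarith
    exact_mod_cast this
  have hinj : Set.InjOn (fun w : G => nm w) (PP P Q : Set G) := by
    intro a ha b hb hab
    exact PP_inj (Finset.mem_coe.mp ha) (Finset.mem_coe.mp hb) hab
  have hsub : (PP P Q).image (fun w : G => nm w) ⊆ Finset.Ioo 0 (⌊Q⌋₊ + 1) := by
    intro n hn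
    obtain ⟨w, hw, rfl⟩ := Finset.mem_image.mp hn
    have h3 := hn1 w hw
    have h4 : nm w ≤ ⌊Q⌋₊ := Nat.le_floor (mem_PP.mp hw).2.1
    rw [Finset.mem_Ioo]
    omega
  calc ∑ w ∈ PP P Q, 1 / (nm w : ℝ) ^ 2 = ∑ n ∈ (PP P Q).image (fun w : G => nm w), ((n : ℝ) ^ 2)⁻¹ := by
        rw [Finset.sum_image hinj]
        simp only [one_div]
    _ ≤ ∑ n ∈ Finset.Ioo 0 (⌊Q⌋₊ + 1), ((n : ℝ) ^ 2)⁻¹ :=
        Finset.sum_le_sum_of_subset_of_nonneg hsub fun n _ _ => by positivity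
    _ ≤ 2 / (((0 : ℕ) : ℝ) + 1) := sum_Ioo_inv_sq_le 0 (⌊Q⌋₊ + 1)
    _ = 2 := by norm_num

open Classical in
private theorem afconv_om (F : G → ℂ) (P Q X : ℝ) :
    ∑ z ∈ V X, F z * (om P Q z : ℂ) = ∑ w ∈ PP P Q, ∑ z ∈ (V X).filter (fun z => w ∣ z), F z := by
  have h : ∀ z, F z * (om P Q z : ℂ) = ∑ w ∈ PP P Q, if w ∣ z then F z else 0 := by
    intro z
    rw [tk_om_eq_sum]
    push_cast
    rw [Finset.mul_sum]
    refine Finset.sum_congr rfl fun w _ => ?_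
    unfold tk_dvi
    split_ifs <;> simp
  simp only [h]
  rw [Finset.sum_comm]
  refine Finset.sum_congr rfl fun w _ => ?_
  rw [Finset.sum_filter]

open Classical in
private theorem afconv_one (F : G → ℂ) (hF : CM F) (X : ℝ) (hX : 0 ≤ X) {w : G} (hw : Spl w) :
    ‖∑ z ∈ (V X).filter (fun z => w ∣ z), F z - F w * ∑ z ∈ V (X / nm w), F z‖ ≤
      9 * X * (1 / (nm w : ℝ) ^ 2) := by
  have h1 := afconv_sub F hF hw X
  have h2 : ∑ z ∈ V (X / nm w), F z = ∑ z ∈ (V (X / nm w)).filter (fun z => ¬ star w ∣ z), F z +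
      ∑ z ∈ (V (X / nm w)).filter (fun z => star w ∣ z), F z := by
    rw [add_comm, Finset.sum_filter_add_sum_filter_not]
  rw [← h1, h2, ← Finset.mul_sum, mul_add, sub_add_cancel_left, norm_neg, norm_mul]
  have h3 : ‖∑ z ∈ (V (X / nm w)).filter (fun z => star w ∣ z), F z‖ ≤
      (((V (X / nm w)).filter (fun z => star w ∣ z)).card : ℝ) := by
    refine (norm_sum_le _ _).trans ?_
    calc ∑ z ∈ (V (X / nm w)).filter (fun z => star w ∣ z), ‖F z‖ ≤
        ∑ z ∈ (V (X / nm w)).filter (fun z => star w ∣ z), (1 : ℝ) := by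
          refine Finset.sum_le_sum fun z hz => hF.bd z ?_
          exact (mem_V.mp (Finset.mem_filter.mp hz).1).2.1
      _ = _ := by simp
  calc ‖F w‖ * ‖∑ z ∈ (V (X / nm w)).filter (fun z => star w ∣ z), F z‖ ≤
      1 * (((V (X / nm w)).filter (fun z => star w ∣ z)).card : ℝ) :=
        mul_le_mul (hF.bd w hw.odd) h3 (norm_nonneg _) zero_le_one
    _ ≤ _ := by rw [one_mul]; exact afconv_div hw X hX

private theorem afconv_half : ∃ C : ℝ, 0 < C ∧ ∀ P Q s : ℝ, 2 ≤ P → P ≤ Q → Q ^ 20 ≤ Real.exp s → 1 ≤ Ls P Q →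
    ∀ F : G → ℂ, CM F →
    ‖Af F s - ((1 / Ls P Q : ℝ) : ℂ) * ∑ w ∈ PP P Q, F w / (nm w : ℂ) * Af F (s - Real.log (nm w))‖ ≤
      C / Real.sqrt (Ls P Q) := by
  classical
  obtain ⟨C, hC, hTK⟩ := TK
  refine ⟨Real.sqrt (18 * C) + 18, by positivity, ?_⟩
  intro P Q s hP hPQ hQ hL F hF
  obtain ⟨X, hXd⟩ : ∃ X : ℝ, X = Real.exp s := ⟨_, rfl⟩
  obtain ⟨L, hLd⟩ : ∃ L : ℝ, L = Ls P Q := ⟨_, rfl⟩
  have hX0 : 0 < X := by rw [hXd]; exact Real.exp_pos s
  rw [← hXd] at hQ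
  rw [← hLd] at hL ⊢
  have hL0 : 0 < L := by linarith
  have hsL : 0 < Real.sqrt L := Real.sqrt_pos.mpr hL0
  -- main sum
  have hA : ∀ w ∈ PP P Q, F w / (nm w : ℂ) * Af F (s - Real.log (nm w)) =
      (1 / X : ℝ) * (F w * ∑ z ∈ V (X / nm w), F z) := by
    intro w hw
    have hw0 : w ≠ 0 := ne_zero_of_odd (PP_spl hw).odd
    have hnw : (0 : ℝ) < nm w := by exact_mod_cast nm_pos hw0
    unfold Af
    have e1 : Real.exp (s - Real.log (nm w)) = X / nm w := by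
      rw [Real.exp_sub, Real.exp_log hnw, ← hXd]
    have e2 : Real.exp (-(s - Real.log (nm w))) = nm w / X := by
      rw [Real.exp_neg, e1, inv_div]
    rw [e1, e2]
    have hnc : (nm w : ℂ) ≠ 0 := by exact_mod_cast hnw.ne'
    have hXc : (X : ℂ) ≠ 0 := by exact_mod_cast hX0.ne'
    push_cast
    field_simp
  have hB : Af F s = (1 / X : ℝ) * ∑ z ∈ V X, F z := by
    unfold Af
    rw [Real.exp_neg, ← hXd]
    push_cast
    rw [one_div]
  -- error 1
  have hE1 : ‖∑ z ∈ V X, F z * ((om P Q z - L : ℝ) : ℂ)‖ ≤ Real.sqrt (18 * C) * X * Real.sqrt L := by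
    have h1 : ‖∑ z ∈ V X, F z * ((om P Q z - L : ℝ) : ℂ)‖ ≤ ∑ z ∈ V X, 1 * |om P Q z - L| := by
      refine (norm_sum_le _ _).trans (Finset.sum_le_sum fun z hz => ?_)
      rw [norm_mul, Complex.norm_real, Real.norm_eq_abs]
      exact mul_le_mul_of_nonneg_right (hF.bd z (mem_V.mp hz).2.1) (abs_nonneg _)
    have h2 : (∑ z ∈ V X, 1 * |om P Q z - L|) ^ 2 ≤ (∑ z ∈ V X, (1 : ℝ) ^ 2) * ∑ z ∈ V X, |om P Q z - L| ^ 2 :=
      Finset.sum_mul_sq_le_sq_mul_sq _ _ _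
    have h3 : ∑ z ∈ V X, |om P Q z - L| ^ 2 ≤ C * X * (L + 1) := by
      simp only [sq_abs]
      rw [hLd]
      exact hTK P Q X hP hPQ hQ
    have h4 : ∑ z ∈ V X, (1 : ℝ) ^ 2 ≤ 9 * X := by
      simp only [one_pow, Finset.sum_const, nsmul_eq_mul, mul_one]
      exact card_V_le X hX0.le
    have h5 : (∑ z ∈ V X, 1 * |om P Q z - L|) ^ 2 ≤ (Real.sqrt (18 * C) * X * Real.sqrt L) ^ 2 := by
      refine h2.trans ?_
      have e : (Real.sqrt (18 * C) * X * Real.sqrt L) ^ 2 = (9 * X) * (C * X * (L + L)) := by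
        rw [mul_pow, mul_pow, Real.sq_sqrt (by positivity), Real.sq_sqrt hL0.le]
        ring
      rw [e]
      refine mul_le_mul h4 (h3.trans ?_) (Finset.sum_nonneg fun z _ => by positivity) (by positivity)
      exact mul_le_mul_of_nonneg_left (by linarith) (by positivity)
    refine h1.trans ?_
    refine le_of_sq_le_sq ?_ (by positivity)
    exact h5
  -- error 2
  have hE2 : ‖∑ z ∈ V X, F z * (om P Q z : ℂ) - ∑ w ∈ PP P Q, F w * ∑ z ∈ V (X / nm w), F z‖ ≤ 18 * X := by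
    rw [afconv_om, ← Finset.sum_sub_distrib]
    calc ‖∑ w ∈ PP P Q, (∑ z ∈ (V X).filter (fun z => w ∣ z), F z - F w * ∑ z ∈ V (X / nm w), F z)‖ ≤
        ∑ w ∈ PP P Q, 9 * X * (1 / (nm w : ℝ) ^ 2) := by
          refine (norm_sum_le _ _).trans (Finset.sum_le_sum fun w hw => ?_)
          exact afconv_one F hF X hX0.le (PP_spl hw)
      _ = 9 * X * ∑ w ∈ PP P Q, 1 / (nm w : ℝ) ^ 2 := by rw [Finset.mul_sum]
      _ ≤ 9 * X * 2 := mul_le_mul_of_nonneg_left (afconv_sq P Q hP) (by positivity)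
      _ = 18 * X := by ring
  -- combination
  have hcomb : Af F s - ((1 / L : ℝ) : ℂ) * ∑ w ∈ PP P Q, F w / (nm w : ℂ) * Af F (s - Real.log (nm w)) =
      ((1 / (X * L) : ℝ) : ℂ) * ((∑ z ∈ V X, F z * (om P Q z : ℂ) - ∑ w ∈ PP P Q, F w * ∑ z ∈ V (X / nm w), F z) -
        ∑ z ∈ V X, F z * ((om P Q z - L : ℝ) : ℂ)) := by
    rw [Finset.sum_congr rfl hA, ← Finset.mul_sum, hB]
    have e1 : ∑ z ∈ V X, F z * ((om P Q z - L : ℝ) : ℂ) =
        ∑ z ∈ V X, F z * (om P Q z : ℂ) - (L : ℂ) * ∑ z ∈ V X, F z := by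
      rw [Finset.mul_sum, ← Finset.sum_sub_distrib]
      refine Finset.sum_congr rfl fun z _ => ?_
      push_cast
      ring
    rw [e1]
    have hXc : (X : ℂ) ≠ 0 := by exact_mod_cast hX0.ne'
    have hLc : (L : ℂ) ≠ 0 := by exact_mod_cast hL0.ne'
    push_cast
    field_simp
    ring
  rw [hcomb, norm_mul, Complex.norm_real, Real.norm_eq_abs, abs_of_pos (by positivity)]
  have hfin : ‖(∑ z ∈ V X, F z * (om P Q z : ℂ) - ∑ w ∈ PP P Q, F w * ∑ z ∈ V (X / nm w), F z) -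
        ∑ z ∈ V X, F z * ((om P Q z - L : ℝ) : ℂ)‖ ≤ (Real.sqrt (18 * C) + 18) * X * Real.sqrt L := by
    have hs1 : 1 ≤ Real.sqrt L := Real.one_le_sqrt.mpr hL
    calc _ ≤ 18 * X + Real.sqrt (18 * C) * X * Real.sqrt L := (norm_sub_le _ _).trans (add_le_add hE2 hE1)
      _ ≤ 18 * X * Real.sqrt L + Real.sqrt (18 * C) * X * Real.sqrt L := by
          have : 18 * X * 1 ≤ 18 * X * Real.sqrt L := mul_le_mul_of_nonneg_left hs1 (by positivity)
          linarith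
      _ = _ := by ring
  calc 1 / (X * L) * ‖(∑ z ∈ V X, F z * (om P Q z : ℂ) - ∑ w ∈ PP P Q, F w * ∑ z ∈ V (X / nm w), F z) -
        ∑ z ∈ V X, F z * ((om P Q z - L : ℝ) : ℂ)‖ ≤
      1 / (X * L) * ((Real.sqrt (18 * C) + 18) * X * Real.sqrt L) :=
        mul_le_mul_of_nonneg_left hfin (by positivity)
    _ = (Real.sqrt (18 * C) + 18) / Real.sqrt L := by
        have h := Real.mul_self_sqrt hL0.le
        have hL2 : L = Real.sqrt L * Real.sqrt L := h.symm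
        rw [div_mul_eq_mul_div, one_mul, div_eq_div_iff (by positivity) (by positivity)]
        calc (Real.sqrt (18 * C) + 18) * X * Real.sqrt L * Real.sqrt L =
            (Real.sqrt (18 * C) + 18) * X * (Real.sqrt L * Real.sqrt L) := by ring
          _ = _ := by rw [h]; ring

private theorem afconv_star_sum (F : G → ℂ) (X : ℝ) : ∑ z ∈ V X, F (star z) = ∑ z ∈ V X, F z := by
  refine Finset.sum_bij (fun z _ => star z) ?_ ?_ ?_ ?_
  · intro z hz
    exact mem_V_star.mpr hz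
  · intro z _ z' _ h
    have := congrArg star h
    simpa using this
  · intro z hz
    exact ⟨star z, mem_V_star.mpr hz, star_star z⟩
  · intro z _
    rfl

/-- `X = exp s`. Cauchy-Schwarz and `TK`, `card_V_le`: `|∑_(z ∈ V X) F z (om P Q z - Ls P Q)| ≤ (9 X)^(1/2) (C X (Ls + 1))^(1/2) ≤ C' X (Ls)^(1/2)`. And `∑_(V X) F z om P Q z = ∑_(w ∈ PP) ∑_(z ∈ V X, w ∣ z) F z`; for fixed `w`: `z = w z'`, `z' ∈ V (X / nm w)`,
`F z = F w F z'`, and `w z'` is primitive iff `star w ∤ z'` (see `stage_id` in Lib_MP_f1a94e_mr/StageId.lean for the same facts), so the inner sum is `F w ∑_(V (X / nm w)) F` up to `#{z' ∈ V (X / nm w) : star w ∣ z'} ≤ #V (X / nm w ^ 2) ≤ 9 X / nm w ^ 2`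
(`∑_w 1 / nm w ^ 2 ≤ C`, `nm w ^ 2 ≤ Q ^ 2 ≤ X`). Divide by `X Ls`: `‖Af F s - (1/Ls) ∑_w F w / nm w * Af F (s - log nm w)‖ ≤ C (Ls^(-1/2) + 1/Ls)`. The same for `F ∘ star` (completely multiplicative; `Af (F ∘ star) = Af F` since `star` permutes `V X`); take the mean of the two. -/
theorem af_conv : ∃ C : ℝ, 0 < C ∧ ∀ P Q s : ℝ, 2 ≤ P → P ≤ Q → Q ^ 20 ≤ Real.exp s → 1 ≤ Ls P Q → ∀ F : G → ℂ, CM F →
    ‖Af F s - ((1 / (2 * Ls P Q) : ℝ) : ℂ) * ∑ w ∈ PP P Q, (F w + F (star w)) / (nm w : ℂ) * Af F (s - Real.log (nm w))‖ ≤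
      C / Real.sqrt (Ls P Q) := by
  obtain ⟨C, hC, h⟩ := afconv_half
  refine ⟨C, hC, fun P Q s hP hPQ hQ hL F hF => ?_⟩
  have hF' : CM (fun z => F (star z)) := by
    constructor
    · intro z w hz hw
      rw [star_mul, mul_comm (star w), hF.mul _ _ (by rwa [nm_star]) (by rwa [nm_star])]
    · intro z hz
      exact hF.bd _ (by rwa [nm_star])
  have hAf : ∀ t, Af (fun z => F (star z)) t = Af F t := by
    intro t
    unfold Af
    rw [afconv_star_sum]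
  have h1 := h P Q s hP hPQ hQ hL F hF
  have h2 := h P Q s hP hPQ hQ hL _ hF'
  simp only [hAf] at h2
  have e : Af F s - ((1 / (2 * Ls P Q) : ℝ) : ℂ) *
      ∑ w ∈ PP P Q, (F w + F (star w)) / (nm w : ℂ) * Af F (s - Real.log (nm w)) =
      (1 / 2 : ℝ) * (Af F s - ((1 / Ls P Q : ℝ) : ℂ) * ∑ w ∈ PP P Q, F w / (nm w : ℂ) * Af F (s - Real.log (nm w))) +
      (1 / 2 : ℝ) * (Af F s - ((1 / Ls P Q : ℝ) : ℂ) * ∑ w ∈ PP P Q, F (star w) / (nm w : ℂ) * Af F (s - Real.log (nm w))) := by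
    have e2 : ∑ w ∈ PP P Q, (F w + F (star w)) / (nm w : ℂ) * Af F (s - Real.log (nm w)) =
        ∑ w ∈ PP P Q, F w / (nm w : ℂ) * Af F (s - Real.log (nm w)) +
        ∑ w ∈ PP P Q, F (star w) / (nm w : ℂ) * Af F (s - Real.log (nm w)) := by
      rw [← Finset.sum_add_distrib]
      refine Finset.sum_congr rfl fun w _ => ?_
      ring
    rw [e2]
    push_cast
    ring
  rw [e]
  refine (norm_add_le _ _).trans ?_
  rw [norm_mul, norm_mul, Complex.norm_real]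
  have e3 : ‖(1 / 2 : ℝ)‖ = 1 / 2 := by norm_num
  rw [e3]
  linarith

end Pool.Agent.ECM
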