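import Pool.Agent.Lib_MP_f1a94e_ecm.ZDefs
import Pool.Agent.Lib_MP_f1a94e_mr.VAsymp

/-!
# Piece M-AFLIP: the normalised sums are bounded and nearly Lipschitz
-/

set_option autoImplicit false

namespace Pool.Agent.ECM

open Finset Pool.Agent.GaussMR Pool.Agent.GaussCM Pool.Agent.OmAll

private theorem aflip_sum_le {F : G → ℂ} (hF : CM F) {X : ℝ} {S : Finset G} (hS : S ⊆ V X) :
    ‖∑ z ∈ S, F z‖ ≤ (S.card : ℝ) := by
  refine (norm_sum_le _ _).trans ?_
  calc ∑ z ∈ S, ‖F z‖ ≤ ∑ _z ∈ S, (1 : ℝ) :=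
        Finset.sum_le_sum fun z hz => hF.bd z (mem_V.1 (hS hz)).2.1
    _ = S.card := by simp

/-- `card_V_le`: `#V X ≤ 9 X`. -/
theorem af_bd : ∃ C : ℝ, 0 < C ∧ ∀ F : G → ℂ, CM F → ∀ s : ℝ, 0 ≤ s → ‖Af F s‖ ≤ C := by
  refine ⟨9, by norm_num, fun F hF s _ => ?_⟩
  unfold Af
  rw [norm_mul, Complex.norm_real, Real.norm_of_nonneg (Real.exp_pos _).le]
  have h1 := aflip_sum_le hF (Finset.Subset.refl (V (Real.exp s)))
  have h2 := card_V_le (Real.exp s) (Real.exp_pos s).le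
  have h3 : Real.exp (-s) * Real.exp s = 1 := by rw [← Real.exp_add]; simp
  calc Real.exp (-s) * ‖∑ z ∈ V (Real.exp s), F z‖ ≤ Real.exp (-s) * (9 * Real.exp s) :=
        mul_le_mul_of_nonneg_left (h1.trans h2) (Real.exp_pos _).le
    _ = 9 * (Real.exp (-s) * Real.exp s) := by ring
    _ = 9 := by rw [h3, mul_one]

private theorem aflip_log {u : ℝ} (hu : 0 ≤ u) : Real.log (Real.exp u + 3) ≤ 6 * Real.exp (u / 4) := by
  have h1 : (1 : ℝ) ≤ Real.exp u := Real.one_le_exp hu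
  have h2 : Real.log (Real.exp u + 3) ≤ Real.log (4 * Real.exp u) :=
    Real.log_le_log (by positivity) (by linarith)
  rw [Real.log_mul (by norm_num) (Real.exp_pos u).ne', Real.log_exp] at h2
  have h3 : Real.log 4 ≤ 2 := by
    rw [show (4 : ℝ) = 2 ^ 2 by norm_num, Real.log_pow]
    have := Real.log_two_lt_d9
    push_cast
    linarith
  have h4 : u / 4 + 1 ≤ Real.exp (u / 4) := Real.add_one_le_exp _
  linarith

/-- The difference is `(exp (-h) - 1) exp (-s) ∑_(V (exp s)) F + exp (-s-h) ∑_(V (exp (s+h)) \ V (exp s)) F`; first part at most `9 h`, second at most `exp (-s) #(V (exp (s+h)) \ V (exp s))`, and by `V_asymp`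
`#V (exp (s+h)) - #V (exp s) ≤ κ exp s (exp h - 1) + 2 C exp ((s+h)/2) log (exp (s+h) + 3) ≤ 2 κ exp s h + C' exp (3 s / 4)`. -/
theorem af_lip : ∃ C : ℝ, 0 < C ∧ ∀ F : G → ℂ, CM F → ∀ s h : ℝ, 0 ≤ s → 0 ≤ h → h ≤ 1 →
    ‖Af F (s + h) - Af F s‖ ≤ C * (h + Real.exp (-(s / 4))) := by
  classical
  obtain ⟨κ, C, hκ, hC, hV⟩ := V_asymp
  refine ⟨9 + κ + 12 * C, by positivity, fun F hF s h hs hh _ => ?_⟩
  set X : ℝ := Real.exp s with hX
  set Y : ℝ := Real.exp (s + h) with hY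
  have hX0 : 0 < X := Real.exp_pos _
  have hY0 : 0 < Y := Real.exp_pos _
  have hXY : X ≤ Y := Real.exp_le_exp.2 (by linarith)
  have hsub : V X ⊆ V Y := by
    intro z hz
    rw [mem_V] at hz ⊢
    exact ⟨hz.1.trans hXY, hz.2⟩
  have hsplit : ∑ z ∈ V Y, F z = ∑ z ∈ V Y \ V X, F z + ∑ z ∈ V X, F z :=
    (Finset.sum_sdiff hsub).symm
  have heq : Af F (s + h) - Af F s =
      ((Real.exp (-(s + h)) - Real.exp (-s) : ℝ) : ℂ) * ∑ z ∈ V X, F z +
        ((Real.exp (-(s + h)) : ℝ) : ℂ) * ∑ z ∈ V Y \ V X, F z := by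
    unfold Af
    rw [← hX, ← hY, hsplit]
    push_cast
    ring
  have hsdiff : ((V Y \ V X).card : ℝ) = (V Y).card - (V X).card := by
    rw [Finset.card_sdiff_of_subset hsub, Nat.cast_sub (Finset.card_le_card hsub)]
  have hcX := hV X hX0.le
  have hcY := hV Y hY0.le
  rw [abs_le] at hcX hcY
  have hlogX : Real.sqrt X * Real.log (X + 3) ≤ Real.sqrt Y * Real.log (Y + 3) := by
    apply mul_le_mul (Real.sqrt_le_sqrt hXY) (Real.log_le_log (by linarith) (by linarith))
      (Real.log_nonneg (by linarith)) (Real.sqrt_nonneg _)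
  have hcard : ((V Y \ V X).card : ℝ) ≤ κ * (Y - X) + 2 * C * (Real.sqrt Y * Real.log (Y + 3)) := by
    rw [hsdiff]
    have h1 := mul_le_mul_of_nonneg_left hlogX hC.le
    have h2 : C * Real.sqrt X * Real.log (X + 3) = C * (Real.sqrt X * Real.log (X + 3)) := by ring
    have h3 : C * Real.sqrt Y * Real.log (Y + 3) = C * (Real.sqrt Y * Real.log (Y + 3)) := by ring
    rw [h2] at hcX
    rw [h3] at hcY
    linarith [hcX.1, hcY.2]
  have hsq : Real.sqrt Y = Real.exp ((s + h) / 2) := by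
    rw [hY, Real.sqrt_eq_rpow, ← Real.exp_mul]
    congr 1
    ring
  have hlogY : Real.log (Y + 3) ≤ 6 * Real.exp ((s + h) / 4) := aflip_log (by linarith)
  have hE : Real.exp (-(s + h)) * (Real.sqrt Y * Real.log (Y + 3)) ≤ 6 * Real.exp (-(s / 4)) := by
    rw [hsq]
    calc Real.exp (-(s + h)) * (Real.exp ((s + h) / 2) * Real.log (Y + 3)) ≤
        Real.exp (-(s + h)) * (Real.exp ((s + h) / 2) * (6 * Real.exp ((s + h) / 4))) := by
          gcongr
      _ = 6 * (Real.exp (-(s + h)) * Real.exp ((s + h) / 2) * Real.exp ((s + h) / 4)) := by ring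
      _ = 6 * Real.exp (-((s + h) / 4)) := by
          rw [← Real.exp_add, ← Real.exp_add]
          congr 2
          ring
      _ ≤ 6 * Real.exp (-(s / 4)) := by
          have : Real.exp (-((s + h) / 4)) ≤ Real.exp (-(s / 4)) := Real.exp_le_exp.2 (by linarith)
          linarith
  have hexph : 1 - Real.exp (-h) ≤ h := by
    have := Real.add_one_le_exp (-h)
    linarith
  have hm1 : Real.exp (-(s + h)) = Real.exp (-s) * Real.exp (-h) := by
    rw [← Real.exp_add]; congr 1; ring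
  have hXi : Real.exp (-s) * X = 1 := by rw [hX, ← Real.exp_add]; simp
  have hYi : Real.exp (-(s + h)) * Y = 1 := by rw [hY, ← Real.exp_add]; simp
  have hXi2 : Real.exp (-(s + h)) * X = Real.exp (-h) := by
    rw [hX, ← Real.exp_add]; congr 1; ring
  have hn1 : ‖((Real.exp (-(s + h)) - Real.exp (-s) : ℝ) : ℂ) * ∑ z ∈ V X, F z‖ ≤ 9 * h := by
    rw [norm_mul, Complex.norm_real]
    have h1 := (aflip_sum_le hF (Finset.Subset.refl (V X))).trans (card_V_le X hX0.le)
    have h2 : ‖Real.exp (-(s + h)) - Real.exp (-s)‖ = Real.exp (-s) * (1 - Real.exp (-h)) := by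
      rw [Real.norm_eq_abs, abs_sub_comm, abs_of_nonneg]
      · rw [hm1]; ring
      · rw [sub_nonneg]
        exact Real.exp_le_exp.2 (by linarith)
    rw [h2]
    have h3 : 0 ≤ 1 - Real.exp (-h) := by
      have : Real.exp (-h) ≤ 1 := by
        rw [Real.exp_le_one_iff]; linarith
      linarith
    calc Real.exp (-s) * (1 - Real.exp (-h)) * ‖∑ z ∈ V X, F z‖ ≤
        Real.exp (-s) * (1 - Real.exp (-h)) * (9 * X) :=
          mul_le_mul_of_nonneg_left h1 (mul_nonneg (Real.exp_pos _).le h3)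
      _ = 9 * (1 - Real.exp (-h)) * (Real.exp (-s) * X) := by ring
      _ = 9 * (1 - Real.exp (-h)) := by rw [hXi, mul_one]
      _ ≤ 9 * h := by linarith
  have hn2 : ‖((Real.exp (-(s + h)) : ℝ) : ℂ) * ∑ z ∈ V Y \ V X, F z‖ ≤
      κ * h + 12 * C * Real.exp (-(s / 4)) := by
    rw [norm_mul, Complex.norm_real, Real.norm_of_nonneg (Real.exp_pos _).le]
    have h1 := (aflip_sum_le hF (X := Y) (S := V Y \ V X) Finset.sdiff_subset).trans hcard
    calc Real.exp (-(s + h)) * ‖∑ z ∈ V Y \ V X, F z‖ ≤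
        Real.exp (-(s + h)) * (κ * (Y - X) + 2 * C * (Real.sqrt Y * Real.log (Y + 3))) :=
          mul_le_mul_of_nonneg_left h1 (Real.exp_pos _).le
      _ = κ * (Real.exp (-(s + h)) * Y - Real.exp (-(s + h)) * X) +
          2 * C * (Real.exp (-(s + h)) * (Real.sqrt Y * Real.log (Y + 3))) := by ring
      _ = κ * (1 - Real.exp (-h)) +
          2 * C * (Real.exp (-(s + h)) * (Real.sqrt Y * Real.log (Y + 3))) := by rw [hYi, hXi2]
      _ ≤ κ * h + 2 * C * (6 * Real.exp (-(s / 4))) := by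
          gcongr
      _ = κ * h + 12 * C * Real.exp (-(s / 4)) := by ring
  rw [heq]
  refine (norm_add_le _ _).trans ((add_le_add hn1 hn2).trans ?_)
  have he0 : 0 < Real.exp (-(s / 4)) := Real.exp_pos _
  nlinarith [mul_nonneg hC.le hh, mul_pos hκ he0]

end Pool.Agent.ECM
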