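import Pool.Agent.Lib_MP_f1a94e_ecm.ClsChar
import Pool.Agent.Lib_MP_f1a94e_ecm.MDefs
import Pool.Agent.Lib_MP_f1a94e_mr.ConjUpper

/-!
# Piece M-ARCDEC: sums over a residue class and an arc in terms of characters
-/

set_option autoImplicit false

namespace Pool.Agent.ECM

open Finset Pool.Agent.GaussMR Pool.Agent.GaussCM Pool.Agent.OmAll

theorem arcdec_cg (D : ℕ) (z b : G) : cg D z b ↔ ((D : ℕ) : G) ∣ z - b := by
  have := Zsqrtd.intCast_dvd (d := -1) (D : ℤ) (z - b)
  unfold cg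
  rw [Int.cast_natCast] at this
  rw [this]
  simp

theorem arcdec_star_dvd {a b : G} (h : a ∣ b) : star a ∣ star b := by
  obtain ⟨c, rfl⟩ := h
  exact ⟨star c, by rw [star_mul, mul_comm]⟩

/-- `δ z` is primitive iff `z` and `star δ` are coprime -/
theorem arcdec_prim {δ z : G} (hδ : Prim δ) (hz : Prim z) :
    Prim (δ * z) ↔ IsCoprime z (star δ) := by
  constructor
  · intro h
    set g : G := EuclideanDomain.gcd z (star δ) with hg
    have h1 : g ∣ z := EuclideanDomain.gcd_dvd_left _ _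
    have h2 : g ∣ star δ := EuclideanDomain.gcd_dvd_right _ _
    have h3 : star g ∣ δ := by
      have := arcdec_star_dvd h2
      rwa [star_star] at this
    have h4 : ((nm g : ℕ) : G) ∣ δ * z := by
      rw [← clschar_mul_star, mul_comm g]
      exact mul_dvd_mul h3 h1
    have h5 := prim_iff.1 h _ h4
    have h6 : IsUnit g := nm_eq_one_iff.1 h5
    have h7 : g = z * EuclideanDomain.gcdA z (star δ) + star δ * EuclideanDomain.gcdB z (star δ) :=
      EuclideanDomain.gcd_eq_gcd_ab _ _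
    obtain ⟨v, hv⟩ := h6.exists_right_inv
    refine ⟨EuclideanDomain.gcdA z (star δ) * v, EuclideanDomain.gcdB z (star δ) * v, ?_⟩
    rw [← hv, h7]
    ring
  · intro h
    by_contra hn
    obtain ⟨g, hg, hgz, hgδ⟩ := exists_of_not_prim hδ hz hn
    have h1 : g ∣ star δ := by
      have := arcdec_star_dvd hgδ
      rwa [star_star] at this
    have h2 := h.isUnit_of_dvd' hgz h1
    have h3 := nm_eq_one_iff.2 h2
    rw [h3] at hg
    exact Nat.not_prime_one hg

theorem arcdec_arc {δ z : G} (hδ : δ ≠ 0) (hz : z ≠ 0) (θ w : ℝ) :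
    InArc θ w (δ * z) ↔ InArc (θ - Complex.arg (δ : ℂ)) w z := by
  have h1 : ((Complex.arg ((δ * z : G) : ℂ) : ℝ) : Real.Angle) =
      ((Complex.arg (δ : ℂ) + Complex.arg (z : ℂ) : ℝ) : Real.Angle) := by
    rw [GaussianInt.toComplex_mul, Complex.arg_mul_coe_angle (toComplex_ne_zero hδ) (toComplex_ne_zero hz),
      Real.Angle.coe_add]
  obtain ⟨k, hk⟩ := Real.Angle.angle_eq_iff_two_pi_dvd_sub.1 h1
  unfold InArc
  constructor
  · rintro ⟨j, h2, h3⟩
    refine ⟨j + k, ?_, ?_⟩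
    · push_cast
      nlinarith
    · push_cast
      nlinarith
  · rintro ⟨j, h2, h3⟩
    refine ⟨j - k, ?_, ?_⟩
    · push_cast
      nlinarith
    · push_cast
      nlinarith

open Classical in
/-- PROOF. `δ = gcd (b, D)` (`D ≠ 0`; `G` is a Euclidean domain), `D = δ μ`, `b = δ b'`, `b'` coprime to `μ`. If no `z` is odd, primitive and `≡ b` the sum is `0` (take `n = 0`); otherwise `δ` is odd and primitive (a divisor of an odd primitive `z` is odd and primitive). `z ≡ b mod D` iff `z = δ z'`, `μ ∣ z' - b'`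
(`cg D z b ↔ (D : G) ∣ z - b`). `z = δ z'` is odd and primitive iff `z'` is odd and primitive and no prime divides both `z'` and `star δ` (if a rational prime `p ∣ δ z'` then, `δ` and `z'` being primitive and odd, `p = π star π` splits and `π ∣ δ`, `star π ∣ z'`; conversely a common prime `π` of `z'` and `star δ` gives `star π * π ∣ δ z'`;
`star π * π = nm π` is a rational integer `> 1`). `(-1)^Ω(nm z) = (-1)^Ω(nm δ) (-1)^Ω(nm z')`, `nm z ≤ X ↔ nm z' ≤ X / nm δ`, `InArc θ w (δ z') ↔ InArc (θ - arg δ) w z'` (`arg` is additive modulo `2π`). Expand `1[μ ∣ z' - b']` with `cls_char`, and let `ψ_i z' = χ_i z' * 1[z' odd, no common prime with star δ]`: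
`Chi D' ψ_i` with `D' = 2 D nm δ` (multiplicative since primes; `z' ≡ w' mod D'` implies the same common primes with `star δ` as `star δ ∣ nm δ ∣ D'`, the same parity, `μ ∣ D ∣ D'`). `a_i = ± c_i`. -/
theorem arc_dec (D : ℕ) (hD : 0 < D) (b : G) : ∃ (D' : ℕ) (n : ℕ) (χ : Fin n → G → ℂ) (a : Fin n → ℂ) (m : ℕ) (φ : ℝ), 0 < D' ∧ 0 < m ∧
    (∀ i, Chi D' (χ i)) ∧ (∀ i, ‖a i‖ ≤ 1) ∧ ∀ X w θ : ℝ,
      (∑ z ∈ (V X).filter (fun z => cg D z b ∧ InArc θ w z), (-1 : ℂ) ^ ArithmeticFunction.cardFactors (nm z)) =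
        ∑ i, a i * arcS (FL (χ i)) (X / m) w (θ - φ) := by
  by_cases hex : ∃ z0 : G, Odd (nm z0) ∧ Prim z0 ∧ cg D z0 b
  swap
  · refine ⟨1, 0, fun i => i.elim0, fun i => i.elim0, 1, 0, one_pos, one_pos, fun i => i.elim0, fun i => i.elim0, ?_⟩
    intro X w θ
    rw [Finset.univ_eq_empty, Finset.sum_empty]
    apply Finset.sum_eq_zero
    intro z hz
    exfalso
    rw [Finset.mem_filter, mem_V] at hz
    exact hex ⟨z, hz.1.2.1, hz.1.2.2, hz.2.1⟩
  obtain ⟨z0, hz0o, hz0p, hz0c⟩ := hex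
  have hDG : ((D : ℕ) : G) ≠ 0 := by exact_mod_cast hD.ne'
  set δ : G := EuclideanDomain.gcd b ((D : ℕ) : G) with hδdef
  obtain ⟨b', hb'⟩ : δ ∣ b := EuclideanDomain.gcd_dvd_left _ _
  obtain ⟨μ, hμ⟩ : δ ∣ ((D : ℕ) : G) := EuclideanDomain.gcd_dvd_right _ _
  have hδ0 : δ ≠ 0 := by
    intro h
    rw [h, zero_mul] at hμ
    exact hDG hμ
  have hμ0 : μ ≠ 0 := by
    intro h
    rw [h, mul_zero] at hμ
    exact hDG hμ
  have hcop : IsCoprime b' μ := by
    have h1 : δ = b * EuclideanDomain.gcdA b ((D : ℕ) : G) + ((D : ℕ) : G) * EuclideanDomain.gcdB b ((D : ℕ) : G) :=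
      EuclideanDomain.gcd_eq_gcd_ab _ _
    refine ⟨EuclideanDomain.gcdA b ((D : ℕ) : G), EuclideanDomain.gcdB b ((D : ℕ) : G), ?_⟩
    have h2 : δ * (EuclideanDomain.gcdA b ((D : ℕ) : G) * b' + EuclideanDomain.gcdB b ((D : ℕ) : G) * μ) = δ * 1 := by
      calc δ * (EuclideanDomain.gcdA b ((D : ℕ) : G) * b' + EuclideanDomain.gcdB b ((D : ℕ) : G) * μ)
          = (δ * b') * EuclideanDomain.gcdA b ((D : ℕ) : G) + (δ * μ) * EuclideanDomain.gcdB b ((D : ℕ) : G) := by ring
        _ = δ * 1 := by rw [← hb', ← hμ, mul_one]; exact h1.symm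
    exact mul_left_cancel₀ hδ0 h2
  -- the gcd is odd and primitive
  have hδz0 : δ ∣ z0 := by
    have h1 := (arcdec_cg D z0 b).1 hz0c
    have h2 : δ ∣ z0 - b := dvd_trans ⟨μ, hμ⟩ h1
    have h3 := dvd_add h2 (⟨b', hb'⟩ : δ ∣ b)
    rwa [sub_add_cancel] at h3
  obtain ⟨y0, hy0⟩ := hδz0
  have hδo : Odd (nm δ) := by
    rw [hy0] at hz0o
    exact (odd_nm_mul.1 hz0o).1
  have hδp : Prim δ := by
    rw [hy0] at hz0p
    exact (prim_of_mul hz0p).1
  have hm : 0 < nm δ := nm_pos hδ0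
  obtain ⟨n, χ, c, hχ, hc, hc1, hc0⟩ := cls_char μ hμ0 b' hcop
  refine ⟨2 * D * nm δ, n, fun i z => χ i z * (if Odd (nm z) ∧ IsCoprime z (star δ) then 1 else 0),
    fun i => (-1 : ℂ) ^ ArithmeticFunction.cardFactors (nm δ) * c i, nm δ, Complex.arg (δ : ℂ), by positivity, hm, ?_, ?_, ?_⟩
  · intro i
    obtain ⟨h1, h2, h3, h4⟩ := hχ i
    constructor
    · have h5 : Odd (nm (1 : G)) ∧ IsCoprime (1 : G) (star δ) := by
        rw [nm_one]
        exact ⟨odd_one, isCoprime_one_left⟩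
      beta_reduce
      rw [h1, if_pos h5, one_mul]
    · intro z w
      beta_reduce
      rw [h2]
      by_cases hz : Odd (nm z) ∧ IsCoprime z (star δ)
      · by_cases hw : Odd (nm w) ∧ IsCoprime w (star δ)
        · have hzw : Odd (nm (z * w)) ∧ IsCoprime (z * w) (star δ) :=
            ⟨odd_nm_mul.2 ⟨hz.1, hw.1⟩, IsCoprime.mul_left hz.2 hw.2⟩
          rw [if_pos hz, if_pos hw, if_pos hzw]
          ring
        · have hzw : ¬ (Odd (nm (z * w)) ∧ IsCoprime (z * w) (star δ)) := by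
            rintro ⟨h5, h6⟩
            exact hw ⟨(odd_nm_mul.1 h5).2, (IsCoprime.mul_left_iff.1 h6).2⟩
          rw [if_neg hw, if_neg hzw]
          ring
      · have hzw : ¬ (Odd (nm (z * w)) ∧ IsCoprime (z * w) (star δ)) := by
          rintro ⟨h5, h6⟩
          exact hz ⟨(odd_nm_mul.1 h5).1, (IsCoprime.mul_left_iff.1 h6).1⟩
        rw [if_neg hz, if_neg hzw]
        ring
    · intro z w hzw
      have h5 : ((2 * D * nm δ : ℕ) : G) ∣ z - w := (arcdec_cg _ z w).1 hzw
      have h6 : μ ∣ z - w := by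
        refine dvd_trans ?_ h5
        refine ⟨2 * δ * ((nm δ : ℕ) : G), ?_⟩
        push_cast
        rw [hμ]
        ring
      have h7 : star δ ∣ z - w := by
        refine dvd_trans ?_ h5
        refine ⟨2 * ((D : ℕ) : G) * δ, ?_⟩
        push_cast
        rw [← clschar_mul_star]
        ring
      have h8 : IsCoprime z (star δ) ↔ IsCoprime w (star δ) := by
        obtain ⟨k, hk⟩ := h7
        have h9 : z = w + star δ * k := by rw [← hk]; ring
        rw [h9]
        exact IsCoprime.add_mul_left_left_iff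
      have h10 : Odd (nm z) ↔ Odd (nm w) := by
        rw [odd_nm_iff, odd_nm_iff]
        obtain ⟨h11, h12⟩ := hzw
        have h13 : (2 : ℤ) ∣ z.re - w.re := by
          refine dvd_trans ?_ h11
          push_cast
          rw [mul_assoc]
          exact dvd_mul_right _ _
        have h14 : (2 : ℤ) ∣ z.im - w.im := by
          refine dvd_trans ?_ h12
          push_cast
          rw [mul_assoc]
          exact dvd_mul_right _ _
        rw [Int.odd_iff, Int.odd_iff]
        omega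
      have h15 := h3 z w h6
      simp only [h15, h8, h10]
    · intro z hz
      have h5 : ¬ (Odd (nm z) ∧ IsCoprime z (star δ)) := fun h => hz h.1
      simp only [if_neg h5, mul_zero]
    · intro z
      beta_reduce
      rw [norm_mul]
      have h5 : ‖(if Odd (nm z) ∧ IsCoprime z (star δ) then (1 : ℂ) else 0)‖ ≤ 1 := by
        split_ifs
        · simp
        · simp
      calc ‖χ i z‖ * ‖(if Odd (nm z) ∧ IsCoprime z (star δ) then (1 : ℂ) else 0)‖ ≤ 1 * 1 :=
            mul_le_mul (h4 z) h5 (norm_nonneg _) zero_le_one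
        _ = 1 := one_mul 1
  · intro i
    beta_reduce
    rw [norm_mul, norm_pow, norm_neg, norm_one, one_pow, one_mul]
    exact (Finset.single_le_sum (f := fun i => ‖c i‖) (fun j _ => norm_nonneg _) (Finset.mem_univ i)).trans hc
  · intro X w θ
    have hswap : ∑ i, ((-1 : ℂ) ^ ArithmeticFunction.cardFactors (nm δ) * c i) *
        arcS (FL (fun z => χ i z * (if Odd (nm z) ∧ IsCoprime z (star δ) then 1 else 0))) (X / (nm δ : ℕ)) w
          (θ - Complex.arg (δ : ℂ)) =
        ∑ z ∈ V (X / (nm δ : ℕ)), if InArc (θ - Complex.arg (δ : ℂ)) w z ∧ IsCoprime z (star δ) ∧ μ ∣ z - b' then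
          (-1 : ℂ) ^ ArithmeticFunction.cardFactors (nm (δ * z)) else 0 := by
      unfold arcS
      simp only [Finset.mul_sum]
      rw [Finset.sum_comm]
      refine Finset.sum_congr rfl fun z hz => ?_
      have hzV := mem_V.1 hz
      by_cases ha : InArc (θ - Complex.arg (δ : ℂ)) w z
      swap
      · have h1 : ¬ (InArc (θ - Complex.arg (δ : ℂ)) w z ∧ IsCoprime z (star δ) ∧ μ ∣ z - b') := fun h => ha h.1
        rw [if_neg h1]
        simp only [if_neg ha, mul_zero, Finset.sum_const_zero]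
      simp only [if_pos ha]
      by_cases hco : IsCoprime z (star δ)
      swap
      · have h1 : ¬ (InArc (θ - Complex.arg (δ : ℂ)) w z ∧ IsCoprime z (star δ) ∧ μ ∣ z - b') := fun h => hco h.2.1
        have h2 : ¬ (Odd (nm z) ∧ IsCoprime z (star δ)) := fun h => hco h.2
        rw [if_neg h1]
        simp only [FL, if_neg h2, mul_zero, Finset.sum_const_zero]
      have h2 : (Odd (nm z) ∧ IsCoprime z (star δ)) := ⟨hzV.2.1, hco⟩
      have h3 : ∀ i : Fin n, ((-1 : ℂ) ^ ArithmeticFunction.cardFactors (nm δ) * c i) *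
          FL (fun z => χ i z * (if Odd (nm z) ∧ IsCoprime z (star δ) then 1 else 0)) z =
          (-1 : ℂ) ^ ArithmeticFunction.cardFactors (nm (δ * z)) * (c i * χ i z) := by
        intro i
        simp only [FL, if_pos h2]
        rw [nm_mul, ArithmeticFunction.cardFactors_mul hm.ne' (nm_pos_of_odd hzV.2.1).ne', pow_add]
        ring
      rw [Finset.sum_congr rfl fun i _ => h3 i, ← Finset.mul_sum]
      by_cases hd : μ ∣ z - b'
      · rw [hc1 z hd, mul_one, if_pos ⟨ha, hco, hd⟩]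
      · have h1 : ¬ (InArc (θ - Complex.arg (δ : ℂ)) w z ∧ IsCoprime z (star δ) ∧ μ ∣ z - b') := fun h => hd h.2.2
        rw [hc0 z hd, mul_zero, if_neg h1]
    rw [hswap, ← Finset.sum_filter]
    symm
    have hmR : (0 : ℝ) < (nm δ : ℕ) := by exact_mod_cast hm
    refine Finset.sum_bij (fun z _ => δ * z) ?_ ?_ ?_ ?_
    · intro z hz
      rw [Finset.mem_filter, mem_V] at hz
      obtain ⟨⟨h1, h2, h3⟩, h4, h5, h6⟩ := hz
      rw [Finset.mem_filter, mem_V]
      refine ⟨⟨?_, odd_nm_mul.2 ⟨hδo, h2⟩, (arcdec_prim hδp h3).2 h5⟩, ?_, ?_⟩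
      · rw [nm_mul]
        push_cast
        rw [le_div_iff₀ hmR] at h1
        linarith
      · rw [arcdec_cg, hμ, hb', ← mul_sub]
        exact mul_dvd_mul_left δ h6
      · exact (arcdec_arc hδ0 (ne_zero_of_odd h2) θ w).2 h4
    · intro z _ z' _ h
      exact mul_left_cancel₀ hδ0 h
    · intro z hz
      rw [Finset.mem_filter, mem_V] at hz
      obtain ⟨⟨h1, h2, h3⟩, h4, h5⟩ := hz
      have h6 := (arcdec_cg D z b).1 h4
      have h7 : δ ∣ z := by
        have h2 : δ ∣ z - b := dvd_trans ⟨μ, hμ⟩ h6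
        have h3 := dvd_add h2 (⟨b', hb'⟩ : δ ∣ b)
        rwa [sub_add_cancel] at h3
      obtain ⟨y, rfl⟩ := h7
      have h8 := odd_nm_mul.1 h2
      have h9 := prim_of_mul h3
      refine ⟨y, ?_, rfl⟩
      rw [Finset.mem_filter, mem_V]
      refine ⟨⟨?_, h8.2, h9.2⟩, (arcdec_arc hδ0 (ne_zero_of_odd h8.2) θ w).1 h5, (arcdec_prim hδp h9.2).1 h3, ?_⟩
      · rw [nm_mul] at h1
        push_cast at h1
        rw [le_div_iff₀ hmR]
        linarith
      · rw [hμ, hb', ← mul_sub] at h6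
        exact (mul_dvd_mul_iff_left hδ0).1 h6
    · intro z _
      rfl

end Pool.Agent.ECM
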