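import Pool.Agent.Lib_MP_f1a94e_mr.Defs

/-!
# Piece M-AVG: mean square of a slowly varying function with a convolution equation (abstract)
-/

set_option autoImplicit false

namespace Pool.Agent.ECM

open Finset Pool.Agent.GaussMR
open scoped ComplexConjugate

private noncomputable def dhat {N : ℕ} [NeZero N] (a : ZMod N → ℂ) (r : ZMod N) : ℂ :=
  ∑ i, a i * ZMod.stdAddChar (-(i * r))

private theorem avg_char_sum {N : ℕ} [NeZero N] (b : ZMod N) :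
    ∑ r : ZMod N, (ZMod.stdAddChar (b * r) : ℂ) = if b = 0 then (N : ℂ) else 0 := by
  have h := AddChar.sum_mulShift (ψ := ZMod.stdAddChar (N := N)) b
    (ZMod.isPrimitive_stdAddChar N)
  simp only [ZMod.card] at h
  have h2 : ∑ r : ZMod N, (ZMod.stdAddChar (b * r) : ℂ) =
      ∑ r : ZMod N, (ZMod.stdAddChar (r * b) : ℂ) :=
    Finset.sum_congr rfl fun r _ => by rw [mul_comm]
  rw [h2, h]
  split_ifs <;> simp

private theorem avg_parseval {N : ℕ} [NeZero N] (a : ZMod N → ℂ) :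
    ∑ r, ‖dhat a r‖ ^ 2 = N * ∑ i, ‖a i‖ ^ 2 := by
  have hterm : ∀ r : ZMod N, ((‖dhat a r‖ ^ 2 : ℝ) : ℂ) =
      ∑ i, ∑ j, a i * conj (a j) * ZMod.stdAddChar ((j - i) * r) := by
    intro r
    have h1 : ((‖dhat a r‖ ^ 2 : ℝ) : ℂ) = dhat a r * conj (dhat a r) := by
      rw [Complex.mul_conj']
      push_cast
      rfl
    have h2 : conj (dhat a r) = ∑ j, conj (a j) * ZMod.stdAddChar (j * r) := by
      unfold dhat
      rw [map_sum]
      apply Finset.sum_congr rfl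
      intro j _
      rw [map_mul, ← AddChar.map_neg_eq_conj, neg_neg]
    rw [h1, h2, dhat, Finset.sum_mul_sum]
    apply Finset.sum_congr rfl
    intro i _
    apply Finset.sum_congr rfl
    intro j _
    have h3 : (ZMod.stdAddChar ((j - i) * r) : ℂ) =
        ZMod.stdAddChar (-(i * r)) * ZMod.stdAddChar (j * r) := by
      rw [← AddChar.map_add_eq_mul]
      congr 1
      ring
    rw [h3]
    ring
  have hC : ((∑ r, ‖dhat a r‖ ^ 2 : ℝ) : ℂ) = ((N * ∑ i, ‖a i‖ ^ 2 : ℝ) : ℂ) := by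
    rw [Complex.ofReal_sum, Finset.sum_congr rfl fun r _ => hterm r, Finset.sum_comm]
    have h4 : ∀ i : ZMod N, ∑ r : ZMod N, ∑ j : ZMod N,
        a i * conj (a j) * ZMod.stdAddChar ((j - i) * r) = N * ((‖a i‖ ^ 2 : ℝ) : ℂ) := by
      intro i
      rw [Finset.sum_comm]
      have h5 : ∀ j : ZMod N, ∑ r : ZMod N,
          a i * conj (a j) * ZMod.stdAddChar ((j - i) * r) =
          if j = i then N * ((‖a i‖ ^ 2 : ℝ) : ℂ) else 0 := by
        intro j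
        rw [← Finset.mul_sum, avg_char_sum]
        by_cases hji : j = i
        · subst hji
          rw [if_pos (sub_self j), if_pos rfl, Complex.mul_conj']
          push_cast
          ring
        · rw [if_neg (sub_ne_zero.mpr hji), if_neg hji]
          simp
      rw [Finset.sum_congr rfl fun j _ => h5 j]
      simp
    rw [Finset.sum_congr rfl fun i _ => h4 i, ← Finset.mul_sum]
    push_cast
    rfl
  exact_mod_cast hC

private theorem avg_shift {N : ℕ} [NeZero N] (a : ZMod N → ℂ) (s r : ZMod N) :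
    dhat (fun i => a (i + s)) r = ZMod.stdAddChar (s * r) * dhat a r := by
  rw [dhat, dhat, Finset.mul_sum]
  rw [← Equiv.sum_comp (Equiv.addRight s) fun i : ZMod N =>
    (ZMod.stdAddChar (s * r) : ℂ) * (a i * ZMod.stdAddChar (-(i * r)))]
  apply Finset.sum_congr rfl
  intro i _
  simp only [Equiv.coe_addRight]
  have h3 : (ZMod.stdAddChar (-(i * r)) : ℂ) =
      ZMod.stdAddChar (s * r) * ZMod.stdAddChar (-((i + s) * r)) := by
    rw [← AddChar.map_add_eq_mul]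
    congr 1
    ring
  rw [h3]
  ring

/-- the frequency of `r` -/
private theorem avg_theta {N : ℕ} [NeZero N] (r : ZMod N) : ∃ θ : ℝ, |θ| ≤ Real.pi ∧
    ∀ k : ℤ, (ZMod.stdAddChar ((k : ZMod N) * r) : ℂ) = Complex.exp (((k * θ : ℝ) : ℂ) * Complex.I) := by
  have hN : (0 : ℝ) < N := by exact_mod_cast Nat.pos_of_ne_zero (NeZero.ne N)
  refine ⟨2 * Real.pi * (r.valMinAbs : ℝ) / N, ?_, fun k => ?_⟩
  · have h1 : r.valMinAbs.natAbs ≤ N / 2 := ZMod.natAbs_valMinAbs_le r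
    have h2 : (|(r.valMinAbs : ℝ)|) ≤ N / 2 := by
      have h3 : ((r.valMinAbs.natAbs : ℕ) : ℝ) = |(r.valMinAbs : ℝ)| := by
        rw [Nat.cast_natAbs, Int.cast_abs]
      rw [← h3]
      have h4 : 2 * r.valMinAbs.natAbs ≤ N := by omega
      have h5 : ((2 * r.valMinAbs.natAbs : ℕ) : ℝ) ≤ N := by exact_mod_cast h4
      push_cast at h5
      rw [Nat.cast_natAbs, Int.cast_abs]
      rw [Nat.cast_natAbs, Int.cast_abs] at h5
      linarith
    rw [abs_div, abs_mul, abs_of_pos (by positivity : (0 : ℝ) < 2 * Real.pi), abs_of_pos hN,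
      div_le_iff₀ hN]
    nlinarith [Real.pi_pos]
  · have h1 : (k : ZMod N) * r = ((k * r.valMinAbs : ℤ) : ZMod N) := by
      rw [Int.cast_mul, ZMod.coe_valMinAbs]
    rw [h1, ZMod.stdAddChar_coe]
    congr 1
    push_cast
    ring

private theorem avg_main {N : ℕ} [NeZero N] {ι : Type*} (I : Finset ι) (c : ι → ℂ) (ρ : ι → ℕ)
    (M : ℕ) (κ : ℝ) (hκ : 0 < κ) (a : ZMod N → ℂ)
    (H : ∀ θ : ℝ, |θ| ≤ Real.pi →
      κ ≤ ‖1 - ∑ i ∈ I, c i * Complex.exp (((-(θ * ρ i) : ℝ) : ℂ) * Complex.I)‖ ∨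
      1 ≤ (1 / (M : ℝ)) * ∑ i ∈ range M, ‖Complex.exp (((i * θ : ℝ) : ℂ) * Complex.I) - 1‖ ^ 2) :
    ∑ n, ‖a n‖ ^ 2 ≤ 1 / κ ^ 2 * ∑ n, ‖a n - ∑ i ∈ I, c i * a (n - (ρ i : ZMod N))‖ ^ 2 +
      (1 / (M : ℝ)) * ∑ i ∈ range M, ∑ n, ‖a (n + (i : ZMod N)) - a n‖ ^ 2 := by
  have hN : (0 : ℝ) < N := by exact_mod_cast Nat.pos_of_ne_zero (NeZero.ne N)
  have hb : ∀ r : ZMod N, dhat (fun n => a n - ∑ i ∈ I, c i * a (n - (ρ i : ZMod N))) r =
      (1 - ∑ i ∈ I, c i * ZMod.stdAddChar (-(ρ i : ZMod N) * r)) * dhat a r := by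
    intro r
    have h1 : dhat (fun n => a n - ∑ i ∈ I, c i * a (n - (ρ i : ZMod N))) r =
        dhat a r - ∑ i ∈ I, c i * dhat (fun n => a (n + (-(ρ i : ZMod N)))) r := by
      unfold dhat
      simp only [sub_mul, Finset.sum_sub_distrib, Finset.sum_mul, Finset.mul_sum]
      rw [Finset.sum_comm]
      congr 1
      apply Finset.sum_congr rfl
      intro i _
      apply Finset.sum_congr rfl
      intro n _
      rw [sub_eq_add_neg n]
      ring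
    rw [h1, sub_mul, one_mul, Finset.sum_mul]
    congr 1
    apply Finset.sum_congr rfl
    intro i _
    rw [avg_shift]
    ring
  have hd : ∀ (i : ℕ) (r : ZMod N), dhat (fun n => a (n + (i : ZMod N)) - a n) r =
      (ZMod.stdAddChar ((i : ZMod N) * r) - 1) * dhat a r := by
    intro i r
    have h1 : dhat (fun n => a (n + (i : ZMod N)) - a n) r =
        dhat (fun n => a (n + (i : ZMod N))) r - dhat a r := by
      unfold dhat
      simp only [sub_mul, Finset.sum_sub_distrib]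
    rw [h1, avg_shift]
    ring
  have hpt : ∀ r : ZMod N, ‖dhat a r‖ ^ 2 ≤
      1 / κ ^ 2 * ‖dhat (fun n => a n - ∑ i ∈ I, c i * a (n - (ρ i : ZMod N))) r‖ ^ 2 +
      (1 / (M : ℝ)) * ∑ i ∈ range M, ‖dhat (fun n => a (n + (i : ZMod N)) - a n) r‖ ^ 2 := by
    intro r
    obtain ⟨θ, hθ, hk⟩ := avg_theta r
    have h1 : ∀ i, (ZMod.stdAddChar (-(ρ i : ZMod N) * r) : ℂ) =
        Complex.exp (((-(θ * ρ i) : ℝ) : ℂ) * Complex.I) := by
      intro i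
      have := hk (-(ρ i : ℤ))
      push_cast at this
      rw [this]
      congr 1
      push_cast
      ring
    have h2 : ∀ i : ℕ, (ZMod.stdAddChar ((i : ZMod N) * r) : ℂ) =
        Complex.exp (((i * θ : ℝ) : ℂ) * Complex.I) := by
      intro i
      have := hk (i : ℤ)
      push_cast at this
      rw [this]
      congr 1
      push_cast
      ring
    rw [hb r]
    simp only [hd, norm_mul, mul_pow, h1, h2]
    rw [← Finset.sum_mul]
    have h3 : (0 : ℝ) ≤ ‖dhat a r‖ ^ 2 := sq_nonneg _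
    have h4 : (0 : ℝ) ≤ 1 / κ ^ 2 * ‖1 - ∑ i ∈ I, c i * Complex.exp (((-(θ * ρ i) : ℝ) : ℂ) * Complex.I)‖ ^ 2 :=
      mul_nonneg (div_nonneg zero_le_one (sq_nonneg _)) (sq_nonneg _)
    have h5 : (0 : ℝ) ≤ (1 / (M : ℝ)) * ∑ i ∈ range M, ‖Complex.exp (((i * θ : ℝ) : ℂ) * Complex.I) - 1‖ ^ 2 :=
      mul_nonneg (div_nonneg zero_le_one (Nat.cast_nonneg _)) (Finset.sum_nonneg fun _ _ => sq_nonneg _)
    have h6 : 1 ≤ 1 / κ ^ 2 * ‖1 - ∑ i ∈ I, c i * Complex.exp (((-(θ * ρ i) : ℝ) : ℂ) * Complex.I)‖ ^ 2 +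
        (1 / (M : ℝ)) * ∑ i ∈ range M, ‖Complex.exp (((i * θ : ℝ) : ℂ) * Complex.I) - 1‖ ^ 2 := by
      rcases H θ hθ with h | h
      · have h7 : κ ^ 2 ≤ ‖1 - ∑ i ∈ I, c i * Complex.exp (((-(θ * ρ i) : ℝ) : ℂ) * Complex.I)‖ ^ 2 :=
          pow_le_pow_left₀ hκ.le h 2
        have h8 : 1 ≤ 1 / κ ^ 2 * ‖1 - ∑ i ∈ I, c i * Complex.exp (((-(θ * ρ i) : ℝ) : ℂ) * Complex.I)‖ ^ 2 := by
          rw [one_div, inv_mul_eq_div, le_div_iff₀ (by positivity), one_mul]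
          exact h7
        linarith only [h8, h5]
      · linarith only [h, h4]
    have h10 := mul_le_mul_of_nonneg_right h6 h3
    rw [one_mul, add_mul] at h10
    refine h10.trans (le_of_eq ?_)
    ring
  have hsum := Finset.sum_le_sum fun (r : ZMod N) (_ : r ∈ Finset.univ) => hpt r
  rw [avg_parseval, Finset.sum_add_distrib, ← Finset.mul_sum, ← Finset.mul_sum, Finset.sum_comm,
    avg_parseval] at hsum
  simp only [avg_parseval] at hsum
  rw [← Finset.mul_sum] at hsum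
  have h9 : (N : ℝ) * ∑ n, ‖a n‖ ^ 2 ≤ N * (1 / κ ^ 2 * ∑ n, ‖a n - ∑ i ∈ I, c i * a (n - (ρ i : ZMod N))‖ ^ 2 +
      (1 / (M : ℝ)) * ∑ i ∈ range M, ∑ n, ‖a (n + (i : ZMod N)) - a n‖ ^ 2) := by
    refine hsum.trans (le_of_eq ?_)
    ring
  exact le_of_mul_le_mul_left h9 hN


private theorem avg_exp_diff (x y : ℝ) :
    ‖Complex.exp ((x : ℂ) * Complex.I) - Complex.exp ((y : ℂ) * Complex.I)‖ ≤ |x - y| := by
  have h1 : Complex.exp ((x : ℂ) * Complex.I) - Complex.exp ((y : ℂ) * Complex.I) =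
      Complex.exp ((y : ℂ) * Complex.I) * (Complex.exp (Complex.I * ((x - y : ℝ) : ℂ)) - 1) := by
    rw [mul_sub, mul_one, ← Complex.exp_add]
    congr 2
    push_cast
    ring
  rw [h1, norm_mul, Complex.norm_exp_ofReal_mul_I, one_mul]
  exact Real.norm_exp_I_mul_ofReal_sub_one_le

private theorem avg_geom (θ : ℝ) (hθ : |θ| ≤ Real.pi) (h0 : θ ≠ 0) (M : ℕ) :
    ‖∑ i ∈ range M, Complex.exp (((i * θ : ℝ) : ℂ) * Complex.I)‖ ≤ Real.pi / |θ| := by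
  set z := Complex.exp ((θ : ℂ) * Complex.I) with hz
  have h1 : ∀ i : ℕ, Complex.exp (((i * θ : ℝ) : ℂ) * Complex.I) = z ^ i := by
    intro i
    rw [hz, ← Complex.exp_nat_mul]
    congr 1
    push_cast
    ring
  simp only [h1]
  have h2 : 2 / Real.pi * |θ| ≤ ‖z - 1‖ := by
    have h3 : ‖z - 1‖ = ‖2 * Real.sin (θ / 2)‖ := by
      rw [← Complex.norm_exp_I_mul_ofReal_sub_one, hz, mul_comm]
    rw [h3, Real.norm_eq_abs, abs_mul, abs_two]
    have h4 := Real.mul_abs_le_abs_sin (x := θ / 2) (by rw [abs_div, abs_two]; linarith)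
    rw [abs_div, abs_two] at h4
    linarith
  have hθ0 : 0 < |θ| := abs_pos.2 h0
  have h5 : 0 < ‖z - 1‖ := lt_of_lt_of_le (by positivity) h2
  have h6 : (∑ i ∈ range M, z ^ i) * (z - 1) = z ^ M - 1 := geom_sum_mul z M
  have h7 : ‖∑ i ∈ range M, z ^ i‖ * ‖z - 1‖ ≤ 2 := by
    rw [← norm_mul, h6]
    refine (norm_sub_le _ _).trans ?_
    rw [norm_pow, hz, Complex.norm_exp_ofReal_mul_I, one_pow, norm_one]
    norm_num
  rw [le_div_iff₀ hθ0]
  have h8 : ‖∑ i ∈ range M, z ^ i‖ * (2 / Real.pi * |θ|) ≤ 2 :=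
    (mul_le_mul_of_nonneg_left h2 (norm_nonneg _)).trans h7
  have h9 : ‖∑ i ∈ range M, z ^ i‖ * (2 / Real.pi * |θ|) =
      2 * (‖∑ i ∈ range M, z ^ i‖ * |θ|) / Real.pi := by ring
  rw [h9, div_le_iff₀ Real.pi_pos] at h8
  linarith

private theorem avg_high (θ : ℝ) (hθ : |θ| ≤ Real.pi) (M : ℕ) (hM : 0 < M)
    (h : 2 * Real.pi / M ≤ |θ|) :
    1 ≤ (1 / (M : ℝ)) * ∑ i ∈ range M, ‖Complex.exp (((i * θ : ℝ) : ℂ) * Complex.I) - 1‖ ^ 2 := by
  have hM' : (0 : ℝ) < M := by exact_mod_cast hM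
  have h0 : θ ≠ 0 := by
    rintro rfl
    rw [abs_zero] at h
    have : (0 : ℝ) < 2 * Real.pi / M := by positivity
    linarith
  have h1 : ∀ i : ℕ, ‖Complex.exp (((i * θ : ℝ) : ℂ) * Complex.I) - 1‖ ^ 2 =
      2 - 2 * (Complex.exp (((i * θ : ℝ) : ℂ) * Complex.I)).re := by
    intro i
    have h2 : Complex.normSq (Complex.exp (((i * θ : ℝ) : ℂ) * Complex.I)) = 1 := by
      rw [Complex.normSq_eq_norm_sq, Complex.norm_exp_ofReal_mul_I, one_pow]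
    rw [← Complex.normSq_eq_norm_sq, Complex.normSq_sub, h2, map_one, map_one, mul_one]
    ring
  simp only [h1]
  rw [Finset.sum_sub_distrib, Finset.sum_const, card_range, ← Finset.mul_sum, ← Complex.re_sum,
    nsmul_eq_mul, one_div, inv_mul_eq_div, le_div_iff₀ hM', one_mul]
  have h3 : (∑ i ∈ range M, Complex.exp (((i * θ : ℝ) : ℂ) * Complex.I)).re ≤ M / 2 := by
    refine (Complex.re_le_norm _).trans ((avg_geom θ hθ h0 M).trans ?_)
    rw [div_le_iff₀ (abs_pos.2 h0)]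
    rw [div_le_iff₀ hM'] at h
    linarith
  linarith

private theorem avg_freq {ι : Type*} (I : Finset ι) (c : ι → ℂ) (lam : ι → ℝ) (ρ : ι → ℕ) (M : ℕ)
    (hM : 0 < M) (T0 h c0 : ℝ) (hh : 0 < h) (hc : ∑ i ∈ I, ‖c i‖ ≤ 1)
    (hρ : ∀ i ∈ I, |ρ i - lam i / h| ≤ 1)
    (hm : ∀ t : ℝ, |t| ≤ T0 →
      (∑ i ∈ I, c i * Complex.exp (-((t * lam i : ℝ) : ℂ) * Complex.I)).re ≤ 1 - c0)
    (h1 : T0 * h ≤ c0 / 2) (h2 : 2 * Real.pi / M ≤ T0 * h) (θ : ℝ) (hθ : |θ| ≤ Real.pi) :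
    c0 / 2 ≤ ‖1 - ∑ i ∈ I, c i * Complex.exp (((-(θ * ρ i) : ℝ) : ℂ) * Complex.I)‖ ∨
      1 ≤ (1 / (M : ℝ)) * ∑ i ∈ range M, ‖Complex.exp (((i * θ : ℝ) : ℂ) * Complex.I) - 1‖ ^ 2 := by
  by_cases hc1 : |θ| ≤ T0 * h
  · left
    have h3 := hm (θ / h) (by rw [abs_div, abs_of_pos hh, div_le_iff₀ hh]; exact hc1)
    set S1 := ∑ i ∈ I, c i * Complex.exp (((-(θ * ρ i) : ℝ) : ℂ) * Complex.I) with hS1
    set S2 := ∑ i ∈ I, c i * Complex.exp (-((θ / h * lam i : ℝ) : ℂ) * Complex.I) with hS2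
    have h4 : ‖S1 - S2‖ ≤ |θ| := by
      rw [hS1, hS2, ← Finset.sum_sub_distrib]
      calc ‖∑ i ∈ I, (c i * Complex.exp (((-(θ * ρ i) : ℝ) : ℂ) * Complex.I) -
            c i * Complex.exp (-((θ / h * lam i : ℝ) : ℂ) * Complex.I))‖
          ≤ ∑ i ∈ I, ‖c i * Complex.exp (((-(θ * ρ i) : ℝ) : ℂ) * Complex.I) -
            c i * Complex.exp (-((θ / h * lam i : ℝ) : ℂ) * Complex.I)‖ := norm_sum_le _ _
        _ ≤ ∑ i ∈ I, ‖c i‖ * |θ| := by
          apply Finset.sum_le_sum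
          intro i hi
          rw [← mul_sub, norm_mul]
          apply mul_le_mul_of_nonneg_left _ (norm_nonneg _)
          have h5 := avg_exp_diff (-(θ * ρ i)) (-(θ / h * lam i))
          rw [Complex.ofReal_neg (θ / h * lam i)] at h5
          refine h5.trans ?_
          have h6 : -(θ * ρ i) - -(θ / h * lam i) = θ * (-(ρ i - lam i / h)) := by ring
          rw [h6, abs_mul, abs_neg]
          have := hρ i hi
          calc |θ| * |(ρ i : ℝ) - lam i / h| ≤ |θ| * 1 :=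
                mul_le_mul_of_nonneg_left this (abs_nonneg _)
            _ = |θ| := mul_one _
        _ = (∑ i ∈ I, ‖c i‖) * |θ| := by rw [Finset.sum_mul]
        _ ≤ 1 * |θ| := mul_le_mul_of_nonneg_right hc (abs_nonneg _)
        _ = |θ| := one_mul _
    have h7 : S1.re - S2.re ≤ ‖S1 - S2‖ := by
      rw [← Complex.sub_re]
      exact Complex.re_le_norm _
    have h8 : (1 - S1).re ≤ ‖1 - S1‖ := Complex.re_le_norm _
    rw [Complex.sub_re, Complex.one_re] at h8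
    linarith
  · right
    exact avg_high θ hθ M hM (by push Not at hc1; linarith)

private theorem avg_range {N : ℕ} [NeZero N] (f : ZMod N → ℝ) :
    ∑ n, f n = ∑ n ∈ range N, f (n : ZMod N) := by
  symm
  refine Finset.sum_bij (fun n _ => (n : ZMod N)) (fun _ _ => Finset.mem_univ _) ?_ ?_
    (fun _ _ => rfl)
  · intro a ha b hb hab
    have h1 := congrArg ZMod.val hab
    rwa [ZMod.val_cast_of_lt (mem_range.1 ha), ZMod.val_cast_of_lt (mem_range.1 hb)] at h1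
  · intro b _
    exact ⟨b.val, mem_range.2 (ZMod.val_lt b), by simp⟩

private theorem avg_count (N K M : ℕ) (f : ℕ → ℝ) (α β : ℝ) (hα : 0 ≤ α) (hβ : 0 ≤ β)
    (h1 : ∀ n < N, f n ≤ β) (h2 : ∀ n < N, K ≤ n → n + M < N → f n ≤ α) :
    ∑ n ∈ range N, f n ≤ α * N + β * (K + M) := by
  have h3 : ∀ n ∈ range N, f n ≤ α + ((if n < K then β else 0) + (if N - M ≤ n then β else 0)) := by
    intro n hn
    rw [mem_range] at hn
    by_cases hK : n < K
    · rw [if_pos hK]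
      have := h1 n hn
      split_ifs <;> linarith
    · rw [if_neg hK]
      by_cases hM : N - M ≤ n
      · rw [if_pos hM]
        have := h1 n hn
        linarith
      · rw [if_neg hM]
        have := h2 n hn (not_lt.1 hK) (by omega)
        linarith
  refine (Finset.sum_le_sum h3).trans ?_
  rw [Finset.sum_add_distrib, Finset.sum_add_distrib, Finset.sum_const, card_range, nsmul_eq_mul,
    ← Finset.sum_filter, ← Finset.sum_filter, Finset.sum_const, Finset.sum_const, nsmul_eq_mul,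
    nsmul_eq_mul]
  have h4 : ((range N).filter fun n => n < K).card ≤ K := by
    calc ((range N).filter fun n => n < K).card ≤ (range K).card :=
          Finset.card_le_card fun n hn => by
            rw [mem_filter] at hn; exact mem_range.2 hn.2
      _ = K := card_range K
  have h5 : ((range N).filter fun n => N - M ≤ n).card ≤ M := by
    calc ((range N).filter fun n => N - M ≤ n).card ≤ (Ico (N - M) N).card :=
          Finset.card_le_card fun n hn => by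
            rw [mem_filter, mem_range] at hn; exact mem_Ico.2 ⟨hn.2, hn.1⟩
      _ = N - (N - M) := Nat.card_Ico _ _
      _ ≤ M := by omega
  have h6 : (((range N).filter fun n => n < K).card : ℝ) ≤ K := by exact_mod_cast h4
  have h7 : (((range N).filter fun n => N - M ≤ n).card : ℝ) ≤ M := by exact_mod_cast h5
  have h8 := mul_le_mul_of_nonneg_right h6 hβ
  have h9 := mul_le_mul_of_nonneg_right h7 hβ
  linarith only [h8, h9]


private theorem avg_bsmall {N : ℕ} [NeZero N] {ι : Type*} (A : ℝ → ℂ) (C δ h s0 L : ℝ) (hC : 0 < C)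
    (hh : 0 < h) (hh1 : h ≤ 1) (hL0 : 0 ≤ L) (hδ : 0 ≤ δ)
    (hl : ∀ s h : ℝ, 0 ≤ s → 0 ≤ h → h ≤ 1 → ‖A (s + h) - A s‖ ≤ C * (h + Real.exp (-(s / 4))))
    (I : Finset ι) (c : ι → ℂ) (lam : ι → ℝ) (hlam : ∀ i ∈ I, 0 ≤ lam i) (hc : ∑ i ∈ I, ‖c i‖ ≤ 1)
    (hs : ∀ s, s0 ≤ s → ‖A s - ∑ i ∈ I, c i * A (s - lam i)‖ ≤ δ)
    (hL : C * Real.exp (-(L / 4)) ≤ δ) (hCh : C * h ≤ δ) (n : ℕ) (hn : n < N) (hn1 : s0 ≤ n * h)
    (hn2 : ∀ i ∈ I, lam i + L ≤ n * h) :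
    ‖A (((n : ZMod N).val : ℝ) * h) -
      ∑ i ∈ I, c i * A ((((n : ZMod N) - ((⌊lam i / h⌋₊ : ℕ) : ZMod N)).val : ℝ) * h)‖ ≤ 3 * δ := by
  have hval : (n : ZMod N).val = n := ZMod.val_cast_of_lt hn
  rw [hval]
  have h1 := hs (n * h) hn1
  have h2 : ∀ i ∈ I, ‖A ((((n : ZMod N) - ((⌊lam i / h⌋₊ : ℕ) : ZMod N)).val : ℝ) * h) -
      A (n * h - lam i)‖ ≤ 2 * δ := by
    intro i hi
    set ρ := ⌊lam i / h⌋₊ with hρ
    have h3 : (ρ : ℝ) * h ≤ lam i := by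
      have := Nat.floor_le (div_nonneg (hlam i hi) hh.le)
      rw [← hρ] at this
      rwa [le_div_iff₀ hh] at this
    have h4 : lam i < (ρ + 1) * h := by
      have := Nat.lt_floor_add_one (lam i / h)
      rw [← hρ] at this
      rwa [div_lt_iff₀ hh] at this
    have h5 := hn2 i hi
    have h6 : ρ ≤ n := by
      have : (ρ : ℝ) * h ≤ n * h := by linarith
      have := le_of_mul_le_mul_right this hh
      exact_mod_cast this
    have h7 : ((n : ZMod N) - (ρ : ZMod N)).val = n - ρ := by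
      rw [← Nat.cast_sub h6]
      exact ZMod.val_cast_of_lt (by omega)
    rw [h7]
    have h8 : (((n - ρ : ℕ) : ℝ)) * h = (n * h - lam i) + (lam i - ρ * h) := by
      rw [Nat.cast_sub h6]; ring
    rw [h8]
    have h9 := hl (n * h - lam i) (lam i - ρ * h) (by linarith) (by linarith) (by linarith)
    refine h9.trans ?_
    have h10 : Real.exp (-((n * h - lam i) / 4)) ≤ Real.exp (-(L / 4)) :=
      Real.exp_le_exp.2 (by linarith)
    have h11 : C * Real.exp (-((n * h - lam i) / 4)) ≤ δ :=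
      (mul_le_mul_of_nonneg_left h10 hC.le).trans hL
    have h12 : C * (lam i - ρ * h) ≤ δ :=
      (mul_le_mul_of_nonneg_left (show lam i - ρ * h ≤ h by linarith) hC.le).trans hCh
    rw [mul_add]
    linarith
  have h3 : A (n * h) - ∑ i ∈ I, c i * A ((((n : ZMod N) - ((⌊lam i / h⌋₊ : ℕ) : ZMod N)).val : ℝ) * h) =
      (A (n * h) - ∑ i ∈ I, c i * A (n * h - lam i)) -
      ∑ i ∈ I, c i * (A ((((n : ZMod N) - ((⌊lam i / h⌋₊ : ℕ) : ZMod N)).val : ℝ) * h) -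
        A (n * h - lam i)) := by
    simp only [mul_sub, Finset.sum_sub_distrib]
    ring
  rw [h3]
  refine (norm_sub_le _ _).trans ?_
  have h4 : ‖∑ i ∈ I, c i * (A ((((n : ZMod N) - ((⌊lam i / h⌋₊ : ℕ) : ZMod N)).val : ℝ) * h) -
        A (n * h - lam i))‖ ≤ 2 * δ := by
    calc _ ≤ ∑ i ∈ I, ‖c i * (A ((((n : ZMod N) - ((⌊lam i / h⌋₊ : ℕ) : ZMod N)).val : ℝ) * h) -
        A (n * h - lam i))‖ := norm_sum_le _ _
      _ ≤ ∑ i ∈ I, ‖c i‖ * (2 * δ) := by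
        apply Finset.sum_le_sum
        intro i hi
        rw [norm_mul]
        exact mul_le_mul_of_nonneg_left (h2 i hi) (norm_nonneg _)
      _ = (∑ i ∈ I, ‖c i‖) * (2 * δ) := by rw [Finset.sum_mul]
      _ ≤ 1 * (2 * δ) := mul_le_mul_of_nonneg_right hc (by linarith)
      _ = 2 * δ := one_mul _
  linarith

private theorem avg_bbig {ι : Type*} (A : ℝ → ℂ) (C : ℝ) (hC : 0 < C)
    (hb : ∀ s, 0 ≤ s → ‖A s‖ ≤ C) (I : Finset ι) (c : ι → ℂ) (hc : ∑ i ∈ I, ‖c i‖ ≤ 1)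
    (x : ℝ) (hx : 0 ≤ x) (y : ι → ℝ) (hy : ∀ i, 0 ≤ y i) :
    ‖A x - ∑ i ∈ I, c i * A (y i)‖ ≤ 2 * C := by
  refine (norm_sub_le _ _).trans ?_
  have h4 : ‖∑ i ∈ I, c i * A (y i)‖ ≤ C := by
    calc _ ≤ ∑ i ∈ I, ‖c i * A (y i)‖ := norm_sum_le _ _
      _ ≤ ∑ i ∈ I, ‖c i‖ * C := by
        apply Finset.sum_le_sum
        intro i _
        rw [norm_mul]
        exact mul_le_mul_of_nonneg_left (hb _ (hy i)) (norm_nonneg _)
      _ = (∑ i ∈ I, ‖c i‖) * C := by rw [Finset.sum_mul]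
      _ ≤ 1 * C := mul_le_mul_of_nonneg_right hc hC.le
      _ = C := one_mul _
  linarith [hb x hx]

private theorem avg_dsmall {N : ℕ} [NeZero N] (A : ℝ → ℂ) (C h h0 : ℝ) (hC : 0 < C)
    (hh : 0 < h) (hh0 : h0 ≤ 1)
    (hl : ∀ s h : ℝ, 0 ≤ s → 0 ≤ h → h ≤ 1 → ‖A (s + h) - A s‖ ≤ C * (h + Real.exp (-(s / 4))))
    (M : ℕ) (hM : M * h ≤ h0) (i : ℕ) (hi : i < M) (n : ℕ) (hn : n + M < N)
    (hn1 : Real.exp (-(n * h / 4)) ≤ h0) :
    ‖A ((((n : ZMod N) + (i : ZMod N)).val : ℝ) * h) - A (((n : ZMod N).val : ℝ) * h)‖ ≤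
      2 * C * h0 := by
  have h1 : ((n : ZMod N) + (i : ZMod N)).val = n + i := by
    rw [← Nat.cast_add]
    exact ZMod.val_cast_of_lt (by omega)
  have h2 : (n : ZMod N).val = n := ZMod.val_cast_of_lt (by omega)
  have h3 : (i : ℝ) ≤ M := by exact_mod_cast hi.le
  have h4 : (i : ℝ) * h ≤ h0 := (mul_le_mul_of_nonneg_right h3 hh.le).trans hM
  have h5 := hl (n * h) (i * h) (by positivity) (by positivity) (by linarith)
  rw [h1, h2]
  have h6 : (((n + i : ℕ) : ℝ)) * h = n * h + i * h := by push_cast; ring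
  rw [h6]
  refine h5.trans ?_
  have h7 : C * (i * h + Real.exp (-(n * h / 4))) ≤ C * (h0 + h0) :=
    mul_le_mul_of_nonneg_left (add_le_add h4 hn1) hC.le
  linarith only [h7]

private theorem avg_expb (C δ L : ℝ) (hδ : 0 < δ) (hL : L / 4 = C / δ) : C * Real.exp (-(L / 4)) ≤ δ := by
  have h1 : C / δ + 1 ≤ Real.exp (L / 4) := by
    rw [hL]
    exact Real.add_one_le_exp _
  rw [Real.exp_neg, ← div_eq_mul_inv, div_le_iff₀ (Real.exp_pos _)]
  have h2 : δ * (C / δ + 1) ≤ δ * Real.exp (L / 4) := mul_le_mul_of_nonneg_left h1 hδ.le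
  have h3 : δ * (C / δ + 1) = C + δ := by
    rw [mul_add, mul_div_cancel₀ _ hδ.ne', mul_one]
  linarith only [h2, h3, hδ]

private theorem avg_hMT (h0 h : ℝ) (M : ℕ) (hh0 : 0 < h0) (hh : 0 < h) (hM0' : (0 : ℝ) < M)
    (h1 : h0 / h ≤ 2 * M) : 2 * Real.pi / M ≤ 4 * Real.pi / h0 * h := by
  rw [div_le_iff₀ hM0']
  rw [div_le_iff₀ hh] at h1
  have h2 : 4 * Real.pi / h0 * h * M = 2 * Real.pi * ((2 * M * h) / h0) := by ring
  rw [h2]
  have h3 : 1 ≤ (2 * M * h) / h0 := by rw [le_div_iff₀ hh0]; linarith only [h1]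
  exact le_mul_of_one_le_right (by linarith only [Real.pi_pos]) h3

/-- PROOF. Parseval on `ZMod N`. -/
theorem avg_core (A : ℝ → ℂ) (C c0 : ℝ) (hC : 0 < C) (hc0 : 0 < c0) (hb : ∀ s, 0 ≤ s → ‖A s‖ ≤ C)
    (hl : ∀ s h : ℝ, 0 ≤ s → 0 ≤ h → h ≤ 1 → ‖A (s + h) - A s‖ ≤ C * (h + Real.exp (-(s / 4))))
    (hm : ∀ T0 δ : ℝ, 0 < δ → ∃ (I : Finset G) (c : G → ℂ) (lam : G → ℝ) (s0 : ℝ), (∀ i ∈ I, 0 ≤ lam i) ∧
      ∑ i ∈ I, ‖c i‖ ≤ 1 ∧ (∀ s, s0 ≤ s → ‖A s - ∑ i ∈ I, c i * A (s - lam i)‖ ≤ δ) ∧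
      ∀ t : ℝ, |t| ≤ T0 → (∑ i ∈ I, c i * Complex.exp (-((t * lam i : ℝ) : ℂ) * Complex.I)).re ≤ 1 - c0)
    (ε : ℝ) (hε : 0 < ε) : ∃ h1 : ℝ, 0 < h1 ∧ ∀ h : ℝ, 0 < h → h ≤ h1 → ∃ N0 : ℕ, ∀ N : ℕ, N0 ≤ N →
      ∑ n ∈ range N, ‖A (n * h)‖ ^ 2 ≤ ε * N := by
  have hpi := Real.pi_pos
  have hsq : 0 < Real.sqrt ε := Real.sqrt_pos.2 hε
  have hsq2 : Real.sqrt ε ^ 2 = ε := Real.sq_sqrt hε.le
  obtain ⟨h0, hh0, hh01, hh02⟩ : ∃ h0 : ℝ, 0 < h0 ∧ h0 ≤ 1 ∧ h0 ≤ Real.sqrt ε / (4 * C) :=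
    ⟨min 1 (Real.sqrt ε / (4 * C)), lt_min one_pos (by positivity), min_le_left _ _,
      min_le_right _ _⟩
  have hh03 : (2 * C * h0) ^ 2 ≤ ε / 4 := by
    rw [le_div_iff₀ (by positivity)] at hh02
    have h1 : 2 * C * h0 ≤ Real.sqrt ε / 2 := by linarith
    have h2 : (2 * C * h0) ^ 2 ≤ (Real.sqrt ε / 2) ^ 2 := pow_le_pow_left₀ (by positivity) h1 2
    rw [div_pow, hsq2] at h2
    linarith
  obtain ⟨T0, hT0⟩ : ∃ T0 : ℝ, T0 = 4 * Real.pi / h0 := ⟨_, rfl⟩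
  have hT0p : 0 < T0 := by rw [hT0]; positivity
  obtain ⟨δ, hδd⟩ : ∃ δ : ℝ, δ = c0 * Real.sqrt ε / 12 := ⟨_, rfl⟩
  have hδ : 0 < δ := by rw [hδd]; positivity
  obtain ⟨I, c, lam, s0, hlam, hc, hs, hmt⟩ := hm T0 δ hδ
  obtain ⟨Λ, hΛ, hΛ0⟩ : ∃ Λ : ℝ, (∀ i ∈ I, lam i ≤ Λ) ∧ 0 ≤ Λ :=
    ⟨∑ i ∈ I, lam i, fun i hi => Finset.single_le_sum (f := lam) hlam hi, Finset.sum_nonneg hlam⟩
  obtain ⟨L, hLd⟩ : ∃ L : ℝ, L = 4 * (C / δ) := ⟨_, rfl⟩
  have hL0 : 0 ≤ L := by rw [hLd]; positivity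
  have hL : C * Real.exp (-(L / 4)) ≤ δ := avg_expb C δ L hδ (by rw [hLd]; ring)
  obtain ⟨s1, hs1d⟩ : ∃ s1 : ℝ, s1 = |s0| + Λ + L := ⟨_, rfl⟩
  obtain ⟨s2, hs2d⟩ : ∃ s2 : ℝ, s2 = 4 / h0 := ⟨_, rfl⟩
  have hs2 : Real.exp (-(s2 / 4)) ≤ h0 := by
    have := avg_expb 1 h0 s2 hh0 (by rw [hs2d]; ring)
    rwa [one_mul] at this
  refine ⟨min (h0 / 2) (min (c0 / (2 * T0)) (δ / C)), by positivity, fun h hh hhle => ?_⟩
  have ha1 : h ≤ h0 / 2 := hhle.trans (min_le_left _ _)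
  have ha2 : h ≤ c0 / (2 * T0) := hhle.trans ((min_le_right _ _).trans (min_le_left _ _))
  have ha3 : h ≤ δ / C := hhle.trans ((min_le_right _ _).trans (min_le_right _ _))
  rw [le_div_iff₀ (by positivity)] at ha2 ha3
  have hTh : T0 * h ≤ c0 / 2 := by linarith only [ha2]
  have hCh : C * h ≤ δ := by linarith only [ha3]
  have hq : 2 ≤ h0 / h := by
    rw [le_div_iff₀ hh]; linarith only [ha1]
  obtain ⟨M, hM1, hM2⟩ : ∃ M : ℕ, h0 / h - 1 < M ∧ (M : ℝ) ≤ h0 / h :=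
    ⟨⌊h0 / h⌋₊, by linarith only [Nat.lt_floor_add_one (h0 / h)], Nat.floor_le (by positivity)⟩
  have hM0 : 0 < M := by
    have : (0 : ℝ) < M := by linarith only [hM1, hq]
    exact_mod_cast this
  have hM0' : (0 : ℝ) < M := by exact_mod_cast hM0
  have hMh : M * h ≤ h0 := by rwa [le_div_iff₀ hh] at hM2
  have hMT : 2 * Real.pi / M ≤ T0 * h := by
    rw [hT0]
    exact avg_hMT h0 h M hh0 hh hM0' (by linarith only [hM1, hq])
  obtain ⟨K1, hK1d⟩ : ∃ K1 : ℕ, s1 / h ≤ K1 := ⟨⌈s1 / h⌉₊, Nat.le_ceil _⟩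
  obtain ⟨K2, hK2d⟩ : ∃ K2 : ℕ, s2 / h ≤ K2 := ⟨⌈s2 / h⌉₊, Nat.le_ceil _⟩
  obtain ⟨Bd, hBd⟩ : ∃ Bd : ℝ, Bd = 1 / (c0 / 2) ^ 2 * ((2 * C) ^ 2 * (K1 + (0 : ℕ))) +
    (2 * C) ^ 2 * (K2 + M) := ⟨_, rfl⟩
  refine ⟨max 1 ⌈Bd / (ε / 2)⌉₊, fun N hN => ?_⟩
  have hN1 : 1 ≤ N := (le_max_left _ _).trans hN
  have hN2 : ⌈Bd / (ε / 2)⌉₊ ≤ N := (le_max_right _ _).trans hN
  have hN3 : Bd ≤ ε / 2 * N := by
    have h1 : Bd / (ε / 2) ≤ N := (Nat.le_ceil _).trans (by exact_mod_cast hN2)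
    rw [div_le_iff₀ (by positivity)] at h1
    linarith only [h1]
  have : NeZero N := ⟨by omega⟩
  have hmain := avg_main (N := N) I c (fun i => ⌊lam i / h⌋₊) M (c0 / 2) (by positivity)
    (fun n : ZMod N => A ((n.val : ℝ) * h))
    (avg_freq I c lam (fun i => ⌊lam i / h⌋₊) M hM0 T0 h c0 hh hc (fun i hi => by
      have h1 := Nat.floor_le (div_nonneg (hlam i hi) hh.le)
      have h2 := Nat.lt_floor_add_one (lam i / h)
      rw [abs_le]
      exact ⟨by linarith only [h2], by linarith only [h1]⟩) hmt hTh hMT)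
  rw [avg_range, avg_range] at hmain
  have hE1 : ∑ n ∈ range N, ‖A (n * h)‖ ^ 2 =
      ∑ n ∈ range N, ‖A (((n : ZMod N).val : ℝ) * h)‖ ^ 2 := by
    apply Finset.sum_congr rfl
    intro n hn
    rw [ZMod.val_cast_of_lt (mem_range.1 hn)]
  rw [hE1]
  refine hmain.trans ?_
  have hE2 : ∑ n ∈ range N, ‖A (((n : ZMod N).val : ℝ) * h) - ∑ i ∈ I, c i *
      A ((((n : ZMod N) - ((⌊lam i / h⌋₊ : ℕ) : ZMod N)).val : ℝ) * h)‖ ^ 2 ≤
      (3 * δ) ^ 2 * N + (2 * C) ^ 2 * (K1 + (0 : ℕ)) := by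
    apply avg_count N K1 0 _ _ _ (sq_nonneg _) (sq_nonneg _)
    · intro n _
      exact pow_le_pow_left₀ (norm_nonneg _) (avg_bbig A C hC hb I c hc _ (by positivity) _
        (fun i => by positivity)) 2
    · intro n hn hK _
      have h1 : s1 ≤ n * h := by
        have h2 : s1 / h ≤ n := hK1d.trans (Nat.cast_le.2 hK)
        rwa [div_le_iff₀ hh] at h2
      have h3 : h ≤ 1 := by linarith only [ha1, hh01, hh0]
      have h4 : s0 ≤ n * h := by linarith only [le_abs_self s0, h1, hs1d, hΛ0, hL0]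
      have h5 : ∀ i ∈ I, lam i + L ≤ n * h := fun i hi => by
        linarith only [hΛ i hi, abs_nonneg s0, h1, hs1d]
      exact pow_le_pow_left₀ (norm_nonneg _) (avg_bsmall A C δ h s0 L hC hh h3 hL0 hδ.le
        hl I c lam hlam hc hs hL hCh n hn h4 h5) 2
  have hE3 : ∀ i ∈ range M, ∑ n : ZMod N, ‖A (((n + (i : ZMod N)).val : ℝ) * h) -
      A ((n.val : ℝ) * h)‖ ^ 2 ≤ (2 * C * h0) ^ 2 * N + (2 * C) ^ 2 * (K2 + M) := by
    intro i hi
    rw [avg_range]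
    apply avg_count N K2 M _ _ _ (sq_nonneg _) (sq_nonneg _)
    · intro n _
      refine pow_le_pow_left₀ (norm_nonneg _) ?_ 2
      refine (norm_sub_le _ _).trans ?_
      have h1 := hb ((((n : ZMod N) + (i : ZMod N)).val : ℝ) * h) (by positivity)
      have h2 := hb (((n : ZMod N).val : ℝ) * h) (by positivity)
      linarith only [h1, h2]
    · intro n hn hK hnM
      refine pow_le_pow_left₀ (norm_nonneg _) (avg_dsmall A C h h0 hC hh hh01 hl M hMh i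
        (mem_range.1 hi) n hnM ?_) 2
      have h1 : s2 ≤ n * h := by
        have h2 : s2 / h ≤ n := hK2d.trans (Nat.cast_le.2 hK)
        rwa [div_le_iff₀ hh] at h2
      refine le_trans (Real.exp_le_exp.2 ?_) hs2
      linarith only [h1]
  have hE4 := Finset.sum_le_sum hE3
  rw [Finset.sum_const, card_range, nsmul_eq_mul] at hE4
  have hE5 : (1 / (M : ℝ)) * ∑ i ∈ range M, ∑ n : ZMod N, ‖A (((n + (i : ZMod N)).val : ℝ) * h) -
      A ((n.val : ℝ) * h)‖ ^ 2 ≤ (2 * C * h0) ^ 2 * N + (2 * C) ^ 2 * (K2 + M) := by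
    rw [one_div, inv_mul_le_iff₀ hM0']
    exact hE4
  have hE6 : 1 / (c0 / 2) ^ 2 * ∑ n ∈ range N, ‖A (((n : ZMod N).val : ℝ) * h) - ∑ i ∈ I, c i *
      A ((((n : ZMod N) - ((⌊lam i / h⌋₊ : ℕ) : ZMod N)).val : ℝ) * h)‖ ^ 2 ≤
      1 / (c0 / 2) ^ 2 * ((3 * δ) ^ 2 * N + (2 * C) ^ 2 * (K1 + (0 : ℕ))) :=
    mul_le_mul_of_nonneg_left hE2 (by positivity)
  have hE7 : 1 / (c0 / 2) ^ 2 * (3 * δ) ^ 2 = ε / 4 := by
    have h1 : (3 * δ) ^ 2 = c0 ^ 2 * Real.sqrt ε ^ 2 / 16 := by rw [hδd]; ring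
    rw [h1, hsq2]
    field_simp
    ring
  have hE8 : (2 * C * h0) ^ 2 * N ≤ ε / 4 * N := mul_le_mul_of_nonneg_right hh03 (Nat.cast_nonneg _)
  have hE9 : 1 / (c0 / 2) ^ 2 * ((3 * δ) ^ 2 * N + (2 * C) ^ 2 * (K1 + (0 : ℕ))) =
      ε / 4 * N + 1 / (c0 / 2) ^ 2 * ((2 * C) ^ 2 * (K1 + (0 : ℕ))) := by
    rw [mul_add, ← mul_assoc, hE7]
  rw [hE9] at hE6
  calc _ ≤ (ε / 4 * N + 1 / (c0 / 2) ^ 2 * ((2 * C) ^ 2 * (K1 + (0 : ℕ)))) +
      ((2 * C * h0) ^ 2 * N + (2 * C) ^ 2 * (K2 + M)) := add_le_add hE6 hE5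
    _ ≤ ε / 4 * N + ε / 4 * N + Bd := by linarith only [hBd, hE8]
    _ ≤ ε * N := by linarith only [hN3]

end Pool.Agent.ECM
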