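import Pool.Agent.Lib_MP_f1a94e_mr.Defs

/-!
# Piece M-AVGALL: from fine grids to coarse grids (abstract)
-/

set_option autoImplicit false

namespace Pool.Agent.ECM

open Finset Pool.Agent.GaussMR

private theorem avg_sum_mul (g : ℕ → ℝ) (m : ℕ) : ∀ N : ℕ,
    ∑ n ∈ range N, ∑ i ∈ range m, g (n * m + i) = ∑ k ∈ range (N * m), g k := by
  intro N
  induction N with
  | zero => simp
  | succ N ih =>
    rw [sum_range_succ, ih, Nat.succ_mul, Finset.sum_range_add]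

private theorem avg_geom (h : ℝ) (hh : 0 < h) (N : ℕ) :
    ∑ n ∈ range N, Real.exp (-(n * h / 2)) ≤ (1 - Real.exp (-(h / 2)))⁻¹ := by
  have hr0 : 0 ≤ Real.exp (-(h / 2)) := (Real.exp_pos _).le
  have hr1 : Real.exp (-(h / 2)) < 1 := by
    rw [Real.exp_lt_one_iff]
    linarith
  have h1 : ∀ n : ℕ, Real.exp (-(n * h / 2)) = Real.exp (-(h / 2)) ^ n := by
    intro n
    rw [← Real.exp_nat_mul]
    congr 1
    ring
  simp_rw [h1]
  rw [← tsum_geometric_of_lt_one hr0 hr1]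
  exact (summable_geometric_of_lt_one hr0 hr1).sum_le_tsum _ (fun n _ => by positivity)

/-- PROOF. Take `η ≤ min h 1`, `4 C² η² ≤ ε / 4`; `hcore` with `ε' = ε η / (16 h)` gives `h1`; let `h' = h / m` with `m` so large that `h' ≤ h1`, `h' ≤ η / 2`; `M = ⌊η / h'⌋`, so `1 ≤ M ≤ m`, `M ≥ η / (2 h')`. For each `n` and `i < M`:
`‖A (n h)‖² ≤ 2 ‖A (n h + i h')‖² + 2 C² (η + exp (-n h / 4))²`. Average over `i`, sum over `n < N`; the points `n h + i h' = (n m + i) h'` are distinct points of the fine grid below `N m`: the sum is at most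
`(2/M) ∑_(k < N m) ‖A (k h')‖² + 4 C² η² N + 4 C² ∑ exp (-n h / 2) ≤ (2/M) ε' N m + ε N / 4 + C' ≤ (4 h / η) ε' N + ε N / 4 + C'`. -/
theorem avg_all (A : ℝ → ℂ) (C : ℝ) (hC : 0 < C)
    (hl : ∀ s h : ℝ, 0 ≤ s → 0 ≤ h → h ≤ 1 → ‖A (s + h) - A s‖ ≤ C * (h + Real.exp (-(s / 4))))
    (hcore : ∀ ε : ℝ, 0 < ε → ∃ h1 : ℝ, 0 < h1 ∧ ∀ h : ℝ, 0 < h → h ≤ h1 → ∃ N0 : ℕ, ∀ N : ℕ, N0 ≤ N →
      ∑ n ∈ range N, ‖A (n * h)‖ ^ 2 ≤ ε * N)
    (h : ℝ) (hh : 0 < h) (ε : ℝ) (hε : 0 < ε) : ∃ N0 : ℕ, ∀ N : ℕ, N0 ≤ N →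
      ∑ n ∈ range N, ‖A (n * h)‖ ^ 2 ≤ ε * N := by
  -- choice of `η`
  obtain ⟨η, hη0, hηh, hη1, hηε⟩ : ∃ η : ℝ, 0 < η ∧ η ≤ h ∧ η ≤ 1 ∧ 4 * C ^ 2 * η ^ 2 ≤ ε / 4 := by
    refine ⟨min (min h 1) (Real.sqrt ε / (4 * C)), by positivity, ?_, ?_, ?_⟩
    · exact (min_le_left _ _).trans (min_le_left _ _)
    · exact (min_le_left _ _).trans (min_le_right _ _)
    · set η : ℝ := min (min h 1) (Real.sqrt ε / (4 * C)) with hη
      have h0 : 0 < η := by positivity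
      have h1 : η ≤ Real.sqrt ε / (4 * C) := min_le_right _ _
      have h2 : η ^ 2 ≤ (Real.sqrt ε / (4 * C)) ^ 2 := pow_le_pow_left₀ h0.le h1 2
      rw [div_pow, Real.sq_sqrt hε.le, le_div_iff₀ (by positivity)] at h2
      nlinarith
  obtain ⟨h1, hh1, hgrid⟩ := hcore (ε * η / (16 * h)) (by positivity)
  -- choice of `m`
  obtain ⟨m, hm⟩ := exists_nat_ge (max (h / h1) (2 * h / η))
  have hm1 : h / h1 ≤ m := (le_max_left _ _).trans hm
  have hm2 : 2 * h / η ≤ m := (le_max_right _ _).trans hm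
  have hm0 : (0 : ℝ) < m := lt_of_lt_of_le (by positivity) hm1
  have hmne : (m : ℝ) ≠ 0 := hm0.ne'
  have hmpos : 0 < m := by exact_mod_cast hm0
  set h' : ℝ := h / m with hh'
  have hh'0 : 0 < h' := by positivity
  have hmh' : (m : ℝ) * h' = h := by
    rw [hh']
    field_simp
  have hh'1 : h' ≤ h1 := by
    rw [hh', div_le_iff₀ hm0]
    rw [div_le_iff₀ hh1] at hm1
    linarith
  have hh'2 : 2 * h' ≤ η := by
    rw [hh']
    rw [div_le_iff₀ hη0] at hm2
    rw [← mul_div_assoc, div_le_iff₀ hm0]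
    linarith
  set M : ℕ := ⌊η / h'⌋₊ with hM
  have hMle : (M : ℝ) ≤ η / h' := Nat.floor_le (by positivity)
  have hMh : (M : ℝ) * h' ≤ η := (le_div_iff₀ hh'0).1 hMle
  have hMge : η / (2 * h') ≤ M := by
    have h2 : η / h' < M + 1 := Nat.lt_floor_add_one _
    have h3 : 1 ≤ η / (2 * h') := by
      rw [le_div_iff₀ (by positivity)]
      linarith
    have h4 : η / h' = η / (2 * h') + η / (2 * h') := by
      field_simp
      ring
    linarith
  have hM0 : (0 : ℝ) < M := lt_of_lt_of_le (by positivity) hMge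
  have hMm : M ≤ m := by
    have h2 : (M : ℝ) * h' ≤ m * h' := by
      rw [hmh']
      linarith
    have h3 : (M : ℝ) ≤ m := le_of_mul_le_mul_right h2 hh'0
    exact_mod_cast h3
  obtain ⟨N0, hN0⟩ := hgrid h' hh'0 hh'1
  set K : ℝ := (1 - Real.exp (-(h / 2)))⁻¹ with hK
  obtain ⟨N1, hN1⟩ := exists_nat_ge (4 * C ^ 2 * K / (ε / 2))
  refine ⟨max N0 N1, ?_⟩
  intro N hN
  have hNN0 : N0 ≤ N * m := ((le_max_left _ _).trans hN).trans (Nat.le_mul_of_pos_right _ hmpos)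
  have hNN1 : (N1 : ℝ) ≤ N := by exact_mod_cast (le_max_right _ _).trans hN
  -- the pointwise bound
  have hpt : ∀ n : ℕ, ∀ i ∈ range M, ‖A (n * h)‖ ^ 2 ≤
      2 * ‖A (((n * m + i : ℕ) : ℝ) * h')‖ ^ 2 + (4 * C ^ 2 * η ^ 2 + 4 * C ^ 2 * Real.exp (-(n * h / 2))) := by
    intro n i hi
    have hiM : (i : ℝ) ≤ M := by exact_mod_cast (mem_range.1 hi).le
    have hi1 : (i : ℝ) * h' ≤ η := (mul_le_mul_of_nonneg_right hiM hh'0.le).trans hMh
    have hi0 : 0 ≤ (i : ℝ) * h' := by positivity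
    have e1 : ((n * m + i : ℕ) : ℝ) * h' = n * h + i * h' := by
      push_cast
      rw [← hmh']
      ring
    rw [e1]
    have h2 := hl (n * h) (i * h') (by positivity) hi0 (hi1.trans hη1)
    have h3 : ‖A (n * h)‖ ≤ ‖A (n * h + i * h')‖ + ‖A (n * h + i * h') - A (n * h)‖ := by
      have := norm_sub_norm_le (A (n * h)) (A (n * h + i * h'))
      rw [norm_sub_rev] at this
      linarith
    have h4 : ‖A (n * h + i * h') - A (n * h)‖ ≤ C * (η + Real.exp (-(n * h / 4))) :=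
      h2.trans (mul_le_mul_of_nonneg_left (by linarith) hC.le)
    have h5 : Real.exp (-(n * h / 2)) = Real.exp (-(n * h / 4)) ^ 2 := by
      rw [← Real.exp_nat_mul]
      congr 1
      push_cast
      ring
    rw [h5]
    set x := ‖A (n * h + i * h')‖
    set y := ‖A (n * h)‖
    set z := ‖A (n * h + i * h') - A (n * h)‖
    set e := Real.exp (-(n * h / 4))
    have hx : 0 ≤ x := norm_nonneg _
    have hy : 0 ≤ y := norm_nonneg _
    have hz : 0 ≤ z := norm_nonneg _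
    have h6 : y ^ 2 ≤ (x + z) ^ 2 := pow_le_pow_left₀ hy h3 2
    have h7 : z ^ 2 ≤ (C * (η + e)) ^ 2 := pow_le_pow_left₀ hz h4 2
    have h8 : (x + z) ^ 2 ≤ 2 * x ^ 2 + 2 * z ^ 2 := by linarith only [sq_nonneg (x - z)]
    have h9 : (C * (η + e)) ^ 2 ≤ C ^ 2 * (2 * η ^ 2 + 2 * e ^ 2) := by
      rw [mul_pow]
      apply mul_le_mul_of_nonneg_left _ (sq_nonneg C)
      linarith only [sq_nonneg (η - e)]
    linarith only [h6, h7, h8, h9]
  have hsum : (M : ℝ) * ∑ n ∈ range N, ‖A (n * h)‖ ^ 2 ≤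
      2 * (ε * η / (16 * h) * (N * m)) + M * (4 * C ^ 2 * η ^ 2 * N + 4 * C ^ 2 * K) := by
    calc (M : ℝ) * ∑ n ∈ range N, ‖A (n * h)‖ ^ 2
        = ∑ n ∈ range N, ∑ _i ∈ range M, ‖A (n * h)‖ ^ 2 := by
          rw [mul_sum]
          apply sum_congr rfl
          intro n _
          rw [sum_const, card_range, nsmul_eq_mul]
      _ ≤ ∑ n ∈ range N, ∑ i ∈ range M, (2 * ‖A (((n * m + i : ℕ) : ℝ) * h')‖ ^ 2 +
          (4 * C ^ 2 * η ^ 2 + 4 * C ^ 2 * Real.exp (-(n * h / 2)))) :=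
          sum_le_sum fun n _ => sum_le_sum (hpt n)
      _ = 2 * ∑ n ∈ range N, ∑ i ∈ range M, ‖A (((n * m + i : ℕ) : ℝ) * h')‖ ^ 2 +
          M * (4 * C ^ 2 * η ^ 2 * N + 4 * C ^ 2 * ∑ n ∈ range N, Real.exp (-(n * h / 2))) := by
          simp_rw [sum_add_distrib, sum_const, card_range, nsmul_eq_mul]
          simp_rw [← mul_sum]
          ring
      _ ≤ 2 * (ε * η / (16 * h) * (N * m)) + M * (4 * C ^ 2 * η ^ 2 * N + 4 * C ^ 2 * K) := by
          have h2 : ∑ n ∈ range N, ∑ i ∈ range M, ‖A (((n * m + i : ℕ) : ℝ) * h')‖ ^ 2 ≤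
              ε * η / (16 * h) * (N * m) := by
            calc ∑ n ∈ range N, ∑ i ∈ range M, ‖A (((n * m + i : ℕ) : ℝ) * h')‖ ^ 2
                ≤ ∑ n ∈ range N, ∑ i ∈ range m, ‖A (((n * m + i : ℕ) : ℝ) * h')‖ ^ 2 := by
                  apply sum_le_sum
                  intro n _
                  apply sum_le_sum_of_subset_of_nonneg
                  · exact range_subset_range.2 hMm
                  · intro i _ _
                    positivity
              _ = ∑ k ∈ range (N * m), ‖A ((k : ℝ) * h')‖ ^ 2 :=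
                  avg_sum_mul (fun k => ‖A ((k : ℝ) * h')‖ ^ 2) m N
              _ ≤ ε * η / (16 * h) * ((N * m : ℕ) : ℝ) := hN0 _ hNN0
              _ = _ := by push_cast; ring
          have h3 := avg_geom h hh N
          have h4 : (M : ℝ) * (4 * C ^ 2 * η ^ 2 * N + 4 * C ^ 2 * ∑ n ∈ range N, Real.exp (-(n * h / 2))) ≤
              M * (4 * C ^ 2 * η ^ 2 * N + 4 * C ^ 2 * K) := by
            apply mul_le_mul_of_nonneg_left _ hM0.le
            have := mul_le_mul_of_nonneg_left h3 (by positivity : 0 ≤ 4 * C ^ 2)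
            linarith
          linarith
  have hN0' : (0 : ℝ) ≤ N := Nat.cast_nonneg _
  -- first term
  have ht1 : 2 * (ε * η / (16 * h) * (N * m)) ≤ M * (ε / 4 * N) := by
    have h2 : 2 * (ε * η / (16 * h) * (N * m)) = (η / (2 * h')) * (ε / 4 * N) := by
      rw [hh']
      field_simp
      ring
    rw [h2]
    exact mul_le_mul_of_nonneg_right hMge (by positivity)
  have ht2 : 4 * C ^ 2 * η ^ 2 * N ≤ ε / 4 * N := mul_le_mul_of_nonneg_right hηε hN0'
  have ht3 : 4 * C ^ 2 * K ≤ ε / 2 * N := by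
    have h2 : 4 * C ^ 2 * K / (ε / 2) ≤ N := hN1.trans hNN1
    rw [div_le_iff₀ (by positivity)] at h2
    linarith
  have h2 : (M : ℝ) * ∑ n ∈ range N, ‖A (n * h)‖ ^ 2 ≤ M * (ε * N) := by
    calc (M : ℝ) * ∑ n ∈ range N, ‖A (n * h)‖ ^ 2 ≤ _ := hsum
      _ ≤ M * (ε / 4 * N) + M * (ε / 4 * N + ε / 2 * N) := by
        apply add_le_add ht1
        apply mul_le_mul_of_nonneg_left _ hM0.le
        linarith
      _ = M * (ε * N) := by ring
  exact le_of_mul_le_mul_left h2 hM0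

end Pool.Agent.ECM
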