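import Pool.Agent.Lib_MP_f1a94e_ecm.MDefs
import Pool.Agent.Lib_MP_f1a94e_mr.ArgDeriv

/-!
# Piece M-BAD: points of a row at which the `q`-th derivative is small
-/

set_option autoImplicit false

namespace Pool.Agent.ECM

open Finset Pool.Agent.GaussMR

private theorem badG_polar (b x : ℝ) (hb : 0 < b) :
    (x : ℂ) + b * Complex.I = (‖(x : ℂ) + b * Complex.I‖ : ℂ) *
      Complex.exp (((Real.pi / 2 - Real.arctan (x / b) : ℝ) : ℂ) * Complex.I) := by
  set w : ℂ := (x : ℂ) + b * Complex.I with hw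
  have hwre : w.re = x := by rw [hw]; simp
  have hwim : w.im = b := by rw [hw]; simp
  have hn2 : ‖w‖ ^ 2 = x ^ 2 + b ^ 2 := by
    rw [← Complex.normSq_eq_norm_sq, Complex.normSq_apply, hwre, hwim]; ring
  have hn : ‖w‖ = Real.sqrt (x ^ 2 + b ^ 2) := by
    rw [← hn2, Real.sqrt_sq (norm_nonneg _)]
  have hR0 : 0 < ‖w‖ := by rw [hn]; exact Real.sqrt_pos.mpr (by positivity)
  have hsq : Real.sqrt (1 + (x / b) ^ 2) = ‖w‖ / b := by
    rw [hn, show (1 : ℝ) + (x / b) ^ 2 = (x ^ 2 + b ^ 2) / b ^ 2 by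
      field_simp
      ring, Real.sqrt_div (by positivity), Real.sqrt_sq hb.le]
  have hcos : Real.cos (Real.pi / 2 - Real.arctan (x / b)) = x / ‖w‖ := by
    rw [Real.cos_pi_div_two_sub, Real.sin_arctan, hsq]
    field_simp
  have hsin : Real.sin (Real.pi / 2 - Real.arctan (x / b)) = b / ‖w‖ := by
    rw [Real.sin_pi_div_two_sub, Real.cos_arctan, hsq]
    field_simp
  rw [Complex.exp_mul_I, ← Complex.ofReal_cos, ← Complex.ofReal_sin, hcos, hsin]
  apply Complex.ext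
  · rw [hwre, Complex.re_ofReal_mul]
    have : x = ‖w‖ * (x / ‖w‖) := by field_simp
    simpa using this
  · rw [hwim, Complex.im_ofReal_mul]
    have : b = ‖w‖ * (b / ‖w‖) := by field_simp
    simpa using this

private theorem badG_sin (q : ℕ) (b x : ℝ) (hb : 0 < b) :
    |(((x : ℂ) + b * Complex.I) ^ (-(q : ℤ))).im| * ‖(x : ℂ) + b * Complex.I‖ ^ q =
      |Real.sin (q * (Real.pi / 2 - Real.arctan (x / b)))| := by
  have hp := badG_polar b x hb
  have hw0 : 0 < ‖(x : ℂ) + b * Complex.I‖ := by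
    rw [norm_pos_iff]
    exact row_ne_zero b hb x
  set r : ℝ := ‖(x : ℂ) + b * Complex.I‖ with hr
  set θ : ℝ := Real.pi / 2 - Real.arctan (x / b) with hθ
  have h1 : ((x : ℂ) + b * Complex.I) ^ (-(q : ℤ)) =
      (((r ^ q)⁻¹ : ℝ) : ℂ) * Complex.exp (((-(q * θ) : ℝ) : ℂ) * Complex.I) := by
    rw [hp, mul_zpow, ← Complex.exp_int_mul, zpow_neg, zpow_natCast]
    push_cast
    congr 2
    ring
  have h2 : (((x : ℂ) + b * Complex.I) ^ (-(q : ℤ))).im = (r ^ q)⁻¹ * Real.sin (-(q * θ)) := by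
    rw [h1, Complex.im_ofReal_mul, Complex.exp_ofReal_mul_I_im]
  rw [h2, Real.sin_neg, abs_mul, abs_neg, abs_of_pos (by positivity)]
  field_simp

private theorem badG_near (u κ : ℝ) (hκ : |Real.sin u| < κ) :
    |u - Real.pi * round (u / Real.pi)| ≤ Real.pi / 2 * κ := by
  have hpi := Real.pi_pos
  set l : ℤ := round (u / Real.pi) with hl
  have h1 : |u / Real.pi - l| ≤ 1 / 2 := abs_sub_round _
  have h2 : u - l * Real.pi = (u / Real.pi - l) * Real.pi := by field_simp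
  have h3 : |u - l * Real.pi| ≤ Real.pi / 2 := by
    rw [h2, abs_mul, abs_of_pos hpi]
    nlinarith
  have h4 := Real.mul_abs_le_abs_sin h3
  rw [Real.sin_sub_int_mul_pi, abs_mul, abs_zpow, abs_neg, abs_one, one_zpow, one_mul] at h4
  have h5 : |u - l * Real.pi| ≤ Real.pi / 2 * κ := by
    have h6 : 2 / Real.pi * |u - l * Real.pi| ≤ κ := h4.trans hκ.le
    calc |u - l * Real.pi| = Real.pi / 2 * (2 / Real.pi * |u - l * Real.pi|) := by field_simp
      _ ≤ Real.pi / 2 * κ := mul_le_mul_of_nonneg_left h6 (by positivity)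
  rw [mul_comm (Real.pi) (l : ℝ)]
  exact h5

private theorem badG_card (S : Finset ℤ) (D : ℝ) (hD : 0 ≤ D)
    (h : ∀ a ∈ S, ∀ b ∈ S, a ≤ b → (b : ℝ) - a ≤ D) : (S.card : ℝ) ≤ D + 1 := by
  rcases S.eq_empty_or_nonempty with hS | hS
  · subst hS; simp; linarith
  · have h1 : S ⊆ Icc (S.min' hS) (S.max' hS) := by
      intro b hb
      rw [mem_Icc]
      exact ⟨min'_le S b hb, le_max' S b hb⟩
    have h2 := card_le_card h1
    rw [Int.card_Icc] at h2
    have h5 : S.min' hS ≤ S.max' hS := min'_le S _ (max'_mem S hS)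
    have h3 := h _ (min'_mem S hS) _ (max'_mem S hS) h5
    have h6 : (S.card : ℤ) ≤ S.max' hS + 1 - S.min' hS := by
      have : ((S.max' hS + 1 - S.min' hS).toNat : ℤ) = S.max' hS + 1 - S.min' hS :=
        Int.toNat_of_nonneg (by omega)
      rw [← this]
      exact_mod_cast h2
    have h7 : (S.card : ℝ) ≤ (S.max' hS : ℝ) + 1 - S.min' hS := by exact_mod_cast h6
    linarith

private theorem badG_arctan (b r x y : ℝ) (hb : 0 < b) (hr : 0 < r) (hx : x ^ 2 + b ^ 2 ≤ r ^ 2)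
    (hy : y ^ 2 + b ^ 2 ≤ r ^ 2) (hxy : x ≤ y) :
    b / r ^ 2 * (y - x) ≤ Real.arctan (y / b) - Real.arctan (x / b) := by
  have hder : ∀ u : ℝ, HasDerivAt (fun u : ℝ => Real.arctan (u / b)) (b / (u ^ 2 + b ^ 2)) u := by
    intro u
    have h1 := ((hasDerivAt_id u).div_const b).arctan
    have h2 : 1 / (1 + (id u / b) ^ 2) * (1 / b) = b / (u ^ 2 + b ^ 2) := by
      rw [id]
      field_simp
      ring
    rw [h2] at h1
    exact h1
  refine (convex_Icc x y).mul_sub_le_image_sub_of_le_deriv (f := fun u : ℝ => Real.arctan (u / b))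
    (fun u _ => (hder u).continuousAt.continuousWithinAt)
    (fun u _ => (hder u).differentiableAt.differentiableWithinAt) ?_ x
    (Set.left_mem_Icc.2 hxy) y (Set.right_mem_Icc.2 hxy) hxy
  intro u hu
  rw [interior_Icc] at hu
  rw [(hder u).deriv]
  apply div_le_div_of_nonneg_left hb.le (by positivity)
  rcases le_total 0 u with h | h
  · nlinarith [hu.2]
  · nlinarith [hu.1]

/-- With `x + i b = |x + i b| exp (i θ)`, `θ ∈ (0, π)`: the quantity is `|sin (q θ)|`. `|sin (q θ)| < κ` implies `|θ - π l / q| ≤ π κ / (2 q)` for some integer `0 ≤ l ≤ q`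
(`|sin u| ≥ (2/π) dist(u, π ℤ)`). Two points `x < x'` of the set with the same `l` have `θ - θ' ≤ π κ / q`, and `θ - θ' = arctan (x'/b) - arctan (x/b) ≥ (x' - x) b / r²`
(derivative of `arctan (u/b)` is `b / (u² + b²) ≥ b / r²` between them), so `x' - x ≤ π κ r² / (q b)`. Total at most `(q + 1) (π κ r² / (q b) + 1)`.
Alternative without angles: `Bad.lean` of Lib_MP_f1a94e_mr (factorisation of the polynomial `Im (x + i b)^q`). -/
theorem bad_cardG (q : ℕ) (hq : 1 ≤ q) : ∃ C : ℝ, 0 < C ∧ ∀ (r κ : ℝ) (b : ℕ), 1 ≤ r → 0 < κ → κ ≤ 1 → 1 ≤ b →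
    (Set.ncard {x : ℤ | (x : ℝ) ^ 2 + (b : ℝ) ^ 2 ≤ r ^ 2 ∧
      |(((x : ℂ) + b * Complex.I) ^ (-(q : ℤ))).im| * ‖(x : ℂ) + b * Complex.I‖ ^ q < κ} : ℝ) ≤
      C * (κ * r ^ 2 / b + 1) := by
  classical
  have hpi := Real.pi_pos
  refine ⟨(q + 1) * 4, by positivity, fun r κ b hr hκ hκ1 hb => ?_⟩
  have hr0 : 0 < r := by linarith
  have hb0 : (0 : ℝ) < b := by exact_mod_cast (by omega : 0 < b)
  have hqR : (1 : ℝ) ≤ q := by exact_mod_cast hq
  set S : Set ℤ := {x : ℤ | (x : ℝ) ^ 2 + (b : ℝ) ^ 2 ≤ r ^ 2 ∧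
      |(((x : ℂ) + b * Complex.I) ^ (-(q : ℤ))).im| * ‖(x : ℂ) + b * Complex.I‖ ^ q < κ} with hS
  set θ : ℤ → ℝ := fun x => q * (Real.pi / 2 - Real.arctan ((x : ℝ) / b)) with hθ
  have hS1 : ∀ x ∈ S, (x : ℝ) ^ 2 + (b : ℝ) ^ 2 ≤ r ^ 2 ∧ |Real.sin (θ x)| < κ := by
    intro x hx
    refine ⟨hx.1, ?_⟩
    have h1 := badG_sin q b x hb0
    have h2 := hx.2
    have h3 : |(((x : ℂ) + b * Complex.I) ^ (-(q : ℤ))).im| * ‖(x : ℂ) + b * Complex.I‖ ^ q =
        |Real.sin (θ x)| := by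
      rw [hθ]
      simpa using h1
    rwa [h3] at h2
  have hfin : S.Finite := by
    have h1 : S ⊆ Set.Icc (-⌈r⌉) ⌈r⌉ := by
      intro x hx
      have h2 := (hS1 x hx).1
      have h3 : |(x : ℝ)| ≤ r := by
        apply abs_le_of_sq_le_sq _ hr0.le
        nlinarith [sq_nonneg (b : ℝ)]
      rw [abs_le] at h3
      have h4 := Int.le_ceil r
      constructor
      · have : (-(⌈r⌉ : ℤ) : ℝ) ≤ (x : ℝ) := by linarith [h3.1]
        exact_mod_cast this
      · have : (x : ℝ) ≤ (⌈r⌉ : ℤ) := by linarith [h3.2]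
        exact_mod_cast this
    exact (Set.finite_Icc _ _).subset h1
  set F : Finset ℤ := hfin.toFinset with hF
  have hmemF : ∀ x, x ∈ F ↔ x ∈ S := fun x => by rw [hF, Set.Finite.mem_toFinset]
  have hcard : (S.ncard : ℝ) = F.card := by
    rw [Set.ncard_eq_toFinset_card S hfin]
  rw [hcard]
  set ll : ℤ → ℤ := fun x => round (θ x / Real.pi) with hll
  have hmaps : ∀ x ∈ F, ll x ∈ Icc (0 : ℤ) q := by
    intro x _
    have h1 := Real.arctan_lt_pi_div_two ((x : ℝ) / b)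
    have h2 := Real.neg_pi_div_two_lt_arctan ((x : ℝ) / b)
    have h3 : 0 ≤ θ x / Real.pi := by
      apply div_nonneg _ hpi.le
      apply mul_nonneg (by positivity)
      linarith
    have h4 : θ x / Real.pi ≤ q := by
      rw [div_le_iff₀ hpi]
      have : Real.pi / 2 - Real.arctan ((x : ℝ) / b) ≤ Real.pi := by linarith
      exact mul_le_mul_of_nonneg_left this (by positivity)
    rw [mem_Icc]
    have h5 : |θ x / Real.pi - (ll x : ℝ)| ≤ 1 / 2 := abs_sub_round _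
    rw [abs_le] at h5
    constructor
    · have : (-1 : ℝ) < (ll x : ℝ) := by linarith [h5.1, h5.2]
      have h6 : (-1 : ℤ) < ll x := by exact_mod_cast this
      omega
    · have : (ll x : ℝ) < (q : ℝ) + 1 := by linarith [h5.1, h5.2]
      have h6 : ll x < (q : ℤ) + 1 := by exact_mod_cast this
      omega
  set D : ℝ := Real.pi * κ * r ^ 2 / (q * b) with hD
  have hD0 : 0 ≤ D := by rw [hD]; positivity
  have hfib : ∀ l ∈ Icc (0 : ℤ) q, ((F.filter (fun x => ll x = l)).card : ℝ) ≤ D + 1 := by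
    intro l _
    apply badG_card _ D hD0
    intro x hx y hy hxy
    rw [mem_filter, hmemF] at hx hy
    obtain ⟨hx1, hx2⟩ := hS1 x hx.1
    obtain ⟨hy1, hy2⟩ := hS1 y hy.1
    have n1 := badG_near (θ x) κ hx2
    have n2 := badG_near (θ y) κ hy2
    have e1 : round (θ x / Real.pi) = l := hx.2
    have e2 : round (θ y / Real.pi) = l := hy.2
    rw [e1, abs_le] at n1
    rw [e2, abs_le] at n2
    have h1 : θ x - θ y ≤ Real.pi * κ := by linarith [n1.2, n2.1]
    have h2 : θ x - θ y = q * (Real.arctan ((y : ℝ) / b) - Real.arctan ((x : ℝ) / b)) := by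
      simp only [hθ]; ring
    have h3 := badG_arctan b r x y hb0 hr0 hx1 hy1 (by exact_mod_cast hxy)
    rw [h2] at h1
    have h4 : (q : ℝ) * (b / r ^ 2 * ((y : ℝ) - x)) ≤ Real.pi * κ :=
      (mul_le_mul_of_nonneg_left h3 (by positivity)).trans h1
    rw [hD, le_div_iff₀ (by positivity)]
    have h5 : (q : ℝ) * (b / r ^ 2 * ((y : ℝ) - x)) = ((y : ℝ) - x) * (q * b) / r ^ 2 := by ring
    rw [h5, div_le_iff₀ (by positivity)] at h4
    exact h4
  have h1 := card_eq_sum_card_fiberwise (s := F) (t := Icc (0 : ℤ) q) (f := ll) hmaps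
  have h2 : (F.card : ℝ) = ∑ l ∈ Icc (0 : ℤ) q, ((F.filter (fun x => ll x = l)).card : ℝ) := by
    rw [h1]; push_cast; rfl
  rw [h2]
  have h3 : ∑ l ∈ Icc (0 : ℤ) q, ((F.filter (fun x => ll x = l)).card : ℝ) ≤ (q + 1) * (D + 1) := by
    refine (sum_le_sum hfib).trans ?_
    rw [sum_const, nsmul_eq_mul, Int.card_Icc]
    have : (((q : ℤ) + 1 - 0).toNat : ℝ) = (q : ℝ) + 1 := by
      have h4 : ((q : ℤ) + 1 - 0).toNat = q + 1 := by omega
      rw [h4]; push_cast; rfl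
    rw [this]
  refine h3.trans ?_
  have h4 : D ≤ 4 * (κ * r ^ 2 / b) := by
    have h5 : D = Real.pi / q * (κ * r ^ 2 / b) := by rw [hD]; field_simp
    rw [h5]
    apply mul_le_mul_of_nonneg_right _ (by positivity)
    rw [div_le_iff₀ (by linarith)]
    have := Real.pi_le_four
    linarith
  have h6 : D + 1 ≤ 4 * (κ * r ^ 2 / b + 1) := by linarith
  calc ((q : ℝ) + 1) * (D + 1) ≤ (q + 1) * (4 * (κ * r ^ 2 / b + 1)) :=
        mul_le_mul_of_nonneg_left h6 (by positivity)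
    _ = _ := by ring

end Pool.Agent.ECM
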