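import Pool.Agent.Lib_MP_f1a94e_ecm.MDefs
import Pool.Agent.Lib_MP_f1a94e_ecm.DTRD
import Pool.Agent.Lib_MP_f1a94e_mr.ArgDeriv

/-!
# Piece M-BLOCK: a short block of a row in a residue class, any order of the derivative
-/

set_option autoImplicit false

namespace Pool.Agent.ECM

open Finset Pool.Agent.GaussMR
open scoped ContDiff

private theorem blockga_conj_ee (t : ℝ) : (starRingEnd ℂ) (ee t) = ee (-t) := by
  unfold ee
  rw [← Complex.exp_conj]
  congr 1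
  simp only [map_mul, Complex.conj_ofReal, Complex.conj_I, map_ofNat]
  push_cast
  ring

private theorem blockga_sign (s : Finset ℤ) (A : ℤ → ℝ) (c σ : ℝ) (hσ : σ = 1 ∨ σ = -1) :
    ‖∑ x ∈ s, ee (-c * A x)‖ = ‖∑ x ∈ s, ee ((σ * |c|) * A x)‖ := by
  have h : σ * |c| = -c ∨ σ * |c| = c := by
    rcases hσ with rfl | rfl <;> rcases abs_choice c with h | h <;> rw [h] <;> simp
  rcases h with h | h
  · rw [h]
  · rw [h, ← Complex.norm_conj, map_sum]
    congr 1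
    apply Finset.sum_congr rfl
    intro x _
    rw [blockga_conj_ee]
    congr 1
    ring

/-- derivative of a row in a residue class -/
theorem blockg_deriv (q : ℕ) (hq : 1 ≤ q) (c b : ℝ) (hb : 0 < b) (x0 m t : ℝ) :
    iteratedDeriv q (fun t : ℝ => c * Real.arctan ((x0 + m * t) / b)) t =
      m ^ q * (c * ((-1) ^ q * (q - 1).factorial *
        ((((x0 + m * t : ℝ) : ℂ) + b * Complex.I) ^ (-(q : ℤ))).im)) := by
  have h1 : (fun t : ℝ => c * Real.arctan ((x0 + m * t) / b)) =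
      fun t : ℝ => (fun z : ℝ => (fun x : ℝ => c * Real.arctan (x / b)) (x0 + z)) (m * t) := rfl
  have hcd : ContDiff ℝ q (fun z : ℝ => (fun x : ℝ => c * Real.arctan (x / b)) (x0 + z)) := by
    have h2 := contDiff_row c b hb
    have h3 : ContDiff ℝ ∞ (fun z : ℝ => (fun x : ℝ => c * Real.arctan (x / b)) (x0 + z)) :=
      h2.comp (contDiff_const.add contDiff_id)
    exact h3.of_le (by exact_mod_cast le_top)
  have h4 : iteratedDeriv q (fun z : ℝ => (fun x : ℝ => c * Real.arctan (x / b)) (x0 + z)) (m * t) =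
      iteratedDeriv q (fun x : ℝ => c * Real.arctan (x / b)) (x0 + m * t) :=
    congrFun (iteratedDeriv_comp_const_add q (fun x : ℝ => c * Real.arctan (x / b)) x0) (m * t)
  rw [h1, iteratedDeriv_comp_const_mul hcd m]
  rw [iteratedDeriv_row q hq c b hb] at h4
  exact congrArg (fun y => m ^ q * y) h4

theorem blockg_cd (c b : ℝ) (hb : 0 < b) (x0 m : ℝ) :
    ContDiff ℝ ∞ (fun t : ℝ => c * Real.arctan ((x0 + m * t) / b)) := by
  have h2 := contDiff_row c b hb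
  exact h2.comp (contDiff_const.add (contDiff_const.mul contDiff_id))

/-- Generalisation of `block` (Lib_MP_f1a94e_mr/Block.lean, copy its proof). `β, ρ, η0, C0` from `dtr_all Q`; choose `σ` with `(Q + 5) σ ≤ 1/100`, `(Q + 3) σ ≤ ρ / 4`. Put `κ = r^(-2σ)`, `τ = (Q + 5) σ`, `L = r^(1 - τ)`,
`h(t) = Im (x0 + m t + i b)^(-q)`. At the good point `s`: `|h(s)| ≥ κ / |..|^q ≥ κ / r^q`. On the block `|h(t) - h(s)| ≤ m L q / b^(q+1) ≤ κ / (2 r^q)` by `row_lip`, since `b ≥ r^(1-σ)` and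
`r^(1-τ) r^(-(1-σ)(q+1)) m q ≤ r^(-2σ - q) / 2` for large `r` (`τ > (q + 3) σ`). So `h` has constant sign and `κ / (2 r^q) ≤ |h| ≤ 1 / b^q` on the block. `xi k ⟨x, b⟩ = I^k ee (-(k / 2π) arctan (x / b))` (`xi_row`).
Apply the derivative test to `f(t) = ∓ (|k| / 2π) arctan ((x0 + m t) / b)` (`iteratedDeriv_row` and the chain rule for `t ↦ x0 + m t`: factor `m^q`), `lam = (|k| / 2π) (q-1)! m^q κ / (2 r^q)`,
`Lam = (|k| / 2π) (q-1)! m^q / b^q`: `Lam / lam ≤ 2 r^((q + 2) σ) ≤ L^ρ`; `lam ≥ c r^(-17/10 - 2σ) ≥ L^(-7/4)`; `Lam ≤ C r^(-2^(q-2) β - 1/10 + q σ) ≤ L^(-2^(q-2) β)` for `r ≥ R0`; small `r` are absorbed in `C`.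
The result is `C0 L^(1 - η0)`, `η = η0 / 2` works. -/
theorem blockG_of (m : ℕ) (hm : 0 < m) (Q : ℕ) (hD : DTRAll Q) : ∃ β σ η C : ℝ, 0 < β ∧ (2 : ℝ) ^ Q * β ≤ 1 / 2 ∧ 0 < σ ∧ ((Q : ℝ) + 5) * σ ≤ 1 / 100 ∧
    0 < η ∧ η ≤ 1 / 2 ∧ 0 < C ∧ ∀ q : ℕ, 2 ≤ q → q ≤ Q → ∀ (r : ℝ) (k : ℤ) (b : ℕ) (x0 t0 t1 s : ℤ), 1 ≤ r →
    r ^ ((q : ℝ) - 17 / 10) ≤ |(k : ℝ)| → |(k : ℝ)| ≤ r ^ ((q : ℝ) - (2 : ℝ) ^ (q - 2) * β - 1 / 10) →
    r ^ (1 - σ) ≤ (b : ℝ) → t0 ≤ t1 → (t1 : ℝ) - t0 ≤ r ^ (1 - ((Q : ℝ) + 5) * σ) →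
    ((x0 : ℝ) + m * t0) ^ 2 + (b : ℝ) ^ 2 ≤ r ^ 2 → ((x0 : ℝ) + m * t1) ^ 2 + (b : ℝ) ^ 2 ≤ r ^ 2 → t0 ≤ s → s ≤ t1 →
    r ^ (-(2 * σ)) ≤ |((((x0 + m * s : ℤ) : ℂ) + b * Complex.I) ^ (-(q : ℤ))).im| *
      ‖((x0 + m * s : ℤ) : ℂ) + b * Complex.I‖ ^ q →
    ‖∑ t ∈ Finset.Icc t0 t1, xi k ⟨x0 + m * t, b⟩‖ ≤ C * r ^ (1 - ((Q : ℝ) + 5) * σ - η) := by
  obtain ⟨β, ρ, η0, C0, hβ, hβQ, hρ, hρβ, hη0, hη0', hC0, hdt⟩ := hD
  have hm1 : (1 : ℝ) ≤ m := by exact_mod_cast hm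
  have hm0 : (0 : ℝ) < m := by linarith
  have hQ0 : (0 : ℝ) ≤ Q := Nat.cast_nonneg _
  obtain ⟨σ, hσdef⟩ : ∃ σ : ℝ, σ = min (1 / (100 * ((Q : ℝ) + 5))) (ρ / (2 * ((Q : ℝ) + 3))) := ⟨_, rfl⟩
  have hσ0 : 0 < σ := by rw [hσdef]; exact lt_min (by positivity) (by positivity)
  have hσ1 : ((Q : ℝ) + 5) * σ ≤ 1 / 100 := by
    have h1 : σ ≤ 1 / (100 * ((Q : ℝ) + 5)) := by rw [hσdef]; exact min_le_left _ _
    rw [le_div_iff₀ (by positivity)] at h1
    linarith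
  have hσ2 : ((Q : ℝ) + 3) * σ ≤ ρ / 2 := by
    have h1 : σ ≤ ρ / (2 * ((Q : ℝ) + 3)) := by rw [hσdef]; exact min_le_right _ _
    rw [le_div_iff₀ (by positivity)] at h1
    linarith
  have hσ3 : σ ≤ 1 / 500 := by linarith only [hσ1, mul_nonneg hQ0 hσ0.le]
  obtain ⟨τ, hτdef⟩ : ∃ τ : ℝ, τ = ((Q : ℝ) + 5) * σ := ⟨_, rfl⟩
  have hτ0 : 0 < τ := by rw [hτdef]; positivity
  have hτ1 : τ ≤ 1 / 100 := by rw [hτdef]; exact hσ1
  obtain ⟨A, hAdef⟩ : ∃ A : ℝ, A = (Q.factorial : ℝ) * (m : ℝ) ^ Q := ⟨_, rfl⟩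
  have hA0 : 0 < A := by
    rw [hAdef]
    have : (0 : ℝ) < (Q.factorial : ℝ) := by exact_mod_cast Nat.factorial_pos Q
    positivity
  obtain ⟨N0, hN0def⟩ : ∃ N0 : ℝ, N0 = 16 + 2 * Q * m + A := ⟨_, rfl⟩
  have hN1 : 16 ≤ N0 := by rw [hN0def]; linarith only [mul_nonneg hQ0 hm0.le, hA0]
  have hN2 : 2 * Q * m ≤ N0 := by rw [hN0def]; linarith
  have hN3 : A ≤ N0 := by rw [hN0def]; linarith only [mul_nonneg hQ0 hm0.le, hA0]
  obtain ⟨R0, hR01, hRpow⟩ : ∃ R0 : ℝ, 1 ≤ R0 ∧ R0 ^ σ = N0 := by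
    refine ⟨N0 ^ (1 / σ), Real.one_le_rpow (by linarith) (by positivity), ?_⟩
    rw [← Real.rpow_mul (by linarith), one_div_mul_cancel hσ0.ne', Real.rpow_one]
  refine ⟨β, σ, η0 / 2, C0 + 2 * R0, hβ, hβQ, hσ0, hσ1, by positivity, by linarith, by positivity, ?_⟩
  intro q hq hq' r k b x0 t0 t1 s hr hj1 hj2 hb hx hL hx0 hx1 hy0 hy1 hgood
  rw [← hτdef] at hL ⊢
  have hr0 : 0 < r := by linarith
  have hbR : (0 : ℝ) < b := lt_of_lt_of_le (Real.rpow_pos_of_pos hr0 _) hb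
  have hb0 : 0 < b := by exact_mod_cast hbR
  have hxx : (t0 : ℝ) ≤ t1 := by exact_mod_cast hx
  have hone : ∀ e : ℝ, 0 ≤ e → 1 ≤ r ^ e := fun e he => Real.one_le_rpow hr he
  have hpos : ∀ e : ℝ, 0 < r ^ e := fun e => Real.rpow_pos_of_pos hr0 e
  have hqR : (q : ℝ) ≤ Q := by exact_mod_cast hq'
  have hqR2 : (2 : ℝ) ≤ q := by exact_mod_cast hq
  by_cases hbig : R0 ≤ r
  · -- the main case
    have h10 : N0 ≤ r ^ σ := by
      rw [← hRpow]
      exact Real.rpow_le_rpow (by linarith) hbig hσ0.le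
    have hge : ∀ e : ℝ, σ ≤ e → N0 ≤ r ^ e := fun e he =>
      h10.trans (Real.rpow_le_rpow_of_exponent_le hr he)
    set h : ℝ → ℝ := fun t => ((((x0 + m * t : ℝ) : ℂ) + b * Complex.I) ^ (-(q : ℤ))).im with hh
    set c : ℝ := (k : ℝ) / (2 * Real.pi) with hc
    have g1 : (t0 : ℝ) ≤ s := by exact_mod_cast hy0
    have g2 : (s : ℝ) ≤ t1 := by exact_mod_cast hy1
    have hyb : ‖((x0 + m * s : ℤ) : ℂ) + b * Complex.I‖ ≤ r := by
      have hsq : ‖((x0 + m * s : ℤ) : ℂ) + b * Complex.I‖ ^ 2 ≤ r ^ 2 := by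
        rw [← Complex.normSq_eq_norm_sq, Complex.normSq_apply]
        simp only [Complex.add_re, Complex.intCast_re, Complex.mul_re, Complex.natCast_re,
          Complex.I_re, Complex.natCast_im, Complex.I_im, Complex.add_im, Complex.intCast_im,
          Complex.mul_im]
        push_cast
        have g1' : (x0 : ℝ) + m * t0 ≤ x0 + m * s := by
          have := mul_le_mul_of_nonneg_left g1 hm0.le
          linarith
        have g2' : (x0 : ℝ) + m * s ≤ x0 + m * t1 := by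
          have := mul_le_mul_of_nonneg_left g2 hm0.le
          linarith
        rcases le_total 0 ((x0 : ℝ) + m * s) with g3 | g3
        · nlinarith only [mul_self_le_mul_self g3 g2', hx1]
        · nlinarith only [mul_self_le_mul_self (neg_nonneg.2 g3) (neg_le_neg g1'), hx0]
      exact le_of_sq_le_sq hsq hr0.le
    have hnb : ∀ x : ℝ, (b : ℝ) ≤ ‖(x : ℂ) + b * Complex.I‖ := by
      intro x
      have := Complex.abs_im_le_norm ((x : ℂ) + b * Complex.I)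
      simp at this
      exact this
    -- lower bound at the good point
    have hyc : (((x0 + m * (s : ℝ) : ℝ)) : ℂ) = ((x0 + m * s : ℤ) : ℂ) := by push_cast; rfl
    have hhy : r ^ (-(2 * σ)) * r ^ (-(q : ℝ)) ≤ |h s| := by
      have h1 : 0 < ‖((x0 + m * s : ℤ) : ℂ) + b * Complex.I‖ := by
        have := hnb (x0 + m * s)
        rw [hyc] at this
        linarith
      have h2 : ‖((x0 + m * s : ℤ) : ℂ) + b * Complex.I‖ ^ q ≤ r ^ q := by gcongr
      have h3 : r ^ (-(2 * σ)) ≤ |h s| * r ^ q := by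
        refine hgood.trans ?_
        rw [hh]
        simp only
        rw [hyc]
        gcongr
      rw [Real.rpow_neg hr0.le (q : ℝ), Real.rpow_natCast, ← div_eq_mul_inv,
        div_le_iff₀ (by positivity)]
      exact h3
    -- variation on the block
    have hvar : ∀ x : ℝ, (t0 : ℝ) ≤ x → x ≤ t1 → |h x - h s| ≤ |h s| / 2 := by
      intro x hxa hxb
      have h1 : |h x - h s| ≤ q / (b : ℝ) ^ (q + 1) * |((x0 : ℝ) + m * x) - (x0 + m * s)| := by
        have h0 := row_lip q (by omega) b hbR ((x0 : ℝ) + m * x) ((x0 : ℝ) + m * s)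
        have hbc : (((b : ℕ) : ℝ) : ℂ) = ((b : ℕ) : ℂ) := by push_cast; rfl
        rw [hbc] at h0
        exact h0
      have h2 : |((x0 : ℝ) + m * x) - (x0 + m * s)| ≤ m * r ^ (1 - τ) := by
        have e0 : ((x0 : ℝ) + m * x) - (x0 + m * s) = m * (x - s) := by ring
        rw [e0, abs_mul, abs_of_pos hm0]
        apply mul_le_mul_of_nonneg_left _ hm0.le
        rw [abs_le]
        constructor <;> linarith
      have h3 : (r ^ (1 - σ)) ^ (q + 1) ≤ (b : ℝ) ^ (q + 1) := by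
        have := (hpos (1 - σ)).le
        gcongr
      have h4 : (r ^ (1 - σ)) ^ (q + 1) = r ^ ((1 - σ) * ((q : ℝ) + 1)) := by
        rw [← Real.rpow_natCast, ← Real.rpow_mul hr0.le]
        push_cast
        norm_num
      have h5 : (q : ℝ) / (b : ℝ) ^ (q + 1) * |((x0 : ℝ) + m * x) - (x0 + m * s)| ≤
          q / r ^ ((1 - σ) * ((q : ℝ) + 1)) * (m * r ^ (1 - τ)) := by
        rw [← h4]
        have := hpos (1 - σ)
        gcongr
      have h6 : q / r ^ ((1 - σ) * ((q : ℝ) + 1)) * (m * r ^ (1 - τ)) ≤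
          (r ^ (-(2 * σ)) * r ^ (-(q : ℝ))) / 2 := by
        rw [div_mul_eq_mul_div, div_le_iff₀ (hpos _)]
        have e1 : (r ^ (-(2 * σ)) * r ^ (-(q : ℝ))) / 2 * r ^ ((1 - σ) * ((q : ℝ) + 1)) =
            r ^ (τ - σ * ((q : ℝ) + 3)) / 2 * r ^ (1 - τ) := by
          have : r ^ (-(2 * σ)) * r ^ (-(q : ℝ)) * r ^ ((1 - σ) * ((q : ℝ) + 1)) =
              r ^ (τ - σ * ((q : ℝ) + 3)) * r ^ (1 - τ) := by
            rw [← Real.rpow_add hr0, ← Real.rpow_add hr0, ← Real.rpow_add hr0]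
            congr 1
            ring
          linear_combination this / 2
        rw [e1]
        have e2 : N0 ≤ r ^ (τ - σ * ((q : ℝ) + 3)) := by
          apply hge
          rw [hτdef]
          linarith only [mul_nonneg hσ0.le (sub_nonneg.2 hqR), hσ0]
        have e3 := (hpos (1 - τ)).le
        have e4 : (q : ℝ) * m ≤ r ^ (τ - σ * ((q : ℝ) + 3)) / 2 := by
          have : (q : ℝ) * m ≤ Q * m := mul_le_mul_of_nonneg_right hqR hm0.le
          linarith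
        rw [← mul_assoc]
        exact mul_le_mul_of_nonneg_right e4 e3
      linarith
    -- the sign
    obtain ⟨ς, hς, hς'⟩ : ∃ ς : ℝ, (ς = 1 ∨ ς = -1) ∧ ς * (-1) ^ q * h s = |h s| := by
      rcases neg_one_pow_eq_or ℝ q with hq1 | hq1 <;> rcases abs_choice (h s) with hy2 | hy2
      · exact ⟨1, Or.inl rfl, by rw [hq1, hy2]; ring⟩
      · exact ⟨-1, Or.inr rfl, by rw [hq1, hy2]; ring⟩
      · exact ⟨-1, Or.inr rfl, by rw [hq1, hy2]; ring⟩
      · exact ⟨1, Or.inl rfl, by rw [hq1, hy2]; ring⟩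
    have hw : |ς * (-1) ^ q| = 1 := by
      rw [abs_mul, abs_pow, abs_neg, abs_one, one_pow, mul_one]
      rcases hς with rfl | rfl <;> simp
    have hlow : ∀ x : ℝ, (t0 : ℝ) ≤ x → x ≤ t1 →
        (r ^ (-(2 * σ)) * r ^ (-(q : ℝ))) / 2 ≤ ς * (-1) ^ q * h x := by
      intro x hxa hxb
      have h1 := hvar x hxa hxb
      have h2 : |ς * (-1) ^ q * (h x - h s)| ≤ |h s| / 2 := by
        rw [abs_mul, hw, one_mul]
        exact h1
      have h3 := (abs_le.mp h2).1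
      have h4 : ς * (-1) ^ q * h x = |h s| + ς * (-1) ^ q * (h x - h s) := by
        rw [← hς']
        ring
      rw [h4]
      linarith
    have hup : ∀ x : ℝ, ς * (-1) ^ q * h x ≤ r ^ (-(q : ℝ) + σ * (q : ℝ)) := by
      intro x
      have h1 : ς * (-1) ^ q * h x ≤ |h x| := by
        refine (le_abs_self _).trans ?_
        rw [abs_mul, hw, one_mul]
      have h2 : |h x| ≤ ((b : ℝ) ^ q)⁻¹ := by
        rw [hh]
        refine (Complex.abs_im_le_norm _).trans ?_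
        rw [zpow_neg, zpow_natCast, norm_inv, norm_pow]
        have := hnb (x0 + m * x)
        gcongr
      have h3 : ((b : ℝ) ^ q)⁻¹ ≤ ((r ^ (1 - σ)) ^ q)⁻¹ := by
        have := hpos (1 - σ)
        gcongr
      have h4 : ((r ^ (1 - σ)) ^ q)⁻¹ = r ^ (-(q : ℝ) + σ * (q : ℝ)) := by
        rw [← Real.rpow_natCast, ← Real.rpow_mul hr0.le, ← Real.rpow_neg hr0.le]
        congr 1
        ring
      linarith
    -- rewrite the sum
    have hsum : ‖∑ t ∈ Finset.Icc t0 t1, xi k ⟨x0 + m * t, b⟩‖ =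
        ‖∑ t ∈ Finset.Icc t0 t1,
          ee ((fun t : ℝ => (ς * |c|) * Real.arctan (((x0 : ℝ) + m * t) / b)) t)‖ := by
      rw [Finset.sum_congr rfl (fun t _ => xi_row k b hb0 (x0 + m * t)), ← Finset.mul_sum, norm_mul,
        norm_zpow, Complex.norm_I, one_zpow, one_mul]
      rw [blockga_sign (Finset.Icc t0 t1) (fun t : ℤ => Real.arctan (((x0 + m * t : ℤ) : ℝ) / b)) c ς hς]
      congr 1
      apply Finset.sum_congr rfl
      intro t _
      push_cast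
      rfl
    rw [hsum]
    set L : ℝ := r ^ (1 - τ) with hLdef
    have hLe : ∀ e : ℝ, L ^ e = r ^ ((1 - τ) * e) := by
      intro e
      rw [hLdef, ← Real.rpow_mul hr0.le]
    have hL1 : 1 ≤ L := hone _ (by linarith)
    have hpi1 : 3 < Real.pi := Real.pi_gt_three
    have hpi2 : Real.pi < 4 := by linarith [Real.pi_lt_four]
    have hcabs : |c| = |(k : ℝ)| / (2 * Real.pi) := by
      rw [hc, abs_div, abs_of_pos (show (0 : ℝ) < 2 * Real.pi by positivity)]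
    obtain ⟨a, hadef⟩ : ∃ a : ℝ, a = ((q - 1).factorial : ℝ) * (m : ℝ) ^ q := ⟨_, rfl⟩
    have hfac1 : (1 : ℝ) ≤ a := by
      rw [hadef]
      have h1 : (1 : ℝ) ≤ ((q - 1).factorial : ℝ) := by exact_mod_cast Nat.factorial_pos _
      have h2 : (1 : ℝ) ≤ (m : ℝ) ^ q := one_le_pow₀ hm1
      exact one_le_mul_of_one_le_of_one_le h1 h2
    have hfac2 : a ≤ A := by
      rw [hadef, hAdef]
      have h1 : (q - 1).factorial ≤ Q.factorial := Nat.factorial_le (by omega)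
      have h2 : ((q - 1).factorial : ℝ) ≤ (Q.factorial : ℝ) := by exact_mod_cast h1
      have h3 : (m : ℝ) ^ q ≤ (m : ℝ) ^ Q := pow_le_pow_right₀ hm1 hq'
      exact mul_le_mul h2 h3 (by positivity) (by positivity)
    set K : ℝ := |c| * a with hK
    have hK0 : 0 < K := by
      rw [hK, hcabs]
      have : 0 < |(k : ℝ)| := lt_of_lt_of_le (hpos _) hj1
      positivity
    have hKlow : r ^ ((q : ℝ) - 17 / 10) / 8 ≤ K := by
      rw [hK, hcabs]
      calc r ^ ((q : ℝ) - 17 / 10) / 8 ≤ |(k : ℝ)| / (2 * Real.pi) := by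
            gcongr
            linarith
        _ ≤ |(k : ℝ)| / (2 * Real.pi) * a := by
            apply le_mul_of_one_le_right _ hfac1
            positivity
    have hKup : K ≤ A * r ^ ((q : ℝ) - (2 : ℝ) ^ (q - 2) * β - 1 / 10) := by
      rw [hK, hcabs]
      have h1 : |(k : ℝ)| / (2 * Real.pi) ≤ r ^ ((q : ℝ) - (2 : ℝ) ^ (q - 2) * β - 1 / 10) := by
        rw [div_le_iff₀ (by positivity)]
        refine hj2.trans ?_
        apply le_mul_of_one_le_right (hpos _).le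
        linarith
      calc |(k : ℝ)| / (2 * Real.pi) * a
          ≤ r ^ ((q : ℝ) - (2 : ℝ) ^ (q - 2) * β - 1 / 10) * A :=
            mul_le_mul h1 hfac2 (by linarith) (hpos _).le
        _ = _ := by ring
    have hres := hdt q hq hq' (fun t : ℝ => (ς * |c|) * Real.arctan (((x0 : ℝ) + m * t) / b))
      (blockg_cd (ς * |c|) b hbR x0 m) t0 t1 L (K * ((r ^ (-(2 * σ)) * r ^ (-(q : ℝ))) / 2))
      (K * r ^ (-(q : ℝ) + σ * (q : ℝ))) hx hL1 hL ?_ ?_ ?_ ?_ ?_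
    · refine hres.trans ?_
      rw [hLe]
      have h1 : r ^ ((1 - τ) * (1 - η0)) ≤ r ^ (1 - τ - η0 / 2) :=
        Real.rpow_le_rpow_of_exponent_le hr (by linarith only [mul_nonneg hη0.le (sub_nonneg.2 hτ1), hη0])
      have h2 := (hpos (1 - τ - η0 / 2)).le
      calc C0 * r ^ ((1 - τ) * (1 - η0)) ≤ C0 * r ^ (1 - τ - η0 / 2) := by gcongr
        _ ≤ (C0 + 2 * R0) * r ^ (1 - τ - η0 / 2) := by
            apply mul_le_mul_of_nonneg_right _ h2
            linarith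
    · -- `L ^ (-7/4) ≤ lam`
      rw [hLe]
      have h1 : r ^ ((q : ℝ) - 17 / 10) / 8 * ((r ^ (-(2 * σ)) * r ^ (-(q : ℝ))) / 2) ≤
          K * ((r ^ (-(2 * σ)) * r ^ (-(q : ℝ))) / 2) := by
        have := hpos (-(2 * σ))
        have := hpos (-(q : ℝ))
        gcongr
      refine le_trans ?_ h1
      have h2 : r ^ ((q : ℝ) - 17 / 10) / 8 * ((r ^ (-(2 * σ)) * r ^ (-(q : ℝ))) / 2) =
          r ^ ((1 - τ) * -(7 / 4)) * r ^ (1 / 20 - 7 / 4 * τ - 2 * σ) / 16 := by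
        have : r ^ ((q : ℝ) - 17 / 10) * (r ^ (-(2 * σ)) * r ^ (-(q : ℝ))) =
            r ^ ((1 - τ) * -(7 / 4)) * r ^ (1 / 20 - 7 / 4 * τ - 2 * σ) := by
          rw [← Real.rpow_add hr0, ← Real.rpow_add hr0, ← Real.rpow_add hr0]
          congr 1
          ring
        linear_combination this / 16
      rw [h2]
      have h3 := hge (1 / 20 - 7 / 4 * τ - 2 * σ) (by linarith)
      have h4 := hpos ((1 - τ) * -(7 / 4))
      rw [le_div_iff₀ (by norm_num)]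
      apply mul_le_mul_of_nonneg_left _ h4.le
      linarith
    · -- `lam ≤ Lam`
      have h1 : (r ^ (-(2 * σ)) * r ^ (-(q : ℝ))) / 2 ≤ r ^ (-(q : ℝ) + σ * (q : ℝ)) := by
        rw [← Real.rpow_add hr0]
        have h2 : r ^ (-(2 * σ) + -(q : ℝ)) ≤ r ^ (-(q : ℝ) + σ * (q : ℝ)) :=
          Real.rpow_le_rpow_of_exponent_le hr (by linarith only [mul_nonneg hσ0.le (by linarith only [hqR2] : (0:ℝ) ≤ q), hσ0])
        have h3 := hpos (-(2 * σ) + -(q : ℝ))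
        linarith
      exact mul_le_mul_of_nonneg_left h1 hK0.le
    · -- `Lam ≤ L ^ (-β)`
      rw [hLe]
      have h1 : K * r ^ (-(q : ℝ) + σ * (q : ℝ)) ≤
          A * r ^ ((q : ℝ) - (2 : ℝ) ^ (q - 2) * β - 1 / 10) * r ^ (-(q : ℝ) + σ * (q : ℝ)) :=
        mul_le_mul_of_nonneg_right hKup (hpos _).le
      refine h1.trans ?_
      have hβ0 : (0 : ℝ) ≤ (2 : ℝ) ^ (q - 2) * β := by positivity
      have h2 : r ^ ((1 - τ) * -((2 : ℝ) ^ (q - 2) * β)) =
          r ^ ((q : ℝ) - (2 : ℝ) ^ (q - 2) * β - 1 / 10) * r ^ (-(q : ℝ) + σ * (q : ℝ)) *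
            r ^ (1 / 10 - σ * q + τ * ((2 : ℝ) ^ (q - 2) * β)) := by
        rw [← Real.rpow_add hr0, ← Real.rpow_add hr0]
        congr 1
        ring
      rw [h2]
      have h3 : N0 ≤ r ^ (1 / 10 - σ * q + τ * ((2 : ℝ) ^ (q - 2) * β)) := by
        apply hge
        have h6 : 0 ≤ τ * ((2 : ℝ) ^ (q - 2) * β) := by positivity
        have h7 : σ * q ≤ τ := by rw [hτdef]; linarith only [mul_nonneg hσ0.le (sub_nonneg.2 hqR), hσ0]
        linarith
      have h4 := hpos ((q : ℝ) - (2 : ℝ) ^ (q - 2) * β - 1 / 10)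
      have h5 := hpos (-(q : ℝ) + σ * (q : ℝ))
      calc A * r ^ ((q : ℝ) - (2 : ℝ) ^ (q - 2) * β - 1 / 10) * r ^ (-(q : ℝ) + σ * (q : ℝ)) =
            r ^ ((q : ℝ) - (2 : ℝ) ^ (q - 2) * β - 1 / 10) * r ^ (-(q : ℝ) + σ * (q : ℝ)) * A := by ring
        _ ≤ _ := mul_le_mul_of_nonneg_left (hN3.trans h3) (mul_pos h4 h5).le
    · -- `Lam ≤ lam * L ^ ρ`
      rw [hLe, mul_assoc K]
      have h1 : r ^ (-(q : ℝ) + σ * (q : ℝ)) ≤
          r ^ (-(2 * σ)) * r ^ (-(q : ℝ)) / 2 * r ^ ((1 - τ) * ρ) := by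
        have h2 : r ^ (-(2 * σ)) * r ^ (-(q : ℝ)) / 2 * r ^ ((1 - τ) * ρ) =
            r ^ (-(q : ℝ) + σ * (q : ℝ)) * r ^ ((1 - τ) * ρ - σ * ((q : ℝ) + 2)) / 2 := by
          have : r ^ (-(2 * σ)) * r ^ (-(q : ℝ)) * r ^ ((1 - τ) * ρ) =
              r ^ (-(q : ℝ) + σ * (q : ℝ)) * r ^ ((1 - τ) * ρ - σ * ((q : ℝ) + 2)) := by
            rw [← Real.rpow_add hr0, ← Real.rpow_add hr0, ← Real.rpow_add hr0]
            congr 1
            ring
          linear_combination this / 2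
        rw [h2]
        have h6 : σ ≤ (1 - τ) * ρ - σ * ((q : ℝ) + 2) := by
          have h7 : σ * ((q : ℝ) + 3) ≤ ρ / 2 := by linarith only [mul_nonneg hσ0.le (sub_nonneg.2 hqR), hσ2]
          linarith only [mul_nonneg hρ.le (sub_nonneg.2 hτ1), h7, hρ]
        have h3 := hge ((1 - τ) * ρ - σ * ((q : ℝ) + 2)) h6
        have h4 := hpos (-(q : ℝ) + σ * (q : ℝ))
        rw [le_div_iff₀ (by norm_num)]
        apply mul_le_mul_of_nonneg_left _ h4.le
        linarith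
      exact mul_le_mul_of_nonneg_left h1 hK0.le
    · -- the derivative
      intro x hxm
      rw [blockg_deriv q (by omega) (ς * |c|) b hbR x0 m x]
      have h1 := hlow x hxm.1 hxm.2
      have h2 := hup x
      have h3 : (m : ℝ) ^ q * (ς * |c| * ((-1) ^ q * ((q - 1).factorial : ℝ) *
          ((((x0 + m * x : ℝ) : ℂ) + b * Complex.I) ^ (-(q : ℤ))).im)) = K * (ς * (-1) ^ q * h x) := by
        rw [hK, hh, hadef]
        ring
      have h4 : (((b : ℕ) : ℝ) : ℂ) = ((b : ℕ) : ℂ) := by push_cast; rfl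
      rw [h4, h3]
      exact ⟨mul_le_mul_of_nonneg_left h1 hK0.le, mul_le_mul_of_nonneg_left h2 hK0.le⟩
  · -- small `r`
    push Not at hbig
    have hcard : ‖∑ t ∈ Finset.Icc t0 t1, xi k ⟨x0 + m * t, b⟩‖ ≤ (t1 : ℝ) - t0 + 1 := by
      refine (norm_sum_le _ _).trans ?_
      have hne : ∀ x : ℤ, (⟨x, b⟩ : G) ≠ 0 := by
        intro x h0
        have := congrArg Zsqrtd.im h0
        simp at this
        omega
      rw [Finset.sum_congr rfl (fun (t : ℤ) _ => norm_xi k (hne (x0 + m * t)))]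
      rw [Finset.sum_const, Int.card_Icc, nsmul_eq_mul, mul_one]
      have h1 : ((t1 + 1 - t0).toNat : ℤ) = t1 + 1 - t0 := Int.toNat_of_nonneg (by omega)
      have h' : (((t1 + 1 - t0).toNat : ℤ) : ℝ) = ((t1 + 1 - t0 : ℤ) : ℝ) := by rw [h1]
      push_cast at h'
      linarith
    have h1 : r ^ (1 - τ) ≤ r := by
      nth_rewrite 2 [← Real.rpow_one r]
      exact Real.rpow_le_rpow_of_exponent_le hr (by linarith)
    have h2 := hone (1 - τ - η0 / 2) (by linarith)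
    have h3 : ‖∑ t ∈ Finset.Icc t0 t1, xi k ⟨x0 + m * t, b⟩‖ ≤ 2 * R0 := by linarith
    have h5 : 0 < C0 + 2 * R0 := by linarith
    calc ‖∑ t ∈ Finset.Icc t0 t1, xi k ⟨x0 + m * t, b⟩‖ ≤ 2 * R0 := h3
      _ ≤ C0 + 2 * R0 := by linarith
      _ = (C0 + 2 * R0) * 1 := (mul_one _).symm
      _ ≤ (C0 + 2 * R0) * r ^ (1 - τ - η0 / 2) := mul_le_mul_of_nonneg_left h2 h5.le

end Pool.Agent.ECM
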