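import Pool.Agent.Lib_MP_f1a94e_ecm.DTwoG
import Pool.Agent.Lib_MP_f1a94e_ecm.BlockGa

/-!
# Piece M-BLOCK: a short block of a row in a residue class, any order of the derivative
-/

set_option autoImplicit false

namespace Pool.Agent.ECM

open Finset Pool.Agent.GaussMR

theorem blockG (m : ℕ) (hm : 0 < m) (Q : ℕ) : ∃ β σ η C : ℝ, 0 < β ∧ (2 : ℝ) ^ Q * β ≤ 1 / 2 ∧ 0 < σ ∧ ((Q : ℝ) + 5) * σ ≤ 1 / 100 ∧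
    0 < η ∧ η ≤ 1 / 2 ∧ 0 < C ∧ ∀ q : ℕ, 2 ≤ q → q ≤ Q → ∀ (r : ℝ) (k : ℤ) (b : ℕ) (x0 t0 t1 s : ℤ), 1 ≤ r →
    r ^ ((q : ℝ) - 17 / 10) ≤ |(k : ℝ)| → |(k : ℝ)| ≤ r ^ ((q : ℝ) - (2 : ℝ) ^ (q - 2) * β - 1 / 10) →
    r ^ (1 - σ) ≤ (b : ℝ) → t0 ≤ t1 → (t1 : ℝ) - t0 ≤ r ^ (1 - ((Q : ℝ) + 5) * σ) →
    ((x0 : ℝ) + m * t0) ^ 2 + (b : ℝ) ^ 2 ≤ r ^ 2 → ((x0 : ℝ) + m * t1) ^ 2 + (b : ℝ) ^ 2 ≤ r ^ 2 → t0 ≤ s → s ≤ t1 →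
    r ^ (-(2 * σ)) ≤ |((((x0 + m * s : ℤ) : ℂ) + b * Complex.I) ^ (-(q : ℤ))).im| *
      ‖((x0 + m * s : ℤ) : ℂ) + b * Complex.I‖ ^ q →
    ‖∑ t ∈ Finset.Icc t0 t1, xi k ⟨x0 + m * t, b⟩‖ ≤ C * r ^ (1 - ((Q : ℝ) + 5) * σ - η) :=
  blockG_of m hm Q (dtr_all Q)

end Pool.Agent.ECM
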