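import Pool.Agent.Lib_MP_f1a94e_ecm.Deficit

/-!
# Piece M-DITER: the deficit of a non principal character over all primes
-/

set_option autoImplicit false

namespace Pool.Agent.ECM

open Finset Pool.Agent.GaussMR Pool.Agent.GaussCM Pool.Agent.OmAll

/-- the summand -/
private noncomputable def dterm (χ : G → ℂ) (w : G) : ℝ := ((1 - (χ w).re) + (1 - (χ (fl w)).re)) / (nm w : ℝ)

private theorem dterm_nonneg {D : ℕ} {χ : G → ℂ} (hχ : Chi D χ) (w : G) : 0 ≤ dterm χ w := by
  unfold dterm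
  have h1 := (Complex.re_le_norm (χ w)).trans (hχ.le w)
  have h2 := (Complex.re_le_norm (χ (fl w))).trans (hχ.le (fl w))
  apply div_nonneg (by linarith) (Nat.cast_nonneg _)

private theorem dsum_split {D : ℕ} {χ : G → ℂ} (hχ : Chi D χ) {P Y : ℝ} (hP : 2 ≤ P) (hPY : P ≤ Y) :
    ∑ w ∈ PP 2 P, dterm χ w + ∑ w ∈ PP P Y, dterm χ w ≤ ∑ w ∈ PP 2 Y, dterm χ w := by
  classical
  rw [← sum_union]
  · apply sum_le_sum_of_subset_of_nonneg
    · intro w hw
      rw [mem_union, mem_PP, mem_PP] at hw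
      rw [mem_PP]
      rcases hw with h | h
      · exact ⟨h.1, h.2.1.trans hPY, h.2.2⟩
      · exact ⟨lt_of_le_of_lt hP h.1, h.2⟩
    · intro w _ _
      exact dterm_nonneg hχ w
  · rw [Finset.disjoint_left]
    intro w h1 h2
    rw [mem_PP] at h1 h2
    exact absurd h1.2.1 (not_le.2 h2.1)

private theorem def_steps {D : ℕ} {χ : G → ℂ} (hχ : Chi D χ) {a c Y1 : ℝ} (ha : 0 < a) (ha1 : a ≤ 1)
    (hY1 : 2 ≤ Y1) (hstep : ∀ Y : ℝ, Y1 ≤ Y → c ≤ ∑ w ∈ PP (Y ^ a) Y, dterm χ w) :
    ∀ (n : ℕ) (B : ℝ), 1 ≤ B → Y1 ≤ B ^ (a ^ n) → c * n ≤ ∑ w ∈ PP 2 B, dterm χ w := by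
  intro n
  induction n with
  | zero =>
    intro B _ _
    simp only [Nat.cast_zero, mul_zero]
    exact sum_nonneg fun w _ => dterm_nonneg hχ w
  | succ n ih =>
    intro B hB1 hB
    have h1 : Y1 ≤ (B ^ a) ^ (a ^ n) := by
      rw [← Real.rpow_mul (by linarith), mul_comm a, ← pow_succ]
      exact hB
    have hBa : 1 ≤ B ^ a := Real.one_le_rpow hB1 ha.le
    have hpn1 : a ^ n ≤ 1 := pow_le_one₀ ha.le ha1
    have hpn0 : 0 ≤ a ^ n := by positivity
    have hYBa : Y1 ≤ B ^ a := by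
      refine h1.trans ?_
      calc (B ^ a) ^ (a ^ n) ≤ (B ^ a) ^ (1 : ℝ) := Real.rpow_le_rpow_of_exponent_le hBa hpn1
        _ = B ^ a := Real.rpow_one _
    have hBaB : B ^ a ≤ B := by
      calc B ^ a ≤ B ^ (1 : ℝ) := Real.rpow_le_rpow_of_exponent_le hB1 ha1
        _ = B := Real.rpow_one _
    have h2 := ih (B ^ a) hBa h1
    have h3 := hstep B (hYBa.trans hBaB)
    have h4 := dsum_split hχ (hY1.trans hYBa) hBaB
    push_cast
    linarith

/-- `deficit` with `A = 1`, `k = 0` (`xi 0 = 1`), iterated over the disjoint ranges `PP (Y_(j+1)) (Y_j)`, `Y_j = B^(a^j)`, as long as `Y_j ≥ max Y0 3` and `Y_(j+1) ≥ 2`: `J ≥ log log B / log (1/a) - C` steps. All terms are nonnegative (`‖χ w‖ ≤ 1`). -/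
theorem def_iter : ∃ c : ℝ, 0 < c ∧ ∀ D : ℕ, 0 < D → ∃ C : ℝ, ∀ χ : G → ℂ, Chi D χ → ¬ Pri D χ → χ ii = 1 → ∀ B : ℝ, 3 ≤ B →
    c * Real.log (Real.log B) - C ≤ ∑ w ∈ PP 2 B, ((1 - (χ w).re) + (1 - (χ (fl w)).re)) / (nm w : ℝ) := by
  obtain ⟨a, c, ha, ha4, hc, hdef⟩ := deficit
  have ha1 : a < 1 := by linarith
  have hla : 0 < Real.log (1 / a) := by
    apply Real.log_pos
    rw [lt_div_iff₀ ha]
    linarith
  refine ⟨c / Real.log (1 / a), by positivity, ?_⟩
  intro D hD
  obtain ⟨Y0, hY0⟩ := hdef D 1 hD le_rfl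
  set Y1 : ℝ := max Y0 3 with hY1
  have h3Y1 : 3 ≤ Y1 := le_max_right _ _
  have hlog3 : 1 < Real.log 3 := by
    rw [Real.lt_log_iff_exp_lt (by norm_num)]
    have := Real.exp_one_lt_d9
    linarith
  have hlY1 : 1 < Real.log Y1 := lt_of_lt_of_le hlog3 (Real.log_le_log (by norm_num) h3Y1)
  refine ⟨c / Real.log (1 / a) * Real.log (Real.log Y1) + c, ?_⟩
  intro χ hχ hpri hii B hB
  have hstep : ∀ Y : ℝ, Y1 ≤ Y → c ≤ ∑ w ∈ PP (Y ^ a) Y, dterm χ w := by
    intro Y hY
    have hYpos : 3 ≤ Y := h3Y1.trans hY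
    have h1 := hY0 Y ((le_max_left _ _).trans hY) χ hχ 0 (Or.inr hpri) (by
      simp only [Int.cast_zero, abs_zero]
      positivity) (by rw [xi_zero, mul_one, hii])
    simp only [xi_zero, mul_one] at h1
    exact h1
  have hlB : 1 < Real.log B := lt_of_lt_of_le hlog3 (Real.log_le_log (by norm_num) hB)
  show c / Real.log (1 / a) * Real.log (Real.log B) - (c / Real.log (1 / a) * Real.log (Real.log Y1) + c) ≤
    ∑ w ∈ PP 2 B, dterm χ w
  have hcl : 0 < c / Real.log (1 / a) := by positivity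
  by_cases hBY : Y1 ≤ B
  · set t : ℝ := (Real.log (Real.log B) - Real.log (Real.log Y1)) / Real.log (1 / a) with ht
    have ht0 : 0 ≤ t := by
      apply div_nonneg _ hla.le
      have := Real.log_le_log (by linarith) (Real.log_le_log (by linarith) hBY)
      linarith
    set n : ℕ := ⌊t⌋₊ with hn
    have hn1 : (n : ℝ) ≤ t := Nat.floor_le ht0
    have hn2 : t < n + 1 := Nat.lt_floor_add_one t
    have hpow : Y1 ≤ B ^ (a ^ n) := by
      have h1 : Real.log (Real.log Y1) ≤ Real.log (a ^ n * Real.log B) := by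
        rw [Real.log_mul (by positivity) (by linarith), Real.log_pow]
        have h2 : Real.log a = - Real.log (1 / a) := by
          rw [one_div, Real.log_inv]
          ring
        rw [h2]
        rw [le_div_iff₀ hla] at hn1
        linarith
      have h2 : Real.log Y1 ≤ a ^ n * Real.log B :=
        (Real.log_le_log_iff (by linarith) (by positivity)).1 h1
      rw [← Real.log_rpow (by linarith)] at h2
      exact (Real.log_le_log_iff (by linarith) (by positivity)).1 h2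
    have h1 := def_steps hχ ha ha1.le (by linarith) hstep n B (by linarith) hpow
    have h2 : c * t = c / Real.log (1 / a) * Real.log (Real.log B) - c / Real.log (1 / a) * Real.log (Real.log Y1) := by
      rw [ht]
      ring
    nlinarith
  · push Not at hBY
    have h1 : Real.log (Real.log B) ≤ Real.log (Real.log Y1) :=
      Real.log_le_log (by linarith) (Real.log_le_log (by linarith) hBY.le)
    have h2 : 0 ≤ ∑ w ∈ PP 2 B, dterm χ w := sum_nonneg fun w _ => dterm_nonneg hχ w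
    have h3 := mul_le_mul_of_nonneg_left h1 hcl.le
    linarith

end Pool.Agent.ECM
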