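import Pool.Agent.Lib_MP_f1a94e_ecm.RealBd
import Pool.Agent.Lib_MP_f1a94e_ecm.DefIter
import Pool.Agent.Lib_MP_f1a94e_ecm.ChiN
import Pool.Agent.Lib_MP_f1a94e_mr.MertensB

/-!
# Piece M-CHARDEF: characters are not close to -1 on primes
-/

set_option autoImplicit false

namespace Pool.Agent.ECM

open Finset Pool.Agent.GaussMR Pool.Agent.GaussCM Pool.Agent.OmAll

private theorem chd_cg_mul {D : ℕ} {a b : G} (h : cg D a b) (c : G) : cg D (a * c) (b * c) := by
  obtain ⟨h1, h2⟩ := h
  constructor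
  · have e : (a * c).re - (b * c).re = (a.re - b.re) * c.re - (a.im - b.im) * c.im := by
      simp only [Zsqrtd.re_mul]
      ring
    rw [e]
    exact dvd_sub (h1.mul_right _) (h2.mul_right _)
  · have e : (a * c).im - (b * c).im = (a.re - b.re) * c.im + (a.im - b.im) * c.re := by
      simp only [Zsqrtd.im_mul]
      ring
    rw [e]
    exact dvd_add (h1.mul_right _) (h2.mul_right _)

private theorem chd_cg_symm {D : ℕ} {a b : G} (h : cg D a b) : cg D b a := by
  obtain ⟨h1, h2⟩ := h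
  constructor
  · rw [← neg_sub]; exact (dvd_neg).2 h1
  · rw [← neg_sub]; exact (dvd_neg).2 h2

private theorem chd_cg_trans {D : ℕ} {a b c : G} (h : cg D a b) (h' : cg D b c) : cg D a c := by
  obtain ⟨h1, h2⟩ := h
  obtain ⟨h3, h4⟩ := h'
  constructor
  · have := dvd_add h1 h3
    rwa [sub_add_sub_cancel] at this
  · have := dvd_add h2 h4
    rwa [sub_add_sub_cancel] at this

private theorem chd_cg_refl (D : ℕ) (a : G) : cg D a a := by
  constructor <;> simp

private theorem chd_inv_mul (D : ℕ) (z w : G) : Inv D (z * w) ↔ Inv D z ∧ Inv D w := by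
  constructor
  · rintro ⟨v, hv⟩
    exact ⟨⟨w * v, by rw [← mul_assoc]; exact hv⟩, ⟨z * v, by rw [← mul_assoc, mul_comm w z]; exact hv⟩⟩
  · rintro ⟨⟨v, hv⟩, ⟨u, hu⟩⟩
    refine ⟨v * u, ?_⟩
    have e : z * w * (v * u) = z * v * (w * u) := by ring
    rw [e]
    have h1 := chd_cg_mul hv (w * u)
    rw [one_mul] at h1
    exact chd_cg_trans h1 hu

private theorem chd_inv_cg (D : ℕ) {z w : G} (h : cg D z w) : Inv D z ↔ Inv D w := by
  constructor
  · rintro ⟨v, hv⟩
    exact ⟨v, chd_cg_trans (chd_cg_symm (chd_cg_mul h v)) hv⟩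
  · rintro ⟨v, hv⟩
    exact ⟨v, chd_cg_trans (chd_cg_mul h v) hv⟩

private theorem chd_sq (z : ℂ) (h : ‖z‖ ≤ 1) : 1 - (z ^ 2).re ≤ 4 * (1 + z.re) := by
  have h1 : Complex.normSq z ≤ 1 := by
    rw [Complex.normSq_eq_norm_sq]
    have := norm_nonneg z
    nlinarith
  rw [Complex.normSq_apply] at h1
  have e : (z ^ 2).re = z.re * z.re - z.im * z.im := by
    rw [pow_two, Complex.mul_re]
  rw [e]
  have h2 : z.re ≤ 1 := (Complex.re_le_norm z).trans h
  have h3 : -1 ≤ z.re := by
    have := Complex.abs_re_le_norm z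
    have := neg_abs_le z.re
    linarith
  nlinarith

/-- comparison of two sums over primes which agree on the large primes -/
private theorem chd_comp (D : ℕ) (B : ℝ) (f g : G → ℝ) (hf : ∀ w ∈ PP 2 B, 0 ≤ f w)
    (hg : ∀ w ∈ PP 2 B, g w ≤ 4) (hfg : ∀ w ∈ PP 2 B, (D : ℝ) ^ 2 < (nm w : ℝ) → g w ≤ f w) :
    ∑ w ∈ PP 2 B, g w / (nm w : ℝ) - 4 * ((ball ((D : ℝ) ^ 2)).card : ℝ) ≤
      ∑ w ∈ PP 2 B, f w / (nm w : ℝ) := by
  classical
  have h1 : ∑ w ∈ PP 2 B, g w / (nm w : ℝ) ≤ ∑ w ∈ PP 2 B, (f w / (nm w : ℝ) +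
      if (nm w : ℝ) ≤ (D : ℝ) ^ 2 then 4 else 0) := by
    refine sum_le_sum fun w hw => ?_
    have hn : (1 : ℝ) ≤ (nm w : ℝ) := by
      have := (mem_PP.1 hw).1
      linarith
    have hn0 : (0 : ℝ) < (nm w : ℝ) := by linarith
    split_ifs with hc
    · have a1 : g w / (nm w : ℝ) ≤ 4 := by
        rw [div_le_iff₀ hn0]
        have := hg w hw
        linarith
      have a2 : 0 ≤ f w / (nm w : ℝ) := div_nonneg (hf w hw) hn0.le
      linarith
    · push Not at hc
      rw [add_zero]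
      exact div_le_div_of_nonneg_right (hfg w hw hc) hn0.le
  have h2 : ∑ w ∈ PP 2 B, (if (nm w : ℝ) ≤ (D : ℝ) ^ 2 then (4 : ℝ) else 0) ≤
      4 * ((ball ((D : ℝ) ^ 2)).card : ℝ) := by
    rw [← sum_filter, sum_const, nsmul_eq_mul, mul_comm]
    have h3 : ((PP 2 B).filter (fun w => (nm w : ℝ) ≤ (D : ℝ) ^ 2)).card ≤
        (ball ((D : ℝ) ^ 2)).card := by
      refine card_le_card fun w hw => ?_
      rw [mem_filter] at hw
      exact mem_ball.2 hw.2
    have h4 : (((PP 2 B).filter (fun w => (nm w : ℝ) ≤ (D : ℝ) ^ 2)).card : ℝ) ≤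
        ((ball ((D : ℝ) ^ 2)).card : ℝ) := by exact_mod_cast h3
    linarith
  rw [sum_add_distrib] at h1
  linarith

private theorem chd_Ls : ∃ C : ℝ, ∀ B : ℝ, 3 ≤ B → Real.log (Real.log B) / 2 - C ≤ Ls 2 B := by
  obtain ⟨C, hC⟩ := Ls_bounds
  refine ⟨C + Real.log (Real.log 2) / 2, fun B hB => ?_⟩
  have h1 := hC 2 B le_rfl (by linarith)
  have h2 := (abs_le.1 h1).1
  linarith

private theorem chd_le (χ : G → ℂ) (hle : ∀ z, ‖χ z‖ ≤ 1) (w : G) : 0 ≤ 1 + (χ w).re ∧ (χ w).re ≤ 1 := by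
  have h1 := Complex.abs_re_le_norm (χ w)
  have h2 := neg_abs_le (χ w).re
  have h3 := le_abs_self (χ w).re
  have h4 := hle w
  constructor <;> linarith

/-- Three cases. (1) `χ ^ 2 := fun z => χ z ^ 2` is not principal (it is a `Chi D`, `(χ ii)^2 = 1`): `def_iter` and `1 - Re (z²) ≤ 4 (1 + Re z)` for `‖z‖ ≤ 1` (`1 - x² + y² ≤ 2 (1 - x²) ≤ 4 (1 + x)`). (2) `χ` principal: `χ w = χ (fl w) = 1` for `nm w > D²` (`chi_norm`: `Inv D w`),
the sum is at least `4 Ls (D² + 2) B ≥ 2 log log B - C` (`Ls_bounds`). (3) `χ²` principal, `χ` not: `χ' z = χ z` if `Inv D z` and `0` otherwise is a `Chi D` (`Inv D (z w) ↔ Inv D z ∧ Inv D w`), not principal, with values in `{0, 1, -1}`, and `χ' w = χ w` for `nm w > D²`; by `real_bd` the sum of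
`(Re χ' w + Re χ' (fl w)) / nm w` is bounded, so the sum is `≥ 2 Ls 2 B - C ≥ log log B - C`. -/
theorem char_def (D : ℕ) (hD : 0 < D) (χ : G → ℂ) (hχ : Chi D χ) (h1 : χ ii = 1) : ∃ c C : ℝ, 0 < c ∧ ∀ B : ℝ, 3 ≤ B →
    c * Real.log (Real.log B) - C ≤ ∑ w ∈ PP 2 B, ((1 + (χ w).re) + (1 + (χ (fl w)).re)) / (nm w : ℝ) := by
  classical
  by_cases hsq : Pri D (fun z => χ z ^ 2)
  · obtain ⟨CL, hCL⟩ := chd_Ls
    have hprime : ∀ B : ℝ, ∀ w ∈ PP 2 B, Prime w ∧ Prime (fl w) := by
      intro B w hw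
      have hs := PP_spl hw
      refine ⟨hs.prime, ?_⟩
      have hs' : Spl (fl w) := by
        unfold Spl
        rw [nm_fl]
        exact hs
      exact hs'.prime
    by_cases hp : Pri D χ
    · refine ⟨2, 4 * CL + 4 * ((ball ((D : ℝ) ^ 2)).card : ℝ), by norm_num, fun B hB => ?_⟩
      have h2 := chd_comp D B (fun w => (1 + (χ w).re) + (1 + (χ (fl w)).re)) (fun _ => 4)
        (fun w _ => add_nonneg (chd_le χ hχ.le w).1 (chd_le χ hχ.le (fl w)).1)
        (fun _ _ => le_rfl) (by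
          intro w hw hn
          obtain ⟨hp1, hp2⟩ := hprime B w hw
          have i1 := (chi_norm D hD χ hχ w hp1 hn).1
          have i2 := (chi_norm D hD χ hχ (fl w) hp2 (by rw [nm_fl]; exact hn)).1
          rw [hp w i1, hp (fl w) i2]
          norm_num)
      have h3 : ∑ w ∈ PP 2 B, (4 : ℝ) / (nm w : ℝ) = 4 * Ls 2 B := by
        unfold Ls
        rw [mul_sum]
        exact sum_congr rfl fun w _ => by ring
      rw [h3] at h2
      have h4 := hCL B hB
      linarith
    · let χ' : G → ℂ := fun z => if Inv D z then χ z else 0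
      have hval : ∀ z, Inv D z → χ' z = χ z := fun z hz => if_pos hz
      have hχ' : Chi D χ' := by
        refine ⟨?_, ?_, ?_, ?_, ?_⟩
        · rw [hval 1 ⟨1, by rw [one_mul]; exact chd_cg_refl D 1⟩]
          exact hχ.one
        · intro z w
          by_cases hz : Inv D z
          · by_cases hw : Inv D w
            · rw [hval _ ((chd_inv_mul D z w).2 ⟨hz, hw⟩), hval _ hz, hval _ hw, hχ.mul]
            · have e1 : χ' (z * w) = 0 := if_neg fun h => hw ((chd_inv_mul D z w).1 h).2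
              have e2 : χ' w = 0 := if_neg hw
              rw [e1, e2, mul_zero]
          · have e1 : χ' (z * w) = 0 := if_neg fun h => hz ((chd_inv_mul D z w).1 h).1
            have e2 : χ' z = 0 := if_neg hz
            rw [e1, e2, zero_mul]
        · intro z w hzw
          by_cases hz : Inv D z
          · rw [hval _ hz, hval _ ((chd_inv_cg D hzw).1 hz), hχ.per _ _ hzw]
          · have e1 : χ' z = 0 := if_neg hz
            have e2 : χ' w = 0 := if_neg fun h => hz ((chd_inv_cg D hzw).2 h)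
            rw [e1, e2]
        · intro z hz
          by_cases hi : Inv D z
          · rw [hval _ hi, hχ.even z hz]
          · exact if_neg hi
        · intro z
          by_cases hi : Inv D z
          · rw [hval _ hi]; exact hχ.le z
          · have e1 : χ' z = 0 := if_neg hi
            rw [e1, norm_zero]
            norm_num
      have hnp : ¬ Pri D χ' := fun h => hp fun z hz => by rw [← hval z hz]; exact h z hz
      have hreal : ∀ z, χ' z = 0 ∨ χ' z = 1 ∨ χ' z = -1 := by
        intro z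
        by_cases hi : Inv D z
        · right
          rw [hval _ hi]
          have h5 : χ z ^ 2 = 1 := hsq z hi
          have h6 : (χ z - 1) * (χ z + 1) = 0 := by linear_combination h5
          rcases mul_eq_zero.1 h6 with h7 | h7
          · exact Or.inl (sub_eq_zero.1 h7)
          · exact Or.inr (eq_neg_of_add_eq_zero_left h7)
        · exact Or.inl (if_neg hi)
      have hii : Inv D ii := ⟨⟨0, -1⟩, by
        have e : ii * (⟨0, -1⟩ : G) = 1 := by apply Zsqrtd.ext <;> simp [ii]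
        rw [e]
        exact chd_cg_refl D 1⟩
      obtain ⟨CR, hCR⟩ := real_bd D hD χ' hχ' hnp hreal (by rw [hval _ hii]; exact h1)
      refine ⟨1, 2 * CL + CR + 4 * ((ball ((D : ℝ) ^ 2)).card : ℝ), by norm_num, fun B hB => ?_⟩
      have h2 := chd_comp D B (fun w => (1 + (χ w).re) + (1 + (χ (fl w)).re))
        (fun w => (1 + (χ' w).re) + (1 + (χ' (fl w)).re))
        (fun w _ => add_nonneg (chd_le χ hχ.le w).1 (chd_le χ hχ.le (fl w)).1)
        (fun w _ => by
          have a1 := (chd_le χ' hχ'.le w).2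
          have a2 := (chd_le χ' hχ'.le (fl w)).2
          linarith) (by
          intro w hw hn
          obtain ⟨hp1, hp2⟩ := hprime B w hw
          have i1 := (chi_norm D hD χ hχ w hp1 hn).1
          have i2 := (chi_norm D hD χ hχ (fl w) hp2 (by rw [nm_fl]; exact hn)).1
          rw [hval _ i1, hval _ i2])
      have h3 : ∑ w ∈ PP 2 B, ((1 + (χ' w).re) + (1 + (χ' (fl w)).re)) / (nm w : ℝ) =
          2 * Ls 2 B + (∑ w ∈ PP 2 B, (χ' w + χ' (fl w)) / (nm w : ℂ)).re := by
        unfold Ls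
        rw [mul_sum, Complex.re_sum, ← sum_add_distrib]
        refine sum_congr rfl fun w _ => ?_
        have e1 : ((χ' w + χ' (fl w)) / (nm w : ℂ)).re = ((χ' w).re + (χ' (fl w)).re) / (nm w : ℝ) := by
          rw [← Complex.ofReal_natCast, Complex.div_ofReal_re, Complex.add_re]
        rw [e1]
        ring
      have h4 := hCR B hB
      have h5 := Complex.abs_re_le_norm (∑ w ∈ PP 2 B, (χ' w + χ' (fl w)) / (nm w : ℂ))
      have h6 := neg_abs_le (∑ w ∈ PP 2 B, (χ' w + χ' (fl w)) / (nm w : ℂ)).re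
      have h7 := hCL B hB
      rw [h3] at h2
      linarith
  · obtain ⟨c, hc, H⟩ := def_iter
    obtain ⟨C, hC⟩ := H D hD
    have hψ : Chi D (fun z => χ z ^ 2) := by
      refine ⟨?_, ?_, ?_, ?_, ?_⟩
      · rw [hχ.one]; norm_num
      · intro z w; rw [hχ.mul]; ring
      · intro z w h; rw [hχ.per z w h]
      · intro z h; rw [hχ.even z h]; norm_num
      · intro z
        rw [norm_pow]
        exact pow_le_one₀ (norm_nonneg _) (hχ.le z)
    have h2 := hC _ hψ hsq (by rw [h1]; norm_num)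
    refine ⟨c / 4, C / 4, by positivity, fun B hB => ?_⟩
    have h3 := h2 B hB
    have h4 : ∑ w ∈ PP 2 B, ((1 - (χ w ^ 2).re) + (1 - (χ (fl w) ^ 2).re)) / (nm w : ℝ) ≤
        4 * ∑ w ∈ PP 2 B, ((1 + (χ w).re) + (1 + (χ (fl w)).re)) / (nm w : ℝ) := by
      rw [mul_sum]
      refine sum_le_sum fun w _ => ?_
      rw [← mul_div_assoc]
      refine div_le_div_of_nonneg_right ?_ (Nat.cast_nonneg _)
      have a1 := chd_sq (χ w) (hχ.le w)
      have a2 := chd_sq (χ (fl w)) (hχ.le (fl w))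
      linarith
    linarith

end Pool.Agent.ECM
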