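import Pool.Agent.Lib_MP_f1a94e_ecm.ZDefs
import Pool.Agent.Lib_MP_f1a94e_mr.CPsum

/-!
# Piece M-CHEB: Chebyshev sums over Gaussian primes
-/

set_option autoImplicit false

namespace Pool.Agent.ECM

open Finset Pool.Agent.GaussMR Pool.Agent.GaussCM Pool.Agent.OmAll

open Classical in
/-- sums over canonical Gaussian primes: at most two of each prime norm, the others are the squares -/
theorem cheb_transfer (f : ℕ → ℝ) (hf : ∀ n, 0 ≤ f n) (Y : ℝ) (hY : 1 ≤ Y) :
    ∑ w ∈ CP Y, f (nm w) ≤ 2 * ∑ p ∈ (Icc 1 ⌊Y⌋₊).filter Nat.Prime, f p +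
      ∑ n ∈ Icc 1 ⌊√Y⌋₊, f (n ^ 2) := by
  set A1 := (CP Y).filter (fun w => (nm w).Prime ∧ w.im < w.re) with hA1
  set A2 := (CP Y).filter (fun w => (nm w).Prime ∧ ¬ w.im < w.re) with hA2
  set A3 := (CP Y).filter (fun w => ¬ (nm w).Prime) with hA3
  have hsplit : ∑ w ∈ CP Y, f (nm w) = ∑ w ∈ A1, f (nm w) + ∑ w ∈ A2, f (nm w) + ∑ w ∈ A3, f (nm w) := by
    rw [← sum_filter_add_sum_filter_not (CP Y) (fun w => (nm w).Prime) (fun w => f (nm w)),
      ← sum_filter_add_sum_filter_not ((CP Y).filter (fun w => (nm w).Prime))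
        (fun w => w.im < w.re) (fun w => f (nm w)), filter_filter, filter_filter]
  -- the element lies in `PP`
  have hPP1 : ∀ w ∈ A1, w ∈ PP 1 Y := by
    intro w hw
    rw [hA1, mem_filter, CPS.mem_CP] at hw
    obtain ⟨⟨a1, a2, a3, a4, a5⟩, a7, a8⟩ := hw
    rw [mem_PP]
    refine ⟨by exact_mod_cast a7.one_lt, a1, a7, ?_, a8⟩
    rcases a5.lt_or_eq with h | h
    · exact h
    · exfalso
      have h4 := nm_eq w
      rw [← h] at h4
      have h5 : nm w = w.re.natAbs * w.re.natAbs := by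
        zify
        rw [h4, abs_mul_abs_self]
        ring
      rw [h5] at a7
      exact Nat.not_prime_mul (a := w.re.natAbs) (b := w.re.natAbs)
        (fun h => by rw [h] at a7; exact Nat.not_prime_one a7)
        (fun h => by rw [h] at a7; exact Nat.not_prime_one a7) a7
  have hsw : ∀ w : G, nm (⟨w.im, w.re⟩ : G) = nm w := by
    intro w
    zify
    rw [nm_eq, nm_eq]
    ring
  have hPP2 : ∀ w ∈ A2, (⟨w.im, w.re⟩ : G) ∈ PP 1 Y := by
    intro w hw
    rw [hA2, mem_filter, CPS.mem_CP] at hw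
    obtain ⟨⟨a1, a2, a3, a4, a5⟩, a7, a8⟩ := hw
    rw [mem_PP, hsw]
    refine ⟨by exact_mod_cast a7.one_lt, a1, a7, a4, ?_⟩
    show w.re < w.im
    push Not at a8
    rcases a8.lt_or_eq with h | h
    · exact h
    · exfalso
      have h4 := nm_eq w
      rw [h] at h4
      obtain ⟨k, hk⟩ := a3
      rw [hk] at h4
      push_cast at h4
      have : (2 : ℤ) * k + 1 = 2 * w.im ^ 2 := by linarith
      omega
  have hpm : ∀ w ∈ CP Y, (nm w).Prime → nm w ∈ (Icc 1 ⌊Y⌋₊).filter Nat.Prime := by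
    intro w hw hp
    rw [CPS.mem_CP] at hw
    rw [mem_filter, mem_Icc]
    exact ⟨⟨hp.one_lt.le, Nat.le_floor hw.1⟩, hp⟩
  have h1 : ∑ w ∈ A1, f (nm w) ≤ ∑ p ∈ (Icc 1 ⌊Y⌋₊).filter Nat.Prime, f p := by
    calc ∑ w ∈ A1, f (nm w) = ∑ p ∈ A1.image nm, f p := by
          rw [sum_image]
          intro w hw w' hw' h
          exact PP_inj (hPP1 w hw) (hPP1 w' hw') h
      _ ≤ _ := by
          refine sum_le_sum_of_subset_of_nonneg ?_ fun p _ _ => hf p
          intro p hp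
          rw [mem_image] at hp
          obtain ⟨w, hw, rfl⟩ := hp
          rw [hA1, mem_filter] at hw
          exact hpm w hw.1 hw.2.1
  have h2 : ∑ w ∈ A2, f (nm w) ≤ ∑ p ∈ (Icc 1 ⌊Y⌋₊).filter Nat.Prime, f p := by
    calc ∑ w ∈ A2, f (nm w) = ∑ p ∈ A2.image nm, f p := by
          rw [sum_image]
          intro w hw w' hw' h
          have h' : (⟨w.im, w.re⟩ : G) = ⟨w'.im, w'.re⟩ := by
            refine PP_inj (hPP2 w hw) (hPP2 w' hw') ?_
            rw [hsw, hsw]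
            exact h
          have e1 := congrArg Zsqrtd.re h'
          have e2 := congrArg Zsqrtd.im h'
          exact Zsqrtd.ext e2 e1
      _ ≤ _ := by
          refine sum_le_sum_of_subset_of_nonneg ?_ fun p _ _ => hf p
          intro p hp
          rw [mem_image] at hp
          obtain ⟨w, hw, rfl⟩ := hp
          rw [hA2, mem_filter] at hw
          exact hpm w hw.1 hw.2.1
  have h3 : ∑ w ∈ A3, f (nm w) ≤ ∑ n ∈ Icc 1 ⌊√Y⌋₊, f (n ^ 2) := by
    have hreal : ∀ w ∈ A3, w.im = 0 ∧ 0 < w.re ∧ nm w = w.re.toNat ^ 2 ∧ (nm w : ℝ) ≤ Y := by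
      intro w hw
      rw [hA3, mem_filter, CPS.mem_CP] at hw
      obtain ⟨⟨a1, a2, a3, a4, a5⟩, a7⟩ := hw
      have him := CPS.real_of_not_prime a2 a4 a5 a7
      refine ⟨him, a4, ?_, a1⟩
      have h4 := nm_eq w
      rw [him] at h4
      have h5 : ((w.re.toNat : ℕ) : ℤ) = w.re := Int.toNat_of_nonneg a4.le
      have h6 : (nm w : ℤ) = ((w.re.toNat : ℕ) : ℤ) ^ 2 := by rw [h4, h5]; ring
      exact_mod_cast h6
    calc ∑ w ∈ A3, f (nm w) = ∑ n ∈ A3.image (fun w : G => w.re.toNat), f (n ^ 2) := by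
          rw [sum_image]
          · refine sum_congr rfl fun w hw => ?_
            rw [(hreal w hw).2.2.1]
          · intro w hw w' hw' h
            obtain ⟨b1, b2, _⟩ := hreal w hw
            obtain ⟨c1, c2, _⟩ := hreal w' hw'
            have h' : w.re.toNat = w'.re.toNat := h
            apply Zsqrtd.ext
            · omega
            · rw [b1, c1]
      _ ≤ _ := by
          refine sum_le_sum_of_subset_of_nonneg ?_ fun n _ _ => hf _
          intro n hn
          rw [mem_image] at hn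
          obtain ⟨w, hw, rfl⟩ := hn
          obtain ⟨b1, b2, b3, b4⟩ := hreal w hw
          rw [mem_Icc]
          refine ⟨by omega, Nat.le_floor ?_⟩
          rw [b3] at b4
          push_cast at b4
          exact Real.le_sqrt_of_sq_le b4
  rw [hsplit]
  linarith

/-- comparison of sums against a decreasing weight -/
theorem cheb_abel (u g : ℕ → ℝ) (hg : ∀ n, 0 ≤ g n) (hanti : ∀ n, g (n + 1) ≤ g n)
    (hu : ∀ N, 0 ≤ ∑ n ∈ range N, u n) (N : ℕ) :
    0 ≤ ∑ n ∈ range N, u n * g n := by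
  have h : ∀ N, (∑ n ∈ range N, u n) * g N ≤ ∑ n ∈ range N, u n * g n := by
    intro N
    induction N with
    | zero => simp
    | succ N ih =>
      rw [sum_range_succ (fun n => u n * g n)]
      have h1 := hu (N + 1)
      have h2 := mul_le_mul_of_nonneg_left (hanti N) h1
      have h3 : (∑ n ∈ range (N + 1), u n) * g N = (∑ n ∈ range N, u n) * g N + u N * g N := by
        rw [sum_range_succ]
        ring
      linarith
  exact le_trans (mul_nonneg (hu N) (hg N)) (h N)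

/-- `∑_(n ≤ N) n^(s-1) ≤ N^s / s` -/
theorem cheb_rpow_sum (s : ℝ) (hs : 0 < s) (hs1 : s ≤ 1) (N : ℕ) :
    ∑ n ∈ range N, ((n : ℝ) + 1) ^ (s - 1) ≤ (N : ℝ) ^ s / s := by
  induction N with
  | zero => simp [Real.zero_rpow hs.ne']
  | succ N ih =>
    rw [sum_range_succ]
    have hpos : (0 : ℝ) < (N : ℝ) + 1 := by positivity
    have h1 : (N : ℝ) ^ s ≤ ((N : ℝ) + 1) ^ s - s * ((N : ℝ) + 1) ^ (s - 1) := by
      have e1 : (N : ℝ) = ((N : ℝ) + 1) * (1 + -1 / ((N : ℝ) + 1)) := by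
        field_simp
        ring
      have h2 : (-1 : ℝ) ≤ -1 / ((N : ℝ) + 1) := by
        rw [le_div_iff₀ hpos]
        have : (0 : ℝ) ≤ N := Nat.cast_nonneg N
        linarith
      have h3 : (1 + -1 / ((N : ℝ) + 1)) ^ s ≤ 1 + s * (-1 / ((N : ℝ) + 1)) :=
        rpow_one_add_le_one_add_mul_self h2 hs.le hs1
      calc (N : ℝ) ^ s = (((N : ℝ) + 1) * (1 + -1 / ((N : ℝ) + 1))) ^ s := by rw [← e1]
        _ = ((N : ℝ) + 1) ^ s * (1 + -1 / ((N : ℝ) + 1)) ^ s :=
            Real.mul_rpow hpos.le (by linarith)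
        _ ≤ ((N : ℝ) + 1) ^ s * (1 + s * (-1 / ((N : ℝ) + 1))) :=
            mul_le_mul_of_nonneg_left h3 (by positivity)
        _ = ((N : ℝ) + 1) ^ s - s * ((N : ℝ) + 1) ^ (s - 1) := by
            rw [Real.rpow_sub_one hpos.ne']
            field_simp
            ring
    push_cast
    rw [le_div_iff₀ hs] at ih ⊢
    linarith

/-- Chebyshev: sums over primes of `log p p^(η-1)` -/
theorem cheb_primes (η : ℝ) (hη : 0 < η) (hη1 : η ≤ 1) (N : ℕ) :
    ∑ p ∈ (Icc 1 N).filter Nat.Prime, Real.log p * (p : ℝ) ^ (η - 1) ≤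
      Real.log 4 * ((N : ℝ) ^ η / η) := by
  have h4 : 0 ≤ Real.log 4 := Real.log_nonneg (by norm_num)
  have hre : ∀ (M : ℕ) (F : ℕ → ℝ), ∑ p ∈ (Icc 1 M).filter Nat.Prime, F p
      = ∑ n ∈ range M, if (n + 1).Prime then F (n + 1) else 0 := by
    intro M F
    rw [sum_filter, range_eq_Ico, sum_Ico_add' (fun n => if n.Prime then F n else 0) 0 M 1]
    rfl
  have hab := cheb_abel (fun n => Real.log 4 - if (n + 1).Prime then Real.log ((n + 1 : ℕ) : ℝ) else 0)
    (fun n => ((n : ℝ) + 1) ^ (η - 1)) (fun n => by positivity) (fun n => by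
      show (((n + 1 : ℕ) : ℝ) + 1) ^ (η - 1) ≤ ((n : ℝ) + 1) ^ (η - 1)
      push_cast
      exact Real.rpow_le_rpow_of_nonpos (by positivity) (by linarith) (by linarith))
    (fun M => by
      have h1 := Chebyshev.theta_le_log4_mul_x (x := (M : ℝ)) (by positivity)
      unfold Chebyshev.theta at h1
      rw [Nat.floor_natCast] at h1
      have h2 : (Ioc 0 M).filter Nat.Prime = (Icc 1 M).filter Nat.Prime := by
        ext p
        simp only [mem_filter, mem_Ioc, mem_Icc]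
        constructor
        · rintro ⟨⟨h1, h2⟩, h3⟩
          exact ⟨⟨h1, h2⟩, h3⟩
        · rintro ⟨⟨h1, h2⟩, h3⟩
          exact ⟨⟨h1, h2⟩, h3⟩
      rw [h2, hre M (fun p => Real.log p)] at h1
      rw [sum_sub_distrib, sum_const, card_range, nsmul_eq_mul]
      linarith) N
  rw [hre N (fun p => Real.log p * (p : ℝ) ^ (η - 1))]
  have h5 : ∑ n ∈ range N, (Real.log 4 - if (n + 1).Prime then Real.log ((n + 1 : ℕ) : ℝ) else 0) *
      ((n : ℝ) + 1) ^ (η - 1) = Real.log 4 * ∑ n ∈ range N, ((n : ℝ) + 1) ^ (η - 1) -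
      ∑ n ∈ range N, if (n + 1).Prime then Real.log ((n + 1 : ℕ) : ℝ) * ((n + 1 : ℕ) : ℝ) ^ (η - 1)
        else 0 := by
    rw [mul_sum, ← sum_sub_distrib]
    refine sum_congr rfl fun n _ => ?_
    split_ifs
    · push_cast
      ring
    · ring
  rw [h5] at hab
  have h6 := mul_le_mul_of_nonneg_left (cheb_rpow_sum η hη hη1 N) h4
  linarith

/-- Elements of `CP Y` have norm a prime `1 mod 4` (two for each such prime) or `q²`, `q` a prime `3 mod 4` (see the proof of `CP_sum`); so the sum is at most `2 ∑_(p ≤ Y) log p p^(η-1) + ∑_(q ≤ sqrt Y) 2 log q q^(2η-2)`. By partial summation from `∑_(p ≤ t) log p ≤ log 4 t`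
(Mathlib `Chebyshev.theta_le_log4_mul_x`), or dyadically: `∑_(2^i < p ≤ 2^(i+1)) log p p^(η-1) ≤ 2^(i(η-1)) log 4 2^(i+1)`. -/
theorem cheb_pow (η : ℝ) (hη : 0 < η) (hη1 : η ≤ 1 / 2) : ∃ C : ℝ, 0 < C ∧ ∀ Y : ℝ, 1 ≤ Y →
    ∑ p ∈ CP Y, Real.log (nm p) * (nm p : ℝ) ^ (η - 1) ≤ C * Y ^ η := by
  classical
  have h4 : 0 < Real.log 4 := Real.log_pos (by norm_num)
  refine ⟨2 * (Real.log 4 / η) + 2 / η / (2 * η), by positivity, fun Y hY => ?_⟩
  have hYη : 0 < Y ^ η := by positivity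
  have h1 := cheb_transfer (fun n => Real.log n * (n : ℝ) ^ (η - 1))
    (fun n => mul_nonneg (Real.log_natCast_nonneg n) (by positivity)) Y hY
  have h2 := cheb_primes η hη (by linarith) ⌊Y⌋₊
  have h3 : ((⌊Y⌋₊ : ℕ) : ℝ) ^ η ≤ Y ^ η :=
    Real.rpow_le_rpow (by positivity) (Nat.floor_le (by linarith)) hη.le
  have h5 : Real.log 4 * (((⌊Y⌋₊ : ℕ) : ℝ) ^ η / η) ≤ Real.log 4 / η * Y ^ η := by
    calc Real.log 4 * (((⌊Y⌋₊ : ℕ) : ℝ) ^ η / η) = Real.log 4 / η * ((⌊Y⌋₊ : ℕ) : ℝ) ^ η := by ring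
      _ ≤ Real.log 4 / η * Y ^ η := mul_le_mul_of_nonneg_left h3 (by positivity)
  have h6 : ∑ n ∈ Icc 1 ⌊√Y⌋₊, Real.log ((n ^ 2 : ℕ) : ℝ) * ((n ^ 2 : ℕ) : ℝ) ^ (η - 1)
      ≤ 2 / η / (2 * η) * Y ^ η := by
    calc ∑ n ∈ Icc 1 ⌊√Y⌋₊, Real.log ((n ^ 2 : ℕ) : ℝ) * ((n ^ 2 : ℕ) : ℝ) ^ (η - 1)
        ≤ ∑ n ∈ Icc 1 ⌊√Y⌋₊, 2 / η * (n : ℝ) ^ (2 * η - 1) := by
          refine sum_le_sum fun n hn => ?_
          rw [mem_Icc] at hn
          have hn1 : (1 : ℝ) ≤ n := by exact_mod_cast hn.1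
          have hn0 : (0 : ℝ) < n := by linarith
          push_cast
          rw [Real.log_pow]
          have e1 : ((n : ℝ) ^ 2) ^ (η - 1) = (n : ℝ) ^ (2 * (η - 1)) := by
            rw [← Real.rpow_natCast, ← Real.rpow_mul hn0.le]
            norm_num
          rw [e1]
          have e2 : Real.log n ≤ (n : ℝ) ^ η / η := Real.log_le_rpow_div hn0.le hη
          calc ((2 : ℕ) : ℝ) * Real.log n * (n : ℝ) ^ (2 * (η - 1))
              ≤ ((2 : ℕ) : ℝ) * ((n : ℝ) ^ η / η) * (n : ℝ) ^ (2 * (η - 1)) := by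
                refine mul_le_mul_of_nonneg_right ?_ (by positivity)
                exact mul_le_mul_of_nonneg_left e2 (by positivity)
            _ = 2 / η * ((n : ℝ) ^ η * (n : ℝ) ^ (2 * (η - 1))) := by push_cast; ring
            _ = 2 / η * (n : ℝ) ^ (η + 2 * (η - 1)) := by rw [← Real.rpow_add hn0]
            _ ≤ 2 / η * (n : ℝ) ^ (2 * η - 1) := by
                refine mul_le_mul_of_nonneg_left ?_ (by positivity)
                exact Real.rpow_le_rpow_of_exponent_le hn1 (by linarith)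
      _ = 2 / η * ∑ n ∈ range ⌊√Y⌋₊, ((n : ℝ) + 1) ^ (2 * η - 1) := by
          rw [← mul_sum, range_eq_Ico]
          congr 1
          have := sum_Ico_add' (fun n : ℕ => (n : ℝ) ^ (2 * η - 1)) 0 ⌊√Y⌋₊ 1
          push_cast at this
          rw [this]
          rfl
      _ ≤ 2 / η * (((⌊√Y⌋₊ : ℕ) : ℝ) ^ (2 * η) / (2 * η)) :=
          mul_le_mul_of_nonneg_left (cheb_rpow_sum (2 * η) (by positivity) (by linarith) _)
            (by positivity)
      _ ≤ 2 / η * (Y ^ η / (2 * η)) := by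
          refine mul_le_mul_of_nonneg_left ?_ (by positivity)
          refine div_le_div_of_nonneg_right ?_ (by positivity)
          calc ((⌊√Y⌋₊ : ℕ) : ℝ) ^ (2 * η) ≤ (√Y) ^ (2 * η) :=
                Real.rpow_le_rpow (by positivity) (Nat.floor_le (by positivity)) (by positivity)
            _ = Y ^ η := by
                rw [Real.sqrt_eq_rpow, ← Real.rpow_mul (by linarith)]
                congr 1
                ring
      _ = 2 / η / (2 * η) * Y ^ η := by ring
  linarith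

/-- `∑_(j ≥ 2) log nm p / nm p^j ≤ 2 log nm p / nm p²`, and `∑_p log nm p / nm p^(2-η) ≤ ∑_(z ≠ 0) 2 nm z^(-3/2 + ..)` converges (or: `∑_(p ∈ CP Y) nm p ^ (-5/4) ≤ C`: at most `O(t)` elements of norm at most `t`). The exponent `η ≤ 1/4` on the right is for the error terms. -/
theorem cheb_tail (η : ℝ) (hη : 0 ≤ η) (hη1 : η ≤ 1 / 4) : ∃ C : ℝ, 0 < C ∧ ∀ Y : ℝ, 1 ≤ Y →
    ∑ p ∈ CP Y, ∑ j ∈ Icc 2 ⌊Y⌋₊, Real.log (nm p) / ((nm p : ℝ) ^ j) ^ (1 - η) ≤ C := by
  classical
  have hsum : Summable (fun n : ℕ => (n : ℝ) ^ (-(11 / 8) : ℝ)) := by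
    rw [Real.summable_nat_rpow]
    norm_num
  set S : ℝ := ∑' n : ℕ, (n : ℝ) ^ (-(11 / 8) : ℝ) with hS
  have hS0 : 0 ≤ S := tsum_nonneg fun n => by positivity
  refine ⟨32 * (3 * S) + 1, by positivity, fun Y hY => ?_⟩
  have h1 : ∀ p ∈ CP Y, ∑ j ∈ Icc 2 ⌊Y⌋₊, Real.log (nm p) / ((nm p : ℝ) ^ j) ^ (1 - η)
      ≤ 32 * (nm p : ℝ) ^ (-(11 / 8) : ℝ) := by
    intro p hp
    have h5 : 5 ≤ nm p := CP_nm hp
    set x : ℝ := (nm p : ℝ) with hx
    have hx5 : (5 : ℝ) ≤ x := by rw [hx]; exact_mod_cast h5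
    have hx0 : 0 < x := by linarith
    set q : ℝ := x ^ (-(1 - η)) with hq
    have hq0 : 0 < q := by positivity
    have hq34 : q ≤ x ^ (-(3 / 4) : ℝ) := Real.rpow_le_rpow_of_exponent_le (by linarith) (by linarith)
    have hqh : q ≤ 1 / 2 := by
      refine hq34.trans ?_
      have e1 : (4 : ℝ) ^ (-(3 / 4) : ℝ) ≤ 1 / 2 := by
        have h42 : (4 : ℝ) ^ (-(3 / 4) : ℝ) = (2 : ℝ) ^ (2 * -(3 / 4) : ℝ) := by
          rw [Real.rpow_mul (by norm_num)]
          norm_num
        rw [h42]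
        calc (2 : ℝ) ^ (2 * -(3 / 4) : ℝ) ≤ (2 : ℝ) ^ (-1 : ℝ) :=
              Real.rpow_le_rpow_of_exponent_le (by norm_num) (by norm_num)
          _ = 1 / 2 := by rw [Real.rpow_neg_one]; norm_num
      exact (Real.rpow_le_rpow_of_nonpos (by norm_num) (by linarith) (by norm_num)).trans e1
    have hterm : ∀ j : ℕ, Real.log x / (x ^ j) ^ (1 - η) = Real.log x * q ^ j := by
      intro j
      rw [div_eq_mul_inv]
      congr 1
      rw [hq, ← Real.rpow_natCast, ← Real.rpow_natCast, ← Real.rpow_mul hx0.le,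
        ← Real.rpow_mul hx0.le, ← Real.rpow_neg hx0.le]
      congr 1
      ring
    have hlog0 : 0 ≤ Real.log x := Real.log_nonneg (by linarith)
    calc ∑ j ∈ Icc 2 ⌊Y⌋₊, Real.log x / (x ^ j) ^ (1 - η)
        = Real.log x * ∑ j ∈ Icc 2 ⌊Y⌋₊, q ^ j := by
          rw [mul_sum]
          exact sum_congr rfl fun j _ => hterm j
      _ ≤ Real.log x * (2 * q ^ 2) := by
          refine mul_le_mul_of_nonneg_left ?_ hlog0
          have e1 : ∀ M : ℕ, ∑ j ∈ Icc 2 M, q ^ j ≤ 2 * q ^ 2 := by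
            intro M
            have e2 : ∑ j ∈ Icc 2 M, q ^ j ≤ ∑ i ∈ range (M + 1), q ^ 2 * q ^ i := by
              calc ∑ j ∈ Icc 2 M, q ^ j = ∑ i ∈ (Icc 2 M).image (fun j => j - 2), q ^ 2 * q ^ i := by
                    rw [sum_image]
                    · refine sum_congr rfl fun j hj => ?_
                      rw [mem_Icc] at hj
                      rw [← pow_add]
                      congr 1
                      omega
                    · intro i hi j hj h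
                      rw [mem_coe, mem_Icc] at hi hj
                      have h' : i - 2 = j - 2 := h
                      omega
                _ ≤ _ := by
                    refine sum_le_sum_of_subset_of_nonneg ?_ fun i _ _ => by positivity
                    intro i hi
                    rw [mem_image] at hi
                    obtain ⟨j, hj, rfl⟩ := hi
                    rw [mem_Icc] at hj
                    rw [mem_range]
                    omega
            refine e2.trans ?_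
            rw [← mul_sum, mul_comm 2]
            refine mul_le_mul_of_nonneg_left ?_ (by positivity)
            have e3 : (1 - q) * ∑ i ∈ range (M + 1), q ^ i = 1 - q ^ (M + 1) :=
              mul_neg_geom_sum q (M + 1)
            have e4 : 0 ≤ ∑ i ∈ range (M + 1), q ^ i := sum_nonneg fun i _ => by positivity
            have e5 : 0 < q ^ (M + 1) := by positivity
            nlinarith
          exact e1 _
      _ ≤ (8 * x ^ (1 / 8 : ℝ)) * (2 * (x ^ (-(3 / 4) : ℝ)) ^ 2) := by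
          have e1 : Real.log x ≤ 8 * x ^ (1 / 8 : ℝ) := by
            have := Real.log_le_rpow_div hx0.le (show (0 : ℝ) < 1 / 8 by norm_num)
            linarith
          refine mul_le_mul e1 ?_ (by positivity) (by positivity)
          exact mul_le_mul_of_nonneg_left (pow_le_pow_left₀ hq0.le hq34 2) (by norm_num)
      _ = 16 * x ^ (-(11 / 8) : ℝ) := by
          have e1 : (x ^ (-(3 / 4) : ℝ)) ^ 2 = x ^ (-(3 / 2) : ℝ) := by
            rw [← Real.rpow_natCast, ← Real.rpow_mul hx0.le]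
            norm_num
          rw [e1, show (-(11 / 8) : ℝ) = 1 / 8 + -(3 / 2) by norm_num, Real.rpow_add hx0]
          ring
      _ ≤ 32 * x ^ (-(11 / 8) : ℝ) := by
          refine mul_le_mul_of_nonneg_right (by norm_num) (by positivity)
  have h2 := cheb_transfer (fun n => (n : ℝ) ^ (-(11 / 8) : ℝ)) (fun n => by positivity) Y hY
  have h3 : ∑ p ∈ (Icc 1 ⌊Y⌋₊).filter Nat.Prime, (p : ℝ) ^ (-(11 / 8) : ℝ) ≤ S :=
    hsum.sum_le_tsum _ fun n _ => by positivity
  have h4 : ∑ n ∈ Icc 1 ⌊√Y⌋₊, ((n ^ 2 : ℕ) : ℝ) ^ (-(11 / 8) : ℝ) ≤ S := by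
    refine le_trans (sum_le_sum fun n hn => ?_) (hsum.sum_le_tsum (Icc 1 ⌊√Y⌋₊) fun n _ => by positivity)
    rw [mem_Icc] at hn
    have hn1 : (1 : ℝ) ≤ n := by exact_mod_cast hn.1
    push_cast
    exact Real.rpow_le_rpow_of_nonpos (by linarith) (by nlinarith) (by norm_num)
  calc ∑ p ∈ CP Y, ∑ j ∈ Icc 2 ⌊Y⌋₊, Real.log (nm p) / ((nm p : ℝ) ^ j) ^ (1 - η)
      ≤ ∑ p ∈ CP Y, 32 * (nm p : ℝ) ^ (-(11 / 8) : ℝ) := sum_le_sum h1
    _ = 32 * ∑ p ∈ CP Y, (nm p : ℝ) ^ (-(11 / 8) : ℝ) := by rw [mul_sum]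
    _ ≤ 32 * (3 * S) := by
        refine mul_le_mul_of_nonneg_left ?_ (by norm_num)
        linarith
    _ ≤ 32 * (3 * S) + 1 := by linarith

end Pool.Agent.ECM
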