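import Pool.Agent.Lib_MP_f1a94e_ecm.MDefs

/-!
# Piece M-CHIORD: the order of the characters
-/

set_option autoImplicit false

namespace Pool.Agent.ECM

open Finset Pool.Agent.GaussMR Pool.Agent.GaussCM Pool.Agent.OmAll

private theorem chiord_pow {D : ℕ} {χ : G → ℂ} (h : Chi D χ) (z : G) (n : ℕ) :
    χ (z ^ n) = χ z ^ n := by
  induction n with
  | zero => simpa using h.one
  | succ n ih => rw [pow_succ, h.mul, ih, pow_succ]

/-- Pigeonhole: there are only `D²` residue classes, so for `z` invertible some power `z^n ≡ 1 mod D` with `1 ≤ n ≤ D²`; take `n0 = (D²)!`. Or the group of units of the finite ring. -/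
theorem chi_order (D : ℕ) (hD : 0 < D) : ∃ n0 : ℕ, 0 < n0 ∧ ∀ χ : G → ℂ, Chi D χ → ∀ z : G, Inv D z → χ z ^ n0 = 1 := by
  haveI : NeZero D := ⟨hD.ne'⟩
  refine ⟨(D * D).factorial, Nat.factorial_pos _, ?_⟩
  intro χ hχ z hz
  obtain ⟨w, hw⟩ := hz
  have h1 : χ z * χ w = 1 := by rw [← hχ.mul, hχ.per _ _ hw, hχ.one]
  have h0 : χ z ≠ 0 := left_ne_zero_of_mul_eq_one h1
  -- pigeonhole
  let f : ℕ → ZMod D × ZMod D := fun n => (((z ^ n).re : ZMod D), ((z ^ n).im : ZMod D))
  have hc : (Finset.univ : Finset (ZMod D × ZMod D)).card < (Finset.range (D * D + 1)).card := by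
    rw [Finset.card_univ, Fintype.card_prod, ZMod.card, Finset.card_range]
    exact Nat.lt_succ_self _
  obtain ⟨i, hi, j, hj, hij, hf⟩ := Finset.exists_ne_map_eq_of_card_lt_of_maps_to hc
    (f := f) (fun x _ => Finset.mem_univ _)
  have key : ∀ a b : ℕ, a < b → b ≤ D * D → f a = f b → χ z ^ (D * D).factorial = 1 := by
    intro a b hab hb hfab
    have hcg : cg D (z ^ a) (z ^ b) := by
      have e1 : (((z ^ a).re : ZMod D)) = (((z ^ b).re : ZMod D)) := congrArg Prod.fst hfab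
      have e2 : (((z ^ a).im : ZMod D)) = (((z ^ b).im : ZMod D)) := congrArg Prod.snd hfab
      refine ⟨?_, ?_⟩
      · rw [← ZMod.intCast_zmod_eq_zero_iff_dvd]
        push_cast
        rw [e1, sub_self]
      · rw [← ZMod.intCast_zmod_eq_zero_iff_dvd]
        push_cast
        rw [e2, sub_self]
    have e := hχ.per _ _ hcg
    rw [chiord_pow hχ, chiord_pow hχ] at e
    have e' : χ z ^ (b - a) = 1 := by
      have : χ z ^ b = χ z ^ a * χ z ^ (b - a) := by rw [← pow_add]; congr 1; omega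
      rw [this] at e
      have hne : χ z ^ a ≠ 0 := pow_ne_zero _ h0
      have := mul_left_cancel₀ hne (show χ z ^ a * 1 = χ z ^ a * χ z ^ (b - a) by rw [mul_one]; exact e)
      exact this.symm
    have hd : (b - a) ∣ (D * D).factorial := Nat.dvd_factorial (by omega) (by omega)
    obtain ⟨k, hk⟩ := hd
    rw [hk, pow_mul, e', one_pow]
  rw [Finset.mem_range] at hi hj
  rcases lt_or_gt_of_ne hij with h | h
  · exact key i j h (by omega) hf
  · exact key j i h (by omega) hf.symm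

private theorem chiord_norm (v : ℂ) (hv : ‖v‖ = 1) (m : ℕ) : ‖1 - v ^ m‖ ≤ m * ‖1 - v‖ := by
  induction m with
  | zero => simp
  | succ m ih =>
    have : 1 - v ^ (m + 1) = v ^ m * (1 - v) + (1 - v ^ m) := by ring
    rw [this]
    refine (norm_add_le _ _).trans ?_
    rw [norm_mul, norm_pow, hv, one_pow, one_mul]
    push_cast
    linarith

private theorem chiord_sq (v : ℂ) (hv : ‖v‖ = 1) : ‖1 - v‖ ^ 2 = 2 * (1 - v.re) := by
  have h1 : ‖v‖ ^ 2 = v.re * v.re + v.im * v.im := by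
    rw [← Complex.normSq_eq_norm_sq, Complex.normSq_apply]
  rw [hv] at h1
  rw [← Complex.normSq_eq_norm_sq, Complex.normSq_apply]
  simp only [Complex.sub_re, Complex.one_re, Complex.sub_im, Complex.one_im]
  nlinarith

/-- For `‖u‖ = 1` and `n ≥ 1`: `|1 - u^n| ≤ n |1 - u|`, `|1 - u|² = 2 (1 - Re u)`; apply with `-u`, `(-u)^(2 n) = u^(2 n)`. -/
theorem pow_defect (u : ℂ) (hu : ‖u‖ = 1) (n : ℕ) : 1 - (u ^ (2 * n)).re ≤ (2 * n) ^ 2 * (1 + u.re) := by
  have hv : ‖-u‖ = 1 := by rw [norm_neg, hu]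
  have hp : (-u) ^ (2 * n) = u ^ (2 * n) := by rw [pow_mul, neg_sq, ← pow_mul]
  have h1 := chiord_norm (-u) hv (2 * n)
  have h2 := chiord_sq (-u) hv
  have h3 := chiord_sq ((-u) ^ (2 * n)) (by rw [norm_pow, hv, one_pow])
  have h4 : ‖1 - (-u) ^ (2 * n)‖ ^ 2 ≤ (((2 * n : ℕ) : ℝ) * ‖1 - -u‖) ^ 2 :=
    pow_le_pow_left₀ (norm_nonneg _) h1 2
  rw [mul_pow, h2, h3, hp] at h4
  push_cast at h4
  simp only [Complex.neg_re] at h4
  nlinarith

end Pool.Agent.ECM
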