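import Pool.Agent.Lib_MP_f1a94e_ecm.MDefs

/-!
# Piece M-CLSCHAR: a reduced residue class of Gaussian integers as a combination of characters
-/

set_option autoImplicit false

namespace Pool.Agent.ECM

open Finset Pool.Agent.GaussMR Pool.Agent.GaussCM Pool.Agent.OmAll

theorem clschar_mul_star (z : G) : z * star z = ((nm z : ℕ) : G) := by
  apply Zsqrtd.ext
  · have := nm_eq z
    simp only [Zsqrtd.re_mul, Zsqrtd.re_star, Zsqrtd.im_star, Zsqrtd.re_natCast]
    rw [this]
    ring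
  · simp only [Zsqrtd.im_mul, Zsqrtd.re_star, Zsqrtd.im_star, Zsqrtd.im_natCast]
    ring

theorem clschar_finite (μ : G) (hμ : μ ≠ 0) : Finite (G ⧸ Ideal.span {μ}) := by
  have hN : 0 < nm μ := nm_pos hμ
  have hN' : (0 : ℤ) < nm μ := by exact_mod_cast hN
  let f : Fin (nm μ) × Fin (nm μ) → G ⧸ Ideal.span {μ} := fun p =>
    Ideal.Quotient.mk _ ⟨(p.1 : ℤ), (p.2 : ℤ)⟩
  apply Finite.of_surjective f
  intro x
  obtain ⟨z, rfl⟩ := Ideal.Quotient.mk_surjective x
  have h1 := Int.emod_nonneg z.re hN'.ne'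
  have h2 := Int.emod_lt_of_pos z.re hN'
  have h3 := Int.emod_nonneg z.im hN'.ne'
  have h4 := Int.emod_lt_of_pos z.im hN'
  refine ⟨(⟨(z.re % nm μ).toNat, by omega⟩, ⟨(z.im % nm μ).toNat, by omega⟩), ?_⟩
  simp only [f]
  rw [Ideal.Quotient.eq, Ideal.mem_span_singleton]
  have h5 : (((z.re % nm μ).toNat : ℕ) : ℤ) = z.re % nm μ := Int.toNat_of_nonneg h1
  have h6 : (((z.im % nm μ).toNat : ℕ) : ℤ) = z.im % nm μ := Int.toNat_of_nonneg h3
  rw [h5, h6]
  have h7 : (⟨z.re % nm μ, z.im % nm μ⟩ : G) - z =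
      ((nm μ : ℕ) : G) * ⟨-(z.re / nm μ), -(z.im / nm μ)⟩ := by
    have e1 := Int.emod_def z.re (nm μ)
    have e2 := Int.emod_def z.im (nm μ)
    apply Zsqrtd.ext
    · simp only [Zsqrtd.re_sub, Zsqrtd.re_mul, Zsqrtd.re_natCast, Zsqrtd.im_natCast]
      rw [e1]
      ring
    · simp only [Zsqrtd.im_sub, Zsqrtd.im_mul, Zsqrtd.re_natCast, Zsqrtd.im_natCast]
      rw [e2]
      ring
  rw [h7, ← clschar_mul_star, mul_assoc]
  exact dvd_mul_right _ _

theorem clschar_norm {R : Type*} [CommRing R] [Finite R] (ψ : MulChar R ℂ) (x : R) : ‖ψ x‖ ≤ 1 := by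
  by_cases hx : IsUnit x
  · obtain ⟨u, rfl⟩ := hx
    have : Finite Rˣ := inferInstance
    have h1 : u ^ Nat.card Rˣ = 1 := pow_card_eq_one'
    have h2 : (ψ u) ^ Nat.card Rˣ = 1 := by
      rw [← map_pow, ← Units.val_pow_eq_pow_val, h1, Units.val_one, map_one]
    have h3 : ‖ψ u‖ = 1 := Complex.norm_eq_one_of_pow_eq_one h2 Nat.card_pos.ne'
    exact h3.le
  · rw [ψ.map_nonunit hx, norm_zero]
    exact zero_le_one

theorem clschar_sum {R : Type*} [CommRing R] [Finite R] [Fintype (MulChar R ℂ)] (x : R) (hx : x ≠ 1) :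
    ∑ ψ : MulChar R ℂ, ψ x = 0 := by
  have : Finite Rˣ := inferInstance
  have : NeZero (Monoid.exponent Rˣ : ℂ) := by
    refine ⟨?_⟩
    have := Monoid.exponent_ne_zero_of_finite (G := Rˣ)
    exact_mod_cast this
  obtain ⟨χ, hχ⟩ := MulChar.exists_apply_ne_one_of_hasEnoughRootsOfUnity R ℂ hx
  refine eq_zero_of_mul_eq_self_left hχ ?_
  simp only [Finset.mul_sum, ← MulChar.mul_apply]
  exact Fintype.sum_bijective _ (Group.mulLeft_bijective χ) _ _ fun χ' ↦ rfl

/-- `R = G ⧸ (μ)` is a finite commutative ring (Mathlib: finiteness of `GaussianInt` modulo a nonzero ideal), `MulChar R ℂ` is finite, and for units `u` of `R`: `(1 / #Rˣ) ∑_ψ ψ(u) = 1[u = 1]` (`MulChar.exists_apply_ne_one_of_hasEnoughRootsOfUnity`, or the duality of finite abelian groups; see also the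
orthogonality relations for Dirichlet characters in Mathlib). Apply with `u = z b^(-1)`; characters vanish on non units. Number of characters = `#Rˣ` (`MulChar.card_eq_card_units_of_hasEnoughRootsOfUnity`), the coefficients are `ψ(b)⁻¹ / #Rˣ`. -/
theorem cls_char (μ : G) (hμ : μ ≠ 0) (b : G) (hb : IsCoprime b μ) : ∃ (n : ℕ) (χ : Fin n → G → ℂ) (c : Fin n → ℂ),
    (∀ i, χ i 1 = 1 ∧ (∀ z w, χ i (z * w) = χ i z * χ i w) ∧ (∀ z w, μ ∣ z - w → χ i z = χ i w) ∧ (∀ z, ‖χ i z‖ ≤ 1)) ∧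
      ∑ i, ‖c i‖ ≤ 1 ∧ (∀ z, μ ∣ z - b → ∑ i, c i * χ i z = 1) ∧ ∀ z, ¬ μ ∣ z - b → ∑ i, c i * χ i z = 0 := by
  classical
  have hfin := clschar_finite μ hμ
  obtain ⟨u, v, huv⟩ := hb
  set R := G ⧸ Ideal.span {μ} with hR
  set mk : G →+* R := Ideal.Quotient.mk (Ideal.span {μ}) with hmk
  have : Finite Rˣ := inferInstance
  have : Finite (MulChar R ℂ) := inferInstance
  have : Fintype (MulChar R ℂ) := Fintype.ofFinite _
  set n := Fintype.card (MulChar R ℂ) with hn
  have hn0 : 0 < n := Fintype.card_pos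
  have hnC : (n : ℂ) ≠ 0 := by exact_mod_cast hn0.ne'
  have e : Fin n ≃ MulChar R ℂ := (Fintype.equivFin _).symm
  have hmkμ : mk μ = 0 := by
    rw [hmk, Ideal.Quotient.eq_zero_iff_mem]
    exact Ideal.mem_span_singleton_self μ
  have hub : mk u * mk b = 1 := by
    have := congrArg mk huv
    rw [map_add, map_mul, map_mul, hmkμ, mul_zero, add_zero, map_one] at this
    exact this
  have hmkeq : ∀ z w : G, mk z = mk w ↔ μ ∣ z - w := by
    intro z w
    rw [hmk, Ideal.Quotient.eq, Ideal.mem_span_singleton]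
  have hsum : ∀ z : G, ∑ i : Fin n, ((e i) (mk u) / n) * (e i) (mk z) =
      (∑ ψ : MulChar R ℂ, ψ (mk u * mk z)) / n := by
    intro z
    rw [← e.sum_comp, Finset.sum_div]
    refine Finset.sum_congr rfl fun i _ => ?_
    rw [map_mul]
    ring
  refine ⟨n, fun i z => (e i) (mk z), fun i => (e i) (mk u) / n, ?_, ?_, ?_, ?_⟩
  · intro i
    refine ⟨by simp, fun z w => by simp, fun z w h => ?_, fun z => clschar_norm _ _⟩
    have : mk z = mk w := (hmkeq z w).mpr h
    simp only [this]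
  · have h1 : ∀ i : Fin n, ‖(e i) (mk u) / (n : ℂ)‖ ≤ 1 / n := by
      intro i
      rw [norm_div, Complex.norm_natCast]
      have hnR : (0 : ℝ) < n := by exact_mod_cast hn0
      gcongr
      exact clschar_norm _ _
    refine (Finset.sum_le_sum fun i _ => h1 i).trans ?_
    rw [Finset.sum_const, Finset.card_univ, Fintype.card_fin, nsmul_eq_mul]
    have hnR : (n : ℝ) ≠ 0 := by exact_mod_cast hn0.ne'
    rw [mul_one_div_cancel hnR]
  · intro z hz
    rw [hsum]
    have h1 : mk u * mk z = 1 := by rw [(hmkeq z b).mpr hz, hub]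
    rw [h1]
    simp only [map_one, Finset.sum_const, Finset.card_univ, nsmul_eq_mul, mul_one]
    exact div_self hnC
  · intro z hz
    rw [hsum, clschar_sum, zero_div]
    intro h1
    apply hz
    rw [← hmkeq]
    have h2 : mk b * (mk u * mk z) = mk b * 1 := by rw [h1]
    rw [← mul_assoc, mul_comm (mk b), hub, one_mul, mul_one] at h2
    exact h2

end Pool.Agent.ECM
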