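import Pool.Agent.Lib_MP_f1a94e_ecm.MDefs
import Pool.Agent.Lib_MP_f1a94e_mr.CPsum

/-!
# Piece M-ROUGH: factorisation of rough elements
-/

set_option autoImplicit false

namespace Pool.Agent.ECM

open Finset Pool.Agent.GaussMR Pool.Agent.GaussCM Pool.Agent.OmAll

/-- Every odd nonzero `u` which is `y`-rough, `nm u ≤ Y`, is a unit times the product of a list of elements of `CP Y` of norm `≥ y` (`CP_exists`, unique factorisation, induction on the norm),
whose length `r` satisfies `y ^ r ≤ nm u`. -/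
theorem rough_fac (Y y : ℝ) (hy : 1 < y) (u : G) (hu : Odd (nm u)) (huY : (nm u : ℝ) ≤ Y) (hr : Rough y u) :
    ∃ (e : G) (l : List G), nm e = 1 ∧ u = e * l.prod ∧ (∀ p ∈ l, p ∈ CP Y ∧ y ≤ (nm p : ℝ)) ∧ y ^ l.length ≤ (nm u : ℝ) := by
  obtain ⟨N, hN⟩ : ∃ N, nm u = N := ⟨_, rfl⟩
  induction N using Nat.strong_induction_on generalizing u with
  | _ N ih =>
    by_cases h1 : nm u = 1
    · exact ⟨u, [], h1, by simp, by simp, by simp [h1]⟩
    · have hu0 : u ≠ 0 := by
        rintro rfl
        have : nm (0 : G) = 0 := by simp [nm]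
        rw [this] at hu
        exact absurd hu (by decide)
      have hnu : ¬ IsUnit u := fun h => h1 (CPS.nm_one_of_unit h)
      obtain ⟨p, hp, v, hv⟩ := WfDvdMonoid.exists_irreducible_factor hnu hu0
      have hpp : Prime p := hp.prime
      have hmul : nm u = nm p * nm v := by rw [hv, CPS.nm_mul]
      have hop : Odd (nm p) := (Nat.odd_mul.1 (hmul ▸ hu)).1
      have hov : Odd (nm v) := (Nat.odd_mul.1 (hmul ▸ hu)).2
      have hyp : y ≤ (nm p : ℝ) := hr p hpp (Dvd.intro _ hv.symm)
      have hvpos : 0 < nm v := hov.pos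
      have hppos : 0 < nm p := hop.pos
      have hpu : (nm p : ℝ) ≤ Y := by
        refine le_trans ?_ huY
        exact_mod_cast (hmul ▸ Nat.le_mul_of_pos_right _ hvpos)
      obtain ⟨w, hwC, hwp⟩ := CP_exists hpp hop hpu
      obtain ⟨t, ht⟩ := hwp
      have hnt : nm (t : G) = 1 := CPS.nm_one_of_unit t.isUnit
      have hnw : nm w = nm p := by rw [← ht, CPS.nm_mul, hnt, mul_one]
      have hnv : nm ((t : G) * v) = nm v := by rw [CPS.nm_mul, hnt, one_mul]
      have hlt : nm v < N := by
        have h2 : 2 ≤ nm p := by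
          have : (1 : ℝ) < (nm p : ℝ) := lt_of_lt_of_le hy hyp
          exact_mod_cast this
        rw [← hN, hmul]
        nlinarith
      obtain ⟨e, l, he, hl, hl2, hl3⟩ := ih (nm v) hlt ((t : G) * v) (by rw [hnv]; exact hov)
        (by
          rw [hnv]
          refine le_trans ?_ huY
          exact_mod_cast (hmul ▸ Nat.le_mul_of_pos_left _ hppos))
        (by
          intro q hq hqd
          refine hr q hq ?_
          have h3 : q ∣ v := by
            rcases hq.dvd_or_dvd hqd with h | h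
            · exact absurd (isUnit_of_dvd_unit h t.isUnit) hq.not_isUnit
            · exact h
          rw [hv]
          exact Dvd.dvd.mul_left h3 p)
        hnv
      refine ⟨e, w :: l, he, ?_, ?_, ?_⟩
      · rw [List.prod_cons, hv, ← ht]
        calc w * (t : G) * v = w * ((t : G) * v) := by ring
          _ = w * (e * l.prod) := by rw [hl]
          _ = e * (w * l.prod) := by ring
      · intro q hq
        rcases List.mem_cons.1 hq with rfl | h
        · exact ⟨hwC, by rw [hnw]; exact hyp⟩
        · exact hl2 q h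
      · rw [List.length_cons, pow_succ, hmul]
        push_cast
        rw [hnv] at hl3
        calc y ^ l.length * y ≤ (nm v : ℝ) * (nm p : ℝ) := by
              apply mul_le_mul hl3 hyp (by linarith) (by positivity)
          _ = (nm p : ℝ) * (nm v : ℝ) := by ring

private theorem roughsum_nm_prod {r : ℕ} (f : Fin r → G) : nm (∏ i, f i) = ∏ i, nm (f i) := by
  induction r with
  | zero => simp [nm]
  | succ r ih => rw [Fin.prod_univ_succ, CPS.nm_mul, ih, Fin.prod_univ_succ]

open Classical in
/-- `rough_fac`: with `lam = ∑_(p ∈ CP Y, nm p ≥ Y^a) 1 / nm p ≤ log (1/a) + C` (`CP_sum` with `y' = Y^a / 2` or so; absorb) the elements with `r` prime factors contribute at most `4 lam^r` (4 units), `r ≤ 1 / a`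
(`(Y^a)^r ≤ Y`). (The map (unit, ordered list) → `u` is onto, so the sum over `u` is at most the sum over the lists.) -/
theorem rough_sum (a : ℝ) (ha : 0 < a) (ha1 : a ≤ 1) : ∃ C : ℝ, 0 < C ∧ ∀ Y : ℝ, (2 : ℝ) ^ (2 / a) ≤ Y →
    ∑ u ∈ (ob Y).filter (Rough (Y ^ a)), 1 / (nm u : ℝ) ≤ C := by
  obtain ⟨C0, hC0, hCP⟩ := CP_sum
  set Lam : ℝ := |Real.log (2 / a)| + C0 with hLam
  have hLam0 : 0 ≤ Lam := by positivity
  set R : ℕ := ⌊1 / a⌋₊ with hR
  refine ⟨(ball 1).card * ∑ r ∈ range (R + 1), Lam ^ r + 1, by positivity, fun Y hY => ?_⟩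
  have hY4 : (4 : ℝ) ≤ Y := by
    refine le_trans ?_ hY
    have : (2 : ℝ) ^ (2 : ℝ) ≤ (2 : ℝ) ^ (2 / a) := by
      apply Real.rpow_le_rpow_of_exponent_le (by norm_num)
      rw [le_div_iff₀ ha]
      nlinarith
    have h2 : (2 : ℝ) ^ (2 : ℝ) = 4 := by norm_num
    linarith
  have hY0 : 0 < Y := by linarith
  have hY1 : 1 < Y := by linarith
  have hYa2 : (2 : ℝ) ≤ Y ^ (a / 2) := by
    have h1 : ((2 : ℝ) ^ (2 / a)) ^ (a / 2) ≤ Y ^ (a / 2) :=
      Real.rpow_le_rpow (by positivity) hY (by positivity)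
    rw [← Real.rpow_mul (by norm_num)] at h1
    have h2 : 2 / a * (a / 2) = 1 := by field_simp
    rw [h2, Real.rpow_one] at h1
    exact h1
  have hYsq : Y ^ a = Y ^ (a / 2) * Y ^ (a / 2) := by
    rw [← Real.rpow_add hY0]
    congr 1
    ring
  have hYa4 : (4 : ℝ) ≤ Y ^ a := by rw [hYsq]; nlinarith
  set S : Finset G := (CP Y).filter (fun w => Y ^ a / 2 < (nm w : ℝ)) with hS
  set lam : ℝ := ∑ w ∈ S, 1 / (nm w : ℝ) with hlam
  have hlam0 : 0 ≤ lam := Finset.sum_nonneg fun w _ => by positivity
  have hlamL : lam ≤ Lam := by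
    have h1 := hCP Y (Y ^ a / 2) (by linarith) (by
      have : Y ^ a ≤ Y ^ (1 : ℝ) := Real.rpow_le_rpow_of_exponent_le hY1.le ha1
      rw [Real.rpow_one] at this
      linarith)
    have hlogY : 0 < Real.log Y := Real.log_pos hY1
    have h2 : a / 2 * Real.log Y ≤ Real.log (Y ^ a / 2) := by
      rw [← Real.log_rpow hY0]
      apply Real.log_le_log (by positivity)
      rw [hYsq, le_div_iff₀ (by norm_num)]
      nlinarith
    have h3 : Real.log (a / 2 * Real.log Y) ≤ Real.log (Real.log (Y ^ a / 2)) :=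
      Real.log_le_log (by positivity) h2
    rw [Real.log_mul (by positivity) hlogY.ne'] at h3
    have h4 : Real.log (2 / a) = - Real.log (a / 2) := by
      rw [← Real.log_inv, inv_div]
    have h5 := le_abs_self (Real.log (2 / a))
    rw [hLam]
    linarith
  -- the index set
  let T : Finset (G × (Σ r : ℕ, (Fin r → G))) :=
    (ball 1) ×ˢ ((range (R + 1)).sigma (fun r => Fintype.piFinset (fun _ : Fin r => S)))
  let g : (G × (Σ r : ℕ, (Fin r → G))) → G := fun t => t.1 * ∏ i, t.2.2 i
  have hsec : ∀ u ∈ (ob Y).filter (Rough (Y ^ a)), ∃ t ∈ T, g t = u := by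
    intro u hu
    rw [mem_filter] at hu
    obtain ⟨hu1, hu2⟩ := hu
    rw [ob, mem_filter] at hu1
    obtain ⟨hub, huo⟩ := hu1
    have huY : (nm u : ℝ) ≤ Y := CPS.mem_ball.1 hub
    obtain ⟨e, l, he, hl, hl2, hl3⟩ := rough_fac Y (Y ^ a) (by linarith) u huo huY hu2
    refine ⟨(e, ⟨l.length, fun i => l.get i⟩), ?_, ?_⟩
    · simp only [T, mem_product, mem_sigma, Fintype.mem_piFinset, mem_range]
      refine ⟨CPS.mem_ball.2 (by rw [he]; norm_num), ?_, ?_⟩
      · have h1 : (Y ^ a) ^ l.length ≤ Y := hl3.trans huY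
        rw [← Real.rpow_natCast, ← Real.rpow_mul hY0.le] at h1
        have h2 : a * (l.length : ℝ) ≤ 1 := by
          by_contra hcon
          push Not at hcon
          have : Y ^ (1 : ℝ) < Y ^ (a * (l.length : ℝ)) := Real.rpow_lt_rpow_of_exponent_lt hY1 hcon
          rw [Real.rpow_one] at this
          linarith
        have h3 : (l.length : ℝ) ≤ 1 / a := by
          rw [le_div_iff₀ ha]; linarith
        have h4 : l.length ≤ R := Nat.le_floor h3
        omega
      · intro i
        have h5 := hl2 (l.get i) (List.get_mem l i)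
        rw [hS, mem_filter]
        exact ⟨h5.1, by linarith [h5.2]⟩
    · simp only [g]
      rw [hl, ← List.prod_ofFn]
      congr 1
      simp
  choose! sec hsecT hsecg using hsec
  have hF0 : ∀ z : G, 0 ≤ 1 / (nm z : ℝ) := fun z => by positivity
  have hinj : Set.InjOn sec ((ob Y).filter (Rough (Y ^ a)) : Finset G) := by
    intro u hu v hv h
    rw [← hsecg u hu, ← hsecg v hv, h]
  calc ∑ u ∈ (ob Y).filter (Rough (Y ^ a)), 1 / (nm u : ℝ)
      = ∑ u ∈ (ob Y).filter (Rough (Y ^ a)), 1 / (nm (g (sec u)) : ℝ) := by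
        refine Finset.sum_congr rfl fun u hu => ?_
        rw [hsecg u hu]
    _ = ∑ t ∈ ((ob Y).filter (Rough (Y ^ a))).image sec, 1 / (nm (g t) : ℝ) := by
        rw [Finset.sum_image hinj]
    _ ≤ ∑ t ∈ T, 1 / (nm (g t) : ℝ) := by
        refine Finset.sum_le_sum_of_subset_of_nonneg ?_ fun t _ _ => hF0 _
        intro t ht
        rw [mem_image] at ht
        obtain ⟨u, hu, rfl⟩ := ht
        exact hsecT u hu
    _ ≤ ∑ t ∈ T, ∏ i, 1 / (nm (t.2.2 i) : ℝ) := by
        refine Finset.sum_le_sum fun t ht => ?_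
        simp only [g]
        rw [CPS.nm_mul, roughsum_nm_prod]
        have h1 : nm t.1 ≤ 1 := by
          have := CPS.mem_ball.1 (mem_product.1 ht).1
          exact_mod_cast this
        rw [Finset.prod_div_distrib, Finset.prod_const_one]
        push_cast
        rcases Nat.le_one_iff_eq_zero_or_eq_one.1 h1 with h | h
        · rw [h]
          simp only [Nat.cast_zero, zero_mul, div_zero]
          positivity
        · rw [h]
          simp
    _ = (ball 1).card * ∑ r ∈ range (R + 1), lam ^ r := by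
        rw [Finset.sum_product]
        have hin : ∀ e : G, ∑ s ∈ (range (R + 1)).sigma (fun r => Fintype.piFinset (fun _ : Fin r => S)),
            ∏ i, 1 / (nm ((e, s).2.2 i) : ℝ) = ∑ r ∈ range (R + 1), lam ^ r := by
          intro e
          rw [Finset.sum_sigma]
          refine Finset.sum_congr rfl fun r _ => ?_
          have h1 := Finset.prod_univ_sum (fun _ : Fin r => S) (fun _ w => 1 / (nm w : ℝ))
          rw [Finset.prod_const, Finset.card_univ, Fintype.card_fin] at h1
          exact h1.symm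
        rw [Finset.sum_congr rfl fun e _ => hin e, Finset.sum_const, nsmul_eq_mul]
    _ ≤ (ball 1).card * ∑ r ∈ range (R + 1), Lam ^ r := by
        refine mul_le_mul_of_nonneg_left ?_ (by positivity)
        refine Finset.sum_le_sum fun r _ => ?_
        exact pow_le_pow_left₀ hlam0 hlamL r
    _ ≤ (ball 1).card * ∑ r ∈ range (R + 1), Lam ^ r + 1 := by linarith

end Pool.Agent.ECM
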