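import Pool.Agent.Lib_MP_f1a94e_ecm.Sieve2
import Pool.Agent.Lib_MP_f1a94e_ecm.RoughSum
import Pool.Agent.Lib_MP_f1a94e_ecm.ChiN

/-!
# Piece M-DEF: the deficit on primes
-/

set_option autoImplicit false

namespace Pool.Agent.ECM

open Finset Pool.Agent.GaussMR Pool.Agent.GaussCM Pool.Agent.OmAll

private theorem def_xi_one (k : ℤ) : xi k 1 = 1 := by
  have h1 : xi k 1 = xi k 1 * xi k 1 := by
    rw [← xi_mul, one_mul]
  have h2 : xi k 1 ≠ 0 := xi_ne_zero k one_ne_zero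
  have h3 : xi k 1 * 1 = xi k 1 * xi k 1 := by rw [mul_one]; exact h1
  exact (mul_left_cancel₀ h2 h3).symm

/-- the character -/
private noncomputable def psi (χ : G → ℂ) (k : ℤ) (z : G) : ℂ := χ z * xi k z

private theorem psi_mul {D : ℕ} {χ : G → ℂ} (hχ : Chi D χ) (k : ℤ) (z w : G) :
    psi χ k (z * w) = psi χ k z * psi χ k w := by
  unfold psi
  rw [hχ.mul, xi_mul]
  ring

private theorem psi_one {D : ℕ} {χ : G → ℂ} (hχ : Chi D χ) (k : ℤ) : psi χ k 1 = 1 := by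
  unfold psi
  rw [hχ.one, def_xi_one, one_mul]

private theorem psi_unit {D : ℕ} {χ : G → ℂ} (hχ : Chi D χ) (k : ℤ) (h : psi χ k ii = 1) {e : G}
    (he : nm e = 1) : psi χ k e = 1 := by
  rcases CPS.unit_cases he with ⟨h1, h2⟩ | ⟨h1, h2⟩ | ⟨h1, h2⟩ | ⟨h1, h2⟩
  · have : e = 1 := by apply Zsqrtd.ext <;> simp [h1, h2]
    rw [this, psi_one hχ]
  · have : e = ii * ii := by apply Zsqrtd.ext <;> simp [h1, h2, ii]
    rw [this, psi_mul hχ, h, one_mul]
  · have : e = ii := by apply Zsqrtd.ext <;> simp [h1, h2, ii]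
    rw [this, h]
  · have : e = ii * ii * ii := by apply Zsqrtd.ext <;> simp [h1, h2, ii]
    rw [this, psi_mul hχ, psi_mul hχ, h, one_mul, one_mul]

private theorem psi_le {D : ℕ} {χ : G → ℂ} (hχ : Chi D χ) (k : ℤ) {z : G} (hz : z ≠ 0) : ‖psi χ k z‖ ≤ 1 := by
  unfold psi
  rw [norm_mul, norm_xi k hz, mul_one]
  exact hχ.le z

private theorem phi_nonneg {D : ℕ} {χ : G → ℂ} (hχ : Chi D χ) (k : ℤ) {z : G} (hz : z ≠ 0) :
    0 ≤ 1 - (psi χ k z).re := by
  have h1 := psi_le hχ k hz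
  have h2 := Complex.re_le_norm (psi χ k z)
  linarith

private theorem phi_le {D : ℕ} {χ : G → ℂ} (hχ : Chi D χ) (k : ℤ) {z : G} (hz : z ≠ 0) :
    1 - (psi χ k z).re ≤ 2 := by
  have h1 := psi_le hχ k hz
  have h2 := Complex.abs_re_le_norm (psi χ k z)
  have h3 := (abs_le.1 h2).1
  linarith

private theorem psi_list {D : ℕ} {χ : G → ℂ} (hχ : Chi D χ) (k : ℤ) (l : List G) :
    psi χ k l.prod = (l.map (psi χ k)).prod := by
  induction l with
  | nil => simp [psi_one hχ]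
  | cons a l ih => rw [List.prod_cons, psi_mul hχ, ih, List.map_cons, List.prod_cons]

open Classical in
/-- the canonical primes of norm at least `P` -/
private noncomputable def cpf (Y P : ℝ) : Finset G := (CP Y).filter (fun p => P ≤ (nm p : ℝ))

private theorem mem_cpf {Y P : ℝ} {p : G} : p ∈ cpf Y P ↔ p ∈ CP Y ∧ P ≤ (nm p : ℝ) := by
  classical
  unfold cpf
  rw [mem_filter]

open Classical in
/-- pointwise bound -/
private theorem def_point {D : ℕ} {χ : G → ℂ} (hD : 0 < D) (hχ : Chi D χ) (k : ℤ) (hu1 : psi χ k ii = 1)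
    {a Y : ℝ} (ha : 0 < a) (hY : 1 < Y) (hYD : (D : ℝ) ^ 2 < Y ^ a) {u : G} (hu : Odd (nm u))
    (huY : (nm u : ℝ) ≤ Y) (hr : Rough (Y ^ a) u) :
    1 - (psi χ k u).re ≤ (1 / a) ^ 2 * ∑ p ∈ (cpf Y (Y ^ a)).filter (fun p => p ∣ u), (1 - (psi χ k p).re) := by
  have hYa : 1 < Y ^ a := Real.one_lt_rpow hY ha
  obtain ⟨e, l, he, hul, hl, hlen⟩ := rough_fac Y (Y ^ a) hYa u hu huY hr
  have hlen1 : (l.length : ℝ) ≤ 1 / a := by
    have h1 : Y ^ (a * l.length) ≤ Y ^ (1 : ℝ) := by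
      rw [Real.rpow_mul (by linarith), Real.rpow_natCast, Real.rpow_one]
      exact hlen.trans huY
    have h2 := (Real.rpow_le_rpow_left_iff hY).1 h1
    rw [le_div_iff₀ ha]
    linarith
  have hpr : ∀ p ∈ l, Prime p ∧ Odd (nm p) := by
    intro p hp
    have h1 := CPS.mem_CP.1 (hl p hp).1
    exact ⟨h1.2.1, h1.2.2.1⟩
  have hnorm : ∀ z ∈ l.map (psi χ k), ‖z‖ = 1 := by
    intro z hz
    rw [List.mem_map] at hz
    obtain ⟨p, hp, rfl⟩ := hz
    have h1 := (chi_norm D hD χ hχ p (hpr p hp).1 (lt_of_lt_of_le hYD (hl p hp).2)).2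
    unfold psi
    rw [norm_mul, h1, norm_xi k (hpr p hp).1.ne_zero, one_mul]
  have h1 : psi χ k u = (l.map (psi χ k)).prod := by
    rw [hul, psi_mul hχ, psi_unit hχ k hu1 he, one_mul, psi_list hχ]
  have h2 := one_sub_prod_le (l.map (psi χ k)) hnorm
  rw [List.length_map, List.map_map] at h2
  have h3 : (l.map ((fun z : ℂ => 1 - z.re) ∘ psi χ k)).sum =
      ∑ p ∈ l.toFinset, l.count p • (1 - (psi χ k p).re) := by
    rw [Finset.sum_list_map_count]
    rfl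
  have hsub : l.toFinset ⊆ (cpf Y (Y ^ a)).filter (fun p => p ∣ u) := by
    intro p hp
    rw [List.mem_toFinset] at hp
    rw [mem_filter, mem_cpf]
    refine ⟨hl p hp, ?_⟩
    rw [hul]
    exact Dvd.dvd.mul_left (List.dvd_prod hp) e
  have hnn : ∀ p ∈ (cpf Y (Y ^ a)).filter (fun p => p ∣ u), 0 ≤ 1 - (psi χ k p).re := by
    intro p hp
    rw [mem_filter, mem_cpf] at hp
    exact phi_nonneg hχ k (CPS.mem_CP.1 hp.1.1).2.1.ne_zero
  have h4 : ∑ p ∈ l.toFinset, l.count p • (1 - (psi χ k p).re) ≤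
      l.length * ∑ p ∈ (cpf Y (Y ^ a)).filter (fun p => p ∣ u), (1 - (psi χ k p).re) := by
    calc ∑ p ∈ l.toFinset, l.count p • (1 - (psi χ k p).re) ≤
          ∑ p ∈ l.toFinset, (l.length : ℝ) * (1 - (psi χ k p).re) := by
          apply sum_le_sum
          intro p hp
          rw [nsmul_eq_mul]
          apply mul_le_mul_of_nonneg_right _ (hnn p (hsub hp))
          exact_mod_cast List.count_le_length
      _ = l.length * ∑ p ∈ l.toFinset, (1 - (psi χ k p).re) := by rw [mul_sum]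
      _ ≤ _ := by
          apply mul_le_mul_of_nonneg_left _ (Nat.cast_nonneg _)
          exact sum_le_sum_of_subset_of_nonneg hsub (fun p hp _ => hnn p hp)
  rw [h1]
  set Sg : ℝ := ∑ p ∈ (cpf Y (Y ^ a)).filter (fun p => p ∣ u), (1 - (psi χ k p).re) with hSg
  have hSg0 : 0 ≤ Sg := sum_nonneg hnn
  have hl0 : (0 : ℝ) ≤ l.length := Nat.cast_nonneg _
  calc 1 - ((l.map (psi χ k)).prod).re ≤ l.length * (l.map ((fun z : ℂ => 1 - z.re) ∘ psi χ k)).sum := h2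
    _ ≤ l.length * (l.length * Sg) := by
      apply mul_le_mul_of_nonneg_left _ hl0
      rw [h3]
      exact h4
    _ = (l.length : ℝ) ^ 2 * Sg := by ring
    _ ≤ (1 / a) ^ 2 * Sg := by
      apply mul_le_mul_of_nonneg_right _ hSg0
      exact pow_le_pow_left₀ hl0 hlen1 2

open Classical in
/-- the inert primes -/
private theorem def_inert (Y P : ℝ) (hP : 1 ≤ P) :
    ∑ w ∈ (cpf Y P).filter (fun w => ¬ (nm w).Prime), 1 / (nm w : ℝ) ≤ 2 / Real.sqrt P := by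
  set A3 := (cpf Y P).filter (fun w => ¬ (nm w).Prime) with hA3
  have hs1 : 1 ≤ Real.sqrt P := by rwa [Real.one_le_sqrt]
  have hreal : ∀ w ∈ A3, w.im = 0 ∧ 0 < w.re ∧ (nm w : ℝ) = (w.re.toNat : ℝ) ^ 2 ∧
      Real.sqrt P ≤ (w.re.toNat : ℝ) := by
    intro w hw
    rw [hA3, mem_filter, mem_cpf, CPS.mem_CP] at hw
    obtain ⟨⟨⟨a1, a2, a3, a4, a5⟩, a6⟩, a7⟩ := hw
    have him := CPS.real_of_not_prime a2 a4 a5 a7
    have h4 := nm_eq w
    rw [him] at h4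
    have h5 : ((w.re.toNat : ℕ) : ℤ) = w.re := Int.toNat_of_nonneg a4.le
    have h6 : (nm w : ℤ) = ((w.re.toNat : ℕ) : ℤ) ^ 2 := by rw [h4, h5]; ring
    have h7 : (nm w : ℝ) = (w.re.toNat : ℝ) ^ 2 := by exact_mod_cast h6
    refine ⟨him, a4, h7, ?_⟩
    rw [Real.sqrt_le_left (Nat.cast_nonneg _), ← h7]
    exact a6
  set N := ∑ w ∈ A3, w.re.toNat with hN
  set m : ℕ := ⌈Real.sqrt P⌉₊ with hm
  have hm1 : 1 ≤ m := by
    rw [hm]
    exact Nat.one_le_ceil_iff.2 (by linarith)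
  calc ∑ w ∈ A3, 1 / (nm w : ℝ) = ∑ n ∈ A3.image (fun w : G => w.re.toNat), 1 / (n : ℝ) ^ 2 := by
        rw [sum_image]
        · refine sum_congr rfl fun w hw => ?_
          rw [(hreal w hw).2.2.1]
        · intro w hw w' hw' h
          obtain ⟨b1, b2, _⟩ := hreal w hw
          obtain ⟨c1, c2, _⟩ := hreal w' hw'
          have h' : w.re.toNat = w'.re.toNat := h
          apply Zsqrtd.ext
          · omega
          · rw [b1, c1]
    _ ≤ ∑ n ∈ Ioo (m - 1) (N + 1), 1 / (n : ℝ) ^ 2 := by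
        refine sum_le_sum_of_subset_of_nonneg ?_ fun w _ _ => by positivity
        intro n hn
        rw [mem_image] at hn
        obtain ⟨w, hw, rfl⟩ := hn
        rw [mem_Ioo]
        obtain ⟨b1, b2, b3, b4⟩ := hreal w hw
        have h1 : m ≤ w.re.toNat := Nat.ceil_le.2 b4
        have h2 : w.re.toNat ≤ N := by
          rw [hN]
          exact single_le_sum (f := fun w : G => w.re.toNat) (fun _ _ => Nat.zero_le _) hw
        omega
    _ ≤ 2 / (((m - 1 : ℕ) : ℝ) + 1) := by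
        have h6 := sum_Ioo_inv_sq_le (α := ℝ) (m - 1) (N + 1)
        have h7 : ∑ n ∈ Ioo (m - 1) (N + 1), 1 / (n : ℝ) ^ 2 =
            ∑ n ∈ Ioo (m - 1) (N + 1), ((n : ℝ) ^ 2)⁻¹ :=
          sum_congr rfl fun n _ => one_div _
        rw [h7]
        exact h6
    _ ≤ 2 / Real.sqrt P := by
        have h8 : ((m - 1 : ℕ) : ℝ) + 1 = m := by
          rw [Nat.cast_sub hm1]
          push_cast
          ring
        rw [h8]
        apply div_le_div_of_nonneg_left (by norm_num) (by linarith)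
        exact Nat.le_ceil _

open Classical in
/-- the sum over the canonical primes in terms of the split ones -/
private theorem def_split (φ : G → ℝ) (h0 : ∀ z, z ≠ 0 → 0 ≤ φ z) (h2 : ∀ z, z ≠ 0 → φ z ≤ 2) (Y P P1 : ℝ)
    (hP : 1 ≤ P) (hP1 : P1 < P) :
    ∑ p ∈ cpf Y P, φ p / (nm p : ℝ) ≤ ∑ w ∈ PP P1 Y, (φ w + φ (fl w)) / (nm w : ℝ) + 4 / Real.sqrt P := by
  have hne : ∀ w ∈ PP P1 Y, w ≠ 0 ∧ fl w ≠ 0 := by
    intro w hw
    rw [mem_PP] at hw
    constructor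
    · rintro rfl
      simp at hw
    · intro h
      have h1 := congrArg Zsqrtd.im h
      have h3 := congrArg Zsqrtd.re h
      simp only [fl, Zsqrtd.im_zero, Zsqrtd.re_zero] at h1 h3
      omega
  set A := cpf Y P with hA
  set A1 := A.filter (fun w => (nm w).Prime ∧ w.im < w.re)
  set A2 := A.filter (fun w => (nm w).Prime ∧ ¬ w.im < w.re)
  set A3 := A.filter (fun w => ¬ (nm w).Prime)
  have hsplit : A = A1 ∪ A2 ∪ A3 := by
    ext w
    simp only [A1, A2, A3, mem_union, mem_filter]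
    tauto
  have hAne : ∀ w ∈ A, w ≠ 0 := by
    intro w hw
    rw [hA, mem_cpf, CPS.mem_CP] at hw
    exact hw.1.2.1.ne_zero
  have hnnA : ∀ w ∈ A, 0 ≤ φ w / (nm w : ℝ) := fun w hw =>
    div_nonneg (h0 w (hAne w hw)) (Nat.cast_nonneg _)
  have h1 : ∑ w ∈ A1, φ w / (nm w : ℝ) ≤ ∑ w ∈ PP P1 Y, φ w / (nm w : ℝ) := by
    refine sum_le_sum_of_subset_of_nonneg ?_ fun w hw _ =>
      div_nonneg (h0 w (hne w hw).1) (Nat.cast_nonneg _)
    intro w hw
    simp only [A1, hA, mem_filter, mem_cpf, CPS.mem_CP] at hw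
    obtain ⟨⟨⟨a1, a2, a3, a4, a5⟩, a6⟩, a7, a8⟩ := hw
    rw [mem_PP]
    refine ⟨by linarith, a1, a7, ?_, a8⟩
    rcases a5.lt_or_eq with h | h
    · exact h
    · exfalso
      have h4 := nm_eq w
      rw [← h] at h4
      have h5 : nm w = w.re.natAbs * w.re.natAbs := by
        zify
        rw [h4, abs_mul_abs_self]
        ring
      rw [h5] at a7
      exact Nat.not_prime_mul (a := w.re.natAbs) (b := w.re.natAbs) (fun h => by rw [h] at a7; exact Nat.not_prime_one a7) (fun h => by rw [h] at a7; exact Nat.not_prime_one a7) a7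
  have h2' : ∑ w ∈ A2, φ w / (nm w : ℝ) ≤ ∑ w ∈ PP P1 Y, φ (fl w) / (nm w : ℝ) := by
    calc ∑ w ∈ A2, φ w / (nm w : ℝ) = ∑ w ∈ A2.image fl, φ (fl w) / (nm w : ℝ) := by
          rw [sum_image]
          · refine sum_congr rfl fun w _ => ?_
            rw [nm_fl, fl_fl]
          · intro w _ w' _ h
            rw [← fl_fl w, h, fl_fl]
      _ ≤ ∑ w ∈ PP P1 Y, φ (fl w) / (nm w : ℝ) := by
          refine sum_le_sum_of_subset_of_nonneg ?_ fun w hw _ =>
            div_nonneg (h0 _ (hne w hw).2) (Nat.cast_nonneg _)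
          intro w' hw'
          rw [mem_image] at hw'
          obtain ⟨w, hw, rfl⟩ := hw'
          simp only [A2, hA, mem_filter, mem_cpf, CPS.mem_CP] at hw
          obtain ⟨⟨⟨a1, a2, a3, a4, a5⟩, a6⟩, a7, a8⟩ := hw
          rw [mem_PP, nm_fl]
          refine ⟨by linarith, a1, a7, a4, ?_⟩
          show w.re < w.im
          push Not at a8
          rcases a8.lt_or_eq with h | h
          · exact h
          · exfalso
            have h4 := nm_eq w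
            rw [h] at h4
            obtain ⟨k, hk⟩ := a3
            rw [hk] at h4
            push_cast at h4
            have : (2 : ℤ) * k + 1 = 2 * w.im ^ 2 := by linarith
            omega
  have h3 : ∑ w ∈ A3, φ w / (nm w : ℝ) ≤ 4 / Real.sqrt P := by
    calc ∑ w ∈ A3, φ w / (nm w : ℝ) ≤ ∑ w ∈ A3, 2 * (1 / (nm w : ℝ)) := by
          apply sum_le_sum
          intro w hw
          have hwA : w ∈ A := (mem_filter.1 hw).1
          have h4 := h2 w (hAne w hwA)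
          rw [div_eq_mul_one_div]
          apply mul_le_mul_of_nonneg_right h4
          positivity
      _ = 2 * ∑ w ∈ A3, 1 / (nm w : ℝ) := by rw [mul_sum]
      _ ≤ 2 * (2 / Real.sqrt P) := mul_le_mul_of_nonneg_left (def_inert Y P hP) (by norm_num)
      _ = 4 / Real.sqrt P := by ring
  have h4 : ∑ w ∈ A, φ w / (nm w : ℝ) ≤ ∑ w ∈ A1, φ w / (nm w : ℝ) + ∑ w ∈ A2, φ w / (nm w : ℝ) +
      ∑ w ∈ A3, φ w / (nm w : ℝ) := by
    have e1 := sum_union_inter (s₁ := A1 ∪ A2) (s₂ := A3) (f := fun w : G => φ w / (nm w : ℝ))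
    have e2 := sum_union_inter (s₁ := A1) (s₂ := A2) (f := fun w : G => φ w / (nm w : ℝ))
    rw [← hsplit] at e1
    have e3 : 0 ≤ ∑ w ∈ (A1 ∪ A2) ∩ A3, φ w / (nm w : ℝ) := by
      apply sum_nonneg
      intro w hw
      exact hnnA w (mem_filter.1 (mem_inter.1 hw).2).1
    have e4 : 0 ≤ ∑ w ∈ A1 ∩ A2, φ w / (nm w : ℝ) := by
      apply sum_nonneg
      intro w hw
      exact hnnA w (mem_filter.1 (mem_inter.1 hw).2).1
    linarith
  have h5 : ∑ w ∈ PP P1 Y, (φ w + φ (fl w)) / (nm w : ℝ) =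
      ∑ w ∈ PP P1 Y, φ w / (nm w : ℝ) + ∑ w ∈ PP P1 Y, φ (fl w) / (nm w : ℝ) := by
    rw [← sum_add_distrib]
    apply sum_congr rfl
    intro w _
    rw [add_div]
  rw [h5]
  linarith

/-- `ψ = χ xi k` is completely multiplicative on nonzero elements, `ψ (unit) = 1`. `a, c1` from `sieve2`. `u` in the sum of `sieve2` is `e p_1 ... p_r` (`rough_fac` with `y = Y^a`, `r ≤ 1 / a`), all `p_i` of norm `≥ Y^a > D²`, so `|ψ (p_i)| = 1` and
`1 - Re ψ u ≤ r ∑ (1 - Re ψ (p_i))`, hence `c1 ≤ (1/a)² ∑_(p ∈ CP Y, nm p ≥ Y^a) (1 - Re ψ p) ∑_(u, p ∣ u) 1 / nm u` (multiplicities at most `1 / a`) and `∑_(u rough, p ∣ u) 1 / nm u ≤ (1 / nm p) C` by `rough_sum` (`u = p u'`, `u'` rough, `nm u' ≤ Y`).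
The `p ∈ CP Y` are: inert ones (norm `q²`, `q ≥ Y^(a/2)`): total `≤ C Y^(-a/2)`; and split ones, that is `w` and `fl w` for `w ∈ PP (Y^a) Y` (norm `= Y^a` exactly: at most 2 elements, `O(Y^(-a))`). -/
theorem deficit : ∃ a c : ℝ, 0 < a ∧ a ≤ 1 / 4 ∧ 0 < c ∧ ∀ (D : ℕ) (A : ℝ), 0 < D → 1 ≤ A → ∃ Y0 : ℝ, ∀ Y : ℝ, Y0 ≤ Y →
    ∀ χ : G → ℂ, Chi D χ → ∀ k : ℤ, (k ≠ 0 ∨ ¬ Pri D χ) → |(k : ℝ)| ≤ Y ^ A → χ ii * xi k ii = 1 →
    c ≤ ∑ w ∈ PP (Y ^ a) Y, ((1 - (χ w * xi k w).re) + (1 - (χ (fl w) * xi k (fl w)).re)) / (nm w : ℝ) := by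
  classical
  obtain ⟨a, c1, ha, ha4, hc1, hsieve⟩ := sieve2
  obtain ⟨C, hC, hrough⟩ := rough_sum a ha (by linarith)
  refine ⟨a / 2, c1 * a ^ 2 / (2 * C), by positivity, by linarith, by positivity, ?_⟩
  intro D A hD hA
  obtain ⟨Y0, hY0⟩ := hsieve D A hD hA
  have ev1 : ∀ᶠ Y : ℝ in Filter.atTop, (D : ℝ) ^ 2 < Y ^ a :=
    (tendsto_rpow_atTop ha).eventually_gt_atTop _
  have ev2 : ∀ᶠ Y : ℝ in Filter.atTop, 8 * C / (c1 * a ^ 2) ≤ Real.sqrt (Y ^ a) :=
    (Real.tendsto_sqrt_atTop.comp (tendsto_rpow_atTop ha)).eventually_ge_atTop _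
  obtain ⟨Y1, hY1⟩ := Filter.eventually_atTop.1 (ev1.and ev2)
  refine ⟨max (max Y0 Y1) (max ((2 : ℝ) ^ (2 / a)) 2), ?_⟩
  intro Y hY χ hχ k hk hkY hu1
  have hYY0 : Y0 ≤ Y := ((le_max_left _ _).trans (le_max_left _ _)).trans hY
  have hYY1 : Y1 ≤ Y := ((le_max_right _ _).trans (le_max_left _ _)).trans hY
  have hYY2 : (2 : ℝ) ^ (2 / a) ≤ Y := ((le_max_left _ _).trans (le_max_right _ _)).trans hY
  have hYY3 : 2 ≤ Y := ((le_max_right _ _).trans (le_max_right _ _)).trans hY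
  obtain ⟨hYD, hYs⟩ := hY1 Y hYY1
  have hY1' : 1 < Y := by linarith
  have hY0' : 0 < Y := by linarith
  have hYa : 1 < Y ^ a := Real.one_lt_rpow hY1' ha
  have hu1' : psi χ k ii = 1 := hu1
  set UU := (ob (Y ^ (3 / 4 : ℝ)) \ ob (Y ^ (1 / 2 : ℝ))).filter (Rough (Y ^ a)) with hUU
  set R := (ob Y).filter (Rough (Y ^ a)) with hR
  have hs := hY0 Y hYY0 χ hχ k hk hkY
  have hmemUU : ∀ u ∈ UU, Odd (nm u) ∧ (nm u : ℝ) ≤ Y ∧ Rough (Y ^ a) u := by
    intro u hu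
    rw [hUU, mem_filter, mem_sdiff, mem_ob] at hu
    refine ⟨hu.1.1.2, hu.1.1.1.trans ?_, hu.2⟩
    calc Y ^ (3 / 4 : ℝ) ≤ Y ^ (1 : ℝ) := Real.rpow_le_rpow_of_exponent_le hY1'.le (by norm_num)
      _ = Y := Real.rpow_one Y
  set QQ := cpf Y (Y ^ a) with hQQ
  have hQQne : ∀ p ∈ QQ, p ≠ 0 ∧ Odd (nm p) := by
    intro p hp
    rw [hQQ, mem_cpf, CPS.mem_CP] at hp
    exact ⟨hp.1.2.1.ne_zero, hp.1.2.2.1⟩
  -- the double sum
  have h1 : ∑ u ∈ UU, (1 / (nm u : ℝ)) * (1 - (χ u * xi k u).re) ≤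
      ∑ u ∈ UU, (1 / a) ^ 2 * ∑ p ∈ QQ, (if p ∣ u then (1 - (psi χ k p).re) * (1 / (nm u : ℝ)) else 0) := by
    apply sum_le_sum
    intro u hu
    obtain ⟨hu1, hu2, hu3⟩ := hmemUU u hu
    have h2 := def_point hD hχ k hu1' ha hY1' hYD hu1 hu2 hu3
    have h3 : ∑ p ∈ QQ, (if p ∣ u then (1 - (psi χ k p).re) * (1 / (nm u : ℝ)) else 0) =
        (1 / (nm u : ℝ)) * ∑ p ∈ QQ.filter (fun p => p ∣ u), (1 - (psi χ k p).re) := by
      rw [mul_sum, sum_filter]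
      apply sum_congr rfl
      intro p _
      split_ifs
      · ring
      · rfl
    rw [h3]
    calc (1 / (nm u : ℝ)) * (1 - (χ u * xi k u).re) ≤ (1 / (nm u : ℝ)) * ((1 / a) ^ 2 *
          ∑ p ∈ QQ.filter (fun p => p ∣ u), (1 - (psi χ k p).re)) :=
        mul_le_mul_of_nonneg_left h2 (by positivity)
      _ = _ := by ring
  have h2 : ∑ u ∈ UU, (1 / a) ^ 2 * ∑ p ∈ QQ, (if p ∣ u then (1 - (psi χ k p).re) * (1 / (nm u : ℝ)) else 0) =
      (1 / a) ^ 2 * ∑ p ∈ QQ, (1 - (psi χ k p).re) * ∑ u ∈ UU.filter (fun u => p ∣ u), 1 / (nm u : ℝ) := by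
    rw [← mul_sum, sum_comm]
    congr 1
    apply sum_congr rfl
    intro p _
    rw [mul_sum]
    exact (sum_filter (fun u => p ∣ u) (fun u => (1 - (psi χ k p).re) * (1 / (nm u : ℝ)))).symm
  have h3 : ∀ p ∈ QQ, ∑ u ∈ UU.filter (fun u => p ∣ u), 1 / (nm u : ℝ) ≤ C / (nm p : ℝ) := by
    intro p hp
    obtain ⟨hp0, hpo⟩ := hQQne p hp
    have hsub : UU.filter (fun u => p ∣ u) ⊆ R.image (fun u => p * u) := by
      intro u hu
      rw [mem_filter] at hu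
      obtain ⟨hu1, u', hu2⟩ := hu
      obtain ⟨hu3, hu4, hu5⟩ := hmemUU u hu1
      rw [mem_image]
      refine ⟨u', ?_, hu2.symm⟩
      rw [hR, mem_filter, mem_ob]
      rw [hu2, odd_nm_mul] at hu3
      refine ⟨⟨?_, hu3.2⟩, ?_⟩
      · refine le_trans ?_ hu4
        rw [hu2, nm_mul]
        have h4 : 1 ≤ nm p := nm_pos hp0
        push_cast
        have h5 : (1 : ℝ) ≤ nm p := by exact_mod_cast h4
        have h6 : (0 : ℝ) ≤ nm u' := Nat.cast_nonneg _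
        nlinarith
      · intro q hq hqu
        apply hu5 q hq
        rw [hu2]
        exact Dvd.dvd.mul_left hqu p
    calc ∑ u ∈ UU.filter (fun u => p ∣ u), 1 / (nm u : ℝ) ≤ ∑ u ∈ R.image (fun u => p * u), 1 / (nm u : ℝ) :=
          sum_le_sum_of_subset_of_nonneg hsub (fun u _ _ => by positivity)
      _ = ∑ u ∈ R, 1 / (nm (p * u) : ℝ) := by
          rw [sum_image]
          intro u _ v _ h
          exact mul_left_cancel₀ hp0 h
      _ = (1 / (nm p : ℝ)) * ∑ u ∈ R, 1 / (nm u : ℝ) := by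
          rw [mul_sum]
          apply sum_congr rfl
          intro u _
          rw [nm_mul]
          push_cast
          rw [one_div_mul_one_div]
      _ ≤ (1 / (nm p : ℝ)) * C := mul_le_mul_of_nonneg_left (hrough Y hYY2) (by positivity)
      _ = C / (nm p : ℝ) := by ring
  have h4 : ∑ p ∈ QQ, (1 - (psi χ k p).re) * ∑ u ∈ UU.filter (fun u => p ∣ u), 1 / (nm u : ℝ) ≤
      C * ∑ p ∈ QQ, (1 - (psi χ k p).re) / (nm p : ℝ) := by
    rw [mul_sum]
    apply sum_le_sum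
    intro p hp
    calc (1 - (psi χ k p).re) * ∑ u ∈ UU.filter (fun u => p ∣ u), 1 / (nm u : ℝ) ≤
          (1 - (psi χ k p).re) * (C / (nm p : ℝ)) :=
        mul_le_mul_of_nonneg_left (h3 p hp) (phi_nonneg hχ k (hQQne p hp).1)
      _ = _ := by ring
  have h5 := def_split (fun z => 1 - (psi χ k z).re) (fun z hz => phi_nonneg hχ k hz)
    (fun z hz => phi_le hχ k hz) Y (Y ^ a) (Y ^ (a / 2)) hYa.le
    (Real.rpow_lt_rpow_of_exponent_lt hY1' (by linarith))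
  set S : ℝ := ∑ w ∈ PP (Y ^ (a / 2)) Y, ((1 - (psi χ k w).re) + (1 - (psi χ k (fl w)).re)) / (nm w : ℝ)
    with hS
  show c1 * a ^ 2 / (2 * C) ≤ S
  have h6 : c1 ≤ (1 / a) ^ 2 * (C * (S + 4 / Real.sqrt (Y ^ a))) := by
    calc c1 ≤ _ := hs
      _ ≤ _ := h1
      _ = _ := h2
      _ ≤ (1 / a) ^ 2 * (C * ∑ p ∈ QQ, (1 - (psi χ k p).re) / (nm p : ℝ)) :=
        mul_le_mul_of_nonneg_left h4 (by positivity)
      _ ≤ _ := by
        apply mul_le_mul_of_nonneg_left _ (by positivity)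
        exact mul_le_mul_of_nonneg_left h5 hC.le
  have hsq : 0 < Real.sqrt (Y ^ a) := Real.sqrt_pos.2 (by linarith)
  have h7 : 4 / Real.sqrt (Y ^ a) ≤ c1 * a ^ 2 / (2 * C) := by
    rw [div_le_iff₀ (by positivity)] at hYs
    rw [div_le_div_iff₀ hsq (by positivity)]
    nlinarith
  have h8 : c1 * a ^ 2 / C ≤ S + 4 / Real.sqrt (Y ^ a) := by
    rw [div_le_iff₀ hC]
    have h9 : (1 / a) ^ 2 * (C * (S + 4 / Real.sqrt (Y ^ a))) * a ^ 2 =
        (S + 4 / Real.sqrt (Y ^ a)) * C := by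
      field_simp
    rw [← h9]
    exact mul_le_mul_of_nonneg_right h6 (sq_nonneg a)
  have h9 : c1 * a ^ 2 / C = c1 * a ^ 2 / (2 * C) + c1 * a ^ 2 / (2 * C) := by
    field_simp
    ring
  linarith

end Pool.Agent.ECM
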