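import Pool.Agent.Lib_MP_f1a94e_ecm.MDefs

/-!
# Piece M-FEWA: simple facts
-/

set_option autoImplicit false

namespace Pool.Agent.ECM

open Finset Pool.Agent.GaussMR Pool.Agent.GaussCM Pool.Agent.OmAll

/-- `FL χ` is completely multiplicative on the odd elements (`Ω (a b) = Ω a + Ω b` for `a, b ≠ 0`). -/
theorem cm_FL (D : ℕ) (χ : G → ℂ) (hχ : Chi D χ) : CM (FL χ) := by
  constructor
  · intro z w hz hw
    have h1 : nm z ≠ 0 := (nm_pos_of_odd hz).ne'
    have h2 : nm w ≠ 0 := (nm_pos_of_odd hw).ne'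
    simp only [FL]
    rw [nm_mul, ArithmeticFunction.cardFactors_mul h1 h2, hχ.mul, pow_add]
    ring
  · intro z _
    simp only [FL]
    rw [norm_mul, norm_pow, norm_neg, norm_one, one_pow, one_mul]
    exact hχ.le z

private theorem fewA_prim_ii {z : G} (h : Prim z) : Prim (ii * z) := by
  have h1 : (ii * z).re = - z.im := by simp [ii]
  have h2 : (ii * z).im = z.re := by simp [ii]
  unfold Prim at h ⊢
  rw [h1, h2]
  exact (h.symm).neg_left

private theorem fewA_mem_ii {X : ℝ} {z : G} (h : z ∈ V X) : ii * z ∈ V X := by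
  rw [mem_V] at h ⊢
  rw [nm_mul, nm_ii, one_mul]
  exact ⟨h.1, h.2.1, fewA_prim_ii h.2.2⟩

/-- The coefficient vanishes unless `F ii * xi (-k) ii = 1`: the map `z ↦ ii * z` permutes `V X` and multiplies `F z xi (-k) z` by `F ii * xi (-k) ii`. -/
theorem fc_unit (F : G → ℂ) (hF : CM F) (X : ℝ) (k : ℤ) (h : F ii * xi (-k) ii ≠ 1) : fcC F X k = 0 := by
  have hii : Odd (nm ii) := by rw [nm_ii]; exact odd_one
  have key : fcC F X k = (F ii * xi (-k) ii) * fcC F X k := by
    conv_lhs => unfold fcC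
    unfold fcC
    rw [Finset.mul_sum]
    symm
    refine Finset.sum_bij (fun z _ => ii * z) ?_ ?_ ?_ ?_
    · intro z hz
      exact fewA_mem_ii hz
    · intro z _ w _ hzw
      have hne : ii ≠ 0 := ne_zero_of_odd hii
      exact mul_left_cancel₀ hne hzw
    · intro z hz
      refine ⟨ii * (ii * (ii * z)), fewA_mem_ii (fewA_mem_ii (fewA_mem_ii hz)), ?_⟩
      have : ii * (ii * (ii * ii)) = 1 := by
        apply Zsqrtd.ext <;> simp [ii]
      calc ii * (ii * (ii * (ii * z))) = (ii * (ii * (ii * ii))) * z := by ring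
        _ = z := by rw [this, one_mul]
    · intro z hz
      have hz' := (mem_V.1 hz).2.1
      rw [hF.mul ii z hii hz', xi_mul]
      ring
  have h2 : (1 - F ii * xi (-k) ii) * fcC F X k = 0 := by
    rw [sub_mul, one_mul, ← key, sub_self]
  rcases mul_eq_zero.1 h2 with h3 | h3
  · exact absurd (sub_eq_zero.1 h3).symm h
  · exact h3

/-- Conjugation: `F* z = F (star z)`: `fcC F* X (-k) = fcC F X k` (`star` permutes `V X`, `xi k (star z) = xi (-k) z`). -/
theorem fc_star (F : G → ℂ) (X : ℝ) (k : ℤ) : fcC (fun z => F (star z)) X (-k) = fcC F X k := by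
  unfold fcC
  refine Finset.sum_bij (fun z _ => star z) ?_ ?_ ?_ ?_
  · intro z hz
    exact mem_V_star.2 hz
  · intro z _ w _ hzw
    exact star_injective hzw
  · intro z hz
    exact ⟨star z, mem_V_star.2 hz, star_star z⟩
  · intro z hz
    rw [xi_star _ (V_ne_zero hz)]

end Pool.Agent.ECM
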