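import Pool.Agent.Lib_MP_f1a94e_ecm.ChiN
import Pool.Agent.Lib_MP_f1a94e_mr.StageId

/-!
# Piece M-RANGE2: the deficit of a block
-/

set_option autoImplicit false

namespace Pool.Agent.ECM

open Finset Pool.Agent.GaussMR Pool.Agent.GaussCM Pool.Agent.OmAll

/-- the prime polynomial of a block with both primes above `p`, divided by twice the number of elements -/
noncomputable def tb (F : G → ℂ) (P Q ρ : ℝ) (v : ℕ) (k : ℤ) : ℝ :=
  ‖∑ w ∈ blk P Q ρ v, (F w * xi (-k) w + F (star w) * xi (-k) (star w))‖ / (2 * (blk P Q ρ v).card)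

private theorem rangeB_abs (s : Finset G) (hs : s.Nonempty) (f g : G → ℂ) (hf : ∀ w ∈ s, ‖f w‖ = 1) (hg : ∀ w ∈ s, ‖g w‖ = 1) :
    ∑ w ∈ s, (1 - (f w * (starRingEnd ℂ) (g w)).re) ≤ 2 * (s.card : ℝ) * (1 - (‖∑ w ∈ s, (f w + g w)‖ / (2 * s.card)) ^ 2) ∧
    0 ≤ 1 - (‖∑ w ∈ s, (f w + g w)‖ / (2 * s.card)) ^ 2 := by
  have hn : (0 : ℝ) < s.card := by exact_mod_cast hs.card_pos
  have h1 : ‖∑ w ∈ s, (f w + g w)‖ ^ 2 ≤ (s.card : ℝ) * ∑ w ∈ s, ‖f w + g w‖ ^ 2 := by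
    calc ‖∑ w ∈ s, (f w + g w)‖ ^ 2 ≤ (∑ w ∈ s, ‖f w + g w‖) ^ 2 := by
          gcongr
          exact norm_sum_le _ _
      _ ≤ (s.card : ℝ) * ∑ w ∈ s, ‖f w + g w‖ ^ 2 := sq_sum_le_card_mul_sum_sq
  have h2 : ∀ w ∈ s, ‖f w + g w‖ ^ 2 = 2 + 2 * (f w * (starRingEnd ℂ) (g w)).re := by
    intro w hw
    have e1 : ‖f w‖ ^ 2 = 1 := by rw [hf w hw]; norm_num
    have e2 : ‖g w‖ ^ 2 = 1 := by rw [hg w hw]; norm_num
    rw [← Complex.normSq_eq_norm_sq] at e1 e2 ⊢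
    rw [Complex.normSq_add, e1, e2]
    ring
  have h1' : ∑ w ∈ s, ‖f w + g w‖ ^ 2 = 2 * (s.card : ℝ) + 2 * ∑ w ∈ s, (f w * (starRingEnd ℂ) (g w)).re := by
    rw [Finset.sum_congr rfl h2, Finset.sum_add_distrib, ← Finset.mul_sum, Finset.sum_const, nsmul_eq_mul]
    ring
  rw [h1'] at h1
  rw [Finset.sum_sub_distrib, Finset.sum_const, nsmul_eq_mul, mul_one]
  set R := ∑ w ∈ s, (f w * (starRingEnd ℂ) (g w)).re with hR
  set S := ‖∑ w ∈ s, (f w + g w)‖ with hS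
  set n : ℝ := (s.card : ℝ) with hn'
  have h3 : S ≤ 2 * n := by
    calc S ≤ ∑ w ∈ s, ‖f w + g w‖ := norm_sum_le _ _
      _ ≤ ∑ w ∈ s, (2 : ℝ) := by
          refine Finset.sum_le_sum fun w hw => ?_
          calc ‖f w + g w‖ ≤ ‖f w‖ + ‖g w‖ := norm_add_le _ _
            _ = 2 := by rw [hf w hw, hg w hw]; norm_num
      _ = 2 * n := by rw [Finset.sum_const, nsmul_eq_mul]; ring
  have hS0 : 0 ≤ S := norm_nonneg _
  constructor
  · have h4 : (S / (2 * n)) ^ 2 = S ^ 2 / (4 * n ^ 2) := by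
      rw [div_pow]; ring
    rw [h4]
    have h5 : 2 * n * (1 - S ^ 2 / (4 * n ^ 2)) = 2 * n - S ^ 2 / (2 * n) := by
      field_simp
      ring
    rw [h5]
    have h6 : S ^ 2 / (2 * n) ≤ n + R := by
      rw [div_le_iff₀ (by positivity)]
      nlinarith
    linarith
  · have h4 : S / (2 * n) ≤ 1 := by
      rw [div_le_one (by positivity)]
      exact h3
    have h5 : 0 ≤ S / (2 * n) := by positivity
    nlinarith

private theorem rangeB_star {w : G} (h : Spl w) : Spl (star w) := by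
  unfold Spl at h ⊢
  rw [nm_star]
  exact h

/-- One block. `F = FL χ`, `f = F xi_(-k)`, `F ii * xi (-k) ii = 1`, all `w ∈ blk` have `|f w| = 1` (norm larger than `D`). `f (star w) = f (fl w)` (`fl w = ii * star w`). Let `n = card`, `μ` = mean of the `2 n` numbers `f w`, `f (fl w)`, `|μ| = tb`. Then
`∑_w (|f w - μ|² + |f (fl w) - μ|²) = 2 n (1 - tb²)` and `|f w - f (fl w)|² ≤ 2 |f w - μ|² + 2 |f (fl w) - μ|²`, so `∑_w |f w - f (fl w)|² ≤ 4 n (1 - tb²)`. And `|f w - f (fl w)|² = 2 (1 - Re (f w conj (f (fl w))))`,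
`f w * conj (f (fl w)) = f w * conj (f (star w)) = χ w conj (χ (star w)) xi (-2k) w = χ' w * xi (-2k) w`, `χ' z = χ z * conj (χ (star z))` (the signs `(-1)^Ω` cancel, `xi (-k) (star w) = conj (xi (-k) w)`). With `1 / nm w ≤ exp (-v ρ)` and `n ≤ exp ((v+1) ρ) ∑_w 1 / nm w`:
`∑_w (1 - Re (χ' w xi (-2k) w)) / nm w ≤ exp (-v ρ) * 2 n (1 - tb²) ≤ 2 exp ρ (∑_w 1 / nm w) (1 - tb²)`. -/
theorem block_deficit (D : ℕ) (hD : 0 < D) (χ : G → ℂ) (hχ : Chi D χ) (k : ℤ) (hk : FL χ ii * xi (-k) ii = 1) (P Q ρ : ℝ) (hρ : 0 < ρ) (hP : (D : ℝ) ^ 2 ≤ P) (v : ℕ) :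
    ∑ w ∈ blk P Q ρ v, (1 - (χ w * (starRingEnd ℂ) (χ (star w)) * xi (-(2 * k)) w).re) / (nm w : ℝ) ≤
      2 * Real.exp ρ * ((∑ w ∈ blk P Q ρ v, 1 / (nm w : ℝ)) * (1 - tb (FL χ) P Q ρ v k ^ 2)) := by
  rcases (blk P Q ρ v).eq_empty_or_nonempty with hE | hne
  · rw [hE]; simp
  set s := blk P Q ρ v with hs
  set f : G → ℂ := fun w => FL χ w * xi (-k) w with hf
  set g : G → ℂ := fun w => FL χ (star w) * xi (-k) (star w) with hg
  have hmem : ∀ w ∈ s, Spl w ∧ (D : ℝ) ^ 2 < nm w ∧ Real.exp (v * ρ) < (nm w : ℝ) ∧ (nm w : ℝ) ≤ Real.exp ((v + 1) * ρ) := by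
    intro w hw
    have h1 := mem_blk.mp hw
    exact ⟨PP_spl h1.1, hP.trans_lt (mem_PP.mp h1.1).1, h1.2.1, h1.2.2⟩
  have hFLn : ∀ w : G, Prime w → (D : ℝ) ^ 2 < nm w → ‖FL χ w‖ = 1 := by
    intro w hw hd
    simp only [FL]
    rw [norm_mul, norm_pow, norm_neg, norm_one, one_pow, one_mul]
    exact (chi_norm D hD χ hχ w hw hd).2
  have hf1 : ∀ w ∈ s, ‖f w‖ = 1 := by
    intro w hw
    obtain ⟨h1, h2, -, -⟩ := hmem w hw
    simp only [hf]
    rw [norm_mul, hFLn w h1.prime h2, norm_xi _ h1.prime.ne_zero, one_mul]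
  have hg1 : ∀ w ∈ s, ‖g w‖ = 1 := by
    intro w hw
    obtain ⟨h1, h2, -, -⟩ := hmem w hw
    have h3 : Prime (star w) := (rangeB_star h1).prime
    simp only [hg]
    rw [norm_mul, hFLn (star w) h3 (by rw [nm_star]; exact h2), norm_xi _ h3.ne_zero, one_mul]
  obtain ⟨hA, hB⟩ := rangeB_abs s hne f g hf1 hg1
  have htb : tb (FL χ) P Q ρ v k = ‖∑ w ∈ s, (f w + g w)‖ / (2 * s.card) := rfl
  rw [← htb] at hA hB
  have hfg : ∀ w ∈ s, f w * (starRingEnd ℂ) (g w) = χ w * (starRingEnd ℂ) (χ (star w)) * xi (-(2 * k)) w := by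
    intro w hw
    have h0 : w ≠ 0 := (hmem w hw).1.prime.ne_zero
    simp only [hf, hg, FL]
    rw [nm_star, map_mul, map_mul, map_pow, map_neg, map_one, xi_star _ h0, neg_neg, conj_xi _ h0]
    have e1 : xi (-(2 * k)) w = xi (-k) w * xi (-k) w := by
      rw [← xi_add _ _ h0]
      congr 1
      ring
    rw [e1]
    have e2 : ((-1 : ℂ) ^ ArithmeticFunction.cardFactors (nm w)) * ((-1 : ℂ) ^ ArithmeticFunction.cardFactors (nm w)) = 1 := by
      rw [← mul_pow]; norm_num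
    linear_combination (χ w * (starRingEnd ℂ) (χ (star w)) * (xi (-k) w * xi (-k) w)) * e2
  have hterm : ∀ w ∈ s, (1 - (χ w * (starRingEnd ℂ) (χ (star w)) * xi (-(2 * k)) w).re) / (nm w : ℝ) ≤
      Real.exp (-(v * ρ)) * (1 - (f w * (starRingEnd ℂ) (g w)).re) := by
    intro w hw
    rw [hfg w hw]
    obtain ⟨-, -, h3, -⟩ := hmem w hw
    have h4 : 0 ≤ 1 - (χ w * (starRingEnd ℂ) (χ (star w)) * xi (-(2 * k)) w).re := by
      rw [← hfg w hw]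
      have h5 : (f w * (starRingEnd ℂ) (g w)).re ≤ ‖f w * (starRingEnd ℂ) (g w)‖ := Complex.re_le_norm _
      rw [norm_mul, RCLike.norm_conj, hf1 w hw, hg1 w hw] at h5
      linarith
    have h5 : (0 : ℝ) < nm w := (Real.exp_pos _).trans h3
    have h6 : 1 / (nm w : ℝ) ≤ Real.exp (-(v * ρ)) := by
      rw [Real.exp_neg, one_div]
      exact inv_anti₀ (Real.exp_pos _) h3.le
    calc (1 - (χ w * (starRingEnd ℂ) (χ (star w)) * xi (-(2 * k)) w).re) / (nm w : ℝ)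
        = (1 / (nm w : ℝ)) * (1 - (χ w * (starRingEnd ℂ) (χ (star w)) * xi (-(2 * k)) w).re) := by ring
      _ ≤ _ := mul_le_mul_of_nonneg_right h6 h4
  have hcard : (s.card : ℝ) ≤ Real.exp ((v + 1) * ρ) * ∑ w ∈ s, 1 / (nm w : ℝ) := by
    rw [Finset.mul_sum]
    calc (s.card : ℝ) = ∑ w ∈ s, (1 : ℝ) := by simp
      _ ≤ ∑ w ∈ s, Real.exp ((v + 1) * ρ) * (1 / (nm w : ℝ)) := by
          refine Finset.sum_le_sum fun w hw => ?_
          obtain ⟨-, -, h3, h4⟩ := hmem w hw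
          have h5 : (0 : ℝ) < nm w := (Real.exp_pos _).trans h3
          rw [mul_one_div, le_div_iff₀ h5, one_mul]
          exact h4
  calc ∑ w ∈ s, (1 - (χ w * (starRingEnd ℂ) (χ (star w)) * xi (-(2 * k)) w).re) / (nm w : ℝ)
      ≤ ∑ w ∈ s, Real.exp (-(v * ρ)) * (1 - (f w * (starRingEnd ℂ) (g w)).re) := Finset.sum_le_sum hterm
    _ = Real.exp (-(v * ρ)) * ∑ w ∈ s, (1 - (f w * (starRingEnd ℂ) (g w)).re) := by rw [Finset.mul_sum]
    _ ≤ Real.exp (-(v * ρ)) * (2 * (s.card : ℝ) * (1 - tb (FL χ) P Q ρ v k ^ 2)) :=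
        mul_le_mul_of_nonneg_left hA (Real.exp_pos _).le
    _ ≤ Real.exp (-(v * ρ)) * (2 * (Real.exp ((v + 1) * ρ) * ∑ w ∈ s, 1 / (nm w : ℝ)) * (1 - tb (FL χ) P Q ρ v k ^ 2)) := by
        gcongr
    _ = _ := by
        have e1 : Real.exp ρ = Real.exp (-(v * ρ)) * Real.exp ((v + 1) * ρ) := by
          rw [← Real.exp_add]
          congr 1
          ring
        rw [e1]
        ring

end Pool.Agent.ECM
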