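import Pool.Agent.Lib_MP_f1a94e_ecm.RangeA
import Pool.Agent.Lib_MP_f1a94e_ecm.RangeB

/-!
# Piece M-RANGE3: prime polynomials of `FL χ` are not large on a long range
-/

set_option autoImplicit false

namespace Pool.Agent.ECM

open Finset Pool.Agent.GaussMR Pool.Agent.GaussCM Pool.Agent.OmAll

/-- the character `χ z conj (χ (star z))` -/
private noncomputable def rangeChi (χ : G → ℂ) (z : G) : ℂ := χ z * (starRingEnd ℂ) (χ (star z))

private theorem rangeChi_chi {D : ℕ} {χ : G → ℂ} (hχ : Chi D χ) : Chi D (rangeChi χ) := by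
  constructor
  · simp [rangeChi, hχ.one]
  · intro z w
    simp only [rangeChi]
    rw [hχ.mul, star_mul, hχ.mul, map_mul]
    ring
  · intro z w h
    simp only [rangeChi]
    rw [hχ.per z w h]
    have h2 : cg D (star z) (star w) := by
      refine ⟨?_, ?_⟩
      · simpa using h.1
      · rw [Zsqrtd.im_star, Zsqrtd.im_star]
        have := h.2
        have e : -z.im - -w.im = -(z.im - w.im) := by ring
        rw [e]
        exact (dvd_neg).2 this
    rw [hχ.per _ _ h2]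
  · intro z h
    simp only [rangeChi]
    rw [hχ.even z h, zero_mul]
  · intro z
    simp only [rangeChi]
    rw [norm_mul, RCLike.norm_conj]
    exact mul_le_one₀ (hχ.le z) (norm_nonneg _) (hχ.le _)

private theorem range_ii4 : ii * (ii * (ii * ii)) = 1 := by
  apply Zsqrtd.ext <;> simp [ii]

private theorem range_star_ii : star ii = ii * (ii * ii) := by
  apply Zsqrtd.ext <;> simp [ii]

private theorem range_ii_ne : ii ≠ 0 := by
  intro h
  have := congrArg Zsqrtd.im h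
  simp [ii] at this

private theorem range_ii {D : ℕ} {χ : G → ℂ} (hχ : Chi D χ) (k : ℤ) (h : FL χ ii * xi (-k) ii = 1) :
    rangeChi χ ii * xi (-(2 * k)) ii = 1 := by
  have h1 : FL χ ii = χ ii := by
    simp only [FL]
    rw [nm_ii]
    simp
  rw [h1] at h
  have hu4 : χ ii * (χ ii * (χ ii * χ ii)) = 1 := by
    rw [← hχ.mul, ← hχ.mul, ← hχ.mul, range_ii4, hχ.one]
  have hst : χ (star ii) = χ ii * (χ ii * χ ii) := by
    rw [range_star_ii, hχ.mul, hχ.mul]
  have hnorm : ‖χ ii‖ = 1 := by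
    have h2 : ‖χ ii * xi (-k) ii‖ = 1 := by rw [h, norm_one]
    rw [norm_mul, norm_xi _ range_ii_ne, mul_one] at h2
    exact h2
  have hconj : (starRingEnd ℂ) (χ ii) * χ ii = 1 := by
    have := Complex.normSq_eq_conj_mul_self (z := χ ii)
    rw [← this, Complex.normSq_eq_norm_sq, hnorm]
    norm_num
  have hc4 : (starRingEnd ℂ) (χ ii) * ((starRingEnd ℂ) (χ ii) * ((starRingEnd ℂ) (χ ii) * (starRingEnd ℂ) (χ ii))) = 1 := by
    have := congrArg (starRingEnd ℂ) hu4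
    simpa [map_mul] using this
  have hx2 : xi (-(2 * k)) ii = xi (-k) ii * xi (-k) ii := by
    rw [← xi_add _ _ range_ii_ne]
    congr 1
    ring
  simp only [rangeChi]
  rw [hst, hx2, map_mul, map_mul]
  set u := χ ii with hu
  set cu := (starRingEnd ℂ) u with hcu
  set x := xi (-k) ii with hx
  -- cu^3 = u
  have h3 : cu * (cu * cu) = u := by
    calc cu * (cu * cu) = (cu * (cu * (cu * cu))) * u * 1 - (cu * (cu * cu)) * (cu * u - 1) := by ring
      _ = u := by rw [hc4, hconj]; ring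
  rw [h3]
  calc u * u * (x * x) = (u * x) * (u * x) := by ring
    _ = 1 := by rw [h]; ring

private theorem range_fl_re {D : ℕ} {χ : G → ℂ} (hχ : Chi D χ) (k : ℤ) (h : FL χ ii * xi (-k) ii = 1) {w : G} (hw : w ≠ 0) :
    (rangeChi χ (fl w) * xi (-(2 * k)) (fl w)).re = (rangeChi χ w * xi (-(2 * k)) w).re := by
  have h1 := range_ii hχ k h
  have hχ' := rangeChi_chi hχ
  have h2 : rangeChi χ (fl w) * xi (-(2 * k)) (fl w) = (starRingEnd ℂ) (rangeChi χ w * xi (-(2 * k)) w) := by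
    rw [fl_eq, hχ'.mul, xi_mul, map_mul, conj_xi _ hw, ← xi_star _ hw]
    have h3 : rangeChi χ (star w) = (starRingEnd ℂ) (rangeChi χ w) := by
      simp only [rangeChi, star_star, map_mul, Complex.conj_conj]
      ring
    rw [h3]
    linear_combination ((starRingEnd ℂ) (rangeChi χ w) * xi (-(2 * k)) (star w)) * h1
  rw [h2, Complex.conj_re]

private theorem range_sum_blk (P Q ρ : ℝ) (hP : 1 ≤ P) (hρ : 0 < ρ) (t : G → ℝ) :
    ∑ v ∈ range (nv Q ρ), ∑ w ∈ blk P Q ρ v, t w = ∑ w ∈ PP P Q, t w := by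
  classical
  rw [← Finset.sum_biUnion]
  · refine Finset.sum_congr ?_ fun _ _ => rfl
    ext w
    rw [Finset.mem_biUnion]
    constructor
    · rintro ⟨v, _, hw⟩
      exact (mem_blk.mp hw).1
    · intro hw
      obtain ⟨v, hv, hw'⟩ := blk_exists hP hρ hw
      exact ⟨v, hv, hw'⟩
  · intro v _ v' _ hvv
    rw [Function.onFun, Finset.disjoint_left]
    intro w hw hw'
    exact hvv (blk_unique hρ hw hw')

/-- `χ' z = χ z * conj (χ (star z))` is a character modulo `D` (`Chi D χ'`), `χ' ii * xi (-2k) ii = χ(i)² (-1)^k = 1` because `χ i * (-i)^k = 1`. `deficit_range` for `χ'`, `-2k ≠ 0`, with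
`χ' (fl w) xi (-2k) (fl w) = conj (χ' w xi (-2k) w)` (so both terms have the same real part): `∑_(w ∈ PP) (1 - Re ..) / nm w ≥ (c/2) log (e/e')`. Sum `block_deficit` over `v < nv (X^e) ρ` (the blocks partition `PP`, `blk_exists`, `blk_unique`):
`∑_v W_v (1 - tb²) ≥ (c / (4 exp ρ)) log (e/e')`, `W_v = ∑_(blk v) 1 / nm w`, and `∑ W_v = Ls (X^e') (X^e) ≤ log (e/e') / 2 + C ≤ log (e/e')` (`Ls_bounds`). -/
theorem range_def : ∃ c L0 : ℝ, 0 < c ∧ c < 1 ∧ 0 < L0 ∧ ∀ (D : ℕ) (e' e : ℝ), 0 < D → 0 < e' → e' < e → e ≤ 1 → L0 ≤ Real.log (e / e') →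
    ∃ X0 : ℝ, ∀ X : ℝ, X0 ≤ X → ∀ χ : G → ℂ, Chi D χ → ∀ k : ℤ, k ≠ 0 → |(k : ℝ)| ≤ X → FL χ ii * xi (-k) ii = 1 →
    ∀ ρ : ℝ, 0 < ρ → ρ ≤ 1 →
    ∑ v ∈ range (nv (X ^ e) ρ), (∑ w ∈ blk (X ^ e') (X ^ e) ρ v, 1 / (nm w : ℝ)) * tb (FL χ) (X ^ e') (X ^ e) ρ v k ^ 2 ≤
      (1 - c) * Ls (X ^ e') (X ^ e) := by
  classical
  obtain ⟨c0, L00, hc0, hL00, hrange⟩ := deficit_range
  obtain ⟨C, hC⟩ := Ls_bounds
  set c : ℝ := min (c0 / (4 * Real.exp 1)) (1 / 2) with hc
  have hcpos : 0 < c := lt_min (by positivity) (by norm_num)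
  have hc1 : c < 1 := (min_le_right _ _).trans_lt (by norm_num)
  refine ⟨c, max L00 (2 * |C|), hcpos, hc1, lt_max_of_lt_left hL00, ?_⟩
  intro D e' e hD he' hee he1 hL
  have he : 0 < e := he'.trans hee
  have hL1 : L00 ≤ Real.log (e / e') := (le_max_left _ _).trans hL
  have hL2 : 2 * |C| ≤ Real.log (e / e') := (le_max_right _ _).trans hL
  obtain ⟨X0, hX0⟩ := hrange D e' e hD he' hee he1 hL1
  have htend : Filter.Tendsto (fun X : ℝ => X ^ e') Filter.atTop Filter.atTop := tendsto_rpow_atTop he'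
  obtain ⟨X1, hX1⟩ := (Filter.tendsto_atTop_atTop.1 htend) (max ((D : ℝ) ^ 2) 2)
  refine ⟨max X0 (max X1 2), ?_⟩
  intro X hX χ hχ k hk hkX hkii ρ hρ hρ1
  have hXX0 : X0 ≤ X := (le_max_left _ _).trans hX
  have hXX1 : X1 ≤ X := (le_max_left _ _).trans ((le_max_right _ _).trans hX)
  have hX2 : (2 : ℝ) ≤ X := (le_max_right _ _).trans ((le_max_right _ _).trans hX)
  have hX1' : (1 : ℝ) ≤ X := by linarith
  have hXpos : (0 : ℝ) < X := by linarith
  have hPD : (D : ℝ) ^ 2 ≤ X ^ e' := (le_max_left _ _).trans (hX1 X hXX1)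
  have hP2 : (2 : ℝ) ≤ X ^ e' := (le_max_right _ _).trans (hX1 X hXX1)
  have hPQ : X ^ e' ≤ X ^ e := Real.rpow_le_rpow_of_exponent_le hX1' hee.le
  -- the deficit of the range
  have hdef := hX0 X hXX0 (rangeChi χ) (rangeChi_chi hχ) (-(2 * k)) (Or.inl (by omega)) (by
    push_cast
    rw [abs_neg, abs_mul]
    have : |(2 : ℝ)| = 2 := by norm_num
    rw [this]
    linarith) (range_ii hχ k hkii)
  set h : G → ℝ := fun w => (1 - (rangeChi χ w * xi (-(2 * k)) w).re) / (nm w : ℝ) with hh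
  have hdef2 : c0 * Real.log (e / e') ≤ 2 * ∑ w ∈ PP (X ^ e') (X ^ e), h w := by
    refine hdef.trans (le_of_eq ?_)
    rw [Finset.mul_sum]
    refine Finset.sum_congr rfl fun w hw => ?_
    rw [range_fl_re hχ k hkii (PP_spl hw).prime.ne_zero]
    simp only [hh]
    ring
  have hhnn : ∀ w ∈ PP (X ^ e') (X ^ e), 0 ≤ h w := by
    intro w hw
    have h0 : w ≠ 0 := (PP_spl hw).prime.ne_zero
    have h1 : (rangeChi χ w * xi (-(2 * k)) w).re ≤ ‖rangeChi χ w * xi (-(2 * k)) w‖ := Complex.re_le_norm _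
    rw [norm_mul, norm_xi _ h0, mul_one] at h1
    have h2 : 0 ≤ 1 - (rangeChi χ w * xi (-(2 * k)) w).re := by
      linarith [(rangeChi_chi hχ).le w]
    simp only [hh]
    positivity
  set W : ℕ → ℝ := fun v => ∑ w ∈ blk (X ^ e') (X ^ e) ρ v, 1 / (nm w : ℝ) with hW
  set T : ℕ → ℝ := fun v => tb (FL χ) (X ^ e') (X ^ e) ρ v k with hT
  have hblk : ∀ v : ℕ, ∑ w ∈ blk (X ^ e') (X ^ e) ρ v, h w ≤ 2 * Real.exp ρ * (W v * (1 - T v ^ 2)) := by
    intro v
    exact block_deficit D hD χ hχ k hkii (X ^ e') (X ^ e) ρ hρ hPD v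
  have hblk0 : ∀ v : ℕ, 0 ≤ W v * (1 - T v ^ 2) := by
    intro v
    have h1 : 0 ≤ ∑ w ∈ blk (X ^ e') (X ^ e) ρ v, h w :=
      Finset.sum_nonneg fun w hw => hhnn w (mem_blk.mp hw).1
    have h2 := h1.trans (hblk v)
    have h3 : 0 < 2 * Real.exp ρ := by positivity
    exact nonneg_of_mul_nonneg_right h2 h3
  have hblk' : ∀ v : ℕ, ∑ w ∈ blk (X ^ e') (X ^ e) ρ v, h w ≤ 2 * Real.exp 1 * (W v * (1 - T v ^ 2)) := by
    intro v
    refine (hblk v).trans (mul_le_mul_of_nonneg_right ?_ (hblk0 v))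
    have : Real.exp ρ ≤ Real.exp 1 := Real.exp_le_exp.2 hρ1
    linarith
  have hsum : ∑ w ∈ PP (X ^ e') (X ^ e), h w ≤ 2 * Real.exp 1 * ∑ v ∈ range (nv (X ^ e) ρ), W v * (1 - T v ^ 2) := by
    rw [← range_sum_blk (X ^ e') (X ^ e) ρ (by linarith) hρ h, Finset.mul_sum]
    exact Finset.sum_le_sum fun v _ => hblk' v
  have hLsW : Ls (X ^ e') (X ^ e) = ∑ v ∈ range (nv (X ^ e) ρ), W v :=
    (range_sum_blk (X ^ e') (X ^ e) ρ (by linarith) hρ fun w => 1 / (nm w : ℝ)).symm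
  have hLs0 : 0 ≤ Ls (X ^ e') (X ^ e) := by
    unfold Ls
    exact Finset.sum_nonneg fun w _ => by positivity
  have hLs1 : Ls (X ^ e') (X ^ e) ≤ Real.log (e / e') := by
    have h1 := hC (X ^ e') (X ^ e) hP2 hPQ
    rw [abs_le] at h1
    have h2 : Real.log (Real.log (X ^ e)) - Real.log (Real.log (X ^ e')) = Real.log (e / e') := by
      have hlX : 0 < Real.log X := Real.log_pos (by linarith)
      rw [Real.log_rpow hXpos, Real.log_rpow hXpos, Real.log_mul he.ne' hlX.ne', Real.log_mul he'.ne' hlX.ne',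
        Real.log_div he.ne' he'.ne']
      ring
    rw [h2] at h1
    have h3 := le_abs_self C
    linarith [h1.2]
  have hsplit : ∑ v ∈ range (nv (X ^ e) ρ), W v * T v ^ 2 = Ls (X ^ e') (X ^ e) - ∑ v ∈ range (nv (X ^ e) ρ), W v * (1 - T v ^ 2) := by
    rw [hLsW, ← Finset.sum_sub_distrib]
    refine Finset.sum_congr rfl fun v _ => ?_
    ring
  show ∑ v ∈ range (nv (X ^ e) ρ), W v * T v ^ 2 ≤ (1 - c) * Ls (X ^ e') (X ^ e)
  rw [hsplit]
  have h4 : c0 / (4 * Real.exp 1) * Real.log (e / e') ≤ ∑ v ∈ range (nv (X ^ e) ρ), W v * (1 - T v ^ 2) := by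
    have h5 : c0 * Real.log (e / e') ≤ 4 * Real.exp 1 * ∑ v ∈ range (nv (X ^ e) ρ), W v * (1 - T v ^ 2) := by
      linarith
    calc c0 / (4 * Real.exp 1) * Real.log (e / e') = (c0 * Real.log (e / e')) / (4 * Real.exp 1) := by ring
      _ ≤ _ := by
          rw [div_le_iff₀ (by positivity)]
          linarith
  have h6 : c * Ls (X ^ e') (X ^ e) ≤ c0 / (4 * Real.exp 1) * Real.log (e / e') := by
    calc c * Ls (X ^ e') (X ^ e) ≤ (c0 / (4 * Real.exp 1)) * Ls (X ^ e') (X ^ e) :=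
          mul_le_mul_of_nonneg_right (min_le_left _ _) hLs0
      _ ≤ _ := mul_le_mul_of_nonneg_left hLs1 (by positivity)
  linarith

end Pool.Agent.ECM
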