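import Pool.Agent.Lib_MP_f1a94e_ecm.StageFew
import Pool.Agent.Lib_MP_f1a94e_ecm.Range
import Pool.Agent.Lib_MP_f1a94e_ecm.FewA

/-!
# Piece M-FEWB: one step
-/

set_option autoImplicit false

namespace Pool.Agent.ECM

open Finset Pool.Agent.GaussMR Pool.Agent.GaussCM Pool.Agent.OmAll

/-- Minkowski inequality for two nonnegative functions -/
private theorem fewb_mink {ι : Type*} (S : Finset ι) (x a b : ι → ℝ) (A B : ℝ) (hA : 0 ≤ A) (hB : 0 ≤ B)
    (hx : ∀ k ∈ S, 0 ≤ x k) (h : ∀ k ∈ S, x k ≤ a k + b k)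
    (hAS : ∑ k ∈ S, a k ^ 2 ≤ A ^ 2) (hBS : ∑ k ∈ S, b k ^ 2 ≤ B ^ 2) :
    ∑ k ∈ S, x k ^ 2 ≤ (A + B) ^ 2 := by
  have h1 : ∑ k ∈ S, x k ^ 2 ≤ ∑ k ∈ S, (a k + b k) ^ 2 :=
    sum_le_sum fun k hk => pow_le_pow_left₀ (hx k hk) (h k hk) 2
  have h2 : ∑ k ∈ S, (a k + b k) ^ 2 = ∑ k ∈ S, a k ^ 2 + 2 * ∑ k ∈ S, a k * b k + ∑ k ∈ S, b k ^ 2 := by
    rw [mul_sum, ← sum_add_distrib, ← sum_add_distrib]
    exact sum_congr rfl fun k _ => by ring
  have h3 : ∑ k ∈ S, a k * b k ≤ A * B := by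
    have h4 := Finset.sum_mul_sq_le_sq_mul_sq S a b
    have h5 : (∑ k ∈ S, a k * b k) ^ 2 ≤ (A * B) ^ 2 := by
      refine h4.trans ?_
      rw [mul_pow]
      exact mul_le_mul hAS hBS (sum_nonneg fun _ _ => sq_nonneg _) (sq_nonneg _)
    exact le_of_sq_le_sq h5 (mul_nonneg hA hB)
  calc ∑ k ∈ S, x k ^ 2 ≤ ∑ k ∈ S, a k ^ 2 + 2 * ∑ k ∈ S, a k * b k + ∑ k ∈ S, b k ^ 2 := by rw [← h2]; exact h1
    _ ≤ A ^ 2 + 2 * (A * B) + B ^ 2 := by linarith
    _ = (A + B) ^ 2 := by ring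

/-- the blocks are disjoint -/
private theorem fewb_sumW (P Q ρ : ℝ) (hρ : 0 < ρ) (n : ℕ) :
    ∑ v ∈ range n, ∑ w ∈ blk P Q ρ v, 1 / (nm w : ℝ) ≤ Ls P Q := by
  classical
  rw [← sum_biUnion]
  · unfold Ls
    apply sum_le_sum_of_subset_of_nonneg
    · intro w hw
      rw [mem_biUnion] at hw
      obtain ⟨v, _, hw⟩ := hw
      exact (mem_blk.1 hw).1
    · intro w _ _
      positivity
  · intro v _ v' _ hvv
    rw [Function.onFun, disjoint_left]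
    intro w hw hw'
    exact hvv (blk_unique hρ hw hw')

private theorem fewb_cm_star {F : G → ℂ} (hF : CM F) : CM (fun z => F (star z)) := by
  refine ⟨?_, ?_⟩
  · intro z w hz hw
    show F (star (z * w)) = F (star z) * F (star w)
    rw [star_mul, hF.mul (star w) (star z) (by rw [nm_star]; exact hw) (by rw [nm_star]; exact hz), mul_comm]
  · intro z hz
    exact hF.bd (star z) (by rw [nm_star]; exact hz)

private theorem fewb_ne {P Q : ℝ} {w : G} (h : w ∈ PP P Q) : w ≠ 0 := by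
  rintro rfl
  rw [mem_PP] at h
  simp at h

/-- the conjugate main term -/
private theorem fewb_UZ_star (F : G → ℂ) (P Q ρ Z : ℝ) (k : ℤ) :
    UZC (fun z => F (star z)) P Q ρ Z (-k) = ∑ v ∈ range (nv Q ρ),
      (∑ w ∈ blk P Q ρ v, F (star w) * xi (-k) (star w)) * fcC F (Z * Real.exp (-(v * ρ))) k := by
  unfold UZC
  apply sum_congr rfl
  intro v _
  rw [fc_star]
  congr 1
  unfold UC
  apply sum_congr rfl
  intro w hw
  rw [xi_star (-k) (fewb_ne (mem_blk.1 hw).1)]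

/-- the pointwise inequality -/
private theorem fewb_point (F : G → ℂ) (P Q ρ Z : ℝ) (hZ : 0 < Z) (k : ℤ) (L : ℝ) (hL : 0 ≤ L) :
    L * ‖fcC F Z k‖ ≤ Real.exp ρ * Z * ∑ v ∈ range (nv Q ρ), (∑ w ∈ blk P Q ρ v, 1 / (nm w : ℝ)) *
        (tb F P Q ρ v k * (‖fcC F (Z * Real.exp (-(v * ρ))) k‖ / (Z * Real.exp (-(v * ρ))))) +
      (‖(L : ℂ) * fcC F Z k - UZC F P Q ρ Z k‖ +
        ‖(L : ℂ) * fcC (fun z => F (star z)) Z (-k) - UZC (fun z => F (star z)) P Q ρ Z (-k)‖) / 2 := by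
  set B : ℕ → ℂ := fun v => ∑ w ∈ blk P Q ρ v, (F w * xi (-k) w + F (star w) * xi (-k) (star w)) with hB
  have h1 : (2 * (L : ℂ)) * fcC F Z k = ((L : ℂ) * fcC F Z k - UZC F P Q ρ Z k) +
      ((L : ℂ) * fcC (fun z => F (star z)) Z (-k) - UZC (fun z => F (star z)) P Q ρ Z (-k)) +
      ∑ v ∈ range (nv Q ρ), B v * fcC F (Z * Real.exp (-(v * ρ))) k := by
    have h2 : ∑ v ∈ range (nv Q ρ), B v * fcC F (Z * Real.exp (-(v * ρ))) k =
        UZC F P Q ρ Z k + UZC (fun z => F (star z)) P Q ρ Z (-k) := by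
      rw [fewb_UZ_star]
      unfold UZC
      rw [← sum_add_distrib]
      apply sum_congr rfl
      intro v _
      rw [← add_mul, hB]
      simp only
      rw [sum_add_distrib]
      rfl
    rw [h2, fc_star]
    ring
  have h3 : ‖(2 * (L : ℂ)) * fcC F Z k‖ = 2 * (L * ‖fcC F Z k‖) := by
    rw [norm_mul, norm_mul, Complex.norm_real, Real.norm_eq_abs, abs_of_nonneg hL]
    simp
    ring
  have h4 : ∀ v, ‖B v * fcC F (Z * Real.exp (-(v * ρ))) k‖ ≤ 2 * (Real.exp ρ * Z *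
      ((∑ w ∈ blk P Q ρ v, 1 / (nm w : ℝ)) *
        (tb F P Q ρ v k * (‖fcC F (Z * Real.exp (-(v * ρ))) k‖ / (Z * Real.exp (-(v * ρ))))))) := by
    intro v
    rw [norm_mul]
    have h5 : ‖B v‖ = 2 * (blk P Q ρ v).card * tb F P Q ρ v k := by
      unfold tb
      rcases (blk P Q ρ v).eq_empty_or_nonempty with he | hne
      · simp only [hB]
        rw [he]
        simp
      · have hc : ((blk P Q ρ v).card : ℝ) ≠ 0 := by
          exact_mod_cast (card_pos.2 hne).ne'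
        simp only [hB]
        field_simp
    have h6 : ((blk P Q ρ v).card : ℝ) ≤ Real.exp ((v + 1) * ρ) * ∑ w ∈ blk P Q ρ v, 1 / (nm w : ℝ) := by
      rw [mul_sum]
      calc ((blk P Q ρ v).card : ℝ) = ∑ _w ∈ blk P Q ρ v, (1 : ℝ) := by simp
        _ ≤ _ := by
          apply sum_le_sum
          intro w hw
          have h7 := (mem_blk.1 hw).2.2
          have h8 : (0 : ℝ) < nm w := by exact_mod_cast nm_pos (fewb_ne (mem_blk.1 hw).1)
          rw [mul_one_div, le_div_iff₀ h8, one_mul]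
          exact h7
    have htb : 0 ≤ tb F P Q ρ v k := by
      unfold tb
      positivity
    have h7 : Real.exp ((v + 1) * ρ) = Real.exp ρ * Z / (Z * Real.exp (-(v * ρ))) := by
      rw [Real.exp_neg, add_mul, one_mul, Real.exp_add]
      field_simp
    rw [h5]
    calc 2 * ((blk P Q ρ v).card : ℝ) * tb F P Q ρ v k * ‖fcC F (Z * Real.exp (-(v * ρ))) k‖ ≤
          2 * (Real.exp ((v + 1) * ρ) * ∑ w ∈ blk P Q ρ v, 1 / (nm w : ℝ)) * tb F P Q ρ v k *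
            ‖fcC F (Z * Real.exp (-(v * ρ))) k‖ := by
          gcongr
      _ = _ := by
          rw [h7]
          ring
  have h5 : 2 * (L * ‖fcC F Z k‖) ≤ ‖(L : ℂ) * fcC F Z k - UZC F P Q ρ Z k‖ +
        ‖(L : ℂ) * fcC (fun z => F (star z)) Z (-k) - UZC (fun z => F (star z)) P Q ρ Z (-k)‖ +
      ∑ v ∈ range (nv Q ρ), 2 * (Real.exp ρ * Z * ((∑ w ∈ blk P Q ρ v, 1 / (nm w : ℝ)) *
        (tb F P Q ρ v k * (‖fcC F (Z * Real.exp (-(v * ρ))) k‖ / (Z * Real.exp (-(v * ρ))))))) := by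
    rw [← h3, h1]
    refine (norm_add_le _ _).trans ?_
    refine add_le_add (norm_add_le _ _) ?_
    exact norm_sum_le_of_le _ (fun v _ => h4 v)
  rw [← mul_sum, ← mul_sum] at h5
  linarith

private theorem fewb_one (c : ℝ) : 1 - c ≤ (1 - c / 2) ^ 2 := by
  have h : (1 - c / 2) ^ 2 = 1 - c + (c / 2) ^ 2 := by ring
  rw [h]
  exact le_add_of_nonneg_right (sq_nonneg _)

private theorem fewb_avg (x y : ℝ) : ((x + y) / 2) ^ 2 ≤ (x ^ 2 + y ^ 2) / 2 := by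
  have h : (x ^ 2 + y ^ 2) / 2 = ((x + y) / 2) ^ 2 + ((x - y) / 2) ^ 2 := by ring
  rw [h]
  exact le_add_of_nonneg_right (sq_nonneg _)

/-- One step. `F = FL χ`, `P = X^e'`, `Q = X^e`, `L = Ls P Q ~ log (e/e') / 2` (`Ls_bounds`; `L0` large makes `L ≥ 1`, `L ≥ log (e/e') / 4`). Apply `stage_few` to `F` (set `S`) and to `F* = F ∘ star` (set `-S`, `fc_star`), add and halve:
`L fc(Z,k) = ∑_v B_v(k) fc(Z e^(-vρ), k) + err`, `B_v(k) = (1/2) ∑_(w ∈ blk v) (F w xi (-k) w + F (star w) xi (-k) (star w))`, `|B_v| = #blk * tb ≤ exp ((v+1) ρ) W_v tb`, `W_v = ∑_(blk v) 1/nm w`, `(∑_k |err|²)^(1/2) ≤ C Z L (1/L + ρ)^(1/2)`.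
With `g_v(k) = |fc(Z e^(-vρ), k)| / (Z e^(-vρ))`: `L |fc(Z,k)| / Z ≤ exp ρ ∑_v W_v tb_v(k) g_v(k) + |err|/Z`, and (Minkowski in `ℓ²(S)`, Cauchy-Schwarz in `v`)
`∑_k (∑_v W_v tb_v g_v)² ≤ ∑_k (∑_v W_v tb_v²) (∑_v W_v g_v²) ≤ (1 - c1) L ∑_v W_v M² = (1 - c1) L² M²` by `range_def` and the hypothesis (blocks which are not empty have `exp (v ρ) < Q = X^e`). `sqrt (1 - c1) ≤ 1 - c1 / 2 = 1 - c`. -/
theorem few_step : ∃ c C L0 δ : ℝ, 0 < c ∧ c < 1 ∧ 0 < C ∧ 0 < L0 ∧ 0 < δ ∧ ∀ (D : ℕ) (e' e : ℝ), 0 < D → 0 < e' → e' < e → e ≤ 1 / 40 →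
    L0 ≤ Real.log (e / e') → ∃ X0 : ℝ, ∀ X : ℝ, X0 ≤ X → ∀ χ : G → ℂ, Chi D χ → ∀ ρ : ℝ, 0 < ρ → ρ ≤ 1 → X ^ (-(1 / 8 : ℝ)) ≤ ρ →
    ∀ S : Finset ℤ, (∀ k ∈ S, |(k : ℝ)| ≤ X ∧ k ≠ 0 ∧ FL χ ii * xi (-k) ii = 1) → (S.card : ℝ) ≤ X ^ δ → (S.card : ℝ) ≤ X ^ e' →
    ∀ Z M : ℝ, X ^ (1 / 2 + e) ≤ Z → Z ≤ X → 0 ≤ M →
    (∀ Z' : ℝ, Z * X ^ (-e) ≤ Z' → Z' ≤ Z → ∑ k ∈ S, ‖fcC (FL χ) Z' k‖ ^ 2 ≤ M ^ 2 * Z' ^ 2) →
    ∑ k ∈ S, ‖fcC (FL χ) Z k‖ ^ 2 ≤ ((1 - c) * Real.exp ρ * M + C * Real.sqrt (1 / Real.log (e / e') + ρ)) ^ 2 * Z ^ 2 := by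
  classical
  obtain ⟨δ, C1, hδ, hC1, hstage⟩ := stage_few
  obtain ⟨c1, L1, hc1, hc11, hL1, hrange⟩ := range_def
  obtain ⟨C2, hC2⟩ := Ls_bounds
  refine ⟨c1 / 2, 2 * Real.sqrt C1, max L1 (max (4 * C2) 4), δ, by positivity, by linarith, by positivity,
    lt_of_lt_of_le hL1 (le_max_left _ _), hδ, ?_⟩
  intro D e' e hD he' hee he hL
  have hLL1 : L1 ≤ Real.log (e / e') := (le_max_left _ _).trans hL
  have hLL2 : 4 * C2 ≤ Real.log (e / e') := ((le_max_left _ _).trans (le_max_right _ _)).trans hL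
  have hLL3 : 4 ≤ Real.log (e / e') := ((le_max_right _ _).trans (le_max_right _ _)).trans hL
  have he0 : 0 < e := by linarith
  obtain ⟨X1, hX1⟩ := hstage e' e he' hee he
  obtain ⟨X2, hX2⟩ := hrange D e' e hD he' hee (by linarith) hLL1
  obtain ⟨X3, hX3⟩ := Filter.eventually_atTop.1 ((tendsto_rpow_atTop he').eventually_ge_atTop (2 : ℝ))
  refine ⟨max (max X1 X2) (max X3 2), ?_⟩
  intro X hX χ hχ ρ hρ0 hρ1 hρX S hS hcard hcard' Z M hZ1 hZ2 hM hmain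
  have hXX1 : X1 ≤ X := ((le_max_left _ _).trans (le_max_left _ _)).trans hX
  have hXX2 : X2 ≤ X := ((le_max_right _ _).trans (le_max_left _ _)).trans hX
  have hXX3 : X3 ≤ X := ((le_max_left _ _).trans (le_max_right _ _)).trans hX
  have hXX4 : 2 ≤ X := ((le_max_right _ _).trans (le_max_right _ _)).trans hX
  have hX1' : 1 < X := by linarith
  have hX0' : 0 < X := by linarith
  have hP2 : 2 ≤ X ^ e' := hX3 X hXX3
  have hPQ : X ^ e' ≤ X ^ e := Real.rpow_le_rpow_of_exponent_le hX1'.le hee.le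
  set P := X ^ e' with hP
  set Q := X ^ e with hQ
  set L := Ls P Q with hLdef
  have hlogX : 0 < Real.log X := Real.log_pos hX1'
  have hLlow : Real.log (e / e') / 4 ≤ L := by
    have h1 := hC2 P Q hP2 hPQ
    have h2 : Real.log (Real.log Q) - Real.log (Real.log P) = Real.log (e / e') := by
      rw [hP, hQ, Real.log_rpow hX0', Real.log_rpow hX0', Real.log_mul he0.ne' hlogX.ne',
        Real.log_mul he'.ne' hlogX.ne', Real.log_div he0.ne' he'.ne']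
      ring
    rw [h2, abs_le] at h1
    linarith [h1.1]
  have hL1' : 1 ≤ L := by linarith
  have hL0 : 0 < L := by linarith
  have hZ0 : 0 < Z := lt_of_lt_of_le (Real.rpow_pos_of_pos hX0' _) hZ1
  have hZhalf : X ^ (1 / 2 : ℝ) ≤ Z :=
    (Real.rpow_le_rpow_of_exponent_le hX1'.le (by linarith)).trans hZ1
  have hF := cm_FL D χ hχ
  set F := FL χ with hFdef
  -- the errors
  have herr1 := hX1 X hXX1 F hF ρ Z hρ0 hρ1 hρX hZhalf hZ2 hL1' S (fun k hk => (hS k hk).1) hcard hcard'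
  have herr2 := hX1 X hXX1 (fun z => F (star z)) (fewb_cm_star hF) ρ Z hρ0 hρ1 hρX hZhalf hZ2 hL1'
    (S.image (fun k => -k)) (by
      intro k hk
      rw [mem_image] at hk
      obtain ⟨j, hj, rfl⟩ := hk
      push_cast
      rw [abs_neg]
      exact (hS j hj).1) (le_trans (by exact_mod_cast card_image_le) hcard)
      (le_trans (by exact_mod_cast card_image_le) hcard')
  rw [sum_image (fun a _ b _ h => neg_injective h)] at herr2
  set E1 : ℤ → ℝ := fun k => ‖(L : ℂ) * fcC F Z k - UZC F P Q ρ Z k‖ with hE1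
  set E2 : ℤ → ℝ := fun k => ‖(L : ℂ) * fcC (fun z => F (star z)) Z (-k) -
    UZC (fun z => F (star z)) P Q ρ Z (-k)‖ with hE2
  set T : ℝ := Real.log (e / e') with hT
  have hT0 : 0 < T := by linarith
  -- the main term
  set W : ℕ → ℝ := fun v => ∑ w ∈ blk P Q ρ v, 1 / (nm w : ℝ) with hW
  have hW0 : ∀ v, 0 ≤ W v := fun v => sum_nonneg fun w _ => by positivity
  set g : ℕ → ℤ → ℝ := fun v k => ‖fcC F (Z * Real.exp (-(v * ρ))) k‖ / (Z * Real.exp (-(v * ρ))) with hg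
  have hg0 : ∀ v k, 0 ≤ g v k := fun v k => by
    simp only [hg]
    positivity
  set a : ℤ → ℝ := fun k => Real.exp ρ * Z * ∑ v ∈ range (nv Q ρ), W v * (tb F P Q ρ v k * g v k) with ha
  set b : ℤ → ℝ := fun k => (E1 k + E2 k) / 2 with hb
  have hpt : ∀ k ∈ S, L * ‖fcC F Z k‖ ≤ a k + b k := fun k _ =>
    fewb_point F P Q ρ Z hZ0 k L hL0.le
  have hgM : ∀ v ∈ range (nv Q ρ), W v * ∑ k ∈ S, g v k ^ 2 ≤ W v * M ^ 2 := by
    intro v _
    rcases (blk P Q ρ v).eq_empty_or_nonempty with hemp | ⟨w, hw⟩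
    · have : W v = 0 := by
        simp only [hW]
        rw [hemp, sum_empty]
      rw [this, zero_mul, zero_mul]
    · apply mul_le_mul_of_nonneg_left _ (hW0 v)
      have hw1 := (mem_blk.1 hw).2.1
      have hw2 := (mem_PP.1 (mem_blk.1 hw).1).2.1
      have hexpv : Real.exp (v * ρ) ≤ Q := by linarith
      have hZv : Z * X ^ (-e) ≤ Z * Real.exp (-(v * ρ)) := by
        apply mul_le_mul_of_nonneg_left _ hZ0.le
        rw [Real.rpow_neg hX0'.le, Real.exp_neg]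
        exact inv_anti₀ (Real.exp_pos _) hexpv
      have hZv2 : Z * Real.exp (-(v * ρ)) ≤ Z := by
        have : Real.exp (-(v * ρ)) ≤ 1 := by
          rw [Real.exp_le_one_iff]
          have : 0 ≤ (v : ℝ) * ρ := by positivity
          linarith only [this]
        exact mul_le_of_le_one_right hZ0.le this
      have h1 := hmain _ hZv hZv2
      have hpos : 0 < Z * Real.exp (-(v * ρ)) := by positivity
      calc ∑ k ∈ S, g v k ^ 2 = (∑ k ∈ S, ‖fcC F (Z * Real.exp (-(v * ρ))) k‖ ^ 2) /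
            (Z * Real.exp (-(v * ρ))) ^ 2 := by
            rw [sum_div]
            apply sum_congr rfl
            intro k _
            simp only [hg]
            rw [div_pow]
        _ ≤ M ^ 2 := by
            rw [div_le_iff₀ (by positivity)]
            exact h1
  have hcs : ∀ k ∈ S, (∑ v ∈ range (nv Q ρ), W v * (tb F P Q ρ v k * g v k)) ^ 2 ≤
      ((1 - c1) * L) * ∑ v ∈ range (nv Q ρ), W v * g v k ^ 2 := by
    intro k hk
    obtain ⟨hk1, hk2, hk3⟩ := hS k hk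
    have h1 := hX2 X hXX2 χ hχ k hk2 hk1 hk3 ρ hρ0 hρ1
    have h2 := Finset.sum_mul_sq_le_sq_mul_sq (range (nv Q ρ))
      (fun v => Real.sqrt (W v) * tb F P Q ρ v k) (fun v => Real.sqrt (W v) * g v k)
    have h3 : ∑ v ∈ range (nv Q ρ), (Real.sqrt (W v) * tb F P Q ρ v k) * (Real.sqrt (W v) * g v k) =
        ∑ v ∈ range (nv Q ρ), W v * (tb F P Q ρ v k * g v k) := by
      apply sum_congr rfl
      intro v _
      have h4 := Real.mul_self_sqrt (hW0 v)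
      calc (Real.sqrt (W v) * tb F P Q ρ v k) * (Real.sqrt (W v) * g v k) =
            (Real.sqrt (W v) * Real.sqrt (W v)) * (tb F P Q ρ v k * g v k) := by ring
        _ = _ := by rw [h4]
    have h4 : ∑ v ∈ range (nv Q ρ), (Real.sqrt (W v) * tb F P Q ρ v k) ^ 2 =
        ∑ v ∈ range (nv Q ρ), W v * tb F P Q ρ v k ^ 2 := by
      apply sum_congr rfl
      intro v _
      rw [mul_pow, Real.sq_sqrt (hW0 v)]
    have h5 : ∑ v ∈ range (nv Q ρ), (Real.sqrt (W v) * g v k) ^ 2 =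
        ∑ v ∈ range (nv Q ρ), W v * g v k ^ 2 := by
      apply sum_congr rfl
      intro v _
      rw [mul_pow, Real.sq_sqrt (hW0 v)]
    rw [h3, h4, h5] at h2
    refine h2.trans ?_
    apply mul_le_mul_of_nonneg_right h1
    exact sum_nonneg fun v _ => mul_nonneg (hW0 v) (sq_nonneg _)
  have haS : ∑ k ∈ S, a k ^ 2 ≤ (Real.exp ρ * Z * ((1 - c1 / 2) * L * M)) ^ 2 := by
    have h1 : ∑ k ∈ S, a k ^ 2 = (Real.exp ρ * Z) ^ 2 *
        ∑ k ∈ S, (∑ v ∈ range (nv Q ρ), W v * (tb F P Q ρ v k * g v k)) ^ 2 := by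
      rw [mul_sum]
      apply sum_congr rfl
      intro k _
      simp only [ha]
      rw [mul_pow]
    have h2 : ∑ k ∈ S, (∑ v ∈ range (nv Q ρ), W v * (tb F P Q ρ v k * g v k)) ^ 2 ≤
        ((1 - c1) * L) * (L * M ^ 2) := by
      calc ∑ k ∈ S, (∑ v ∈ range (nv Q ρ), W v * (tb F P Q ρ v k * g v k)) ^ 2 ≤
            ∑ k ∈ S, ((1 - c1) * L) * ∑ v ∈ range (nv Q ρ), W v * g v k ^ 2 := sum_le_sum hcs
        _ = ((1 - c1) * L) * ∑ v ∈ range (nv Q ρ), W v * ∑ k ∈ S, g v k ^ 2 := by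
            rw [← mul_sum, sum_comm]
            congr 1
            apply sum_congr rfl
            intro v _
            rw [mul_sum]
        _ ≤ ((1 - c1) * L) * ∑ v ∈ range (nv Q ρ), W v * M ^ 2 := by
            apply mul_le_mul_of_nonneg_left (sum_le_sum hgM)
            have : 0 ≤ 1 - c1 := by linarith
            positivity
        _ = ((1 - c1) * L) * ((∑ v ∈ range (nv Q ρ), W v) * M ^ 2) := by rw [sum_mul]
        _ ≤ ((1 - c1) * L) * (L * M ^ 2) := by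
            apply mul_le_mul_of_nonneg_left
            · apply mul_le_mul_of_nonneg_right _ (sq_nonneg M)
              exact fewb_sumW P Q ρ hρ0 _
            · have : 0 ≤ 1 - c1 := by linarith
              positivity
    rw [h1, mul_pow (Real.exp ρ * Z) ((1 - c1 / 2) * L * M) 2]
    apply mul_le_mul_of_nonneg_left _ (sq_nonneg _)
    refine h2.trans ?_
    have h3 : 1 - c1 ≤ (1 - c1 / 2) ^ 2 := fewb_one c1
    calc ((1 - c1) * L) * (L * M ^ 2) = (1 - c1) * (L * M) ^ 2 := by ring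
      _ ≤ (1 - c1 / 2) ^ 2 * (L * M) ^ 2 := mul_le_mul_of_nonneg_right h3 (sq_nonneg _)
      _ = _ := by ring
  have hbS : ∑ k ∈ S, b k ^ 2 ≤ (2 * Real.sqrt C1 * Z * L * Real.sqrt (1 / T + ρ)) ^ 2 := by
    have h1 : ∑ k ∈ S, b k ^ 2 ≤ ∑ k ∈ S, (E1 k ^ 2 + E2 k ^ 2) / 2 := by
      apply sum_le_sum
      intro k _
      simp only [hb]
      exact fewb_avg (E1 k) (E2 k)
    have h2 : ∑ k ∈ S, (E1 k ^ 2 + E2 k ^ 2) / 2 = (∑ k ∈ S, E1 k ^ 2 + ∑ k ∈ S, E2 k ^ 2) / 2 := by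
      rw [← sum_add_distrib, sum_div]
    have h3 : (∑ k ∈ S, E1 k ^ 2 + ∑ k ∈ S, E2 k ^ 2) / 2 ≤ C1 * Z ^ 2 * L ^ 2 * (1 / L + ρ) := by
      have h4 : ∑ k ∈ S, E1 k ^ 2 ≤ C1 * Z ^ 2 * L ^ 2 * (1 / L + ρ) := herr1
      have h5 : ∑ k ∈ S, E2 k ^ 2 ≤ C1 * Z ^ 2 * L ^ 2 * (1 / L + ρ) := herr2
      linarith
    have h4 : 1 / L + ρ ≤ 4 * (1 / T + ρ) := by
      have h5 : 1 / L ≤ 4 * (1 / T) := by
        rw [mul_one_div, div_le_div_iff₀ hL0 hT0]
        linarith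
      linarith
    have h5 : (2 * Real.sqrt C1 * Z * L * Real.sqrt (1 / T + ρ)) ^ 2 =
        C1 * Z ^ 2 * L ^ 2 * (4 * (1 / T + ρ)) := by
      have h6 : 0 ≤ 1 / T + ρ := by positivity
      calc (2 * Real.sqrt C1 * Z * L * Real.sqrt (1 / T + ρ)) ^ 2 =
            4 * (Real.sqrt C1) ^ 2 * Z ^ 2 * L ^ 2 * (Real.sqrt (1 / T + ρ)) ^ 2 := by ring
        _ = _ := by
          rw [Real.sq_sqrt hC1.le, Real.sq_sqrt h6]
          ring
    rw [h5]
    refine h1.trans (le_trans (le_of_eq h2) (h3.trans ?_))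
    exact mul_le_mul_of_nonneg_left h4 (by positivity)
  have hfin := fewb_mink S (fun k => L * ‖fcC F Z k‖) a b _ _
    (by
      have : 0 ≤ 1 - c1 / 2 := by linarith
      positivity : 0 ≤ Real.exp ρ * Z * ((1 - c1 / 2) * L * M))
    (by positivity : 0 ≤ 2 * Real.sqrt C1 * Z * L * Real.sqrt (1 / T + ρ))
    (fun k _ => mul_nonneg hL0.le (norm_nonneg _)) hpt haS hbS
  have h1 : ∑ k ∈ S, (L * ‖fcC F Z k‖) ^ 2 = L ^ 2 * ∑ k ∈ S, ‖fcC F Z k‖ ^ 2 := by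
    rw [mul_sum]
    apply sum_congr rfl
    intro k _
    rw [mul_pow]
  have h2 : L ^ 2 * ∑ k ∈ S, ‖fcC F Z k‖ ^ 2 ≤ L ^ 2 * (((1 - c1 / 2) * Real.exp ρ * M +
      2 * Real.sqrt C1 * Real.sqrt (1 / T + ρ)) ^ 2 * Z ^ 2) := by
    rw [← h1]
    refine hfin.trans (le_of_eq ?_)
    ring
  exact le_of_mul_le_mul_left h2 (by positivity)

end Pool.Agent.ECM
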