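import Pool.Agent.Lib_MP_f1a94e_ecm.MDefs
import Pool.Agent.Lib_MP_f1a94e_mr.SmallJ

/-!
# Piece M-SMALL: residue classes in a disc, small `k`
-/

set_option autoImplicit false

namespace Pool.Agent.ECM

open Finset Pool.Agent.GaussMR Pool.Agent.GaussCM Pool.Agent.OmAll

/-- the residue of `b` of smallest absolute value -/
private def redG (m : ℕ) (b : G) : G := ⟨Int.bmod b.re m, Int.bmod b.im m⟩

private theorem norm_mG (m : ℕ) : ‖(((m : ℤ) : G) : ℂ)‖ = m := by
  rw [norm_eq_sqrt]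
  have h : (nm ((m : ℤ) : G) : ℤ) = (m : ℤ) ^ 2 := by
    rw [nm_eq, Zsqrtd.re_intCast, Zsqrtd.im_intCast]
    ring
  have h2 : (nm ((m : ℤ) : G) : ℝ) = (m : ℝ) ^ 2 := by exact_mod_cast h
  rw [h2, Real.sqrt_sq (Nat.cast_nonneg m)]

private theorem norm_redG (m : ℕ) (hm : 0 < m) (b : G) : ‖((redG m b : G) : ℂ)‖ ≤ m := by
  have h1 : ∀ x : ℤ, (Int.bmod x m) ^ 2 * 4 ≤ (m : ℤ) ^ 2 := by
    intro x
    have h2 := Int.bmod_lt (x := x) hm
    have h3 := Int.le_bmod (x := x) hm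
    have h4 : 2 * Int.bmod x m ≤ m := by omega
    have h5 : -(m : ℤ) ≤ 2 * Int.bmod x m := by omega
    nlinarith
  rw [norm_eq_sqrt]
  have h2 : ((nm (redG m b) : ℤ)) ≤ (m : ℤ) ^ 2 := by
    rw [nm_eq]
    have h3 := h1 b.re
    have h4 := h1 b.im
    change (Int.bmod b.re m) ^ 2 + (Int.bmod b.im m) ^ 2 ≤ _
    nlinarith [sq_nonneg (m : ℤ)]
  have h3 : (nm (redG m b) : ℝ) ≤ (m : ℝ) ^ 2 := by exact_mod_cast h2
  calc Real.sqrt (nm (redG m b)) ≤ Real.sqrt ((m : ℝ) ^ 2) := Real.sqrt_le_sqrt h3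
    _ = m := Real.sqrt_sq (Nat.cast_nonneg m)

private theorem cg_iff (m : ℕ) (z b : G) : cg m z b ↔ ((m : ℤ) : G) ∣ z - redG m b := by
  rw [Zsqrtd.intCast_dvd]
  unfold cg
  have e : ∀ x y : ℤ, (m : ℤ) ∣ x - y ↔ (m : ℤ) ∣ x - Int.bmod y m := by
    intro x y
    have h1 : (m : ℤ) ∣ Int.bmod y m - y := Int.dvd_bmod_sub_self
    constructor
    · intro h
      have := dvd_sub h h1
      have h2 : x - y - (Int.bmod y m - y) = x - Int.bmod y m := by ring
      rwa [h2] at this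
    · intro h
      have := dvd_add h h1
      have h2 : x - Int.bmod y m + (Int.bmod y m - y) = x - y := by ring
      rwa [h2] at this
  rw [e z.re b.re, e z.im b.im]
  rfl

private theorem card_ballG (Y : ℝ) (hY : 1 ≤ Y) : ((ball Y).card : ℝ) ≤ 20 * Y := by
  have h := ball_asymp_pi Y (by linarith)
  rw [abs_le] at h
  have h1 : Real.sqrt Y ≤ Y := by
    rw [Real.sqrt_le_left (by linarith)]
    nlinarith
  have h2 := Real.pi_le_four
  have h3 := Real.pi_pos
  nlinarith [h.2]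

open Classical in
/-- Compare the class of `b` with the class of `b + c`, `c = (c1, c2)`, `0 ≤ c1, c2 < m`, by the shift `z ↦ z + c`: `|xi k (z + c) - xi k z| ≤ 2 |k| ‖c‖ / ‖z‖` (`xi_sub` in SmallJ.lean), `∑_{0 ≠ z ∈ ball Y} 1/‖z‖ ≤ 8 sqrt Y` (`sum_inv`),
and the elements which leave or enter the disc lie in an annulus of width `2 m` (`annulus_smallj`, applied `O(m)` times, or `ball_asymp`): `O_m(sqrt Y)`. Averaging over the `m²` shifts:
the class sum is `(1/m²) ∑_{ball Y} xi k + O(|k| sqrt Y)` and the full sum is `O(|k| sqrt Y)` by `small_j`. -/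
theorem smallG (m : ℕ) (hm : 0 < m) : ∃ C : ℝ, 0 < C ∧ ∀ (Y : ℝ) (b : G) (k : ℤ), 1 ≤ Y → k ≠ 0 →
    ‖∑ z ∈ (ball Y).filter (fun z => cg m z b), xi k z‖ ≤ C * |(k : ℝ)| * Real.sqrt Y := by
  obtain ⟨C1, hC1, h1⟩ := SmallJAux.class_bound
  obtain ⟨C2, hC2, h2⟩ := small_j
  have hmR : (0 : ℝ) < m := by exact_mod_cast hm
  have hm1 : (1 : ℝ) ≤ m := by exact_mod_cast hm
  refine ⟨C1 + C2 + 20 * m, by positivity, fun Y b k hY hk => ?_⟩
  have hY0 : 0 ≤ Y := by linarith
  have hk1 : 1 ≤ |(k : ℝ)| := by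
    have : 1 ≤ |k| := Int.one_le_abs hk
    exact_mod_cast this
  have hsY : 1 ≤ Real.sqrt Y := Real.one_le_sqrt.2 hY
  have hsY2 : Real.sqrt Y * Real.sqrt Y = Y := Real.mul_self_sqrt hY0
  have hfc : (ball Y).filter (fun z => cg m z b) =
      (ball Y).filter (fun z => ((m : ℤ) : G) ∣ z - redG m b) :=
    filter_congr fun z _ => cg_iff m z b
  rw [hfc]
  by_cases hs : (m : ℝ) ≤ Real.sqrt Y
  · set s : ℝ := Real.sqrt Y / m with hsd
    have hs1 : 1 ≤ s := by rw [hsd, le_div_iff₀ hmR]; linarith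
    have hα0 : ((m : ℤ) : G) ≠ 0 := by
      intro h
      have := congrArg Zsqrtd.re h
      simp at this
      omega
    have h3 := h1 s k ((m : ℤ) : G) (redG m b) hs1 hk hα0 (by rw [norm_mG]; exact norm_redG m hm b)
    have hsm : (‖(((m : ℤ) : G) : ℂ)‖ * s) ^ 2 = Y := by
      rw [norm_mG, hsd, mul_div_cancel₀ _ hmR.ne', sq, hsY2]
    rw [hsm] at h3
    have h4 := h2 (s ^ 2) k (one_le_pow₀ hs1) hk
    rw [Real.sqrt_sq (by linarith)] at h4
    have h5 : s ≤ Real.sqrt Y := by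
      rw [hsd]; exact div_le_self (by linarith) hm1
    have h6 : ‖xi k ((m : ℤ) : G) * ∑ z ∈ ball (s ^ 2), xi k z‖ ≤ C2 * |(k : ℝ)| * s := by
      rw [norm_mul, norm_xi k hα0, one_mul]
      exact h4
    have h7 : ‖∑ z ∈ (ball Y).filter (fun z => ((m : ℤ) : G) ∣ z - redG m b), xi k z‖ ≤
        C1 * |(k : ℝ)| * s + C2 * |(k : ℝ)| * s := by
      have h8 : ∑ z ∈ (ball Y).filter (fun z => ((m : ℤ) : G) ∣ z - redG m b), xi k z =
          (∑ z ∈ (ball Y).filter (fun z => ((m : ℤ) : G) ∣ z - redG m b), xi k z -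
            xi k ((m : ℤ) : G) * ∑ z ∈ ball (s ^ 2), xi k z) +
            xi k ((m : ℤ) : G) * ∑ z ∈ ball (s ^ 2), xi k z := by ring
      rw [h8]
      exact (norm_add_le _ _).trans (add_le_add h3 h6)
    refine h7.trans ?_
    have h9 : (C1 + C2) * |(k : ℝ)| * s ≤ (C1 + C2) * |(k : ℝ)| * Real.sqrt Y :=
      mul_le_mul_of_nonneg_left h5 (by positivity)
    have h10 : 0 ≤ 20 * m * |(k : ℝ)| * Real.sqrt Y := by positivity
    linarith
  · push Not at hs
    have h3 : ‖∑ z ∈ (ball Y).filter (fun z => ((m : ℤ) : G) ∣ z - redG m b), xi k z‖ ≤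
        (ball Y).card := by
      refine (norm_sum_le _ _).trans ?_
      calc ∑ z ∈ (ball Y).filter (fun z => ((m : ℤ) : G) ∣ z - redG m b), ‖xi k z‖
          ≤ ∑ z ∈ (ball Y).filter (fun z => ((m : ℤ) : G) ∣ z - redG m b), (1 : ℝ) :=
            sum_le_sum fun z _ => SmallJAux.norm_xi_le k z
        _ = (((ball Y).filter (fun z => ((m : ℤ) : G) ∣ z - redG m b)).card : ℝ) := by simp
        _ ≤ (ball Y).card := by exact_mod_cast card_filter_le _ _
    have h4 := card_ballG Y hY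
    refine h3.trans (h4.trans ?_)
    have h5 : Y ≤ m * Real.sqrt Y := by
      calc Y = Real.sqrt Y * Real.sqrt Y := hsY2.symm
        _ ≤ m * Real.sqrt Y := mul_le_mul_of_nonneg_right hs.le (by linarith)
    have h6 : m * Real.sqrt Y ≤ m * |(k : ℝ)| * Real.sqrt Y := by
      have : m * Real.sqrt Y * 1 ≤ m * Real.sqrt Y * |(k : ℝ)| :=
        mul_le_mul_of_nonneg_left hk1 (by positivity)
      linarith
    have h7 : 0 ≤ (C1 + C2) * |(k : ℝ)| * Real.sqrt Y := by positivity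
    linarith

open Classical in
private theorem countG_aux (m : ℕ) (hm : 0 < m) (Y : ℝ) (b b' : G) (hY : 1 ≤ Y) :
    (((ball Y).filter (fun z => cg m z b)).card : ℝ) - (((ball Y).filter (fun z => cg m z b')).card : ℝ) ≤
      50 * (m : ℝ) ^ 2 * Real.sqrt Y := by
  have hmR : (0 : ℝ) < m := by exact_mod_cast hm
  have hm1 : (1 : ℝ) ≤ m := by exact_mod_cast hm
  have hY0 : 0 ≤ Y := by linarith
  have hsY : 1 ≤ Real.sqrt Y := Real.one_le_sqrt.2 hY
  have hsY2 : Real.sqrt Y * Real.sqrt Y = Y := Real.mul_self_sqrt hY0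
  set c : G := redG m (b' - b) with hc
  have hcn : ‖(c : ℂ)‖ ≤ m := norm_redG m hm _
  set Z : ℝ := (Real.sqrt Y + m) ^ 2 with hZ
  have hZ0 : 0 ≤ Z := by positivity
  have hin : ∀ z : G, z ∈ ball Z ↔ ‖(z : ℂ)‖ ≤ Real.sqrt Y + m := fun z =>
    SmallJAux.mem_ball_iff_norm (by positivity) z
  have hinY : ∀ z : G, z ∈ ball Y ↔ ‖(z : ℂ)‖ ≤ Real.sqrt Y := by
    intro z
    have := SmallJAux.mem_ball_iff_norm (s := Real.sqrt Y) (by positivity) z
    rwa [Real.sq_sqrt hY0] at this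
  have hsub : ball Y ⊆ ball Z := by
    intro z hz
    rw [hinY] at hz
    rw [hin]
    linarith
  -- the shift
  have h1 : ((ball Y).filter (fun z => cg m z b)).card ≤ ((ball Z).filter (fun z => cg m z b')).card := by
    refine card_le_card_of_injOn (fun z => z + c) ?_ ?_
    · intro z hz
      have hz' := mem_filter.1 (mem_coe.1 hz)
      rw [mem_coe, mem_filter]
      refine ⟨?_, ?_⟩
      · rw [hin]
        have h2 := (hinY z).1 hz'.1
        have h3 : ((z + c : G) : ℂ) = (z : ℂ) + (c : ℂ) := GaussianInt.toComplex_add z c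
        rw [h3]
        exact (norm_add_le _ _).trans (by linarith)
      · have h2 := hz'.2
        have h3 : cg m c (b' - b) := by
          rw [cg_iff, hc, sub_self]
          exact dvd_zero _
        obtain ⟨p1, p2⟩ := h2
        obtain ⟨q1, q2⟩ := h3
        constructor
        · have := dvd_add p1 q1
          have e : z.re - b.re + (c.re - (b' - b).re) = (z + c).re - b'.re := by
            simp only [Zsqrtd.re_add, Zsqrtd.re_sub]; ring
          rwa [e] at this
        · have := dvd_add p2 q2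
          have e : z.im - b.im + (c.im - (b' - b).im) = (z + c).im - b'.im := by
            simp only [Zsqrtd.im_add, Zsqrtd.im_sub]; ring
          rwa [e] at this
    · intro z _ w _ h
      exact add_right_cancel h
  have h2 : ((ball Z).filter (fun z => cg m z b')).card ≤
      ((ball Y).filter (fun z => cg m z b')).card + (ball Z \ ball Y).card := by
    have h3 : (ball Z).filter (fun z => cg m z b') ⊆
        (ball Y).filter (fun z => cg m z b') ∪ (ball Z \ ball Y) := by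
      intro z hz
      rw [mem_filter] at hz
      rw [mem_union, mem_filter, mem_sdiff]
      by_cases h4 : z ∈ ball Y
      · exact Or.inl ⟨h4, hz.2⟩
      · exact Or.inr ⟨hz.1, h4⟩
    exact (card_le_card h3).trans (card_union_le _ _)
  have h3 : ((ball Z \ ball Y).card : ℝ) ≤ 50 * (m : ℝ) ^ 2 * Real.sqrt Y := by
    have e1 := card_sdiff_add_card_eq_card hsub
    have e2 : ((ball Z \ ball Y).card : ℝ) = (ball Z).card - (ball Y).card := by
      have : ((ball Z \ ball Y).card : ℝ) + (ball Y).card = (ball Z).card := by exact_mod_cast e1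
      linarith
    have a1 := (abs_le.1 (ball_asymp_pi Z hZ0)).2
    have a2 := (abs_le.1 (ball_asymp_pi Y hY0)).1
    have a3 : Real.sqrt Z = Real.sqrt Y + m := by rw [hZ, Real.sqrt_sq (by positivity)]
    rw [a3] at a1
    have a4 : Z = Y + 2 * m * Real.sqrt Y + m ^ 2 := by rw [hZ]; nlinarith
    rw [e2]
    have a5 : ((ball Z).card : ℝ) - (ball Y).card ≤ Real.pi * (Z - Y) +
        2 * Real.pi * (2 * Real.sqrt Y + m + 2) := by linarith
    have a6 : Z - Y = 2 * m * Real.sqrt Y + m ^ 2 := by linarith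
    rw [a6] at a5
    have a7 : Real.pi * (2 * m * Real.sqrt Y + m ^ 2) + 2 * Real.pi * (2 * Real.sqrt Y + m + 2) ≤
        Real.pi * (13 * ((m : ℝ) ^ 2 * Real.sqrt Y)) → ((ball Z).card : ℝ) - (ball Y).card ≤
        Real.pi * (13 * ((m : ℝ) ^ 2 * Real.sqrt Y)) := fun h => a5.trans h
    have a8 : Real.pi * (2 * m * Real.sqrt Y + m ^ 2) + 2 * Real.pi * (2 * Real.sqrt Y + m + 2) =
        Real.pi * ((2 * m * Real.sqrt Y + m ^ 2) + 2 * (2 * Real.sqrt Y + m + 2)) := by ring
    have hq : (m : ℝ) ≤ (m : ℝ) ^ 2 := by nlinarith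
    have hq1 : (1 : ℝ) ≤ (m : ℝ) ^ 2 := by nlinarith
    have b1 : (m : ℝ) * Real.sqrt Y ≤ (m : ℝ) ^ 2 * Real.sqrt Y :=
      mul_le_mul_of_nonneg_right hq (by positivity)
    have b2 : (m : ℝ) ^ 2 ≤ (m : ℝ) ^ 2 * Real.sqrt Y := le_mul_of_one_le_right (by positivity) hsY
    have b3 : Real.sqrt Y ≤ (m : ℝ) ^ 2 * Real.sqrt Y := le_mul_of_one_le_left (by positivity) hq1
    have a9 : (2 * m * Real.sqrt Y + m ^ 2) + 2 * (2 * Real.sqrt Y + m + 2) ≤
        13 * ((m : ℝ) ^ 2 * Real.sqrt Y) := by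
      have b4 : (1 : ℝ) ≤ (m : ℝ) ^ 2 * Real.sqrt Y := hq1.trans b2
      linarith
    have a10 := a7 (by rw [a8]; exact mul_le_mul_of_nonneg_left a9 Real.pi_pos.le)
    refine a10.trans ?_
    have hpi : Real.pi ≤ 3.15 := by have := Real.pi_lt_d2; linarith
    have b5 : Real.pi * (13 * ((m : ℝ) ^ 2 * Real.sqrt Y)) ≤ 3.15 * (13 * ((m : ℝ) ^ 2 * Real.sqrt Y)) :=
      mul_le_mul_of_nonneg_right hpi (by positivity)
    have b6 : 0 ≤ (m : ℝ) ^ 2 * Real.sqrt Y := by positivity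
    linarith
  have h4 : (((ball Y).filter (fun z => cg m z b)).card : ℝ) ≤
      ((ball Y).filter (fun z => cg m z b')).card + (ball Z \ ball Y).card := by
    exact_mod_cast h1.trans h2
  linarith

open Classical in
/-- The same argument for the number of elements: all classes have the same number of elements up to `O_m(sqrt Y)`. -/
theorem countG (m : ℕ) (hm : 0 < m) : ∃ C : ℝ, 0 < C ∧ ∀ (Y : ℝ) (b b' : G), 1 ≤ Y →
    |(((ball Y).filter (fun z => cg m z b)).card : ℝ) - (((ball Y).filter (fun z => cg m z b')).card : ℝ)| ≤ C * Real.sqrt Y := by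
  have hmR : (0 : ℝ) < m := by exact_mod_cast hm
  refine ⟨50 * (m : ℝ) ^ 2, by positivity, fun Y b b' hY => ?_⟩
  have h1 := countG_aux m hm Y b b' hY
  have h2 := countG_aux m hm Y b' b hY
  rw [abs_le]
  constructor <;> linarith

end Pool.Agent.ECM
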