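import Pool.Agent.Lib_MP_f1a94e_ecm.MidG
import Pool.Agent.Lib_MP_f1a94e_ecm.SmallG

/-!
# Piece M-TYPEI: type I sums with characters
-/

set_option autoImplicit false

namespace Pool.Agent.ECM

open Finset Pool.Agent.GaussMR Pool.Agent.GaussCM Pool.Agent.OmAll

open Classical in
/-- `|k| ≤ Y^(3/20)`: `smallG`, `|k| sqrt Y ≤ Y^(13/20)`; larger `k`: `midG` with `Q ≥ 2 A + 1`. -/
theorem typeI_class (m : ℕ) (hm : 0 < m) (A : ℝ) (hA : 1 ≤ A) : ∃ η C : ℝ, 0 < η ∧ η ≤ 1 / 2 ∧ 0 < C ∧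
    ∀ (Y : ℝ) (b : G) (k : ℤ), 1 ≤ Y → k ≠ 0 → |(k : ℝ)| ≤ Y ^ A →
    ‖∑ z ∈ (ball Y).filter (fun z => cg m z b), xi k z‖ ≤ C * Y ^ (1 - η) := by
  obtain ⟨Q, hQ⟩ := exists_nat_ge (2 * A + 1)
  have hQ2 : 2 ≤ Q := by
    have : (2 : ℝ) ≤ (Q : ℝ) := by linarith
    exact_mod_cast this
  obtain ⟨η1, C1, hη1, hη1', hC1, h1⟩ := midG m hm Q hQ2
  obtain ⟨C2, hC2, h2⟩ := smallG m hm
  refine ⟨min η1 (7 / 20), C1 + C2, lt_min hη1 (by norm_num), le_trans (min_le_left _ _) hη1',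
    by positivity, ?_⟩
  intro Y b k hY hk hkA
  have hY0 : 0 < Y := by linarith
  rcases le_or_gt (|(k : ℝ)|) (Y ^ (3 / 20 : ℝ)) with h | h
  · have h3 := h2 Y b k hY hk
    have h4 : |(k : ℝ)| * Real.sqrt Y ≤ Y ^ (1 - min η1 (7 / 20)) := by
      calc |(k : ℝ)| * Real.sqrt Y ≤ Y ^ (3 / 20 : ℝ) * Y ^ (1 / 2 : ℝ) := by
            rw [← Real.sqrt_eq_rpow]
            exact mul_le_mul_of_nonneg_right h (Real.sqrt_nonneg _)
        _ = Y ^ (13 / 20 : ℝ) := by rw [← Real.rpow_add hY0]; norm_num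
        _ ≤ _ := by
            apply Real.rpow_le_rpow_of_exponent_le hY
            have := min_le_right η1 (7 / 20 : ℝ)
            linarith
    have h5 : 0 ≤ Y ^ (1 - min η1 (7 / 20)) := by positivity
    calc _ ≤ C2 * |(k : ℝ)| * Real.sqrt Y := h3
      _ = C2 * (|(k : ℝ)| * Real.sqrt Y) := by ring
      _ ≤ C2 * Y ^ (1 - min η1 (7 / 20)) := mul_le_mul_of_nonneg_left h4 hC2.le
      _ ≤ _ := mul_le_mul_of_nonneg_right (by linarith) h5
  · have h6 : |(k : ℝ)| ≤ Y ^ (((Q : ℝ) - 1) / 2) := by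
      refine le_trans hkA ?_
      apply Real.rpow_le_rpow_of_exponent_le hY
      linarith
    have h3 := h1 Y b k hY h.le h6
    have h4 : Y ^ (1 - η1) ≤ Y ^ (1 - min η1 (7 / 20)) := by
      apply Real.rpow_le_rpow_of_exponent_le hY
      have := min_le_left η1 (7 / 20 : ℝ)
      linarith
    have h5 : 0 ≤ Y ^ (1 - min η1 (7 / 20)) := by positivity
    calc _ ≤ C1 * Y ^ (1 - η1) := h3
      _ ≤ C1 * Y ^ (1 - min η1 (7 / 20)) := mul_le_mul_of_nonneg_left h4 hC1.le
      _ ≤ _ := mul_le_mul_of_nonneg_right (by linarith) h5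

private theorem tc_cg_iff (D : ℕ) (u v : G) : cg D u v ↔ ((D : ℤ) : G) ∣ u - v := by
  unfold cg
  rw [Zsqrtd.intCast_dvd]
  simp

private theorem tc_cg_refl (D : ℕ) (u : G) : cg D u u := by
  rw [tc_cg_iff]; simp

private theorem tc_cg_symm {D : ℕ} {u v : G} (h : cg D u v) : cg D v u := by
  rw [tc_cg_iff] at *
  rw [← neg_sub]; exact (dvd_neg).2 h

private theorem tc_cg_trans {D : ℕ} {u v w : G} (h : cg D u v) (h' : cg D v w) : cg D u w := by
  rw [tc_cg_iff] at *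
  have : u - w = (u - v) + (v - w) := by ring
  rw [this]; exact dvd_add h h'

private theorem tc_cg_mul {D : ℕ} {u v : G} (w : G) (h : cg D u v) : cg D (w * u) (w * v) := by
  rw [tc_cg_iff] at *
  rw [← mul_sub]; exact dvd_mul_of_dvd_right h w

private theorem tc_cg_mul' {D : ℕ} {u v : G} (w : G) (h : cg D u v) : cg D (u * w) (v * w) := by
  rw [mul_comm u, mul_comm v]; exact tc_cg_mul w h

/-- representative with coordinates in `[0, D)` -/
private def tcrd (D : ℕ) (z : G) : G := ⟨z.re % D, z.im % D⟩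

private noncomputable def tcR (D : ℕ) : Finset G :=
  open Classical in ((range D ×ˢ range D).image (fun w : ℕ × ℕ => (⟨(w.1 : ℤ), (w.2 : ℤ)⟩ : G)))

private theorem tc_mem (D : ℕ) (z : G) :
    z ∈ tcR D ↔ (0 ≤ z.re ∧ z.re < D) ∧ (0 ≤ z.im ∧ z.im < D) := by
  classical
  unfold tcR
  rw [mem_image]
  constructor
  · rintro ⟨w, hw, rfl⟩
    rw [mem_product, mem_range, mem_range] at hw
    refine ⟨⟨by simp, by simpa using hw.1⟩, ⟨by simp, by simpa using hw.2⟩⟩
  · rintro ⟨⟨h1, h2⟩, h3, h4⟩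
    refine ⟨(z.re.toNat, z.im.toNat), ?_, ?_⟩
    · rw [mem_product, mem_range, mem_range]
      constructor
      · show z.re.toNat < D
        omega
      · show z.im.toNat < D
        omega
    · apply Zsqrtd.ext
      · simp [h1]
      · simp [h3]

private theorem tc_card (D : ℕ) : ((tcR D).card : ℝ) ≤ (D : ℝ) ^ 2 := by
  classical
  have : (tcR D).card ≤ D ^ 2 := by
    unfold tcR
    refine le_trans card_image_le ?_
    rw [card_product, card_range]
    exact le_of_eq (by ring)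
  exact_mod_cast this

private theorem tc_rd_mem (D : ℕ) (hD : 0 < D) (z : G) : tcrd D z ∈ tcR D := by
  rw [tc_mem]
  have hD' : (0 : ℤ) < D := by exact_mod_cast hD
  refine ⟨⟨Int.emod_nonneg _ hD'.ne', Int.emod_lt_of_pos _ hD'⟩,
    ⟨Int.emod_nonneg _ hD'.ne', Int.emod_lt_of_pos _ hD'⟩⟩

private theorem tc_rd_cg (D : ℕ) (z : G) : cg D (tcrd D z) z := by
  unfold cg tcrd
  constructor
  · have := Int.emod_add_mul_ediv z.re D
    exact ⟨-(z.re / D), by simp only; linarith⟩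
  · have := Int.emod_add_mul_ediv z.im D
    exact ⟨-(z.im / D), by simp only; linarith⟩

private theorem tc_unique (D : ℕ) {u v : G} (hu : u ∈ tcR D) (hv : v ∈ tcR D)
    (h : cg D u v) : u = v := by
  rw [tc_mem] at hu hv
  obtain ⟨h1, h2⟩ := h
  have key : ∀ a b : ℤ, 0 ≤ a → a < D → 0 ≤ b → b < D → (D : ℤ) ∣ a - b → a = b := by
    intro a b ha ha' hb hb' hd
    have := Int.eq_zero_of_abs_lt_dvd hd (by rw [abs_lt]; constructor <;> linarith)
    linarith
  exact Zsqrtd.ext (key _ _ hu.1.1 hu.1.2 hv.1.1 hv.1.2 h1) (key _ _ hu.2.1 hu.2.2 hv.2.1 hv.2.2 h2)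

private theorem tc_sum_zero (D : ℕ) (hD : 0 < D) (χ : G → ℂ) (hχ : Chi D χ) (hp : ¬ Pri D χ) :
    ∑ c ∈ tcR D, χ c = 0 := by
  unfold Pri at hp
  push Not at hp
  obtain ⟨z, ⟨w, hw⟩, hz⟩ := hp
  have hw' : cg D (w * z) 1 := by rwa [mul_comm]
  have h1 : ∑ c ∈ tcR D, χ c = ∑ c ∈ tcR D, χ (z * c) := by
    refine (Finset.sum_nbij' (fun c => tcrd D (z * c)) (fun c => tcrd D (w * c)) ?_ ?_ ?_ ?_ ?_).symm
    · intro c _; exact tc_rd_mem D hD _
    · intro c _; exact tc_rd_mem D hD _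
    · intro c hc
      refine tc_unique D (tc_rd_mem D hD _) hc ?_
      refine tc_cg_trans (tc_rd_cg D _) ?_
      refine tc_cg_trans (tc_cg_mul w (tc_rd_cg D _)) ?_
      rw [← mul_assoc]
      have := tc_cg_mul' c hw'
      rwa [one_mul] at this
    · intro c hc
      refine tc_unique D (tc_rd_mem D hD _) hc ?_
      refine tc_cg_trans (tc_rd_cg D _) ?_
      refine tc_cg_trans (tc_cg_mul z (tc_rd_cg D _)) ?_
      rw [← mul_assoc]
      have := tc_cg_mul' c hw
      rwa [one_mul] at this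
    · intro c _
      exact (hχ.per _ _ (tc_rd_cg D _)).symm
  have h2 : ∑ c ∈ tcR D, χ (z * c) = χ z * ∑ c ∈ tcR D, χ c := by
    rw [mul_sum]
    exact sum_congr rfl (fun c _ => hχ.mul z c)
  rw [h2] at h1
  have h3 : (χ z - 1) * ∑ c ∈ tcR D, χ c = 0 := by
    rw [sub_mul, one_mul, ← h1, sub_self]
  rcases mul_eq_zero.1 h3 with h4 | h4
  · exact absurd (sub_eq_zero.1 h4) hz
  · exact h4

open Classical in
private theorem tc_split (D : ℕ) (hD : 0 < D) (Y : ℝ) (f : G → ℂ) :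
    ∑ z ∈ ball Y, f z = ∑ c ∈ tcR D, ∑ z ∈ (ball Y).filter (fun z => cg D z c), f z := by
  rw [← Finset.sum_fiberwise_of_maps_to (s := ball Y) (t := tcR D) (g := tcrd D)
    (fun z _ => tc_rd_mem D hD z) f]
  apply sum_congr rfl
  intro c hc
  apply sum_congr _ (fun _ _ => rfl)
  apply filter_congr
  intro z _
  constructor
  · intro h
    rw [← h]
    exact tc_cg_symm (tc_rd_cg D z)
  · intro h
    exact tc_unique D (tc_rd_mem D hD _) hc (tc_cg_trans (tc_rd_cg D z) h)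

/-- Split into the `D²` residue classes modulo `D` (representatives with coordinates in `[0, D)`). `k ≠ 0`: `typeI_class`. `k = 0` and `χ` not principal: there is `c`, invertible modulo `D`, with `χ c ≠ 1`; by `countG` the sum is
`N ∑_{b mod D} χ b + O(sqrt Y)`, and `∑_b χ b = ∑_b χ (c b) = χ c ∑_b χ b` (multiplication by `c` permutes the classes), so `∑_b χ b = 0`. -/
theorem typeChi (D : ℕ) (hD : 0 < D) (A : ℝ) (hA : 1 ≤ A) : ∃ η C : ℝ, 0 < η ∧ η ≤ 1 / 2 ∧ 0 < C ∧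
    ∀ χ : G → ℂ, Chi D χ → ∀ (Y : ℝ) (k : ℤ), 1 ≤ Y → (k ≠ 0 ∨ ¬ Pri D χ) → |(k : ℝ)| ≤ Y ^ A →
    ‖∑ z ∈ ball Y, χ z * xi k z‖ ≤ C * Y ^ (1 - η) := by
  classical
  obtain ⟨η, C1, hη, hη', hC1, h1⟩ := typeI_class D hD A hA
  obtain ⟨C2, hC2, h2⟩ := countG D hD
  have hDr : (0 : ℝ) < (D : ℝ) := by exact_mod_cast hD
  refine ⟨η, (D : ℝ) ^ 2 * (C1 + C2), hη, hη', by positivity, ?_⟩
  intro χ hχ Y k hY hk hkA
  have hY0 : 0 < Y := by linarith
  have hsplit : ∑ z ∈ ball Y, χ z * xi k z =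
      ∑ c ∈ tcR D, χ c * ∑ z ∈ (ball Y).filter (fun z => cg D z c), xi k z := by
    rw [tc_split D hD Y]
    apply sum_congr rfl
    intro c _
    rw [mul_sum]
    apply sum_congr rfl
    intro z hz
    rw [mem_filter] at hz
    rw [hχ.per _ _ hz.2]
  have hYp : (0 : ℝ) ≤ Y ^ (1 - η) := by positivity
  have hcard := tc_card D
  -- a common bound
  have bound : ∀ (g : G → ℂ) (B : ℝ), 0 ≤ B → (∀ c, ‖g c‖ ≤ B) →
      ‖∑ c ∈ tcR D, χ c * g c‖ ≤ (D : ℝ) ^ 2 * B := by
    intro g B hB hg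
    calc ‖∑ c ∈ tcR D, χ c * g c‖ ≤ ∑ c ∈ tcR D, ‖χ c * g c‖ := norm_sum_le _ _
      _ ≤ ∑ c ∈ tcR D, B := by
          apply sum_le_sum
          intro c _
          rw [norm_mul]
          calc ‖χ c‖ * ‖g c‖ ≤ 1 * B := mul_le_mul (hχ.le c) (hg c) (norm_nonneg _) zero_le_one
            _ = B := one_mul B
      _ = (tcR D).card * B := by rw [sum_const, nsmul_eq_mul]
      _ ≤ _ := mul_le_mul_of_nonneg_right hcard hB
  by_cases hk0 : k = 0
  · subst hk0
    have hp : ¬ Pri D χ := by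
      rcases hk with h | h
      · exact absurd rfl h
      · exact h
    have hxi : ∀ z, xi 0 z = 1 := fun z => by unfold xi; simp
    have h0 := tc_sum_zero D hD χ hχ hp
    set N0 : ℂ := ((((ball Y).filter (fun z => cg D z 0)).card : ℝ) : ℂ) with hN0
    have h3 : ∑ z ∈ ball Y, χ z * xi 0 z =
        ∑ c ∈ tcR D, χ c * ((∑ z ∈ (ball Y).filter (fun z => cg D z c), xi 0 z) - N0) := by
      rw [hsplit]
      have : ∑ c ∈ tcR D, χ c * ((∑ z ∈ (ball Y).filter (fun z => cg D z c), xi 0 z) - N0) =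
          ∑ c ∈ tcR D, χ c * (∑ z ∈ (ball Y).filter (fun z => cg D z c), xi 0 z) -
          (∑ c ∈ tcR D, χ c) * N0 := by
        rw [sum_mul, ← sum_sub_distrib]
        exact sum_congr rfl (fun c _ => by ring)
      rw [this, h0, zero_mul, sub_zero]
    rw [h3]
    have hsq : Real.sqrt Y ≤ Y ^ (1 - η) := by
      rw [Real.sqrt_eq_rpow]
      apply Real.rpow_le_rpow_of_exponent_le hY
      linarith
    calc _ ≤ (D : ℝ) ^ 2 * (C2 * Real.sqrt Y) := by
          apply bound (fun c => (∑ z ∈ (ball Y).filter (fun z => cg D z c), xi 0 z) - N0)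
            (C2 * Real.sqrt Y) (by positivity)
          intro c
          have h4 := h2 Y c 0 hY
          have h5 : (∑ z ∈ (ball Y).filter (fun z => cg D z c), xi 0 z) - N0 =
              (((((ball Y).filter (fun z => cg D z c)).card : ℝ) -
                (((ball Y).filter (fun z => cg D z 0)).card : ℝ) : ℝ) : ℂ) := by
            rw [hN0]
            push_cast
            congr 1
            rw [sum_congr rfl (fun z _ => hxi z)]
            simp
          rw [h5, Complex.norm_real, Real.norm_eq_abs]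
          exact h4
      _ ≤ (D : ℝ) ^ 2 * (C2 * Y ^ (1 - η)) := by
          apply mul_le_mul_of_nonneg_left _ (by positivity)
          exact mul_le_mul_of_nonneg_left hsq hC2.le
      _ ≤ (D : ℝ) ^ 2 * (C1 + C2) * Y ^ (1 - η) := by
          rw [mul_assoc]
          apply mul_le_mul_of_nonneg_left _ (by positivity)
          exact mul_le_mul_of_nonneg_right (by linarith) hYp
  · rw [hsplit]
    calc _ ≤ (D : ℝ) ^ 2 * (C1 * Y ^ (1 - η)) := by
          apply bound (fun c => ∑ z ∈ (ball Y).filter (fun z => cg D z c), xi k z)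
            (C1 * Y ^ (1 - η)) (by positivity)
          intro c
          exact h1 Y c k hY hk0 hkA
      _ ≤ (D : ℝ) ^ 2 * (C1 + C2) * Y ^ (1 - η) := by
          rw [mul_assoc]
          apply mul_le_mul_of_nonneg_left _ (by positivity)
          exact mul_le_mul_of_nonneg_right (by linarith) hYp

end Pool.Agent.ECM
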