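import Pool.Agent.Lib_MP_f1a94e_ecm.ZDefs
import Pool.Agent.Lib_MP_f1a94e_ecm.TypeI
import Pool.Agent.Lib_MP_f1a94e_mr.Weight

/-!
# Piece M-LLIM: the value of the L-series at one
-/

set_option autoImplicit false

namespace Pool.Agent.ECM

open Finset Pool.Agent.GaussMR Pool.Agent.GaussCM Pool.Agent.OmAll

private theorem ll_sub {a b : ℝ} (h : a ≤ b) : ob a ⊆ ob b := by
  intro z hz
  rw [Weight.mem_ob] at *
  exact ⟨hz.1.trans h, hz.2⟩

private theorem ll_ball (D : ℕ) (χ : G → ℂ) (hχ : Chi D χ) (t : ℝ) :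
    ∑ z ∈ ob t, χ z = ∑ z ∈ ball t, χ z * xi 0 z := by
  classical
  have h1 : ∑ z ∈ ball t, χ z * xi 0 z = ∑ z ∈ ball t, χ z :=
    sum_congr rfl (fun z _ => by rw [xi_zero, mul_one])
  rw [h1, ← Weight.sum_odd]
  refine sum_congr rfl (fun z _ => ?_)
  split_ifs with h
  · rfl
  · exact (hχ.even z h).symm

private theorem ll_diff (D : ℕ) (hD : 0 < D) (χ : G → ℂ) (hχ : Chi D χ) (hnp : ¬ Pri D χ) :
    ∃ (η C : ℝ), 0 < η ∧ η ≤ 1 / 2 ∧ 0 < C ∧ ∀ Y Y' : ℝ, 1 ≤ Y → Y ≤ Y' →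
      ‖∑ z ∈ ob Y' \ ob Y, χ z / (nm z : ℂ)‖ ≤ C * Y ^ (-η) := by
  obtain ⟨η, C, hη, hη', hC, h⟩ := typeChi D hD 1 le_rfl
  refine ⟨η, 4 * C / η, hη, hη', by positivity, ?_⟩
  intro Y Y' hY hYY
  have h1 := Weight.partial_odd η hη (by linarith) χ 0 C Y Y' hY hYY hC.le ?_
  · simpa using h1
  · intro t ht _
    have ht1 : 1 ≤ t := hY.trans ht
    have h2 := h χ hχ t 0 ht1 (Or.inr hnp) (by simp; linarith)
    rw [← ll_ball D χ hχ t] at h2
    simpa using h2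

private theorem ll_SL (χ : G → ℂ) {Y Y' : ℝ} (h : Y ≤ Y') :
    SL χ Y' - SL χ Y = ∑ z ∈ ob Y' \ ob Y, χ z / (nm z : ℂ) := by
  unfold SL
  rw [← sum_sdiff (ll_sub h)]
  ring

/-- `partial_odd` with `κ = 0`, `δ = η`, `typeChi` with `k = 0`, `A = 1` (`χ` vanishes on even elements): `‖SL χ Y' - SL χ Y‖ ≤ C Y^(-η)` for `1 ≤ Y ≤ Y'`; so `SL χ` is Cauchy. -/
theorem l_lim (D : ℕ) (hD : 0 < D) (χ : G → ℂ) (hχ : Chi D χ) (hnp : ¬ Pri D χ) : ∃ (l : ℂ) (η C : ℝ), 0 < η ∧ η ≤ 1 / 2 ∧ 0 < C ∧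
    ∀ Y : ℝ, 1 ≤ Y → ‖SL χ Y - l‖ ≤ C * Y ^ (-η) := by
  obtain ⟨η, C, hη, hη', hC, h⟩ := ll_diff D hD χ hχ hnp
  have hd : ∀ Y Y' : ℝ, 1 ≤ Y → Y ≤ Y' → ‖SL χ Y' - SL χ Y‖ ≤ C * Y ^ (-η) := by
    intro Y Y' hY hYY
    rw [ll_SL χ hYY]
    exact h Y Y' hY hYY
  have hlim0 : Filter.Tendsto (fun n : ℕ => C * ((n : ℝ) + 1) ^ (-η)) Filter.atTop (nhds 0) := by
    have h1 : Filter.Tendsto (fun n : ℕ => ((n : ℝ) + 1)) Filter.atTop Filter.atTop :=
      Filter.tendsto_atTop_add_const_right _ _ tendsto_natCast_atTop_atTop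
    have h2 := (tendsto_rpow_neg_atTop hη).comp h1
    have h3 := h2.const_mul C
    simpa using h3
  have hcs : CauchySeq (fun n : ℕ => SL χ ((n : ℝ) + 1)) := by
    refine cauchySeq_of_le_tendsto_0 (fun n => 2 * (C * ((n : ℝ) + 1) ^ (-η))) ?_ ?_
    · intro n m N hn hm
      have key : ∀ k : ℕ, N ≤ k → ‖SL χ ((k : ℝ) + 1) - SL χ ((N : ℝ) + 1)‖ ≤
          C * ((N : ℝ) + 1) ^ (-η) := by
        intro k hk
        apply hd
        · have : (0 : ℝ) ≤ N := Nat.cast_nonneg N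
          linarith
        · have : (N : ℝ) ≤ k := by exact_mod_cast hk
          linarith
      rw [dist_eq_norm]
      have e : SL χ ((n : ℝ) + 1) - SL χ ((m : ℝ) + 1) =
          (SL χ ((n : ℝ) + 1) - SL χ ((N : ℝ) + 1)) - (SL χ ((m : ℝ) + 1) - SL χ ((N : ℝ) + 1)) := by
        ring
      rw [e]
      refine (norm_sub_le _ _).trans ?_
      have := key n hn
      have := key m hm
      linarith
    · simpa using hlim0.const_mul 2
  obtain ⟨l, hl⟩ := cauchySeq_tendsto_of_complete hcs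
  refine ⟨l, η, C, hη, hη', hC, ?_⟩
  intro Y hY
  have h1 : Filter.Tendsto (fun n : ℕ => ‖SL χ ((n : ℝ) + 1) - SL χ Y‖) Filter.atTop
      (nhds ‖l - SL χ Y‖) := (hl.sub_const _).norm
  rw [norm_sub_rev]
  refine le_of_tendsto h1 ?_
  filter_upwards [Filter.eventually_ge_atTop ⌈Y⌉₊] with n hn
  apply hd Y _ hY
  have h2 : Y ≤ (n : ℝ) := (Nat.le_ceil Y).trans (by exact_mod_cast hn)
  linarith

private theorem ll_log (n N : ℕ) (hn : 1 ≤ n) (hN : n ≤ N) :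
    Real.log n = ∑ k ∈ Ico 1 N, if k < n then (Real.log ((k : ℝ) + 1) - Real.log k) else 0 := by
  rw [← sum_filter]
  have h1 : (Ico 1 N).filter (fun k => k < n) = Ico 1 n := by
    ext k
    simp only [mem_filter, mem_Ico]
    omega
  rw [h1]
  induction n with
  | zero => omega
  | succ m ih =>
    rcases Nat.eq_zero_or_pos m with hm | hm
    · subst hm
      simp
    · rw [sum_Ico_succ_top hm, ← ih hm (by omega) (by
        ext k
        simp only [mem_filter, mem_Ico]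
        omega)]
      push_cast
      ring

/-- Partial summation from `typeChi` (`k = 0`): the function `log t / t` is of bounded variation on `[1, ∞)` and `∫ t^(1-η) |(log t / t)'| dt < ∞` (`sum_mul_eq_sub_integral_mul` / the method of Lib_MP_f1a94e_mr/Psum.lean), or: `∑ χ z log nm z / nm z = ∑_(2^j ≤ Y) (pieces)`, or
`log nm z = ∫_1^(nm z) dt/t`, so the sum is `∫_1^Y (SL χ Y - SL χ t) dt / t`, at most `∫ 2 C t^(-η) dt/t`. -/
theorem mlog (D : ℕ) (hD : 0 < D) (χ : G → ℂ) (hχ : Chi D χ) (hnp : ¬ Pri D χ) : ∃ C : ℝ, ∀ Y : ℝ, 1 ≤ Y →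
    ‖∑ z ∈ ob Y, χ z * (Real.log (nm z) : ℂ) / (nm z : ℂ)‖ ≤ C := by
  classical
  obtain ⟨η, C, hη, hη', hC, h⟩ := ll_diff D hD χ hχ hnp
  have hsum : Summable (fun k : ℕ => ((k : ℝ) ^ (1 + η))⁻¹) :=
    Real.summable_nat_rpow_inv.2 (by linarith)
  refine ⟨C * ∑' k : ℕ, ((k : ℝ) ^ (1 + η))⁻¹, ?_⟩
  intro Y hY
  set N : ℕ := ⌊Y⌋₊ with hN
  set L : ℕ → ℝ := fun k => Real.log ((k : ℝ) + 1) - Real.log k with hL
  have e1 : ∑ z ∈ ob Y, χ z * (Real.log (nm z) : ℂ) / (nm z : ℂ) =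
      ∑ k ∈ Ico 1 N, (L k : ℂ) * ∑ z ∈ ob Y \ ob (k : ℝ), χ z / (nm z : ℂ) := by
    have e2 : ∀ z ∈ ob Y, χ z * (Real.log (nm z) : ℂ) / (nm z : ℂ) =
        ∑ k ∈ Ico 1 N, (if k < nm z then (L k : ℂ) * (χ z / (nm z : ℂ)) else 0) := by
      intro z hz
      rw [Weight.mem_ob] at hz
      have h1 : 1 ≤ nm z := nm_pos_of_odd hz.2
      have h2 : nm z ≤ N := Nat.le_floor hz.1
      rw [ll_log (nm z) N h1 h2]
      push_cast
      rw [mul_sum, sum_div]
      refine sum_congr rfl (fun k _ => ?_)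
      split_ifs with hk
      · rw [hL]
        push_cast
        ring
      · simp
    rw [sum_congr rfl e2, sum_comm]
    refine sum_congr rfl (fun k _ => ?_)
    rw [mul_sum, ← sum_filter]
    refine sum_congr ?_ (fun _ _ => rfl)
    ext z
    simp only [mem_filter, mem_sdiff, Weight.mem_ob]
    constructor
    · rintro ⟨h1, h2⟩
      refine ⟨h1, ?_⟩
      rintro ⟨h3, -⟩
      have h4 : nm z ≤ k := by exact_mod_cast h3
      omega
    · rintro ⟨h1, h2⟩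
      refine ⟨h1, ?_⟩
      by_contra h3
      apply h2
      refine ⟨?_, h1.2⟩
      exact_mod_cast not_lt.1 h3
  rw [e1]
  calc ‖∑ k ∈ Ico 1 N, (L k : ℂ) * ∑ z ∈ ob Y \ ob (k : ℝ), χ z / (nm z : ℂ)‖
      ≤ ∑ k ∈ Ico 1 N, ‖(L k : ℂ) * ∑ z ∈ ob Y \ ob (k : ℝ), χ z / (nm z : ℂ)‖ := norm_sum_le _ _
    _ ≤ ∑ k ∈ Ico 1 N, C * ((k : ℝ) ^ (1 + η))⁻¹ := by
        refine sum_le_sum (fun k hk => ?_)
        rw [mem_Ico] at hk
        have hk1 : (1 : ℝ) ≤ k := by exact_mod_cast hk.1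
        have hk0 : (0 : ℝ) < k := by linarith
        have hkY : (k : ℝ) ≤ Y := by
          have h1 : (k : ℝ) ≤ N := by exact_mod_cast hk.2.le
          exact h1.trans (Nat.floor_le (by linarith))
        have h1 := h k Y hk1 hkY
        have h2 : 0 ≤ L k := by
          rw [hL]
          have := Real.log_le_log hk0 (by linarith : (k : ℝ) ≤ (k : ℝ) + 1)
          simp only
          linarith
        have h3 : L k ≤ (k : ℝ)⁻¹ := by
          have h4 : L k = Real.log (1 + (k : ℝ)⁻¹) := by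
            rw [hL]
            simp only
            rw [← Real.log_div (by linarith) hk0.ne']
            congr 1
            field_simp
          rw [h4]
          have h5 := Real.log_le_sub_one_of_pos (by positivity : (0 : ℝ) < 1 + (k : ℝ)⁻¹)
          linarith
        rw [norm_mul, Complex.norm_real, Real.norm_eq_abs, abs_of_nonneg h2]
        calc L k * ‖∑ z ∈ ob Y \ ob (k : ℝ), χ z / (nm z : ℂ)‖
            ≤ (k : ℝ)⁻¹ * (C * (k : ℝ) ^ (-η)) :=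
              mul_le_mul h3 h1 (norm_nonneg _) (by positivity)
          _ = C * ((k : ℝ) ^ (1 + η))⁻¹ := by
              rw [Real.rpow_add hk0, Real.rpow_one, Real.rpow_neg hk0.le, mul_inv]
              ring
    _ = C * ∑ k ∈ Ico 1 N, ((k : ℝ) ^ (1 + η))⁻¹ := by rw [mul_sum]
    _ ≤ C * ∑' k : ℕ, ((k : ℝ) ^ (1 + η))⁻¹ := by
        refine mul_le_mul_of_nonneg_left ?_ hC.le
        exact hsum.sum_le_tsum _ (fun k _ => by positivity)

end Pool.Agent.ECM
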