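import Pool.Agent.Lib_MP_f1a94e_ecm.ThH
import Pool.Agent.Lib_MP_f1a94e_ecm.LLim
import Mathlib.Analysis.Complex.AbelLimit

/-!
# Piece M-HINT: the integral of the exponential series is the L-value
-/

set_option autoImplicit false

namespace Pool.Agent.ECM

open Finset Pool.Agent.GaussMR Pool.Agent.GaussCM Pool.Agent.OmAll

private theorem hint_mem_ob {Y : ℝ} {z : G} : z ∈ ob Y ↔ (nm z : ℝ) ≤ Y ∧ Odd (nm z) := by
  classical
  simp [ob, mem_ball]

/-- coefficients of the power series -/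
private noncomputable def hf (χ : G → ℂ) (n : ℕ) : ℂ :=
  ∑ z ∈ (ob (n : ℝ)).filter (fun z => nm z = n), χ z / (nm z : ℂ)

private theorem hf_sum (χ : G → ℂ) (x : ℂ) (n : ℕ) :
    ∑ i ∈ range (n + 1), hf χ i * x ^ i = ∑ z ∈ ob (n : ℝ), χ z / (nm z : ℂ) * x ^ (nm z) := by
  have hmaps : ∀ z ∈ ob (n : ℝ), nm z ∈ range (n + 1) := by
    intro z hz
    have h1 : nm z ≤ n := by exact_mod_cast (hint_mem_ob.1 hz).1
    rw [mem_range]
    omega
  rw [← sum_fiberwise_of_maps_to hmaps]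
  refine sum_congr rfl fun i hi => ?_
  unfold hf
  rw [sum_mul]
  have hset : (ob (i : ℝ)).filter (fun z => nm z = i) = (ob (n : ℝ)).filter (fun z => nm z = i) := by
    ext z
    rw [mem_filter, mem_filter, hint_mem_ob, hint_mem_ob]
    rw [mem_range] at hi
    have hin : (i : ℝ) ≤ n := by exact_mod_cast (by omega : i ≤ n)
    constructor
    · rintro ⟨⟨h1, h2⟩, h3⟩
      exact ⟨⟨h1.trans hin, h2⟩, h3⟩
    · rintro ⟨⟨h1, h2⟩, h3⟩
      exact ⟨⟨by rw [h3], h2⟩, h3⟩
  rw [hset]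
  refine sum_congr rfl fun z hz => ?_
  rw [(mem_filter.1 hz).2]

private theorem hf_SL (χ : G → ℂ) (n : ℕ) : ∑ i ∈ range (n + 1), hf χ i = SL χ n := by
  have := hf_sum χ 1 n
  simp only [one_pow, mul_one] at this
  exact this

private theorem hint_countable : Countable G :=
  Function.Injective.countable (f := fun z : G => (z.re, z.im))
    (fun _ _ h => Zsqrtd.ext (congrArg Prod.fst h) (congrArg Prod.snd h))

private theorem hint_tsum {D : ℕ} {χ : G → ℂ} (hχ : Chi D χ) {l : ℂ}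
    (hl : Filter.Tendsto (fun n : ℕ => ∑ i ∈ range n, hf χ i) Filter.atTop (nhds l)) {δ : ℝ} (hδ : 0 < δ) :
    ∑' n : ℕ, hf χ n * ((Real.exp (-δ) : ℝ) : ℂ) ^ n =
      ∑' z : G, χ z / (nm z : ℂ) * ((Real.exp (-δ) : ℝ) : ℂ) ^ (nm z) := by
  set x : ℂ := ((Real.exp (-δ) : ℝ) : ℂ) with hx
  have hx1 : ‖x‖ < 1 := by
    rw [hx, Complex.norm_real, Real.norm_eq_abs, abs_of_pos (Real.exp_pos _), Real.exp_lt_one_iff]
    linarith
  have hs1 : Summable fun n : ℕ => hf χ n * x ^ n :=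
    summable_powerSeries_of_norm_lt_one hl.cauchySeq hx1
  have hs2 : Summable fun z : G => χ z / (nm z : ℂ) * x ^ (nm z) := by
    refine Summable.of_norm_bounded (summ_exp δ hδ) fun z => ?_
    rw [norm_mul, norm_div, norm_pow, Complex.norm_natCast, hx, Complex.norm_real, Real.norm_eq_abs,
      abs_of_pos (Real.exp_pos _), ← Real.exp_nat_mul]
    have h1 : ‖χ z‖ / (nm z : ℝ) ≤ 1 := by
      rcases Nat.eq_zero_or_pos (nm z) with h0 | h0
      · rw [h0]
        simp
      · have h2 : (1 : ℝ) ≤ nm z := by exact_mod_cast h0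
        rw [div_le_one (by linarith)]
        exact (hχ.le z).trans h2
    calc ‖χ z‖ / (nm z : ℝ) * Real.exp (nm z * -δ) ≤ 1 * Real.exp (nm z * -δ) :=
          mul_le_mul_of_nonneg_right h1 (Real.exp_pos _).le
      _ = Real.exp (-(δ * nm z)) := by rw [one_mul]; congr 1; ring
  have ht1 : Filter.Tendsto (fun n : ℕ => ∑ i ∈ range (n + 1), hf χ i * x ^ i) Filter.atTop
      (nhds (∑' n : ℕ, hf χ n * x ^ n)) :=
    (hs1.hasSum.tendsto_sum_nat).comp (Filter.tendsto_add_atTop_nat 1)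
  have hmono : Monotone fun n : ℕ => ball (n : ℝ) := by
    intro a b hab z hz
    rw [mem_ball] at hz ⊢
    exact hz.trans (by exact_mod_cast hab)
  have hball : Filter.Tendsto (fun n : ℕ => ball (n : ℝ)) Filter.atTop Filter.atTop :=
    Filter.tendsto_atTop_finset_of_monotone hmono fun z => ⟨nm z, by rw [mem_ball]⟩
  have ht2 := hs2.hasSum.comp hball
  have ht3 : (fun n : ℕ => ∑ i ∈ range (n + 1), hf χ i * x ^ i) =
      (fun s : Finset G => ∑ z ∈ s, χ z / (nm z : ℂ) * x ^ (nm z)) ∘ fun n : ℕ => ball (n : ℝ) := by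
    funext n
    rw [hf_sum]
    show _ = ∑ z ∈ ball (n : ℝ), χ z / (nm z : ℂ) * x ^ (nm z)
    classical
    unfold ob
    rw [sum_filter]
    refine sum_congr rfl fun z _ => ?_
    split_ifs with h
    · rfl
    · rw [hχ.even z h]
      simp
  rw [ht3] at ht1
  exact tendsto_nhds_unique ht1 ht2

private theorem hint_int {D : ℕ} {χ : G → ℂ} (hχ : Chi D χ) {δ : ℝ} (hδ : 0 < δ) :
    ∫ s in Set.Ioi δ, HH χ s = ∑' z : G, χ z / (nm z : ℂ) * ((Real.exp (-δ) : ℝ) : ℂ) ^ (nm z) := by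
  have := hint_countable
  have hint : ∀ z : G, MeasureTheory.IntegrableOn
      (fun s : ℝ => χ z * ((Real.exp (-(s * nm z)) : ℝ) : ℂ)) (Set.Ioi δ) := by
    intro z
    rcases Nat.eq_zero_or_pos (nm z) with h0 | h0
    · have h1 : χ z = 0 := hχ.even z (by rw [h0]; decide)
      simp only [h1, zero_mul]
      exact MeasureTheory.integrableOn_zero
    · have h1 : (0 : ℝ) < nm z := by exact_mod_cast h0
      have h2 := (exp_neg_integrableOn_Ioi δ h1).ofReal (𝕜 := ℂ)
      have h3 := h2.const_mul (χ z)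
      refine MeasureTheory.Integrable.congr h3 (Filter.Eventually.of_forall fun s => ?_)
      show χ z * ((Real.exp (-(nm z : ℝ) * s) : ℝ) : ℂ) = χ z * ((Real.exp (-(s * nm z)) : ℝ) : ℂ)
      congr 3
      ring
  have hreal : ∀ z : G, 0 < nm z → ∫ s in Set.Ioi δ, Real.exp (-(s * nm z)) =
      Real.exp (-(δ * nm z)) / nm z := by
    intro z h0
    have h1 : (0 : ℝ) < nm z := by exact_mod_cast h0
    have h2 := integral_exp_mul_Ioi (a := -(nm z : ℝ)) (by linarith) δ
    have h3 : (fun s : ℝ => Real.exp (-(s * nm z))) = fun s : ℝ => Real.exp (-(nm z : ℝ) * s) := by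
      funext s
      congr 1
      ring
    rw [h3, h2, neg_div_neg_eq]
    congr 2
    ring
  have hval : ∀ z : G, ∫ s in Set.Ioi δ, χ z * ((Real.exp (-(s * nm z)) : ℝ) : ℂ) =
      χ z / (nm z : ℂ) * ((Real.exp (-δ) : ℝ) : ℂ) ^ (nm z) := by
    intro z
    rcases Nat.eq_zero_or_pos (nm z) with h0 | h0
    · have h1 : χ z = 0 := hχ.even z (by rw [h0]; decide)
      simp [h1]
    · rw [MeasureTheory.integral_const_mul]
      have h1 : ∫ s in Set.Ioi δ, ((Real.exp (-(s * nm z)) : ℝ) : ℂ) =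
          ((∫ s in Set.Ioi δ, Real.exp (-(s * nm z)) : ℝ) : ℂ) := integral_ofReal
      rw [h1, hreal z h0, ← Complex.ofReal_pow, ← Real.exp_nat_mul]
      have h2 : Real.exp ((nm z : ℝ) * -δ) = Real.exp (-(δ * nm z)) := by
        congr 1
        ring
      rw [h2]
      push_cast
      ring
  have hnorm : Summable fun z : G => ∫ s in Set.Ioi δ, ‖χ z * ((Real.exp (-(s * nm z)) : ℝ) : ℂ)‖ := by
    refine Summable.of_nonneg_of_le (fun z => MeasureTheory.integral_nonneg fun s => norm_nonneg _)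
      (fun z => ?_) (summ_exp δ hδ)
    rcases Nat.eq_zero_or_pos (nm z) with h0 | h0
    · have h1 : χ z = 0 := hχ.even z (by rw [h0]; decide)
      simp only [h1, zero_mul, norm_zero, MeasureTheory.integral_zero]
      exact (Real.exp_pos _).le
    · have h1 : (1 : ℝ) ≤ nm z := by exact_mod_cast h0
      have h2 : (fun s : ℝ => ‖χ z * ((Real.exp (-(s * nm z)) : ℝ) : ℂ)‖) =
          fun s : ℝ => ‖χ z‖ * Real.exp (-(s * nm z)) := by
        funext s
        rw [norm_mul, Complex.norm_real, Real.norm_eq_abs, abs_of_pos (Real.exp_pos _)]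
      rw [h2, MeasureTheory.integral_const_mul, hreal z h0]
      have h3 : Real.exp (-(δ * nm z)) / (nm z : ℝ) ≤ Real.exp (-(δ * nm z)) :=
        div_le_self (Real.exp_pos _).le h1
      calc ‖χ z‖ * (Real.exp (-(δ * nm z)) / (nm z : ℝ)) ≤ 1 * Real.exp (-(δ * nm z)) :=
            mul_le_mul (hχ.le z) h3 (by positivity) zero_le_one
        _ = Real.exp (-(δ * nm z)) := one_mul _
  have hs := MeasureTheory.hasSum_integral_of_summable_integral_norm
    (μ := MeasureTheory.volume.restrict (Set.Ioi δ))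
    (F := fun z s => χ z * ((Real.exp (-(s * nm z)) : ℝ) : ℂ)) (fun z => hint z) hnorm
  simp only [hval] at hs
  exact hs.tsum_eq.symm

private theorem hint_integrable (D : ℕ) (hD : 0 < D) (χ : G → ℂ) (hχ : Chi D χ) (hnp : ¬ Pri D χ) :
    MeasureTheory.IntegrableOn (HH χ) (Set.Ioi 0) := by
  obtain ⟨c, C, hc, hC, hsm⟩ := HH_small D hD χ hχ hnp
  obtain ⟨C', hC', hlg⟩ := HH_large D χ hχ
  have hcont := HH_cont D χ hχ
  have h1 : MeasureTheory.IntegrableOn (HH χ) (Set.Ioc 0 1) := by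
    refine MeasureTheory.IntegrableOn.of_bound (by simp)
      ((hcont.mono fun s hs => hs.1).aestronglyMeasurable measurableSet_Ioc) (C / c) ?_
    refine (MeasureTheory.ae_restrict_iff' measurableSet_Ioc).2 (Filter.Eventually.of_forall fun s hs => ?_)
    refine (hsm s hs.1 hs.2).trans ?_
    have h2 : c / s * Real.exp (-(c / s)) ≤ 1 := by
      rw [Real.exp_neg, ← div_eq_mul_inv, div_le_one (Real.exp_pos _)]
      have := Real.add_one_le_exp (c / s)
      linarith
    calc C / s * Real.exp (-(c / s)) = C / c * (c / s * Real.exp (-(c / s))) := by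
          field_simp
      _ ≤ C / c * 1 := mul_le_mul_of_nonneg_left h2 (by positivity)
      _ = C / c := mul_one _
  have hsub : Set.Ioi (1 : ℝ) ⊆ Set.Ioi 0 := Set.Ioi_subset_Ioi zero_le_one
  have h3 : MeasureTheory.IntegrableOn (HH χ) (Set.Ioi 1) := by
    have h4 := (exp_neg_integrableOn_Ioi (1 : ℝ) (by norm_num : (0 : ℝ) < 1 / 2)).const_mul C'
    refine MeasureTheory.Integrable.mono' h4
      ((hcont.mono hsub).aestronglyMeasurable measurableSet_Ioi) ?_
    refine (MeasureTheory.ae_restrict_iff' measurableSet_Ioi).2 (Filter.Eventually.of_forall fun s hs => ?_)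
    refine (hlg s (le_of_lt hs)).trans (le_of_eq ?_)
    show C' * Real.exp (-(s / 2)) = C' * Real.exp (-(1 / 2) * s)
    congr 2
    ring
  have h5 : Set.Ioi (0 : ℝ) = Set.Ioc 0 1 ∪ Set.Ioi 1 := (Set.Ioc_union_Ioi_eq_Ioi zero_le_one).symm
  rw [h5]
  exact h1.union h3

/-- `∫_δ^∞ HH χ = ∑_(z ≠ 0) χ z exp (-δ nm z) / nm z` (termwise) and the right side is `∑ χ z / nm z * δ ∫_(nm z)^∞ exp (-δ t) dt = δ ∫_0^∞ exp (-δ t) SL χ t dt → l` as `δ → 0` (`SL χ t → l`, `SL` bounded: `l_lim`). And `∫_0^δ |HH| → 0` (`HH_small`). -/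
theorem h_int (D : ℕ) (hD : 0 < D) (χ : G → ℂ) (hχ : Chi D χ) (hnp : ¬ Pri D χ) :
    Filter.Tendsto (SL χ) Filter.atTop (nhds (∫ s in Set.Ioi (0 : ℝ), HH χ s)) := by
  obtain ⟨l, η, C, hη, hη1, hC, hl⟩ := l_lim D hD χ hχ hnp
  have hSL : Filter.Tendsto (SL χ) Filter.atTop (nhds l) := by
    rw [tendsto_iff_norm_sub_tendsto_zero]
    have h1 : Filter.Tendsto (fun Y : ℝ => C * Y ^ (-η)) Filter.atTop (nhds 0) := by
      have := (tendsto_rpow_neg_atTop hη).const_mul C
      rwa [mul_zero] at this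
    refine squeeze_zero' (Filter.Eventually.of_forall fun Y => norm_nonneg _) ?_ h1
    filter_upwards [Filter.eventually_ge_atTop (1 : ℝ)] with Y hY
    exact hl Y hY
  have hpart : Filter.Tendsto (fun n : ℕ => ∑ i ∈ range n, hf χ i) Filter.atTop (nhds l) := by
    rw [← Filter.tendsto_add_atTop_iff_nat 1]
    refine (hSL.comp tendsto_natCast_atTop_atTop).congr fun n => ?_
    rw [hf_SL]
    rfl
  -- the sequence
  have hpos : ∀ n : ℕ, (0 : ℝ) < 1 / ((n : ℝ) + 1) := fun n => by positivity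
  have hδ0 : Filter.Tendsto (fun n : ℕ => 1 / ((n : ℝ) + 1)) Filter.atTop (nhds 0) :=
    tendsto_one_div_add_atTop_nhds_zero_nat
  have hxn : Filter.Tendsto (fun n : ℕ => Real.exp (-(1 / ((n : ℝ) + 1)))) Filter.atTop
      (nhdsWithin 1 (Set.Iio 1)) := by
    rw [tendsto_nhdsWithin_iff]
    refine ⟨?_, Filter.Eventually.of_forall fun n => ?_⟩
    · have h1 : Filter.Tendsto (fun n : ℕ => Real.exp (-(1 / ((n : ℝ) + 1)))) Filter.atTop
          (nhds (Real.exp (-0))) := (Real.continuous_exp.tendsto _).comp hδ0.neg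
      rwa [neg_zero, Real.exp_zero] at h1
    · rw [Set.mem_Iio, Real.exp_lt_one_iff]
      have := hpos n
      linarith
  have hab := Filter.tendsto_map'_iff.1 (Complex.tendsto_tsum_powerSeries_nhdsWithin_lt hpart)
  have h2 := hab.comp hxn
  have h3 : Filter.Tendsto (fun n : ℕ => ∫ s in Set.Ioi (1 / ((n : ℝ) + 1)), HH χ s) Filter.atTop
      (nhds l) := by
    refine h2.congr fun n => ?_
    show ∑' m : ℕ, hf χ m * ((Real.exp (-(1 / ((n : ℝ) + 1))) : ℝ) : ℂ) ^ m = _
    rw [hint_tsum hχ hpart (hpos n), hint_int hχ (hpos n)]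
  have hU : (⋃ n : ℕ, Set.Ioi (1 / ((n : ℝ) + 1))) = Set.Ioi (0 : ℝ) := by
    ext s
    rw [Set.mem_iUnion, Set.mem_Ioi]
    constructor
    · rintro ⟨n, hn⟩
      exact lt_trans (hpos n) hn
    · intro hs
      obtain ⟨n, hn⟩ := exists_nat_one_div_lt hs
      exact ⟨n, hn⟩
  have h4 := MeasureTheory.tendsto_setIntegral_of_monotone (μ := MeasureTheory.volume)
    (f := HH χ) (s := fun n : ℕ => Set.Ioi (1 / ((n : ℝ) + 1)))
    (fun n => measurableSet_Ioi)
    (fun a b hab => Set.Ioi_subset_Ioi (one_div_le_one_div_of_le (by positivity)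
      (by
        have : (a : ℝ) ≤ b := by exact_mod_cast hab
        linarith)))
    (by rw [hU]; exact hint_integrable D hD χ hχ hnp)
  rw [hU] at h4
  rw [← tendsto_nhds_unique h3 h4]
  exact hSL

end Pool.Agent.ECM
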