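import Pool.Agent.Lib_MP_f1a94e_ecm.ZDefs

/-!
# Piece M-KBES: the Bessel kernel
-/

set_option autoImplicit false

namespace Pool.Agent.ECM

open Finset Pool.Agent.GaussMR Pool.Agent.GaussCM Pool.Agent.OmAll

private theorem kbes_xexp (x : ℝ) : x * Real.exp (-x) ≤ 1 := by
  have h1 : x ≤ Real.exp x := by linarith [Real.add_one_le_exp x]
  calc x * Real.exp (-x) ≤ Real.exp x * Real.exp (-x) :=
        mul_le_mul_of_nonneg_right h1 (Real.exp_pos _).le
    _ = 1 := by rw [← Real.exp_add]; simp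

private theorem kbes_cont (y : ℝ) :
    ContinuousOn (fun u : ℝ => Real.exp (-u - y / u) / u) (Set.Ioi 0) := by
  have h0 : ∀ u ∈ Set.Ioi (0 : ℝ), u ≠ 0 := fun u hu => ne_of_gt hu
  refine ContinuousOn.div ?_ continuousOn_id h0
  refine Real.continuous_exp.comp_continuousOn ?_
  exact (continuousOn_id.neg).sub (continuousOn_const.div continuousOn_id h0)

private theorem kbes_bound (y u : ℝ) (hy : 0 < y) (hu : 0 < u) :
    Real.exp (-u - y / u) / u ≤ (4 / y) * Real.exp (-Real.sqrt y) * (2⁻¹ * Real.exp (-2⁻¹ * u)) := by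
  have h1 : Real.sqrt y ≤ 2⁻¹ * u + 2⁻¹ * (y / u) := by
    have h2 : 0 ≤ (u - Real.sqrt y) ^ 2 := sq_nonneg _
    have h3 : Real.sqrt y ^ 2 = y := Real.sq_sqrt hy.le
    have h4 : 2⁻¹ * u + 2⁻¹ * (y / u) - Real.sqrt y = (2⁻¹ * (u - Real.sqrt y) ^ 2) / u := by
      field_simp
      nlinarith [h3]
    have h5 : 0 ≤ (2⁻¹ * (u - Real.sqrt y) ^ 2) / u := by positivity
    linarith
  have h6 : Real.exp (-u - y / u) ≤
      Real.exp (-Real.sqrt y) * Real.exp (-2⁻¹ * u) * Real.exp (-(2⁻¹ * (y / u))) := by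
    rw [← Real.exp_add, ← Real.exp_add]
    apply Real.exp_le_exp.mpr
    linarith
  have h7 : Real.exp (-(2⁻¹ * (y / u))) / u ≤ 2 / y := by
    have h8 := kbes_xexp (2⁻¹ * (y / u))
    rw [div_le_div_iff₀ hu hy]
    have h9 : 2⁻¹ * (y / u) * Real.exp (-(2⁻¹ * (y / u))) * (2 * u) =
        Real.exp (-(2⁻¹ * (y / u))) * y := by
      field_simp
    rw [← h9]
    calc 2⁻¹ * (y / u) * Real.exp (-(2⁻¹ * (y / u))) * (2 * u) ≤ 1 * (2 * u) :=
          mul_le_mul_of_nonneg_right h8 (by positivity)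
      _ = 2 * u := one_mul _
  calc Real.exp (-u - y / u) / u ≤
        Real.exp (-Real.sqrt y) * Real.exp (-2⁻¹ * u) * Real.exp (-(2⁻¹ * (y / u))) / u :=
        div_le_div_of_nonneg_right h6 hu.le
    _ = Real.exp (-Real.sqrt y) * Real.exp (-2⁻¹ * u) * (Real.exp (-(2⁻¹ * (y / u))) / u) := by
        ring
    _ ≤ Real.exp (-Real.sqrt y) * Real.exp (-2⁻¹ * u) * (2 / y) :=
        mul_le_mul_of_nonneg_left h7 (by positivity)
    _ = (4 / y) * Real.exp (-Real.sqrt y) * (2⁻¹ * Real.exp (-2⁻¹ * u)) := by ring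

private theorem kbes_int_exp : MeasureTheory.IntegrableOn (fun u : ℝ => 2⁻¹ * Real.exp (-2⁻¹ * u)) (Set.Ioi 0) :=
  (integrableOn_exp_mul_Ioi (by norm_num : (-2⁻¹ : ℝ) < 0) 0).const_mul _

private theorem kbes_int_exp_val : ∫ u in Set.Ioi (0 : ℝ), 2⁻¹ * Real.exp (-2⁻¹ * u) = 1 := by
  rw [MeasureTheory.integral_const_mul, integral_exp_mul_Ioi (by norm_num : (-2⁻¹ : ℝ) < 0) 0]
  norm_num

/-- The integrand is continuous on `(0, ∞)`, at most `1 / y` times `(y/u) exp (-y/u) ≤ 1` near `0` and at most `exp (-u)` for `u ≥ 1`. -/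
theorem KB_int (y : ℝ) (hy : 0 < y) : MeasureTheory.IntegrableOn (fun u : ℝ => Real.exp (-u - y / u) / u) (Set.Ioi 0) := by
  have h1 : MeasureTheory.IntegrableOn
      (fun u : ℝ => (4 / y) * Real.exp (-Real.sqrt y) * (2⁻¹ * Real.exp (-2⁻¹ * u))) (Set.Ioi 0) :=
    kbes_int_exp.const_mul _
  refine MeasureTheory.Integrable.mono' h1
    ((kbes_cont y).aestronglyMeasurable measurableSet_Ioi) ?_
  refine (MeasureTheory.ae_restrict_iff' measurableSet_Ioi).mpr (Filter.Eventually.of_forall ?_)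
  intro u hu
  have hu' : 0 < u := hu
  rw [Real.norm_of_nonneg (by positivity)]
  exact kbes_bound y u hy hu'

theorem KB_nonneg (y : ℝ) (hy : 0 < y) : 0 ≤ KB y := by
  unfold KB
  refine MeasureTheory.setIntegral_nonneg measurableSet_Ioi (fun u hu => ?_)
  have hu' : 0 < u := hu
  positivity

/-- On `[y, 1]`: `u ≤ 1`, `y/u ≤ 1`, so the integrand is at least `exp (-2) / u`. -/
theorem KB_lower (y : ℝ) (hy : 0 < y) (hy1 : y ≤ 1) : Real.exp (-2) * Real.log (1 / y) ≤ KB y := by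
  have hsub : Set.Ioc y 1 ⊆ Set.Ioi (0 : ℝ) := fun u hu => lt_trans hy hu.1
  have h1 : ∫ u in Set.Ioc y 1, Real.exp (-u - y / u) / u ≤ KB y := by
    unfold KB
    refine MeasureTheory.setIntegral_mono_set (KB_int y hy) ?_ (Filter.Eventually.of_forall hsub)
    refine (MeasureTheory.ae_restrict_iff' measurableSet_Ioi).mpr (Filter.Eventually.of_forall ?_)
    intro u hu
    have hu' : 0 < u := hu
    show (0 : ℝ) ≤ Real.exp (-u - y / u) / u
    positivity
  have h2 : ∫ u in Set.Ioc y 1, Real.exp (-2) * (1 / u) = Real.exp (-2) * Real.log (1 / y) := by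
    rw [← intervalIntegral.integral_of_le hy1, intervalIntegral.integral_const_mul,
      integral_one_div_of_pos hy one_pos]
  have h3 : ∫ u in Set.Ioc y 1, Real.exp (-2) * (1 / u) ≤
      ∫ u in Set.Ioc y 1, Real.exp (-u - y / u) / u := by
    refine MeasureTheory.setIntegral_mono_on ?_ ((KB_int y hy).mono_set hsub) measurableSet_Ioc ?_
    · have hc : ContinuousOn (fun u : ℝ => Real.exp (-2) * (1 / u)) (Set.Icc y 1) := by
        refine continuousOn_const.mul (continuousOn_const.div continuousOn_id (fun u hu => ?_))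
        exact ne_of_gt (lt_of_lt_of_le hy hu.1)
      exact (hc.integrableOn_Icc).mono_set Set.Ioc_subset_Icc_self
    · intro u hu
      have hu0 : 0 < u := lt_trans hy hu.1
      have h4 : y / u ≤ 1 := by
        rw [div_le_one hu0]
        exact hu.1.le
      have h5 : Real.exp (-2) ≤ Real.exp (-u - y / u) :=
        Real.exp_le_exp.mpr (by linarith [hu.2])
      rw [mul_one_div]
      exact div_le_div_of_nonneg_right h5 hu0.le
  rw [← h2]
  exact h3.trans h1

/-- `-u - y/u ≤ -u/2 - y/(2u) - sqrt y` (since `u/2 + y/(2u) ≥ sqrt y`), and `∫ exp (-u/2 - y/(2u)) du/u ≤ C (1 + 1/y)`. -/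
theorem KB_upper : ∃ C : ℝ, 0 < C ∧ ∀ y : ℝ, 0 < y → KB y ≤ C * (1 + 1 / y) * Real.exp (-Real.sqrt y) := by
  refine ⟨4, by norm_num, fun y hy => ?_⟩
  have h1 : KB y ≤ ∫ u in Set.Ioi (0 : ℝ),
      (4 / y) * Real.exp (-Real.sqrt y) * (2⁻¹ * Real.exp (-2⁻¹ * u)) := by
    unfold KB
    exact MeasureTheory.setIntegral_mono_on (KB_int y hy) (kbes_int_exp.const_mul _)
      measurableSet_Ioi (fun u hu => kbes_bound y u hy hu)
  rw [MeasureTheory.integral_const_mul, kbes_int_exp_val, mul_one] at h1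
  have h2 : (4 / y) * Real.exp (-Real.sqrt y) ≤ 4 * (1 + 1 / y) * Real.exp (-Real.sqrt y) := by
    apply mul_le_mul_of_nonneg_right _ (Real.exp_pos _).le
    have h3 : 4 * (1 + 1 / y) = 4 + 4 / y := by ring
    linarith
  exact h1.trans h2

end Pool.Agent.ECM
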