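import Pool.Agent.Lib_MP_f1a94e_ecm.ZDefs

/-!
# Piece M-RPOS: the divisor sums of a real character are nonnegative
-/

set_option autoImplicit false

namespace Pool.Agent.ECM

open Finset Pool.Agent.GaussMR Pool.Agent.GaussCM Pool.Agent.OmAll

open Classical in
/-- all divisors of `c` (including all associates) -/
noncomputable def dvs (c : G) : Finset G := (ball (nm c)).filter (fun a => a ∣ c)

private theorem rp_mem {c : G} (hc : c ≠ 0) {a : G} : a ∈ dvs c ↔ a ∣ c := by
  classical
  unfold dvs
  rw [mem_filter, mem_ball]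
  refine ⟨fun h => h.2, fun h => ⟨?_, h⟩⟩
  have h1 := Nat.le_of_dvd (nm_pos hc) (nm_dvd h)
  exact_mod_cast h1

/-- the units -/
private theorem rp_unit {c : G} (hc : nm c = 1) : dvs c = {1, -1, ii, -ii} := by
  classical
  have hc0 : c ≠ 0 := by
    rintro rfl
    simp at hc
  ext a
  rw [rp_mem hc0]
  simp only [mem_insert, mem_singleton]
  constructor
  · intro h
    have h1 : nm a = 1 := by
      have h2 := nm_dvd h
      rw [hc] at h2
      exact Nat.dvd_one.1 h2
    have h2 : (nm a : ℤ) = 1 := by exact_mod_cast h1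
    rw [nm_eq] at h2
    have h3 : a.re ^ 2 ≤ 1 := by nlinarith [sq_nonneg a.im]
    have h4 : a.im ^ 2 ≤ 1 := by nlinarith [sq_nonneg a.re]
    have h5 : -1 ≤ a.re ∧ a.re ≤ 1 := by constructor <;> nlinarith
    have h6 : -1 ≤ a.im ∧ a.im ≤ 1 := by constructor <;> nlinarith
    obtain ⟨h5a, h5b⟩ := h5
    obtain ⟨h6a, h6b⟩ := h6
    have key : (a.re = 1 ∧ a.im = 0) ∨ (a.re = -1 ∧ a.im = 0) ∨ (a.re = 0 ∧ a.im = 1) ∨ (a.re = 0 ∧ a.im = -1) := by
      interval_cases h7 : a.re <;> interval_cases h8 : a.im <;> simp_all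
    rcases key with ⟨h7, h8⟩ | ⟨h7, h8⟩ | ⟨h7, h8⟩ | ⟨h7, h8⟩
    · left; apply Zsqrtd.ext <;> simp [h7, h8]
    · right; left; apply Zsqrtd.ext <;> simp [h7, h8]
    · right; right; left; apply Zsqrtd.ext <;> simp [h7, h8, ii]
    · right; right; right; apply Zsqrtd.ext <;> simp [h7, h8, ii]
  · have hu : ∀ a : G, nm a = 1 → a ∣ c := fun a ha => (nm_eq_one_iff.1 ha).dvd
    rintro (rfl | rfl | rfl | rfl)
    · exact hu _ (by simp)
    · exact hu _ (by rw [nm_neg]; simp)
    · exact hu _ nm_ii
    · exact hu _ (by rw [nm_neg]; exact nm_ii)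

private theorem rp_sum_unit (D : ℕ) (χ : G → ℂ) (hχ : Chi D χ) (h1 : χ ii = 1) {c : G} (hc : nm c = 1) :
    ∑ a ∈ dvs c, χ a = 4 := by
  classical
  have h2 : χ (-1) = 1 := by
    have : (-1 : G) = ii * ii := by apply Zsqrtd.ext <;> simp [ii]
    rw [this, hχ.mul, h1, one_mul]
  have h3 : χ (-ii) = 1 := by
    have : (-ii : G) = (-1) * ii := by ring
    rw [this, hχ.mul, h1, h2, one_mul]
  rw [rp_unit hc, sum_insert, sum_insert, sum_insert, sum_singleton, hχ.one, h1, h2, h3]
  · norm_num
  · simp only [mem_singleton]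
    intro h
    have := congrArg Zsqrtd.im h
    simp [ii] at this
  · simp only [mem_insert, mem_singleton, not_or]
    constructor
    · intro h
      have := congrArg Zsqrtd.im h
      simp [ii] at this
    · intro h
      have := congrArg Zsqrtd.im h
      simp [ii] at this
  · simp only [mem_insert, mem_singleton, not_or]
    refine ⟨?_, ?_, ?_⟩
    · intro h
      have := congrArg Zsqrtd.re h
      simp at this
    · intro h
      have := congrArg Zsqrtd.im h
      simp [ii] at this
    · intro h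
      have := congrArg Zsqrtd.im h
      simp [ii] at this

theorem r_one (D : ℕ) (χ : G → ℂ) (hχ : Chi D χ) (h1 : χ ii = 1) : (∑ a ∈ dvs 1, χ a).re = 4 := by
  rw [rp_sum_unit D χ hχ h1 nm_one]
  norm_num

private theorem rp_prod (χ : G → ℂ) (hmul : ∀ z w, χ (z * w) = χ z * χ w) {p m : G} (hp : Prime p) (hm : m ≠ 0)
    (hpm : ¬ p ∣ m) (k : ℕ) : ∑ a ∈ dvs (p ^ k * m), χ a = (∑ j ∈ range (k + 1), χ (p ^ j)) * ∑ a ∈ dvs m, χ a := by
  classical
  have hp0 : p ≠ 0 := hp.ne_zero
  have hc : p ^ k * m ≠ 0 := mul_ne_zero (pow_ne_zero _ hp0) hm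
  rw [sum_mul_sum, ← sum_product']
  symm
  apply sum_bij (fun (x : ℕ × G) _ => p ^ x.1 * x.2)
  · rintro ⟨j, a⟩ hx
    rw [mem_product, mem_range, rp_mem hm] at hx
    rw [rp_mem hc]
    exact mul_dvd_mul (pow_dvd_pow p (by omega)) hx.2
  · rintro ⟨j, a⟩ hx ⟨j', a'⟩ hx' h
    rw [mem_product, mem_range, rp_mem hm] at hx hx'
    simp only at hx hx' h
    have ha : ¬ p ∣ a := fun h' => hpm (h'.trans hx.2)
    have ha' : ¬ p ∣ a' := fun h' => hpm (h'.trans hx'.2)
    have hjj : j = j' := by
      rcases lt_trichotomy j j' with hlt | heq | hgt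
      · exfalso
        obtain ⟨d, rfl⟩ : ∃ d, j' = j + (d + 1) := ⟨j' - j - 1, by omega⟩
        rw [pow_add, mul_assoc] at h
        have h2 := mul_left_cancel₀ (pow_ne_zero j hp0) h
        apply ha
        rw [h2, pow_succ]
        exact ⟨p ^ d * a', by ring⟩
      · exact heq
      · exfalso
        obtain ⟨d, rfl⟩ : ∃ d, j = j' + (d + 1) := ⟨j - j' - 1, by omega⟩
        rw [pow_add, mul_assoc] at h
        have h2 := mul_left_cancel₀ (pow_ne_zero j' hp0) h
        apply ha'
        rw [← h2, pow_succ]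
        exact ⟨p ^ d * a, by ring⟩
    subst hjj
    rw [mul_left_cancel₀ (pow_ne_zero j hp0) h]
  · intro a ha
    rw [rp_mem hc] at ha
    obtain ⟨d₁, d₂, hd1, hd2, rfl⟩ := exists_dvd_and_dvd_of_dvd_mul ha
    obtain ⟨j, hj, hass⟩ := (dvd_prime_pow hp k).1 hd1
    obtain ⟨u, hu⟩ := hass
    refine ⟨(j, (↑(u⁻¹ : Gˣ) : G) * d₂), ?_, ?_⟩
    · rw [mem_product, mem_range, rp_mem hm]
      refine ⟨by simp only; omega, ?_⟩
      exact (Units.isUnit _).mul_left_dvd.2 hd2
    · simp only
      rw [← hu]
      rw [mul_assoc, ← mul_assoc (↑u : G), Units.mul_inv, one_mul]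
  · rintro ⟨j, a⟩ hx
    simp only
    rw [hmul]

/-- nonnegativity of the divisor sums -/
theorem r_pos (D : ℕ) (χ : G → ℂ) (hχ : Chi D χ) (hreal : ∀ z, χ z = 0 ∨ χ z = 1 ∨ χ z = -1) (h1 : χ ii = 1) (c : G) (hc : c ≠ 0) :
    0 ≤ (∑ a ∈ dvs c, χ a).re := by
  classical
  have him : ∀ c : G, (∑ a ∈ dvs c, χ a).im = 0 := by
    intro c
    rw [Complex.im_sum]
    refine sum_eq_zero fun a _ => ?_
    rcases hreal a with h | h | h <;> simp [h]
  have key : ∀ n : ℕ, ∀ c : G, c ≠ 0 → nm c ≤ n → 0 ≤ (∑ a ∈ dvs c, χ a).re := by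
    intro n
    induction n with
    | zero =>
      intro c hc hn
      have := nm_pos hc
      omega
    | succ n ih =>
      intro c hc hn
      by_cases hu : nm c = 1
      · rw [rp_sum_unit D χ hχ h1 hu]
        norm_num
      · have hnu : ¬ IsUnit c := fun h => hu (nm_eq_one_iff.2 h)
        obtain ⟨p, hpi, hpc⟩ := WfDvdMonoid.exists_irreducible_factor hnu hc
        have hp : Prime p := hpi.prime
        obtain ⟨m, hcm, hpm⟩ := (FiniteMultiplicity.of_prime_left hp hc).exists_eq_pow_mul_and_not_dvd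
        generalize multiplicity p c = k at hcm
        subst hcm
        have hm : m ≠ 0 := by
          rintro rfl
          simp at hc
        have hk : k ≠ 0 := by
          rintro rfl
          apply hpm
          simpa using hpc
        have hmn : nm m ≤ n := by
          rw [nm_mul] at hn
          have h3 : 1 < nm (p ^ k) := by
            have h4 := nm_pos (pow_ne_zero k hp.ne_zero)
            have h5 : nm (p ^ k) ≠ 1 := by
              rw [Ne, nm_eq_one_iff, isUnit_pow_iff hk]
              exact hp.not_isUnit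
            omega
          have h4 := nm_pos hm
          nlinarith
        have h3 := ih m hm hmn
        rw [rp_prod χ hχ.mul hp hm hpm k, Complex.mul_re, him m, mul_zero, sub_zero]
        refine mul_nonneg ?_ h3
        have hpow : ∀ j, χ (p ^ j) = χ p ^ j := by
          intro j
          induction j with
          | zero => simp [hχ.one]
          | succ j ihj => rw [pow_succ, hχ.mul, ihj, pow_succ]
        simp only [hpow]
        rcases hreal p with h | h | h
        · rw [h, sum_range_succ', Complex.add_re]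
          simp
        · rw [h]
          simp
          positivity
        · rw [h, neg_one_geom_sum]
          split_ifs <;> simp
  exact key (nm c) c hc le_rfl

end Pool.Agent.ECM
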