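import Pool.Agent.Lib_MP_f1a94e_ecm.ThH
import Pool.Agent.Lib_MP_f1a94e_ecm.RPos
import Pool.Agent.Lib_MP_f1a94e_ecm.KBes

/-!
# Piece M-ILOW: lower bound for the Mellin convolution
-/

set_option autoImplicit false

namespace Pool.Agent.ECM

open Finset Pool.Agent.GaussMR Pool.Agent.GaussCM Pool.Agent.OmAll

private noncomputable def ilr (x : ℤ) : ℝ := 1 / (1 + (x : ℝ) ^ 2)

private theorem ilr_summable : Summable ilr := by
  have h1 : Summable fun x : ℤ => 1 / (x : ℝ) ^ 2 := Real.summable_one_div_int_pow.2 one_lt_two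
  have h2 : Summable fun x : ℤ => if x = 0 then (1 : ℝ) else 0 := (hasSum_ite_eq 0 1).summable
  refine Summable.of_nonneg_of_le (fun x => by unfold ilr; positivity) (fun x => ?_) (h1.add h2)
  unfold ilr
  by_cases hx : x = 0
  · rw [hx]
    simp
  · rw [if_neg hx, add_zero]
    have h3 : (0 : ℝ) < (x : ℝ) ^ 2 := by positivity
    exact one_div_le_one_div_of_le h3 (by linarith)

private noncomputable def ilq (z : G) : ℝ := ilr z.re * ilr z.im

private theorem ilq_nonneg (z : G) : 0 ≤ ilq z := by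
  unfold ilq ilr
  positivity

private theorem ilq_summable : Summable ilq := by
  have h1 : Summable fun p : ℤ × ℤ => ilr p.1 * ilr p.2 :=
    ilr_summable.mul_of_nonneg ilr_summable (fun x => by unfold ilr; positivity)
      (fun x => by unfold ilr; positivity)
  exact h1.comp_injective (i := fun z : G => (z.re, z.im))
    (fun _ _ h => Zsqrtd.ext (congrArg Prod.fst h) (congrArg Prod.snd h))

private theorem ilq_le {z : G} (hz : 0 < nm z) : 1 / (nm z : ℝ) ^ 2 ≤ 4 * ilq z := by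
  have h1 : (nm z : ℝ) = (z.re : ℝ) ^ 2 + (z.im : ℝ) ^ 2 := by
    have := nm_eq z
    exact_mod_cast this
  have h2 : (1 : ℝ) ≤ nm z := by exact_mod_cast hz
  unfold ilq ilr
  set x := (z.re : ℝ)
  set y := (z.im : ℝ)
  have h3 : 4 * (1 / (1 + x ^ 2) * (1 / (1 + y ^ 2))) = 4 / ((1 + x ^ 2) * (1 + y ^ 2)) := by
    field_simp
  rw [h3, div_le_div_iff₀ (by positivity) (by positivity)]
  rw [h1] at h2 ⊢
  nlinarith [sq_nonneg (x ^ 2 - y ^ 2), sq_nonneg (x ^ 2 + y ^ 2 - 1)]

private theorem il_countable : Countable G :=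
  Function.Injective.countable (f := fun z : G => (z.re, z.im))
    (fun _ _ h => Zsqrtd.ext (congrArg Prod.fst h) (congrArg Prod.snd h))

/-- the kernel -/
private noncomputable def ilk (A B v u : ℝ) : ℝ := Real.exp (-(u * B)) * Real.exp (-(v / u * A)) / u

private theorem ilk_eq {A B v u : ℝ} (hB : 0 < B) (hu : 0 < u) :
    ilk A B v u = B * (fun w : ℝ => Real.exp (-w - v * A * B / w) / w) (B * u) := by
  unfold ilk
  simp only
  rw [← Real.exp_add]
  have h1 : -(u * B) + -(v / u * A) = -(B * u) - v * A * B / (B * u) := by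
    field_simp
    ring
  rw [h1]
  field_simp

private theorem ilk_int {A B v : ℝ} (hA : 0 < A) (hB : 0 < B) (hv : 0 < v) :
    MeasureTheory.IntegrableOn (ilk A B v) (Set.Ioi 0) ∧
      ∫ u in Set.Ioi (0 : ℝ), ilk A B v u = KB (v * A * B) := by
  have h1 := KB_int (v * A * B) (by positivity)
  constructor
  · have h2 := (MeasureTheory.integrableOn_Ioi_comp_mul_left_iff
      (fun w : ℝ => Real.exp (-w - v * A * B / w) / w) 0 hB).2 (by rw [mul_zero]; exact h1)
    have h3 : MeasureTheory.IntegrableOn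
        (fun u : ℝ => B * (fun w : ℝ => Real.exp (-w - v * A * B / w) / w) (B * u)) (Set.Ioi 0) :=
      h2.const_mul B
    exact h3.congr_fun (fun u hu => (ilk_eq hB hu).symm) measurableSet_Ioi
  · rw [MeasureTheory.setIntegral_congr_fun measurableSet_Ioi (fun u hu => ilk_eq (v := v) (A := A) hB hu),
      MeasureTheory.integral_const_mul,
      MeasureTheory.integral_comp_mul_left_Ioi (fun w : ℝ => Real.exp (-w - v * A * B / w) / w) 0 hB,
      mul_zero]
    unfold KB
    rw [smul_eq_mul, ← mul_assoc, mul_inv_cancel₀ hB.ne', one_mul]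

open Classical in
/-- terms of the double series, `p = (b, a)` -/
private noncomputable def ilF (χ : G → ℂ) (v : ℝ) (p : G × G) (u : ℝ) : ℂ :=
  ((if p.1 = 0 then 0 else Real.exp (-(u * nm p.1)) : ℝ) : ℂ) *
    (χ p.2 * (Real.exp (-(v / u * nm p.2)) : ℂ)) / (u : ℂ)

private theorem ilF_zero {χ : G → ℂ} {v : ℝ} {p : G × G} (h : p.1 = 0 ∨ χ p.2 = 0) (u : ℝ) :
    ilF χ v p u = 0 := by
  unfold ilF
  rcases h with h | h
  · rw [if_pos h]
    simp
  · rw [h]
    simp

private theorem ilF_eq {χ : G → ℂ} {v : ℝ} {p : G × G} (h : p.1 ≠ 0) (u : ℝ) :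
    ilF χ v p u = χ p.2 * ((ilk (nm p.2) (nm p.1) v u : ℝ) : ℂ) := by
  unfold ilF ilk
  rw [if_neg h]
  push_cast
  ring

open Classical in
/-- the integrals of the terms -/
private noncomputable def ilg (χ : G → ℂ) (v : ℝ) (p : G × G) : ℂ :=
  if p.1 = 0 then 0 else χ p.2 * ((KB (v * nm p.2 * nm p.1) : ℝ) : ℂ)

private theorem il_chi_zero {D : ℕ} {χ : G → ℂ} (hχ : Chi D χ) : χ 0 = 0 :=
  hχ.even 0 (by rw [nm_zero]; decide)

private theorem ilF_int {D : ℕ} {χ : G → ℂ} (hχ : Chi D χ) {v : ℝ} (hv : 0 < v) (p : G × G) :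
    MeasureTheory.IntegrableOn (ilF χ v p) (Set.Ioi 0) ∧
      ∫ u in Set.Ioi (0 : ℝ), ilF χ v p u = ilg χ v p := by
  by_cases h : p.1 = 0 ∨ p.2 = 0
  · have h0 : p.1 = 0 ∨ χ p.2 = 0 := by
      rcases h with h | h
      · exact Or.inl h
      · exact Or.inr (by rw [h]; exact il_chi_zero hχ)
    have h1 : ilF χ v p = fun _ => 0 := by
      funext u
      exact ilF_zero h0 u
    rw [h1]
    refine ⟨MeasureTheory.integrableOn_zero, ?_⟩
    rw [MeasureTheory.integral_zero]
    unfold ilg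
    rcases h0 with h0 | h0
    · rw [if_pos h0]
    · rw [h0, zero_mul, ite_self]
  · push Not at h
    have hA : (0 : ℝ) < nm p.2 := by exact_mod_cast nm_pos h.2
    have hB : (0 : ℝ) < nm p.1 := by exact_mod_cast nm_pos h.1
    obtain ⟨h1, h2⟩ := ilk_int hA hB hv
    have h3 : ilF χ v p = fun u => χ p.2 * ((ilk (nm p.2) (nm p.1) v u : ℝ) : ℂ) := by
      funext u
      exact ilF_eq h.1 u
    rw [h3]
    refine ⟨(h1.ofReal (𝕜 := ℂ)).const_mul _, ?_⟩
    rw [MeasureTheory.integral_const_mul]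
    have h4 : ∫ u in Set.Ioi (0 : ℝ), ((ilk (nm p.2) (nm p.1) v u : ℝ) : ℂ) =
        ((∫ u in Set.Ioi (0 : ℝ), ilk (nm p.2) (nm p.1) v u : ℝ) : ℂ) := integral_ofReal
    rw [h4, h2]
    unfold ilg
    rw [if_neg h.1]

private theorem ilF_norm {D : ℕ} {χ : G → ℂ} (hχ : Chi D χ) {v : ℝ} (hv : 0 < v) : ∃ M : ℝ, 0 ≤ M ∧
    ∀ p : G × G, ∫ u in Set.Ioi (0 : ℝ), ‖ilF χ v p u‖ ≤ M * (ilq p.1 * ilq p.2) := by
  obtain ⟨C, hC, hKB⟩ := KB_upper
  refine ⟨C * (1 + 1 / v) * (24 / v ^ 2) * 16, by positivity, fun p => ?_⟩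
  by_cases h : p.1 = 0 ∨ p.2 = 0
  · have h0 : p.1 = 0 ∨ χ p.2 = 0 := by
      rcases h with h | h
      · exact Or.inl h
      · exact Or.inr (by rw [h]; exact il_chi_zero hχ)
    have h1 : (fun u => ‖ilF χ v p u‖) = fun _ => 0 := by
      funext u
      rw [ilF_zero h0 u, norm_zero]
    rw [h1, MeasureTheory.integral_zero]
    have := mul_nonneg (ilq_nonneg p.1) (ilq_nonneg p.2)
    positivity
  · push Not at h
    have hA : (0 : ℝ) < nm p.2 := by exact_mod_cast nm_pos h.2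
    have hB : (0 : ℝ) < nm p.1 := by exact_mod_cast nm_pos h.1
    have hA1 : (1 : ℝ) ≤ nm p.2 := by exact_mod_cast nm_pos h.2
    have hB1 : (1 : ℝ) ≤ nm p.1 := by exact_mod_cast nm_pos h.1
    have hq2 := ilq_le (nm_pos h.2)
    have hq1 := ilq_le (nm_pos h.1)
    obtain ⟨A, hAe⟩ : ∃ A : ℝ, A = nm p.2 := ⟨_, rfl⟩
    obtain ⟨B, hBe⟩ : ∃ B : ℝ, B = nm p.1 := ⟨_, rfl⟩
    obtain ⟨h1, h2⟩ := ilk_int hA hB hv
    have h3 : ∫ u in Set.Ioi (0 : ℝ), ‖ilF χ v p u‖ = ‖χ p.2‖ * KB (v * nm p.2 * nm p.1) := by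
      rw [← h2, ← MeasureTheory.integral_const_mul]
      refine MeasureTheory.setIntegral_congr_fun measurableSet_Ioi fun u hu => ?_
      have hu' : (0 : ℝ) < u := hu
      show ‖ilF χ v p u‖ = ‖χ p.2‖ * ilk (nm p.2) (nm p.1) v u
      rw [ilF_eq h.1 u, norm_mul, Complex.norm_real, Real.norm_eq_abs, abs_of_nonneg]
      unfold ilk
      positivity
    rw [h3]
    rw [← hAe] at hA hA1 hq2 ⊢
    rw [← hBe] at hB hB1 hq1 ⊢
    obtain ⟨y, hy⟩ : ∃ y : ℝ, y = v * A * B := ⟨_, rfl⟩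
    have hy0 : 0 < y := by rw [hy]; positivity
    have hvy : v ≤ y := by
      rw [hy]
      have := mul_le_mul_of_nonneg_left hA1 hv.le
      nlinarith [mul_pos hv hA]
    have e1 : KB y ≤ C * (1 + 1 / v) * (24 / y ^ 2) := by
      refine (hKB y hy0).trans ?_
      refine mul_le_mul ?_ ?_ (Real.exp_pos _).le (by positivity)
      · refine mul_le_mul_of_nonneg_left ?_ hC.le
        have := one_div_le_one_div_of_le hv hvy
        linarith
      · have h4 := Real.pow_div_factorial_le_exp (Real.sqrt y) (Real.sqrt_nonneg y) 4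
        have h5 : Real.sqrt y ^ 4 = y ^ 2 := by
          calc Real.sqrt y ^ 4 = (Real.sqrt y ^ 2) ^ 2 := by ring
            _ = y ^ 2 := by rw [Real.sq_sqrt hy0.le]
        rw [h5] at h4
        have h6 : (Nat.factorial 4 : ℝ) = 24 := by norm_num [Nat.factorial]
        rw [h6] at h4
        rw [Real.exp_neg, inv_eq_one_div, div_le_div_iff₀ (Real.exp_pos _) (by positivity)]
        linarith
    have e2 : 24 / y ^ 2 = 24 / v ^ 2 * (1 / A ^ 2 * (1 / B ^ 2)) := by
      rw [hy]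
      field_simp
    have e3 : 1 / A ^ 2 * (1 / B ^ 2) ≤ 4 * ilq p.2 * (4 * ilq p.1) :=
      mul_le_mul hq2 hq1 (by positivity) (by have := ilq_nonneg p.2; positivity)
    have hK0 : 0 ≤ KB y := KB_nonneg y hy0
    calc ‖χ p.2‖ * KB (v * A * B) ≤ 1 * KB y := by
          rw [← hy]
          exact mul_le_mul_of_nonneg_right (hχ.le _) hK0
      _ = KB y := one_mul _
      _ ≤ C * (1 + 1 / v) * (24 / y ^ 2) := e1
      _ = C * (1 + 1 / v) * (24 / v ^ 2) * (1 / A ^ 2 * (1 / B ^ 2)) := by rw [e2]; ring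
      _ ≤ C * (1 + 1 / v) * (24 / v ^ 2) * (4 * ilq p.2 * (4 * ilq p.1)) :=
          mul_le_mul_of_nonneg_left e3 (by positivity)
      _ = _ := by ring

private theorem il_prod {D : ℕ} {χ : G → ℂ} (hχ : Chi D χ) {v u : ℝ} (hv : 0 < v) (hu : 0 < u) :
    ∑' p : G × G, ilF χ v p u = (Th u : ℂ) * HH χ (v / u) / (u : ℂ) := by
  classical
  have h1 : Summable fun z : G => ‖((if z = 0 then 0 else Real.exp (-(u * nm z)) : ℝ) : ℂ)‖ := by
    refine Summable.of_nonneg_of_le (fun z => norm_nonneg _) (fun z => ?_) (summ_exp u hu)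
    rw [Complex.norm_real, Real.norm_eq_abs]
    split_ifs
    · rw [abs_zero]
      exact (Real.exp_pos _).le
    · rw [abs_of_pos (Real.exp_pos _)]
  have h2 : Summable fun z : G => ‖χ z * (Real.exp (-(v / u * nm z)) : ℂ)‖ := by
    refine Summable.of_nonneg_of_le (fun z => norm_nonneg _) (fun z => ?_)
      (summ_exp (v / u) (by positivity))
    rw [norm_mul, Complex.norm_real, Real.norm_eq_abs, abs_of_pos (Real.exp_pos _)]
    exact mul_le_of_le_one_left (Real.exp_pos _).le (hχ.le z)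
  have h3 := tsum_mul_tsum_of_summable_norm h1 h2
  have h4 : (Th u : ℂ) = ∑' z : G, ((if z = 0 then 0 else Real.exp (-(u * nm z)) : ℝ) : ℂ) := by
    unfold Th
    rw [Complex.ofReal_tsum]
  rw [h4]
  unfold HH
  rw [h3, ← tsum_div_const]
  refine tsum_congr fun p => ?_
  unfold ilF
  congr

/-- For `v > 0`: `Th u * HH χ (v/u) / u = ∑'_(a, b ≠ 0) χ a exp (-u nm b - (v/u) nm a) / u`, integrate termwise (Tonelli: `∫ exp (-u nm b - v nm a / u) du/u = KB (v nm a nm b)` by `u ↦ u / nm b`, and `∑_(a,b ≠ 0) KB (v nm a nm b) < ∞` by `KB_upper`: `≤ C_v ∑ (nm a nm b)^(-2)`;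
`MeasureTheory.integral_tsum` / `hasSum_integral_of_summable_integral_norm`). Regroup by `c = a b`: `∑_(c ≠ 0) (∑_(a ∈ dvs c) χ a) KB (v nm c)` (for `c ≠ 0`, `(a, b)` with `a b = c` correspond to `a ∈ dvs c`). All terms have nonnegative real part (`r_pos`, `KB_nonneg`), the term `c = 1` is `4 KB v`. -/
theorem i_low (D : ℕ) (χ : G → ℂ) (hχ : Chi D χ) (hreal : ∀ z, χ z = 0 ∨ χ z = 1 ∨ χ z = -1) (h1 : χ ii = 1) (v : ℝ) (hv : 0 < v) :
    KB v ≤ (∫ u in Set.Ioi (0 : ℝ), (Th u : ℂ) * HH χ (v / u) / (u : ℂ)).re := by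
  classical
  have := il_countable
  obtain ⟨M, hM, hnorm⟩ := ilF_norm hχ hv
  have hsum : Summable fun p : G × G => ∫ u in Set.Ioi (0 : ℝ), ‖ilF χ v p u‖ := by
    refine Summable.of_nonneg_of_le
      (fun p => MeasureTheory.integral_nonneg fun u => norm_nonneg _) hnorm ?_
    exact (ilq_summable.mul_of_nonneg ilq_summable ilq_nonneg ilq_nonneg).mul_left M
  have hs := MeasureTheory.hasSum_integral_of_summable_integral_norm
    (μ := MeasureTheory.volume.restrict (Set.Ioi (0 : ℝ))) (F := ilF χ v)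
    (fun p => (ilF_int hχ hv p).1) hsum
  have hint : ∫ u in Set.Ioi (0 : ℝ), (∑' p : G × G, ilF χ v p u) =
      ∫ u in Set.Ioi (0 : ℝ), (Th u : ℂ) * HH χ (v / u) / (u : ℂ) :=
    MeasureTheory.setIntegral_congr_fun measurableSet_Ioi fun u hu => il_prod hχ hv hu
  rw [hint] at hs
  have hg : (fun p => ∫ u in Set.Ioi (0 : ℝ), ilF χ v p u) = ilg χ v := by
    funext p
    exact (ilF_int hχ hv p).2
  rw [hg] at hs
  have hre := Complex.reCLM.hasSum hs
  -- exhausting finite sets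
  let T : ℕ → Finset (G × G) := fun N => (ball (N : ℝ) ×ˢ ball (N : ℝ)).filter
    (fun p => nm p.1 * nm p.2 ≤ N)
  have hmono : Monotone T := by
    intro a b hab p hp
    have hab' : (a : ℝ) ≤ b := by exact_mod_cast hab
    simp only [T, mem_filter, mem_product, mem_ball] at hp ⊢
    exact ⟨⟨hp.1.1.trans hab', hp.1.2.trans hab'⟩, hp.2.trans hab⟩
  have hex : ∀ p : G × G, ∃ N, p ∈ T N := by
    intro p
    refine ⟨nm p.1 + nm p.2 + nm p.1 * nm p.2, ?_⟩
    simp only [T, mem_filter, mem_product, mem_ball]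
    refine ⟨⟨?_, ?_⟩, by omega⟩
    · exact_mod_cast (by omega : nm p.1 ≤ nm p.1 + nm p.2 + nm p.1 * nm p.2)
    · exact_mod_cast (by omega : nm p.2 ≤ nm p.1 + nm p.2 + nm p.1 * nm p.2)
  have hT : Filter.Tendsto T Filter.atTop Filter.atTop :=
    Filter.tendsto_atTop_finset_of_monotone hmono hex
  have hlim := hre.comp hT
  refine ge_of_tendsto hlim ?_
  filter_upwards [Filter.eventually_ge_atTop 1] with N hN
  show KB v ≤ ∑ p ∈ T N, (ilg χ v p).re
  have hmaps : ∀ p ∈ T N, p.1 * p.2 ∈ ball (N : ℝ) := by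
    intro p hp
    simp only [T, mem_filter] at hp
    rw [mem_ball, nm_mul]
    exact_mod_cast hp.2
  rw [← sum_fiberwise_of_maps_to hmaps]
  have hfib : ∀ c ∈ ball (N : ℝ), c ≠ 0 →
      ∑ p ∈ (T N).filter (fun p => p.1 * p.2 = c), (ilg χ v p).re =
        (∑ a ∈ dvs c, χ a).re * KB (v * nm c) := by
    intro c hc hc0
    rw [mem_ball] at hc
    have hcN : nm c ≤ N := by exact_mod_cast hc
    rw [Complex.re_sum, sum_mul]
    refine sum_nbij (fun p => p.2) ?_ ?_ ?_ ?_
    · intro p hp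
      rw [mem_filter] at hp
      unfold dvs
      rw [mem_filter, mem_ball]
      have hdvd : p.2 ∣ c := ⟨p.1, by rw [← hp.2, mul_comm]⟩
      refine ⟨?_, hdvd⟩
      have h3 : nm c = nm p.1 * nm p.2 := by rw [← nm_mul, hp.2]
      have h4 : 0 < nm c := nm_pos hc0
      have h5 : nm p.2 ≤ nm c := by
        refine Nat.le_of_dvd h4 ⟨nm p.1, ?_⟩
        rw [h3, mul_comm]
      exact_mod_cast h5
    · intro p hp q hq hpq
      rw [mem_coe, mem_filter] at hp hq
      have hpq' : p.2 = q.2 := hpq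
      have h3 : q.2 ≠ 0 := by
        intro h0
        apply hc0
        rw [← hq.2, h0, mul_zero]
      have h4 : p.1 * q.2 = q.1 * q.2 := by
        rw [← hpq', hp.2, hpq', hq.2]
      exact Prod.ext (mul_right_cancel₀ h3 h4) hpq'
    · intro a ha
      rw [mem_coe] at ha
      unfold dvs at ha
      rw [mem_filter, mem_ball] at ha
      obtain ⟨b, hb⟩ := ha.2
      refine ⟨(b, a), ?_, rfl⟩
      rw [mem_coe, mem_filter]
      have h3 : nm c = nm a * nm b := by rw [hb, nm_mul]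
      have h4 : 0 < nm c := nm_pos hc0
      have h5 : nm a ≤ nm c := Nat.le_of_dvd h4 ⟨nm b, h3⟩
      have h6 : nm b ≤ nm c := Nat.le_of_dvd h4 ⟨nm a, by rw [h3, mul_comm]⟩
      refine ⟨?_, by rw [hb, mul_comm]⟩
      simp only [T, mem_filter, mem_product, mem_ball]
      refine ⟨⟨?_, ?_⟩, by rw [mul_comm, ← h3]; exact hcN⟩
      · exact_mod_cast h6.trans hcN
      · exact_mod_cast h5.trans hcN
    · intro p hp
      rw [mem_filter] at hp
      have h3 : p.1 ≠ 0 := by
        intro h0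
        apply hc0
        rw [← hp.2, h0, zero_mul]
      unfold ilg
      rw [if_neg h3]
      have h4 : v * (nm p.2 : ℝ) * nm p.1 = v * nm c := by
        rw [← hp.2, nm_mul]
        push_cast
        ring
      rw [h4, Complex.re_mul_ofReal]
  have hzero : ∑ p ∈ (T N).filter (fun p => p.1 * p.2 = 0), (ilg χ v p).re = 0 := by
    refine sum_eq_zero fun p hp => ?_
    rw [mem_filter] at hp
    unfold ilg
    rcases mul_eq_zero.1 hp.2 with h3 | h3
    · rw [if_pos h3, Complex.zero_re]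
    · rw [h3, il_chi_zero hχ, zero_mul, ite_self, Complex.zero_re]
  have hnn : ∀ c ∈ ball (N : ℝ), 0 ≤ ∑ p ∈ (T N).filter (fun p => p.1 * p.2 = c), (ilg χ v p).re := by
    intro c hc
    by_cases hc0 : c = 0
    · rw [hc0, hzero]
    · rw [hfib c hc hc0]
      have h3 : (0 : ℝ) < nm c := by exact_mod_cast nm_pos hc0
      exact mul_nonneg (r_pos D χ hχ hreal h1 c hc0) (KB_nonneg _ (by positivity))
  have hone : (1 : G) ∈ ball (N : ℝ) := by
    rw [mem_ball, nm_one]
    exact_mod_cast hN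
  refine le_trans ?_ (single_le_sum hnn hone)
  rw [hfib 1 hone one_ne_zero, r_one D χ hχ h1, nm_one, Nat.cast_one, mul_one]
  have := KB_nonneg v hv
  linarith

end Pool.Agent.ECM
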