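import Pool.Agent.Lib_MP_f1a94e_ecm.ThH

/-!
# Piece M-IUP: upper bound for the Mellin convolution when the L-value vanishes
-/

set_option autoImplicit false

namespace Pool.Agent.ECM

open Finset Pool.Agent.GaussMR Pool.Agent.GaussCM Pool.Agent.OmAll

private theorem iup_exp1 {x : ℝ} (hx : 0 < x) : Real.exp (-x) ≤ 2 / x ^ 2 := by
  have h := Real.quadratic_le_exp_of_nonneg hx.le
  rw [Real.exp_neg, inv_eq_one_div, div_le_div_iff₀ (Real.exp_pos x) (by positivity)]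
  nlinarith [sq_nonneg x]

/-- polynomial bounds for the exponential series -/
private theorem iup_h (D : ℕ) (hD : 0 < D) (χ : G → ℂ) (hχ : Chi D χ) (hnp : ¬ Pri D χ) :
    ∃ A : ℝ, 0 < A ∧ ∀ s : ℝ, 0 < s →
      ‖HH χ s‖ ≤ A * s / (1 + s ^ 2) ∧ ‖HH χ s‖ ≤ A / (1 + s ^ 2) := by
  obtain ⟨c, C, hc, hC, h1⟩ := HH_small D hD χ hχ hnp
  obtain ⟨C', hC', h2⟩ := HH_large D χ hχ
  set A0 : ℝ := 2 * C / c ^ 2 + 8 * C' with hA0
  have hA0p : 0 < A0 := by positivity
  refine ⟨2 * A0, by positivity, fun s hs => ?_⟩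
  rcases le_total s 1 with hs1 | hs1
  · have h3 : ‖HH χ s‖ ≤ A0 * s := by
      refine (h1 s hs hs1).trans ?_
      have h4 := iup_exp1 (div_pos hc hs)
      calc C / s * Real.exp (-(c / s)) ≤ C / s * (2 / (c / s) ^ 2) :=
            mul_le_mul_of_nonneg_left h4 (by positivity)
        _ = 2 * C / c ^ 2 * s := by field_simp
        _ ≤ A0 * s := mul_le_mul_of_nonneg_right (by rw [hA0]; linarith) hs.le
    constructor
    · refine h3.trans ?_
      rw [le_div_iff₀ (by positivity)]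
      nlinarith [mul_pos hA0p hs, mul_nonneg (mul_pos hA0p hs).le (by nlinarith : (0 : ℝ) ≤ 1 - s ^ 2)]
    · refine h3.trans ?_
      rw [le_div_iff₀ (by positivity)]
      have h5 : s * (1 + s ^ 2) ≤ 2 := by nlinarith [mul_nonneg hs.le (by nlinarith : (0 : ℝ) ≤ 1 - s ^ 2)]
      nlinarith [mul_le_mul_of_nonneg_left h5 hA0p.le]
  · have h3 : ‖HH χ s‖ ≤ A0 / s ^ 2 := by
      refine (h2 s hs1).trans ?_
      have h4 := iup_exp1 (half_pos hs)
      calc C' * Real.exp (-(s / 2)) ≤ C' * (2 / (s / 2) ^ 2) :=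
            mul_le_mul_of_nonneg_left h4 hC'.le
        _ = 8 * C' / s ^ 2 := by field_simp; ring
        _ ≤ A0 / s ^ 2 := by
            have : 0 ≤ 2 * C / c ^ 2 := by positivity
            exact div_le_div_of_nonneg_right (by rw [hA0]; linarith) (by positivity)
    have h6 : A0 / s ^ 2 ≤ 2 * A0 / (1 + s ^ 2) := by
      rw [div_le_div_iff₀ (by positivity) (by positivity)]
      nlinarith [mul_nonneg hA0p.le (by nlinarith : (0 : ℝ) ≤ s ^ 2 - 1)]
    constructor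
    · refine (h3.trans h6).trans ?_
      apply div_le_div_of_nonneg_right _ (by positivity)
      nlinarith
    · exact h3.trans h6

/-- the theta series is `π / u` up to a bounded term -/
private theorem iup_t : ∃ B : ℝ, 0 < B ∧ ∀ u : ℝ, 0 < u → |Th u - Real.pi / u| ≤ B := by
  obtain ⟨c, C, hc, hC, h1⟩ := Th_small
  obtain ⟨h2, ⟨C', hC', h3⟩, -⟩ := Th_large
  refine ⟨1 + C / c + C' + Real.pi, by positivity, fun u hu => ?_⟩
  rcases le_total u 1 with hu1 | hu1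
  · have h4 := h1 u hu hu1
    have h5 : C / u * Real.exp (-(c / u)) ≤ C / c := by
      have h6 : (c / u) * Real.exp (-(c / u)) ≤ 1 := by
        have h7 := Real.add_one_le_exp (c / u)
        rw [Real.exp_neg, ← div_eq_mul_inv, div_le_one (Real.exp_pos _)]
        linarith
      calc C / u * Real.exp (-(c / u)) = C / c * ((c / u) * Real.exp (-(c / u))) := by field_simp
        _ ≤ C / c * 1 := mul_le_mul_of_nonneg_left h6 (by positivity)
        _ = C / c := mul_one _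
    have h8 := abs_le.mp (h4.trans h5)
    have h9 : 0 < C / c := by positivity
    rw [abs_le]
    constructor <;> linarith [h8.1, h8.2, Real.pi_pos]
  · have h4 := h3 u hu1
    have h5 := h2 u hu
    have h6 : C' * Real.exp (-(u / 2)) ≤ C' := by
      have : Real.exp (-(u / 2)) ≤ 1 := Real.exp_le_one_iff.mpr (by linarith)
      nlinarith
    have h7 : Real.pi / u ≤ Real.pi := div_le_self Real.pi_pos.le hu1
    have h8 : 0 < Real.pi / u := by positivity
    have h9 : 0 < C / c := by positivity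
    rw [abs_le]
    constructor <;> linarith

/-- scaled Cauchy density -/
private theorem iup_cauchy (v : ℝ) (hv : 0 < v) :
    MeasureTheory.IntegrableOn (fun u : ℝ => v / (u ^ 2 + v ^ 2)) (Set.Ioi 0) ∧
    ∫ u in Set.Ioi (0 : ℝ), v / (u ^ 2 + v ^ 2) = Real.pi / 2 := by
  have hv' : 0 < v⁻¹ := inv_pos.mpr hv
  have he : ∀ u : ℝ, v / (u ^ 2 + v ^ 2) = v⁻¹ * (1 + (v⁻¹ * u) ^ 2)⁻¹ := by
    intro u
    have h1 : 0 < u ^ 2 + v ^ 2 := by positivity
    have h2 : (1 : ℝ) + (v⁻¹ * u) ^ 2 = (u ^ 2 + v ^ 2) / v ^ 2 := by field_simp; ring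
    rw [h2]; field_simp
  simp_rw [he]
  constructor
  · refine MeasureTheory.Integrable.const_mul ?_ _
    have h3 := (MeasureTheory.integrableOn_Ioi_comp_mul_left_iff (fun x : ℝ => (1 + x ^ 2)⁻¹) 0 hv').mpr
      integrable_inv_one_add_sq.integrableOn
    exact h3
  · rw [MeasureTheory.integral_const_mul]
    have h4 := MeasureTheory.integral_comp_mul_left_Ioi' (fun x : ℝ => (1 + x ^ 2)⁻¹) 0 hv'
    rw [mul_zero, integral_Ioi_inv_one_add_sq, Real.arctan_zero, sub_zero, smul_eq_mul] at h4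
    exact h4

/-- the change of variables `s = v / u` -/
private theorem iup_cov (g : ℝ → ℂ) (v : ℝ) (hv : 0 < v) :
    ∫ u in Set.Ioi (0 : ℝ), ((u ^ 2)⁻¹ : ℝ) • g (v / u) = (v⁻¹ : ℝ) • ∫ s in Set.Ioi (0 : ℝ), g s := by
  have h1 := MeasureTheory.integral_comp_rpow_Ioi (fun s => g (v * s)) (p := -1) (by norm_num)
  have h2 := MeasureTheory.integral_comp_mul_left_Ioi g 0 hv
  rw [mul_zero] at h2
  rw [← h2, ← h1]
  refine MeasureTheory.setIntegral_congr_fun measurableSet_Ioi fun u hu => ?_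
  have hu' : 0 < u := hu
  have h3 : u ^ ((-1 : ℝ) - 1) = (u ^ 2)⁻¹ := by
    rw [show (-1 : ℝ) - 1 = -((2 : ℕ) : ℝ) by norm_num, Real.rpow_neg hu'.le, Real.rpow_natCast]
  have h4 : u ^ (-1 : ℝ) = u⁻¹ := by rw [Real.rpow_neg hu'.le, Real.rpow_one]
  simp only [h3, h4, abs_neg, abs_one, one_mul, div_eq_mul_inv]

/-- `∫_0^∞ (π/u) HH(v/u) du/u = (π/v) ∫_0^∞ HH(s) ds = 0` (`s = v/u`). So the integral is `∫ (Th u - π/u) HH(v/u) du/u`. For `u ≤ 1`: `|Th u - π/u| ≤ C` (`Th_small`), contribution `≤ C ∫_v^∞ |HH s| ds/s ≤ C'` (`HH_small`: `exp (-c/s)/s²` is integrable at `0`; `HH_large`). For `u ≥ 1`: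
`|Th u - π/u| ≤ C / u`, contribution `≤ C ∫_1^∞ |HH(v/u)| du/u² = (C/v) ∫_0^v |HH s| ds ≤ (C/v) ∫_0^v C exp(-c/s)/s ds ≤ C''` (`exp(-c/s)/s ≤ 1/c`). -/
theorem i_up (D : ℕ) (hD : 0 < D) (χ : G → ℂ) (hχ : Chi D χ) (hnp : ¬ Pri D χ) (h0 : ∫ s in Set.Ioi (0 : ℝ), HH χ s = 0) :
    ∃ C : ℝ, ∀ v : ℝ, 0 < v → v ≤ 1 → ‖∫ u in Set.Ioi (0 : ℝ), (Th u : ℂ) * HH χ (v / u) / (u : ℂ)‖ ≤ C := by
  obtain ⟨A, hA, hh⟩ := iup_h D hD χ hχ hnp
  obtain ⟨B, hB, ht⟩ := iup_t
  have hTc := Th_large.2.2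
  have hHc := HH_cont D χ hχ
  refine ⟨B * A * (Real.pi / 2), fun v hv hv1 => ?_⟩
  obtain ⟨hci, hcv⟩ := iup_cauchy v hv
  -- continuity of the pieces
  have hdc : ContinuousOn (fun u : ℝ => v / u) (Set.Ioi 0) :=
    continuousOn_const.div continuousOn_id (fun u hu => (ne_of_gt hu))
  have hHv : ContinuousOn (fun u : ℝ => HH χ (v / u)) (Set.Ioi 0) :=
    hHc.comp hdc (fun u hu => div_pos hv hu)
  have hid : ContinuousOn (fun u : ℝ => (u : ℂ)) (Set.Ioi 0) := Complex.continuous_ofReal.continuousOn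
  have hidne : ∀ u ∈ Set.Ioi (0 : ℝ), (u : ℂ) ≠ 0 := fun u hu => by
    exact_mod_cast (ne_of_gt hu)
  have hpc : ContinuousOn (fun u : ℝ => ((Th u - Real.pi / u : ℝ) : ℂ)) (Set.Ioi 0) :=
    Complex.continuous_ofReal.comp_continuousOn
      (hTc.sub (continuousOn_const.div continuousOn_id (fun u hu => (ne_of_gt hu))))
  have hf1c : ContinuousOn (fun u : ℝ => ((Th u - Real.pi / u : ℝ) : ℂ) * HH χ (v / u) / (u : ℂ)) (Set.Ioi 0) :=
    (hpc.mul hHv).div hid hidne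
  have hf2c : ContinuousOn (fun u : ℝ => ((Real.pi * (u ^ 2)⁻¹ : ℝ) : ℂ) * HH χ (v / u)) (Set.Ioi 0) := by
    refine ContinuousOn.mul (Complex.continuous_ofReal.comp_continuousOn ?_) hHv
    refine continuousOn_const.mul (ContinuousOn.inv₀ (continuousOn_id.pow 2) fun u hu => ?_)
    exact pow_ne_zero 2 (ne_of_gt hu)
  -- bounds
  have hb1 : ∀ u ∈ Set.Ioi (0 : ℝ),
      ‖((Th u - Real.pi / u : ℝ) : ℂ) * HH χ (v / u) / (u : ℂ)‖ ≤ B * A * (v / (u ^ 2 + v ^ 2)) := by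
    intro u hu
    have hu' : 0 < u := hu
    rw [norm_div, norm_mul, Complex.norm_real, Complex.norm_real, Real.norm_eq_abs, Real.norm_eq_abs,
      abs_of_pos hu']
    have h1 := ht u hu'
    have h2 := (hh (v / u) (div_pos hv hu')).1
    have h3 : |Th u - Real.pi / u| * ‖HH χ (v / u)‖ ≤ B * (A * (v / u) / (1 + (v / u) ^ 2)) :=
      mul_le_mul h1 h2 (norm_nonneg _) hB.le
    refine (div_le_div_of_nonneg_right h3 hu'.le).trans (le_of_eq ?_)
    have h4 : 0 < u ^ 2 + v ^ 2 := by positivity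
    have h5 : 1 + (v / u) ^ 2 = (u ^ 2 + v ^ 2) / u ^ 2 := by field_simp
    rw [h5]; field_simp
  have hb2 : ∀ u ∈ Set.Ioi (0 : ℝ),
      ‖((Real.pi * (u ^ 2)⁻¹ : ℝ) : ℂ) * HH χ (v / u)‖ ≤ Real.pi * A * v⁻¹ * (v / (u ^ 2 + v ^ 2)) := by
    intro u hu
    have hu' : 0 < u := hu
    rw [norm_mul, Complex.norm_real, Real.norm_eq_abs, abs_of_pos (by positivity)]
    have h2 := (hh (v / u) (div_pos hv hu')).2
    refine (mul_le_mul_of_nonneg_left h2 (by positivity)).trans (le_of_eq ?_)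
    have h4 : 0 < u ^ 2 + v ^ 2 := by positivity
    have h5 : 1 + (v / u) ^ 2 = (u ^ 2 + v ^ 2) / u ^ 2 := by field_simp
    rw [h5]; field_simp
  have hi1 : MeasureTheory.IntegrableOn
      (fun u : ℝ => ((Th u - Real.pi / u : ℝ) : ℂ) * HH χ (v / u) / (u : ℂ)) (Set.Ioi 0) := by
    refine MeasureTheory.Integrable.mono' (hci.const_mul (B * A))
      (hf1c.aestronglyMeasurable measurableSet_Ioi) ?_
    exact (MeasureTheory.ae_restrict_iff' measurableSet_Ioi).mpr (Filter.Eventually.of_forall hb1)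
  have hi2 : MeasureTheory.IntegrableOn
      (fun u : ℝ => ((Real.pi * (u ^ 2)⁻¹ : ℝ) : ℂ) * HH χ (v / u)) (Set.Ioi 0) := by
    refine MeasureTheory.Integrable.mono' (hci.const_mul (Real.pi * A * v⁻¹))
      (hf2c.aestronglyMeasurable measurableSet_Ioi) ?_
    exact (MeasureTheory.ae_restrict_iff' measurableSet_Ioi).mpr (Filter.Eventually.of_forall hb2)
  -- the main term vanishes
  have hz : ∫ u in Set.Ioi (0 : ℝ), ((Real.pi * (u ^ 2)⁻¹ : ℝ) : ℂ) * HH χ (v / u) = 0 := by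
    have h1 := iup_cov (HH χ) v hv
    rw [h0, smul_zero] at h1
    have h2 : ∀ u : ℝ, ((Real.pi * (u ^ 2)⁻¹ : ℝ) : ℂ) * HH χ (v / u) =
        (Real.pi : ℂ) * (((u ^ 2)⁻¹ : ℝ) • HH χ (v / u)) := by
      intro u
      rw [Complex.real_smul]; push_cast; ring
    simp_rw [h2]
    rw [MeasureTheory.integral_const_mul, h1, mul_zero]
  have hsplit : ∫ u in Set.Ioi (0 : ℝ), (Th u : ℂ) * HH χ (v / u) / (u : ℂ) =
      ∫ u in Set.Ioi (0 : ℝ), ((Th u - Real.pi / u : ℝ) : ℂ) * HH χ (v / u) / (u : ℂ) := by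
    have h1 : ∫ u in Set.Ioi (0 : ℝ), (Th u : ℂ) * HH χ (v / u) / (u : ℂ) =
        ∫ u in Set.Ioi (0 : ℝ), (((Th u - Real.pi / u : ℝ) : ℂ) * HH χ (v / u) / (u : ℂ) +
          ((Real.pi * (u ^ 2)⁻¹ : ℝ) : ℂ) * HH χ (v / u)) := by
      refine MeasureTheory.setIntegral_congr_fun measurableSet_Ioi fun u hu => ?_
      have hu' := hidne u hu
      push_cast
      field_simp
      ring
    rw [h1, MeasureTheory.integral_add hi1 hi2, hz, add_zero]
  rw [hsplit]
  refine (MeasureTheory.norm_integral_le_of_norm_le (hci.const_mul (B * A))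
    ((MeasureTheory.ae_restrict_iff' measurableSet_Ioi).mpr (Filter.Eventually.of_forall hb1))).trans ?_
  rw [MeasureTheory.integral_const_mul, hcv]

end Pool.Agent.ECM
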