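import Pool.Agent.Lib_MP_f1a94e_ecm.ZDefs
import Pool.Agent.Lib_MP_f1a94e_mr.CPsum

/-!
# Piece M-LAMID: von Mangoldt identity on odd Gaussian integers
-/

set_option autoImplicit false

namespace Pool.Agent.ECM

open Finset Pool.Agent.GaussMR Pool.Agent.GaussCM Pool.Agent.OmAll

private theorem lami_nm_pow (p : G) (j : ℕ) : nm (p ^ j) = nm p ^ j := by
  induction j with
  | zero => rw [pow_zero, pow_zero, nm_one]
  | succ j ih => rw [pow_succ, pow_succ, nm_mul, ih]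

private theorem lami_assoc_nm {p q : G} (h : Associated p q) : nm p = nm q :=
  Nat.dvd_antisymm (nm_dvd h.dvd) (nm_dvd h.symm.dvd)

private theorem lami_not_dvd {w a : G} {Y : ℝ} (hw : 5 ≤ nm w) (ha : Odd (nm a))
    (hY : (nm a : ℝ) ≤ Y) : ¬ w ^ ⌊Y⌋₊ ∣ a := by
  intro h
  have h1 := nm_dvd h
  rw [lami_nm_pow] at h1
  have h2 := Nat.le_of_dvd (nm_pos_of_odd ha) h1
  have h3 : nm a ≤ ⌊Y⌋₊ := Nat.le_floor hY
  have h4 : ⌊Y⌋₊ < nm w ^ ⌊Y⌋₊ := Nat.lt_pow_self (by omega)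
  omega

open Classical in
private theorem lami_card {w q a : G} {Y : ℝ} (hw : 5 ≤ nm w) (hwq : Associated w q)
    (hq0 : q ≠ 0) (ha : Odd (nm a)) (hY : (nm (q * a) : ℝ) ≤ Y) :
    ((Icc 1 ⌊Y⌋₊).filter (fun j => w ^ j ∣ q * a)).card =
      ((Icc 1 ⌊Y⌋₊).filter (fun j => w ^ j ∣ a)).card + 1 := by
  have hY' : (nm a : ℝ) ≤ Y := by
    refine le_trans ?_ hY
    rw [nm_mul]
    have := nm_pos hq0
    exact_mod_cast Nat.le_mul_of_pos_left _ this
  have hnd := lami_not_dvd hw ha hY'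
  have hw0 : w ≠ 0 := by
    rintro rfl
    rw [nm_zero] at hw
    omega
  have hiff : ∀ j, w ^ (j + 1) ∣ q * a ↔ w ^ j ∣ a := by
    intro j
    rw [pow_succ, mul_comm (w ^ j) w, (hwq.mul_right a).symm.dvd_iff_dvd_right]
    exact mul_dvd_mul_iff_left hw0
  have hN : 1 ≤ ⌊Y⌋₊ := by
    rw [Nat.one_le_floor_iff]
    refine le_trans ?_ hY
    have : 0 < nm (q * a) := by
      rw [nm_mul]
      exact Nat.mul_pos (nm_pos hq0) (nm_pos_of_odd ha)
    exact_mod_cast this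
  have e : (Icc 1 ⌊Y⌋₊).filter (fun j => w ^ j ∣ q * a) =
      insert 1 (((Icc 1 ⌊Y⌋₊).filter (fun j => w ^ j ∣ a)).image (fun j => j + 1)) := by
    ext j
    rw [mem_insert, mem_image, mem_filter, mem_Icc]
    constructor
    · rintro ⟨⟨h1, h2⟩, h3⟩
      by_cases hj : j = 1
      · exact Or.inl hj
      · right
        obtain ⟨i, rfl⟩ : ∃ i, j = i + 1 := ⟨j - 1, by omega⟩
        rw [hiff] at h3
        exact ⟨i, by rw [mem_filter, mem_Icc]; exact ⟨⟨by omega, by omega⟩, h3⟩, rfl⟩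
    · rintro (rfl | ⟨i, hi, rfl⟩)
      · refine ⟨⟨le_rfl, hN⟩, ?_⟩
        have := (hiff 0).2 (by simp)
        simpa using this
      · rw [mem_filter, mem_Icc] at hi
        obtain ⟨⟨h1, h2⟩, h3⟩ := hi
        refine ⟨⟨by omega, ?_⟩, (hiff i).2 h3⟩
        by_contra hc
        have : i = ⌊Y⌋₊ := by omega
        rw [this] at h3
        exact hnd h3
  rw [e, card_insert_of_notMem, card_image_of_injective _ (fun _ _ h => Nat.succ_injective h)]
  intro h
  rw [mem_image] at h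
  obtain ⟨i, hi, hi2⟩ := h
  rw [mem_filter, mem_Icc] at hi
  omega

open Classical in
/-- Induction on the number of prime factors (`CP_exists`, `CP_assoc`: exactly one prime of `CP Y` in each class of associates of odd primes of norm at most `Y`): if `z = p z'` with `p ∈ CP Y` then `p^j ∣ z ↔ p^(j-1) ∣ z'` and `q^j ∣ z ↔ q^j ∣ z'` for `q ∈ CP Y`, `q ≠ p`. -/
theorem lam_id (z : G) (hz : Odd (nm z)) (Y : ℝ) (hY : (nm z : ℝ) ≤ Y) :
    Real.log (nm z) = ∑ p ∈ CP Y, ∑ j ∈ (Icc 1 ⌊Y⌋₊).filter (fun j => p ^ j ∣ z), Real.log (nm p) := by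
  induction z using UniqueFactorizationMonoid.induction_on_prime with
  | h₁ => exact absurd rfl (ne_zero_of_odd hz)
  | h₂ u hu =>
    have h1 : nm u = 1 := nm_eq_one_iff.2 hu
    rw [h1, Nat.cast_one, Real.log_one]
    symm
    refine sum_eq_zero fun p hp => ?_
    have e : (Icc 1 ⌊Y⌋₊).filter (fun j => p ^ j ∣ u) = ∅ := by
      rw [filter_eq_empty_iff]
      intro j hj h
      rw [mem_Icc] at hj
      have h2 : p ∣ u := (dvd_pow_self p (by omega)).trans h
      exact (CPS.mem_CP.1 hp).2.1.not_isUnit (isUnit_of_dvd_unit h2 hu)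
    rw [e, sum_empty]
  | h₃ a q ha hq ih =>
    have ho := odd_nm_mul.1 hz
    have hq0 := hq.ne_zero
    have hqa : (nm q : ℝ) ≤ Y := by
      refine le_trans ?_ hY
      rw [nm_mul]
      exact_mod_cast Nat.le_mul_of_pos_right _ (nm_pos ha)
    have haY : (nm a : ℝ) ≤ Y := by
      refine le_trans ?_ hY
      rw [nm_mul]
      exact_mod_cast Nat.le_mul_of_pos_left _ (nm_pos hq0)
    have ih' := ih ho.2 haY
    obtain ⟨w, hw, hwq⟩ := CP_exists hq ho.1 hqa
    have hw5 := CP_nm hw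
    rw [nm_mul, Nat.cast_mul, Real.log_mul (by exact_mod_cast (nm_pos hq0).ne')
      (by exact_mod_cast (nm_pos ha).ne'), ih', ← lami_assoc_nm hwq]
    rw [← add_sum_erase _ _ hw, ← add_sum_erase _ _ hw, ← add_assoc]
    congr 1
    · rw [sum_const, sum_const, lami_card hw5 hwq hq0 ho.2 hY, nsmul_eq_mul, nsmul_eq_mul]
      push_cast
      ring
    · refine sum_congr rfl fun p hp => ?_
      rw [mem_erase] at hp
      refine sum_congr ?_ fun _ _ => rfl
      refine filter_congr fun j _ => ?_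
      have hpp := (CPS.mem_CP.1 hp.2).2.1
      have hcop : IsCoprime (p ^ j) q := by
        refine IsCoprime.pow_left ?_
        rw [hpp.irreducible.coprime_iff_not_dvd]
        intro hd
        have has : Associated p q := hpp.associated_of_dvd hq hd
        exact hp.1 (CP_assoc hp.2 hw (has.trans hwq.symm))
      exact ⟨fun h => h.mul_left _, fun h => hcop.dvd_of_dvd_mul_left h⟩

/-- `lam_id`, exchange of the sums, `z = p^j z'` (`reindex` in Lib_MP_f1a94e_mr/Weight.lean is similar; `ob t` is empty for `t < 1`). -/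
theorem lam_sum (D : ℕ) (χ : G → ℂ) (hχ : Chi D χ) (Y : ℝ) (hY : 1 ≤ Y) :
    ∑ z ∈ ob Y, χ z * (Real.log (nm z) : ℂ) / (nm z : ℂ) =
      ∑ p ∈ CP Y, ∑ j ∈ Icc 1 ⌊Y⌋₊, χ p ^ j * (Real.log (nm p) : ℂ) / (nm p : ℂ) ^ j * SL χ (Y / (nm p : ℝ) ^ j) := by
  classical
  have hmem : ∀ {t : ℝ} {z : G}, z ∈ ob t ↔ (nm z : ℝ) ≤ t ∧ Odd (nm z) := by
    intro t z
    simp [ob, mem_ball]
  have hpow : ∀ (p : G) (j : ℕ), χ (p ^ j) = χ p ^ j := by
    intro p j
    induction j with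
    | zero => rw [pow_zero, pow_zero, hχ.one]
    | succ j ih => rw [pow_succ, pow_succ, hχ.mul, ih]
  have e1 : ∀ z ∈ ob Y, χ z * (Real.log (nm z) : ℂ) / (nm z : ℂ) =
      ∑ p ∈ CP Y, ∑ j ∈ Icc 1 ⌊Y⌋₊, if p ^ j ∣ z then χ z * (Real.log (nm p) : ℂ) / (nm z : ℂ) else 0 := by
    intro z hz
    rw [hmem] at hz
    rw [lam_id z hz.2 Y hz.1]
    push_cast
    rw [mul_sum, sum_div]
    refine sum_congr rfl fun p _ => ?_
    rw [mul_sum, sum_div, sum_filter]
  rw [sum_congr rfl e1, sum_comm]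
  refine sum_congr rfl fun p hp => ?_
  rw [sum_comm]
  refine sum_congr rfl fun j _ => ?_
  rw [← sum_filter]
  have ho := (CPS.mem_CP.1 hp).2.2.1
  have hn : 0 < nm p := nm_pos_of_odd ho
  have hnR : (0 : ℝ) < (nm p : ℝ) ^ j := by positivity
  have hp0 : p ^ j ≠ 0 := pow_ne_zero _ (ne_zero_of_odd ho)
  unfold SL
  rw [mul_sum]
  symm
  refine sum_bij (fun s _ => p ^ j * s) ?_ ?_ ?_ ?_
  · intro s hs
    rw [hmem, le_div_iff₀ hnR] at hs
    rw [mem_filter, hmem, nm_mul, lami_nm_pow]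
    refine ⟨⟨?_, (ho.pow).mul hs.2⟩, dvd_mul_right _ _⟩
    push_cast
    linarith [hs.1]
  · intro s _ s' _ h
    exact mul_left_cancel₀ hp0 h
  · intro u hu
    rw [mem_filter, hmem] at hu
    obtain ⟨⟨h1, h2⟩, s, rfl⟩ := hu
    refine ⟨s, ?_, rfl⟩
    rw [hmem, le_div_iff₀ hnR]
    rw [nm_mul, lami_nm_pow] at h1 h2
    push_cast at h1
    exact ⟨by linarith, (Nat.odd_mul.1 h2).2⟩
  · intro s hs
    rw [hmem] at hs
    rw [nm_mul, lami_nm_pow, hχ.mul, hpow]
    have hs0 : (nm s : ℂ) ≠ 0 := by exact_mod_cast (nm_pos_of_odd hs.2).ne'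
    have hp0' : (nm p : ℂ) ≠ 0 := by exact_mod_cast hn.ne'
    push_cast
    field_simp

end Pool.Agent.ECM
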