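import Pool.Agent.Lib_MP_f1a94e_ecm.MDefs
import Pool.Agent.Lib_MP_f1a94e_mr.LS
import Pool.Agent.Lib_MP_f1a94e_mr.VAsymp

/-!
# Piece M-MARC: Parseval for sums over arcs
-/

set_option autoImplicit false

namespace Pool.Agent.ECM

open Finset Pool.Agent.GaussMR Pool.Agent.GaussCM Pool.Agent.OmAll MeasureTheory

/-- weight of an arc of length `w` at the frequency `k` -/
noncomputable def marcW (w : ℝ) (k : ℤ) : ℂ :=
  (1 / (2 * Real.pi) : ℝ) • ∫ u in (-w)..0, Complex.exp (-(k * u : ℝ) * Complex.I)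

theorem marc_xi {z : G} (hz : z ≠ 0) (k : ℤ) :
    xi (-k) z = Complex.exp (-(k * Complex.arg (z : ℂ) : ℝ) * Complex.I) := by
  have h1 : dir z = Complex.exp (Complex.arg (z : ℂ) * Complex.I) := by
    unfold dir
    have h2 : ((‖(z : ℂ)‖ : ℝ) : ℂ) ≠ 0 := by
      rw [Ne, Complex.ofReal_eq_zero, norm_eq_zero]
      exact toComplex_ne_zero hz
    rw [div_eq_iff h2, mul_comm]
    exact (Complex.norm_mul_exp_arg_mul_I (z : ℂ)).symm
  unfold xi
  rw [h1, ← Complex.exp_int_mul]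
  congr 1
  push_cast
  ring

theorem marc_set (w : ℝ) (z : G) : {θ : ℝ | InArc θ w z} =
    ⋃ j : ℤ, Set.Ioc (Complex.arg (z : ℂ) + 2 * Real.pi * j - w) (Complex.arg (z : ℂ) + 2 * Real.pi * j) := by
  ext θ
  simp only [Set.mem_iUnion, Set.mem_Ioc]
  constructor
  · rintro ⟨j, h1, h2⟩
    exact ⟨j, by linarith, h1⟩
  · rintro ⟨j, h1, h2⟩
    exact ⟨j, h2, by linarith⟩

theorem marc_meas (w : ℝ) (z : G) : MeasurableSet {θ : ℝ | InArc θ w z} := by
  rw [marc_set]
  exact MeasurableSet.iUnion fun j => measurableSet_Ioc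

open Classical in
/-- one term of the integral -/
theorem marc_one (w : ℝ) (hw : 0 < w) (hw2 : w ≤ 2 * Real.pi) (z : G) (k : ℤ) :
    ∫ θ in (0 : ℝ)..(2 * Real.pi), (if InArc θ w z then Complex.exp (-(k * θ : ℝ) * Complex.I) else 0) =
      Complex.exp (-(k * Complex.arg (z : ℂ) : ℝ) * Complex.I) *
        ∫ u in (-w)..0, Complex.exp (-(k * u : ℝ) * Complex.I) := by
  set a : ℝ := Complex.arg (z : ℂ) with ha
  have hpi := Real.pi_pos
  set h : ℝ → ℂ := fun θ => if InArc θ w z then Complex.exp (-(k * θ : ℝ) * Complex.I) else 0 with hh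
  have hper : Function.Periodic h (2 * Real.pi) := by
    intro θ
    have e1 : InArc (θ + 2 * Real.pi) w z ↔ InArc θ w z := by
      constructor
      · rintro ⟨j, h1, h2⟩
        refine ⟨j - 1, ?_, ?_⟩ <;> push_cast <;> linarith
      · rintro ⟨j, h1, h2⟩
        refine ⟨j + 1, ?_, ?_⟩ <;> push_cast <;> linarith
    have e2 : Complex.exp (-(k * (θ + 2 * Real.pi) : ℝ) * Complex.I) =
        Complex.exp (-(k * θ : ℝ) * Complex.I) := by
      have e3 : -((k * (θ + 2 * Real.pi) : ℝ) : ℂ) * Complex.I =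
          -((k * θ : ℝ) : ℂ) * Complex.I + ((-k : ℤ) : ℂ) * (2 * Real.pi * Complex.I) := by
        push_cast
        ring
      rw [e3, Complex.exp_add, Complex.exp_int_mul_two_pi_mul_I, mul_one]
    simp only [hh, e1, e2]
  have h1 : ∫ θ in (0 : ℝ)..(2 * Real.pi), h θ = ∫ θ in (a - 2 * Real.pi)..a, h θ := by
    have := hper.intervalIntegral_add_eq 0 (a - 2 * Real.pi)
    rw [zero_add, sub_add_cancel] at this
    exact this
  rw [h1]
  have h2 : ∫ θ in (a - 2 * Real.pi)..a, h θ =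
      ∫ θ in (a - w)..a, Complex.exp (-(k * θ : ℝ) * Complex.I) := by
    rw [intervalIntegral.integral_of_le (by linarith), intervalIntegral.integral_of_le (by linarith)]
    have e1 : Set.Ioc (a - w) a ⊆ Set.Ioc (a - 2 * Real.pi) a := by
      intro θ hθ
      exact ⟨by linarith [hθ.1], hθ.2⟩
    rw [← MeasureTheory.integral_indicator measurableSet_Ioc,
      ← MeasureTheory.integral_indicator measurableSet_Ioc]
    congr 1
    funext θ
    by_cases hθ : θ ∈ Set.Ioc (a - 2 * Real.pi) a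
    · rw [Set.indicator_of_mem hθ]
      by_cases hθ2 : θ ∈ Set.Ioc (a - w) a
      · rw [Set.indicator_of_mem hθ2]
        have : InArc θ w z := ⟨0, by push_cast; linarith [hθ2.2], by push_cast; linarith [hθ2.1]⟩
        simp only [hh, this, if_true]
      · rw [Set.indicator_of_notMem hθ2]
        have : ¬ InArc θ w z := by
          rintro ⟨j, g1, g2⟩
          rw [← ha] at g1 g2
          have hj : j = 0 := by
            have g3 : (j : ℝ) < 1 := by
              by_contra hc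
              push Not at hc
              have : 2 * Real.pi * 1 ≤ 2 * Real.pi * j := by gcongr
              linarith [hθ.2]
            have g4 : (-1 : ℝ) < j := by
              by_contra hc
              push Not at hc
              have : 2 * Real.pi * j ≤ 2 * Real.pi * (-1) := by gcongr
              linarith [hθ.1]
            have g5 : j < 1 := by exact_mod_cast g3
            have g6 : (-1 : ℤ) < j := by exact_mod_cast g4
            omega
          subst hj
          push_cast at g1 g2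
          exact hθ2 ⟨by linarith, by linarith⟩
        simp only [hh, this, if_false]
    · rw [Set.indicator_of_notMem hθ, Set.indicator_of_notMem (fun h => hθ (e1 h))]
  rw [h2, ← intervalIntegral.integral_const_mul]
  have h3 : ∫ u in (-w)..0, Complex.exp (-(k * a : ℝ) * Complex.I) * Complex.exp (-(k * u : ℝ) * Complex.I) =
      ∫ u in (-w)..0, (fun θ : ℝ => Complex.exp (-(k * θ : ℝ) * Complex.I)) (u + a) := by
    congr 1
    funext u
    simp only
    rw [← Complex.exp_add]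
    congr 1
    push_cast
    ring
  rw [h3, intervalIntegral.integral_comp_add_right (fun θ : ℝ => Complex.exp (-(k * θ : ℝ) * Complex.I)) a]
  congr 1 <;> ring

theorem marcW_le (w : ℝ) (hw : 0 < w) (k : ℤ) : ‖marcW w k‖ ≤ w / (2 * Real.pi) := by
  have hpi := Real.pi_pos
  unfold marcW
  rw [norm_smul, Real.norm_eq_abs, abs_of_pos (by positivity)]
  have h1 : ‖∫ u in (-w)..0, Complex.exp (-(k * u : ℝ) * Complex.I)‖ ≤ 1 * |0 - (-w)| := by
    apply intervalIntegral.norm_integral_le_of_norm_le_const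
    intro u _
    rw [Complex.norm_exp]
    simp
  rw [zero_sub, neg_neg, abs_of_pos hw, one_mul] at h1
  calc 1 / (2 * Real.pi) * ‖∫ u in (-w)..0, Complex.exp (-(k * u : ℝ) * Complex.I)‖ ≤
      1 / (2 * Real.pi) * w := mul_le_mul_of_nonneg_left h1 (by positivity)
    _ = w / (2 * Real.pi) := by ring

theorem marcW_le' (w : ℝ) (k : ℤ) (hk : k ≠ 0) : ‖marcW w k‖ ≤ 1 / (Real.pi * |(k : ℝ)|) := by
  have hpi := Real.pi_pos
  have hk' : (0 : ℝ) < |(k : ℝ)| := abs_pos.mpr (by exact_mod_cast hk)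
  unfold marcW
  rw [norm_smul, Real.norm_eq_abs, abs_of_pos (by positivity)]
  have hc : (-(k : ℂ) * Complex.I) ≠ 0 := by
    apply mul_ne_zero
    · rw [neg_ne_zero]
      exact_mod_cast hk
    · exact Complex.I_ne_zero
  have h1 : ∫ u in (-w)..0, Complex.exp (-(k * u : ℝ) * Complex.I) =
      (Complex.exp ((-(k : ℂ) * Complex.I) * (0 : ℝ)) -
        Complex.exp ((-(k : ℂ) * Complex.I) * (-w : ℝ))) / (-(k : ℂ) * Complex.I) := by
    rw [← integral_exp_mul_complex hc]
    congr 1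
    funext u
    congr 1
    push_cast
    ring
  rw [h1, norm_div]
  have h2 : ‖-(k : ℂ) * Complex.I‖ = |(k : ℝ)| := by
    rw [norm_mul, Complex.norm_I, mul_one, norm_neg]
    exact Complex.norm_intCast k
  rw [h2]
  have h3 : ‖Complex.exp ((-(k : ℂ) * Complex.I) * (0 : ℝ)) -
        Complex.exp ((-(k : ℂ) * Complex.I) * (-w : ℝ))‖ ≤ 2 := by
    refine (norm_sub_le _ _).trans ?_
    rw [Complex.norm_exp, Complex.norm_exp]
    simp
    norm_num
  calc 1 / (2 * Real.pi) * (‖Complex.exp ((-(k : ℂ) * Complex.I) * (0 : ℝ)) -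
        Complex.exp ((-(k : ℂ) * Complex.I) * (-w : ℝ))‖ / |(k : ℝ)|) ≤
      1 / (2 * Real.pi) * (2 / |(k : ℝ)|) := by gcongr
    _ = 1 / (Real.pi * |(k : ℝ)|) := by field_simp

/-- Fourier coefficients of the sum over an arc -/
theorem marc_coeff (F : G → ℂ) (X w : ℝ) (hw : 0 < w) (hw2 : w ≤ 2 * Real.pi) (k : ℤ) :
    fourierCoeffOn (show (0 : ℝ) < 2 * Real.pi by positivity) (arcS F X w) k =
      marcW w k * fcC F X k := by
  classical
  rw [fourierCoeffOn_eq_integral]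
  have h1 : ∫ x in (0 : ℝ)..(2 * Real.pi), fourier (-k) (x : AddCircle (2 * Real.pi - 0)) • arcS F X w x =
      ∑ z ∈ V X, F z * (Complex.exp (-(k * Complex.arg (z : ℂ) : ℝ) * Complex.I) *
        ∫ u in (-w)..0, Complex.exp (-(k * u : ℝ) * Complex.I)) := by
    have e1 : ∀ x : ℝ, fourier (-k) (x : AddCircle (2 * Real.pi - 0)) • arcS F X w x =
        ∑ z ∈ V X, F z * (if InArc x w z then Complex.exp (-(k * x : ℝ) * Complex.I) else 0) := by
      intro x
      rw [fourier_coe_apply, arcS, smul_eq_mul, Finset.mul_sum]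
      refine Finset.sum_congr rfl fun z _ => ?_
      have e2 : Complex.exp (2 * Real.pi * Complex.I * ((-k : ℤ) : ℂ) * (x : ℂ) / ((2 * Real.pi - 0 : ℝ) : ℂ)) =
          Complex.exp (-(k * x : ℝ) * Complex.I) := by
        congr 1
        rw [sub_zero]
        push_cast
        have : (Real.pi : ℂ) ≠ 0 := by exact_mod_cast Real.pi_ne_zero
        field_simp
      rw [e2]
      split_ifs
      · ring
      · ring
    simp only [e1]
    rw [intervalIntegral.integral_finsetSum]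
    · refine Finset.sum_congr rfl fun z _ => ?_
      rw [intervalIntegral.integral_const_mul, marc_one w hw hw2 z k]
    · intro z _
      apply IntervalIntegrable.const_mul
      have hcont : Continuous fun x : ℝ => Complex.exp (-(k * x : ℝ) * Complex.I) := by fun_prop
      have hii : IntervalIntegrable (fun x : ℝ => Complex.exp (-(k * x : ℝ) * Complex.I)) volume 0 (2 * Real.pi) :=
        hcont.intervalIntegrable _ _
      have : (fun x : ℝ => if InArc x w z then Complex.exp (-(k * x : ℝ) * Complex.I) else 0) =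
          Set.indicator {x : ℝ | InArc x w z} (fun x : ℝ => Complex.exp (-(k * x : ℝ) * Complex.I)) := by
        funext x
        rw [Set.indicator_apply]
        rfl
      rw [this, intervalIntegrable_iff]
      rw [intervalIntegrable_iff] at hii
      exact hii.indicator (marc_meas w z)
  rw [h1, marcW, fcC, Finset.mul_sum, Finset.smul_sum]
  refine Finset.sum_congr rfl fun z hz => ?_
  rw [marc_xi (V_ne_zero hz)]
  rw [sub_zero]
  simp only [Complex.real_smul]
  ring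

theorem marc_memLp (F : G → ℂ) (X w : ℝ) :
    MemLp (arcS F X w) 2 (volume.restrict (Set.Ioc 0 (2 * Real.pi))) := by
  classical
  have h1 : Measurable (arcS F X w) := by
    unfold arcS
    apply Finset.measurable_fun_sum
    intro z _
    exact Measurable.ite (marc_meas w z) measurable_const measurable_const
  refine MemLp.of_bound h1.aestronglyMeasurable (∑ z ∈ V X, ‖F z‖) (Filter.Eventually.of_forall fun θ => ?_)
  unfold arcS
  refine (norm_sum_le _ _).trans (Finset.sum_le_sum fun z _ => ?_)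
  split_ifs
  · exact le_rfl
  · rw [norm_zero]
    exact norm_nonneg _

/-- Parseval -/
theorem marc_parseval (F : G → ℂ) (X w : ℝ) (hw : 0 < w) (hw2 : w ≤ 2 * Real.pi) :
    HasSum (fun k : ℤ => ‖marcW w k * fcC F X k‖ ^ 2)
      ((2 * Real.pi)⁻¹ * ∫ θ in (0 : ℝ)..(2 * Real.pi), ‖arcS F X w θ‖ ^ 2) := by
  have h := hasSum_sq_fourierCoeffOn (show (0 : ℝ) < 2 * Real.pi by positivity) (marc_memLp F X w)
  simp only [marc_coeff F X w hw hw2, sub_zero, smul_eq_mul] at h
  exact h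

/-- the large sieve for one function -/
theorem marc_ls : ∃ C : ℝ, 0 < C ∧ ∀ (F : G → ℂ), CM F → ∀ (X : ℝ) (K : ℕ), 1 ≤ X →
    ∑ k ∈ fr K, ‖fcC F X k‖ ^ 2 ≤ C * (K + X) * X := by
  obtain ⟨C, hC, h⟩ := large_sieve
  refine ⟨9 * C, by positivity, fun F hF X K hX => ?_⟩
  refine (h X K F hX).trans ?_
  have h1 : ∑ z ∈ V X, ‖F z‖ ^ 2 ≤ 9 * X := by
    refine le_trans ?_ (card_V_le X (by linarith))
    calc ∑ z ∈ V X, ‖F z‖ ^ 2 ≤ ∑ _z ∈ V X, (1 : ℝ) := Finset.sum_le_sum fun z hz =>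
          pow_le_one₀ (norm_nonneg _) (hF.norm (mem_V.1 hz).2.1)
      _ = ((V X).card : ℝ) := by simp
  calc C * (K + X) * ∑ z ∈ V X, ‖F z‖ ^ 2 ≤ C * (K + X) * (9 * X) :=
        mul_le_mul_of_nonneg_left h1 (by positivity)
    _ = 9 * C * (K + X) * X := by ring

/-- one dyadic annulus -/
theorem marc_annulus {C : ℝ} (hC : 0 < C) (h : ∀ (F : G → ℂ), CM F → ∀ (X : ℝ) (K : ℕ), 1 ≤ X →
    ∑ k ∈ fr K, ‖fcC F X k‖ ^ 2 ≤ C * (K + X) * X) (F : G → ℂ) (hF : CM F) (X w : ℝ) (T : ℕ)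
    (hX : 1 ≤ X) (hT : 1 ≤ T) (j : ℕ) :
    ∑ k ∈ fr (2 ^ (j + 1) * T) \ fr (2 ^ j * T), ‖marcW w k * fcC F X k‖ ^ 2 ≤
      C * (2 * (1 / 2) ^ j * (X / T) + (1 / 2) ^ j * (X ^ 2 / T ^ 2)) := by
  have hpi := Real.pi_gt_three
  have hT0 : (0 : ℝ) < T := by exact_mod_cast hT
  have hT2 : (0 : ℝ) < 2 ^ j * T := by positivity
  have h1 : ∀ k ∈ fr (2 ^ (j + 1) * T) \ fr (2 ^ j * T), ‖marcW w k * fcC F X k‖ ^ 2 ≤
      (1 / (2 ^ j * T) ^ 2) * ‖fcC F X k‖ ^ 2 := by
    intro k hk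
    have hk2 : k ∉ fr (2 ^ j * T) := (Finset.mem_sdiff.mp hk).2
    rw [mem_fr] at hk2
    have hk3 : ((2 : ℝ) ^ j * T) ≤ |(k : ℝ)| := by
      by_contra hc
      push Not at hc
      apply hk2
      have h2 := abs_lt.mp hc
      constructor
      · have h3 : (-((2 ^ j * T : ℕ) : ℤ) : ℝ) < (k : ℝ) := by push_cast; linarith [h2.1]
        exact_mod_cast h3.le
      · have h3 : (k : ℝ) < ((2 ^ j * T : ℕ) : ℝ) := by push_cast; linarith [h2.2]
        exact_mod_cast h3.le
    have hk0 : k ≠ 0 := by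
      intro h0
      rw [h0] at hk3
      simp at hk3
      linarith
    have h4 := marcW_le' w k hk0
    rw [norm_mul, mul_pow]
    apply mul_le_mul_of_nonneg_right _ (sq_nonneg _)
    have h5 : ‖marcW w k‖ ≤ 1 / (2 ^ j * T) := by
      refine h4.trans ?_
      apply one_div_le_one_div_of_le hT2
      calc (2 : ℝ) ^ j * T ≤ |(k : ℝ)| := hk3
        _ ≤ Real.pi * |(k : ℝ)| := le_mul_of_one_le_left (abs_nonneg _) (by linarith)
    calc ‖marcW w k‖ ^ 2 ≤ (1 / (2 ^ j * T)) ^ 2 := pow_le_pow_left₀ (norm_nonneg _) h5 2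
      _ = 1 / (2 ^ j * T) ^ 2 := by rw [div_pow, one_pow]
  refine (Finset.sum_le_sum h1).trans ?_
  rw [← Finset.mul_sum]
  have h2 : ∑ k ∈ fr (2 ^ (j + 1) * T) \ fr (2 ^ j * T), ‖fcC F X k‖ ^ 2 ≤
      C * ((2 ^ (j + 1) * T : ℕ) + X) * X :=
    (Finset.sum_le_sum_of_subset_of_nonneg Finset.sdiff_subset (fun _ _ _ => by positivity)).trans
      (h F hF X _ hX)
  have hX0 : 0 < X := by linarith
  calc 1 / (2 ^ j * T : ℝ) ^ 2 * ∑ k ∈ fr (2 ^ (j + 1) * T) \ fr (2 ^ j * T), ‖fcC F X k‖ ^ 2 ≤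
      1 / (2 ^ j * T : ℝ) ^ 2 * (C * ((2 ^ (j + 1) * T : ℕ) + X) * X) :=
        mul_le_mul_of_nonneg_left h2 (by positivity)
    _ = C * (2 * (1 / 2 ^ j) * (X / T) + (1 / 2 ^ j) * (1 / 2 ^ j) * (X ^ 2 / T ^ 2)) := by
        push_cast
        field_simp
        ring
    _ ≤ C * (2 * (1 / 2) ^ j * (X / T) + (1 / 2) ^ j * (X ^ 2 / T ^ 2)) := by
        rw [one_div_pow]
        apply mul_le_mul_of_nonneg_left _ hC.le
        apply add_le_add le_rfl
        apply mul_le_mul_of_nonneg_right _ (by positivity)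
        have : (1 : ℝ) / 2 ^ j ≤ 1 := by
          rw [div_le_one (by positivity)]
          exact one_le_pow₀ (by norm_num)
        calc (1 : ℝ) / 2 ^ j * (1 / 2 ^ j) ≤ 1 / 2 ^ j * 1 :=
              mul_le_mul_of_nonneg_left this (by positivity)
          _ = 1 / 2 ^ j := mul_one _

/-- the integral over arcs in terms of the low frequencies -/
theorem marc : ∃ C : ℝ, 0 < C ∧ ∀ F : G → ℂ, CM F → ∀ (X w : ℝ) (T : ℕ), 1 ≤ X → 0 < w →
    w ≤ 2 * Real.pi → 1 ≤ T →
    ∫ θ in (0 : ℝ)..(2 * Real.pi), ‖arcS F X w θ‖ ^ 2 ≤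
      w ^ 2 * ∑ k ∈ fr T, ‖fcC F X k‖ ^ 2 + C * (X / T + X ^ 2 / T ^ 2) := by
  classical
  obtain ⟨C, hC, hls⟩ := marc_ls
  refine ⟨2 * Real.pi * (4 * C), by positivity, fun F hF X w T hX hw hw2 hT => ?_⟩
  have hpi := Real.pi_gt_three
  have hX0 : 0 < X := by linarith
  have hT0 : (0 : ℝ) < T := by exact_mod_cast hT
  have hP := marc_parseval F X w hw hw2
  set B : ℝ := (w / (2 * Real.pi)) ^ 2 * ∑ k ∈ fr T, ‖fcC F X k‖ ^ 2 +
    4 * C * (X / T + X ^ 2 / T ^ 2) with hB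
  have hfr : ∀ J : ℕ, ∑ k ∈ fr (2 ^ J * T), ‖marcW w k * fcC F X k‖ ^ 2 ≤
      (w / (2 * Real.pi)) ^ 2 * ∑ k ∈ fr T, ‖fcC F X k‖ ^ 2 +
        ∑ j ∈ Finset.range J, C * (2 * (1 / 2) ^ j * (X / T) + (1 / 2) ^ j * (X ^ 2 / T ^ 2)) := by
    intro J
    induction J with
    | zero =>
      rw [pow_zero, one_mul, Finset.range_zero, Finset.sum_empty, add_zero, Finset.mul_sum]
      refine Finset.sum_le_sum fun k _ => ?_
      rw [norm_mul, mul_pow]
      exact mul_le_mul_of_nonneg_right (pow_le_pow_left₀ (norm_nonneg _) (marcW_le w hw k) 2)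
        (sq_nonneg _)
    | succ J ih =>
      have hsub : fr (2 ^ J * T) ⊆ fr (2 ^ (J + 1) * T) := by
        intro k hk
        rw [mem_fr] at hk ⊢
        have h1 : ((2 ^ J * T : ℕ) : ℤ) ≤ ((2 ^ (J + 1) * T : ℕ) : ℤ) := by
          have : 2 ^ J * T ≤ 2 ^ (J + 1) * T := Nat.mul_le_mul_right _ (Nat.pow_le_pow_right (by norm_num) (by omega))
          exact_mod_cast this
        omega
      rw [← Finset.sum_sdiff hsub, Finset.sum_range_succ]
      have := marc_annulus hC hls F hF X w T hX hT J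
      linarith
  have hgeo : ∀ J : ℕ, ∑ j ∈ Finset.range J, C * (2 * (1 / 2) ^ j * (X / T) +
      (1 / 2) ^ j * (X ^ 2 / T ^ 2)) ≤ 4 * C * (X / T + X ^ 2 / T ^ 2) := by
    intro J
    have h1 : ∑ j ∈ Finset.range J, ((1 : ℝ) / 2) ^ j ≤ 2 := by
      have := geom_sum_eq (show (1 / 2 : ℝ) ≠ 1 by norm_num) J
      rw [this]
      have h2 : (0 : ℝ) ≤ (1 / 2) ^ J := by positivity
      have h3 : ((1 / 2 : ℝ) ^ J - 1) / (1 / 2 - 1) = 2 * (1 - (1 / 2) ^ J) := by
        field_simp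
        ring
      rw [h3]
      linarith
    have h2 : ∑ j ∈ Finset.range J, C * (2 * (1 / 2) ^ j * (X / T) +
        (1 / 2) ^ j * (X ^ 2 / T ^ 2)) =
        C * (2 * (X / T) + X ^ 2 / T ^ 2) * ∑ j ∈ Finset.range J, ((1 : ℝ) / 2) ^ j := by
      rw [Finset.mul_sum]
      refine Finset.sum_congr rfl fun j _ => ?_
      ring
    rw [h2]
    have h3 : 0 ≤ C * (2 * (X / T) + X ^ 2 / T ^ 2) := by positivity
    have h4 : 0 ≤ C * (X ^ 2 / T ^ 2) := by positivity
    calc C * (2 * (X / T) + X ^ 2 / T ^ 2) * ∑ j ∈ Finset.range J, ((1 : ℝ) / 2) ^ j ≤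
        C * (2 * (X / T) + X ^ 2 / T ^ 2) * 2 := mul_le_mul_of_nonneg_left h1 h3
      _ ≤ 4 * C * (X / T + X ^ 2 / T ^ 2) := by linarith
  have hle : (2 * Real.pi)⁻¹ * ∫ θ in (0 : ℝ)..(2 * Real.pi), ‖arcS F X w θ‖ ^ 2 ≤ B := by
    refine hasSum_le_of_sum_le hP fun s => ?_
    obtain ⟨J, hJ⟩ : ∃ J : ℕ, s ⊆ fr (2 ^ J * T) := by
      obtain ⟨J, hJ⟩ : ∃ J : ℕ, ∀ k ∈ s, |k| ≤ J := by
        refine ⟨∑ k ∈ s, k.natAbs, fun k hk => ?_⟩
        have h1 := Finset.single_le_sum (f := fun k : ℤ => k.natAbs) (fun _ _ => Nat.zero_le _) hk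
        rw [Int.abs_eq_natAbs]
        exact_mod_cast h1
      refine ⟨J, fun k hk => ?_⟩
      have h1 := abs_le.mp (hJ k hk)
      have h2 : (J : ℤ) ≤ ((2 ^ J * T : ℕ) : ℤ) := by
        have h3 : J < 2 ^ J := Nat.lt_two_pow_self
        have h4 : 2 ^ J * 1 ≤ 2 ^ J * T := Nat.mul_le_mul_left _ hT
        have : J ≤ 2 ^ J * T := by omega
        exact_mod_cast this
      rw [mem_fr]
      omega
    refine (Finset.sum_le_sum_of_subset_of_nonneg hJ (fun _ _ _ => by positivity)).trans ?_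
    exact (hfr J).trans (by rw [hB]; have := hgeo J; linarith)
  rw [inv_mul_le_iff₀ (by positivity)] at hle
  refine hle.trans ?_
  rw [hB]
  have h1 : 2 * Real.pi * ((w / (2 * Real.pi)) ^ 2 * ∑ k ∈ fr T, ‖fcC F X k‖ ^ 2) ≤
      w ^ 2 * ∑ k ∈ fr T, ‖fcC F X k‖ ^ 2 := by
    rw [← mul_assoc]
    apply mul_le_mul_of_nonneg_right _ (Finset.sum_nonneg fun _ _ => by positivity)
    rw [div_pow]
    have : 2 * Real.pi * (w ^ 2 / (2 * Real.pi) ^ 2) = w ^ 2 / (2 * Real.pi) := by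
      field_simp
    rw [this, div_le_iff₀ (by positivity)]
    nlinarith [sq_nonneg w]
  linarith

end Pool.Agent.ECM
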