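import Pool.Agent.Lib_MP_f1a94e_ecm.ZDefs
import Pool.Agent.Lib_MP_f1a94e_mr.MertensB

/-!
# Piece M-WIN: crude Chebyshev bound for a window
-/

set_option autoImplicit false

namespace Pool.Agent.ECM

open Finset Pool.Agent.GaussMR Pool.Agent.GaussCM Pool.Agent.OmAll

/-- The norms of the elements of `PP` are distinct primes (`0 < im < re`; two elements of equal prime norm are equal, see `MertensB.lean`), so the sum is at most `∑_(exp u < p ≤ exp (u+1)) 1/p ≤ (1 / (u exp u)) ∑_(p ≤ exp (u+1)) log p ≤ (log 4) exp (u+1) / (u exp u)`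
(Mathlib: `Chebyshev.theta_le_log4_mul_x`). -/
theorem win_mass : ∃ C : ℝ, 0 < C ∧ ∀ u : ℝ, 1 ≤ u → ∑ w ∈ PP (Real.exp u) (Real.exp (u + 1)), 1 / (nm w : ℝ) ≤ C / u := by
  have hl4 : 0 < Real.log 4 := Real.log_pos (by norm_num)
  refine ⟨Real.log 4 * Real.exp 1, mul_pos hl4 (Real.exp_pos _), ?_⟩
  intro u hu
  have hu0 : 0 < u := by linarith
  have hE : 0 < Real.exp u := Real.exp_pos u
  have h1 : ∑ w ∈ PP (Real.exp u) (Real.exp (u + 1)), 1 / (nm w : ℝ) =
      Ls (Real.exp u) (Real.exp (u + 1)) := rfl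
  rw [h1, Ls_eq _ _ (Real.exp_pos _).le (Real.exp_pos _).le]
  have h2 : ∑ p ∈ (Finset.Icc 1 ⌊Real.exp (u + 1)⌋₊).filter
      (fun p => p.Prime ∧ p % 4 = 1 ∧ ⌊Real.exp u⌋₊ < p), (1 : ℝ) / p ≤
      ∑ p ∈ (Finset.Icc 1 ⌊Real.exp (u + 1)⌋₊).filter
      (fun p => p.Prime ∧ p % 4 = 1 ∧ ⌊Real.exp u⌋₊ < p), Real.log p / (u * Real.exp u) := by
    refine Finset.sum_le_sum fun p hp => ?_
    obtain ⟨-, -, -, h3⟩ := Finset.mem_filter.mp hp
    have h4 : Real.exp u < p := (Nat.floor_lt hE.le).mp h3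
    have h5 : u ≤ Real.log p := by
      rw [Real.le_log_iff_exp_le (hE.trans h4)]
      exact h4.le
    rw [div_le_div_iff₀ (hE.trans h4) (by positivity), one_mul]
    exact mul_le_mul h5 h4.le hE.le (hu0.le.trans h5)
  have h3 : ∑ p ∈ (Finset.Icc 1 ⌊Real.exp (u + 1)⌋₊).filter
      (fun p => p.Prime ∧ p % 4 = 1 ∧ ⌊Real.exp u⌋₊ < p), Real.log p ≤
      Chebyshev.theta (Real.exp (u + 1)) := by
    unfold Chebyshev.theta
    refine Finset.sum_le_sum_of_subset_of_nonneg ?_ ?_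
    · intro p hp
      obtain ⟨h4, h5, -, -⟩ := Finset.mem_filter.mp hp
      rw [Finset.mem_Icc] at h4
      rw [Finset.mem_filter, Finset.mem_Ioc]
      exact ⟨⟨by omega, h4.2⟩, h5⟩
    · intro p hp _
      have h5 := (Finset.mem_filter.mp hp).2
      exact Real.log_nonneg (by exact_mod_cast h5.one_lt.le)
  have h4 := Chebyshev.theta_le_log4_mul_x (Real.exp_pos (u + 1)).le
  refine h2.trans ?_
  rw [← Finset.sum_div, div_le_div_iff₀ (by positivity) hu0]
  have h6 : Real.exp (u + 1) = Real.exp u * Real.exp 1 := Real.exp_add u 1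
  have h5 := h3.trans (h4.trans_eq (by rw [h6]))
  calc (∑ p ∈ (Finset.Icc 1 ⌊Real.exp (u + 1)⌋₊).filter
      (fun p => p.Prime ∧ p % 4 = 1 ∧ ⌊Real.exp u⌋₊ < p), Real.log p) * u ≤
      (Real.log 4 * (Real.exp u * Real.exp 1)) * u := mul_le_mul_of_nonneg_right h5 hu0.le
    _ = Real.log 4 * Real.exp 1 * (u * Real.exp u) := by ring

end Pool.Agent.ECM
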