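import Pool.Agent.Lib_MP_f1a94e_ecm.AfLip
import Pool.Agent.Lib_MP_f1a94e_ecm.AfConv
import Pool.Agent.Lib_MP_f1a94e_ecm.WinMass
import Pool.Agent.Lib_MP_f1a94e_mr.MertensB

/-!
# Piece M-POINT: from the mean square to every point
-/

set_option autoImplicit false

namespace Pool.Agent.ECM

open Finset Pool.Agent.GaussMR Pool.Agent.GaussCM Pool.Agent.OmAll

private theorem pt_mem_PP {P Q : ℝ} {w : G} : w ∈ PP P Q ↔ (nm w : ℝ) ≤ Q ∧ P < (nm w : ℝ) ∧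
    (nm w).Prime ∧ 0 < w.im ∧ w.im < w.re := by
  classical
  simp [PP, mem_ball]

/-- the mass of the primes with a given value of `⌊(s - log nm w) / h⌋` -/
private theorem pt_mass {C4 : ℝ} (hC4 : 0 < C4)
    (hwin : ∀ u : ℝ, 1 ≤ u → ∑ w ∈ PP (Real.exp u) (Real.exp (u + 1)), 1 / (nm w : ℝ) ≤ C4 / u)
    {a s h Q : ℝ} (ha : 1 ≤ a) (hh : 0 < h) (hh1 : h ≤ 1) (hQ : Q ≤ Real.exp s) (n : ℕ) :
    ∑ w ∈ (PP (Real.exp a) Q).filter (fun w => ⌊(s - Real.log (nm w)) / h⌋₊ = n), 1 / (nm w : ℝ) ≤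
      C4 / a := by
  obtain ⟨u, hu⟩ : ∃ u : ℝ, u = max a (s - (n + 1) * h) := ⟨_, rfl⟩
  have hau : a ≤ u := by rw [hu]; exact le_max_left _ _
  have hsu : s - (n + 1) * h ≤ u := by rw [hu]; exact le_max_right _ _
  have h1 : ∑ w ∈ (PP (Real.exp a) Q).filter (fun w => ⌊(s - Real.log (nm w)) / h⌋₊ = n),
      1 / (nm w : ℝ) ≤ ∑ w ∈ PP (Real.exp u) (Real.exp (u + 1)), 1 / (nm w : ℝ) := by
    refine sum_le_sum_of_subset_of_nonneg (fun w hw => ?_) fun w _ _ => by positivity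
    obtain ⟨hw1, hw2⟩ := mem_filter.1 hw
    obtain ⟨g1, g2, g3, g4, g5⟩ := pt_mem_PP.1 hw1
    have hpos : (0 : ℝ) < nm w := lt_trans (Real.exp_pos _) g2
    have hlog : Real.log (nm w) ≤ s := by
      rw [Real.log_le_iff_le_exp hpos]
      exact g1.trans hQ
    have hn0 : 0 ≤ (s - Real.log (nm w)) / h := div_nonneg (sub_nonneg.2 hlog) hh.le
    have k1 := Nat.floor_le hn0
    have k2 := Nat.lt_floor_add_one ((s - Real.log (nm w)) / h)
    rw [hw2] at k1 k2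
    rw [le_div_iff₀ hh] at k1
    rw [div_lt_iff₀ hh] at k2
    have k3 : a < Real.log (nm w) := (Real.lt_log_iff_exp_lt hpos).2 g2
    refine pt_mem_PP.2 ⟨?_, ?_, g3, g4, g5⟩
    · rw [← Real.log_le_iff_le_exp hpos]
      linarith only [k1, hsu, hh1]
    · rw [← Real.lt_log_iff_exp_lt hpos, hu]
      exact max_lt k3 (by linarith only [k2])
  refine h1.trans ((hwin u (ha.trans hau)).trans ?_)
  exact div_le_div_of_nonneg_left hC4.le (by linarith only [ha]) hau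

private theorem pt_last {L ε : ℝ} (hL : 1 ≤ L) (hε : 0 < ε) :
    1 / (2 * L) * (2 * (ε / 4 + L * (ε / 4))) ≤ ε / 2 := by
  have hL0 : 0 < L := lt_of_lt_of_le one_pos hL
  have h1 : 1 / (2 * L) * (2 * (ε / 4 + L * (ε / 4))) = ε / 4 / L + ε / 4 := by
    field_simp
  have h2 : ε / 4 / L ≤ ε / 4 := div_le_self (by linarith only [hε]) hL
  linarith only [h1, h2]

private theorem pt_fin {C4 e' s h ε : ℝ} (hC4 : 0 < C4) (he0 : 0 < e') (hs0 : 0 < s)
    (hh0 : 0 < h) : C4 / (e' * s) * (ε * e' * h / (8 * C4) * (2 * s / h)) = ε / 4 := by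
  field_simp
  ring

private theorem pt_term {A x y f g : ℝ} (hx : 0 < x) (hA : A ≤ 2) (hf : f ≤ g + y)
    (hf0 : 0 ≤ f) : A / x * f ≤ 2 * (1 / x * g + 1 / x * y) := by
  have h1 : A / x * f ≤ 2 / x * (g + y) :=
    mul_le_mul (div_le_div_of_nonneg_right hA hx.le) hf hf0 (div_nonneg zero_le_two hx.le)
  have h2 : 2 / x * (g + y) = 2 * (1 / x * g + 1 / x * y) := by ring
  exact h1.trans h2.le

private theorem pt_exp {C2 ε s : ℝ} (hC2 : 0 < C2) (hε : 0 < ε)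
    (s3 : -8 * Real.log (ε / (8 * C2)) ≤ s) : C2 * Real.exp (-(s / 8)) ≤ ε / 8 := by
  have h1 : Real.exp (-(s / 8)) ≤ ε / (8 * C2) := by
    have h2 : -(s / 8) ≤ Real.log (ε / (8 * C2)) := by linarith only [s3]
    calc Real.exp (-(s / 8)) ≤ Real.exp (Real.log (ε / (8 * C2))) := Real.exp_le_exp.2 h2
      _ = ε / (8 * C2) := Real.exp_log (by positivity)
  calc C2 * Real.exp (-(s / 8)) ≤ C2 * (ε / (8 * C2)) := mul_le_mul_of_nonneg_left h1 hC2.le
    _ = ε / 8 := by field_simp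

private theorem pt_log {K C5 e' s : ℝ} (he' : e' = 1 / 20 * Real.exp (-(2 * (K + |C5|))))
    (he0 : 0 < e') (hs0 : 0 < s) : Real.log (s / 20) - Real.log (e' * s) = 2 * (K + |C5|) := by
  rw [← Real.log_div (by positivity) (by positivity)]
  have h3 : s / 20 / (e' * s) = Real.exp (2 * (K + |C5|)) := by
    rw [he', Real.exp_neg]
    field_simp
  rw [h3, Real.log_exp]

private theorem pt_cs {a b δ x : ℝ} (h1 : a ^ 2 ≤ x * b) (h2 : b ≤ δ ^ 2 * x) (hδ : 0 < δ)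
    (hx : 0 ≤ x) : a ≤ δ * x := by
  have h3 : a ^ 2 ≤ (δ * x) ^ 2 := by
    refine h1.trans ((mul_le_mul_of_nonneg_left h2 hx).trans_eq ?_)
    ring
  exact le_of_sq_le_sq h3 (mul_nonneg hδ.le hx)

/-- PROOF. `e = 1/20`, `P = exp (e' s)`, `Q = exp (e s)` (`Q ^ 20 = exp s`). `Ls P Q ≥ log (e / e') / 2 - C` (`Ls_bounds`): choose `e'` so that the error `C / sqrt Ls ≤ ε / 4`. By `af_conv`: `‖Af F s‖ ≤ ε/4 + (1/Ls) ∑_(w ∈ PP P Q) (1 / nm w) ‖Af F (s - log nm w)‖`.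
Fix `h ≤ 1` with `C h ≤ ε / 8` (`C` of `af_lip`); for `n = ⌊(s - log nm w) / h⌋`: `‖Af F (s - log nm w)‖ ≤ ‖Af F (n h)‖ + C (h + exp (-n h / 4)) ≤ ‖Af F (n h)‖ + ε / 4` for large `s` (`s - log nm w ≥ s / 2`). The `w` with a given `n` have `log nm w` in an interval of length `h ≤ 1` above `e' s`: their mass is
`≤ 2 C / (e' s)` (`win_mass` for two adjacent windows). So the sum is `≤ Ls ε / 4 + (2 C / (e' s)) ∑_(n ≤ s/h) ‖Af F (n h)‖ ≤ Ls ε / 4 + (2 C / (e' s)) (N)^(1/2) (ε1 N)^(1/2)`, `N = ⌊s/h⌋ + 1`, by Cauchy-Schwarz and `havg`; the last term is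
`≤ (4 C / (e' h)) sqrt ε1`, small for suitable `ε1` (`h, e'` are fixed before `ε1`). -/
theorem point (F : G → ℂ) (hF : CM F)
    (havg : ∀ h : ℝ, 0 < h → ∀ ε : ℝ, 0 < ε → ∃ N0 : ℕ, ∀ N : ℕ, N0 ≤ N → ∑ n ∈ range N, ‖Af F (n * h)‖ ^ 2 ≤ ε * N)
    (ε : ℝ) (hε : 0 < ε) : ∃ s0 : ℝ, ∀ s : ℝ, s0 ≤ s → ‖Af F s‖ ≤ ε := by
  obtain ⟨C1, hC1, hconv⟩ := af_conv
  obtain ⟨C2, hC2, hlip⟩ := af_lip
  obtain ⟨C4, hC4, hwin⟩ := win_mass
  obtain ⟨C5, hLs⟩ := Ls_bounds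
  -- constants
  obtain ⟨K, hK⟩ : ∃ K : ℝ, K = max 1 ((4 * C1 / ε) ^ 2) := ⟨_, rfl⟩
  have hK1 : 1 ≤ K := by rw [hK]; exact le_max_left _ _
  have hK2 : (4 * C1 / ε) ^ 2 ≤ K := by rw [hK]; exact le_max_right _ _
  obtain ⟨e', he'⟩ : ∃ e' : ℝ, e' = 1 / 20 * Real.exp (-(2 * (K + |C5|))) := ⟨_, rfl⟩
  have he0 : 0 < e' := by rw [he']; positivity
  have he1 : e' ≤ 1 / 20 := by
    rw [he']
    have : Real.exp (-(2 * (K + |C5|))) ≤ 1 := by
      rw [Real.exp_le_one_iff]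
      have := abs_nonneg C5
      linarith only [this, hK1]
    linarith only [this]
  obtain ⟨h, hh⟩ : ∃ h : ℝ, h = min 1 (ε / (8 * C2)) := ⟨_, rfl⟩
  have hh0 : 0 < h := by rw [hh]; positivity
  have hh1 : h ≤ 1 := by rw [hh]; exact min_le_left _ _
  have hh2 : C2 * h ≤ ε / 8 := by
    have : h ≤ ε / (8 * C2) := by rw [hh]; exact min_le_right _ _
    calc C2 * h ≤ C2 * (ε / (8 * C2)) := mul_le_mul_of_nonneg_left this hC2.le
      _ = ε / 8 := by field_simp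
  obtain ⟨δ, hδ⟩ : ∃ δ : ℝ, δ = ε * e' * h / (8 * C4) := ⟨_, rfl⟩
  have hδ0 : 0 < δ := by rw [hδ]; positivity
  obtain ⟨N0, hN0⟩ := havg h hh0 (δ ^ 2) (by positivity)
  refine ⟨max (1 / e') (max (N0 * h) (-8 * Real.log (ε / (8 * C2)))), fun s hs => ?_⟩
  have s1 : 1 / e' ≤ s := (le_max_left _ _).trans hs
  have s2 : (N0 : ℝ) * h ≤ s := ((le_max_left _ _).trans (le_max_right _ _)).trans hs
  have s3 : -8 * Real.log (ε / (8 * C2)) ≤ s := ((le_max_right _ _).trans (le_max_right _ _)).trans hs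
  have s20 : 20 ≤ s := by
    refine le_trans ?_ s1
    rw [le_div_iff₀ he0]
    linarith only [he1]
  have hs0 : 0 < s := by linarith only [s20]
  have hes : 1 ≤ e' * s := by
    rw [div_le_iff₀ he0] at s1
    linarith only [s1]
  have hexp : C2 * Real.exp (-(s / 8)) ≤ ε / 8 := pt_exp hC2 hε s3
  obtain ⟨P, hP⟩ : ∃ P : ℝ, P = Real.exp (e' * s) := ⟨_, rfl⟩
  obtain ⟨Q, hQ⟩ : ∃ Q : ℝ, Q = Real.exp (s / 20) := ⟨_, rfl⟩
  have hP2 : 2 ≤ P := by
    rw [hP]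
    have := Real.add_one_le_exp (e' * s)
    linarith only [this, hes]
  have hPQ : P ≤ Q := by
    rw [hP, hQ, Real.exp_le_exp]
    have := mul_le_mul_of_nonneg_right he1 hs0.le
    linarith only [this]
  have hQ20 : Q ^ 20 ≤ Real.exp s := by
    rw [hQ, ← Real.exp_nat_mul]
    apply le_of_eq
    congr 1
    push_cast
    ring
  have hQs : Q ≤ Real.exp s := by
    rw [hQ, Real.exp_le_exp]
    linarith only [hs0]
  have hLK : K ≤ Ls P Q := by
    have h1 := hLs P Q hP2 hPQ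
    rw [hP, hQ, Real.log_exp, Real.log_exp, ← hP, ← hQ] at h1
    have h2 : Real.log (s / 20) - Real.log (e' * s) = 2 * (K + |C5|) := pt_log he' he0 hs0
    rw [h2] at h1
    have h4 := (abs_le.1 h1).1
    have h5 := le_abs_self C5
    linarith only [h4, h5]
  have hL1 : 1 ≤ Ls P Q := hK1.trans hLK
  have hL0 : 0 < Ls P Q := by linarith only [hL1]
  have hc := hconv P Q s hP2 hPQ hQ20 hL1 F hF
  have hc1 : C1 / Real.sqrt (Ls P Q) ≤ ε / 4 := by
    have h1 : 4 * C1 / ε ≤ Real.sqrt (Ls P Q) := by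
      apply Real.le_sqrt_of_sq_le
      exact hK2.trans hLK
    rw [div_le_iff₀ (Real.sqrt_pos.2 hL0)]
    rw [div_le_iff₀ hε] at h1
    linarith only [h1]
  -- the sum
  have hterm : ∀ w ∈ PP P Q, ‖(F w + F (star w)) / (nm w : ℂ) * Af F (s - Real.log (nm w))‖ ≤
      2 * (1 / (nm w : ℝ) * ‖Af F ((⌊(s - Real.log (nm w)) / h⌋₊ : ℕ) * h)‖ +
        1 / (nm w : ℝ) * (ε / 4)) := by
    intro w hw
    obtain ⟨g1, g2, g3, g4, g5⟩ := pt_mem_PP.1 hw
    have hnm2 : 2 < nm w := by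
      have : (2 : ℝ) < nm w := lt_of_le_of_lt hP2 g2
      exact_mod_cast this
    have hodd : Odd (nm w) := g3.odd_of_ne_two (by omega)
    have hpos : (0 : ℝ) < nm w := by linarith only [g2, hP2]
    have hlog : Real.log (nm w) ≤ s / 20 := by
      rw [Real.log_le_iff_le_exp hpos, ← hQ]
      exact g1
    obtain ⟨t, ht⟩ : ∃ t : ℝ, t = s - Real.log (nm w) := ⟨_, rfl⟩
    rw [← ht]
    have ht1 : 19 * s / 20 ≤ t := by rw [ht]; linarith only [hlog]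
    obtain ⟨n, hn⟩ : ∃ n : ℕ, n = ⌊t / h⌋₊ := ⟨_, rfl⟩
    rw [← hn]
    have hn0 : 0 ≤ t / h := div_nonneg (by linarith only [ht1, hs0]) hh0.le
    have k1 := Nat.floor_le hn0
    have k2 := Nat.lt_floor_add_one (t / h)
    rw [← hn] at k1 k2
    rw [le_div_iff₀ hh0] at k1
    rw [div_lt_iff₀ hh0] at k2
    have hl := hlip F hF (n * h) (t - n * h) (mul_nonneg n.cast_nonneg hh0.le)
      (by linarith only [k1]) (by linarith only [k2, hh1])
    rw [add_sub_cancel] at hl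
    have hl2 : C2 * (t - n * h + Real.exp (-(n * h / 4))) ≤ ε / 4 := by
      have h1 : C2 * (t - n * h) ≤ C2 * h :=
        mul_le_mul_of_nonneg_left (by linarith only [k2]) hC2.le
      have h2 : C2 * Real.exp (-(n * h / 4)) ≤ C2 * Real.exp (-(s / 8)) :=
        mul_le_mul_of_nonneg_left (Real.exp_le_exp.2 (by linarith only [k2, ht1, hh1, s20])) hC2.le
      linarith only [h1, h2, hh2, hexp]
    have hA : ‖Af F t‖ ≤ ‖Af F (n * h)‖ + ε / 4 := by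
      have := norm_le_norm_add_norm_sub' (Af F t) (Af F (n * h))
      linarith only [this, hl, hl2]
    have hF2 : ‖F w + F (star w)‖ ≤ 2 := by
      have h1 := hF.bd w hodd
      have h2 := hF.bd (star w) (by rw [nm_star]; exact hodd)
      have := norm_add_le (F w) (F (star w))
      linarith only [this, h1, h2]
    rw [norm_mul, norm_div, Complex.norm_natCast]
    exact pt_term hpos hF2 hA (norm_nonneg _)
  have hLsum : ∑ w ∈ PP P Q, 1 / (nm w : ℝ) * (ε / 4) = Ls P Q * (ε / 4) := by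
    rw [← sum_mul]
    rfl
  obtain ⟨N, hN⟩ : ∃ N : ℕ, N = ⌊s / h⌋₊ + 1 := ⟨_, rfl⟩
  have hNN0 : N0 ≤ N := by
    have h1 : (N0 : ℝ) ≤ s / h := by
      rw [le_div_iff₀ hh0]
      exact s2
    have h2 : N0 ≤ ⌊s / h⌋₊ := Nat.le_floor h1
    omega
  have hN2 : (N : ℝ) ≤ 2 * s / h := by
    have h1 := Nat.floor_le (div_nonneg hs0.le hh0.le)
    rw [hN]
    push_cast
    have h2 : 1 ≤ s / h := by
      rw [one_le_div hh0]
      linarith only [hh1, s20]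
    have h3 : 2 * s / h = s / h + s / h := by ring
    linarith only [h1, h2, h3]
  have hgrp : ∑ w ∈ PP P Q, 1 / (nm w : ℝ) * ‖Af F ((⌊(s - Real.log (nm w)) / h⌋₊ : ℕ) * h)‖ ≤
      C4 / (e' * s) * ∑ n ∈ range N, ‖Af F (n * h)‖ := by
    have hmaps : ∀ w ∈ PP P Q, ⌊(s - Real.log (nm w)) / h⌋₊ ∈ range N := by
      intro w hw
      obtain ⟨g1, g2, g3, g4, g5⟩ := pt_mem_PP.1 hw
      rw [mem_range, hN, Nat.lt_succ_iff]
      refine Nat.floor_le_floor (div_le_div_of_nonneg_right ?_ hh0.le)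
      have : 0 ≤ Real.log (nm w) := Real.log_nonneg (by linarith only [g2, hP2])
      linarith only [this]
    rw [← sum_fiberwise_of_maps_to hmaps, mul_sum]
    refine sum_le_sum fun n _ => ?_
    have h1 : ∑ w ∈ (PP P Q).filter (fun w => ⌊(s - Real.log (nm w)) / h⌋₊ = n),
        1 / (nm w : ℝ) * ‖Af F ((⌊(s - Real.log (nm w)) / h⌋₊ : ℕ) * h)‖ =
        (∑ w ∈ (PP P Q).filter (fun w => ⌊(s - Real.log (nm w)) / h⌋₊ = n), 1 / (nm w : ℝ)) *
          ‖Af F (n * h)‖ := by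
      rw [sum_mul]
      refine sum_congr rfl fun w hw => ?_
      rw [(mem_filter.1 hw).2]
    rw [h1]
    refine mul_le_mul_of_nonneg_right ?_ (norm_nonneg _)
    rw [hP]
    exact pt_mass hC4 hwin hes hh0 hh1 hQs n
  have hcs : ∑ n ∈ range N, ‖Af F (n * h)‖ ≤ δ * N := by
    have h1 : (∑ n ∈ range N, ‖Af F (n * h)‖) ^ 2 ≤ (N : ℝ) * ∑ n ∈ range N, ‖Af F (n * h)‖ ^ 2 := by
      have := sq_sum_le_card_mul_sum_sq (s := range N) (f := fun n : ℕ => ‖Af F (n * h)‖)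
      rwa [card_range] at this
    exact pt_cs h1 (hN0 N hNN0) hδ0 N.cast_nonneg
  have hfin : C4 / (e' * s) * ∑ n ∈ range N, ‖Af F (n * h)‖ ≤ ε / 4 := by
    have h0 : 0 ≤ C4 / (e' * s) := div_nonneg hC4.le (mul_nonneg he0.le hs0.le)
    refine (mul_le_mul_of_nonneg_left (hcs.trans (mul_le_mul_of_nonneg_left hN2 hδ0.le)) h0).trans ?_
    rw [hδ]
    exact (pt_fin hC4 he0 hs0 hh0).le
  have hsum : ‖∑ w ∈ PP P Q, (F w + F (star w)) / (nm w : ℂ) * Af F (s - Real.log (nm w))‖ ≤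
      2 * (ε / 4 + Ls P Q * (ε / 4)) := by
    refine (norm_sum_le _ _).trans ((sum_le_sum hterm).trans ?_)
    rw [← mul_sum, sum_add_distrib, hLsum]
    linarith only [hgrp, hfin]
  have hlast : ‖((1 / (2 * Ls P Q) : ℝ) : ℂ) * ∑ w ∈ PP P Q, (F w + F (star w)) / (nm w : ℂ) *
      Af F (s - Real.log (nm w))‖ ≤ ε / 2 := by
    have h0 : 0 ≤ 1 / (2 * Ls P Q) := div_nonneg zero_le_one (by linarith only [hL0])
    rw [norm_mul, Complex.norm_real, Real.norm_eq_abs, abs_of_nonneg h0]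
    exact (mul_le_mul_of_nonneg_left hsum h0).trans (pt_last hL1 hε)
  have := norm_le_norm_add_norm_sub' (Af F s) (((1 / (2 * Ls P Q) : ℝ) : ℂ) * ∑ w ∈ PP P Q,
    (F w + F (star w)) / (nm w : ℂ) * Af F (s - Real.log (nm w)))
  linarith only [this, hc, hc1, hlast, hε]

end Pool.Agent.ECM
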