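import Pool.Agent.Lib_MP_f1a94e_ecm.NonPret
import Pool.Agent.Lib_MP_f1a94e_ecm.Avg
import Pool.Agent.Lib_MP_f1a94e_ecm.AvgAll
import Pool.Agent.Lib_MP_f1a94e_ecm.Point
import Pool.Agent.Lib_MP_f1a94e_ecm.FewA

/-!
# Piece M-ZEROF: the zero frequency
-/

set_option autoImplicit false

namespace Pool.Agent.ECM

open Finset Pool.Agent.GaussMR Pool.Agent.GaussCM Pool.Agent.OmAll

private theorem zerof_star_odd {w : G} (h : Odd (nm w)) : Odd (nm (star w)) := by
  rwa [nm_star]

/-- `Ls 2 B` tends to infinity -/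
private theorem zerof_Ls (M : ℝ) : ∃ B0 : ℝ, 2 ≤ B0 ∧ ∀ B : ℝ, B0 ≤ B → M ≤ Ls 2 B := by
  obtain ⟨C, hC⟩ := Ls_bounds
  refine ⟨max 2 (Real.exp (Real.exp (2 * (M + C) + Real.log (Real.log 2)))), le_max_left _ _,
    fun B hB => ?_⟩
  have h2 : 2 ≤ B := (le_max_left _ _).trans hB
  have h3 : Real.exp (Real.exp (2 * (M + C) + Real.log (Real.log 2))) ≤ B :=
    (le_max_right _ _).trans hB
  have hb := hC 2 B le_rfl h2
  rw [abs_le] at hb
  have h4 : Real.exp (2 * (M + C) + Real.log (Real.log 2)) ≤ Real.log B := by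
    rw [Real.le_log_iff_exp_le (by linarith)]
    exact h3
  have h5 : 2 * (M + C) + Real.log (Real.log 2) ≤ Real.log (Real.log B) := by
    rw [Real.le_log_iff_exp_le (lt_of_lt_of_le (Real.exp_pos _) h4)]
    exact h4
  linarith [hb.1]

private theorem zerof_fc (F : G → ℂ) {X : ℝ} (hX : 0 < X) :
    fcC F X 0 = (X : ℂ) * Af F (Real.log X) := by
  unfold fcC Af
  rw [Real.exp_log hX, Real.exp_neg, Real.exp_log hX]
  have h1 : ∀ z ∈ V X, F z * xi (-0) z = F z := by
    intro z _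
    simp [xi]
  rw [Finset.sum_congr rfl h1]
  have h2 : (X : ℂ) ≠ 0 := by exact_mod_cast hX.ne'
  push_cast
  rw [← mul_assoc, mul_inv_cancel₀ h2, one_mul]

/-- If `χ ii ≠ 1`: `fc_unit` (`FL χ ii = χ ii`, `nm ii = 1`, `xi 0 = 1`) gives `0`. Otherwise apply `avg_core`, `avg_all`, `point` to `A = Af (FL χ)` (`af_bd`, `af_lip` with a common constant), `c0` from `nonpret`; the family for given `T0, δ`: `I = PP 2 B`, `c w = (F w + F (star w)) / (nm w * 2 Ls 2 B)`, `lam w = log nm w`, with `B ≥ B0(T0)`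
so large that `C / sqrt (Ls 2 B) ≤ δ` (`Ls_bounds`), `s0` with `B^20 ≤ exp s0` (`af_conv`). Finally `fcC F X 0 = X * Af F (log X)`. -/
theorem zero_freq (D : ℕ) (hD : 0 < D) (χ : G → ℂ) (hχ : Chi D χ) (ε : ℝ) (hε : 0 < ε) : ∃ X0 : ℝ, ∀ X : ℝ, X0 ≤ X →
    ‖fcC (FL χ) X 0‖ ≤ ε * X := by
  have hCM : CM (FL χ) := cm_FL D χ hχ
  by_cases hii : χ ii = 1
  swap
  · refine ⟨0, fun X hX => ?_⟩
    have h0 : fcC (FL χ) X 0 = 0 := by
      apply fc_unit _ hCM
      have h1 : FL χ ii = χ ii := by simp [FL, nm_ii]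
      have h2 : xi (-0) ii = 1 := by simp [xi]
      rw [h1, h2, mul_one]
      exact hii
    rw [h0, norm_zero]
    positivity
  · obtain ⟨C1, hC1, hb⟩ := af_bd
    obtain ⟨C2, hC2, hl⟩ := af_lip
    obtain ⟨C3, hC3, hconv⟩ := af_conv
    obtain ⟨c0, hc0, hnp⟩ := nonpret D hD χ hχ hii
    set F := FL χ with hF
    set C : ℝ := max C1 C2 with hC
    have hCpos : 0 < C := lt_of_lt_of_le hC1 (le_max_left _ _)
    have hb' : ∀ s, 0 ≤ s → ‖Af F s‖ ≤ C := fun s hs => (hb F hCM s hs).trans (le_max_left _ _)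
    have hl' : ∀ s h : ℝ, 0 ≤ s → 0 ≤ h → h ≤ 1 →
        ‖Af F (s + h) - Af F s‖ ≤ C * (h + Real.exp (-(s / 4))) := by
      intro s h hs hh h1
      refine (hl F hCM s h hs hh h1).trans ?_
      apply mul_le_mul_of_nonneg_right (le_max_right _ _)
      positivity
    have hm : ∀ T0 δ : ℝ, 0 < δ → ∃ (I : Finset G) (c : G → ℂ) (lam : G → ℝ) (s0 : ℝ),
        (∀ i ∈ I, 0 ≤ lam i) ∧ ∑ i ∈ I, ‖c i‖ ≤ 1 ∧
        (∀ s, s0 ≤ s → ‖Af F s - ∑ i ∈ I, c i * Af F (s - lam i)‖ ≤ δ) ∧
        ∀ t : ℝ, |t| ≤ T0 →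
          (∑ i ∈ I, c i * Complex.exp (-((t * lam i : ℝ) : ℂ) * Complex.I)).re ≤ 1 - c0 := by
      intro T0 δ hδ
      obtain ⟨B0, hB0⟩ := hnp T0
      obtain ⟨B1, hB1, hLs⟩ := zerof_Ls (max 1 ((C3 / δ) ^ 2))
      set B : ℝ := max B0 B1 with hB
      have hB2 : 2 ≤ B := hB1.trans (le_max_right _ _)
      have hL := hLs B (le_max_right _ _)
      have hL1 : 1 ≤ Ls 2 B := (le_max_left _ _).trans hL
      have hL2 : (C3 / δ) ^ 2 ≤ Ls 2 B := (le_max_right _ _).trans hL
      have hLpos : 0 < Ls 2 B := by linarith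
      refine ⟨PP 2 B, fun w => (F w + F (star w)) / ((nm w : ℂ) * ((2 * Ls 2 B : ℝ) : ℂ)),
        fun w => Real.log (nm w), Real.log (B ^ 20), ?_, ?_, ?_, ?_⟩
      · intro w hw
        have h1 := (mem_PP.1 hw).1
        apply Real.log_nonneg
        linarith
      · have h1 : ∀ w ∈ PP 2 B, ‖(F w + F (star w)) / ((nm w : ℂ) * ((2 * Ls 2 B : ℝ) : ℂ))‖ ≤
            1 / (nm w : ℝ) * (1 / Ls 2 B) := by
          intro w hw
          obtain ⟨hw1, _, hw3, _⟩ := mem_PP.1 hw
          have hw0 : (0 : ℝ) < nm w := by linarith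
          have hodd : Odd (nm w) := by
            rcases hw3.eq_two_or_odd' with h | h
            · rw [h] at hw1
              norm_num at hw1
            · exact h
          have hn1 : ‖F w + F (star w)‖ ≤ 2 := by
            refine (norm_add_le _ _).trans ?_
            have := hCM.bd w hodd
            have := hCM.bd (star w) (zerof_star_odd hodd)
            linarith
          rw [norm_div, norm_mul, Complex.norm_natCast, Complex.norm_real,
            Real.norm_of_nonneg (by positivity)]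
          rw [div_le_iff₀ (by positivity)]
          refine hn1.trans (le_of_eq ?_)
          field_simp
        refine (Finset.sum_le_sum h1).trans ?_
        rw [← Finset.sum_mul]
        show Ls 2 B * (1 / Ls 2 B) ≤ 1
        rw [mul_one_div_cancel hLpos.ne']
      · intro s hs
        have hBpos : (0 : ℝ) < B ^ 20 := by positivity
        have hexp : B ^ 20 ≤ Real.exp s := by
          rw [← Real.log_le_iff_le_exp hBpos]
          exact hs
        have h1 := hconv 2 B s le_rfl hB2 hexp hL1 F hCM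
        have h2 : ∑ w ∈ PP 2 B, (F w + F (star w)) / ((nm w : ℂ) * ((2 * Ls 2 B : ℝ) : ℂ)) *
              Af F (s - Real.log (nm w)) =
            ((1 / (2 * Ls 2 B) : ℝ) : ℂ) *
              ∑ w ∈ PP 2 B, (F w + F (star w)) / (nm w : ℂ) * Af F (s - Real.log (nm w)) := by
          rw [Finset.mul_sum]
          refine Finset.sum_congr rfl fun w _ => ?_
          push_cast
          rw [← div_div]
          ring
        rw [h2]
        refine h1.trans ?_
        rw [div_le_iff₀ (Real.sqrt_pos.2 hLpos)]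
        have h3 : C3 / δ ≤ Real.sqrt (Ls 2 B) := by
          apply Real.le_sqrt_of_sq_le
          exact hL2
        rw [div_le_iff₀ hδ] at h3
        linarith
      · intro t ht
        have h1 := hB0 B (le_max_left _ _) t ht
        have h2 : ∑ w ∈ PP 2 B, (F w + F (star w)) / ((nm w : ℂ) * ((2 * Ls 2 B : ℝ) : ℂ)) *
              Complex.exp (-((t * Real.log (nm w) : ℝ) : ℂ) * Complex.I) =
            ((1 / (2 * Ls 2 B) : ℝ) : ℂ) * mult F 2 B t := by
          unfold mult
          rw [Finset.mul_sum]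
          refine Finset.sum_congr rfl fun w _ => ?_
          push_cast
          rw [← div_div]
          ring
        rw [h2, Complex.re_ofReal_mul]
        calc 1 / (2 * Ls 2 B) * (mult F 2 B t).re ≤ 1 / (2 * Ls 2 B) * ((1 - c0) * (2 * Ls 2 B)) :=
              mul_le_mul_of_nonneg_left h1 (by positivity)
          _ = 1 - c0 := by field_simp
    have hcore := avg_core (Af F) C c0 hCpos hc0 hb' hl' hm
    have hall : ∀ h : ℝ, 0 < h → ∀ ε : ℝ, 0 < ε → ∃ N0 : ℕ, ∀ N : ℕ, N0 ≤ N →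
        ∑ n ∈ range N, ‖Af F (n * h)‖ ^ 2 ≤ ε * N :=
      fun h hh ε hε => avg_all (Af F) C hCpos hl' hcore h hh ε hε
    obtain ⟨s0, hs0⟩ := point F hCM hall ε hε
    refine ⟨max 1 (Real.exp s0), fun X hX => ?_⟩
    have hX1 : 1 ≤ X := (le_max_left _ _).trans hX
    have hXpos : 0 < X := by linarith
    have hs : s0 ≤ Real.log X := by
      rw [Real.le_log_iff_exp_le hXpos]
      exact (le_max_right _ _).trans hX
    rw [zerof_fc F hXpos, norm_mul, Complex.norm_real, Real.norm_of_nonneg hXpos.le]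
    have := mul_le_mul_of_nonneg_left (hs0 (Real.log X) hs) hXpos.le
    linarith

end Pool.Agent.ECM
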