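import Pool.Agent.Lib_MP_f1a94e_ecm.MarcFin
import Pool.Agent.Lib_MP_f1a94e_ecm.FewC
import Pool.Agent.Lib_MP_f1a94e_ecm.ZeroF

/-!
# Piece M-MARC: Matomaki-Radziwill in arcs for FL χ
-/

set_option autoImplicit false

namespace Pool.Agent.ECM

open Finset Pool.Agent.GaussMR Pool.Agent.GaussCM Pool.Agent.OmAll

/-- From `marc_final` (MarcFin.lean: Parseval `marc`, `chainC`), `few_main` and `zero_freq`. -/
theorem marc_chi (D : ℕ) (hD : 0 < D) (ε : ℝ) (hε : 0 < ε) : ∀ χ : G → ℂ, Chi D χ → ∃ H0 : ℝ, 0 < H0 ∧ ∀ H : ℝ, H0 ≤ H → ∃ X0 : ℝ, ∀ X : ℝ, X0 ≤ X →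
    ∫ θ in (0 : ℝ)..(2 * Real.pi), ‖arcS (FL χ) X (H / X) θ‖ ^ 2 ≤ ε * H ^ 2 := by
  intro χ hχ
  refine marc_final (FL χ) (cm_FL D χ hχ) ?_ ?_ ε hε
  · intro ε' hε'
    obtain ⟨δ, X0, hδ, h⟩ := few_main D hD ε' hε'
    exact ⟨δ, X0, hδ, fun X hX S hS0 hS hc => h X hX χ hχ S (fun k hk => ⟨hS k hk, hS0 k hk⟩) hc⟩
  · intro ε' hε'
    exact zero_freq D hD χ hχ ε' hε'

end Pool.Agent.ECM
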