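import Pool.Agent.Lib_MP_f1a94e_ecm.Marc
import Pool.Agent.Lib_MP_f1a94e_ecc.Main

/-!
# Piece M-MARCFIN: arcs of bounded length from the few frequencies and the zero frequency
-/

set_option autoImplicit false

namespace Pool.Agent.ECM

open Finset Pool.Agent.GaussMR Pool.Agent.GaussCM Pool.Agent.OmAll MeasureTheory

/-- few nonzero frequencies carry little mass -/
def FewSmall (F : G → ℂ) : Prop :=
  ∀ ε : ℝ, 0 < ε → ∃ δ X0 : ℝ, 0 < δ ∧ ∀ X : ℝ, X0 ≤ X → ∀ S : Finset ℤ, (∀ k ∈ S, k ≠ 0) →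
    (∀ k ∈ S, |(k : ℝ)| ≤ X) → (S.card : ℝ) ≤ X ^ δ → ∑ k ∈ S, ‖fcC F X k‖ ^ 2 ≤ ε * X ^ 2

/-- the zero frequency is small -/
def ZeroSmall (F : G → ℂ) : Prop :=
  ∀ ε : ℝ, 0 < ε → ∃ X0 : ℝ, ∀ X : ℝ, X0 ≤ X → ‖fcC F X 0‖ ≤ ε * X

/-- Matomaki-Radziwill in arcs of bounded length -/
theorem marc_final (F : G → ℂ) (hF : CM F) (h4 : FewSmall F) (h5 : ZeroSmall F) :
    ∀ ε : ℝ, 0 < ε → ∃ H0 : ℝ, 0 < H0 ∧ ∀ H : ℝ, H0 ≤ H → ∃ X0 : ℝ, ∀ X : ℝ, X0 ≤ X →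
      ∫ θ in (0 : ℝ)..(2 * Real.pi), ‖arcS F X (H / X) θ‖ ^ 2 ≤ ε * H ^ 2 := by
  classical
  intro ε hε
  obtain ⟨C, hC, hmarc⟩ := marc
  obtain ⟨δ, X4, hδ, hfew⟩ := h4 (ε / 4) (by positivity)
  obtain ⟨X5, hzero⟩ := h5 (Real.sqrt (ε / 4)) (Real.sqrt_pos.mpr (by positivity))
  obtain ⟨Q0, X6, hQ0, hchain⟩ := chainC (ε / 4) δ (by positivity) hδ
  have hQpos : 0 < Q0 := by linarith
  refine ⟨Real.sqrt (C * (2 * Q0 + (2 * Q0) ^ 2) / (ε / 4)) + 1, by positivity, fun H hH => ?_⟩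
  have hH1 : Real.sqrt (C * (2 * Q0 + (2 * Q0) ^ 2) / (ε / 4)) ≤ H := by linarith
  have hHpos : 0 < H := by
    have := Real.sqrt_nonneg (C * (2 * Q0 + (2 * Q0) ^ 2) / (ε / 4))
    linarith
  have hH2 : C * (2 * Q0 + (2 * Q0) ^ 2) ≤ ε / 4 * H ^ 2 := by
    have h1 := Real.sq_sqrt (show 0 ≤ C * (2 * Q0 + (2 * Q0) ^ 2) / (ε / 4) by positivity)
    have h2 : C * (2 * Q0 + (2 * Q0) ^ 2) / (ε / 4) ≤ H ^ 2 := by
      rw [← h1]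
      exact pow_le_pow_left₀ (Real.sqrt_nonneg _) hH1 2
    rw [div_le_iff₀ (by positivity)] at h2
    linarith
  refine ⟨max (max (max X4 X5) (max X6 1)) (max (2 * Q0) H), fun X hX => ?_⟩
  simp only [max_le_iff] at hX
  obtain ⟨⟨⟨hX4, hX5⟩, hX6, hX1⟩, hXQ, hXH⟩ := hX
  have hXpos : 0 < X := by linarith
  set T : ℕ := ⌊X / Q0⌋₊ with hT
  have hTle : (T : ℝ) ≤ X / Q0 := Nat.floor_le (by positivity)
  have hTge : X / (2 * Q0) ≤ T := by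
    have h1 : X / Q0 < T + 1 := Nat.lt_floor_add_one _
    have h2 : 1 ≤ X / (2 * Q0) := by
      rw [le_div_iff₀ (by positivity)]
      linarith
    have h3 : X / Q0 = 2 * (X / (2 * Q0)) := by field_simp
    linarith
  have hT1r : (1 : ℝ) ≤ T := by
    have h2 : 1 ≤ X / (2 * Q0) := by
      rw [le_div_iff₀ (by positivity)]
      linarith
    linarith
  have hT1 : 1 ≤ T := by exact_mod_cast hT1r
  have hTX : (T : ℝ) ≤ X := hTle.trans (div_le_self hXpos.le hQ0)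
  obtain ⟨S, hS, hScard, hSsum⟩ := hchain X hX6 F hF T hTle
  have hw2 : H / X ≤ 2 * Real.pi := by
    have h1 : H / X ≤ 1 := by rw [div_le_one hXpos]; exact hXH
    have := Real.pi_gt_three
    linarith
  have h1 := hmarc F hF X (H / X) T hX1 (by positivity) hw2 hT1
  -- the low frequencies
  have hS0 : ∑ k ∈ S.erase 0, ‖fcC F X k‖ ^ 2 ≤ ε / 4 * X ^ 2 := by
    refine hfew X hX4 (S.erase 0) (fun k hk => Finset.ne_of_mem_erase hk) (fun k hk => ?_) ?_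
    · have h2 := hS (Finset.mem_of_mem_erase hk)
      rw [mem_fr] at h2
      have h3 : |k| ≤ (T : ℤ) := abs_le.mpr ⟨h2.1, h2.2⟩
      have h4 : |(k : ℝ)| ≤ T := by exact_mod_cast h3
      exact h4.trans hTX
    · refine le_trans ?_ hScard
      exact_mod_cast Finset.card_erase_le
  have hz : ‖fcC F X 0‖ ^ 2 ≤ ε / 4 * X ^ 2 := by
    have h2 := hzero X hX5
    calc ‖fcC F X 0‖ ^ 2 ≤ (Real.sqrt (ε / 4) * X) ^ 2 := pow_le_pow_left₀ (norm_nonneg _) h2 2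
      _ = ε / 4 * X ^ 2 := by rw [mul_pow, Real.sq_sqrt (by positivity)]
  have hlow : ∑ k ∈ fr T, ‖fcC F X k‖ ^ 2 ≤ 3 * (ε / 4) * X ^ 2 := by
    have h2 : ∑ k ∈ fr T, ‖fcC F X k‖ ^ 2 = ∑ k ∈ fr T \ S, ‖fcC F X k‖ ^ 2 +
        ∑ k ∈ S, ‖fcC F X k‖ ^ 2 := (Finset.sum_sdiff hS).symm
    have h3 : ∑ k ∈ S, ‖fcC F X k‖ ^ 2 ≤ ‖fcC F X 0‖ ^ 2 + ∑ k ∈ S.erase 0, ‖fcC F X k‖ ^ 2 := by
      by_cases h0 : (0 : ℤ) ∈ S
      · exact (Finset.add_sum_erase S (fun k => ‖fcC F X k‖ ^ 2) h0).ge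
      · rw [Finset.erase_eq_of_notMem h0]
        have : 0 ≤ ‖fcC F X 0‖ ^ 2 := by positivity
        linarith
    linarith
  have hXT : X / T ≤ 2 * Q0 := by
    rw [div_le_iff₀ (by linarith)]
    rw [div_le_iff₀ (by positivity)] at hTge
    linarith
  have hXT2 : X ^ 2 / (T : ℝ) ^ 2 ≤ (2 * Q0) ^ 2 := by
    rw [← div_pow]
    exact pow_le_pow_left₀ (by positivity) hXT 2
  calc ∫ θ in (0 : ℝ)..(2 * Real.pi), ‖arcS F X (H / X) θ‖ ^ 2 ≤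
      (H / X) ^ 2 * ∑ k ∈ fr T, ‖fcC F X k‖ ^ 2 + C * (X / T + X ^ 2 / T ^ 2) := h1
    _ ≤ (H / X) ^ 2 * (3 * (ε / 4) * X ^ 2) + C * (2 * Q0 + (2 * Q0) ^ 2) := by gcongr
    _ ≤ (H / X) ^ 2 * (3 * (ε / 4) * X ^ 2) + ε / 4 * H ^ 2 := by linarith
    _ = ε * H ^ 2 := by
        field_simp
        ring

end Pool.Agent.ECM
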