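import Pool.Agent.Lib_MP_f1a94e_ecm.ZDefs
import Pool.Agent.Lib_MP_f1a94e_mr.CPsum
import Pool.Agent.Lib_MP_f1a94e_mr.MertensB

/-!
# Piece M-MERTB: removing the logarithm, and from all primes to PP
-/

set_option autoImplicit false

namespace Pool.Agent.ECM

open Finset Pool.Agent.GaussMR Pool.Agent.GaussCM Pool.Agent.OmAll

private theorem mertb_CP_floor (Y : ℝ) (hY : 0 ≤ Y) : CP Y = CP (⌊Y⌋₊ : ℝ) := by
  ext w
  rw [CPS.mem_CP, CPS.mem_CP]
  have : (nm w : ℝ) ≤ Y ↔ (nm w : ℝ) ≤ (⌊Y⌋₊ : ℝ) := by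
    rw [← Nat.le_floor_iff hY, Nat.cast_le]
  rw [this]

private theorem mertb_tele (g : ℕ → ℝ) (m N : ℕ) (h : m ≤ N) :
    g m = g N + ∑ n ∈ (range N).filter (fun n => m ≤ n), (g n - g (n + 1)) := by
  induction N, h using Nat.le_induction with
  | base =>
    have : (range m).filter (fun n => m ≤ n) = ∅ := by
      rw [filter_eq_empty_iff]
      intro x hx
      rw [mem_range] at hx
      omega
    rw [this, sum_empty, add_zero]
  | succ N hN ih =>
    have : (range (N + 1)).filter (fun n => m ≤ n) =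
        insert N ((range N).filter (fun n => m ≤ n)) := by
      rw [range_add_one, filter_insert, if_pos hN]
    rw [this, sum_insert (by simp), ih]
    ring

/-- Abel summation with `1 / log t` (all `nm p ≥ 5`): `∑_p a_p / log nm p`, `a_p = χ p log nm p / nm p`, partial sums bounded by `C`, `1 / log` decreasing on `[2, ∞)`: the result is at most `2 C / log 5` or so. -/
theorem abel_cp (χ : G → ℂ) (C : ℝ) (h : ∀ Y : ℝ, 1 ≤ Y → ‖∑ p ∈ CP Y, χ p * (Real.log (nm p) : ℂ) / (nm p : ℂ)‖ ≤ C) :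
    ∃ C' : ℝ, ∀ Y : ℝ, 1 ≤ Y → ‖∑ p ∈ CP Y, χ p / (nm p : ℂ)‖ ≤ C' := by
  classical
  have hC0 : 0 ≤ C := (norm_nonneg _).trans (h 1 le_rfl)
  obtain ⟨g, hg⟩ : ∃ g : ℕ → ℝ, g = fun n : ℕ => (Real.log (max (n : ℝ) 5))⁻¹ := ⟨_, rfl⟩
  obtain ⟨a, ha⟩ : ∃ a : G → ℂ, a = fun p => χ p * (Real.log (nm p) : ℂ) / (nm p : ℂ) := ⟨_, rfl⟩
  have hlog5 : 0 < Real.log 5 := Real.log_pos (by norm_num)
  have hgpos : ∀ n, 0 < g n := by
    intro n
    rw [hg]
    exact inv_pos.2 (hlog5.trans_le (Real.log_le_log (by norm_num) (le_max_right _ _)))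
  have hgmono : ∀ n, g (n + 1) ≤ g n := by
    intro n
    rw [hg]
    refine inv_anti₀ (hlog5.trans_le (Real.log_le_log (by norm_num) (le_max_right _ _))) ?_
    refine Real.log_le_log (by positivity) ?_
    refine max_le_max ?_ le_rfl
    push_cast
    linarith
  have hg0 : g 0 = (Real.log 5)⁻¹ := by
    rw [hg]
    simp
  have hT : ∀ n : ℕ, ‖∑ p ∈ CP (n : ℝ), a p‖ ≤ C := by
    intro n
    rcases Nat.eq_zero_or_pos n with h0 | h0
    · have : CP (n : ℝ) = ∅ := by
        rw [Finset.eq_empty_iff_forall_notMem]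
        intro w hw
        have h5 := CP_nm hw
        have h1 := (CPS.mem_CP.1 hw).1
        rw [h0] at h1
        have : (5 : ℝ) ≤ nm w := by exact_mod_cast h5
        norm_num at h1
        rw [h1] at h5
        omega
      rw [this, sum_empty, norm_zero]
      exact hC0
    · rw [ha]
      exact h n (by exact_mod_cast h0)
  refine ⟨C * (Real.log 5)⁻¹, ?_⟩
  intro Y hY
  rw [mertb_CP_floor Y (by linarith)]
  obtain ⟨N, hN⟩ : ∃ N : ℕ, N = ⌊Y⌋₊ := ⟨_, rfl⟩
  rw [← hN]
  have e1 : ∀ p ∈ CP (N : ℝ), χ p / (nm p : ℂ) = a p * (g (nm p) : ℂ) := by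
    intro p hp
    have h5 : (5 : ℝ) ≤ nm p := by exact_mod_cast CP_nm hp
    have hl : Real.log (nm p) ≠ 0 := (Real.log_pos (by linarith)).ne'
    have hl' : ((Real.log (nm p) : ℝ) : ℂ) ≠ 0 := by exact_mod_cast hl
    have hn : ((nm p : ℕ) : ℂ) ≠ 0 := by
      have : ((nm p : ℕ) : ℝ) ≠ 0 := by linarith
      exact_mod_cast this
    have hgp : g (nm p) = (Real.log (nm p))⁻¹ := by
      rw [hg]
      simp only
      rw [max_eq_left h5]
    rw [hgp, ha, Complex.ofReal_inv]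
    simp only
    field_simp
  have e2 : ∀ p ∈ CP (N : ℝ), a p * (g (nm p) : ℂ) = a p * (g N : ℂ) +
      ∑ n ∈ range N, (if nm p ≤ n then a p * ((g n - g (n + 1) : ℝ) : ℂ) else 0) := by
    intro p hp
    have hle : nm p ≤ N := by
      have := (CPS.mem_CP.1 hp).1
      exact_mod_cast this
    rw [mertb_tele g (nm p) N hle, ← sum_filter, ← mul_sum]
    push_cast
    ring
  have e3 : ∑ p ∈ CP (N : ℝ), χ p / (nm p : ℂ) = (∑ p ∈ CP (N : ℝ), a p) * (g N : ℂ) +
      ∑ n ∈ range N, (∑ p ∈ CP (n : ℝ), a p) * ((g n - g (n + 1) : ℝ) : ℂ) := by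
    rw [sum_congr rfl e1, sum_congr rfl e2, sum_add_distrib, ← sum_mul, sum_comm]
    congr 1
    refine sum_congr rfl fun n hn => ?_
    rw [← sum_filter, ← sum_mul]
    congr 1
    refine sum_congr ?_ fun _ _ => rfl
    ext w
    rw [mem_filter, CPS.mem_CP, CPS.mem_CP]
    rw [mem_range] at hn
    constructor
    · rintro ⟨⟨_, h2⟩, h3⟩
      exact ⟨by exact_mod_cast h3, h2⟩
    · rintro ⟨h1, h2⟩
      have h1' : nm w ≤ n := by exact_mod_cast h1
      exact ⟨⟨by exact_mod_cast (h1'.trans hn.le), h2⟩, h1'⟩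
  rw [e3]
  have htel : ∑ n ∈ range N, (g n - g (n + 1)) = g 0 - g N := by
    rw [sum_range_sub']
  calc ‖(∑ p ∈ CP (N : ℝ), a p) * (g N : ℂ) +
      ∑ n ∈ range N, (∑ p ∈ CP (n : ℝ), a p) * ((g n - g (n + 1) : ℝ) : ℂ)‖
      ≤ C * g N + ∑ n ∈ range N, C * (g n - g (n + 1)) := by
        refine (norm_add_le _ _).trans (add_le_add ?_ ((norm_sum_le _ _).trans (sum_le_sum ?_)))
        · rw [norm_mul, Complex.norm_real, Real.norm_of_nonneg (hgpos N).le]
          exact mul_le_mul_of_nonneg_right (hT N) (hgpos N).le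
        · intro n _
          rw [norm_mul, Complex.norm_real, Real.norm_of_nonneg (sub_nonneg.2 (hgmono n))]
          exact mul_le_mul_of_nonneg_right (hT n) (sub_nonneg.2 (hgmono n))
    _ = C * (Real.log 5)⁻¹ := by
        rw [← mul_sum, htel, hg0]
        ring

private theorem mertb_nm_one {z : G} : nm z = 1 ↔ IsUnit z := Zsqrtd.norm_eq_one_iff

private theorem mertb_prime {g : G} (h : (nm g).Prime) : Prime g := by
  rw [← irreducible_iff_prime]
  refine ⟨fun hu => h.one_lt.ne' (mertb_nm_one.2 hu), fun b c hbc => ?_⟩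
  have h1 : nm b * nm c = nm g := by rw [hbc, CPS.nm_mul]
  rcases (Nat.prime_mul_iff.1 (h1 ▸ h)) with ⟨_, h3⟩ | ⟨_, h3⟩
  · exact Or.inr (mertb_nm_one.1 h3)
  · exact Or.inl (mertb_nm_one.1 h3)

/-- `CP B` consists of the inert primes `q ≡ 3 mod 4` (norm `q²`, `∑ 1/q² ≤ C`) and, for each `w ∈ PP 2 B`, of `w` and `fl w` (both have positive coordinates; a split canonical prime has `0 < re`, `0 < im`, `re ≠ im`). -/
theorem cp_pp : ∃ C : ℝ, ∀ χ : G → ℂ, (∀ z, ‖χ z‖ ≤ 1) → ∀ B : ℝ, 3 ≤ B →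
    ‖∑ p ∈ CP B, χ p / (nm p : ℂ) - ∑ w ∈ PP 2 B, (χ w + χ (fl w)) / (nm w : ℂ)‖ ≤ C := by
  classical
  refine ⟨2, fun χ hχ B hB => ?_⟩
  have himpos : ∀ w : G, (nm w).Prime → 0 ≤ w.im → 0 < w.im := by
    intro w a7 a5
    rcases a5.lt_or_eq with h | h
    · exact h
    · exfalso
      have h4 := nm_eq w
      rw [← h] at h4
      have h5 : nm w = w.re.natAbs * w.re.natAbs := by
        zify
        rw [h4, abs_mul_abs_self]
        ring
      rw [h5] at a7
      exact Nat.not_prime_mul (a := w.re.natAbs) (b := w.re.natAbs) (fun h => by rw [h] at a7; exact Nat.not_prime_one a7) (fun h => by rw [h] at a7; exact Nat.not_prime_one a7) a7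
  have hreim : ∀ w : G, Odd (nm w) → w.re ≠ w.im := by
    intro w a3 h
    have h4 := nm_eq w
    rw [h] at h4
    obtain ⟨k, hk⟩ := a3
    rw [hk] at h4
    push_cast at h4
    have : (2 : ℤ) * k + 1 = 2 * w.im ^ 2 := by linarith
    omega
  -- the three parts
  have hA1 : (CP B).filter (fun w => (nm w).Prime ∧ w.im < w.re) = PP 2 B := by
    ext w
    rw [mem_filter, CPS.mem_CP, mem_PP]
    constructor
    · rintro ⟨⟨a1, a2, a3, a4, a5⟩, a7, a8⟩
      refine ⟨?_, a1, a7, himpos w a7 a5, a8⟩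
      have h2 := a7.two_le
      have h3 : nm w ≠ 2 := by
        intro h
        rw [h] at a3
        revert a3
        decide
      have h4 : 2 < nm w := lt_of_le_of_ne h2 (Ne.symm h3)
      exact_mod_cast h4
    · rintro ⟨b1, b2, b3, b4, b5⟩
      refine ⟨⟨b2, mertb_prime b3, ?_, b4.trans b5, b4.le⟩, b3, b5⟩
      have h2 : nm w ≠ 2 := by
        intro h
        rw [h] at b1
        norm_num at b1
      exact b3.odd_of_ne_two h2
  have hA2 : ∑ w ∈ (CP B).filter (fun w => (nm w).Prime ∧ ¬ w.im < w.re), χ w / (nm w : ℂ) =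
      ∑ w ∈ PP 2 B, χ (fl w) / (nm w : ℂ) := by
    symm
    refine sum_bij' (fun w _ => fl w) (fun w _ => fl w) ?_ ?_ ?_ ?_ ?_
    · intro w hw
      have hw' : w ∈ (CP B).filter (fun w => (nm w).Prime ∧ w.im < w.re) := by rw [hA1]; exact hw
      rw [mem_filter, CPS.mem_CP] at hw'
      obtain ⟨⟨a1, a2, a3, a4, a5⟩, a7, a8⟩ := hw'
      rw [mem_filter, CPS.mem_CP, nm_fl]
      refine ⟨⟨a1, mertb_prime (by rw [nm_fl]; exact a7), a3, himpos w a7 a5, a4.le⟩, a7, ?_⟩
      exact not_lt.2 a8.le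
    · intro w hw
      rw [mem_filter, CPS.mem_CP] at hw
      obtain ⟨⟨a1, a2, a3, a4, a5⟩, a7, a8⟩ := hw
      have : fl w ∈ (CP B).filter (fun w => (nm w).Prime ∧ w.im < w.re) := by
        rw [mem_filter, CPS.mem_CP, nm_fl]
        refine ⟨⟨a1, mertb_prime (by rw [nm_fl]; exact a7), a3, himpos w a7 a5, a4.le⟩, a7, ?_⟩
        exact lt_of_le_of_ne (not_lt.1 a8) (hreim w a3)
      rw [hA1] at this
      exact this
    · intro w _
      exact fl_fl w
    · intro w _
      exact fl_fl w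
    · intro w _
      rw [nm_fl]
  have hA3 : ∑ w ∈ (CP B).filter (fun w => ¬ (nm w).Prime), 1 / (nm w : ℝ) ≤ 2 := by
    set A3 := (CP B).filter (fun w => ¬ (nm w).Prime) with hA3
    have hreal : ∀ w ∈ A3, w.im = 0 ∧ 0 < w.re ∧ (nm w : ℝ) = (w.re.toNat : ℝ) ^ 2 := by
      intro w hw
      simp only [A3, Finset.mem_filter, CPS.mem_CP] at hw
      obtain ⟨⟨a1, a2, a3, a4, a5⟩, a7⟩ := hw
      have him := CPS.real_of_not_prime a2 a4 a5 a7
      refine ⟨him, a4, ?_⟩
      have h4 := nm_eq w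
      rw [him] at h4
      have h5 : ((w.re.toNat : ℕ) : ℤ) = w.re := Int.toNat_of_nonneg a4.le
      have h6 : (nm w : ℤ) = ((w.re.toNat : ℕ) : ℤ) ^ 2 := by rw [h4, h5]; ring
      exact_mod_cast h6
    set N := ∑ w ∈ A3, w.re.toNat with hN
    calc ∑ w ∈ A3, 1 / (nm w : ℝ) = ∑ n ∈ A3.image (fun w : G => w.re.toNat), 1 / (n : ℝ) ^ 2 := by
          rw [Finset.sum_image]
          · refine Finset.sum_congr rfl fun w hw => ?_
            rw [(hreal w hw).2.2]
          · intro w hw w' hw' h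
            obtain ⟨b1, b2, _⟩ := hreal w hw
            obtain ⟨c1, c2, _⟩ := hreal w' hw'
            have h' : w.re.toNat = w'.re.toNat := h
            apply Zsqrtd.ext
            · omega
            · rw [b1, c1]
      _ ≤ ∑ n ∈ Finset.Ioc 0 N, 1 / (n : ℝ) ^ 2 := by
          refine Finset.sum_le_sum_of_subset_of_nonneg ?_ fun w _ _ => by positivity
          intro n hn
          rw [Finset.mem_image] at hn
          obtain ⟨w, hw, rfl⟩ := hn
          rw [Finset.mem_Ioc]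
          obtain ⟨b1, b2, _⟩ := hreal w hw
          refine ⟨by omega, ?_⟩
          rw [hN]
          exact Finset.single_le_sum (f := fun w : G => w.re.toNat) (fun _ _ => Nat.zero_le _) hw
      _ ≤ 2 := by
          have h5 : Finset.Ioc 0 N = Finset.Ioo 0 (N + 1) := by
            ext n; simp only [Finset.mem_Ioc, Finset.mem_Ioo]; omega
          have h6 := sum_Ioo_inv_sq_le (α := ℝ) 0 (N + 1)
          have h7 : ∑ n ∈ Finset.Ioo 0 (N + 1), 1 / (n : ℝ) ^ 2 =
              ∑ n ∈ Finset.Ioo 0 (N + 1), ((n : ℝ) ^ 2)⁻¹ :=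
            Finset.sum_congr rfl fun n _ => one_div _
          rw [h5, h7]
          norm_num at h6 ⊢
          exact h6
  have hsplit : ∑ p ∈ CP B, χ p / (nm p : ℂ) =
      ∑ w ∈ (CP B).filter (fun w => ¬ (nm w).Prime), χ w / (nm w : ℂ) +
      (∑ w ∈ (CP B).filter (fun w => (nm w).Prime ∧ w.im < w.re), χ w / (nm w : ℂ) +
      ∑ w ∈ (CP B).filter (fun w => (nm w).Prime ∧ ¬ w.im < w.re), χ w / (nm w : ℂ)) := by
    rw [← filter_filter, ← filter_filter, sum_filter_add_sum_filter_not,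
      add_comm, sum_filter_add_sum_filter_not]
  have hmain : ∑ p ∈ CP B, χ p / (nm p : ℂ) - ∑ w ∈ PP 2 B, (χ w + χ (fl w)) / (nm w : ℂ) =
      ∑ w ∈ (CP B).filter (fun w => ¬ (nm w).Prime), χ w / (nm w : ℂ) := by
    rw [hsplit, hA2, hA1, ← sum_add_distrib, add_sub_assoc, ← sum_sub_distrib]
    simp only [add_div, sub_self, sum_const_zero, add_zero]
  rw [hmain]
  refine (norm_sum_le _ _).trans ((sum_le_sum fun w _ => ?_).trans hA3)
  rw [norm_div, Complex.norm_natCast]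
  exact div_le_div_of_nonneg_right (hχ w) (by positivity)

end Pool.Agent.ECM
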