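import Pool.Agent.Lib_MP_f1a94e_ecm.LLim
import Pool.Agent.Lib_MP_f1a94e_ecm.LamId
import Pool.Agent.Lib_MP_f1a94e_ecm.Cheb

/-!
# Piece M-MERTL: Mertens theorem with a character when the L-value is not zero
-/

set_option autoImplicit false

namespace Pool.Agent.ECM

open Finset Pool.Agent.GaussMR Pool.Agent.GaussCM Pool.Agent.OmAll

private theorem mertl_SL_small (χ : G → ℂ) (t : ℝ) (ht : t < 1) : SL χ t = 0 := by
  classical
  unfold SL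
  apply Finset.sum_eq_zero
  intro z hz
  exfalso
  unfold ob at hz
  rw [mem_filter] at hz
  have h1 : (nm z : ℝ) ≤ t := CPS.mem_ball.1 hz.1
  have h2 : (1 : ℝ) ≤ nm z := by exact_mod_cast hz.2.pos
  linarith

/-- `mlog` and `lam_sum`: `O(1) = ∑_p ∑_j χ(p)^j log nm p / nm p^j * SL χ (Y / nm p^j)`. Put `SL χ t = l + O(t^(-η))` for `t ≥ 1` (`l_lim`; if the exponent of `l_lim` is larger than `1/4` replace it by `1/4`) and `SL χ t = 0` for `t < 1`. Terms `j = 1` (`nm p ≤ Y` always): `l ∑_p χ(p) log nm p / nm p` with error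
`≤ C Y^(-η) ∑ log nm p nm p^(η-1) ≤ C` (`cheb_pow`). Terms `j ≥ 2`: at most `(|l| + C) ∑_p ∑_(j≥2) log nm p / nm p^j ≤ C` (`|SL χ t|` is bounded). Divide by `l`. -/
theorem mert_log (D : ℕ) (hD : 0 < D) (χ : G → ℂ) (hχ : Chi D χ) (hnp : ¬ Pri D χ) (l : ℂ) (hl : l ≠ 0)
    (hlim : Filter.Tendsto (SL χ) Filter.atTop (nhds l)) : ∃ C : ℝ, ∀ Y : ℝ, 1 ≤ Y →
    ‖∑ p ∈ CP Y, χ p * (Real.log (nm p) : ℂ) / (nm p : ℂ)‖ ≤ C := by
  classical
  obtain ⟨C1, hC1⟩ := mlog D hD χ hχ hnp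
  obtain ⟨l', η0, C2, hη0, hη1, hC2, hl'⟩ := l_lim D hD χ hχ hnp
  have hll : l' = l := by
    have h1 : Filter.Tendsto (SL χ) Filter.atTop (nhds l') := by
      rw [tendsto_iff_norm_sub_tendsto_zero]
      have h2 : Filter.Tendsto (fun Y : ℝ => C2 * Y ^ (-η0)) Filter.atTop (nhds 0) := by
        have := (tendsto_rpow_neg_atTop hη0).const_mul C2
        rwa [mul_zero] at this
      refine squeeze_zero' (Filter.Eventually.of_forall fun _ => norm_nonneg _) ?_ h2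
      filter_upwards [Filter.eventually_ge_atTop (1 : ℝ)] with Y hY
      exact hl' Y hY
    exact tendsto_nhds_unique h1 hlim
  rw [hll] at hl'
  obtain ⟨η, hη⟩ : ∃ η : ℝ, η = min η0 (1 / 4) := ⟨_, rfl⟩
  have hηpos : 0 < η := by rw [hη]; exact lt_min hη0 (by norm_num)
  have hη4 : η ≤ 1 / 4 := by rw [hη]; exact min_le_right _ _
  have hηη0 : η ≤ η0 := by rw [hη]; exact min_le_left _ _
  have herr : ∀ Y : ℝ, 1 ≤ Y → ‖SL χ Y - l‖ ≤ C2 * Y ^ (-η) := by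
    intro Y hY
    refine (hl' Y hY).trans (mul_le_mul_of_nonneg_left ?_ hC2.le)
    exact Real.rpow_le_rpow_of_exponent_le hY (by linarith)
  have hbd : ∀ t : ℝ, ‖SL χ t‖ ≤ ‖l‖ + C2 := by
    intro t
    rcases lt_or_ge t 1 with h | h
    · rw [mertl_SL_small χ t h, norm_zero]
      positivity
    · have h1 := herr t h
      have h2 : t ^ (-η) ≤ 1 := Real.rpow_le_one_of_one_le_of_nonpos h (by linarith)
      have h3 : ‖SL χ t‖ ≤ ‖l‖ + ‖SL χ t - l‖ := by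
        have := norm_add_le l (SL χ t - l)
        rwa [add_sub_cancel] at this
      have h4 : C2 * t ^ (-η) ≤ C2 * 1 := mul_le_mul_of_nonneg_left h2 hC2.le
      linarith
  obtain ⟨C3, hC3, hcp⟩ := cheb_pow η hηpos (by linarith)
  obtain ⟨C4, hC4, hct⟩ := cheb_tail 0 le_rfl (by norm_num)
  have hlpos : 0 < ‖l‖ := norm_pos_iff.2 hl
  refine ⟨(C1 + C2 * C3 + (‖l‖ + C2) * C4) / ‖l‖, ?_⟩
  intro Y hY
  have hN : 1 ≤ ⌊Y⌋₊ := Nat.one_le_floor_iff _ |>.2 hY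
  have hsplit : ∀ f : ℕ → ℂ, ∑ j ∈ Icc 1 ⌊Y⌋₊, f j = f 1 + ∑ j ∈ Icc 2 ⌊Y⌋₊, f j := by
    intro f
    rw [← Finset.insert_Icc_succ_left_eq_Icc hN, sum_insert (by simp)]
    rfl
  have hnm : ∀ p ∈ CP Y, (5 : ℝ) ≤ nm p := fun p hp => by exact_mod_cast CP_nm hp
  have hmain := lam_sum D χ hχ Y hY
  simp only [hsplit] at hmain
  rw [sum_add_distrib] at hmain
  -- the first term
  obtain ⟨S, hS⟩ : ∃ S : ℂ, S = ∑ p ∈ CP Y, χ p * (Real.log (nm p) : ℂ) / (nm p : ℂ) := ⟨_, rfl⟩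
  rw [← hS]
  have h1 : ‖∑ p ∈ CP Y, χ p ^ 1 * (Real.log (nm p) : ℂ) / (nm p : ℂ) ^ 1 *
      SL χ (Y / (nm p : ℝ) ^ 1) - l * S‖ ≤ C2 * C3 := by
    rw [hS, mul_sum, ← sum_sub_distrib]
    have hterm : ∀ p ∈ CP Y, ‖χ p ^ 1 * (Real.log (nm p) : ℂ) / (nm p : ℂ) ^ 1 *
        SL χ (Y / (nm p : ℝ) ^ 1) - l * (χ p * (Real.log (nm p) : ℂ) / (nm p : ℂ))‖ ≤
        (C2 * Y ^ (-η)) * (Real.log (nm p) * (nm p : ℝ) ^ (η - 1)) := by
      intro p hp
      have h5 := hnm p hp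
      have hpos : (0 : ℝ) < nm p := by linarith
      have hle : (nm p : ℝ) ≤ Y := (CPS.mem_CP.1 hp).1
      have hlog : 0 ≤ Real.log (nm p) := Real.log_nonneg (by linarith)
      have e1 : χ p ^ 1 * (Real.log (nm p) : ℂ) / (nm p : ℂ) ^ 1 *
        SL χ (Y / (nm p : ℝ) ^ 1) - l * (χ p * (Real.log (nm p) : ℂ) / (nm p : ℂ)) =
        χ p * (Real.log (nm p) : ℂ) / (nm p : ℂ) * (SL χ (Y / (nm p : ℝ)) - l) := by
        rw [pow_one, pow_one, pow_one]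
        ring
      have h6 := herr (Y / nm p) ((one_le_div hpos).2 hle)
      have e2 : (Y / (nm p : ℝ)) ^ (-η) = Y ^ (-η) * (nm p : ℝ) ^ η := by
        rw [Real.div_rpow (by linarith) hpos.le, Real.rpow_neg hpos.le, div_inv_eq_mul]
      have e3 : (nm p : ℝ) ^ (η - 1) = (nm p : ℝ) ^ η / nm p := by
        rw [Real.rpow_sub hpos, Real.rpow_one]
      rw [e1, norm_mul, norm_div, norm_mul, Complex.norm_real, Real.norm_of_nonneg hlog,
        Complex.norm_natCast, e3]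
      rw [e2] at h6
      have h7 : ‖χ p‖ * Real.log (nm p) / (nm p : ℝ) ≤ Real.log (nm p) / nm p := by
        refine div_le_div_of_nonneg_right ?_ hpos.le
        exact mul_le_of_le_one_left hlog (hχ.le p)
      calc ‖χ p‖ * Real.log (nm p) / (nm p : ℝ) * ‖SL χ (Y / (nm p : ℝ)) - l‖
          ≤ Real.log (nm p) / nm p * (C2 * (Y ^ (-η) * (nm p : ℝ) ^ η)) :=
            mul_le_mul h7 h6 (norm_nonneg _) (by positivity)
        _ = (C2 * Y ^ (-η)) * (Real.log (nm p) * ((nm p : ℝ) ^ η / nm p)) := by ring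
    refine (norm_sum_le _ _).trans ((sum_le_sum hterm).trans ?_)
    rw [← mul_sum]
    have hYn : 0 ≤ C2 * Y ^ (-η) := by positivity
    calc (C2 * Y ^ (-η)) * ∑ p ∈ CP Y, Real.log (nm p) * (nm p : ℝ) ^ (η - 1)
        ≤ (C2 * Y ^ (-η)) * (C3 * Y ^ η) := mul_le_mul_of_nonneg_left (hcp Y hY) hYn
      _ = C2 * C3 * (Y ^ (-η) * Y ^ η) := by ring
      _ = C2 * C3 := by
          rw [← Real.rpow_add (by linarith), neg_add_cancel, Real.rpow_zero, mul_one]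
  have h2 : ‖∑ p ∈ CP Y, ∑ j ∈ Icc 2 ⌊Y⌋₊, χ p ^ j * (Real.log (nm p) : ℂ) / (nm p : ℂ) ^ j *
      SL χ (Y / (nm p : ℝ) ^ j)‖ ≤ (‖l‖ + C2) * C4 := by
    refine (norm_sum_le _ _).trans ?_
    have hle : ∀ p ∈ CP Y, ‖∑ j ∈ Icc 2 ⌊Y⌋₊, χ p ^ j * (Real.log (nm p) : ℂ) / (nm p : ℂ) ^ j *
        SL χ (Y / (nm p : ℝ) ^ j)‖ ≤ ∑ j ∈ Icc 2 ⌊Y⌋₊,
        (‖l‖ + C2) * (Real.log (nm p) / ((nm p : ℝ) ^ j) ^ ((1 : ℝ) - 0)) := by
      intro p hp
      have h5 := hnm p hp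
      have hpos : (0 : ℝ) < nm p := by linarith
      have hlog : 0 ≤ Real.log (nm p) := Real.log_nonneg (by linarith)
      refine (norm_sum_le _ _).trans (sum_le_sum fun j _ => ?_)
      rw [sub_zero, Real.rpow_one, norm_mul, norm_div, norm_mul, norm_pow, norm_pow,
        Complex.norm_real, Real.norm_of_nonneg hlog, Complex.norm_natCast]
      have h8 : ‖χ p‖ ^ j * Real.log (nm p) / (nm p : ℝ) ^ j ≤ Real.log (nm p) / (nm p : ℝ) ^ j := by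
        refine div_le_div_of_nonneg_right ?_ (by positivity)
        exact mul_le_of_le_one_left hlog (pow_le_one₀ (norm_nonneg _) (hχ.le p))
      calc ‖χ p‖ ^ j * Real.log (nm p) / (nm p : ℝ) ^ j * ‖SL χ (Y / (nm p : ℝ) ^ j)‖
          ≤ Real.log (nm p) / (nm p : ℝ) ^ j * (‖l‖ + C2) :=
            mul_le_mul h8 (hbd _) (norm_nonneg _) (by positivity)
        _ = (‖l‖ + C2) * (Real.log (nm p) / (nm p : ℝ) ^ j) := by ring
    refine (sum_le_sum hle).trans ?_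
    simp only [← mul_sum]
    exact mul_le_mul_of_nonneg_left (hct Y hY) (by positivity)
  have h3 := hC1 Y hY
  rw [hmain] at h3
  rw [le_div_iff₀ hlpos, mul_comm, ← norm_mul]
  obtain ⟨A, hA⟩ : ∃ A : ℂ, A = ∑ p ∈ CP Y, χ p ^ 1 * (Real.log (nm p) : ℂ) / (nm p : ℂ) ^ 1 *
      SL χ (Y / (nm p : ℝ) ^ 1) := ⟨_, rfl⟩
  obtain ⟨B, hB⟩ : ∃ B : ℂ, B = ∑ p ∈ CP Y, ∑ j ∈ Icc 2 ⌊Y⌋₊, χ p ^ j * (Real.log (nm p) : ℂ) /
      (nm p : ℂ) ^ j * SL χ (Y / (nm p : ℝ) ^ j) := ⟨_, rfl⟩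
  rw [← hA, ← hB] at h3
  rw [← hA] at h1
  rw [← hB] at h2
  have e : l * S = (A + B) - B - (A - l * S) := by ring
  rw [e]
  refine (norm_sub_le _ _).trans ?_
  have := norm_sub_le (A + B) B
  linarith

end Pool.Agent.ECM
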