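import Pool.Agent.Lib_MP_f1a94e_ecm.BadG
import Pool.Agent.Lib_MP_f1a94e_ecm.BlockG
import Pool.Agent.Lib_MP_f1a94e_mr.MidJa

/-!
# Piece M-MID: sums of `xi k` over a residue class in a disc, large `k`
-/

set_option autoImplicit false

namespace Pool.Agent.ECM

open Finset Pool.Agent.GaussMR Pool.Agent.GaussCM Pool.Agent.OmAll

/-- the range of `t` with `-s ≤ a + m t ≤ s` -/
theorem midg_range (m : ℕ) (hm : 0 < m) (s : ℕ) (a t : ℤ) :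
    (-((s + a) / m) ≤ t ∧ t ≤ (s - a) / m) ↔ (-(s : ℤ) ≤ a + m * t ∧ a + m * t ≤ s) := by
  have hm' : (0 : ℤ) < m := by exact_mod_cast hm
  have h1 : -((s + a) / (m : ℤ)) ≤ t ↔ -(s : ℤ) ≤ a + m * t := by
    rw [neg_le, Int.le_ediv_iff_mul_le hm']
    constructor
    · intro h; linarith
    · intro h; linarith
  have h2 : t ≤ (s - a) / (m : ℤ) ↔ a + m * t ≤ s := by
    rw [Int.le_ediv_iff_mul_le hm']
    constructor
    · intro h; linarith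
    · intro h; linarith
  rw [h1, h2]

/-- the sum over a residue class in a row -/
theorem midg_class (m : ℕ) (hm : 0 < m) (s : ℕ) (a : ℤ) (f : ℤ → ℂ) :
    ∑ x ∈ Icc (-(s : ℤ)) s, (if (m : ℤ) ∣ x - a then f x else 0) =
      ∑ t ∈ Icc (-((s + a) / (m : ℤ))) ((s - a) / (m : ℤ)), f (a + m * t) := by
  have hm' : (0 : ℤ) < m := by exact_mod_cast hm
  rw [← sum_filter]
  symm
  apply sum_bij (fun (t : ℤ) _ => a + m * t)
  · intro t ht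
    rw [mem_Icc, midg_range m hm] at ht
    rw [mem_filter, mem_Icc]
    refine ⟨ht, ⟨t, by ring⟩⟩
  · intro t _ t' _ h
    have h1 : (m : ℤ) * t = m * t' := by linarith
    exact mul_left_cancel₀ hm'.ne' h1
  · intro x hx
    rw [mem_filter, mem_Icc] at hx
    obtain ⟨t, ht⟩ := hx.2
    have hxt : a + m * t = x := by linarith
    refine ⟨t, ?_, hxt⟩
    rw [mem_Icc, midg_range m hm, hxt]
    exact hx.1
  · intro t _
    rfl

theorem midg_sig (Q : ℕ) {σ : ℝ} (hσ : 0 < σ) (hσQ : ((Q : ℝ) + 5) * σ ≤ 1 / 100) : σ ≤ 1 := by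
  have h5 : (0 : ℝ) ≤ Q := Nat.cast_nonneg _
  have h6 : 0 ≤ (Q : ℝ) * σ := mul_nonneg h5 hσ.le
  linarith only [h6, hσ, hσQ]

theorem midg_kap {r σ b : ℝ} (hr0 : 0 < r) (hb0 : 0 < b) (hb : r ^ (1 - σ) ≤ b) :
    r ^ (-(2 * σ)) * r ^ 2 / b ≤ r ^ (1 - σ) := by
  rw [div_le_iff₀ hb0]
  calc r ^ (-(2 * σ)) * r ^ 2 = r ^ (1 - σ) * r ^ (1 - σ) := by
        rw [← Real.rpow_natCast r 2, ← Real.rpow_add hr0, ← Real.rpow_add hr0]
        congr 1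
        push_cast
        ring
    _ ≤ r ^ (1 - σ) * b := mul_le_mul_of_nonneg_left hb (Real.rpow_pos_of_pos hr0 _).le

theorem midg_fin {r : ℝ} (hr0 : 0 ≤ r) (b : ℕ) (p : ℤ → Prop) :
    {x : ℤ | (x : ℝ) ^ 2 + (b : ℝ) ^ 2 ≤ r ^ 2 ∧ p x}.Finite := by
  apply (Set.finite_Icc (-(⌈r⌉₊ : ℤ)) ⌈r⌉₊).subset
  rintro x ⟨hx, -⟩
  have h1 : (x : ℝ) ^ 2 ≤ r ^ 2 := le_trans (le_add_of_nonneg_right (sq_nonneg _)) hx
  have h2 := abs_le_of_sq_le_sq' h1 hr0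
  have h3 : r ≤ (⌈r⌉₊ : ℝ) := Nat.le_ceil r
  constructor
  · have : (-(⌈r⌉₊ : ℝ)) ≤ x := by linarith only [h2.1, h3]
    exact_mod_cast this
  · have : (x : ℝ) ≤ (⌈r⌉₊ : ℝ) := by linarith only [h2.2, h3]
    exact_mod_cast this

/-- one row, large imaginary part -/
theorem midg_row (m : ℕ) (hm : 0 < m) (Q : ℕ) : ∃ β σ η C : ℝ, 0 < β ∧ (2 : ℝ) ^ Q * β ≤ 1 / 2 ∧
    0 < σ ∧ ((Q : ℝ) + 5) * σ ≤ 1 / 100 ∧ 0 < η ∧ η ≤ σ ∧ η ≤ 1 / 2 ∧ 0 < C ∧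
    ∀ q : ℕ, 2 ≤ q → q ≤ Q → ∀ (r : ℝ) (k : ℤ) (b : ℕ) (a : ℤ) (s : ℕ), 1 ≤ r →
    r ^ ((q : ℝ) - 17 / 10) ≤ |(k : ℝ)| → |(k : ℝ)| ≤ r ^ ((q : ℝ) - (2 : ℝ) ^ (q - 2) * β - 1 / 10) →
    r ^ (1 - σ) ≤ (b : ℝ) → (s : ℝ) ^ 2 + (b : ℝ) ^ 2 ≤ r ^ 2 →
    ‖∑ t ∈ Icc (-((s + a) / (m : ℤ))) ((s - a) / (m : ℤ)), xi k ⟨a + m * t, b⟩‖ ≤
      C * r ^ (1 - η) := by
  classical
  obtain ⟨β, σ, η, C1, hβ, hβQ, hσ, hσQ, hη, hη2, hC1, hblock⟩ := blockG m hm Q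
  have hex : ∀ q : ℕ, ∃ C : ℝ, 0 < C ∧ (1 ≤ q → ∀ (r κ : ℝ) (b : ℕ), 1 ≤ r → 0 < κ → κ ≤ 1 → 1 ≤ b →
      (Set.ncard {x : ℤ | (x : ℝ) ^ 2 + (b : ℝ) ^ 2 ≤ r ^ 2 ∧
        |(((x : ℂ) + b * Complex.I) ^ (-(q : ℤ))).im| * ‖(x : ℂ) + b * Complex.I‖ ^ q < κ} : ℝ) ≤
        C * (κ * r ^ 2 / b + 1)) := by
    intro q
    by_cases hq : 1 ≤ q
    · obtain ⟨C, hC, h⟩ := bad_cardG q hq
      exact ⟨C, hC, fun _ => h⟩
    · exact ⟨1, one_pos, fun h => absurd h hq⟩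
  choose D hD0 hD using hex
  set C2 : ℝ := ∑ q ∈ range (Q + 1), D q with hC2def
  have hC2 : 0 < C2 := sum_pos (fun q _ => hD0 q) ⟨0, mem_range.2 (Nat.succ_pos _)⟩
  have hDle : ∀ q ≤ Q, D q ≤ C2 := fun q hq =>
    single_le_sum (f := D) (fun i _ => (hD0 i).le) (mem_range.2 (by omega))
  set η' : ℝ := min η σ with hη'
  have hη'η : η' ≤ η := min_le_left _ _
  have hη'σ : η' ≤ σ := min_le_right _ _
  have hη'0 : 0 < η' := lt_min hη hσ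
  refine ⟨β, σ, η', 3 * C1 + 2 * C2, hβ, hβQ, hσ, hσQ, hη'0, hη'σ, hη'η.trans hη2,
    by positivity, ?_⟩
  intro q hq2 hqQ r k b a s hr hk1 hk2 hb hs
  have hr0 : 0 < r := lt_of_lt_of_le one_pos hr
  have hσ1 : σ ≤ 1 := midg_sig Q hσ hσQ
  have hb1R : (1 : ℝ) ≤ b := (Real.one_le_rpow hr (sub_nonneg.2 hσ1)).trans hb
  have hb1 : 1 ≤ b := by exact_mod_cast hb1R
  have hb0 : (0 : ℝ) < b := lt_of_lt_of_le one_pos hb1R
  set L : ℝ := r ^ (1 - ((Q : ℝ) + 5) * σ) with hL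
  have hL1 : 1 ≤ L := Real.one_le_rpow hr (by linarith only [hσQ])
  set mm : ℕ := ⌊L⌋₊ with hmm
  have hmL : (mm : ℝ) ≤ L := Nat.floor_le (zero_le_one.trans hL1)
  have hLm : L < mm + 1 := Nat.lt_floor_add_one L
  set bad : ℤ → Prop := fun t => |((((a + m * t : ℤ) : ℂ) + b * Complex.I) ^ (-(q : ℤ))).im| *
      ‖((a + m * t : ℤ) : ℂ) + b * Complex.I‖ ^ q < r ^ (-(2 * σ)) with hbaddef
  set A : ℝ := C1 * r ^ (1 - ((Q : ℝ) + 5) * σ - η) with hAdef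
  have hA : 0 ≤ A := by positivity
  have hsr : (s : ℝ) ≤ r := by
    have h1 : (s : ℝ) ^ 2 ≤ r ^ 2 := le_trans (le_add_of_nonneg_right (sq_nonneg _)) hs
    exact (abs_le_of_sq_le_sq' h1 hr0.le).2
  set u0 : ℤ := -((s + a) / (m : ℤ)) with hu0
  set v0 : ℤ := (s - a) / (m : ℤ) with hv0
  have hin : ∀ t : ℤ, u0 ≤ t → t ≤ v0 → -(s : ℤ) ≤ a + m * t ∧ a + m * t ≤ s := fun t h1 h2 =>
    (midg_range m hm s a t).1 ⟨h1, h2⟩
  have hsqI : ∀ x : ℤ, -(s : ℤ) ≤ x → x ≤ s → (x : ℝ) ^ 2 + (b : ℝ) ^ 2 ≤ r ^ 2 := by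
    intro x hx1 hx2
    have h1 : (x : ℝ) ≤ s := by exact_mod_cast hx2
    have h2 : -(s : ℝ) ≤ x := by exact_mod_cast hx1
    have h3 : (x : ℝ) ^ 2 ≤ (s : ℝ) ^ 2 := sq_le_sq' h2 h1
    linarith only [h3, hs]
  have hsq : ∀ t : ℤ, u0 ≤ t → t ≤ v0 → ((a : ℝ) + m * t) ^ 2 + (b : ℝ) ^ 2 ≤ r ^ 2 := by
    intro t h1 h2
    have h3 := hin t h1 h2
    have h4 := hsqI _ h3.1 h3.2
    push_cast at h4
    exact h4
  have hgood : ∀ x0 x1 y : ℤ, u0 ≤ x0 → x1 ≤ v0 → x0 ≤ y → y ≤ x1 → x1 - x0 ≤ mm → ¬ bad y →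
      ‖∑ t ∈ Icc x0 x1, xi k ⟨a + m * t, b⟩‖ ≤ A := by
    intro x0 x1 y h1 h2 h3 h4 h5 h6
    refine hblock q hq2 hqQ r k b a x0 x1 y hr hk1 hk2 hb (by omega) ?_ (hsq _ h1 (by omega))
      (hsq _ (by omega) h2) h3 h4 (not_lt.1 h6)
    have h7 : ((x1 - x0 : ℤ) : ℝ) ≤ (mm : ℝ) := by exact_mod_cast h5
    push_cast at h7
    linarith only [h7, hmL]
  set n : ℕ := 2 * s / (mm + 1) + 1 with hn
  have hn1 : 2 * s < n * (mm + 1) := by
    have := Nat.lt_mul_div_succ (2 * s) (Nat.succ_pos mm)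
    rw [hn, Nat.mul_comm (2 * s / (mm + 1) + 1) (mm + 1)]
    exact this
  have hm' : (0 : ℤ) < m := by exact_mod_cast hm
  have huv : v0 - u0 ≤ 2 * s := by
    by_contra hcon
    push Not at hcon
    have h1 : v0 * m ≤ s - a := Int.ediv_mul_le _ hm'.ne'
    have h2 : (s + a) / (m : ℤ) * m ≤ s + a := Int.ediv_mul_le _ hm'.ne'
    have h3 : (v0 - u0) * m ≤ 2 * s := by
      rw [hu0]
      linarith only [h1, h2]
    have h4 : (v0 - u0) * 1 ≤ (v0 - u0) * m := by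
      apply mul_le_mul_of_nonneg_left (by omega)
      have : (0 : ℤ) ≤ 2 * s := by positivity
      omega
    omega
  have key := blocks_bound (fun t => xi k ⟨a + m * t, b⟩) (fun x => norm_xi_le_one k _) bad mm A hA
    u0 v0 hgood n u0 le_rfl (by
      have : ((2 * s : ℕ) : ℤ) < ((n * (mm + 1) : ℕ) : ℤ) := by exact_mod_cast hn1
      push_cast at this ⊢
      linarith only [this, huv])
  have hnle : (n : ℝ) ≤ 3 * r ^ (((Q : ℝ) + 5) * σ) := by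
    have h1 : ((2 * s / (mm + 1) : ℕ) : ℝ) ≤ ((2 * s : ℕ) : ℝ) / ((mm + 1 : ℕ) : ℝ) := Nat.cast_div_le
    have h2 : ((2 * s : ℕ) : ℝ) / ((mm + 1 : ℕ) : ℝ) ≤ 2 * r / L := by
      push_cast
      exact div_le_div₀ (mul_nonneg zero_le_two hr0.le) (by linarith only [hsr])
        (lt_of_lt_of_le one_pos hL1) hLm.le
    have h3 : 2 * r / L = 2 * r ^ (((Q : ℝ) + 5) * σ) := by
      rw [hL, mul_div_assoc]
      congr 1
      rw [div_eq_iff (by positivity), ← Real.rpow_add hr0]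
      rw [show ((Q : ℝ) + 5) * σ + (1 - ((Q : ℝ) + 5) * σ) = 1 by ring, Real.rpow_one]
    have h4 : (1 : ℝ) ≤ r ^ (((Q : ℝ) + 5) * σ) := Real.one_le_rpow hr (by positivity)
    rw [hn]
    push_cast at h1 ⊢
    push_cast at h2
    linarith only [h1, h2, h3, h4]
  have hnA : n * A ≤ 3 * C1 * r ^ (1 - η') := by
    calc (n : ℝ) * A ≤ (3 * r ^ (((Q : ℝ) + 5) * σ)) * A := mul_le_mul_of_nonneg_right hnle hA
      _ = 3 * C1 * r ^ (1 - η) := by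
        rw [hAdef]
        have : r ^ (((Q : ℝ) + 5) * σ) * r ^ (1 - ((Q : ℝ) + 5) * σ - η) = r ^ (1 - η) := by
          rw [← Real.rpow_add hr0]
          congr 1
          ring
        rw [← this]; ring
      _ ≤ _ := by
        apply mul_le_mul_of_nonneg_left _ (by positivity)
        exact Real.rpow_le_rpow_of_exponent_le hr (by linarith only [hη'η])
  have hbadsum : ∑ t ∈ Icc u0 v0, (if bad t then (1 : ℝ) else 0) ≤ 2 * C2 * r ^ (1 - η') := by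
    have hκ0 : 0 < r ^ (-(2 * σ)) := Real.rpow_pos_of_pos hr0 _
    have hκ1 : r ^ (-(2 * σ)) ≤ 1 :=
      Real.rpow_le_one_of_one_le_of_nonpos hr (by linarith only [hσ])
    have hcard := hD q (by omega) r (r ^ (-(2 * σ))) b hr hκ0 hκ1 hb1
    have hbound : D q * (r ^ (-(2 * σ)) * r ^ 2 / b + 1) ≤ 2 * C2 * r ^ (1 - η') := by
      have h1 := midg_kap hr0 hb0 hb
      have h2 : (1 : ℝ) ≤ r ^ (1 - σ) := Real.one_le_rpow hr (sub_nonneg.2 hσ1)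
      have h3 : r ^ (1 - σ) ≤ r ^ (1 - η') :=
        Real.rpow_le_rpow_of_exponent_le hr (by linarith only [hη'σ])
      have h4 : r ^ (-(2 * σ)) * r ^ 2 / b + 1 ≤ 2 * r ^ (1 - η') := by
        linarith only [h1, h2, h3]
      have h5 : 0 ≤ r ^ (-(2 * σ)) * r ^ 2 / b + 1 :=
        add_nonneg (div_nonneg (mul_nonneg hκ0.le (sq_nonneg r)) hb0.le) zero_le_one
      calc D q * (r ^ (-(2 * σ)) * r ^ 2 / b + 1) ≤ C2 * (2 * r ^ (1 - η')) :=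
            mul_le_mul (hDle q hqQ) h4 h5 hC2.le
        _ = _ := by ring
    refine le_trans ?_ (hcard.trans hbound)
    rw [← Finset.sum_filter, Finset.sum_const, nsmul_eq_mul, mul_one]
    have hfin : {x : ℤ | (x : ℝ) ^ 2 + (b : ℝ) ^ 2 ≤ r ^ 2 ∧
      |(((x : ℂ) + b * Complex.I) ^ (-(q : ℤ))).im| * ‖(x : ℂ) + b * Complex.I‖ ^ q <
        r ^ (-(2 * σ))}.Finite := midg_fin hr0.le b _
    have hinj : Function.Injective (fun t : ℤ => a + m * t) := fun t t' h =>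
      mul_left_cancel₀ hm'.ne' (add_left_cancel h)
    rw [← card_image_of_injective _ hinj, ← Set.ncard_coe_finset]
    refine Nat.cast_le.2 (Set.ncard_le_ncard ?_ hfin)
    intro x hx
    rw [mem_coe, mem_image] at hx
    obtain ⟨t, ht, rfl⟩ := hx
    rw [mem_filter, mem_Icc] at ht
    have h3 := hin t ht.1.1 ht.1.2
    exact ⟨hsqI _ h3.1 h3.2, ht.2⟩
  calc ‖∑ t ∈ Icc u0 v0, xi k ⟨a + m * t, b⟩‖ ≤ _ := key
    _ ≤ _ := by rw [add_mul]; exact add_le_add hnA hbadsum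

/-- choice of the order of the derivative -/
theorem midg_q (Q : ℕ) (hQ : 2 ≤ Q) (β : ℝ) (hβ : 0 < β) (hβQ : (2 : ℝ) ^ Q * β ≤ 1 / 2) (r K : ℝ)
    (hr : 1 ≤ r) (h1 : r ^ (3 / 10 : ℝ) ≤ K) (h2 : K ≤ r ^ ((Q : ℝ) - 1)) :
    ∃ q : ℕ, 2 ≤ q ∧ q ≤ Q ∧ r ^ ((q : ℝ) - 17 / 10) ≤ K ∧
      K ≤ r ^ ((q : ℝ) - (2 : ℝ) ^ (q - 2) * β - 1 / 10) := by
  classical
  have hpow : ∀ q : ℕ, 2 ≤ q → q ≤ Q → (2 : ℝ) ^ (q - 2) * β ≤ 1 / 8 := by
    intro q hq hqQ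
    have h3 : (2 : ℝ) ^ (q - 2) * 4 ≤ 2 ^ Q := by
      have h4 : (2 : ℝ) ^ (q - 2) * 4 = 2 ^ (q - 2 + 2) := by rw [pow_add]; norm_num
      rw [h4]
      exact pow_le_pow_right₀ (by norm_num) (by omega)
    have h5 := mul_le_mul_of_nonneg_right h3 hβ.le
    linarith only [h5, hβQ]
  have hex : ∃ q : ℕ, 2 ≤ q ∧ K ≤ r ^ ((q : ℝ) - (2 : ℝ) ^ (q - 2) * β - 1 / 10) := by
    refine ⟨Q, hQ, h2.trans (Real.rpow_le_rpow_of_exponent_le hr ?_)⟩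
    have := hpow Q hQ le_rfl
    linarith
  have hfs := Nat.find_spec hex
  have hfm : Nat.find hex ≤ Q := by
    apply Nat.find_min' hex
    refine ⟨hQ, h2.trans (Real.rpow_le_rpow_of_exponent_le hr ?_)⟩
    have := hpow Q hQ le_rfl
    linarith
  set q := Nat.find hex with hq
  refine ⟨q, hfs.1, hfm, ?_, hfs.2⟩
  rcases Nat.lt_or_ge 2 q with hlt | hge
  · have hnot := Nat.find_min hex (m := q - 1) (by omega)
    have h3 : ¬ K ≤ r ^ (((q - 1 : ℕ) : ℝ) - (2 : ℝ) ^ (q - 1 - 2) * β - 1 / 10) := by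
      intro h4
      exact hnot ⟨by omega, h4⟩
    push Not at h3
    refine (Real.rpow_le_rpow_of_exponent_le hr ?_).trans h3.le
    have h5 := hpow (q - 1) (by omega) (by omega)
    have h6 : ((q - 1 : ℕ) : ℝ) = (q : ℝ) - 1 := by
      rw [Nat.cast_sub (by omega)]
      norm_num
    rw [h6]
    linarith
  · have h3 : q = 2 := le_antisymm hge hfs.1
    rw [h3]
    refine (Real.rpow_le_rpow_of_exponent_le hr ?_).trans h1
    norm_num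

open Classical in
/-- Generalisation of `mid_j` (Lib_MP_f1a94e_mr/MidJ.lean: `blocks_bound`, `row_bound`, `sum_ball_rows`). `r = sqrt Y`. The windows `r^(q - 17/10) ≤ |k| ≤ r^(q - 2^(q-2) β - 1/10)`, `2 ≤ q ≤ Q`, cover
`r^(3/10) ≤ |k| ≤ r^(Q - 1)` (`2^(q-2) β + 1/10 ≤ 7/10`). Fix `q`. Row `im = b ≥ r^(1-σ)`: the `x ≡ b.re mod m` are `x0 + m t`, `t` in an interval; cut it into blocks of length `L = r^(1 - (Q+5) σ)`:
a block with a good point is `≤ C r^(1 - (Q+5)σ - η)` (`blockG`), the number of blocks is `≤ 2 r / L + 1`; blocks without good point consist of bad points, in total at most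
`C (r^(-2σ) r² / b + 1) ≤ C r^(1 - σ)` (`bad_cardG`). So a row is `≤ C r^(1 - η')`. Rows with `|b| < r^(1-σ)`: trivial, `≤ C r r^(1 - σ)` in total. Rows `b < 0`: complex conjugation
(`xi k (star z) = conj (xi k z)`), the class of `star z`. Rows with `im ≡ b.im mod m` only. -/
theorem midG (m : ℕ) (hm : 0 < m) (Q : ℕ) (hQ : 2 ≤ Q) : ∃ η C : ℝ, 0 < η ∧ η ≤ 1 / 2 ∧ 0 < C ∧ ∀ (Y : ℝ) (b : G) (k : ℤ), 1 ≤ Y →
    Y ^ (3 / 20 : ℝ) ≤ |(k : ℝ)| → |(k : ℝ)| ≤ Y ^ (((Q : ℝ) - 1) / 2) →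
    ‖∑ z ∈ (ball Y).filter (fun z => cg m z b), xi k z‖ ≤ C * Y ^ (1 - η) := by
  obtain ⟨β, σ, η, C, hβ, hβQ, hσ, hσQ, hη, hησ, hη2, hC, hrow⟩ := midg_row m hm Q
  refine ⟨η / 2, 3 * C + 9, by positivity, by linarith, by positivity, ?_⟩
  intro Y b0 k hY hk1 hk2
  have hY0 : 0 < Y := lt_of_lt_of_le one_pos hY
  set r : ℝ := Real.sqrt Y with hr
  have hr1 : 1 ≤ r := by rw [hr]; exact Real.one_le_sqrt.2 hY
  have hr0 : 0 < r := lt_of_lt_of_le one_pos hr1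
  have hrt : r ^ 2 = Y := Real.sq_sqrt hY0.le
  have htr : ∀ a : ℝ, Y ^ a = r ^ (2 * a) := by
    intro a
    rw [← hrt, ← Real.rpow_natCast r 2, ← Real.rpow_mul hr0.le]
    norm_num
  rw [htr] at hk1 hk2
  rw [show 2 * (3 / 20 : ℝ) = 3 / 10 by norm_num] at hk1
  rw [show 2 * (((Q : ℝ) - 1) / 2) = (Q : ℝ) - 1 by ring] at hk2
  obtain ⟨q, hq2, hqQ, hqa, hqb⟩ := midg_q Q hQ β hβ hβQ r |(k : ℝ)| hr1 hk1 hk2
  have hσ1 : σ ≤ 1 := midg_sig Q hσ hσQ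
  set y : ℝ := r ^ (1 - σ) with hy
  have hy1 : 1 ≤ y := Real.one_le_rpow hr1 (sub_nonneg.2 hσ1)
  set B : ℝ := C * r ^ (1 - η) with hB
  have hB0 : 0 ≤ B := by positivity
  rw [sum_filter, sum_ball_rows Y hY0.le]
  -- bound of one row
  have hone : ∀ b ∈ Finset.Icc (-(⌊r⌋₊ : ℤ)) ⌊r⌋₊,
      ‖∑ x ∈ Finset.Icc (-(⌊Real.sqrt (Y - (b : ℝ) ^ 2)⌋₊ : ℤ)) ⌊Real.sqrt (Y - (b : ℝ) ^ 2)⌋₊,
        (if cg m ⟨x, b⟩ b0 then xi k ⟨x, b⟩ else 0)‖ ≤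
        B + (if (b.natAbs : ℝ) < y then 3 * r else 0) := by
    intro b hb
    have hb2 : (b : ℝ) ^ 2 ≤ Y := by
      rw [Finset.mem_Icc, ← abs_le, Int.abs_eq_natAbs, Nat.cast_le,
        Nat.le_floor_iff hr0.le, Nat.cast_natAbs, Int.cast_abs, hr,
        Real.le_sqrt (abs_nonneg _) hY0.le, sq_abs] at hb
      exact hb
    have hs0 : 0 ≤ Y - (b : ℝ) ^ 2 := sub_nonneg.2 hb2
    set s := ⌊Real.sqrt (Y - (b : ℝ) ^ 2)⌋₊ with hs
    have hs1 : (s : ℝ) ≤ Real.sqrt (Y - (b : ℝ) ^ 2) := Nat.floor_le (Real.sqrt_nonneg _)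
    have hs2 : (s : ℝ) ^ 2 ≤ Y - (b : ℝ) ^ 2 := by
      rw [← Real.sq_sqrt hs0]
      exact pow_le_pow_left₀ (by positivity) hs1 2
    have hsr : (s : ℝ) ≤ r := by
      rw [hr]
      exact hs1.trans (Real.sqrt_le_sqrt (sub_le_self _ (sq_nonneg _)))
    by_cases hby : (b.natAbs : ℝ) < y
    · rw [if_pos hby]
      have h1 : ‖∑ x ∈ Finset.Icc (-(s : ℤ)) s, (if cg m ⟨x, b⟩ b0 then xi k ⟨x, b⟩ else 0)‖ ≤
          ∑ x ∈ Finset.Icc (-(s : ℤ)) s, (1 : ℝ) := by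
        refine (norm_sum_le _ _).trans (Finset.sum_le_sum (fun x _ => ?_))
        split_ifs
        · exact norm_xi_le_one k _
        · rw [norm_zero]; exact zero_le_one
      have h2 : ∑ x ∈ Finset.Icc (-(s : ℤ)) s, (1 : ℝ) = 2 * s + 1 := by
        rw [Finset.sum_const, Int.card_Icc, nsmul_eq_mul, mul_one]
        have : ((s : ℤ) + 1 - -(s : ℤ)).toNat = 2 * s + 1 := by omega
        rw [this]; push_cast; ring
      rw [h2] at h1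
      linarith only [h1, hB0, hsr, hr1]
    · rw [if_neg hby, add_zero]
      push Not at hby
      by_cases hdvd : (m : ℤ) ∣ b - b0.im
      swap
      · have h0 : ∑ x ∈ Finset.Icc (-(s : ℤ)) s, (if cg m ⟨x, b⟩ b0 then xi k ⟨x, b⟩ else 0) = 0 := by
          apply Finset.sum_eq_zero
          intro x _
          rw [if_neg]
          rintro ⟨_, h⟩
          exact hdvd h
        rw [h0, norm_zero]
        exact hB0
      have hcls : ∀ b' : ℤ, ∑ x ∈ Finset.Icc (-(s : ℤ)) s,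
          (if (m : ℤ) ∣ x - b0.re then xi k ⟨x, b'⟩ else 0) =
          ∑ t ∈ Icc (-((s + b0.re) / (m : ℤ))) ((s - b0.re) / (m : ℤ)), xi k ⟨b0.re + m * t, b'⟩ :=
        fun b' => midg_class m hm s b0.re (fun x => xi k ⟨x, b'⟩)
      have hsum1 : ∑ x ∈ Finset.Icc (-(s : ℤ)) s, (if cg m ⟨x, b⟩ b0 then xi k ⟨x, b⟩ else 0) =
          ∑ x ∈ Finset.Icc (-(s : ℤ)) s, (if (m : ℤ) ∣ x - b0.re then xi k ⟨x, b⟩ else 0) := by
        apply Finset.sum_congr rfl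
        intro x _
        by_cases hx : (m : ℤ) ∣ x - b0.re
        · rw [if_pos hx, if_pos]
          exact ⟨hx, hdvd⟩
        · rw [if_neg hx, if_neg]
          rintro ⟨h, _⟩
          exact hx h
      rw [hsum1]
      have hab : ((b.natAbs : ℕ) : ℝ) ^ 2 = (b : ℝ) ^ 2 := by
        rw [Nat.cast_natAbs, Int.cast_abs, sq_abs]
      have h1 := hrow q hq2 hqQ r k b.natAbs b0.re s hr1 hqa hqb hby (by rw [hab, hrt]; linarith only [hs2])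
      rcases Int.natAbs_eq b with hbb | hbb
      · rw [← hbb] at h1
        rw [hcls b]
        exact h1
      · have hbne : b ≠ 0 := by
          rintro rfl
          simp only [Int.natAbs_zero, Nat.cast_zero] at hby
          linarith only [hby, hy1]
        have h2 : ∑ x ∈ Finset.Icc (-(s : ℤ)) s,
              (if (m : ℤ) ∣ x - b0.re then xi k ⟨x, b⟩ else 0) =
            (starRingEnd ℂ) (∑ x ∈ Finset.Icc (-(s : ℤ)) s,
              (if (m : ℤ) ∣ x - b0.re then xi k ⟨x, (b.natAbs : ℤ)⟩ else 0)) := by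
          rw [map_sum]
          apply Finset.sum_congr rfl
          intro x _
          split_ifs
          · have hz : (⟨x, (b.natAbs : ℤ)⟩ : G) ≠ 0 := by
              intro h
              have := congrArg Zsqrtd.im h
              simp at this
              exact hbne this
            rw [conj_xi k hz, ← xi_star k hz]
            congr 1
            apply Zsqrtd.ext
            · simp
            · simp only [Zsqrtd.im_star]
              exact hbb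
          · rw [map_zero]
        rw [h2, RCLike.norm_conj, hcls]
        exact h1
  have hR : ((⌊r⌋₊ : ℕ) : ℝ) ≤ r := Nat.floor_le hr0.le
  have hcount : ∑ b ∈ Finset.Icc (-(⌊r⌋₊ : ℤ)) ⌊r⌋₊, (if (b.natAbs : ℝ) < y then 3 * r else 0) ≤
      (3 * y) * (3 * r) := by
    rw [← Finset.sum_filter, Finset.sum_const, nsmul_eq_mul]
    apply mul_le_mul_of_nonneg_right _ (by positivity)
    have hsub : (Finset.Icc (-(⌊r⌋₊ : ℤ)) ⌊r⌋₊).filter (fun b => (b.natAbs : ℝ) < y) ⊆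
        Finset.Icc (-(⌊y⌋₊ : ℤ)) ⌊y⌋₊ := by
      intro b hb
      rw [Finset.mem_filter] at hb
      rw [Finset.mem_Icc, ← abs_le, Int.abs_eq_natAbs, Nat.cast_le,
        Nat.le_floor_iff (zero_le_one.trans hy1)]
      exact hb.2.le
    have h1 := Finset.card_le_card hsub
    rw [Int.card_Icc] at h1
    have h2 : ((⌊y⌋₊ : ℤ) + 1 - -(⌊y⌋₊ : ℤ)).toNat = 2 * ⌊y⌋₊ + 1 := by omega
    rw [h2] at h1
    have h3 : ((⌊y⌋₊ : ℕ) : ℝ) ≤ y := Nat.floor_le (zero_le_one.trans hy1)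
    have h4 : ((((Finset.Icc (-(⌊r⌋₊ : ℤ)) ⌊r⌋₊).filter (fun b => (b.natAbs : ℝ) < y)).card : ℕ) : ℝ)
        ≤ ((2 * ⌊y⌋₊ + 1 : ℕ) : ℝ) := by exact_mod_cast h1
    push_cast at h4
    linarith only [h4, h3, hy1]
  have hBsum : ∑ b ∈ Finset.Icc (-(⌊r⌋₊ : ℤ)) ⌊r⌋₊, B ≤ (3 * r) * B := by
    rw [Finset.sum_const, Int.card_Icc, nsmul_eq_mul]
    apply mul_le_mul_of_nonneg_right _ hB0
    have : ((⌊r⌋₊ : ℤ) + 1 - -(⌊r⌋₊ : ℤ)).toNat = 2 * ⌊r⌋₊ + 1 := by omega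
    rw [this]; push_cast; linarith only [hR, hr1]
  have htot : ‖∑ b ∈ Finset.Icc (-(⌊r⌋₊ : ℤ)) ⌊r⌋₊,
      ∑ x ∈ Finset.Icc (-(⌊Real.sqrt (Y - (b : ℝ) ^ 2)⌋₊ : ℤ)) ⌊Real.sqrt (Y - (b : ℝ) ^ 2)⌋₊,
        (if cg m ⟨x, b⟩ b0 then xi k ⟨x, b⟩ else 0)‖ ≤ (3 * r) * B + (3 * y) * (3 * r) := by
    refine (norm_sum_le _ _).trans ((Finset.sum_le_sum hone).trans ?_)
    rw [Finset.sum_add_distrib]
    exact add_le_add hBsum hcount
  refine htot.trans ?_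
  rw [htr]
  have e1 : r * r ^ (1 - η) = r ^ (2 * (1 - η / 2)) := by
    nth_rewrite 1 [← Real.rpow_one r]
    rw [← Real.rpow_add hr0]
    congr 1
    ring
  have e2 : y * r ≤ r ^ (2 * (1 - η / 2)) := by
    rw [hy]
    nth_rewrite 2 [← Real.rpow_one r]
    rw [← Real.rpow_add hr0]
    exact Real.rpow_le_rpow_of_exponent_le hr1 (by linarith only [hησ])
  calc (3 * r) * B + (3 * y) * (3 * r) = 3 * C * (r * r ^ (1 - η)) + 9 * (y * r) := by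
        rw [hB]; ring
    _ ≤ 3 * C * r ^ (2 * (1 - η / 2)) + 9 * r ^ (2 * (1 - η / 2)) := by
        rw [e1]; linarith only [e2]
    _ = _ := by ring

end Pool.Agent.ECM
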