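import Pool.Agent.Lib_MP_f1a94e_ecm.MarcChi
import Pool.Agent.Lib_MP_f1a94e_ecm.ArcDec
import Pool.Agent.Lib_MP_f1a94e_eq.BDefs

/-!
# Block M: the interface
-/

set_option autoImplicit false

namespace Pool.Agent.ECM

open Finset Pool.Agent.GaussMR Pool.Agent.GaussCM Pool.Agent.OmAll Pool.Agent.OmEq

private theorem mro_arc_per (θ w : ℝ) (z : G) : InArc (θ + 2 * Real.pi) w z ↔ InArc θ w z := by
  unfold InArc
  constructor
  · rintro ⟨k, h2, h3⟩
    refine ⟨k - 1, ?_, ?_⟩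
    · push_cast
      linarith
    · push_cast
      linarith
  · rintro ⟨k, h2, h3⟩
    refine ⟨k + 1, ?_, ?_⟩
    · push_cast
      linarith
    · push_cast
      linarith

private theorem mro_arc_meas (w : ℝ) (z : G) : MeasurableSet {θ : ℝ | InArc θ w z} := by
  have h : {θ : ℝ | InArc θ w z} = ⋃ j : ℤ, Set.Ioc (Complex.arg (z : ℂ) + 2 * Real.pi * j - w)
      (Complex.arg (z : ℂ) + 2 * Real.pi * j) := by
    ext θ
    rw [Set.mem_iUnion]
    constructor
    · rintro ⟨k, h2, h3⟩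
      exact ⟨k, by linarith, h2⟩
    · rintro ⟨k, h2, h3⟩
      exact ⟨k, h3, by linarith⟩
  rw [h]
  exact MeasurableSet.iUnion (fun k => measurableSet_Ioc)

private theorem mro_meas (F : G → ℂ) (X w : ℝ) : Measurable (arcS F X w) := by
  classical
  unfold arcS
  apply Finset.measurable_fun_sum
  intro z _
  exact Measurable.ite (mro_arc_meas w z) measurable_const measurable_const

private theorem mro_bd (F : G → ℂ) (X w θ : ℝ) : ‖arcS F X w θ‖ ≤ ∑ z ∈ V X, ‖F z‖ := by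
  classical
  unfold arcS
  refine (norm_sum_le _ _).trans (Finset.sum_le_sum fun z _ => ?_)
  split_ifs
  · exact le_rfl
  · rw [norm_zero]
    exact norm_nonneg _

private theorem mro_int (F : G → ℂ) (X w s a c : ℝ) :
    IntervalIntegrable (fun θ => ‖arcS F X w (θ - s)‖ ^ 2) MeasureTheory.volume a c := by
  have h1 : Measurable (fun θ => ‖arcS F X w (θ - s)‖ ^ 2) :=
    (((mro_meas F X w).comp (measurable_id.sub_const s)).norm).pow_const 2
  refine (intervalIntegrable_const (c := (∑ z ∈ V X, ‖F z‖) ^ 2)).mono_fun h1.aestronglyMeasurable ?_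
  refine Filter.Eventually.of_forall (fun θ => ?_)
  dsimp only
  rw [Real.norm_of_nonneg (by positivity), Real.norm_of_nonneg (by positivity)]
  exact pow_le_pow_left₀ (norm_nonneg _) (mro_bd F X w _) 2

private theorem mro_shift (F : G → ℂ) (X w s : ℝ) :
    ∫ θ in (0 : ℝ)..(2 * Real.pi), ‖arcS F X w (θ - s)‖ ^ 2 =
      ∫ θ in (0 : ℝ)..(2 * Real.pi), ‖arcS F X w θ‖ ^ 2 := by
  have hp : Function.Periodic (fun θ => ‖arcS F X w θ‖ ^ 2) (2 * Real.pi) := by
    intro θ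
    dsimp only
    have : arcS F X w (θ + 2 * Real.pi) = arcS F X w θ := by
      classical
      unfold arcS
      exact sum_congr rfl (fun z _ => by simp only [mro_arc_per])
    rw [this]
  rw [intervalIntegral.integral_comp_sub_right (fun θ => ‖arcS F X w θ‖ ^ 2) s]
  have h := hp.intervalIntegral_add_eq (0 - s) 0
  rw [show (0 : ℝ) - s + 2 * Real.pi = 2 * Real.pi - s by ring, zero_add] at h
  exact h

/-- Matomaki-Radziwill in arcs of bounded length for the Liouville function of the norm, in residue classes. `arc_dec`; `‖∑_i‖² ≤ n ∑ ‖.‖²`; `H / X = (H/m) / (X/m)`; `arcS .. (θ - φ)` has the same integral over a period as `arcS .. θ` (periodic in `θ`); `marc_chi` with `ε / (n² + 1) * ..`, `H0 = m * max`. -/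
theorem mro : MRO (fun n => (-1 : ℂ) ^ ArithmeticFunction.cardFactors n) := by
  intro D hD b ε hε
  obtain ⟨D', n, χ, a, m, φ, hD', hm, hχ, ha, hdec⟩ := arc_dec D hD b
  have hε' : 0 < ε / ((n : ℝ) ^ 2 + 1) := by positivity
  have hm0 : (0 : ℝ) < m := by exact_mod_cast hm
  have hm1 : (1 : ℝ) ≤ m := by exact_mod_cast hm
  choose H0 hH0 hX using fun i => marc_chi D' hD' (ε / ((n : ℝ) ^ 2 + 1)) hε' (χ i) (hχ i)
  have hsum0 : 0 ≤ ∑ i, H0 i := Finset.sum_nonneg (fun i _ => (hH0 i).le)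
  refine ⟨m * (1 + ∑ i, H0 i), by positivity, ?_⟩
  intro H hH
  have hH1 : 0 ≤ H := le_trans (by positivity) hH
  have hHm : ∀ i, H0 i ≤ H / m := by
    intro i
    have h1 : H0 i ≤ ∑ j, H0 j :=
      Finset.single_le_sum (f := H0) (fun j _ => (hH0 j).le) (Finset.mem_univ i)
    rw [le_div_iff₀ hm0]
    have h2 : H0 i * m ≤ (1 + ∑ j, H0 j) * m := mul_le_mul_of_nonneg_right (by linarith) hm0.le
    linarith
  choose X0 hX0 using fun i => hX i (H / m) (hHm i)
  refine ⟨m * ∑ i, |X0 i|, ?_⟩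
  intro X hXX
  have hXm : ∀ i, X0 i ≤ X / m := by
    intro i
    have h1 : |X0 i| ≤ ∑ j, |X0 j| :=
      Finset.single_le_sum (f := fun j => |X0 j|) (fun j _ => abs_nonneg _) (Finset.mem_univ i)
    rw [le_div_iff₀ hm0]
    have h2 : X0 i * m ≤ (∑ j, |X0 j|) * m :=
      mul_le_mul_of_nonneg_right ((le_abs_self _).trans h1) hm0.le
    linarith
  have key : ∀ i, ∫ θ in (0 : ℝ)..(2 * Real.pi), ‖arcS (FL (χ i)) (X / m) (H / X) (θ - φ)‖ ^ 2 ≤
      ε / ((n : ℝ) ^ 2 + 1) * (H / m) ^ 2 := by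
    intro i
    rw [mro_shift]
    have h1 := hX0 i (X / m) (hXm i)
    rwa [div_div_div_cancel_right₀ hm0.ne'] at h1
  have hpt : ∀ θ : ℝ, ‖So (fun n => (-1 : ℂ) ^ ArithmeticFunction.cardFactors n) D b X (H / X) θ‖ ^ 2 ≤
      (n : ℝ) * ∑ i, ‖arcS (FL (χ i)) (X / m) (H / X) (θ - φ)‖ ^ 2 := by
    intro θ
    have h1 : So (fun n => (-1 : ℂ) ^ ArithmeticFunction.cardFactors n) D b X (H / X) θ =
        ∑ i, a i * arcS (FL (χ i)) (X / m) (H / X) (θ - φ) := by
      rw [← hdec X (H / X) θ]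
      unfold So
      apply Finset.sum_congr _ (fun _ _ => rfl)
      congr 1
    rw [h1]
    have h2 : ‖∑ i, a i * arcS (FL (χ i)) (X / m) (H / X) (θ - φ)‖ ≤
        ∑ i, ‖arcS (FL (χ i)) (X / m) (H / X) (θ - φ)‖ := by
      refine (norm_sum_le _ _).trans (Finset.sum_le_sum fun i _ => ?_)
      rw [norm_mul]
      calc ‖a i‖ * ‖arcS (FL (χ i)) (X / m) (H / X) (θ - φ)‖
          ≤ 1 * ‖arcS (FL (χ i)) (X / m) (H / X) (θ - φ)‖ :=
            mul_le_mul_of_nonneg_right (ha i) (norm_nonneg _)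
        _ = _ := one_mul _
    refine (pow_le_pow_left₀ (norm_nonneg _) h2 2).trans ?_
    have h3 := sq_sum_le_card_mul_sum_sq (s := (Finset.univ : Finset (Fin n)))
      (f := fun i => ‖arcS (FL (χ i)) (X / m) (H / X) (θ - φ)‖)
    rwa [Finset.card_univ, Fintype.card_fin] at h3
  have hpi : (0 : ℝ) ≤ 2 * Real.pi := by positivity
  have hint : IntervalIntegrable (fun θ => (n : ℝ) *
      ∑ i, ‖arcS (FL (χ i)) (X / m) (H / X) (θ - φ)‖ ^ 2) MeasureTheory.volume 0 (2 * Real.pi) := by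
    apply IntervalIntegrable.const_mul
    have h9 := IntervalIntegrable.sum (Finset.univ : Finset (Fin n))
      (fun i _ => mro_int (FL (χ i)) (X / m) (H / X) φ 0 (2 * Real.pi))
    have h10 : (∑ i, fun θ => ‖arcS (FL (χ i)) (X / m) (H / X) (θ - φ)‖ ^ 2) =
        (fun θ => ∑ i, ‖arcS (FL (χ i)) (X / m) (H / X) (θ - φ)‖ ^ 2) := by
      funext θ
      rw [Finset.sum_apply]
    rwa [h10] at h9
  have hle : ∫ θ in (0 : ℝ)..(2 * Real.pi),
        ‖So (fun n => (-1 : ℂ) ^ ArithmeticFunction.cardFactors n) D b X (H / X) θ‖ ^ 2 ≤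
      ∫ θ in (0 : ℝ)..(2 * Real.pi), (n : ℝ) * ∑ i, ‖arcS (FL (χ i)) (X / m) (H / X) (θ - φ)‖ ^ 2 := by
    rw [intervalIntegral.integral_of_le hpi, intervalIntegral.integral_of_le hpi]
    refine MeasureTheory.integral_mono_of_nonneg
      (Filter.Eventually.of_forall fun θ => by positivity) ?_ (Filter.Eventually.of_forall hpt)
    exact (intervalIntegrable_iff_integrableOn_Ioc_of_le hpi).1 hint
  refine hle.trans ?_
  rw [intervalIntegral.integral_const_mul, intervalIntegral.integral_finsetSum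
    (fun i _ => mro_int (FL (χ i)) (X / m) (H / X) φ _ _)]
  have h4 : ∑ i, ∫ θ in (0 : ℝ)..(2 * Real.pi), ‖arcS (FL (χ i)) (X / m) (H / X) (θ - φ)‖ ^ 2 ≤
      (n : ℝ) * (ε / ((n : ℝ) ^ 2 + 1) * (H / m) ^ 2) := by
    refine (Finset.sum_le_sum fun i _ => key i).trans ?_
    rw [Finset.sum_const, Finset.card_univ, Fintype.card_fin, nsmul_eq_mul]
  have h5 : (H / m) ^ 2 ≤ H ^ 2 := by
    refine pow_le_pow_left₀ (by positivity) ?_ 2
    exact div_le_self hH1 hm1
  have h6 : (n : ℝ) * ((n : ℝ) * (ε / ((n : ℝ) ^ 2 + 1) * (H / m) ^ 2)) ≤ ε * H ^ 2 := by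
    have h7 : (n : ℝ) * ((n : ℝ) * (ε / ((n : ℝ) ^ 2 + 1) * (H / m) ^ 2)) =
        ((n : ℝ) ^ 2 / ((n : ℝ) ^ 2 + 1)) * (ε * (H / m) ^ 2) := by ring
    rw [h7]
    have h8 : (n : ℝ) ^ 2 / ((n : ℝ) ^ 2 + 1) ≤ 1 := by
      rw [div_le_one (by positivity)]
      linarith
    calc ((n : ℝ) ^ 2 / ((n : ℝ) ^ 2 + 1)) * (ε * (H / m) ^ 2) ≤ 1 * (ε * (H / m) ^ 2) :=
          mul_le_mul_of_nonneg_right h8 (by positivity)
      _ = ε * (H / m) ^ 2 := one_mul _
      _ ≤ ε * H ^ 2 := mul_le_mul_of_nonneg_left h5 hε.le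
  exact (mul_le_mul_of_nonneg_left h4 (Nat.cast_nonneg n)).trans h6

end Pool.Agent.ECM
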