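import Pool.Agent.Lib_MP_f1a94e_ecm.ZDefs
import Pool.Agent.Lib_MP_f1a94e_ecm.CharDef
import Pool.Agent.Lib_MP_f1a94e_ecm.ChiOrd
import Pool.Agent.Lib_MP_f1a94e_aq.ZSum
import Pool.Agent.Lib_MP_f1a94e_mr.MertensB

/-!
# Piece M-NONPRET: the prime sums of FL χ at bounded height
-/

set_option autoImplicit false

namespace Pool.Agent.ECM

open Finset Pool.Agent.GaussMR Pool.Agent.GaussCM Pool.Agent.OmAll

/-- the twist at a prime -/
noncomputable def nprE (t : ℝ) (w : G) : ℂ :=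
  Complex.exp (-((t * Real.log (nm w) : ℝ) : ℂ) * Complex.I)

/-- the defect sum -/
noncomputable def nprS (χ : G → ℂ) (B t : ℝ) : ℝ :=
  ∑ w ∈ PP 2 B, ((1 + (χ w * nprE t w).re) + (1 + (χ (fl w) * nprE t w).re)) / (nm w : ℝ)

private theorem npr_norm (t : ℝ) (w : G) : ‖nprE t w‖ = 1 := by
  have e : -((t * Real.log (nm w) : ℝ) : ℂ) * Complex.I =
      ((-(t * Real.log (nm w)) : ℝ) : ℂ) * Complex.I := by push_cast; ring
  unfold nprE
  rw [e, Complex.norm_exp_ofReal_mul_I]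

private theorem npr_pos (χ : G → ℂ) (hle : ∀ z, ‖χ z‖ ≤ 1) (t : ℝ) (v w : G) :
    0 ≤ 1 + (χ v * nprE t w).re ∧ (χ v * nprE t w).re ≤ 1 := by
  have h1 : ‖χ v * nprE t w‖ ≤ 1 := by
    rw [norm_mul, npr_norm, mul_one]
    exact hle v
  have h2 := (abs_le.1 ((Complex.abs_re_le_norm (χ v * nprE t w)).trans h1))
  constructor <;> linarith [h2.1, h2.2]

private theorem npr_comp (D : ℕ) (B : ℝ) (f g : G → ℝ) (hf : ∀ w ∈ PP 2 B, 0 ≤ f w)
    (hg : ∀ w ∈ PP 2 B, g w ≤ 4) (hfg : ∀ w ∈ PP 2 B, (D : ℝ) ^ 2 < (nm w : ℝ) → g w ≤ f w) :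
    ∑ w ∈ PP 2 B, g w / (nm w : ℝ) - 4 * ((ball ((D : ℝ) ^ 2)).card : ℝ) ≤
      ∑ w ∈ PP 2 B, f w / (nm w : ℝ) := by
  classical
  have h1 : ∑ w ∈ PP 2 B, g w / (nm w : ℝ) ≤ ∑ w ∈ PP 2 B, (f w / (nm w : ℝ) +
      if (nm w : ℝ) ≤ (D : ℝ) ^ 2 then 4 else 0) := by
    refine sum_le_sum fun w hw => ?_
    have hn : (1 : ℝ) ≤ (nm w : ℝ) := by
      have := (mem_PP.1 hw).1
      linarith
    have hn0 : (0 : ℝ) < (nm w : ℝ) := by linarith
    split_ifs with hc
    · have a1 : g w / (nm w : ℝ) ≤ 4 := by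
        rw [div_le_iff₀ hn0]
        have := hg w hw
        linarith
      have a2 : 0 ≤ f w / (nm w : ℝ) := div_nonneg (hf w hw) hn0.le
      linarith
    · push Not at hc
      rw [add_zero]
      exact div_le_div_of_nonneg_right (hfg w hw hc) hn0.le
  have h2 : ∑ w ∈ PP 2 B, (if (nm w : ℝ) ≤ (D : ℝ) ^ 2 then (4 : ℝ) else 0) ≤
      4 * ((ball ((D : ℝ) ^ 2)).card : ℝ) := by
    rw [← sum_filter, sum_const, nsmul_eq_mul, mul_comm]
    have h3 : ((PP 2 B).filter (fun w => (nm w : ℝ) ≤ (D : ℝ) ^ 2)).card ≤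
        (ball ((D : ℝ) ^ 2)).card := by
      refine card_le_card fun w hw => ?_
      rw [mem_filter] at hw
      exact mem_ball.2 hw.2
    have h4 : (((PP 2 B).filter (fun w => (nm w : ℝ) ≤ (D : ℝ) ^ 2)).card : ℝ) ≤
        ((ball ((D : ℝ) ^ 2)).card : ℝ) := by exact_mod_cast h3
    linarith
  rw [sum_add_distrib] at h1
  linarith

private theorem npr_mult (D : ℕ) (χ : G → ℂ) (hχ : Chi D χ) (h1 : χ ii = 1) (B t : ℝ) :
    (mult (FL χ) 2 B t).re = 2 * Ls 2 B - nprS χ B t := by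
  unfold mult Ls nprS
  rw [Complex.re_sum, mul_sum, ← sum_sub_distrib]
  refine sum_congr rfl fun w hw => ?_
  have hp : (nm w).Prime := (PP_spl hw).1
  have e1 : FL χ w = -χ w := by
    unfold FL
    rw [ArithmeticFunction.cardFactors_apply_prime hp, pow_one, neg_one_mul]
  have e2 : FL χ (star w) = -χ (fl w) := by
    unfold FL
    rw [nm_star, ArithmeticFunction.cardFactors_apply_prime hp, pow_one, neg_one_mul, fl_eq,
      hχ.mul, h1, one_mul]
  have e3 : (FL χ w + FL χ (star w)) / (nm w : ℂ) *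
      Complex.exp (-((t * Real.log (nm w) : ℝ) : ℂ) * Complex.I) =
      (-(χ w * nprE t w) - χ (fl w) * nprE t w) / ((nm w : ℝ) : ℂ) := by
    rw [e1, e2]
    unfold nprE
    push_cast
    ring
  rw [e3, Complex.div_ofReal_re, Complex.sub_re, Complex.neg_re]
  ring

private theorem npr_bij (B : ℝ) (hB : 0 ≤ B) (g : ℕ → ℝ) :
    ∑ w ∈ PP 2 B, g (nm w) = ∑ p ∈ PT ⌊B⌋₊, g p := by
  refine Finset.sum_bij (fun w _ => nm w) ?_ ?_ ?_ ?_
  · intro w hw
    have hs := PP_spl hw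
    obtain ⟨h1, h2, h3, _, _⟩ := mem_PP.1 hw
    rw [PT, Finset.mem_filter, Finset.mem_range, Nat.lt_succ_iff]
    exact ⟨Nat.le_floor h2, hs.1, hs.2⟩
  · intro w hw w' hw' he
    exact PP_inj hw hw' he
  · intro p hp
    rw [PT, Finset.mem_filter, Finset.mem_range, Nat.lt_succ_iff] at hp
    obtain ⟨h2, h3, h4⟩ := hp
    have h5 : (2 : ℝ) < (p : ℝ) := by
      have : 2 < p := by
        have := h3.two_le
        omega
      exact_mod_cast this
    obtain ⟨w, hw, hn⟩ := PP_exists (P := 2) (Q := B) h3 h4 h5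
      ((Nat.cast_le.2 h2).trans (Nat.floor_le hB))
    exact ⟨w, hw, hn⟩
  · intro w _
    rfl

private theorem npr_Ls : ∃ C : ℝ, ∀ B : ℝ, 3 ≤ B → Real.log (Real.log B) / 2 - C ≤ Ls 2 B ∧
    Ls 2 B ≤ Real.log (Real.log B) / 2 + C := by
  obtain ⟨C, hC⟩ := Ls_bounds
  refine ⟨C + |Real.log (Real.log 2) / 2|, fun B hB => ?_⟩
  have h1 := abs_le.1 (hC 2 B le_rfl (by linarith))
  have h2 := neg_abs_le (Real.log (Real.log 2) / 2)
  have h3 := le_abs_self (Real.log (Real.log 2) / 2)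
  constructor <;> linarith [h1.1, h1.2]

/-- large heights -/
private theorem npr_large (D : ℕ) (hD : 0 < D) (χ : G → ℂ) (hχ : Chi D χ) :
    ∃ c : ℝ, 0 < c ∧ ∀ T0 : ℝ, ∃ C : ℝ, ∀ B : ℝ, 3 ≤ B → ∀ t : ℝ, |t| ≤ T0 → t ≠ 0 →
      Real.log (1 / |t|) ≤ Real.log (Real.log B) / 2 →
      c * Real.log (Real.log B) - C ≤ nprS χ B t := by
  obtain ⟨n0, hn0, hord⟩ := chi_order D hD
  obtain ⟨CL, hCL⟩ := npr_Ls
  have hn1 : (1 : ℝ) ≤ (n0 : ℝ) := by exact_mod_cast hn0
  have hnp : (0 : ℝ) < (n0 : ℝ) := by linarith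
  let a : ℝ := 1 / (2 * (n0 : ℝ)) ^ 2
  have ha : 0 < a := by positivity
  have ha1 : a ≤ 1 := by
    rw [div_le_one (by positivity)]
    nlinarith
  refine ⟨2 * a * (1 / 4), by positivity, fun T0 => ?_⟩
  obtain ⟨CZ, hCZ⟩ := zsum ((n0 : ℝ) * max T0 1) (by positivity)
  refine ⟨2 * a * (CL + CZ) + 4 * ((ball ((D : ℝ) ^ 2)).card : ℝ), fun B hB t ht ht0 htl => ?_⟩
  have hcomp := npr_comp D B
    (fun w => (1 + (χ w * nprE t w).re) + (1 + (χ (fl w) * nprE t w).re))
    (fun w => 2 * a * (1 - Real.cos (2 * ((n0 : ℝ) * t) * Real.log (nm w))))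
    (fun w _ => add_nonneg (npr_pos χ hχ.le t w w).1 (npr_pos χ hχ.le t (fl w) w).1)
    (fun w _ => by
      have h2 := Real.neg_one_le_cos (2 * ((n0 : ℝ) * t) * Real.log (nm w))
      have h3 : a * (1 - Real.cos (2 * ((n0 : ℝ) * t) * Real.log (nm w))) ≤ 1 * 2 :=
        mul_le_mul ha1 (by linarith) (by
          have := Real.cos_le_one (2 * ((n0 : ℝ) * t) * Real.log (nm w))
          linarith) (by norm_num)
      linarith)
    (fun w hw hn => by
      have hs := PP_spl hw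
      have hs' : Spl (fl w) := by
        unfold Spl
        rw [nm_fl]
        exact hs
      have key : ∀ v : G, Prime v → nm v = nm w →
          a * (1 - Real.cos (2 * ((n0 : ℝ) * t) * Real.log (nm w))) ≤ 1 + (χ v * nprE t w).re := by
        intro v hv hvn
        obtain ⟨i1, i2⟩ := chi_norm D hD χ hχ v hv (by rw [hvn]; exact hn)
        have hu : ‖χ v * nprE t w‖ = 1 := by rw [norm_mul, i2, npr_norm, mul_one]
        have h5 := pow_defect _ hu n0
        have h6 : (χ v * nprE t w) ^ (2 * n0) =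
            Complex.exp ((-(2 * ((n0 : ℝ) * t) * Real.log (nm w)) : ℝ) * Complex.I) := by
          rw [mul_pow, mul_comm 2 n0, pow_mul (χ v), hord χ hχ v i1, one_pow, one_mul]
          unfold nprE
          rw [← Complex.exp_nat_mul]
          congr 1
          push_cast
          ring
        have h7 : (Complex.exp ((-(2 * ((n0 : ℝ) * t) * Real.log (nm w)) : ℝ) * Complex.I)).re =
            Real.cos (2 * ((n0 : ℝ) * t) * Real.log (nm w)) := by
          rw [Complex.exp_ofReal_mul_I_re, Real.cos_neg]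
        rw [h6, h7] at h5
        have h8 : a * (1 - Real.cos (2 * ((n0 : ℝ) * t) * Real.log (nm w))) ≤
            a * ((2 * (n0 : ℝ)) ^ 2 * (1 + (χ v * nprE t w).re)) :=
          mul_le_mul_of_nonneg_left h5 ha.le
        have h9 : a * ((2 * (n0 : ℝ)) ^ 2 * (1 + (χ v * nprE t w).re)) =
            1 + (χ v * nprE t w).re := by
          rw [← mul_assoc, one_div_mul_cancel (by positivity), one_mul]
        linarith
      have k1 := key w hs.prime rfl
      have k2 := key (fl w) hs'.prime (nm_fl w)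
      linarith)
  have hsum : ∑ w ∈ PP 2 B, 2 * a * (1 - Real.cos (2 * ((n0 : ℝ) * t) * Real.log (nm w))) / (nm w : ℝ) =
      2 * a * (Ls 2 B - ∑ p ∈ PT ⌊B⌋₊, Real.cos (2 * ((n0 : ℝ) * t) * Real.log p) / p) := by
    rw [← npr_bij B (by linarith) (fun p => Real.cos (2 * ((n0 : ℝ) * t) * Real.log p) / p)]
    unfold Ls
    rw [← sum_sub_distrib, mul_sum]
    refine sum_congr rfl fun w _ => ?_
    ring
  have hfl : 3 ≤ ⌊B⌋₊ := Nat.le_floor (by exact_mod_cast hB)
  have htp : 0 < |t| := abs_pos.2 ht0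
  have hzs := hCZ ⌊B⌋₊ hfl ((n0 : ℝ) * t) (by rw [abs_mul, abs_of_pos hnp]; positivity) (by
    rw [abs_mul, abs_of_pos hnp]
    exact mul_le_mul_of_nonneg_left (ht.trans (le_max_left _ _)) hnp.le)
  have hlog : Real.log (1 / |(n0 : ℝ) * t|) ≤ Real.log (1 / |t|) := by
    apply Real.log_le_log
    · rw [abs_mul, abs_of_pos hnp]; positivity
    · rw [abs_mul, abs_of_pos hnp]
      apply one_div_le_one_div_of_le htp
      nlinarith
  have hL := (hCL B hB).1
  rw [hsum] at hcomp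
  have h10 : 2 * a * (Real.log (Real.log B) / 4 - (CL + CZ)) ≤
      2 * a * (Ls 2 B - ∑ p ∈ PT ⌊B⌋₊, Real.cos (2 * ((n0 : ℝ) * t) * Real.log p) / p) := by
    apply mul_le_mul_of_nonneg_left _ (by positivity)
    linarith
  have h11 : nprS χ B t = ∑ w ∈ PP 2 B, ((1 + (χ w * nprE t w).re) +
    (1 + (χ (fl w) * nprE t w).re)) / (nm w : ℝ) := rfl
  rw [h11]
  nlinarith

/-- small heights -/
private theorem npr_small (D : ℕ) (hD : 0 < D) (χ : G → ℂ) (hχ : Chi D χ) (h1 : χ ii = 1) :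
    ∃ c C B0 : ℝ, 0 < c ∧ ∀ B : ℝ, B0 ≤ B → ∀ t : ℝ, |t| * Real.sqrt (Real.log B) ≤ 1 →
      c * Real.log (Real.log B) - C ≤ nprS χ B t := by
  obtain ⟨c1, C1, hc1, hdef⟩ := char_def D hD χ hχ h1
  obtain ⟨CL, hCL⟩ := npr_Ls
  let K : ℝ := 2 / c1 + 1
  have hK : 1 ≤ K := by
    have : 0 < 2 / c1 := by positivity
    linarith
  have hK0 : 0 < K := by linarith
  have hKc : 1 / K ≤ c1 / 2 := by
    rw [div_le_div_iff₀ hK0 (by norm_num)]
    have : c1 * K = 2 + c1 := by
      show c1 * (2 / c1 + 1) = 2 + c1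
      field_simp
    linarith
  let B0 : ℝ := Real.exp ((2 * K) ^ 2)
  refine ⟨c1 / 4, C1 + 2 * CL / K + c1 / 2 * Real.log K, B0, by positivity, fun B hB t ht => ?_⟩
  have hB1 : 1 ≤ B := by
    have : 1 ≤ B0 := Real.one_le_exp (by positivity)
    linarith
  have hBp : 0 < B := by linarith
  have hL : (2 * K) ^ 2 ≤ Real.log B := by
    rw [Real.le_log_iff_exp_le hBp]
    exact hB
  have hLp : 0 < Real.log B := lt_of_lt_of_le (by positivity) hL
  have hsq : 2 * K ≤ Real.sqrt (Real.log B) := Real.le_sqrt_of_sq_le hL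
  let B' : ℝ := Real.exp (Real.sqrt (Real.log B) / K)
  have hB'3 : 3 ≤ B' := by
    have h2 : (2 : ℝ) ≤ Real.sqrt (Real.log B) / K := by
      rw [le_div_iff₀ hK0]
      exact hsq
    have h3 : Real.sqrt (Real.log B) / K + 1 ≤ B' := Real.add_one_le_exp _
    linarith
  have hsqle : Real.sqrt (Real.log B) ≤ Real.log B := by
    have h2 : (1 : ℝ) ≤ Real.log B := by nlinarith
    have h3 : Real.sqrt (Real.log B) * Real.sqrt (Real.log B) = Real.log B :=
      Real.mul_self_sqrt hLp.le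
    nlinarith
  have hB'B : B' ≤ B := by
    have h2 : Real.sqrt (Real.log B) / K ≤ Real.log B :=
      (div_le_self (Real.sqrt_nonneg _) hK).trans hsqle
    calc B' ≤ Real.exp (Real.log B) := Real.exp_le_exp.2 h2
      _ = B := Real.exp_log hBp
  have hsub : PP 2 B' ⊆ PP 2 B := by
    intro w hw
    rw [mem_PP] at hw ⊢
    exact ⟨hw.1, hw.2.1.trans hB'B, hw.2.2⟩
  have hmono : nprS χ B' t ≤ nprS χ B t := by
    unfold nprS
    refine sum_le_sum_of_subset_of_nonneg hsub fun w _ _ => ?_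
    exact div_nonneg (add_nonneg (npr_pos χ hχ.le t w w).1 (npr_pos χ hχ.le t (fl w) w).1)
      (Nat.cast_nonneg _)
  have hterm : ∑ w ∈ PP 2 B', ((1 + (χ w).re) + (1 + (χ (fl w)).re)) / (nm w : ℝ) -
      2 / K * Ls 2 B' ≤ nprS χ B' t := by
    unfold nprS Ls
    rw [mul_sum, ← sum_sub_distrib]
    refine sum_le_sum fun w hw => ?_
    have hw' := mem_PP.1 hw
    have hn0 : (0 : ℝ) < (nm w : ℝ) := by linarith [hw'.1]
    have hlogw : Real.log (nm w) ≤ Real.sqrt (Real.log B) / K := by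
      rw [Real.log_le_iff_le_exp hn0]
      exact hw'.2.1
    have hlog0 : 0 ≤ Real.log (nm w) := Real.log_nonneg (by linarith [hw'.1])
    have hE : ‖nprE t w - 1‖ ≤ 1 / K := by
      have e : nprE t w = Complex.exp (Complex.I * ((-(t * Real.log (nm w)) : ℝ) : ℂ)) := by
        unfold nprE
        congr 1
        push_cast
        ring
      rw [e]
      refine (Real.norm_exp_I_mul_ofReal_sub_one_le).trans ?_
      rw [norm_neg, Real.norm_eq_abs, abs_mul, abs_of_nonneg hlog0]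
      calc |t| * Real.log (nm w) ≤ |t| * (Real.sqrt (Real.log B) / K) :=
            mul_le_mul_of_nonneg_left hlogw (abs_nonneg t)
        _ = |t| * Real.sqrt (Real.log B) / K := by ring
        _ ≤ 1 / K := div_le_div_of_nonneg_right ht hK0.le
    have key : ∀ v : G, (χ v).re - 1 / K ≤ (χ v * nprE t w).re := by
      intro v
      have h2 : ‖χ v * nprE t w - χ v‖ ≤ 1 / K := by
        have h3 : χ v * nprE t w - χ v = χ v * (nprE t w - 1) := by ring
        rw [h3, norm_mul]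
        calc ‖χ v‖ * ‖nprE t w - 1‖ ≤ 1 * (1 / K) :=
              mul_le_mul (hχ.le v) hE (norm_nonneg _) (by norm_num)
          _ = 1 / K := one_mul _
      have h4 := (abs_le.1 ((Complex.abs_re_le_norm _).trans h2)).1
      rw [Complex.sub_re] at h4
      linarith
    have k1 := key w
    have k2 := key (fl w)
    rw [mul_one_div, ← sub_div]
    refine div_le_div_of_nonneg_right ?_ hn0.le
    have e5 : 2 / K = 1 / K + 1 / K := by ring
    rw [e5]
    linarith
  have h5 := hdef B' hB'3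
  have h6 := (hCL B' hB'3).2
  have hlogB' : Real.log B' = Real.sqrt (Real.log B) / K := Real.log_exp _
  have hll : Real.log (Real.log B') = Real.log (Real.log B) / 2 - Real.log K := by
    rw [hlogB', Real.log_div (by positivity) hK0.ne', Real.log_sqrt hLp.le]
  have hllp : 0 ≤ Real.log (Real.log B') := by
    apply Real.log_nonneg
    rw [hlogB', le_div_iff₀ hK0]
    linarith
  have h7 : 2 / K * Ls 2 B' ≤ 2 / K * (Real.log (Real.log B') / 2 + CL) :=
    mul_le_mul_of_nonneg_left h6 (by positivity)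
  have h8 : 2 / K * (Real.log (Real.log B') / 2 + CL) =
      1 / K * Real.log (Real.log B') + 2 * CL / K := by ring
  have h9 : 1 / K * Real.log (Real.log B') ≤ c1 / 2 * Real.log (Real.log B') :=
    mul_le_mul_of_nonneg_right hKc hllp
  have h10 : c1 / 2 * Real.log (Real.log B') =
      c1 / 4 * Real.log (Real.log B) - c1 / 2 * Real.log K := by rw [hll]; ring
  linarith

/-- PROOF. `FL χ w = - χ w` and `FL χ (star w) = - χ (star w) = - χ (fl w)` (`fl w = ii star w`, `χ ii = 1`) for `w ∈ PP` (prime norm). With `2 Ls 2 B = ∑ 2 / nm w ~ log log B` (`Ls_bounds`) it suffices to find `c > 0`, `C`, independent of `t`, `B`, with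
`∑_w ((1 + Re (χ w e_w)) + (1 + Re (χ (fl w) e_w))) / nm w ≥ c log log B - C`, `e_w = exp (-i t log nm w)`, for `|t| ≤ T0`. Let `L = log B`.
(a) `|t| ≥ L^(-1/2)`: for `nm w > D²` (`chi_norm`, `Inv D w`) `u = χ w e_w` has modulus 1 and `u^(2 n0) = exp (-i 2 n0 t log nm w)` (`chi_order`): by `pow_defect` the sum is `≥ (2 n0)^(-2) ∑_(D² < nm w ≤ B) 2 (1 - cos (2 n0 t log nm w)) / nm w`, and `zsum` with `τ = n0 t`, `T = ⌊B⌋₊`
(`PT T` = norms of `PP 2 B`) gives `≥ (2 n0)^(-2) 2 (Ls 2 B - log (1/|τ|) / 2 - C)` with `log (1/|τ|) ≤ (1/2) log L`: `≥ c log L - C`.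
(b) `|t| < L^(-1/2)`: only the primes `nm w ≤ B' = exp (K^(-1) L^(1/2))`, where `|e_w - 1| ≤ |t| log nm w ≤ 1/K`: the sum is at least `char_def` for `B'`, minus `(1/K) 2 Ls 2 B'`; `log log B' = (1/2) log L - log K`; choose `K` large compared with `1/c`. -/
theorem nonpret (D : ℕ) (hD : 0 < D) (χ : G → ℂ) (hχ : Chi D χ) (h1 : χ ii = 1) : ∃ c0 : ℝ, 0 < c0 ∧ ∀ T0 : ℝ, ∃ B0 : ℝ, ∀ B : ℝ, B0 ≤ B →
    ∀ t : ℝ, |t| ≤ T0 → (mult (FL χ) 2 B t).re ≤ (1 - c0) * (2 * Ls 2 B) := by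
  obtain ⟨ca, hca, Ha⟩ := npr_large D hD χ hχ
  obtain ⟨cb, Cb, Bb, hcb, Hb⟩ := npr_small D hD χ hχ h1
  obtain ⟨CL, hCL⟩ := npr_Ls
  let c : ℝ := min ca cb
  have hc : 0 < c := lt_min hca hcb
  refine ⟨c / 2, by positivity, fun T0 => ?_⟩
  obtain ⟨Ca, hCa⟩ := Ha T0
  let M : ℝ := max (2 / c * (max Ca Cb + c * CL)) 0
  refine ⟨max (max 3 Bb) (Real.exp (Real.exp M)), fun B hB t ht => ?_⟩
  have hB3 : 3 ≤ B := (le_max_left _ _).trans ((le_max_left _ _).trans hB)
  have hBb : Bb ≤ B := (le_max_right _ _).trans ((le_max_left _ _).trans hB)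
  have hBM : Real.exp (Real.exp M) ≤ B := (le_max_right _ _).trans hB
  have hBp : 0 < B := by linarith
  have hLM : Real.exp M ≤ Real.log B := by
    rw [Real.le_log_iff_exp_le hBp]
    exact hBM
  have hLp : 0 < Real.log B := lt_of_lt_of_le (Real.exp_pos _) hLM
  have hll : M ≤ Real.log (Real.log B) := by
    rw [Real.le_log_iff_exp_le hLp]
    exact hLM
  have hll0 : 0 ≤ Real.log (Real.log B) := (le_max_right _ _).trans hll
  have hS : c * Real.log (Real.log B) - max Ca Cb ≤ nprS χ B t := by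
    by_cases hcase : |t| * Real.sqrt (Real.log B) ≤ 1
    · have h2 := Hb B hBb t hcase
      have h3 : c * Real.log (Real.log B) ≤ cb * Real.log (Real.log B) :=
        mul_le_mul_of_nonneg_right (min_le_right _ _) hll0
      have h4 := le_max_right Ca Cb
      linarith
    · push Not at hcase
      have ht0 : t ≠ 0 := by
        rintro rfl
        rw [abs_zero, zero_mul] at hcase
        linarith
      have htp : 0 < |t| := abs_pos.2 ht0
      have h2 := hCa B hB3 t ht ht0 (by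
        rw [← Real.log_sqrt hLp.le]
        apply Real.log_le_log (by positivity)
        rw [div_le_iff₀ htp]
        linarith)
      have h3 : c * Real.log (Real.log B) ≤ ca * Real.log (Real.log B) :=
        mul_le_mul_of_nonneg_right (min_le_left _ _) hll0
      have h4 := le_max_left Ca Cb
      linarith
  rw [npr_mult D χ hχ h1 B t]
  have h5 := (hCL B hB3).2
  have h6 : 2 / c * (max Ca Cb + c * CL) ≤ Real.log (Real.log B) := (le_max_left _ _).trans hll
  have h7 : max Ca Cb + c * CL ≤ c / 2 * Real.log (Real.log B) := by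
    have h8 : c / 2 * (2 / c * (max Ca Cb + c * CL)) ≤ c / 2 * Real.log (Real.log B) :=
      mul_le_mul_of_nonneg_left h6 (by positivity)
    have h9 : c / 2 * (2 / c * (max Ca Cb + c * CL)) = max Ca Cb + c * CL := by
      field_simp
    linarith
  have h10 : c / 2 * (2 * Ls 2 B) ≤ c / 2 * (Real.log (Real.log B) + 2 * CL) :=
    mul_le_mul_of_nonneg_left (by linarith) (by positivity)
  nlinarith

end Pool.Agent.ECM
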