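import Pool.Agent.Lib_MP_f1a94e_ecm.MDefs
import Pool.Agent.Lib_MP_f1a94e_mr.WSum
import Pool.Agent.Lib_MP_f1a94e_mr.LS

/-!
# Piece M-ORTH: large sieve for few frequencies
-/

set_option autoImplicit false

namespace Pool.Agent.ECM

open Finset Pool.Agent.GaussMR Pool.Agent.GaussCM Pool.Agent.OmAll

/-- expanding the square of the dual form -/
private theorem orth_expand (Z : ℝ) (S : Finset ℤ) (b : ℤ → ℂ) :
    ((∑ z ∈ V Z, ‖∑ k ∈ S, b k * xi (-k) z‖ ^ 2 : ℝ) : ℂ) =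
      ∑ k ∈ S, ∑ l ∈ S, b k * (starRingEnd ℂ) (b l) * ∑ z ∈ V Z, xi (l - k) z := by
  have h1 : ∀ z ∈ V Z, ((‖∑ k ∈ S, b k * xi (-k) z‖ ^ 2 : ℝ) : ℂ) =
      ∑ k ∈ S, ∑ l ∈ S, b k * (starRingEnd ℂ) (b l) * xi (l - k) z := by
    intro z hz
    rw [← Complex.normSq_eq_norm_sq, ← Complex.mul_conj, map_sum, Finset.sum_mul_sum]
    refine Finset.sum_congr rfl fun k _ => Finset.sum_congr rfl fun l _ => ?_
    rw [map_mul, conj_xi _ (V_ne_zero hz), neg_neg, sub_eq_add_neg, xi_add _ _ (V_ne_zero hz)]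
    ring
  rw [Complex.ofReal_sum, Finset.sum_congr rfl h1, Finset.sum_comm]
  refine Finset.sum_congr rfl fun k _ => ?_
  rw [Finset.sum_comm]
  refine Finset.sum_congr rfl fun l _ => ?_
  rw [Finset.mul_sum]

/-- the dual form, abstractly -/
private theorem orth_dual {S : Finset ℤ} {Z A B : ℝ} (hB : 0 ≤ B)
    (h0 : ((V Z).card : ℝ) ≤ A)
    (h1 : ∀ k ∈ S, ∀ l ∈ S, k ≠ l → ‖∑ z ∈ V Z, xi (l - k) z‖ ≤ B) (b : ℤ → ℂ) :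
    ∑ z ∈ V Z, ‖∑ k ∈ S, b k * xi (-k) z‖ ^ 2 ≤ (A + B * S.card) * ∑ k ∈ S, ‖b k‖ ^ 2 := by
  have h2 : ∑ z ∈ V Z, ‖∑ k ∈ S, b k * xi (-k) z‖ ^ 2 =
      ‖∑ k ∈ S, ∑ l ∈ S, b k * (starRingEnd ℂ) (b l) * ∑ z ∈ V Z, xi (l - k) z‖ := by
    rw [← orth_expand, Complex.norm_real, Real.norm_of_nonneg]
    exact Finset.sum_nonneg fun z _ => by positivity
  rw [h2]
  have h3 : ∀ k ∈ S, ∀ l ∈ S, ‖b k * (starRingEnd ℂ) (b l) * ∑ z ∈ V Z, xi (l - k) z‖ ≤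
      (if k = l then A * ‖b k‖ ^ 2 else 0) + B * (‖b k‖ * ‖b l‖) := by
    intro k hk l hl
    rw [norm_mul, norm_mul, Complex.norm_conj]
    have hbb : 0 ≤ ‖b k‖ * ‖b l‖ := by positivity
    split_ifs with hkl
    · subst hkl
      have h4 : ‖∑ z ∈ V Z, xi (k - k) z‖ ≤ A := by
        rw [sub_self]
        simp only [xi_zero, Finset.sum_const, nsmul_eq_mul, mul_one]
        rw [Complex.norm_natCast]
        exact h0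
      have h5 := mul_le_mul_of_nonneg_left h4 hbb
      have h6 : 0 ≤ B * (‖b k‖ * ‖b k‖) := by positivity
      nlinarith
    · rw [zero_add, mul_comm B]
      exact mul_le_mul_of_nonneg_left (h1 k hk l hl hkl) hbb
  have h4 : ∑ k ∈ S, ∑ l ∈ S, ((if k = l then A * ‖b k‖ ^ 2 else 0) + B * (‖b k‖ * ‖b l‖)) =
      A * ∑ k ∈ S, ‖b k‖ ^ 2 + B * (∑ k ∈ S, ‖b k‖) ^ 2 := by
    simp_rw [Finset.sum_add_distrib, ← Finset.mul_sum]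
    congr 1
    · rw [Finset.mul_sum]
      refine Finset.sum_congr rfl fun k hk => ?_
      rw [Finset.sum_ite_eq, if_pos hk]
    · rw [← Finset.sum_mul, sq]
  have h5 : (∑ k ∈ S, ‖b k‖) ^ 2 ≤ S.card * ∑ k ∈ S, ‖b k‖ ^ 2 := sq_sum_le_card_mul_sum_sq
  calc ‖∑ k ∈ S, ∑ l ∈ S, b k * (starRingEnd ℂ) (b l) * ∑ z ∈ V Z, xi (l - k) z‖ ≤
        ∑ k ∈ S, ∑ l ∈ S, ‖b k * (starRingEnd ℂ) (b l) * ∑ z ∈ V Z, xi (l - k) z‖ :=
          (norm_sum_le _ _).trans (Finset.sum_le_sum fun k _ => norm_sum_le _ _)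
    _ ≤ ∑ k ∈ S, ∑ l ∈ S, ((if k = l then A * ‖b k‖ ^ 2 else 0) + B * (‖b k‖ * ‖b l‖)) :=
          Finset.sum_le_sum fun k hk => Finset.sum_le_sum fun l hl => h3 k hk l hl
    _ = A * ∑ k ∈ S, ‖b k‖ ^ 2 + B * (∑ k ∈ S, ‖b k‖) ^ 2 := h4
    _ ≤ A * ∑ k ∈ S, ‖b k‖ ^ 2 + B * (S.card * ∑ k ∈ S, ‖b k‖ ^ 2) := by
          have := mul_le_mul_of_nonneg_left h5 hB
          linarith
    _ = (A + B * S.card) * ∑ k ∈ S, ‖b k‖ ^ 2 := by ring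

/-- duality -/
private theorem orth_primal {S : Finset ℤ} {Z Δ : ℝ} (hΔ : 0 ≤ Δ)
    (h : ∀ b : ℤ → ℂ, ∑ z ∈ V Z, ‖∑ k ∈ S, b k * xi (-k) z‖ ^ 2 ≤ Δ * ∑ k ∈ S, ‖b k‖ ^ 2)
    (a : G → ℂ) :
    ∑ k ∈ S, ‖∑ z ∈ V Z, a z * xi (-k) z‖ ^ 2 ≤ Δ * ∑ z ∈ V Z, ‖a z‖ ^ 2 := by
  set T := ∑ k ∈ S, ‖∑ z ∈ V Z, a z * xi (-k) z‖ ^ 2 with hT
  set U := ∑ z ∈ V Z, ‖a z‖ ^ 2 with hU
  have hT0 : 0 ≤ T := Finset.sum_nonneg fun k _ => by positivity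
  have hU0 : 0 ≤ U := Finset.sum_nonneg fun k _ => by positivity
  set b : ℤ → ℂ := fun k => (starRingEnd ℂ) (∑ z ∈ V Z, a z * xi (-k) z) with hb
  have h1 : (T : ℂ) = ∑ z ∈ V Z, a z * ∑ k ∈ S, b k * xi (-k) z := by
    rw [hT, Complex.ofReal_sum]
    simp_rw [Finset.mul_sum]
    rw [Finset.sum_comm]
    refine Finset.sum_congr rfl fun k _ => ?_
    rw [← Complex.normSq_eq_norm_sq, ← Complex.mul_conj, Finset.sum_mul]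
    refine Finset.sum_congr rfl fun z _ => ?_
    ring
  have h2 : T ≤ ∑ z ∈ V Z, ‖a z‖ * ‖∑ k ∈ S, b k * xi (-k) z‖ := by
    have h3 : T = ‖(T : ℂ)‖ := by rw [Complex.norm_real, Real.norm_of_nonneg hT0]
    rw [h3, h1]
    refine (norm_sum_le _ _).trans (Finset.sum_le_sum fun z _ => ?_)
    rw [norm_mul]
  have h3 : (∑ z ∈ V Z, ‖a z‖ * ‖∑ k ∈ S, b k * xi (-k) z‖) ^ 2 ≤
      U * ∑ z ∈ V Z, ‖∑ k ∈ S, b k * xi (-k) z‖ ^ 2 := Finset.sum_mul_sq_le_sq_mul_sq _ _ _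
  have h4 : ∑ k ∈ S, ‖b k‖ ^ 2 = T := by
    rw [hT]
    refine Finset.sum_congr rfl fun k _ => ?_
    rw [hb]
    simp only
    rw [Complex.norm_conj]
  have h5 := h b
  rw [h4] at h5
  have h6 : T ^ 2 ≤ U * (Δ * T) :=
    (pow_le_pow_left₀ hT0 h2 2).trans (h3.trans (mul_le_mul_of_nonneg_left h5 hU0))
  rcases hT0.eq_or_lt with h7 | h7
  · rw [← h7]; positivity
  · have h8 : T * T ≤ (Δ * U) * T := by nlinarith
    exact le_of_mul_le_mul_right h8 h7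

/-- Duality (`dual`: the inequality for `a` with constant `Δ` follows from `∑_(z ∈ V Z) |∑_(k ∈ S) b k xi (-k) z|² ≤ Δ ∑ |b k|²`: take `b k = conj (inner sum)` and Cauchy-Schwarz). Expanding the square:
`∑_(k,k') b k conj (b k') ∑_(z ∈ V Z) xi (k' - k) z`; the diagonal is `card (V Z) ∑|b|² ≤ C Z ∑ |b|²`, off the diagonal `0 < |k' - k| ≤ 2 X ≤ Z^(21/10)` so `|∑_z| ≤ C Z^(1 - 1/16000)` (`w_V`) and
`(∑ |b|)² ≤ #S ∑ |b|²`, `#S Z^(-1/16000) ≤ X^δ X^(-1/32000) ≤ 1` for `δ = 1/32000`. -/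
theorem orth : ∃ δ C X0 : ℝ, 0 < δ ∧ 0 < C ∧ ∀ X Z : ℝ, X0 ≤ X → X ^ (1 / 2 : ℝ) ≤ Z → ∀ S : Finset ℤ, (∀ k ∈ S, |(k : ℝ)| ≤ X) →
    (S.card : ℝ) ≤ X ^ δ → ∀ a : G → ℂ,
    ∑ k ∈ S, ‖∑ z ∈ V Z, a z * xi (-k) z‖ ^ 2 ≤ C * Z * ∑ z ∈ V Z, ‖a z‖ ^ 2 := by
  obtain ⟨C0, hC0, hw⟩ := w_V
  refine ⟨1 / 32000, 9 + C0, 2 ^ 20, by norm_num, by positivity, ?_⟩
  intro X Z hX hXZ S hS hcard a
  have hX0 : 0 < X := lt_of_lt_of_le (by norm_num) hX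
  have hZ : 1024 ≤ Z := by
    refine le_trans ?_ hXZ
    have h1 : (1024 : ℝ) = ((2 : ℝ) ^ 20) ^ (1 / 2 : ℝ) := by
      rw [← Real.sqrt_eq_rpow]
      rw [show ((2 : ℝ) ^ 20) = 1024 ^ 2 by norm_num, Real.sqrt_sq (by norm_num)]
    rw [h1]
    exact Real.rpow_le_rpow (by norm_num) hX (by norm_num)
  have hZ0 : 0 < Z := by linarith
  have hZ1 : 1 ≤ Z := by linarith
  have hXZ2 : X ≤ Z ^ (2 : ℝ) := by
    have h1 := Real.rpow_le_rpow (Real.rpow_nonneg hX0.le _) hXZ (by norm_num : (0 : ℝ) ≤ 2)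
    rw [← Real.rpow_mul hX0.le] at h1
    norm_num at h1
    exact_mod_cast h1
  have hfr : 2 * X ≤ Z ^ (21 / 10 : ℝ) := by
    have h1 : (21 / 10 : ℝ) = 2 + 1 / 10 := by norm_num
    rw [h1, Real.rpow_add hZ0]
    have h2 : (2 : ℝ) ≤ Z ^ (1 / 10 : ℝ) := by
      have h3 : (2 : ℝ) = (1024 : ℝ) ^ (1 / 10 : ℝ) := by
        rw [show (1024 : ℝ) = (2 : ℝ) ^ (10 : ℝ) by norm_num, ← Real.rpow_mul (by norm_num)]
        norm_num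
      calc (2 : ℝ) = (1024 : ℝ) ^ (1 / 10 : ℝ) := h3
        _ ≤ Z ^ (1 / 10 : ℝ) := Real.rpow_le_rpow (by norm_num) hZ (by norm_num)
    have h4 : 0 ≤ Z ^ (2 : ℝ) := Real.rpow_nonneg hZ0.le _
    calc 2 * X ≤ 2 * Z ^ (2 : ℝ) := by linarith
      _ = Z ^ (2 : ℝ) * 2 := mul_comm _ _
      _ ≤ Z ^ (2 : ℝ) * Z ^ (1 / 10 : ℝ) := mul_le_mul_of_nonneg_left h2 h4
  have hB : 0 ≤ C0 * Z ^ (1 - 1 / 16000 : ℝ) := mul_nonneg hC0.le (Real.rpow_nonneg hZ0.le _)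
  have hoff : ∀ k ∈ S, ∀ l ∈ S, k ≠ l → ‖∑ z ∈ V Z, xi (l - k) z‖ ≤
      C0 * Z ^ (1 - 1 / 16000 : ℝ) := by
    intro k hk l hl hkl
    refine hw Z (l - k) hZ1 (sub_ne_zero.2 (Ne.symm hkl)) ?_
    refine le_trans ?_ hfr
    push_cast
    have h1 := hS k hk
    have h2 := hS l hl
    calc |(l : ℝ) - k| ≤ |(l : ℝ)| + |(k : ℝ)| := abs_sub _ _
      _ ≤ 2 * X := by linarith
  have hdual := orth_dual (S := S) (Z := Z) (A := 9 * Z) (B := C0 * Z ^ (1 - 1 / 16000 : ℝ))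
    hB (card_V_le Z hZ0.le) hoff
  have hcz : Z ^ (1 - 1 / 16000 : ℝ) * S.card ≤ Z := by
    have h1 : (S.card : ℝ) ≤ Z ^ (1 / 16000 : ℝ) := by
      refine hcard.trans ?_
      have h2 := Real.rpow_le_rpow hX0.le hXZ2 (by norm_num : (0 : ℝ) ≤ 1 / 32000)
      rw [← Real.rpow_mul hZ0.le] at h2
      norm_num at h2 ⊢
      exact h2
    calc Z ^ (1 - 1 / 16000 : ℝ) * S.card ≤ Z ^ (1 - 1 / 16000 : ℝ) * Z ^ (1 / 16000 : ℝ) :=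
          mul_le_mul_of_nonneg_left h1 (Real.rpow_nonneg hZ0.le _)
      _ = Z := by
          rw [← Real.rpow_add hZ0]
          norm_num
  have hΔ : 9 * Z + C0 * Z ^ (1 - 1 / 16000 : ℝ) * S.card ≤ (9 + C0) * Z := by
    have := mul_le_mul_of_nonneg_left hcz hC0.le
    nlinarith
  exact orth_primal (Δ := (9 + C0) * Z) (by positivity) (fun b => (hdual b).trans
    (mul_le_mul_of_nonneg_right hΔ (Finset.sum_nonneg fun k _ => by positivity))) a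

end Pool.Agent.ECM
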