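import Pool.Agent.Lib_MP_f1a94e_ecm.MDefs

/-!
# Piece M-PARS: Parseval for arcs
-/

set_option autoImplicit false

namespace Pool.Agent.ECM

open Finset Pool.Agent.GaussMR Pool.Agent.GaussCM Pool.Agent.OmAll

/-- bound for the Fourier coefficients of the indicator function of an arc of length `w` -/
noncomputable def mw (w : ℝ) (n : ℤ) : ℝ := if n = 0 then w / (2 * Real.pi) else min (w / (2 * Real.pi)) (1 / (Real.pi * |(n : ℝ)|))

/-- the set of the directions of the arcs which contain `z` -/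
private def parsA (w : ℝ) (z : G) : Set ℝ := {θ | InArc θ w z}

private theorem parsA_meas (w : ℝ) (z : G) : MeasurableSet (parsA w z) := by
  have h : parsA w z = ⋃ j : ℤ, Set.Ioc (Complex.arg (z : ℂ) + 2 * Real.pi * j - w)
      (Complex.arg (z : ℂ) + 2 * Real.pi * j) := by
    ext θ
    simp only [parsA, InArc, Set.mem_setOf_eq, Set.mem_iUnion, Set.mem_Ioc]
    refine exists_congr fun j => ?_
    constructor
    · rintro ⟨h1, h2⟩; exact ⟨by linarith, h1⟩
    · rintro ⟨h1, h2⟩; exact ⟨h2, by linarith⟩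
  rw [h]
  exact MeasurableSet.iUnion fun j => measurableSet_Ioc

private theorem parsA_per (w : ℝ) (z : G) (θ : ℝ) :
    θ + 2 * Real.pi ∈ parsA w z ↔ θ ∈ parsA w z := by
  constructor
  · rintro ⟨j, h1, h2⟩
    refine ⟨j - 1, ?_, ?_⟩
    · push_cast; linarith
    · push_cast; linarith
  · rintro ⟨j, h1, h2⟩
    refine ⟨j + 1, ?_, ?_⟩
    · push_cast; linarith
    · push_cast; linarith

private theorem parsA_loc {w : ℝ} (z : G) {θ : ℝ} (h1 : Complex.arg (z : ℂ) - w < θ)
    (h2 : θ ≤ Complex.arg (z : ℂ) - w + 2 * Real.pi) :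
    θ ∈ parsA w z ↔ θ ≤ Complex.arg (z : ℂ) := by
  have hpi := Real.pi_pos
  constructor
  · rintro ⟨j, h3, h4⟩
    have h5 : 2 * Real.pi * j < 2 * Real.pi * 1 := by linarith
    have h6 : (j : ℝ) < 1 := lt_of_mul_lt_mul_left h5 (by positivity)
    have h7 : j ≤ 0 := by
      have : j < 1 := by exact_mod_cast h6
      omega
    have h8 : (j : ℝ) ≤ 0 := by exact_mod_cast h7
    have h9 : 2 * Real.pi * j ≤ 0 := mul_nonpos_of_nonneg_of_nonpos (by positivity) h8
    linarith
  · intro h3
    refine ⟨0, ?_, ?_⟩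
    · push_cast; linarith
    · push_cast; linarith

/-- the exponential -/
private noncomputable def parsE (n : ℤ) (x : ℝ) : ℂ := Complex.exp (-(Complex.I * n) * x)

private theorem parsE_cont (n : ℤ) : Continuous (parsE n) := by
  unfold parsE
  fun_prop

private theorem parsE_norm (n : ℤ) (x : ℝ) : ‖parsE n x‖ = 1 := by
  unfold parsE
  have h : -(Complex.I * n) * x = ((-(n * x) : ℝ) : ℂ) * Complex.I := by push_cast; ring
  rw [h, Complex.norm_exp_ofReal_mul_I]

private theorem parsE_add (n : ℤ) (x y : ℝ) : parsE n (x + y) = parsE n x * parsE n y := by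
  unfold parsE
  rw [← Complex.exp_add]
  congr 1
  push_cast
  ring

private theorem parsE_per (n : ℤ) (x : ℝ) : parsE n (x + 2 * Real.pi) = parsE n x := by
  rw [parsE_add]
  have h : parsE n (2 * Real.pi) = 1 := by
    unfold parsE
    rw [Complex.exp_eq_one_iff]
    exact ⟨-n, by push_cast; ring⟩
  rw [h, mul_one]

private theorem pars_xi {z : G} (hz : z ≠ 0) (n : ℤ) :
    xi (-n) z = parsE n (Complex.arg (z : ℂ)) := by
  have h1 : dir z = Complex.exp (Complex.arg (z : ℂ) * Complex.I) := by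
    have h2 : ((‖(z : ℂ)‖ : ℝ) : ℂ) ≠ 0 := by
      exact_mod_cast (norm_pos hz).ne'
    unfold dir
    rw [div_eq_iff h2, mul_comm]
    exact (Complex.norm_mul_exp_arg_mul_I (z : ℂ)).symm
  unfold xi parsE
  rw [h1, ← Complex.exp_int_mul]
  congr 1
  push_cast
  ring

/-- the Fourier coefficient of an arc which ends at `0` -/
private noncomputable def parsg (w : ℝ) (n : ℤ) : ℂ := ∫ x in (-w)..(0 : ℝ), parsE n x

private theorem parsg_norm {w : ℝ} (hw : 0 < w) (n : ℤ) :
    ‖parsg w n‖ ≤ 2 * Real.pi * mw w n := by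
  have hpi := Real.pi_pos
  have h1 : ‖parsg w n‖ ≤ w := by
    unfold parsg
    have h2 := intervalIntegral.norm_integral_le_of_norm_le_const (a := -w) (b := 0) (C := 1)
      (f := parsE n) (fun x _ => (parsE_norm n x).le)
    rwa [sub_neg_eq_add, zero_add, one_mul, abs_of_pos hw] at h2
  have h3 : 2 * Real.pi * (w / (2 * Real.pi)) = w := by field_simp
  unfold mw
  split_ifs with hn
  · rw [h3]; exact h1
  · rw [mul_min_of_nonneg _ _ (by positivity : (0 : ℝ) ≤ 2 * Real.pi), h3]
    refine le_min h1 ?_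
    have hn0 : (0 : ℝ) < |(n : ℝ)| := abs_pos.2 (by exact_mod_cast hn)
    have hc : -(Complex.I * (n : ℂ)) ≠ 0 := by
      rw [neg_ne_zero]
      exact mul_ne_zero Complex.I_ne_zero (by exact_mod_cast hn)
    have h4 : parsg w n = (parsE n 0 - parsE n (-w)) / (-(Complex.I * (n : ℂ))) := by
      unfold parsg parsE
      rw [integral_exp_mul_complex hc]
    have h5 : ‖-(Complex.I * (n : ℂ))‖ = |(n : ℝ)| := by
      rw [norm_neg, norm_mul, Complex.norm_I, one_mul, Complex.norm_intCast]
    rw [h4, norm_div, h5, div_le_iff₀ hn0]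
    calc ‖parsE n 0 - parsE n (-w)‖ ≤ ‖parsE n 0‖ + ‖parsE n (-w)‖ := norm_sub_le _ _
      _ = 2 := by rw [parsE_norm, parsE_norm]; norm_num
      _ = 2 * Real.pi * (1 / (Real.pi * |(n : ℝ)|)) * |(n : ℝ)| := by field_simp

/-- the coefficient of one arc -/
private theorem pars_one {w : ℝ} (hw : 0 < w) (hw1 : w < 2 * Real.pi) (z : G) (n : ℤ) :
    ∫ x in (0 : ℝ)..(2 * Real.pi), (parsA w z).indicator (parsE n) x =
      parsE n (Complex.arg (z : ℂ)) * parsg w n := by
  have hpi := Real.pi_pos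
  set φ := Complex.arg (z : ℂ) with hφ
  have hper : Function.Periodic ((parsA w z).indicator (parsE n)) (2 * Real.pi) := by
    intro x
    by_cases hx : x ∈ parsA w z
    · rw [Set.indicator_of_mem hx, Set.indicator_of_mem ((parsA_per w z x).2 hx), parsE_per]
    · rw [Set.indicator_of_notMem hx,
        Set.indicator_of_notMem (fun h => hx ((parsA_per w z x).1 h))]
  have h1 := hper.intervalIntegral_add_eq 0 (φ - w)
  rw [zero_add] at h1
  rw [h1]
  have h2 : ∫ x in (φ - w)..(φ - w + 2 * Real.pi), (parsA w z).indicator (parsE n) x =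
      ∫ x in (φ - w)..(φ - w + 2 * Real.pi), Set.indicator {x | x ≤ φ} (parsE n) x := by
    apply intervalIntegral.integral_congr_ae
    refine Filter.Eventually.of_forall fun x hx => ?_
    rw [Set.uIoc_of_le (by linarith)] at hx
    have h3 := parsA_loc z hx.1 hx.2
    by_cases hx1 : x ≤ φ
    · rw [Set.indicator_of_mem (h3.2 hx1), Set.indicator_of_mem (show x ∈ {x | x ≤ φ} from hx1)]
    · rw [Set.indicator_of_notMem (fun h => hx1 (h3.1 h)),
        Set.indicator_of_notMem (show x ∉ {x | x ≤ φ} from hx1)]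
  rw [h2, intervalIntegral.integral_indicator ⟨by linarith, by linarith⟩]
  have h4 := intervalIntegral.integral_comp_add_right (a := -w) (b := 0) (parsE n) φ
  rw [zero_add, neg_add_eq_sub] at h4
  rw [← h4]
  unfold parsg
  rw [← intervalIntegral.integral_const_mul]
  refine intervalIntegral.integral_congr fun x _ => ?_
  show parsE n (x + φ) = parsE n φ * parsE n x
  rw [parsE_add, mul_comm]

private theorem pars_arcS (F : G → ℂ) (X w θ : ℝ) :
    arcS F X w θ = ∑ z ∈ V X, F z * (parsA w z).indicator (fun _ => (1 : ℂ)) θ := by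
  unfold arcS
  refine Finset.sum_congr rfl fun z _ => ?_
  by_cases h : InArc θ w z
  · rw [if_pos h, Set.indicator_of_mem (show θ ∈ parsA w z from h), mul_one]
  · rw [if_neg h, Set.indicator_of_notMem (show θ ∉ parsA w z from h), mul_zero]

private theorem pars_meas (F : G → ℂ) (X w : ℝ) : Measurable (arcS F X w) := by
  have h : arcS F X w = fun θ => ∑ z ∈ V X, F z * (parsA w z).indicator (fun _ => (1 : ℂ)) θ :=
    funext fun θ => pars_arcS F X w θ
  rw [h]
  refine Finset.measurable_sum _ fun z _ => ?_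
  exact (measurable_const.indicator (parsA_meas w z)).const_mul (F z)

private theorem pars_coeff (F : G → ℂ) (X w : ℝ) (hw : 0 < w) (hw1 : w < 2 * Real.pi) (n : ℤ) :
    fourierCoeffOn (show (0 : ℝ) < 2 * Real.pi by positivity) (arcS F X w) n =
      (1 / (2 * Real.pi) : ℝ) • (fcC F X n * parsg w n) := by
  have hpi := Real.pi_pos
  rw [fourierCoeffOn_eq_integral]
  have h1 : ∀ x : ℝ, (fourier (-n) (x : AddCircle (2 * Real.pi - 0)) : ℂ) • arcS F X w x =
      ∑ z ∈ V X, F z * (parsA w z).indicator (parsE n) x := by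
    intro x
    have h2 : (fourier (-n) (x : AddCircle (2 * Real.pi - 0)) : ℂ) = parsE n x := by
      rw [fourier_coe_apply]
      unfold parsE
      congr 1
      rw [sub_zero]
      have h3 : (Real.pi : ℂ) ≠ 0 := by exact_mod_cast hpi.ne'
      push_cast
      field_simp
    rw [h2, pars_arcS, smul_eq_mul, Finset.mul_sum]
    refine Finset.sum_congr rfl fun z _ => ?_
    by_cases hx : x ∈ parsA w z
    · rw [Set.indicator_of_mem hx, Set.indicator_of_mem hx]; ring
    · rw [Set.indicator_of_notMem hx, Set.indicator_of_notMem hx]; ring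
  have h4 : ∫ x in (0 : ℝ)..(2 * Real.pi),
      (fourier (-n) (x : AddCircle (2 * Real.pi - 0)) : ℂ) • arcS F X w x =
      ∫ x in (0 : ℝ)..(2 * Real.pi), ∑ z ∈ V X, F z * (parsA w z).indicator (parsE n) x :=
    intervalIntegral.integral_congr fun x _ => h1 x
  rw [h4, sub_zero, intervalIntegral.integral_finset_sum]
  · congr 1
    unfold fcC
    rw [Finset.sum_mul]
    refine Finset.sum_congr rfl fun z hz => ?_
    rw [intervalIntegral.integral_const_mul, pars_one hw hw1, pars_xi (V_ne_zero hz)]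
    ring
  · intro z _
    have h5 : IntervalIntegrable ((parsA w z).indicator (parsE n)) MeasureTheory.volume 0
        (2 * Real.pi) := by
      have h6 := (parsE_cont n).intervalIntegrable 0 (2 * Real.pi) (μ := MeasureTheory.volume)
      rw [intervalIntegrable_iff] at h6 ⊢
      exact MeasureTheory.Integrable.indicator h6 (parsA_meas w z)
    exact h5.const_mul (F z)

/-- `arcS F X w` is `2 π`-periodic in `θ`, bounded and piecewise constant. For `0 < w < 2 π` the Fourier coefficient of `θ ↦ 1[InArc θ w z]` is `(1/2π) ∫_(arg z - w)^(arg z) exp (-i n θ) dθ = exp (-i n arg z) γ_n`, `|γ_n| = |sin (n w / 2)| / (π |n|)` (`w / 2π` for `n = 0`), so the `n`-th coefficient of `arcS F X w` is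
`γ_n ∑_(z ∈ V X) F z exp (-i n arg z) = γ_n fcC F X n` (`xi (-n) z = exp (-i n arg z)`), `|γ_n| ≤ mw w n`. Parseval (`tsum_sq_fourierCoeffOn` on `[0, 2π]`), all finite partial sums are at most `M`. -/
theorem pars (F : G → ℂ) (X w M : ℝ) (hw : 0 < w) (hw1 : w < 2 * Real.pi)
    (h : ∀ s : Finset ℤ, ∑ n ∈ s, (mw w n * ‖fcC F X n‖) ^ 2 ≤ M) :
    ∫ θ in (0 : ℝ)..(2 * Real.pi), ‖arcS F X w θ‖ ^ 2 ≤ 2 * Real.pi * M := by
  have hpi := Real.pi_pos
  have hab : (0 : ℝ) < 2 * Real.pi := by positivity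
  have hL2 : MeasureTheory.MemLp (arcS F X w) 2
      (MeasureTheory.volume.restrict (Set.Ioc 0 (2 * Real.pi))) := by
    refine MeasureTheory.MemLp.of_bound (pars_meas F X w).aestronglyMeasurable
      (∑ z ∈ V X, ‖F z‖) (Filter.Eventually.of_forall fun θ => ?_)
    rw [pars_arcS]
    refine (norm_sum_le _ _).trans (Finset.sum_le_sum fun z _ => ?_)
    rw [norm_mul]
    by_cases hx : θ ∈ parsA w z
    · rw [Set.indicator_of_mem hx, norm_one, mul_one]
    · rw [Set.indicator_of_notMem hx, norm_zero, mul_zero]; exact norm_nonneg _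
  have hP := hasSum_sq_fourierCoeffOn hab hL2
  have hM : (2 * Real.pi - 0)⁻¹ • ∫ θ in (0 : ℝ)..(2 * Real.pi), ‖arcS F X w θ‖ ^ 2 ≤ M := by
    refine hasSum_le_of_sum_le hP fun s => ?_
    refine le_trans (Finset.sum_le_sum fun n _ => ?_) (h s)
    refine pow_le_pow_left₀ (norm_nonneg _) ?_ 2
    rw [pars_coeff F X w hw hw1, norm_smul, norm_mul, Real.norm_of_nonneg (by positivity)]
    have h1 := parsg_norm hw n
    calc 1 / (2 * Real.pi) * (‖fcC F X n‖ * ‖parsg w n‖) ≤
        1 / (2 * Real.pi) * (‖fcC F X n‖ * (2 * Real.pi * mw w n)) := by gcongr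
      _ = mw w n * ‖fcC F X n‖ := by field_simp
  rw [sub_zero, smul_eq_mul, inv_mul_le_iff₀ hab] at hM
  exact hM

end Pool.Agent.ECM
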