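import Pool.Agent.Lib_MP_f1a94e_ecm.Deficit

/-!
# Piece M-RANGE1: the deficit over a long range
-/

set_option autoImplicit false

namespace Pool.Agent.ECM

open Finset Pool.Agent.GaussMR Pool.Agent.GaussCM Pool.Agent.OmAll

private theorem rangeA_re_le {D : ℕ} {χ : G → ℂ} (hχ : Chi D χ) (k : ℤ) {w : G} (hw : w ≠ 0) :
    0 ≤ 1 - (χ w * xi k w).re := by
  have h1 : (χ w * xi k w).re ≤ ‖χ w * xi k w‖ := Complex.re_le_norm _
  rw [norm_mul, norm_xi _ hw, mul_one] at h1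
  linarith [hχ.le w]

private theorem rangeA_term {D : ℕ} {χ : G → ℂ} (hχ : Chi D χ) (k : ℤ) {P Q : ℝ} {w : G} (hw : w ∈ PP P Q) :
    0 ≤ ((1 - (χ w * xi k w).re) + (1 - (χ (fl w) * xi k (fl w)).re)) / (nm w : ℝ) := by
  have h0 : w ≠ 0 := (PP_spl hw).prime.ne_zero
  have h1 : fl w ≠ 0 := by
    intro h
    have : nm (fl w) = 0 := by rw [h]; exact nm_zero
    rw [nm_fl] at this
    exact h0 (nm_eq_zero.1 this)
  have h2 := rangeA_re_le hχ k h0
  have h3 := rangeA_re_le hχ k h1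
  positivity

/-- Iterate `deficit` over disjoint ranges: `Y_j = X^(e a^j)`, `j < J`, `J` maximal with `e a^J ≥ e'`; so `J ≥ log (e/e') / log (1/a) - 1 ≥ c' log (e/e')` for `log (e/e') ≥ L0`. In every range `|k| ≤ 2 X ≤ Y_j^A` with `A = 2 / e'`. The `PP (Y_(j+1)) (Y_j)` are
disjoint subsets of `PP (X^e') (X^e)`, `Y_(j+1) = Y_j^a`. -/
theorem deficit_range : ∃ c L0 : ℝ, 0 < c ∧ 0 < L0 ∧ ∀ (D : ℕ) (e' e : ℝ), 0 < D → 0 < e' → e' < e → e ≤ 1 → L0 ≤ Real.log (e / e') →
    ∃ X0 : ℝ, ∀ X : ℝ, X0 ≤ X → ∀ χ : G → ℂ, Chi D χ → ∀ k : ℤ, (k ≠ 0 ∨ ¬ Pri D χ) → |(k : ℝ)| ≤ 2 * X → χ ii * xi k ii = 1 →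
    c * Real.log (e / e') ≤ ∑ w ∈ PP (X ^ e') (X ^ e), ((1 - (χ w * xi k w).re) + (1 - (χ (fl w) * xi k (fl w)).re)) / (nm w : ℝ) := by
  classical
  obtain ⟨a, c, ha, ha4, hc, hdef⟩ := deficit
  have hla : 0 < Real.log (1 / a) := by
    apply Real.log_pos
    rw [lt_div_iff₀ ha]
    linarith
  refine ⟨c / (2 * Real.log (1 / a)), 2 * Real.log (1 / a), by positivity, by positivity, ?_⟩
  intro D e' e hD he' hee he1 hL
  have he : 0 < e := he'.trans hee
  have hA : 1 ≤ 2 / e' := by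
    rw [le_div_iff₀ he']
    linarith
  obtain ⟨Y0, hY0⟩ := hdef D (2 / e') hD hA
  have htend : Filter.Tendsto (fun X : ℝ => X ^ e') Filter.atTop Filter.atTop := tendsto_rpow_atTop he'
  obtain ⟨X1, hX1⟩ := (Filter.tendsto_atTop_atTop.1 htend) Y0
  refine ⟨max X1 2, ?_⟩
  intro X hX χ hχ k hk hkX hχii
  have hXX1 : X1 ≤ X := (le_max_left _ _).trans hX
  have hX2 : (2 : ℝ) ≤ X := (le_max_right _ _).trans hX
  have hX1' : (1 : ℝ) ≤ X := by linarith
  have hX0 : (0 : ℝ) < X := by linarith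
  set t : G → ℝ := fun w => ((1 - (χ w * xi k w).re) + (1 - (χ (fl w) * xi k (fl w)).re)) / (nm w : ℝ) with ht
  -- one range
  have hone : ∀ b : ℝ, e' ≤ b → c ≤ ∑ w ∈ PP (X ^ (b * a)) (X ^ b), t w := by
    intro b hb
    have hb0 : 0 < b := he'.trans_le hb
    have h1 : X ^ (b * a) = (X ^ b) ^ a := Real.rpow_mul hX0.le _ _
    rw [h1]
    apply hY0 (X ^ b) ((hX1 X hXX1).trans (Real.rpow_le_rpow_of_exponent_le hX1' hb)) χ hχ k hk _ hχii
    calc |(k : ℝ)| ≤ 2 * X := hkX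
      _ ≤ X ^ (2 : ℝ) := by
          rw [Real.rpow_two]
          nlinarith
      _ ≤ X ^ (b * (2 / e')) := by
          apply Real.rpow_le_rpow_of_exponent_le hX1'
          rw [mul_div_assoc', le_div_iff₀ he']
          nlinarith
      _ = (X ^ b) ^ (2 / e') := Real.rpow_mul hX0.le _ _
  have hmono : ∀ J : ℕ, e' ≤ e * a ^ J → (J : ℝ) * c ≤ ∑ w ∈ PP (X ^ (e * a ^ J)) (X ^ e), t w := by
    intro J
    induction J with
    | zero =>
      intro _
      simp only [Nat.cast_zero, zero_mul]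
      exact Finset.sum_nonneg fun w hw => rangeA_term hχ k hw
    | succ J ih =>
      intro hJ
      have h1 : e * a ^ (J + 1) ≤ e * a ^ J := by
        rw [pow_succ]
        have : e * (a ^ J * a) ≤ e * (a ^ J * 1) := by
          gcongr
          linarith
        simpa using this
      have h2 : e' ≤ e * a ^ J := hJ.trans h1
      have h3 := ih h2
      have h4 := hone (e * a ^ J) h2
      have h5 : e * a ^ J * a = e * a ^ (J + 1) := by ring
      rw [h5] at h4
      have hdisj : Disjoint (PP (X ^ (e * a ^ (J + 1))) (X ^ (e * a ^ J))) (PP (X ^ (e * a ^ J)) (X ^ e)) := by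
        rw [Finset.disjoint_left]
        intro w hw hw'
        have e1 := (mem_PP.1 hw).2.1
        have e2 := (mem_PP.1 hw').1
        linarith
      have hsub : PP (X ^ (e * a ^ (J + 1))) (X ^ (e * a ^ J)) ∪ PP (X ^ (e * a ^ J)) (X ^ e) ⊆ PP (X ^ (e * a ^ (J + 1))) (X ^ e) := by
        intro w hw
        rw [Finset.mem_union] at hw
        rcases hw with hw | hw
        · rw [mem_PP] at hw ⊢
          refine ⟨hw.1, hw.2.1.trans ?_, hw.2.2⟩
          apply Real.rpow_le_rpow_of_exponent_le hX1'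
          have : a ^ J ≤ 1 := pow_le_one₀ ha.le (by linarith)
          nlinarith
        · rw [mem_PP] at hw ⊢
          exact ⟨(Real.rpow_le_rpow_of_exponent_le hX1' h1).trans_lt hw.1, hw.2⟩
      calc ((J + 1 : ℕ) : ℝ) * c = c + (J : ℝ) * c := by push_cast; ring
        _ ≤ ∑ w ∈ PP (X ^ (e * a ^ (J + 1))) (X ^ (e * a ^ J)), t w + ∑ w ∈ PP (X ^ (e * a ^ J)) (X ^ e), t w := add_le_add h4 h3
        _ = ∑ w ∈ PP (X ^ (e * a ^ (J + 1))) (X ^ (e * a ^ J)) ∪ PP (X ^ (e * a ^ J)) (X ^ e), t w := (Finset.sum_union hdisj).symm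
        _ ≤ _ := Finset.sum_le_sum_of_subset_of_nonneg hsub fun w hw _ => rangeA_term hχ k hw
  -- choice of J
  set L := Real.log (e / e') with hLdef
  set J : ℕ := ⌊L / Real.log (1 / a)⌋₊ with hJ
  have hL0 : 0 ≤ L := (by positivity : (0 : ℝ) ≤ 2 * Real.log (1 / a)).trans hL
  have hJle : (J : ℝ) ≤ L / Real.log (1 / a) := Nat.floor_le (by positivity)
  have hJge : L / Real.log (1 / a) < J + 1 := Nat.lt_floor_add_one _
  have hJe : e' ≤ e * a ^ J := by
    have h1 : (J : ℝ) * Real.log (1 / a) ≤ L := by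
      rwa [le_div_iff₀ hla] at hJle
    have h2 : Real.log (1 / a) = - Real.log a := by rw [one_div, Real.log_inv]
    rw [h2] at h1
    have h3 : Real.log (e' / e) ≤ Real.log (a ^ J) := by
      rw [Real.log_pow]
      have h4 : Real.log (e' / e) = - L := by
        rw [hLdef, ← Real.log_inv, inv_div]
      rw [h4]
      linarith
    have h4 : e' / e ≤ a ^ J := (Real.log_le_log_iff (by positivity) (by positivity)).1 h3
    rw [div_le_iff₀ he] at h4
    linarith
  have h1 := hmono J hJe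
  have hsub : PP (X ^ (e * a ^ J)) (X ^ e) ⊆ PP (X ^ e') (X ^ e) := by
    intro w hw
    rw [mem_PP] at hw ⊢
    exact ⟨(Real.rpow_le_rpow_of_exponent_le hX1' hJe).trans_lt hw.1, hw.2⟩
  have h2 : ∑ w ∈ PP (X ^ (e * a ^ J)) (X ^ e), t w ≤ ∑ w ∈ PP (X ^ e') (X ^ e), t w :=
    Finset.sum_le_sum_of_subset_of_nonneg hsub fun w hw _ => rangeA_term hχ k hw
  have h3 : c / (2 * Real.log (1 / a)) * L ≤ (J : ℝ) * c := by
    have h4 : L / Real.log (1 / a) - 1 ≤ J := by linarith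
    have h5 : 1 ≤ L / (2 * Real.log (1 / a)) := by
      rw [le_div_iff₀ (by positivity), one_mul]
      exact hL
    have h6 : L / Real.log (1 / a) = 2 * (L / (2 * Real.log (1 / a))) := by
      field_simp
    have h7 : L / (2 * Real.log (1 / a)) ≤ J := by linarith
    calc c / (2 * Real.log (1 / a)) * L = c * (L / (2 * Real.log (1 / a))) := by ring
      _ ≤ c * J := mul_le_mul_of_nonneg_left h7 hc.le
      _ = _ := by ring
  exact h3.trans (h1.trans h2)

end Pool.Agent.ECM
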