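import Pool.Agent.Lib_MP_f1a94e_ecm.ILow
import Pool.Agent.Lib_MP_f1a94e_ecm.IUp
import Pool.Agent.Lib_MP_f1a94e_ecm.HInt
import Pool.Agent.Lib_MP_f1a94e_ecm.MertL
import Pool.Agent.Lib_MP_f1a94e_ecm.MertB

/-!
# Block M: real characters on primes (assembly, helper41)
-/

set_option autoImplicit false

namespace Pool.Agent.ECM

open Finset Pool.Agent.GaussMR Pool.Agent.GaussCM Pool.Agent.OmAll

theorem real_bd (D : ℕ) (hD : 0 < D) (χ : G → ℂ) (hχ : Chi D χ) (hnp : ¬ Pri D χ)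
    (hreal : ∀ z, χ z = 0 ∨ χ z = 1 ∨ χ z = -1) (h1 : χ ii = 1) : ∃ C : ℝ, ∀ B : ℝ, 3 ≤ B →
    ‖∑ w ∈ PP 2 B, (χ w + χ (fl w)) / (nm w : ℂ)‖ ≤ C := by
  have hne : (∫ s in Set.Ioi (0 : ℝ), HH χ s) ≠ 0 := by
    intro h0
    obtain ⟨C, hC⟩ := i_up D hD χ hχ hnp h0
    have h2 : ∀ v : ℝ, 0 < v → v ≤ 1 → Real.exp (-2) * Real.log (1 / v) ≤ C := by
      intro v hv hv1
      refine (KB_lower v hv hv1).trans ((i_low D χ hχ hreal h1 v hv).trans ?_)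
      exact (Complex.re_le_norm _).trans (hC v hv hv1)
    have h3 := h2 (Real.exp (-(|C| * Real.exp 2 + 1))) (Real.exp_pos _) (by
      rw [Real.exp_le_one_iff]
      have : 0 ≤ |C| * Real.exp 2 := by positivity
      linarith)
    rw [one_div, ← Real.exp_neg, neg_neg, Real.log_exp] at h3
    have h4 : Real.exp (-2) * (|C| * Real.exp 2 + 1) = |C| + Real.exp (-2) := by
      have : Real.exp (-2) * Real.exp 2 = 1 := by rw [← Real.exp_add]; simp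
      linear_combination |C| * this
    rw [h4] at h3
    have h5 := Real.exp_pos (-2)
    have h6 := le_abs_self C
    linarith
  obtain ⟨C1, h2⟩ := mert_log D hD χ hχ hnp _ hne (h_int D hD χ hχ hnp)
  obtain ⟨C2, h3⟩ := abel_cp χ C1 h2
  obtain ⟨C3, h4⟩ := cp_pp
  refine ⟨C2 + C3, fun B hB => ?_⟩
  have h5 := h3 B (by linarith)
  have h6 := h4 χ hχ.le B hB
  have h7 : ∑ w ∈ PP 2 B, (χ w + χ (fl w)) / (nm w : ℂ) = ∑ p ∈ CP B, χ p / (nm p : ℂ) -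
      (∑ p ∈ CP B, χ p / (nm p : ℂ) - ∑ w ∈ PP 2 B, (χ w + χ (fl w)) / (nm w : ℂ)) := by ring
  rw [h7]
  exact (norm_sub_le _ _).trans (by linarith)

end Pool.Agent.ECM
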