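import Pool.Agent.Lib_MP_f1a94e_ecm.Weight2
import Pool.Agent.Lib_MP_f1a94e_ecm.Bh2
import Pool.Agent.Lib_MP_f1a94e_mr.SieveA

/-!
# Piece M-SIEVE: almost primes on which `χ xi k` is not close to one
-/

set_option autoImplicit false

namespace Pool.Agent.ECM

open Finset Pool.Agent.GaussMR Pool.Agent.GaussCM Pool.Agent.OmAll

open Pool.Agent.GaussMR.SieveA

/-- the error term tends to zero -/
private theorem sieve2_err {η B c : ℝ} (hη : 0 < η) (hB : 0 ≤ B) (hc : 0 < c) :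
    ∀ᶠ Y : ℝ in Filter.atTop, Y ^ (-η) * (B * Real.log Y) ≤ c := by
  have h1 : Filter.Tendsto (fun Y : ℝ => Real.log Y / Y ^ η) Filter.atTop (nhds 0) :=
    (isLittleO_log_rpow_atTop hη).tendsto_div_nhds_zero
  have h3 : Filter.Tendsto (fun Y : ℝ => B * (Real.log Y / Y ^ η)) Filter.atTop
      (nhds (B * 0)) := h1.const_mul B
  rw [mul_zero] at h3
  filter_upwards [h3.eventually_le_const hc, Filter.eventually_gt_atTop 0] with Y hY hY0
  refine le_trans (le_of_eq ?_) hY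
  rw [Real.rpow_neg hY0.le]
  ring

/-- `∏ (1 + 1 / nm w)` over the primes of norm at most `y` -/
private theorem sieve2_prod {C : ℝ} (hC : ∀ y y' : ℝ, 2 ≤ y' → y' ≤ y →
    ∑ w ∈ (CP y).filter (fun w => y' < (nm w : ℝ)), 1 / (nm w : ℝ) ≤
      Real.log (Real.log y) - Real.log (Real.log y') + C) {y : ℝ} (hy : 2 ≤ y) :
    ∏ w ∈ CP y, (1 + 1 / (nm w : ℝ)) ≤ Real.exp C / Real.log 2 * Real.log y := by
  classical
  have h1 := hC y 2 le_rfl hy
  have hf : (CP y).filter (fun w => (2 : ℝ) < (nm w : ℝ)) = CP y := by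
    rw [Finset.filter_eq_self]
    intro w hw
    have := CP_nm hw
    exact_mod_cast (by omega : 2 < nm w)
  rw [hf] at h1
  have hly : 0 < Real.log y := Real.log_pos (by linarith)
  have hl2 : 0 < Real.log 2 := Real.log_pos (by norm_num)
  calc ∏ w ∈ CP y, (1 + 1 / (nm w : ℝ)) ≤ ∏ w ∈ CP y, Real.exp (1 / (nm w : ℝ)) := by
        refine Finset.prod_le_prod (fun w _ => by positivity) fun w _ => ?_
        have := Real.add_one_le_exp (1 / (nm w : ℝ))
        linarith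
    _ = Real.exp (∑ w ∈ CP y, 1 / (nm w : ℝ)) := (Real.exp_sum _ _).symm
    _ ≤ Real.exp (Real.log (Real.log y) - Real.log (Real.log 2) + C) := Real.exp_le_exp.mpr h1
    _ = Real.exp C / Real.log 2 * Real.log y := by
        rw [Real.exp_add, Real.exp_sub, Real.exp_log hly, Real.exp_log hl2]
        ring

open Classical in
/-- Copy the proof of `sieve_all` (Lib_MP_f1a94e_mr/SieveA.lean) with `bh2` instead of `bh_inst`: `obj = ob (Y^(3/4)) \ ob (Y^(1/2))`, primes `CP y`, `y = Y^a`, classes `PC y i`, `S u = {w ∈ CP y : w ∣ u}`,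
`g w = 1 / nm w`, `X0 = κ log Y`, `E = Y^(-η)` (`weight2`; `∏_(w ∈ D) 1 / nm w = 1 / nm (∏ D)`). A set `D` of the family has `nm (∏ D) ≤ y^(4 b + 6) ≤ Y^(1/4)` with `a = 1 / (4 (4 b + 6))`, an ABSOLUTE constant
(`b` depends only on the constant of `CP_sum`). Main term `≥ κ c3 / (2 a)` (`CP_prod_lower`); error `Y^(-η) ∏ (1 + 1/nm w) ≤ Y^(-η) exp (∑ 1 / nm w) → 0` (`CP_sum`; here only `Y0` depends on `A`, `D`). -/
theorem sieve2 : ∃ a c : ℝ, 0 < a ∧ a ≤ 1 / 4 ∧ 0 < c ∧ ∀ (D : ℕ) (A : ℝ), 0 < D → 1 ≤ A → ∃ Y0 : ℝ, ∀ Y : ℝ, Y0 ≤ Y →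
    ∀ χ : G → ℂ, Chi D χ → ∀ k : ℤ, (k ≠ 0 ∨ ¬ Pri D χ) → |(k : ℝ)| ≤ Y ^ A →
    c ≤ ∑ u ∈ (ob (Y ^ (3 / 4 : ℝ)) \ ob (Y ^ (1 / 2 : ℝ))).filter (Rough (Y ^ a)),
      (1 / (nm u : ℝ)) * (1 - (χ u * xi k u).re) := by
  obtain ⟨C, hC0, hC⟩ := CP_sum
  obtain ⟨c3, hc3, hprod⟩ := CP_prod_lower
  obtain ⟨κ, hκ, hw⟩ := weight2
  have hl2 : 0 < Real.log 2 := Real.log_pos (by norm_num)
  obtain ⟨b, hb⟩ := bh2 (Real.log 2 + C) (by positivity)
  obtain ⟨a, ha⟩ : ∃ a : ℝ, a = 1 / (4 * (4 * b + 6)) := ⟨_, rfl⟩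
  have ha0 : 0 < a := by rw [ha]; positivity
  have ha1 : a ≤ 1 / 4 := by
    rw [ha]
    apply one_div_le_one_div_of_le (by norm_num)
    have : (0 : ℝ) ≤ b := Nat.cast_nonneg b
    linarith
  have hab : a * (4 * b + 6) = 1 / 4 := by
    rw [ha]
    have : (4 * (b : ℝ) + 6) ≠ 0 := by positivity
    field_simp
  have hc : 0 < κ * c3 / (4 * a) := by positivity
  refine ⟨a, κ * c3 / (4 * a), ha0, ha1, hc, ?_⟩
  intro D A hD hA
  obtain ⟨η, Y1, hη, hw⟩ := hw D A hD hA
  obtain ⟨Y2, hY2⟩ := Filter.eventually_atTop.mp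
    ((sieve2_err (η := η) (B := Real.exp C / Real.log 2 * a) hη (by positivity) hc).and
    (((tendsto_rpow_atTop ha0).eventually_ge_atTop 2)))
  refine ⟨max (max Y1 Y2) 2, ?_⟩
  intro X hX χ hχ k hk hkX
  have hXX1 : Y1 ≤ X := (le_max_left _ _).trans ((le_max_left _ _).trans hX)
  have hXX2 : Y2 ≤ X := (le_max_right _ _).trans ((le_max_left _ _).trans hX)
  have hX2' : 2 ≤ X := (le_max_right _ _).trans hX
  obtain ⟨herr, hy2⟩ := hY2 X hXX2
  have hX0 : 0 < X := by linarith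
  have hX1 : 1 ≤ X := by linarith
  obtain ⟨y, hy⟩ : ∃ y : ℝ, y = X ^ a := ⟨_, rfl⟩
  rw [← hy] at hy2
  have hy1 : 1 ≤ y := by linarith
  have hlogy : Real.log y = a * Real.log X := by rw [hy, Real.log_rpow hX0]
  have hlogX : 0 < Real.log X := Real.log_pos (by linarith)
  have hlogy0 : 0 < Real.log y := by rw [hlogy]; positivity
  have hyX : y ^ (4 * b + 6 : ℝ) = X ^ (1 / 4 : ℝ) := by
    rw [hy, ← Real.rpow_mul hX0.le, hab]
  obtain ⟨t, ht5, hti, -⟩ := exists_t hy1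
  have hun := PC_union ht5
  set obj := ob (X ^ (3 / 4 : ℝ)) \ ob (X ^ (1 / 2 : ℝ)) with hobj
  have hodd : ∀ u ∈ obj, Odd (nm u) := by
    intro u hu
    have h1 := (Finset.mem_sdiff.mp hu).1
    unfold ob at h1
    exact (Finset.mem_filter.mp h1).2
  have hW : ∀ u ∈ obj, 0 ≤ (1 / (nm u : ℝ)) * (1 - (χ u * xi k u).re) := by
    intro u hu
    have h1 : (χ u * xi k u).re ≤ 1 := by
      refine (Complex.re_le_norm _).trans ?_
      rw [norm_mul, norm_xi k (ne_zero_of_odd (hodd u hu)), mul_one]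
      exact hχ.le u
    exact mul_nonneg (by positivity) (by linarith)
  have hBH := hb G G inferInstance obj (fun u => (1 / (nm u : ℝ)) * (1 - (χ u * xi k u).re)) t
    (PC y) (fun u => (CP y).filter (fun w => w ∣ u)) (fun w => 1 / (nm w : ℝ)) (κ * Real.log X)
    (X ^ (-η)) hW (fun i j _ _ hij => PC_disjoint hy1 hij)
    (by
      intro u _
      rw [hun]
      exact Finset.filter_subset _ _)
    (by
      rw [hun]
      intro p hp
      have h5 : (5 : ℝ) ≤ nm p := by exact_mod_cast CP_nm hp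
      refine ⟨by positivity, ?_⟩
      rw [div_le_div_iff₀ (by linarith) (by norm_num)]
      linarith)
    (fun i hi => class_sum hC hy1 (hti i hi)) (by positivity) (by positivity)
    (by
      intro D hD hcard
      have hnm := nm_prod_le hy1 hD hcard
      rw [hyX] at hnm
      rw [hun] at hD
      have hfil : obj.filter (fun u => D ⊆ (CP y).filter (fun w => w ∣ u)) =
          obj.filter (fun u => (∏ w ∈ D, w) ∣ u) := by
        refine Finset.filter_congr fun u _ => ?_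
        constructor
        · intro h
          exact prod_dvd_of_sa hD fun w hw => (Finset.mem_filter.mp (h hw)).2
        · intro h w hw
          exact Finset.mem_filter.mpr ⟨hD hw, (Finset.dvd_prod_of_mem (fun w => w) hw).trans h⟩
      rw [hfil]
      have h1 := hw X hXX1 χ hχ k hk hkX (∏ w ∈ D, w) (odd_prod_sa hD) hnm
      have h2 : ∏ p ∈ D, 1 / (nm p : ℝ) = 1 / (nm (∏ w ∈ D, w) : ℝ) := by
        rw [nm_prod_sa]
        push_cast
        rw [Finset.prod_div_distrib, Finset.prod_const_one]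
      rw [h2, mul_one_div, mul_one_div]
      exact h1)
  rw [hun] at hBH
  -- the final inequality
  have hsub : ∑ u ∈ obj.filter (fun u => (CP y).filter (fun w => w ∣ u) = ∅),
      (1 / (nm u : ℝ)) * (1 - (χ u * xi k u).re) ≤
      ∑ u ∈ obj.filter (Rough (X ^ a)),
      (1 / (nm u : ℝ)) * (1 - (χ u * xi k u).re) := by
    refine Finset.sum_le_sum_of_subset_of_nonneg ?_ ?_
    · intro u hu
      obtain ⟨hu1, hu2⟩ := Finset.mem_filter.mp hu
      refine Finset.mem_filter.mpr ⟨hu1, fun p hp hpu => ?_⟩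
      by_contra hlt
      rw [not_le, ← hy] at hlt
      have hpo : Odd (nm p) := by
        obtain ⟨c, hc⟩ := nm_dvd hpu
        have h1 := hodd u hu1
        rw [hc] at h1
        exact (Nat.odd_mul.mp h1).1
      obtain ⟨w, hwC, hwp⟩ := CP_exists hp hpo hlt.le
      have : w ∈ (CP y).filter (fun w => w ∣ u) :=
        Finset.mem_filter.mpr ⟨hwC, hwp.dvd.trans hpu⟩
      rw [hu2] at this
      exact absurd this (Finset.notMem_empty _)
    · intro u hu _
      exact hW u (Finset.mem_filter.mp hu).1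
  refine le_trans ?_ (hBH.trans hsub)
  have hmain : κ * c3 / (2 * a) ≤
      κ * Real.log X / 2 * ∏ p ∈ CP y, (1 - 1 / (nm p : ℝ)) := by
    have h1 := mul_le_mul_of_nonneg_left (hprod y hy2)
      (by positivity : 0 ≤ κ * Real.log X / 2)
    refine le_trans (le_of_eq ?_) h1
    rw [hlogy]
    field_simp
  have hE : X ^ (-η) * ∏ p ∈ CP y, (1 + 1 / (nm p : ℝ)) ≤ κ * c3 / (4 * a) := by
    refine le_trans (mul_le_mul_of_nonneg_left (sieve2_prod hC hy2) (by positivity)) ?_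
    rw [hlogy]
    refine le_trans (le_of_eq ?_) herr
    ring
  have h4 : κ * c3 / (2 * a) = 2 * (κ * c3 / (4 * a)) := by
    field_simp
    ring
  linarith

end Pool.Agent.ECM
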