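import Pool.Agent.Lib_MP_f1a94e_ecm.MDefs
import Pool.Agent.Lib_MP_f1a94e_ecc.StageId

/-!
# Stage identity for complex functions (from Lib_MP_f1a94e_ecc)
-/

set_option autoImplicit false

namespace Pool.Agent.ECM

open Finset Pool.Agent.GaussMR Pool.Agent.GaussCM Pool.Agent.OmAll

/-- Complex version of `stage_id` (Lib_MP_f1a94e_mr/StageId.lean): helper30, Lib_MP_f1a94e_ecc. -/
theorem stage_idC (F : G → ℂ) (hF : CM F) (P Q ρ X : ℝ) (k : ℤ) (hP : 1 ≤ P) (hPQ : P ≤ Q)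
    (hρ : 0 < ρ) (hX : 1 ≤ X) :
    UZC F P Q ρ X k = ∑ z ∈ V X, F z * (om P Q z : ℂ) * xi (-k) z + A2C F P Q ρ X k + A3C F P Q ρ X k :=
  GaussCM.stage_id F hF P Q ρ X k hP hPQ hρ hX

end Pool.Agent.ECM
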