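import Pool.Agent.Lib_MP_f1a94e_ecm.Orth
import Pool.Agent.Lib_MP_f1a94e_ecm.StageIdC
import Pool.Agent.Lib_MP_f1a94e_mr.Stage

/-!
# Piece M-STAGE: one stage for few frequencies
-/

set_option autoImplicit false

namespace Pool.Agent.ECM

open Finset Pool.Agent.GaussMR Pool.Agent.GaussCM Pool.Agent.OmAll

/-- sum of the inverse squares of the norms, with the gain `1 / P` -/
theorem sf_inv_sq {P Q : ℝ} (hP : 1 ≤ P) : ∑ w ∈ PP P Q, 1 / (nm w : ℝ) ^ 2 ≤ 2 / P := by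
  classical
  have hinj : Set.InjOn nm (PP P Q : Set G) := fun w hw w' hw' h => PP_inj hw hw' h
  have h1 : ∑ w ∈ PP P Q, 1 / (nm w : ℝ) ^ 2 = ∑ n ∈ (PP P Q).image nm, 1 / (n : ℝ) ^ 2 := by
    rw [Finset.sum_image hinj]
  rw [h1]
  set K : ℕ := ⌊P⌋₊ with hK
  have hK1 : 1 ≤ K := Nat.le_floor (by exact_mod_cast hP)
  have hKP : P / 2 ≤ K := by
    have e1 : P < K + 1 := Nat.lt_floor_add_one P
    have e2 : (1 : ℝ) ≤ K := by exact_mod_cast hK1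
    linarith
  have h2 : (PP P Q).image nm ⊆ Finset.Ioc K (K + ⌊Q⌋₊) := by
    intro n hn
    obtain ⟨w, hw, rfl⟩ := Finset.mem_image.mp hn
    obtain ⟨e1, e2, -, -, -⟩ := mem_PP.mp hw
    rw [Finset.mem_Ioc]
    refine ⟨?_, ?_⟩
    · rw [hK]
      have e4 : ((⌊P⌋₊ : ℕ) : ℝ) ≤ P := Nat.floor_le (by linarith)
      exact_mod_cast e4.trans_lt e1
    · have e3 : nm w ≤ ⌊Q⌋₊ := Nat.le_floor e2
      omega
  refine (Finset.sum_le_sum_of_subset_of_nonneg h2 fun _ _ _ => by positivity).trans ?_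
  have h3 := sum_Ioc_inv_sq_le_sub (α := ℝ) (k := K) (n := K + ⌊Q⌋₊) (by omega) (by omega)
  have h4 : (0 : ℝ) ≤ ((K + ⌊Q⌋₊ : ℕ) : ℝ)⁻¹ := by positivity
  simp only [one_div]
  refine h3.trans ?_
  have h5 : ((K : ℝ))⁻¹ ≤ (P / 2)⁻¹ := inv_anti₀ (by linarith) hKP
  have h6 : (P / 2)⁻¹ = 2 / P := by rw [inv_div]
  linarith

open Classical in
/-- number of multiples of a split prime -/
theorem sf_card {w : G} (hw : Spl w) (Y : ℝ) (hY : 0 ≤ Y) :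
    (((V Y).filter (fun z => star w ∣ z)).card : ℝ) ≤ 9 * (Y / nm w) := by
  classical
  have hw0 : (0 : ℝ) < nm w := by exact_mod_cast nm_pos_of_odd hw.odd
  have h1 : (V Y).filter (fun z => star w ∣ z) ⊆ (V (Y / nm w)).image (fun z => star w * z) := by
    intro z hz
    rw [Finset.mem_filter] at hz
    obtain ⟨hz1, c, hc⟩ := hz
    subst hc
    rw [mem_V] at hz1
    rw [Finset.mem_image]
    refine ⟨c, ?_, rfl⟩
    rw [mem_V]
    refine ⟨?_, (odd_nm_mul.1 hz1.2.1).2, (prim_of_mul hz1.2.2).2⟩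
    rw [le_div_iff₀ hw0]
    have := hz1.1
    rw [nm_mul, nm_star] at this
    push_cast at this
    linarith
  have h2 : ((V Y).filter (fun z => star w ∣ z)).card ≤ (V (Y / nm w)).card :=
    (Finset.card_le_card h1).trans Finset.card_image_le
  have h3 := card_V_le (Y / nm w) (by positivity)
  calc (((V Y).filter (fun z => star w ∣ z)).card : ℝ) ≤ ((V (Y / nm w)).card : ℝ) := by
        exact_mod_cast h2
    _ ≤ _ := h3

/-- pointwise bound for the non primitive terms -/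
theorem sf_A2 (F : G → ℂ) (hF : CM F) (P Q ρ Z : ℝ) (k : ℤ) (hP : 1 ≤ P) (hρ : 0 < ρ) (hρ1 : ρ ≤ 1)
    (hZ : 0 ≤ Z) : ‖A2C F P Q ρ Z k‖ ≤ 54 * Z / P := by
  classical
  have hexp : Real.exp ρ ≤ 3 := by
    have := Real.exp_one_lt_d9
    exact (Real.exp_le_exp.mpr hρ1).trans (by linarith)
  unfold A2C
  have h1 : ‖∑ v ∈ Finset.range (nv Q ρ), ∑ w ∈ blk P Q ρ v, F w * xi (-k) w *
      ∑ z ∈ (V (Z * Real.exp (-(v * ρ)))).filter (fun z => star w ∣ z), F z * xi (-k) z‖ ≤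
      ∑ v ∈ Finset.range (nv Q ρ), ∑ w ∈ blk P Q ρ v, 27 * Z * (1 / (nm w : ℝ) ^ 2) := by
    refine (norm_sum_le _ _).trans (Finset.sum_le_sum fun v _ => ?_)
    refine (norm_sum_le _ _).trans (Finset.sum_le_sum fun w hw => ?_)
    have hsp := PP_spl (mem_blk.mp hw).1
    have hw0 : w ≠ 0 := ne_zero_of_odd hsp.odd
    have hwpos : (0 : ℝ) < nm w := by exact_mod_cast nm_pos_of_odd hsp.odd
    have e1 : ‖∑ z ∈ (V (Z * Real.exp (-(v * ρ)))).filter (fun z => star w ∣ z),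
        F z * xi (-k) z‖ ≤ 9 * (Z * Real.exp (-(v * ρ)) / nm w) := by
      refine le_trans ?_ (sf_card hsp (Z * Real.exp (-(v * ρ))) (by positivity))
      calc ‖∑ z ∈ (V (Z * Real.exp (-(v * ρ)))).filter (fun z => star w ∣ z), F z * xi (-k) z‖
          ≤ ∑ z ∈ (V (Z * Real.exp (-(v * ρ)))).filter (fun z => star w ∣ z), (1 : ℝ) := by
            refine (norm_sum_le _ _).trans (Finset.sum_le_sum fun z hz => ?_)
            have hz1 := (Finset.mem_filter.mp hz).1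
            rw [norm_mul, norm_xi _ (V_ne_zero hz1), mul_one]
            exact hF.norm (mem_V.mp hz1).2.1
        _ = _ := by rw [Finset.sum_const, nsmul_eq_mul, mul_one]
    have e2 : ‖F w * xi (-k) w‖ ≤ 1 := by
      rw [norm_mul, norm_xi _ hw0, mul_one]
      exact hF.norm hsp.odd
    have e3 : Real.exp (-(v * ρ)) ≤ 3 / nm w := by
      have h3 := (mem_blk.mp hw).2.2
      rw [le_div_iff₀ hwpos]
      calc Real.exp (-(v * ρ)) * nm w ≤ Real.exp (-(v * ρ)) * Real.exp ((v + 1) * ρ) :=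
            mul_le_mul_of_nonneg_left h3 (Real.exp_pos _).le
        _ = Real.exp ρ := by
            rw [← Real.exp_add]
            congr 1
            ring
        _ ≤ 3 := hexp
    rw [norm_mul]
    calc ‖F w * xi (-k) w‖ * ‖∑ z ∈ (V (Z * Real.exp (-(v * ρ)))).filter (fun z => star w ∣ z),
          F z * xi (-k) z‖ ≤ 1 * (9 * (Z * Real.exp (-(v * ρ)) / nm w)) :=
          mul_le_mul e2 e1 (norm_nonneg _) zero_le_one
      _ ≤ 1 * (9 * (Z * (3 / nm w) / nm w)) := by gcongr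
      _ = 27 * Z * (1 / (nm w : ℝ) ^ 2) := by
          field_simp
          ring
  refine h1.trans ?_
  have h2 := sum_blk_le (P := P) (Q := Q) hρ (fun w => 27 * Z * (1 / (nm w : ℝ) ^ 2))
    (fun w _ => by positivity)
  refine h2.trans ?_
  rw [← Finset.mul_sum]
  have h3 := sf_inv_sq (P := P) (Q := Q) hP
  calc 27 * Z * ∑ w ∈ PP P Q, 1 / (nm w : ℝ) ^ 2 ≤ 27 * Z * (2 / P) :=
        mul_le_mul_of_nonneg_left h3 (by positivity)
    _ = 54 * Z / P := by ring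

/-- `P = X^e'`, `Q = X^e`, `Q^20 ≤ Z`, `Z^(-1/4) ≤ ρ`. As in the proof of `stage` (Lib_MP_f1a94e_mr/Stage.lean) with `orth` instead of `large_sieve`: `Ls fc - UZ = A1 - A2 - A3` (`stage_idC`). `A1 = ∑ F z (Ls - om z) xi`: `orth` and `TK`: `≤ C Z * C Z (Ls + 1)`.
`A3`: `orth` on `V (Z e^ρ)`, `mA ≤ om`, `annulus`: `≤ C Z * C ρ Z (Ls + 1)²`. `A2`: pointwise `|A2 k| ≤ ∑_v ∑_w #{z ∈ V (Z e^(-vρ)) : star w ∣ z} ≤ ∑_w 9 Z e^ρ / nm w² ≤ C Z / P`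
(`nm w ≤ e^((v+1)ρ)`, `∑_(nm w > P) 1/nm w² ≤ 2/P`), so `∑_(k ∈ S) |A2|² ≤ #S C Z² / P² ≤ C Z²  X^(e' - 2 e')`, small. -/
theorem stage_few : ∃ δ C : ℝ, 0 < δ ∧ 0 < C ∧ ∀ e' e : ℝ, 0 < e' → e' < e → e ≤ 1 / 40 → ∃ X0 : ℝ, ∀ X : ℝ, X0 ≤ X →
    ∀ F : G → ℂ, CM F → ∀ ρ Z : ℝ, 0 < ρ → ρ ≤ 1 → X ^ (-(1 / 8 : ℝ)) ≤ ρ → X ^ (1 / 2 : ℝ) ≤ Z → Z ≤ X → 1 ≤ Ls (X ^ e') (X ^ e) →
    ∀ S : Finset ℤ, (∀ k ∈ S, |(k : ℝ)| ≤ X) → (S.card : ℝ) ≤ X ^ δ → (S.card : ℝ) ≤ X ^ e' →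
    ∑ k ∈ S, ‖(Ls (X ^ e') (X ^ e) : ℂ) * fcC F Z k - UZC F (X ^ e') (X ^ e) ρ Z k‖ ^ 2 ≤
      C * Z ^ 2 * Ls (X ^ e') (X ^ e) ^ 2 * (1 / Ls (X ^ e') (X ^ e) + ρ) := by
  classical
  obtain ⟨δ, C1, X1, hδ, hC1, horth⟩ := orth
  obtain ⟨C2, hC2, htk⟩ := TK
  obtain ⟨C3, hC3, hann⟩ := annulus
  refine ⟨δ, 3 * (2 * C1 * C2 + 54 ^ 2 + 12 * C1 * C3), hδ, by positivity, ?_⟩
  intro e' e he' hee he
  refine ⟨max (max X1 1) (2 ^ (1 / e')), fun X hX F hF ρ Z hρ hρ1 hXρ hZ1 hZX hLs S hS hS1 hS2 => ?_⟩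
  simp only [max_le_iff] at hX
  obtain ⟨⟨hX1, hX1'⟩, hX2⟩ := hX
  have hX0 : 0 < X := by linarith
  set P : ℝ := X ^ e' with hPdef
  set Q : ℝ := X ^ e with hQdef
  have hP2 : 2 ≤ P := by
    have h1 : ((2 : ℝ) ^ (1 / e')) ^ e' ≤ X ^ e' := Real.rpow_le_rpow (by positivity) hX2 he'.le
    rwa [← Real.rpow_mul (by norm_num), one_div_mul_cancel he'.ne', Real.rpow_one] at h1
  have hPQ : P ≤ Q := Real.rpow_le_rpow_of_exponent_le hX1' hee.le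
  have hZ1' : 1 ≤ Z := (Real.one_le_rpow hX1' (by norm_num)).trans hZ1
  have hZ0 : 0 < Z := by linarith
  have hQZ : Q ^ 20 ≤ Z := by
    refine le_trans ?_ hZ1
    rw [hQdef, ← Real.rpow_natCast, ← Real.rpow_mul hX0.le]
    apply Real.rpow_le_rpow_of_exponent_le hX1'
    push_cast
    linarith
  have hZρ : Z ^ (-(1 / 4 : ℝ)) ≤ ρ := by
    refine le_trans ?_ hXρ
    have h1 : Z ^ (-(1 / 4 : ℝ)) ≤ (X ^ (1 / 2 : ℝ)) ^ (-(1 / 4 : ℝ)) :=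
      Real.rpow_le_rpow_of_nonpos (by positivity) hZ1 (by norm_num)
    refine h1.trans (le_of_eq ?_)
    rw [← Real.rpow_mul hX0.le]
    norm_num
  have hLs0 : 0 < Ls P Q := by linarith
  set L := Ls P Q with hL
  -- the three parts
  have hdec : ∀ k, (L : ℂ) * fcC F Z k - UZC F P Q ρ Z k =
      ∑ z ∈ V Z, (F z * ((L - om P Q z : ℝ) : ℂ)) * xi (-k) z - A2C F P Q ρ Z k -
        A3C F P Q ρ Z k := by
    intro k
    rw [stage_idC F hF P Q ρ Z k (by linarith) hPQ hρ hZ1']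
    have e1 : ∑ z ∈ V Z, (F z * ((L - om P Q z : ℝ) : ℂ)) * xi (-k) z =
        (L : ℂ) * fcC F Z k - ∑ z ∈ V Z, F z * (om P Q z : ℂ) * xi (-k) z := by
      rw [fcC, Finset.mul_sum, ← Finset.sum_sub_distrib]
      refine Finset.sum_congr rfl fun z _ => ?_
      push_cast
      ring
    rw [e1]
    ring
  have h3 : ∀ a b c : ℂ, ‖a - b - c‖ ^ 2 ≤ 3 * (‖a‖ ^ 2 + ‖b‖ ^ 2 + ‖c‖ ^ 2) := by
    intro a b c
    have e1 : ‖a - b - c‖ ≤ ‖a‖ + ‖b‖ + ‖c‖ :=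
      (norm_sub_le _ _).trans (add_le_add_left (norm_sub_le _ _) _)
    have e2 := pow_le_pow_left₀ (norm_nonneg _) e1 2
    nlinarith [sq_nonneg (‖a‖ - ‖b‖), sq_nonneg (‖b‖ - ‖c‖), sq_nonneg (‖a‖ - ‖c‖)]
  -- first part
  have hA1 : ∑ k ∈ S, ‖∑ z ∈ V Z, (F z * ((L - om P Q z : ℝ) : ℂ)) * xi (-k) z‖ ^ 2 ≤
      2 * C1 * C2 * Z ^ 2 * L := by
    refine (horth X Z hX1 hZ1 S hS hS1 (fun z => F z * ((L - om P Q z : ℝ) : ℂ))).trans ?_
    have e1 : ∑ z ∈ V Z, ‖F z * ((L - om P Q z : ℝ) : ℂ)‖ ^ 2 ≤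
        ∑ z ∈ V Z, (om P Q z - L) ^ 2 := by
      refine Finset.sum_le_sum fun z hz => ?_
      rw [norm_mul, Complex.norm_real, Real.norm_eq_abs, mul_pow, sq_abs]
      have g1 : ‖F z‖ ^ 2 ≤ 1 := pow_le_one₀ (norm_nonneg _) (hF.norm (mem_V.mp hz).2.1)
      calc ‖F z‖ ^ 2 * (L - om P Q z) ^ 2 ≤ 1 * (L - om P Q z) ^ 2 :=
            mul_le_mul_of_nonneg_right g1 (sq_nonneg _)
        _ = (om P Q z - L) ^ 2 := by ring
    have e2 := htk P Q Z hP2 hPQ hQZ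
    have e3 : C2 * Z * (L + 1) ≤ C2 * Z * (2 * L) := by
      gcongr
      linarith
    calc C1 * Z * ∑ z ∈ V Z, ‖F z * ((L - om P Q z : ℝ) : ℂ)‖ ^ 2 ≤ C1 * Z * (C2 * Z * (2 * L)) :=
          mul_le_mul_of_nonneg_left (e1.trans (e2.trans e3)) (by positivity)
      _ = 2 * C1 * C2 * Z ^ 2 * L := by ring
  -- third part
  have hA3 : ∑ k ∈ S, ‖A3C F P Q ρ Z k‖ ^ 2 ≤ 12 * C1 * C3 * Z ^ 2 * L ^ 2 * ρ := by
    have hexp : Real.exp ρ ≤ 3 := by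
      have := Real.exp_one_lt_d9
      exact (Real.exp_le_exp.mpr hρ1).trans (by linarith)
    have hexp1 : 1 ≤ Real.exp ρ := Real.one_le_exp hρ.le
    have hXe : Z ≤ Z * Real.exp ρ := by nlinarith
    set a : G → ℂ := fun z => if z ∈ V Z then 0 else F z * (mA P Q ρ Z z : ℂ) with ha
    have hsub : V Z ⊆ V (Z * Real.exp ρ) := by
      intro z hz
      rw [mem_V] at hz ⊢
      exact ⟨hz.1.trans hXe, hz.2⟩
    have e1 : ∀ k, A3C F P Q ρ Z k = ∑ z ∈ V (Z * Real.exp ρ), a z * xi (-k) z := by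
      intro k
      rw [← Finset.sum_sdiff hsub, A3C]
      have e2 : ∑ z ∈ V Z, a z * xi (-k) z = 0 := by
        refine Finset.sum_eq_zero fun z hz => ?_
        rw [ha]
        simp [hz]
      rw [e2, add_zero]
      refine Finset.sum_congr rfl fun z hz => ?_
      have e3 : z ∉ V Z := (Finset.mem_sdiff.mp hz).2
      rw [ha]
      simp [e3]
    have e2 : ∑ z ∈ V (Z * Real.exp ρ), ‖a z‖ ^ 2 ≤ C3 * ρ * Z * (2 * L) ^ 2 := by
      rw [← Finset.sum_sdiff hsub]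
      have e3 : ∑ z ∈ V Z, ‖a z‖ ^ 2 = 0 := by
        refine Finset.sum_eq_zero fun z hz => ?_
        rw [ha]
        simp [hz]
      rw [e3, add_zero]
      calc ∑ z ∈ V (Z * Real.exp ρ) \ V Z, ‖a z‖ ^ 2
          ≤ ∑ z ∈ V (Z * Real.exp ρ) \ V Z, (om P Q z) ^ 2 := by
            refine Finset.sum_le_sum fun z hz => ?_
            have e4 : z ∉ V Z := (Finset.mem_sdiff.mp hz).2
            have e5 := (Finset.mem_sdiff.mp hz).1
            have e6 : ‖a z‖ ≤ mA P Q ρ Z z := by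
              rw [ha]
              simp only [e4, if_false]
              rw [norm_mul, Complex.norm_natCast]
              exact mul_le_of_le_one_left (Nat.cast_nonneg _) (hF.norm (mem_V.mp e5).2.1)
            exact pow_le_pow_left₀ (norm_nonneg _)
              (e6.trans (mA_le P Q ρ Z hρ z (V_ne_zero e5))) 2
        _ ≤ C3 * ρ * Z * (L + 1) ^ 2 := hann P Q Z ρ hP2 hPQ hQZ hρ hρ1 hZρ
        _ ≤ C3 * ρ * Z * (2 * L) ^ 2 := by
            gcongr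
            linarith
    simp only [e1]
    refine (horth X (Z * Real.exp ρ) hX1 (hZ1.trans hXe) S hS hS1 a).trans ?_
    calc C1 * (Z * Real.exp ρ) * ∑ z ∈ V (Z * Real.exp ρ), ‖a z‖ ^ 2
        ≤ C1 * (Z * 3) * (C3 * ρ * Z * (2 * L) ^ 2) := by
          have e4 : 0 ≤ ∑ z ∈ V (Z * Real.exp ρ), ‖a z‖ ^ 2 :=
            Finset.sum_nonneg fun _ _ => sq_nonneg _
          gcongr
      _ = 12 * C1 * C3 * Z ^ 2 * L ^ 2 * ρ := by ring
  -- second part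
  have hA2 : ∑ k ∈ S, ‖A2C F P Q ρ Z k‖ ^ 2 ≤ 54 ^ 2 * Z ^ 2 := by
    have e1 : ∀ k ∈ S, ‖A2C F P Q ρ Z k‖ ^ 2 ≤ (54 * Z / P) ^ 2 := fun k _ =>
      pow_le_pow_left₀ (norm_nonneg _) (sf_A2 F hF P Q ρ Z k (by linarith) hρ hρ1 hZ0.le) 2
    refine (Finset.sum_le_sum e1).trans ?_
    rw [Finset.sum_const, nsmul_eq_mul]
    have hP0 : 0 < P := by linarith
    calc (S.card : ℝ) * (54 * Z / P) ^ 2 ≤ P * (54 * Z / P) ^ 2 :=
          mul_le_mul_of_nonneg_right hS2 (sq_nonneg _)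
      _ = 54 ^ 2 * Z ^ 2 * (1 / P) := by field_simp
      _ ≤ 54 ^ 2 * Z ^ 2 * 1 := by
          apply mul_le_mul_of_nonneg_left _ (by positivity)
          rw [div_le_one hP0]
          linarith
      _ = 54 ^ 2 * Z ^ 2 := by ring
  calc ∑ k ∈ S, ‖(L : ℂ) * fcC F Z k - UZC F P Q ρ Z k‖ ^ 2
      ≤ ∑ k ∈ S, 3 * (‖∑ z ∈ V Z, (F z * ((L - om P Q z : ℝ) : ℂ)) * xi (-k) z‖ ^ 2 +
          ‖A2C F P Q ρ Z k‖ ^ 2 + ‖A3C F P Q ρ Z k‖ ^ 2) := by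
        refine Finset.sum_le_sum fun k _ => ?_
        rw [hdec]
        exact h3 _ _ _
    _ = 3 * (∑ k ∈ S, ‖∑ z ∈ V Z, (F z * ((L - om P Q z : ℝ) : ℂ)) * xi (-k) z‖ ^ 2 +
          ∑ k ∈ S, ‖A2C F P Q ρ Z k‖ ^ 2 + ∑ k ∈ S, ‖A3C F P Q ρ Z k‖ ^ 2) := by
        rw [← Finset.mul_sum, Finset.sum_add_distrib, Finset.sum_add_distrib]
    _ ≤ 3 * (2 * C1 * C2 * Z ^ 2 * L + 54 ^ 2 * Z ^ 2 +
          12 * C1 * C3 * Z ^ 2 * L ^ 2 * ρ) := by gcongr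
    _ ≤ 3 * (2 * C1 * C2 + 54 ^ 2 + 12 * C1 * C3) * Z ^ 2 * L ^ 2 * (1 / L + ρ) := by
        have e1 : Z ^ 2 * L ^ 2 * (1 / L) = Z ^ 2 * L := by field_simp
        have e4 : 3 * (2 * C1 * C2 + 54 ^ 2 + 12 * C1 * C3) * Z ^ 2 * L ^ 2 *
            (1 / L + ρ) = 3 * (2 * C1 * C2 + 54 ^ 2 + 12 * C1 * C3) *
              (Z ^ 2 * L + Z ^ 2 * L ^ 2 * ρ) := by
          rw [← e1]
          ring
        rw [e4]
        have p2 : 0 ≤ C1 * C2 * (Z ^ 2 * L ^ 2 * ρ) := by positivity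
        have p4 : 0 ≤ Z ^ 2 * L ^ 2 * ρ := by positivity
        have p6 : 0 ≤ C1 * C3 * (Z ^ 2 * L) := by positivity
        have p7 : Z ^ 2 ≤ Z ^ 2 * L := le_mul_of_one_le_right (by positivity) hLs
        nlinarith

end Pool.Agent.ECM
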