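import Pool.Agent.Lib_MP_f1a94e_ecm.ZDefs
import Mathlib.NumberTheory.LSeries.HurwitzZetaEven

/-!
# Piece M-THCLS: theta functions of residue classes
-/

set_option autoImplicit false

namespace Pool.Agent.ECM

open Finset Pool.Agent.GaussMR Pool.Agent.GaussCM Pool.Agent.OmAll

private def thE : ℤ × ℤ ≃ G where
  toFun p := ⟨p.1, p.2⟩
  invFun z := (z.re, z.im)
  left_inv _ := rfl
  right_inv _ := rfl

private lemma th_nm (p : ℤ × ℤ) : (nm (thE p) : ℝ) = (p.1 : ℝ) ^ 2 + (p.2 : ℝ) ^ 2 := by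
  have h := nm_eq (thE p)
  have h2 : ((nm (thE p) : ℤ) : ℝ) = (((thE p).re ^ 2 + (thE p).im ^ 2 : ℤ) : ℝ) := by rw [h]
  push_cast at h2
  exact h2

/-- one dimensional sum over a residue class -/
private lemma th_one (D : ℕ) (hD : 0 < D) (b : ℤ) (s : ℝ) (hs : 0 < s) :
    HasSum (fun x : ℤ => if (D : ℤ) ∣ x - b then Real.exp (-(s * (x : ℝ) ^ 2)) else 0)
      (HurwitzZeta.evenKernel (((b : ℝ) / D : ℝ) : UnitAddCircle) (s * D ^ 2 / Real.pi)) := by
  have hDr : (0 : ℝ) < D := by exact_mod_cast hD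
  have ht : 0 < s * D ^ 2 / Real.pi := by have := Real.pi_pos; positivity
  have h := HurwitzZeta.hasSum_int_evenKernel ((b : ℝ) / D) ht
  have hinj : Function.Injective (fun n : ℤ => (D : ℤ) * n + b) := by
    intro m n hmn
    have : (D : ℤ) * m = D * n := by simpa using hmn
    exact mul_left_cancel₀ (by exact_mod_cast hD.ne') this
  rw [← hinj.hasSum_iff]
  · refine h.congr_fun ?_
    intro n
    simp only [Function.comp]
    rw [if_pos ⟨n, by ring⟩]
    congr 1
    push_cast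
    have := Real.pi_pos
    field_simp
  · intro x hx
    rw [if_neg]
    rintro ⟨n, hn⟩
    exact hx ⟨n, by simp only; linarith⟩

/-- e.g. `exp (-s (x² + y²)) = exp (-s x²) exp (-s y²)`, product of two summable families over `ℤ` (Mathlib: `summable_pow_mul_jacobiTheta₂_term_bound`, `HurwitzZeta.hasSum_int_evenKernel`, ...), `G ≃ ℤ × ℤ`. -/
theorem summ_exp (s : ℝ) (hs : 0 < s) : Summable (fun z : G => Real.exp (-(s * nm z))) := by
  have h1 : Summable (fun x : ℤ => Real.exp (-(s * (x : ℝ) ^ 2))) := by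
    have h := (th_one 1 one_pos 0 s hs).summable
    refine h.congr ?_
    intro x
    rw [if_pos (by simp)]
  rw [← thE.summable_iff]
  have h2 := h1.mul_of_nonneg h1 (fun _ => (Real.exp_pos _).le) (fun _ => (Real.exp_pos _).le)
  refine h2.congr ?_
  intro p
  simp only [Function.comp]
  rw [th_nm, ← Real.exp_add]
  congr 1
  ring

/-- the cosine kernel is close to `1`, uniformly in the class -/
private lemma th_cos (y₀ : ℝ) (hy₀ : 0 < y₀) : ∃ C : ℝ, 0 < C ∧ ∀ (a y : ℝ), y₀ ≤ y →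
    |HurwitzZeta.cosKernel (a : UnitAddCircle) y - 1| ≤ C * Real.exp (-(Real.pi * y)) := by
  have hπ := Real.pi_pos
  have hq0 : Real.exp (-(Real.pi * y₀)) < 1 := by
    rw [Real.exp_lt_one_iff]
    have : 0 < Real.pi * y₀ := by positivity
    linarith
  refine ⟨2 / (1 - Real.exp (-(Real.pi * y₀))), by apply div_pos two_pos; linarith, ?_⟩
  intro a y hy
  have hy0 : 0 < y := lt_of_lt_of_le hy₀ hy
  have hqy : Real.exp (-(Real.pi * y)) ≤ Real.exp (-(Real.pi * y₀)) := by
    apply Real.exp_le_exp.2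
    nlinarith
  have hq1 : Real.exp (-(Real.pi * y)) < 1 := lt_of_le_of_lt hqy hq0
  have hg := (hasSum_geometric_of_lt_one (Real.exp_pos _).le hq1).mul_left
    (2 * Real.exp (-(Real.pi * y)))
  have hb : ‖HurwitzZeta.cosKernel (a : UnitAddCircle) y - 1‖ ≤
      2 * Real.exp (-(Real.pi * y)) * (1 - Real.exp (-(Real.pi * y)))⁻¹ := by
    rw [← (HurwitzZeta.hasSum_nat_cosKernel₀ a hy0).tsum_eq]
    apply tsum_of_norm_bounded hg
    intro n
    rw [Real.norm_eq_abs, abs_mul, abs_mul, abs_two, abs_of_pos (Real.exp_pos _)]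
    have h1 : |Real.cos (2 * Real.pi * a * (n + 1))| ≤ 1 := Real.abs_cos_le_one _
    have h2 : Real.exp (-Real.pi * (n + 1) ^ 2 * y) ≤
        Real.exp (-(Real.pi * y)) * Real.exp (-(Real.pi * y)) ^ n := by
      rw [← pow_succ', ← Real.exp_nat_mul]
      apply Real.exp_le_exp.2
      have h3 : (0 : ℝ) ≤ n := Nat.cast_nonneg n
      push_cast
      have h4 : 0 < Real.pi * y := by positivity
      nlinarith [mul_nonneg h4.le (mul_nonneg h3 (by linarith : (0 : ℝ) ≤ (n : ℝ) + 1))]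
    calc 2 * |Real.cos (2 * Real.pi * a * (n + 1))| * Real.exp (-Real.pi * (n + 1) ^ 2 * y)
        ≤ 2 * 1 * Real.exp (-Real.pi * (n + 1) ^ 2 * y) := by gcongr
      _ ≤ 2 * 1 * (Real.exp (-(Real.pi * y)) * Real.exp (-(Real.pi * y)) ^ n) := by gcongr
      _ = _ := by ring
  rw [Real.norm_eq_abs] at hb
  refine hb.trans ?_
  rw [← div_eq_mul_inv, div_mul_eq_mul_div]
  apply div_le_div_of_nonneg_left (by positivity) (by linarith) (by linarith)

open Classical in
/-- The class of `b` is `x ∈ b.re + D ℤ`, `y ∈ b.im + D ℤ`, and `exp (-s nm z) = exp (-s x²) exp (-s y²)`: the sum is a product of two sums `∑_n exp (-s D² (n + a)²) = evenKernel a (s D² / π)` (`HurwitzZeta.hasSum_int_evenKernel`), `a = b.re / D`, and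
`evenKernel a x = x^(-1/2) cosKernel a (1/x)` (`HurwitzZeta.evenKernel_functional_equation`), `|cosKernel a y - 1| ≤ C exp (-p y)` for `y ≥ 1` (`HurwitzZeta.isBigO_atTop_cosKernel_sub`; only the finitely many `a = j / D`; for `y` in a compact set use `cosKernel a y = ∑ cos(2 π a n) exp(-π n² y)`,
`|..| ≤ cosKernel 0 y`). -/
theorem theta_class (D : ℕ) (hD : 0 < D) : ∃ c C : ℝ, 0 < c ∧ 0 < C ∧ ∀ (b : G) (s : ℝ), 0 < s → s ≤ 1 →
    |(∑' z : G, if cg D z b then Real.exp (-(s * nm z)) else 0) - Real.pi / ((D : ℝ) ^ 2 * s)| ≤ C / s * Real.exp (-(c / s)) := by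
  have hπ := Real.pi_pos
  have hDr : (0 : ℝ) < D := by exact_mod_cast hD
  obtain ⟨K, hK, hcos⟩ := th_cos (Real.pi / (D : ℝ) ^ 2) (by positivity)
  refine ⟨Real.pi ^ 2 / (D : ℝ) ^ 2, Real.pi / (D : ℝ) ^ 2 * (K * (2 + K)), by positivity, by positivity, ?_⟩
  intro b s hs hs1
  set t := s * D ^ 2 / Real.pi with ht
  have ht0 : 0 < t := by positivity
  set c1 := HurwitzZeta.cosKernel (((b.re : ℝ) / D : ℝ) : UnitAddCircle) (1 / t) with hc1
  set c2 := HurwitzZeta.cosKernel (((b.im : ℝ) / D : ℝ) : UnitAddCircle) (1 / t) with hc2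
  have hsum : (∑' z : G, if cg D z b then Real.exp (-(s * nm z)) else 0) =
      HurwitzZeta.evenKernel (((b.re : ℝ) / D : ℝ) : UnitAddCircle) t *
        HurwitzZeta.evenKernel (((b.im : ℝ) / D : ℝ) : UnitAddCircle) t := by
    have h1 := th_one D hD b.re s hs
    have h2 := th_one D hD b.im s hs
    have h3 : Summable (fun p : ℤ × ℤ =>
        (if (D : ℤ) ∣ p.1 - b.re then Real.exp (-(s * (p.1 : ℝ) ^ 2)) else 0) *
        (if (D : ℤ) ∣ p.2 - b.im then Real.exp (-(s * (p.2 : ℝ) ^ 2)) else 0)) := by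
      apply h1.summable.mul_of_nonneg h2.summable
      · intro x
        simp only [Pi.zero_apply]
        split_ifs
        · exact (Real.exp_pos _).le
        · exact le_rfl
      · intro x
        simp only [Pi.zero_apply]
        split_ifs
        · exact (Real.exp_pos _).le
        · exact le_rfl
    have h4 := h1.mul h2 h3
    rw [← h4.tsum_eq, ← thE.tsum_eq]
    apply tsum_congr
    intro p
    have e : cg D (thE p) b ↔ (D : ℤ) ∣ p.1 - b.re ∧ (D : ℤ) ∣ p.2 - b.im := Iff.rfl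
    by_cases ha : (D : ℤ) ∣ p.1 - b.re <;> by_cases hb : (D : ℤ) ∣ p.2 - b.im
    · rw [if_pos (e.2 ⟨ha, hb⟩), if_pos ha, if_pos hb, th_nm, ← Real.exp_add]
      congr 1
      ring
    · rw [if_neg (fun h => hb (e.1 h).2), if_neg hb, mul_zero]
    · rw [if_neg (fun h => ha (e.1 h).1), if_neg ha, zero_mul]
    · rw [if_neg (fun h => ha (e.1 h).1), if_neg ha, zero_mul]
  have hprod : HurwitzZeta.evenKernel (((b.re : ℝ) / D : ℝ) : UnitAddCircle) t *
        HurwitzZeta.evenKernel (((b.im : ℝ) / D : ℝ) : UnitAddCircle) t =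
      Real.pi / ((D : ℝ) ^ 2 * s) * (c1 * c2) := by
    rw [HurwitzZeta.evenKernel_functional_equation, HurwitzZeta.evenKernel_functional_equation]
    have h5 : t ^ (1 / 2 : ℝ) * t ^ (1 / 2 : ℝ) = t := by
      rw [← Real.rpow_add ht0]
      norm_num
    have h6 : 1 / t = Real.pi / ((D : ℝ) ^ 2 * s) := by
      rw [ht, one_div_div]
      ring
    calc 1 / t ^ (1 / 2 : ℝ) * c1 * (1 / t ^ (1 / 2 : ℝ) * c2)
        = 1 / (t ^ (1 / 2 : ℝ) * t ^ (1 / 2 : ℝ)) * (c1 * c2) := by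
          field_simp
      _ = _ := by rw [h5, h6]
  have hy : Real.pi / (D : ℝ) ^ 2 ≤ 1 / t := by
    rw [ht, one_div_div]
    apply div_le_div_of_nonneg_left hπ.le (by positivity)
    nlinarith [sq_nonneg (D : ℝ)]
  have hE : Real.exp (-(Real.pi * (1 / t))) = Real.exp (-(Real.pi ^ 2 / (D : ℝ) ^ 2 / s)) := by
    congr 2
    rw [ht, one_div_div]
    field_simp
  have b1 := hcos ((b.re : ℝ) / D) (1 / t) hy
  have b2 := hcos ((b.im : ℝ) / D) (1 / t) hy
  rw [← hc1, hE] at b1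
  rw [← hc2, hE] at b2
  set E := Real.exp (-(Real.pi ^ 2 / (D : ℝ) ^ 2 / s)) with hEdef
  have hE0 : 0 < E := Real.exp_pos _
  have hE1 : E ≤ 1 := by
    rw [hEdef, Real.exp_le_one_iff]
    have : 0 < Real.pi ^ 2 / (D : ℝ) ^ 2 / s := by positivity
    linarith
  have h7 : |c1 * c2 - 1| ≤ K * (2 + K) * E := by
    have e1 : c1 * c2 - 1 = (c1 - 1) * (c2 - 1) + (c1 - 1) + (c2 - 1) := by ring
    rw [e1]
    have a1 : |(c1 - 1) * (c2 - 1)| ≤ (K * E) * (K * E) := by
      rw [abs_mul]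
      exact mul_le_mul b1 b2 (abs_nonneg _) (by positivity)
    have a2 : (K * E) * (K * E) ≤ K * K * E := by
      have : K * E * (K * E) = K * K * E * E := by ring
      rw [this]
      exact mul_le_of_le_one_right (by positivity) hE1
    calc |(c1 - 1) * (c2 - 1) + (c1 - 1) + (c2 - 1)|
        ≤ |(c1 - 1) * (c2 - 1)| + |c1 - 1| + |c2 - 1| := abs_add_three _ _ _
      _ ≤ K * K * E + K * E + K * E := by linarith
      _ = K * (2 + K) * E := by ring
  rw [hsum, hprod]
  have e2 : Real.pi / ((D : ℝ) ^ 2 * s) * (c1 * c2) - Real.pi / ((D : ℝ) ^ 2 * s) =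
      Real.pi / ((D : ℝ) ^ 2 * s) * (c1 * c2 - 1) := by ring
  rw [e2, abs_mul, abs_of_pos (by positivity : 0 < Real.pi / ((D : ℝ) ^ 2 * s))]
  calc Real.pi / ((D : ℝ) ^ 2 * s) * |c1 * c2 - 1|
      ≤ Real.pi / ((D : ℝ) ^ 2 * s) * (K * (2 + K) * E) := by gcongr
    _ = _ := by field_simp

end Pool.Agent.ECM
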