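import Pool.Agent.Lib_MP_f1a94e_ecm.ThCls

/-!
# Piece M-THH: bounds for the exponential series of a character
-/

set_option autoImplicit false

namespace Pool.Agent.ECM

open Finset Pool.Agent.GaussMR Pool.Agent.GaussCM Pool.Agent.OmAll

private theorem hh_cg_iff (D : ℕ) (u v : G) : cg D u v ↔ ((D : ℤ) : G) ∣ u - v := by
  unfold cg
  rw [Zsqrtd.intCast_dvd]
  simp

private theorem hh_cg_refl (D : ℕ) (u : G) : cg D u u := by
  rw [hh_cg_iff]; simp

private theorem hh_cg_symm {D : ℕ} {u v : G} (h : cg D u v) : cg D v u := by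
  rw [hh_cg_iff] at *
  rw [← neg_sub]; exact (dvd_neg).2 h

private theorem hh_cg_trans {D : ℕ} {u v w : G} (h : cg D u v) (h' : cg D v w) : cg D u w := by
  rw [hh_cg_iff] at *
  have : u - w = (u - v) + (v - w) := by ring
  rw [this]; exact dvd_add h h'

private theorem hh_cg_mul {D : ℕ} {u v : G} (w : G) (h : cg D u v) : cg D (w * u) (w * v) := by
  rw [hh_cg_iff] at *
  rw [← mul_sub]; exact dvd_mul_of_dvd_right h w

private theorem hh_cg_mul' {D : ℕ} {u v : G} (w : G) (h : cg D u v) : cg D (u * w) (v * w) := by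
  rw [mul_comm u, mul_comm v]; exact hh_cg_mul w h

/-- representative with coordinates in `[0, D)` -/
private def hhrd (D : ℕ) (z : G) : G := ⟨z.re % D, z.im % D⟩

private noncomputable def hhR (D : ℕ) : Finset G :=
  open Classical in ((range D ×ˢ range D).image (fun w : ℕ × ℕ => (⟨(w.1 : ℤ), (w.2 : ℤ)⟩ : G)))

private theorem hh_mem (D : ℕ) (z : G) :
    z ∈ hhR D ↔ (0 ≤ z.re ∧ z.re < D) ∧ (0 ≤ z.im ∧ z.im < D) := by
  classical
  unfold hhR
  rw [mem_image]
  constructor
  · rintro ⟨w, hw, rfl⟩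
    rw [mem_product, mem_range, mem_range] at hw
    refine ⟨⟨by simp, by simpa using hw.1⟩, ⟨by simp, by simpa using hw.2⟩⟩
  · rintro ⟨⟨h1, h2⟩, h3, h4⟩
    refine ⟨(z.re.toNat, z.im.toNat), ?_, ?_⟩
    · rw [mem_product, mem_range, mem_range]
      constructor
      · show z.re.toNat < D
        omega
      · show z.im.toNat < D
        omega
    · apply Zsqrtd.ext
      · simp [h1]
      · simp [h3]

private theorem hh_card (D : ℕ) : ((hhR D).card : ℝ) ≤ (D : ℝ) ^ 2 := by
  classical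
  have : (hhR D).card ≤ D ^ 2 := by
    unfold hhR
    refine le_trans card_image_le ?_
    rw [card_product, card_range]
    exact le_of_eq (by ring)
  exact_mod_cast this

private theorem hh_rd_mem (D : ℕ) (hD : 0 < D) (z : G) : hhrd D z ∈ hhR D := by
  rw [hh_mem]
  have hD' : (0 : ℤ) < D := by exact_mod_cast hD
  refine ⟨⟨Int.emod_nonneg _ hD'.ne', Int.emod_lt_of_pos _ hD'⟩,
    ⟨Int.emod_nonneg _ hD'.ne', Int.emod_lt_of_pos _ hD'⟩⟩

private theorem hh_rd_cg (D : ℕ) (z : G) : cg D (hhrd D z) z := by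
  unfold cg hhrd
  constructor
  · have := Int.emod_add_mul_ediv z.re D
    exact ⟨-(z.re / D), by simp only; linarith⟩
  · have := Int.emod_add_mul_ediv z.im D
    exact ⟨-(z.im / D), by simp only; linarith⟩

private theorem hh_unique (D : ℕ) {u v : G} (hu : u ∈ hhR D) (hv : v ∈ hhR D)
    (h : cg D u v) : u = v := by
  rw [hh_mem] at hu hv
  obtain ⟨h1, h2⟩ := h
  have key : ∀ a b : ℤ, 0 ≤ a → a < D → 0 ≤ b → b < D → (D : ℤ) ∣ a - b → a = b := by
    intro a b ha ha' hb hb' hd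
    have := Int.eq_zero_of_abs_lt_dvd hd (by rw [abs_lt]; constructor <;> linarith)
    linarith
  exact Zsqrtd.ext (key _ _ hu.1.1 hu.1.2 hv.1.1 hv.1.2 h1) (key _ _ hu.2.1 hu.2.2 hv.2.1 hv.2.2 h2)

private theorem hh_sum_zero (D : ℕ) (hD : 0 < D) (χ : G → ℂ) (hχ : Chi D χ) (hp : ¬ Pri D χ) :
    ∑ c ∈ hhR D, χ c = 0 := by
  unfold Pri at hp
  push Not at hp
  obtain ⟨z, ⟨w, hw⟩, hz⟩ := hp
  have hw' : cg D (w * z) 1 := by rwa [mul_comm]
  have h1 : ∑ c ∈ hhR D, χ c = ∑ c ∈ hhR D, χ (z * c) := by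
    refine (Finset.sum_nbij' (fun c => hhrd D (z * c)) (fun c => hhrd D (w * c)) ?_ ?_ ?_ ?_ ?_).symm
    · intro c _; exact hh_rd_mem D hD _
    · intro c _; exact hh_rd_mem D hD _
    · intro c hc
      refine hh_unique D (hh_rd_mem D hD _) hc ?_
      refine hh_cg_trans (hh_rd_cg D _) ?_
      refine hh_cg_trans (hh_cg_mul w (hh_rd_cg D _)) ?_
      rw [← mul_assoc]
      have := hh_cg_mul' c hw'
      rwa [one_mul] at this
    · intro c hc
      refine hh_unique D (hh_rd_mem D hD _) hc ?_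
      refine hh_cg_trans (hh_rd_cg D _) ?_
      refine hh_cg_trans (hh_cg_mul z (hh_rd_cg D _)) ?_
      rw [← mul_assoc]
      have := hh_cg_mul' c hw
      rwa [one_mul] at this
    · intro c _
      exact (hχ.per _ _ (hh_rd_cg D _)).symm
  have h2 : ∑ c ∈ hhR D, χ (z * c) = χ z * ∑ c ∈ hhR D, χ c := by
    rw [mul_sum]
    exact sum_congr rfl (fun c _ => hχ.mul z c)
  rw [h2] at h1
  have h3 : (χ z - 1) * ∑ c ∈ hhR D, χ c = 0 := by
    rw [sub_mul, one_mul, ← h1, sub_self]
  rcases mul_eq_zero.1 h3 with h4 | h4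
  · exact absurd (sub_eq_zero.1 h4) hz
  · exact h4


private theorem hh_term_le {D : ℕ} {χ : G → ℂ} (hχ : Chi D χ) (s : ℝ) (z : G) :
    ‖χ z * (Real.exp (-(s * nm z)) : ℂ)‖ ≤ Real.exp (-(s * nm z)) := by
  rw [norm_mul, Complex.norm_real, Real.norm_eq_abs, abs_of_pos (Real.exp_pos _)]
  have h1 := hχ.le z
  have h2 := Real.exp_pos (-(s * nm z))
  nlinarith

private theorem hh_summ {D : ℕ} {χ : G → ℂ} (hχ : Chi D χ) (s : ℝ) (hs : 0 < s) :
    Summable (fun z : G => χ z * (Real.exp (-(s * nm z)) : ℂ)) :=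
  Summable.of_norm_bounded (summ_exp s hs) (fun z => hh_term_le hχ s z)

private theorem hh_zero {D : ℕ} {χ : G → ℂ} (hχ : Chi D χ) : χ 0 = 0 := by
  apply hχ.even
  rw [nm_zero]; decide

open Classical in
private theorem hh_split (D : ℕ) (hD : 0 < D) (χ : G → ℂ) (hχ : Chi D χ) (s : ℝ) (hs : 0 < s) :
    HH χ s = ∑ c ∈ hhR D, χ c * ((∑' z : G, if cg D z c then Real.exp (-(s * nm z)) else 0 : ℝ) : ℂ) := by
  have hsum : ∀ c : G, Summable (fun z : G => if cg D z c then Real.exp (-(s * nm z)) else 0) := by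
    intro c
    refine Summable.of_nonneg_of_le (fun z => ?_) (fun z => ?_) (summ_exp s hs)
    · split_ifs
      · exact (Real.exp_pos _).le
      · exact le_rfl
    · split_ifs
      · exact le_rfl
      · exact (Real.exp_pos _).le
  have h1 : ∀ c ∈ hhR D, χ c * ((∑' z : G, if cg D z c then Real.exp (-(s * nm z)) else 0 : ℝ) : ℂ) =
      ∑' z : G, χ c * ((if cg D z c then Real.exp (-(s * nm z)) else 0 : ℝ) : ℂ) := by
    intro c _
    rw [Complex.ofReal_tsum, tsum_mul_left]
  rw [Finset.sum_congr rfl h1, ← Summable.tsum_finsetSum]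
  · unfold HH
    apply tsum_congr
    intro z
    rw [Finset.sum_eq_single (hhrd D z)]
    · rw [if_pos (hh_cg_symm (hh_rd_cg D z)), hχ.per _ _ (hh_rd_cg D z)]
    · intro c hc hne
      have hnot : ¬ cg D z c := by
        intro h
        exact hne (hh_unique D hc (hh_rd_mem D hD z) (hh_cg_symm (hh_cg_trans (hh_rd_cg D z) h)))
      rw [if_neg hnot]
      simp
    · intro h
      exact absurd (hh_rd_mem D hD z) h
  · intro c _
    have := (hsum c)
    have h2 : Summable (fun z : G => ((if cg D z c then Real.exp (-(s * nm z)) else 0 : ℝ) : ℂ)) :=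
      Complex.ofRealCLM.summable this
    exact h2.mul_left _

/-- Split `HH χ s` into the `D²` residue classes: `∑_b χ b (π / (D² s) + O(exp (-c/s) / s))` and `∑_(b mod D) χ b = 0` since `χ` is not principal (`χ c ≠ 1` for some invertible `c`, multiplication by `c` permutes the classes; see the proof of `typeChi`). -/
theorem HH_small (D : ℕ) (hD : 0 < D) (χ : G → ℂ) (hχ : Chi D χ) (hnp : ¬ Pri D χ) : ∃ c C : ℝ, 0 < c ∧ 0 < C ∧
    ∀ s : ℝ, 0 < s → s ≤ 1 → ‖HH χ s‖ ≤ C / s * Real.exp (-(c / s)) := by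
  classical
  obtain ⟨c, C, hc, hC, h⟩ := theta_class D hD
  have hD' : (0 : ℝ) < D := by exact_mod_cast hD
  refine ⟨c, (D : ℝ) ^ 2 * C, hc, by positivity, ?_⟩
  intro s hs hs1
  rw [hh_split D hD χ hχ s hs]
  have h0 := hh_sum_zero D hD χ hχ hnp
  have h2 : ∑ b ∈ hhR D, χ b * ((∑' z : G, if cg D z b then Real.exp (-(s * nm z)) else 0 : ℝ) : ℂ) =
      ∑ b ∈ hhR D, χ b * (((∑' z : G, if cg D z b then Real.exp (-(s * nm z)) else 0) - Real.pi / ((D : ℝ) ^ 2 * s) : ℝ) : ℂ) := by
    have : ∑ b ∈ hhR D, χ b * ((Real.pi / ((D : ℝ) ^ 2 * s) : ℝ) : ℂ) = 0 := by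
      rw [← Finset.sum_mul, h0, zero_mul]
    rw [← sub_zero (∑ b ∈ hhR D, χ b * ((∑' z : G, if cg D z b then Real.exp (-(s * nm z)) else 0 : ℝ) : ℂ)), ← this,
      ← Finset.sum_sub_distrib]
    apply Finset.sum_congr rfl
    intro b _
    push_cast
    ring
  rw [h2]
  have hE : 0 ≤ C / s * Real.exp (-(c / s)) := by positivity
  calc ‖∑ b ∈ hhR D, χ b * (((∑' z : G, if cg D z b then Real.exp (-(s * nm z)) else 0) - Real.pi / ((D : ℝ) ^ 2 * s) : ℝ) : ℂ)‖
      ≤ ∑ b ∈ hhR D, ‖χ b * (((∑' z : G, if cg D z b then Real.exp (-(s * nm z)) else 0) - Real.pi / ((D : ℝ) ^ 2 * s) : ℝ) : ℂ)‖ :=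
        norm_sum_le _ _
    _ ≤ ∑ b ∈ hhR D, C / s * Real.exp (-(c / s)) := by
        apply Finset.sum_le_sum
        intro b _
        rw [norm_mul, Complex.norm_real, Real.norm_eq_abs]
        have h3 := h b s hs hs1
        have h4 := hχ.le b
        calc ‖χ b‖ * _ ≤ 1 * _ := mul_le_mul_of_nonneg_right h4 (abs_nonneg _)
          _ = _ := one_mul _
          _ ≤ _ := h3
    _ = (hhR D).card * (C / s * Real.exp (-(c / s))) := by rw [Finset.sum_const, nsmul_eq_mul]
    _ ≤ (D : ℝ) ^ 2 * (C / s * Real.exp (-(c / s))) := mul_le_mul_of_nonneg_right (hh_card D) hE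
    _ = _ := by ring

/-- `χ 0 = 0`, `nm z ≥ 1` otherwise, `exp (-s nm z) ≤ exp (-s/2) exp (-nm z / 2)` for `s ≥ 1`. -/
theorem HH_large (D : ℕ) (χ : G → ℂ) (hχ : Chi D χ) : ∃ C : ℝ, 0 < C ∧ ∀ s : ℝ, 1 ≤ s → ‖HH χ s‖ ≤ C * Real.exp (-(s / 2)) := by
  have hS := summ_exp (1 / 2) (by norm_num)
  have hS0 : 0 ≤ ∑' z : G, Real.exp (-((1 / 2 : ℝ) * nm z)) := tsum_nonneg (fun z => (Real.exp_pos _).le)
  refine ⟨(∑' z : G, Real.exp (-((1 / 2 : ℝ) * nm z))) + 1, by positivity, ?_⟩
  intro s hs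
  have hs0 : 0 < s := by linarith
  have hle : ∀ z : G, ‖χ z * (Real.exp (-(s * nm z)) : ℂ)‖ ≤ Real.exp (-((1 / 2 : ℝ) * nm z)) * Real.exp (-(s / 2)) := by
    intro z
    by_cases hz : z = 0
    · subst hz
      rw [hh_zero hχ, zero_mul, norm_zero]
      positivity
    · refine le_trans (hh_term_le hχ s z) ?_
      rw [← Real.exp_add]
      apply Real.exp_le_exp.2
      have h1 : (1 : ℝ) ≤ nm z := by exact_mod_cast nm_pos hz
      nlinarith
  have hsum2 : Summable (fun z : G => Real.exp (-((1 / 2 : ℝ) * nm z)) * Real.exp (-(s / 2))) := hS.mul_right _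
  calc ‖HH χ s‖ ≤ ∑' z : G, Real.exp (-((1 / 2 : ℝ) * nm z)) * Real.exp (-(s / 2)) := by
        unfold HH
        exact tsum_of_norm_bounded hsum2.hasSum hle
    _ = (∑' z : G, Real.exp (-((1 / 2 : ℝ) * nm z))) * Real.exp (-(s / 2)) := tsum_mul_right
    _ ≤ _ := mul_le_mul_of_nonneg_right (by linarith) (Real.exp_pos _).le

/-- uniform convergence on `[δ, ∞)` (`continuousOn_tsum`) -/
theorem HH_cont (D : ℕ) (χ : G → ℂ) (hχ : Chi D χ) : ContinuousOn (HH χ) (Set.Ioi 0) := by
  have key : ∀ δ : ℝ, 0 < δ → ContinuousOn (HH χ) (Set.Ioi δ) := by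
    intro δ hδ
    refine continuousOn_tsum (u := fun z : G => Real.exp (-(δ * nm z))) ?_ (summ_exp δ hδ) ?_
    · intro z
      apply Continuous.continuousOn
      fun_prop
    · intro z s hs
      refine le_trans (hh_term_le hχ s z) ?_
      apply Real.exp_le_exp.2
      have h1 : (0 : ℝ) ≤ nm z := Nat.cast_nonneg _
      have h2 : δ < s := hs
      nlinarith
  intro s hs
  have hs' : 0 < s := hs
  have h1 := key (s / 2) (by linarith)
  have h2 : ContinuousAt (HH χ) s := h1.continuousAt (Ioi_mem_nhds (by linarith))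
  exact h2.continuousWithinAt

open Classical in
private theorem th_summ (u : ℝ) (hu : 0 < u) : Summable (fun z : G => if z = 0 then 0 else Real.exp (-(u * nm z))) := by
  refine Summable.of_nonneg_of_le (fun z => ?_) (fun z => ?_) (summ_exp u hu)
  · split_ifs
    · exact le_rfl
    · exact (Real.exp_pos _).le
  · split_ifs
    · exact (Real.exp_pos _).le
    · exact le_rfl

/-- `theta_class` with `D = 1` (the constant term `1` is the term `z = 0`) -/
theorem Th_small : ∃ c C : ℝ, 0 < c ∧ 0 < C ∧ ∀ u : ℝ, 0 < u → u ≤ 1 → |Th u - Real.pi / u + 1| ≤ C / u * Real.exp (-(c / u)) := by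
  classical
  obtain ⟨c, C, hc, hC, h⟩ := theta_class 1 one_pos
  refine ⟨c, C, hc, hC, ?_⟩
  intro u hu hu1
  have h1 := h 0 u hu hu1
  have h2 : (∑' z : G, if cg 1 z 0 then Real.exp (-(u * nm z)) else 0) = Th u + 1 := by
    have e1 : ∀ z : G, (if cg 1 z 0 then Real.exp (-(u * nm z)) else 0) =
        (if z = 0 then 0 else Real.exp (-(u * nm z))) + (if z = 0 then 1 else 0) := by
      intro z
      have : cg 1 z 0 := by unfold cg; simp
      rw [if_pos this]
      by_cases hz : z = 0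
      · subst hz; simp
      · simp [hz]
    rw [tsum_congr e1, Summable.tsum_add (th_summ u hu)]
    · rw [tsum_ite_eq]
      rfl
    · exact (hasSum_ite_eq (0 : G) (1 : ℝ)).summable
  rw [h2] at h1
  have h3 : Th u + 1 - Real.pi / (((1 : ℕ) : ℝ) ^ 2 * u) = Th u - Real.pi / u + 1 := by
    push_cast
    rw [one_pow, one_mul]; ring
  rw [h3] at h1
  exact h1

/-- as `HH_large`, `HH_cont` -/
theorem Th_large : (∀ u : ℝ, 0 < u → 0 ≤ Th u) ∧ (∃ C : ℝ, 0 < C ∧ ∀ u : ℝ, 1 ≤ u → Th u ≤ C * Real.exp (-(u / 2))) ∧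
    ContinuousOn Th (Set.Ioi 0) := by
  classical
  refine ⟨?_, ?_, ?_⟩
  · intro u _
    unfold Th
    apply tsum_nonneg
    intro z
    split_ifs
    · exact le_rfl
    · exact (Real.exp_pos _).le
  · have hS := summ_exp (1 / 2) (by norm_num)
    have hS0 : 0 ≤ ∑' z : G, Real.exp (-((1 / 2 : ℝ) * nm z)) := tsum_nonneg (fun z => (Real.exp_pos _).le)
    refine ⟨(∑' z : G, Real.exp (-((1 / 2 : ℝ) * nm z))) + 1, by positivity, ?_⟩
    intro u hu
    have hu0 : 0 < u := by linarith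
    have hsum2 : Summable (fun z : G => Real.exp (-((1 / 2 : ℝ) * nm z)) * Real.exp (-(u / 2))) := hS.mul_right _
    calc Th u ≤ ∑' z : G, Real.exp (-((1 / 2 : ℝ) * nm z)) * Real.exp (-(u / 2)) := by
          unfold Th
          refine Summable.tsum_le_tsum (fun z => ?_) (th_summ u hu0) hsum2
          split_ifs with hz
          · positivity
          · rw [← Real.exp_add]
            apply Real.exp_le_exp.2
            have h1 : (1 : ℝ) ≤ nm z := by exact_mod_cast nm_pos hz
            nlinarith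
      _ = (∑' z : G, Real.exp (-((1 / 2 : ℝ) * nm z))) * Real.exp (-(u / 2)) := tsum_mul_right
      _ ≤ _ := mul_le_mul_of_nonneg_right (by linarith) (Real.exp_pos _).le
  · have key : ∀ δ : ℝ, 0 < δ → ContinuousOn Th (Set.Ioi δ) := by
      intro δ hδ
      unfold Th
      refine continuousOn_tsum (u := fun z : G => Real.exp (-(δ * nm z))) ?_ (summ_exp δ hδ) ?_
      · intro z
        apply Continuous.continuousOn
        split_ifs
        · exact continuous_const
        · fun_prop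
      · intro z s hs
        have h1 : (0 : ℝ) ≤ nm z := Nat.cast_nonneg _
        have h2 : δ < s := hs
        split_ifs
        · rw [norm_zero]; positivity
        · rw [Real.norm_eq_abs, abs_of_pos (Real.exp_pos _)]
          apply Real.exp_le_exp.2
          nlinarith
    intro s hs
    have hs' : 0 < s := hs
    have h1 := key (s / 2) (by linarith)
    have h2 : ContinuousAt Th s := h1.continuousAt (Ioi_mem_nhds (by linarith))
    exact h2.continuousWithinAt

end Pool.Agent.ECM
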