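import Pool.Agent.Lib_MP_f1a94e_ecm.TypeI
import Pool.Agent.Lib_MP_f1a94e_mr.Weight

/-!
# Piece M-WEIGHT: the sifted weights in arithmetic progressions
-/

set_option autoImplicit false

namespace Pool.Agent.ECM

open Finset Pool.Agent.GaussMR Pool.Agent.GaussCM Pool.Agent.OmAll

open Classical in
private theorem weight2_ob_sum {D : ℕ} {χ : G → ℂ} (hχ : Chi D χ) (k : ℤ) (t : ℝ) :
    ∑ z ∈ ob t, χ z * xi k z = ∑ z ∈ ball t, χ z * xi k z := by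
  rw [← Weight.sum_odd]
  refine Finset.sum_congr rfl fun z _ => ?_
  split_ifs with h
  · rfl
  · rw [hχ.even z h, zero_mul]

open Classical in
/-- As `weight` (Lib_MP_f1a94e_mr/Weight.lean). Substitute `u = d s` (`reindex`): the sum is `(1 / nm d) (∑ 1 / nm s - Re (χ d xi k d ∑ χ s xi k s / nm s))`, `s` odd, `Y^(1/2) / nm d < nm s ≤ Y^(3/4) / nm d`.
First part: `partial_odd` with `odd_asymp`: `κ_odd log (Y^(1/4)) + O((Y^(1/2) / nm d)^(-1/2))`, so `κ = κ_odd / 4`. Second part: `partial_sum` (Psum.lean) with `κ = 0`, `c z = χ z xi k z` (zero for even `z`), `typeChi` with `4 A`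
(`|k| ≤ Y^A ≤ t^(4 A)` for `t ≥ Y^(1/4)`): `≤ C (Y^(1/2) / nm d)^(-η') ≤ C Y^(-η'/4)`. -/
theorem weight2 : ∃ κ : ℝ, 0 < κ ∧ ∀ (D : ℕ) (A : ℝ), 0 < D → 1 ≤ A → ∃ η Y0 : ℝ, 0 < η ∧ ∀ Y : ℝ, Y0 ≤ Y →
    ∀ χ : G → ℂ, Chi D χ → ∀ k : ℤ, (k ≠ 0 ∨ ¬ Pri D χ) → |(k : ℝ)| ≤ Y ^ A →
    ∀ d : G, Odd (nm d) → (nm d : ℝ) ≤ Y ^ (1 / 4 : ℝ) →
    |∑ u ∈ (ob (Y ^ (3 / 4 : ℝ)) \ ob (Y ^ (1 / 2 : ℝ))).filter (fun u => d ∣ u),
      (1 / (nm u : ℝ)) * (1 - (χ u * xi k u).re) - κ * Real.log Y / nm d| ≤ Y ^ (-η) / nm d := by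
  obtain ⟨κ0, C, hκ0, hC, hodd⟩ := odd_asymp
  refine ⟨κ0 / 4, by positivity, ?_⟩
  intro D A hD hA
  obtain ⟨η', C', hη', hη'2, hC', htype⟩ := typeChi D hD (4 * A) (by linarith)
  have hev : ∀ᶠ Y : ℝ in Filter.atTop, 8 * C + 4 * C' / η' ≤ Y ^ (η' / 8) :=
    (tendsto_rpow_atTop (by positivity)).eventually_ge_atTop _
  obtain ⟨Y0, hY0⟩ := Filter.eventually_atTop.1 hev
  refine ⟨η' / 8, max Y0 1, by positivity, ?_⟩
  intro Y hY χ hχ k hk hkY d hd hdY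
  have hY1 : 1 ≤ Y := (le_max_right _ _).trans hY
  have hYpos : 0 < Y := by linarith
  have he2 := hY0 Y ((le_max_left _ _).trans hY)
  have hd0 : d ≠ 0 := ne_zero_of_odd hd
  have hn : (0 : ℝ) < nm d := by exact_mod_cast nm_pos hd0
  set T1 : ℝ := Y ^ (1 / 2 : ℝ) / nm d with hT1
  set T2 : ℝ := Y ^ (3 / 4 : ℝ) / nm d with hT2
  have hT1low : Y ^ (1 / 4 : ℝ) ≤ T1 := by
    rw [hT1, le_div_iff₀ hn]
    calc Y ^ (1 / 4 : ℝ) * nm d ≤ Y ^ (1 / 4 : ℝ) * Y ^ (1 / 4 : ℝ) :=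
          mul_le_mul_of_nonneg_left hdY (Real.rpow_nonneg hYpos.le _)
      _ = Y ^ (1 / 2 : ℝ) := by rw [← Real.rpow_add hYpos]; norm_num
  have hT1one : 1 ≤ T1 := (Real.one_le_rpow hY1 (by norm_num)).trans hT1low
  have hT1pos : 0 < T1 := by linarith
  have hT12 : T1 ≤ T2 := by
    rw [hT1, hT2]
    exact div_le_div_of_nonneg_right (Real.rpow_le_rpow_of_exponent_le hY1 (by norm_num)) hn.le
  have hlog : Real.log (T2 / T1) = 1 / 4 * Real.log Y := by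
    have h1 : T2 / T1 = Y ^ (1 / 4 : ℝ) := by
      rw [hT1, hT2, div_div_div_cancel_right₀ hn.ne', ← Real.rpow_sub hYpos]
      norm_num
    rw [h1, Real.log_rpow hYpos]
  -- the two sums
  have hA1 := Weight.partial_odd (1 / 2) (by norm_num) (by norm_num) (fun _ => 1) (κ0 : ℂ) C T1 T2
    hT1one hT12 hC.le (by
      intro t ht1 ht2
      have h1 := hodd t (by linarith)
      have h2 : ∑ z ∈ ob t, (1 : ℂ) - (κ0 : ℂ) * (t : ℂ) =
          ((((ob t).card : ℝ) - κ0 * t : ℝ) : ℂ) := by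
        push_cast
        simp
      rw [h2, Complex.norm_real, Real.norm_eq_abs]
      refine h1.trans (le_of_eq ?_)
      rw [Real.sqrt_eq_rpow]
      norm_num)
  have hB := Weight.partial_odd η' hη' (by linarith) (fun z => χ z * xi k z) 0
    C' T1 T2 hT1one hT12 hC'.le (by
      intro t ht1 ht2
      have h1 : |(k : ℝ)| ≤ t ^ (4 * A) := by
        calc |(k : ℝ)| ≤ Y ^ A := hkY
          _ = Y ^ ((1 / 4) * (4 * A) : ℝ) := by congr 1; ring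
          _ = (Y ^ (1 / 4 : ℝ)) ^ (4 * A) := by rw [Real.rpow_mul hYpos.le]
          _ ≤ t ^ (4 * A) :=
            Real.rpow_le_rpow (Real.rpow_nonneg hYpos.le _) (hT1low.trans ht1) (by linarith)
      have h3 := htype χ hχ t k (hT1one.trans ht1) hk h1
      rw [zero_mul, sub_zero, weight2_ob_sum hχ]
      exact h3)
  rw [Weight.reindex hd]
  -- bounds for the powers of T1
  have hp1 : T1 ^ (-(1 / 2) : ℝ) ≤ Y ^ (-(η' / 4) : ℝ) := by
    calc T1 ^ (-(1 / 2) : ℝ) ≤ (Y ^ (1 / 4 : ℝ)) ^ (-(1 / 2) : ℝ) :=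
          Real.rpow_le_rpow_of_nonpos (Real.rpow_pos_of_pos hYpos _) hT1low (by norm_num)
      _ = Y ^ (1 / 4 * (-(1 / 2)) : ℝ) := by rw [Real.rpow_mul hYpos.le]
      _ ≤ Y ^ (-(η' / 4) : ℝ) := Real.rpow_le_rpow_of_exponent_le hY1 (by linarith)
  have hp2 : T1 ^ (-η' : ℝ) ≤ Y ^ (-(η' / 4) : ℝ) := by
    calc T1 ^ (-η' : ℝ) ≤ (Y ^ (1 / 4 : ℝ)) ^ (-η' : ℝ) :=
          Real.rpow_le_rpow_of_nonpos (Real.rpow_pos_of_pos hYpos _) hT1low (by linarith)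
      _ = Y ^ (-(η' / 4) : ℝ) := by rw [← Real.rpow_mul hYpos.le]; congr 1; ring
  set SA : ℂ := ∑ z ∈ ob T2 \ ob T1, (1 : ℂ) / (nm z : ℂ) with hSA
  set SB : ℂ := ∑ z ∈ ob T2 \ ob T1, χ z * xi k z / (nm z : ℂ) with hSB
  have hsum : ∑ s ∈ ob T2 \ ob T1, (1 / (nm (d * s) : ℝ)) * (1 - (χ (d * s) * xi k (d * s)).re) =
      (1 / (nm d : ℝ)) * (SA - χ d * xi k d * SB).re := by
    rw [hSA, hSB, Finset.mul_sum, ← Finset.sum_sub_distrib, Complex.re_sum, Finset.mul_sum]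
    refine Finset.sum_congr rfl fun s _ => ?_
    rw [nm_mul, xi_mul, hχ.mul]
    have h1 : (1 : ℂ) / (nm s : ℂ) - χ d * xi k d * (χ s * xi k s / (nm s : ℂ)) =
        ((1 / (nm s : ℝ) : ℝ) : ℂ) * (1 - χ d * χ s * (xi k d * xi k s)) := by
      push_cast
      ring
    rw [h1, Complex.re_ofReal_mul, Complex.sub_re, Complex.one_re]
    push_cast
    rw [← mul_assoc (1 / (nm d : ℝ)), one_div_mul_one_div]
  rw [hsum]
  have hnxi : ‖χ d * xi k d‖ ≤ 1 := by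
    rw [norm_mul, norm_xi _ hd0, mul_one]
    exact hχ.le d
  have hfin : |(SA - χ d * xi k d * SB).re - κ0 / 4 * Real.log Y| ≤
      (8 * C + 4 * C' / η') * Y ^ (-(η' / 4) : ℝ) := by
    have h1 : (SA - χ d * xi k d * SB).re - κ0 / 4 * Real.log Y =
        ((SA - (κ0 : ℂ) * (Real.log (T2 / T1) : ℂ)) - χ d * xi k d *
          (SB - 0 * (Real.log (T2 / T1) : ℂ))).re := by
      rw [hlog]
      have h2 : (SA - (κ0 : ℂ) * ((1 / 4 * Real.log Y : ℝ) : ℂ)) - χ d * xi k d *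
          (SB - 0 * ((1 / 4 * Real.log Y : ℝ) : ℂ)) =
          (SA - χ d * xi k d * SB) - ((κ0 / 4 * Real.log Y : ℝ) : ℂ) := by
        push_cast
        ring
      rw [h2, Complex.sub_re (SA - χ d * xi k d * SB), Complex.ofReal_re]
    rw [h1]
    refine (Complex.abs_re_le_norm _).trans ((norm_sub_le _ _).trans ?_)
    have h0 : ‖χ d * xi k d * (SB - 0 * (Real.log (T2 / T1) : ℂ))‖ ≤
        ‖SB - 0 * (Real.log (T2 / T1) : ℂ)‖ := by
      rw [norm_mul]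
      exact mul_le_of_le_one_left (norm_nonneg _) hnxi
    have h3 : 4 * C / (1 / 2) * T1 ^ (-(1 / 2) : ℝ) ≤ 8 * C * Y ^ (-(η' / 4) : ℝ) := by
      have : 4 * C / (1 / 2) = 8 * C := by ring
      rw [this]
      exact mul_le_mul_of_nonneg_left hp1 (by positivity)
    have h4 : 4 * C' / η' * T1 ^ (-η' : ℝ) ≤
        4 * C' / η' * Y ^ (-(η' / 4) : ℝ) :=
      mul_le_mul_of_nonneg_left hp2 (by positivity)
    have h5 := hA1.trans h3
    have h6 := h0.trans (hB.trans h4)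
    linarith
  have h7 : (1 / (nm d : ℝ)) * (SA - χ d * xi k d * SB).re - κ0 / 4 * Real.log Y / nm d =
      (1 / (nm d : ℝ)) * ((SA - χ d * xi k d * SB).re - κ0 / 4 * Real.log Y) := by
    ring
  rw [h7, abs_mul, abs_of_pos (by positivity : (0 : ℝ) < 1 / nm d)]
  calc 1 / (nm d : ℝ) * |(SA - χ d * xi k d * SB).re - κ0 / 4 * Real.log Y|
      ≤ 1 / (nm d : ℝ) * ((8 * C + 4 * C' / η') * Y ^ (-(η' / 4) : ℝ)) :=
        mul_le_mul_of_nonneg_left hfin (by positivity)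
    _ ≤ 1 / (nm d : ℝ) * (Y ^ (η' / 8) * Y ^ (-(η' / 4) : ℝ)) :=
        mul_le_mul_of_nonneg_left (mul_le_mul_of_nonneg_right he2 (Real.rpow_nonneg hYpos.le _))
          (by positivity)
    _ = Y ^ (-(η' / 8)) / nm d := by
        rw [← Real.rpow_add hYpos]
        have : η' / 8 + -(η' / 4) = -(η' / 8) := by ring
        rw [this]
        ring

end Pool.Agent.ECM
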