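import Pool.Agent.Lib_MP_f1a94e_ecm.MDefs

/-!
# Block M, zero frequency: definitions
-/

set_option autoImplicit false

namespace Pool.Agent.ECM

open Finset Pool.Agent.GaussMR Pool.Agent.GaussCM Pool.Agent.OmAll

/-- normalised sums of `F` over `V (exp s)` -/
noncomputable def Af (F : G → ℂ) (s : ℝ) : ℂ := (Real.exp (-s) : ℂ) * ∑ z ∈ V (Real.exp s), F z

/-- the sum over the primes of a range with both conjugates, at height `t` -/
noncomputable def mult (F : G → ℂ) (P Q t : ℝ) : ℂ :=
  ∑ w ∈ PP P Q, (F w + F (star w)) / (nm w : ℂ) * Complex.exp (-((t * Real.log (nm w) : ℝ) : ℂ) * Complex.I)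

/-- partial sums of the `L`-series at `1` -/
noncomputable def SL (χ : G → ℂ) (Y : ℝ) : ℂ := ∑ z ∈ ob Y, χ z / (nm z : ℂ)

/-- the exponential series of a character -/
noncomputable def HH (χ : G → ℂ) (s : ℝ) : ℂ := ∑' z : G, χ z * (Real.exp (-(s * nm z)) : ℂ)

open Classical in
/-- the theta series without the constant term -/
noncomputable def Th (u : ℝ) : ℝ := ∑' z : G, if z = 0 then 0 else Real.exp (-(u * nm z))

/-- the Bessel kernel `∫ exp (-u - y / u) du / u` -/
noncomputable def KB (y : ℝ) : ℝ := ∫ u in Set.Ioi (0 : ℝ), Real.exp (-u - y / u) / u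

end Pool.Agent.ECM
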